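import Pool.Agent.AMS.NB

/-!
# (ALN): the operator `X₀` has at most two eigenvalues
-/

set_option autoImplicit false

namespace Pool.Agent.AMS

open Classical in
/-- The other state with the same colour at the far end. -/
private noncomputable def AlgN_tog {H : Type} (Γ : Fat H) (f : H) (δ : H → ℤ) : H → ℤ :=
  Function.update δ f (δ (Γ.opp f) - (δ f - δ (Γ.opp f)))

section leafv

variable {H : Type} {Γ : Fat H} {φ : H → ℤ} {col : H → ℕ} {l f : H}

private theorem AlgN_ne1 (hl : Γ.nxt l = l) (hf : Γ.nxt f = Γ.opp l) : Γ.nxt f ≠ f := by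
  intro h
  have h1 : f = Γ.opp l := h.symm.trans hf
  rw [h1] at h
  exact Γ.leaf_opp l hl h

private theorem AlgN_flow (hφ : IsFlow Γ φ) (hl : Γ.nxt l = l) (hf : Γ.nxt f = Γ.opp l) :
    φ (Γ.nxt f) = 0 ∧ |φ (Γ.nxt (Γ.nxt f))| = |φ f| := by
  have hnf : Γ.nxt f ≠ f := AlgN_ne1 hl hf
  have hφm : φ (Γ.nxt f) = 0 := by
    rw [hf]
    refine (hφ.zero _).2 (Or.inr ?_)
    rw [Γ.opp_opp]
    exact hl
  have hφv := hφ.vert f hnf
  rw [hφm, add_zero] at hφv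
  have : φ (Γ.nxt (Γ.nxt f)) = -φ f := by omega
  exact ⟨hφm, by rw [this, abs_neg]⟩

private theorem AlgN_dich (hφ : IsFlow Γ φ) (hl : Γ.nxt l = l) (hf : Γ.nxt f = Γ.opp l)
    {δ : H → ℤ} (hδ : IsG Γ φ col f δ)
    (hne : (col l : ℤ) + 1 + (δ f - δ (Γ.opp f)) * (δ (Γ.opp f) - δ (Γ.nxt (Γ.nxt f))) ≠ 0) :
    IsG Γ φ col f (AlgN_tog Γ f δ) := by
  classical
  have hnf : Γ.nxt f ≠ f := AlgN_ne1 hl hf
  obtain ⟨h1, h2, h3, h4, h5⟩ := hδ
  have hlf : l ≠ f := by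
    intro h
    rw [← h] at hnf
    exact hnf hl
  have hlof : l ≠ Γ.opp f := by
    intro h
    rw [h, Γ.opp_opp] at hf
    exact hnf hf
  have hmf : Γ.opp l ≠ f := by
    intro h
    rw [← hf] at h
    exact hnf h
  have hof : Γ.opp f ≠ f := Γ.opp_ne f
  have hnnf : Γ.nxt (Γ.nxt f) ≠ f := NB_nl2 hnf
  have hnnn : Γ.nxt (Γ.nxt f) ≠ Γ.nxt f := NB_nl hnf
  have h3f : Γ.nxt (Γ.nxt (Γ.nxt f)) = f := Γ.nxt3 f
  -- the colour of the leaf edge
  have hm : δ (Γ.nxt f) = col l := by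
    rw [hf, h4 l hlf hlof, h1 l hl]
  -- the flow
  have hφm : φ (Γ.nxt f) = 0 := by
    rw [hf]
    refine (hφ.zero _).2 (Or.inr ?_)
    rw [Γ.opp_opp]
    exact hl
  have hφv := hφ.vert f hnf
  rw [hφm, add_zero] at hφv
  have hφf : φ f ≠ 0 := by
    rcases hφ.one f hnf with h | h
    · exact h
    · exact absurd hφm h
  have habs : |φ (Γ.nxt (Γ.nxt f))| = |φ f| := by
    have : φ (Γ.nxt (Γ.nxt f)) = -φ f := by omega
    rw [this, abs_neg]
  -- walls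
  have w1 : δ f ≤ δ (Γ.nxt f) + δ (Γ.nxt (Γ.nxt f)) := by
    refine h3 f hnf ?_
    rw [hφm, habs]
    simp
  have w2 : δ (Γ.nxt (Γ.nxt f)) ≤ δ f + δ (Γ.nxt f) := by
    have := h3 (Γ.nxt (Γ.nxt f)) (by rw [h3f]; exact hnnf.symm) (by rw [h3f, hφm, habs]; simp)
    rwa [h3f] at this
  have par := h2 f hnf
  rw [hm] at par w1 w2
  obtain ⟨c, hc⟩ := par
  -- the new wall conditions
  have key : (δ (Γ.opp f) - (δ f - δ (Γ.opp f)) ≤ col l + δ (Γ.nxt (Γ.nxt f))) ∧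
      (δ (Γ.nxt (Γ.nxt f)) ≤ (δ (Γ.opp f) - (δ f - δ (Γ.opp f))) + col l) := by
    rcases h5 with h5 | h5
    · have e1 : δ f - δ (Γ.opp f) = 1 := by omega
      rw [e1, one_mul] at hne
      rw [e1]
      omega
    · have e1 : δ f - δ (Γ.opp f) = -1 := by omega
      rw [e1] at hne
      rw [e1]
      omega
  have tf : AlgN_tog Γ f δ f = δ (Γ.opp f) - (δ f - δ (Γ.opp f)) := by
    simp [AlgN_tog]
  have tn : ∀ h, h ≠ f → AlgN_tog Γ f δ h = δ h := by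
    intro h hh
    simp [AlgN_tog, hh]
  refine ⟨?_, ?_, ?_, ?_, ?_⟩
  · intro h hh
    rw [tn h (by rintro rfl; exact hnf hh)]
    exact h1 h hh
  · intro h hh
    have a1 := NB_nl hh
    have a2 := NB_nl2 hh
    have p := h2 h hh
    by_cases b1 : h = f
    · subst b1
      rw [tf, tn _ hnf, tn _ hnnf]
      obtain ⟨d, hd⟩ := p
      rcases h5 with h5 | h5
      · exact ⟨d - 1, by omega⟩
      · exact ⟨d + 1, by omega⟩
    · by_cases b2 : Γ.nxt h = f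
      · rw [b2, tf, tn _ b1, tn _ hnf]
        rw [b2] at p
        obtain ⟨d, hd⟩ := p
        rcases h5 with h5 | h5
        · exact ⟨d - 1, by omega⟩
        · exact ⟨d + 1, by omega⟩
      · by_cases b3 : Γ.nxt (Γ.nxt h) = f
        · rw [b3, tf, tn _ b1, tn _ b2]
          rw [b3] at p
          obtain ⟨d, hd⟩ := p
          rcases h5 with h5 | h5
          · exact ⟨d - 1, by omega⟩
          · exact ⟨d + 1, by omega⟩
        · rw [tn _ b1, tn _ b2, tn _ b3]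
          exact p
  · intro h hh hw
    by_cases b1 : h = f
    · subst b1
      rw [tf, tn _ hnf, tn _ hnnf, hm]
      exact key.1
    · by_cases b2 : Γ.nxt h = f
      · have b4 : h = Γ.nxt (Γ.nxt f) := by
          rw [← b2, Γ.nxt3]
        rw [b2, tf, tn _ b1, tn _ hnf, hm, b4]
        exact key.2
      · by_cases b3 : Γ.nxt (Γ.nxt h) = f
        · exfalso
          have b4 : h = Γ.nxt f := by
            rw [← b3, Γ.nxt3]
          rw [b4, hφm, h3f] at hw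
          have := abs_pos.2 hφf
          have := abs_nonneg (φ (Γ.nxt (Γ.nxt f)))
          rw [abs_zero] at hw
          omega
        · rw [tn _ b1, tn _ b2, tn _ b3]
          exact h3 h hh hw
  · intro h a1 a2
    rw [tn _ a1, tn _ (by
      intro hh
      apply a2
      rw [← hh, Γ.opp_opp])]
    exact h4 h a1 a2
  · rw [tf, tn _ hof]
    rcases h5 with h5 | h5
    · right
      omega
    · left
      omega

end leafv

section grp

variable {H : Type} {Γ : Fat H} {φ : H → ℤ} {col : H → ℕ} {f e : H}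

private def AlgN_val (Γ : Fat H) (φ : H → ℤ) (col : H → ℕ) (f : H) (δ : GSt Γ φ col f) :
    H → ℤ := δ.1

/-- The states as elements of the group algebra. -/
private noncomputable def AlgN_emb (Γ : Fat H) (φ : H → ℤ) (col : H → ℕ) (f : H) :
    (GSt Γ φ col f →₀ ℚ) →ₗ[ℚ] AddMonoidAlgebra ℚ (H → ℤ) where
  toFun x := AddMonoidAlgebra.ofCoeff (Finsupp.mapDomain (AlgN_val Γ φ col f) x)
  map_add' x y := by
    rw [Finsupp.mapDomain_add]
    rfl
  map_smul' c x := by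
    rw [Finsupp.mapDomain_smul]
    rfl

private theorem AlgN_emb_inj {x y : GSt Γ φ col f →₀ ℚ}
    (h : AlgN_emb Γ φ col f x = AlgN_emb Γ φ col f y) : x = y :=
  Finsupp.mapDomain_injective (f := AlgN_val Γ φ col f) (fun _ _ h1 => Subtype.ext h1)
    (AddMonoidAlgebra.ofCoeff_injective h)

private theorem AlgN_emb_single (δ : GSt Γ φ col f) (a : ℚ) :
    AlgN_emb Γ φ col f (Finsupp.single δ a) = AddMonoidAlgebra.single δ.1 a := by
  change AddMonoidAlgebra.ofCoeff (Finsupp.mapDomain (AlgN_val Γ φ col f) (Finsupp.single δ a)) = _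
  rw [Finsupp.mapDomain_single]
  rfl

private noncomputable def AlgN_G (V : List (ℤ × (H → ℤ))) (s : ℤ) : AddMonoidAlgebra ℚ (H → ℤ) :=
  (V.map fun x => AddMonoidAlgebra.single ((2 * s) • x.2) (x.1 : ℚ)).sum

private theorem AlgN_tog_opp (δ : H → ℤ) : AlgN_tog Γ f δ (Γ.opp f) = δ (Γ.opp f) := by
  classical
  simp [AlgN_tog, Γ.opp_ne f]

private theorem AlgN_tog_self (δ : H → ℤ) :
    AlgN_tog Γ f δ f = δ (Γ.opp f) - (δ f - δ (Γ.opp f)) := by
  classical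
  simp [AlgN_tog]

private theorem AlgN_tog_of_ne (δ : H → ℤ) {h : H} (hh : h ≠ f) : AlgN_tog Γ f δ h = δ h := by
  classical
  simp [AlgN_tog, hh]

/-- The hypotheses on the vectors. -/
private def AlgN_HV (Γ : Fat H) (φ : H → ℤ) (col : H → ℕ) (f e : H) (v : H → ℤ) : Prop :=
  (∀ h, v (Γ.opp h) = v h) ∧ v e = v f ∧
    ∀ δ : H → ℤ, IsG Γ φ col f δ → IsG Γ φ col f (δ + v) ∧ IsG Γ φ col f (δ - v)

private theorem AlgN_two {v : H → ℤ} (hv : AlgN_HV Γ φ col f e v) {δ : H → ℤ}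
    (hδ : IsG Γ φ col f δ) {s : ℤ} (hs : s = 1 ∨ s = -1) : IsG Γ φ col f (δ + (2 * s) • v) := by
  rcases hs with rfl | rfl
  · have h1 := (hv.2.2 _ (hv.2.2 _ hδ).1).1
    have e1 : δ + (2 * 1 : ℤ) • v = δ + v + v := by
      ext h
      simp
      ring
    rw [e1]
    exact h1
  · have h1 := (hv.2.2 _ (hv.2.2 _ hδ).2).2
    have e1 : δ + (2 * (-1) : ℤ) • v = δ - v - v := by
      ext h
      simp
      ring
    rw [e1]
    exact h1

private theorem AlgN_sgn {δ : H → ℤ} (hδ : IsG Γ φ col f δ) {s : ℤ}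
    (hs : s = δ f - δ (Γ.opp f)) : s = 1 ∨ s = -1 := by
  rcases hδ.2.2.2.2 with h | h
  · left
    omega
  · right
    omega

private theorem AlgN_tog_tog {v : H → ℤ} (hv : AlgN_HV Γ φ col f e v) (δ : H → ℤ) {s : ℤ}
    (hs : s = δ f - δ (Γ.opp f)) :
    AlgN_tog Γ f (AlgN_tog Γ f δ + (2 * s) • v) = δ + (2 * s) • v := by
  have h1 := hv.1 f
  ext h
  by_cases hh : h = f
  · subst hh
    rw [AlgN_tog_self]
    simp only [Pi.add_apply, Pi.smul_apply, smul_eq_mul, AlgN_tog_self, AlgN_tog_opp, h1, hs]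
    ring
  · rw [AlgN_tog_of_ne _ hh]
    simp only [Pi.add_apply, Pi.smul_apply, smul_eq_mul, AlgN_tog_of_ne _ hh]

private def AlgN_mk {δ : H → ℤ} (h : IsG Γ φ col f δ) : GSt Γ φ col f := ⟨δ, h⟩

private theorem AlgN_mk_val {δ : H → ℤ} (h : IsG Γ φ col f δ) : (AlgN_mk h).1 = δ := rfl

private theorem AlgN_pt {δ : H → ℤ} (h : IsG Γ φ col f δ) (a : ℚ) :
    pt Γ φ col f δ a = Finsupp.single (AlgN_mk h) a := NB_pt_pos φ col h a

private theorem AlgN_emb_mk {δ : H → ℤ} (h : IsG Γ φ col f δ) (a : ℚ) :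
    AlgN_emb Γ φ col f (Finsupp.single (AlgN_mk h) a) = AddMonoidAlgebra.single δ a :=
  AlgN_emb_single _ a

/-- The formula for the operator. -/
private def AlgN_HN (Γ : Fat H) (φ : H → ℤ) (col : H → ℕ) (f e : H) (V : List (ℤ × (H → ℤ)))
    (t ε : ℤ) (N : Module.End ℚ (GSt Γ φ col f →₀ ℚ)) : Prop :=
  ∀ (δ : GSt Γ φ col f) (s k : ℤ), s = δ.1 f - δ.1 (Γ.opp f) → k = δ.1 (Γ.opp f) - δ.1 e →
    N (Finsupp.single δ 1) = Finsupp.single δ (-(2 * ε * s * k : ℚ)) + (V.map fun x =>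
      pt Γ φ col f (AlgN_tog Γ f δ.1 + (2 * s) • x.2) (2 * x.1 * (t + 1 + s * k) : ℚ)).sum

variable {V : List (ℤ × (H → ℤ))} {t ε : ℤ} {N : Module.End ℚ (GSt Γ φ col f →₀ ℚ)}

private theorem AlgN_A (hV : ∀ x ∈ V, AlgN_HV Γ φ col f e x.2)
    (hN : AlgN_HN Γ φ col f e V t ε N) (δ : GSt Γ φ col f)
    (ht : IsG Γ φ col f (AlgN_tog Γ f δ.1)) {s k : ℤ} (hs : s = δ.1 f - δ.1 (Γ.opp f))
    (hk : k = δ.1 (Γ.opp f) - δ.1 e) :
    AlgN_emb Γ φ col f (N (Finsupp.single δ 1)) =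
      (-(2 * ε * s * k : ℚ)) • AddMonoidAlgebra.single δ.1 (1 : ℚ) +
      (2 * (t + 1 + s * k) : ℚ) • (AddMonoidAlgebra.single (AlgN_tog Γ f δ.1) (1 : ℚ) *
        AlgN_G V s) := by
  rw [hN δ s k hs hk, map_add, AlgN_emb_single, map_list_sum, List.map_map, AlgN_G,
    ← List.sum_map_mul_left, List.smul_sum, List.map_map]
  congr 1
  · rw [AddMonoidAlgebra.smul_single, smul_eq_mul, mul_one]
  · congr 1
    refine List.map_congr_left fun x hx => ?_
    have h1 := AlgN_two (hV x hx) ht (AlgN_sgn δ.2 hs)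
    simp only [Function.comp_apply]
    rw [AlgN_pt h1, AlgN_emb_mk, AddMonoidAlgebra.single_mul_single,
      AddMonoidAlgebra.smul_single, smul_eq_mul, one_mul]
    congr 1
    ring

private theorem AlgN_B (hef : e ≠ f) (hV : ∀ x ∈ V, AlgN_HV Γ φ col f e x.2)
    (hN : AlgN_HN Γ φ col f e V t ε N) (δ : GSt Γ φ col f)
    (ht : IsG Γ φ col f (AlgN_tog Γ f δ.1)) {s k : ℤ} (hs : s = δ.1 f - δ.1 (Γ.opp f))
    (hk : k = δ.1 (Γ.opp f) - δ.1 e) :
    AlgN_emb Γ φ col f (N (N (Finsupp.single δ 1))) =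
      ((4 * ε ^ 2 * k ^ 2 : ℚ) • (1 : AddMonoidAlgebra ℚ (H → ℤ)) +
        (4 * ((t + 1) ^ 2 - k ^ 2) : ℚ) • (AlgN_G V 1 * AlgN_G V (-1))) *
      AddMonoidAlgebra.single δ.1 (1 : ℚ) := by
  have hs1 := AlgN_sgn δ.2 hs
  have hA := AlgN_A hV hN δ ht hs hk
  have hsum : AlgN_emb Γ φ col f (N ((V.map fun x => pt Γ φ col f
      (AlgN_tog Γ f δ.1 + (2 * s) • x.2) (2 * x.1 * (t + 1 + s * k) : ℚ)).sum)) =
      AlgN_G V s * ((4 * ε * s * k * (t + 1 + s * k) : ℚ) •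
        AddMonoidAlgebra.single (AlgN_tog Γ f δ.1) (1 : ℚ) +
        (4 * (t + 1 + s * k) * (t + 1 - s * k) : ℚ) •
          (AddMonoidAlgebra.single δ.1 (1 : ℚ) * AlgN_G V (-s))) := by
    rw [map_list_sum, map_list_sum, List.map_map, List.map_map, AlgN_G, ← List.sum_map_mul_right]
    congr 1
    refine List.map_congr_left fun x hx => ?_
    have h1 := AlgN_two (hV x hx) ht hs1
    simp only [Function.comp_apply]
    rw [AlgN_pt h1]
    have e1 : (Finsupp.single (AlgN_mk h1) (2 * x.1 * (t + 1 + s * k) : ℚ)) =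
        (2 * x.1 * (t + 1 + s * k) : ℚ) • Finsupp.single (AlgN_mk h1) (1 : ℚ) := by
      rw [Finsupp.smul_single, smul_eq_mul, mul_one]
    rw [e1, map_smul, map_smul]
    have h2 : AlgN_tog Γ f (AlgN_tog Γ f δ.1 + (2 * s) • x.2) = δ.1 + (2 * s) • x.2 :=
      AlgN_tog_tog (hV x hx) δ.1 hs
    have h3 : IsG Γ φ col f (AlgN_tog Γ f (AlgN_tog Γ f δ.1 + (2 * s) • x.2)) := by
      rw [h2]
      exact AlgN_two (hV x hx) δ.2 hs1
    have h4 : -s = (AlgN_tog Γ f δ.1 + (2 * s) • x.2) f -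
        (AlgN_tog Γ f δ.1 + (2 * s) • x.2) (Γ.opp f) := by
      simp only [Pi.add_apply, Pi.smul_apply, smul_eq_mul, AlgN_tog_self, AlgN_tog_opp,
        (hV x hx).1 f, hs]
      ring
    have h5 : k = (AlgN_tog Γ f δ.1 + (2 * s) • x.2) (Γ.opp f) -
        (AlgN_tog Γ f δ.1 + (2 * s) • x.2) e := by
      simp only [Pi.add_apply, Pi.smul_apply, smul_eq_mul, AlgN_tog_of_ne _ hef, AlgN_tog_opp,
        (hV x hx).1 f, (hV x hx).2.1, hk]
      ring
    rw [AlgN_A hV hN (AlgN_mk h1) h3 h4 h5]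
    change (2 * x.1 * (t + 1 + s * k) : ℚ) • ((-(2 * ε * ((-s : ℤ) : ℚ) * k : ℚ)) •
      AddMonoidAlgebra.single (AlgN_tog Γ f δ.1 + (2 * s) • x.2) (1 : ℚ) +
      (2 * (t + 1 + ((-s : ℤ) : ℚ) * k) : ℚ) • (AddMonoidAlgebra.single
        (AlgN_tog Γ f (AlgN_tog Γ f δ.1 + (2 * s) • x.2)) (1 : ℚ) * AlgN_G V (-s))) = _
    rw [h2]
    have e2 : ∀ u w : H → ℤ, AddMonoidAlgebra.single (u + w) (1 : ℚ) =
        AddMonoidAlgebra.single u (1 : ℚ) * AddMonoidAlgebra.single w (1 : ℚ) := by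
      intro u w
      rw [AddMonoidAlgebra.single_mul_single, mul_one]
    have e3 : AddMonoidAlgebra.single ((2 * s) • x.2) (x.1 : ℚ) =
        (x.1 : ℚ) • AddMonoidAlgebra.single ((2 * s) • x.2) (1 : ℚ) := by
      rw [AddMonoidAlgebra.smul_single, smul_eq_mul, mul_one]
    rw [e2, e2, e3]
    simp only [Algebra.smul_def, map_mul, map_add, map_sub, map_neg, map_ofNat, map_one,
      Int.cast_neg]
    ring
  have hG : AlgN_G V s * AlgN_G V (-s) = AlgN_G V 1 * AlgN_G V (-1) := by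
    rcases hs1 with rfl | rfl
    · rfl
    · rw [neg_neg, mul_comm]
  have hss : (s : ℚ) ^ 2 = 1 := by
    rcases hs1 with rfl | rfl <;> norm_num
  rw [hN δ s k hs hk, map_add, map_add, hsum]
  have e1 : (Finsupp.single δ (-(2 * ε * s * k : ℚ))) =
      (-(2 * ε * s * k : ℚ)) • Finsupp.single δ (1 : ℚ) := by
    rw [Finsupp.smul_single, smul_eq_mul, mul_one]
  rw [e1, map_smul, map_smul, hA, ← hG]
  have e4 : (4 * ε ^ 2 * k ^ 2 : ℚ) = (-(2 * ε * s * k)) * (-(2 * ε * s * k)) := by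
    linear_combination (-(4 * ε ^ 2 * k ^ 2 : ℚ)) * hss
  have e5 : (4 * ((t + 1) ^ 2 - k ^ 2) : ℚ) = 4 * (t + 1 + s * k) * (t + 1 - s * k) := by
    linear_combination (4 * k ^ 2 : ℚ) * hss
  rw [e4, e5]
  simp only [Algebra.smul_def, map_mul, map_add, map_sub, map_neg, map_ofNat, map_one]
  ring

/-- The span of the states with the given value `k` which can be toggled. -/
private noncomputable def AlgN_Q (Γ : Fat H) (φ : H → ℤ) (col : H → ℕ) (f e : H) (k : ℤ) :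
    Submodule ℚ (GSt Γ φ col f →₀ ℚ) :=
  Submodule.span ℚ {y | ∃ δ : GSt Γ φ col f, k = δ.1 (Γ.opp f) - δ.1 e ∧
    IsG Γ φ col f (AlgN_tog Γ f δ.1) ∧ y = Finsupp.single δ 1}

private theorem AlgN_Q_inv (hef : e ≠ f) (hV : ∀ x ∈ V, AlgN_HV Γ φ col f e x.2)
    (hN : AlgN_HN Γ φ col f e V t ε N) {k : ℤ} {y : GSt Γ φ col f →₀ ℚ}
    (hy : y ∈ AlgN_Q Γ φ col f e k) : N y ∈ AlgN_Q Γ φ col f e k := by
  have hle : AlgN_Q Γ φ col f e k ≤ (AlgN_Q Γ φ col f e k).comap N := by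
    refine Submodule.span_le.2 ?_
    rintro _ ⟨δ, hk, ht, rfl⟩
    rw [SetLike.mem_coe, Submodule.mem_comap, hN δ _ k rfl hk]
    have hs1 := AlgN_sgn δ.2 rfl
    refine Submodule.add_mem _ ?_ (list_sum_mem ?_)
    · have e1 : ∀ c : ℚ, Finsupp.single δ c = c • Finsupp.single δ (1 : ℚ) := by
        intro c
        rw [Finsupp.smul_single, smul_eq_mul, mul_one]
      rw [e1]
      exact Submodule.smul_mem _ _ (Submodule.subset_span ⟨δ, hk, ht, rfl⟩)
    · intro z hz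
      obtain ⟨x, hx, rfl⟩ := List.mem_map.1 hz
      have h1 := AlgN_two (hV x hx) ht hs1
      rw [AlgN_pt h1]
      have e1 : ∀ c : ℚ, Finsupp.single (AlgN_mk h1) c =
          c • Finsupp.single (AlgN_mk h1) (1 : ℚ) := by
        intro c
        rw [Finsupp.smul_single, smul_eq_mul, mul_one]
      rw [e1]
      refine Submodule.smul_mem _ _ (Submodule.subset_span ⟨AlgN_mk h1, ?_, ?_, rfl⟩)
      · rw [AlgN_mk_val]
        simp only [Pi.add_apply, Pi.smul_apply, smul_eq_mul, AlgN_tog_of_ne _ hef, AlgN_tog_opp,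
          (hV x hx).1 f, (hV x hx).2.1, hk]
        ring
      · rw [AlgN_mk_val, AlgN_tog_tog (hV x hx) δ.1 rfl]
        exact AlgN_two (hV x hx) δ.2 hs1
  exact hle hy

private noncomputable def AlgN_y (V : List (ℤ × (H → ℤ))) (t ε k : ℤ) :
    AddMonoidAlgebra ℚ (H → ℤ) :=
  (4 * ε ^ 2 * k ^ 2 : ℚ) • (1 : AddMonoidAlgebra ℚ (H → ℤ)) +
    (4 * ((t + 1) ^ 2 - k ^ 2) : ℚ) • (AlgN_G V 1 * AlgN_G V (-1))

private theorem AlgN_sq (hef : e ≠ f) (hV : ∀ x ∈ V, AlgN_HV Γ φ col f e x.2)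
    (hN : AlgN_HN Γ φ col f e V t ε N) {k : ℤ} {y : GSt Γ φ col f →₀ ℚ}
    (hy : y ∈ AlgN_Q Γ φ col f e k) :
    AlgN_emb Γ φ col f (N (N y)) = AlgN_y V t ε k * AlgN_emb Γ φ col f y := by
  refine Submodule.span_induction (p := fun y _ =>
    AlgN_emb Γ φ col f (N (N y)) = AlgN_y V t ε k * AlgN_emb Γ φ col f y) ?_ ?_ ?_ ?_ hy
  · rintro _ ⟨δ, hk, ht, rfl⟩
    rw [AlgN_B hef hV hN δ ht rfl hk, AlgN_emb_single]
    rfl
  · simp
  · intro a b _ _ ha hb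
    rw [map_add, map_add, map_add, map_add, ha, hb, mul_add]
  · intro a b _ hb
    rw [map_smul, map_smul, map_smul, map_smul, hb, mul_smul_comm]

private theorem AlgN_poly (hef : e ≠ f) (hV : ∀ x ∈ V, AlgN_HV Γ φ col f e x.2)
    (hN : AlgN_HN Γ φ col f e V t ε N) {k : ℤ} (P : Polynomial ℚ) :
    ∀ y ∈ AlgN_Q Γ φ col f e k,
    AlgN_emb Γ φ col f ((Polynomial.aeval (R := ℚ) (A := Module.End ℚ (GSt Γ φ col f →₀ ℚ))
      (N * N) P) y) =
      Polynomial.aeval (AlgN_y V t ε k) P * AlgN_emb Γ φ col f y := by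
  induction P using Polynomial.induction_on with
  | C a =>
    intro y _
    rw [Polynomial.aeval_C, Polynomial.aeval_C, Module.algebraMap_end_apply, map_smul,
      Algebra.smul_def]
  | add p q hp hq =>
    intro y hy
    rw [map_add, map_add, LinearMap.add_apply, map_add, hp y hy, hq y hy, add_mul]
  | monomial n a ih =>
    intro y hy
    have e1 : (Polynomial.C a * Polynomial.X ^ (n + 1) : Polynomial ℚ) =
        (Polynomial.C a * Polynomial.X ^ n) * Polynomial.X := by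
      rw [pow_succ, mul_assoc]
    have e2 : Polynomial.aeval (R := ℚ) (A := Module.End ℚ (GSt Γ φ col f →₀ ℚ)) (N * N)
        ((Polynomial.C a * Polynomial.X ^ n) * Polynomial.X) =
        Polynomial.aeval (R := ℚ) (A := Module.End ℚ (GSt Γ φ col f →₀ ℚ)) (N * N)
          (Polynomial.C a * Polynomial.X ^ n) * (N * N) := by
      rw [Polynomial.aeval_mul, Polynomial.aeval_X]
    have e3 : Polynomial.aeval (AlgN_y V t ε k)
        ((Polynomial.C a * Polynomial.X ^ n) * Polynomial.X) =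
        Polynomial.aeval (AlgN_y V t ε k) (Polynomial.C a * Polynomial.X ^ n) *
          AlgN_y V t ε k := by
      rw [Polynomial.aeval_mul, Polynomial.aeval_X]
    rw [e1, e2, e3, Module.End.mul_apply, Module.End.mul_apply,
      ih _ (AlgN_Q_inv hef hV hN (AlgN_Q_inv hef hV hN hy)), mul_assoc]
    congr 1
    exact AlgN_sq hef hV hN hy

/-- The augmentation of the group algebra. -/
private noncomputable def AlgN_aug (H : Type) : AddMonoidAlgebra ℚ (H → ℤ) →ₐ[ℚ] ℚ :=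
  AddMonoidAlgebra.lift ℚ ℚ (H → ℤ) 1

private theorem AlgN_aug_single (u : H → ℤ) (a : ℚ) :
    AlgN_aug H (AddMonoidAlgebra.single u a) = a := by
  rw [AlgN_aug, AddMonoidAlgebra.lift_single]
  simp

private theorem AlgN_aug_G (V : List (ℤ × (H → ℤ))) (s : ℤ) :
    AlgN_aug H (AlgN_G V s) = ((V.map Prod.fst).sum : ℤ) := by
  rw [AlgN_G, map_list_sum, List.map_map]
  induction V with
  | nil => simp
  | cons x V ih =>
    rw [List.map_cons, List.sum_cons, List.map_cons, List.sum_cons, Int.cast_add, ih,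
      Function.comp_apply, AlgN_aug_single]

private theorem AlgN_const (hef : e ≠ f) (hV : ∀ x ∈ V, AlgN_HV Γ φ col f e x.2)
    (hN : AlgN_HN Γ φ col f e V t ε N) (hε : (V.map Prod.fst).sum = ε) (S : Finset ℤ) (c : ℤ → ℚ)
    (hP : Polynomial.aeval (R := ℚ) (A := Module.End ℚ (GSt Γ φ col f →₀ ℚ)) (N * N)
      (∏ j ∈ S, (Polynomial.X - Polynomial.C (c j))) = 0) (δ : GSt Γ φ col f)
    (ht : IsG Γ φ col f (AlgN_tog Γ f δ.1)) {k : ℤ} (hk : k = δ.1 (Γ.opp f) - δ.1 e)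
    (hne : ((t : ℚ) + 1) ^ 2 - (k : ℚ) ^ 2 ≠ 0) :
    AlgN_G V 1 * AlgN_G V (-1) = algebraMap ℚ _ ((ε : ℚ) ^ 2) := by
  have h1 := AlgN_poly hef hV hN (∏ j ∈ S, (Polynomial.X - Polynomial.C (c j)))
    (Finsupp.single δ 1) (Submodule.subset_span ⟨δ, hk, ht, rfl⟩)
  rw [hP, LinearMap.zero_apply, map_zero, AlgN_emb_single] at h1
  have h2 : AddMonoidAlgebra.single δ.1 (1 : ℚ) ≠ 0 := by
    intro h
    have h3 := congrArg (AlgN_aug H) h
    rw [AlgN_aug_single, map_zero] at h3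
    exact one_ne_zero h3
  have h3 := (mul_eq_zero.1 h1.symm).resolve_right h2
  rw [map_prod] at h3
  obtain ⟨j, -, hj⟩ := Finset.prod_eq_zero_iff.1 h3
  rw [map_sub, Polynomial.aeval_X, Polynomial.aeval_C] at hj
  have h4 : AlgN_y V t ε k = algebraMap ℚ _ (c j) := sub_eq_zero.1 hj
  have hne4 : (4 * ((t + 1) ^ 2 - k ^ 2) : ℚ) ≠ 0 := mul_ne_zero (by norm_num) hne
  have h5 : AlgN_G V 1 * AlgN_G V (-1) =
      algebraMap ℚ _ ((4 * ((t + 1) ^ 2 - k ^ 2) : ℚ)⁻¹ * (c j - 4 * ε ^ 2 * k ^ 2)) := by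
    have h6 : (4 * ((t + 1) ^ 2 - k ^ 2) : ℚ) • (AlgN_G V 1 * AlgN_G V (-1)) =
        algebraMap ℚ _ (c j - 4 * ε ^ 2 * k ^ 2) := by
      rw [map_sub, ← h4, AlgN_y, Algebra.algebraMap_eq_smul_one (4 * ε ^ 2 * k ^ 2 : ℚ)]
      abel
    rw [map_mul, ← h6, ← Algebra.smul_def, smul_smul, inv_mul_cancel₀ hne4, one_smul]
  have h7 := congrArg (AlgN_aug H) h5
  rw [map_mul, AlgN_aug_G, AlgN_aug_G, hε, AlgHom.commutes, Algebra.algebraMap_self,
    RingHom.id_apply] at h7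
  rw [h5, ← h7, sq]

private theorem AlgN_scal (hφ : IsFlow Γ φ) {l : H} (hl : Γ.nxt l = l)
    (hfl : Γ.nxt f = Γ.opp l) (he : e = Γ.nxt (Γ.nxt f)) (hef : e ≠ f)
    (hV : ∀ x ∈ V, AlgN_HV Γ φ col f e x.2) (htl : t = col l)
    (hN : AlgN_HN Γ φ col f e V t ε N)
    (hg : AlgN_G V 1 * AlgN_G V (-1) = algebraMap ℚ _ ((ε : ℚ) ^ 2)) :
    N * N = (4 * ε ^ 2 * (t + 1) ^ 2 : ℚ) • (1 : Module.End ℚ (GSt Γ φ col f →₀ ℚ)) := by
  refine Finsupp.lhom_ext' fun δ => LinearMap.ext_ring ?_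
  rw [LinearMap.comp_apply, LinearMap.comp_apply, Finsupp.lsingle_apply, Module.End.mul_apply,
    LinearMap.smul_apply, Module.End.one_apply]
  by_cases h0 : (col l : ℤ) + 1 + (δ.1 f - δ.1 (Γ.opp f)) *
      (δ.1 (Γ.opp f) - δ.1 (Γ.nxt (Γ.nxt f))) = 0
  · rw [← he, ← htl] at h0
    have e1 : ∀ a : ℚ, N (Finsupp.single δ a) =
        a • Finsupp.single δ (-(2 * ε * (δ.1 f - δ.1 (Γ.opp f) : ℤ) *
          (δ.1 (Γ.opp f) - δ.1 e : ℤ) : ℚ)) := by
      intro a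
      have e2 : Finsupp.single δ a = a • Finsupp.single δ (1 : ℚ) := by
        rw [Finsupp.smul_single, smul_eq_mul, mul_one]
      rw [e2, map_smul, hN δ _ _ rfl rfl]
      have e3 : (V.map fun x => pt Γ φ col f (AlgN_tog Γ f δ.1 +
          (2 * (δ.1 f - δ.1 (Γ.opp f))) • x.2) (2 * x.1 * (t + 1 +
          ((δ.1 f - δ.1 (Γ.opp f) : ℤ) : ℚ) * ((δ.1 (Γ.opp f) - δ.1 e : ℤ) : ℚ)) : ℚ)).sum
          = 0 := by
        refine List.sum_eq_zero ?_
        intro z hz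
        obtain ⟨x, -, rfl⟩ := List.mem_map.1 hz
        have h1 : ((t : ℚ) + 1 + ((δ.1 f - δ.1 (Γ.opp f) : ℤ) : ℚ) *
            ((δ.1 (Γ.opp f) - δ.1 e : ℤ) : ℚ)) = 0 := by
          exact_mod_cast h0
        rw [h1, mul_zero]
        unfold pt
        split_ifs with h2
        · exact Finsupp.single_zero _
        · rfl
      rw [e3, add_zero]
    rw [e1, one_smul, e1, Finsupp.smul_single, Finsupp.smul_single]
    congr 1
    rw [smul_eq_mul, smul_eq_mul, mul_one]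
    have h1 : ((δ.1 f - δ.1 (Γ.opp f) : ℤ) : ℚ) * ((δ.1 (Γ.opp f) - δ.1 e : ℤ) : ℚ) =
        -((t : ℚ) + 1) := by
      have : (t : ℚ) + 1 + ((δ.1 f - δ.1 (Γ.opp f) : ℤ) : ℚ) *
            ((δ.1 (Γ.opp f) - δ.1 e : ℤ) : ℚ) = 0 := by
        exact_mod_cast h0
      linear_combination this
    rw [mul_assoc, h1]
    ring
  · have ht := AlgN_dich hφ hl hfl δ.2 h0
    refine AlgN_emb_inj ?_
    rw [AlgN_B hef hV hN δ ht rfl rfl, hg, map_smul, AlgN_emb_single,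
      ← Algebra.algebraMap_eq_smul_one, Algebra.smul_def, Algebra.smul_def, ← map_mul, ← map_add]
    congr 2
    ring

end grp

theorem thm_AlgN (hG : St_GRel2) (hF : St_ConjF) : St_AlgN := by
  intro H _ Γ φ hφ col l hl δ₀ hδ₀ E J hP ε hε
  have : Fintype H := Fintype.ofFinite H
  obtain ⟨e, he⟩ : ∃ e, e = Γ.nxt (Γ.opp l) := ⟨_, rfl⟩
  obtain ⟨f, hf0⟩ : ∃ f, f = Γ.nxt e := ⟨_, rfl⟩
  have hlo : Γ.nxt (Γ.opp l) ≠ Γ.opp l := Γ.leaf_opp l hl
  have hfl : Γ.nxt f = Γ.opp l := by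
    rw [hf0, he, Γ.nxt3]
  have hf : Γ.nxt f ≠ f := AlgN_ne1 hl hfl
  have he2 : e = Γ.nxt (Γ.nxt f) := by
    rw [hfl, he]
  have hef : e ≠ f := by
    rw [hf0, he]
    exact (NB_nl hlo).symm
  have hq : l = Γ.opp (Γ.nxt f) := by
    rw [hfl, Γ.opp_opp]
  obtain ⟨V, hV1, hV2, hV3⟩ := hF H Γ φ hφ col l e f hl he hf0 hf hq E
  -- the equivalence
  have hGG := (hG H Γ φ hφ col).1 f l (Path.nil.fwd (Step.turn f l hf hq))
  have hinv : (Path.nil.fwd (Step.turn f l hf hq)).inv = Path.nil.bwd (Step.turn f l hf hq) := rfl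
  rw [hinv] at hGG
  obtain ⟨T, hT⟩ : ∃ T, T = (Path.nil.fwd (Step.turn f l hf hq)).gop φ col (rsd φ) := ⟨_, rfl⟩
  obtain ⟨T', hT'⟩ : ∃ T', T' = (Path.nil.bwd (Step.turn f l hf hq)).gop φ col (rsd φ) := ⟨_, rfl⟩
  rw [← hT, ← hT'] at hGG
  obtain ⟨X, hX⟩ : ∃ X, X = xOp Γ φ col l l E := ⟨_, rfl⟩
  rw [← hX] at hP ⊢
  simp only [← hT, ← hT', ← hX] at hV3
  let Ψ : Module.End ℚ (GSt Γ φ col l →₀ ℚ) ≃ₐ[ℚ] Module.End ℚ (GSt Γ φ col f →₀ ℚ) :=
    (LinearEquiv.ofLinearMap T' T hGG.1 hGG.2).conjAlgEquiv ℚ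
  have hΨ : ∀ Y, Ψ Y = T'.comp (Y.comp T) := fun Y => rfl
  obtain ⟨N, hNd⟩ : ∃ N, N = Ψ (X - (4 * ε : ℚ) • 1) := ⟨_, rfl⟩
  have hHV : ∀ x ∈ V, AlgN_HV Γ φ col f e x.2 := hV2
  have hN : AlgN_HN Γ φ col f e V (col l) ε N := by
    classical
    intro δ s k hs hk
    have h1 := hV3 δ s k ε hs hk hε
    rw [hNd, hΨ]
    refine h1.trans ?_
    congr 2
    refine List.map_congr_left fun x _ => ?_
    have e1 : AlgN_tog Γ f δ.1 = Function.update δ.1 f (δ.1 (Γ.opp f) - s) := by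
      rw [hs]
      rfl
    rw [e1, Int.cast_natCast]
  have hX4 : Ψ X = N + (4 * ε : ℚ) • 1 := by
    rw [hNd, map_sub, map_smul, map_one, sub_add_cancel]
  -- the polynomial relation for the square
  have hPf : Polynomial.aeval (R := ℚ) (A := Module.End ℚ (GSt Γ φ col f →₀ ℚ)) (Ψ X)
      (prodQ (Finset.Icc (-(J : ℤ)) J)) = 0 := by
    have h1 := Polynomial.aeval_algHom_apply Ψ X (prodQ (Finset.Icc (-(J : ℤ)) J))
    rw [h1, hP, map_zero]
  have hP1 : Polynomial.aeval (R := ℚ) (A := Module.End ℚ (GSt Γ φ col f →₀ ℚ)) (N * N)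
      (∏ j ∈ Finset.Icc (-(J : ℤ)) J, (Polynomial.X - Polynomial.C (((j : ℚ) - 4 * ε) ^ 2)))
      = 0 := by
    have h1 : (∏ j ∈ Finset.Icc (-(J : ℤ)) J,
        (Polynomial.X - Polynomial.C (((j : ℚ) - 4 * ε) ^ 2))).comp (Polynomial.X ^ 2) =
        (prodQ (Finset.Icc (-(J : ℤ)) J)).comp (Polynomial.X + Polynomial.C (4 * ε : ℚ)) *
        ∏ j ∈ Finset.Icc (-(J : ℤ)) J, (Polynomial.X + Polynomial.C ((j : ℚ) - 4 * ε)) := by
      rw [prodQ, Polynomial.prod_comp, Polynomial.prod_comp, ← Finset.prod_mul_distrib]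
      refine Finset.prod_congr rfl fun j _ => ?_
      rw [Polynomial.sub_comp, Polynomial.X_comp, Polynomial.C_comp, Polynomial.sub_comp,
        Polynomial.X_comp, Polynomial.C_comp, map_pow, map_sub]
      ring
    have h2 : Polynomial.aeval (R := ℚ) (A := Module.End ℚ (GSt Γ φ col f →₀ ℚ)) N
        (Polynomial.X ^ 2 : Polynomial ℚ) = N * N := by
      rw [map_pow, Polynomial.aeval_X, sq]
    have h3 : Polynomial.aeval (R := ℚ) (A := Module.End ℚ (GSt Γ φ col f →₀ ℚ)) N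
        (Polynomial.X + Polynomial.C (4 * ε : ℚ)) = Ψ X := by
      rw [map_add, Polynomial.aeval_X, Polynomial.aeval_C, hX4, Algebra.algebraMap_eq_smul_one]
    rw [← h2, ← Polynomial.aeval_comp, h1, Polynomial.aeval_mul, Polynomial.aeval_comp, h3, hPf,
      zero_mul]
  -- a state which can be toggled
  obtain ⟨s', hs', hδ₁⟩ : ∃ s' : ℤ, (s' = 1 ∨ s' = -1) ∧ IsG Γ φ col f (dnT Γ f s' δ₀.1) := by
    by_contra hno
    have n1 : ¬ IsG Γ φ col f (dnT Γ f 1 δ₀.1) := fun h => hno ⟨1, Or.inl rfl, h⟩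
    have n2 : ¬ IsG Γ φ col f (dnT Γ f (-1) δ₀.1) := fun h => hno ⟨-1, Or.inr rfl, h⟩
    have h1 : T' (Finsupp.single δ₀ 1) = 0 := by
      rw [hT']
      have h2 := NB_turn' φ col (rsd φ) hf hq δ₀
      rw [NB_pt_neg φ col n1, NB_pt_neg φ col n2, add_zero] at h2
      exact h2
    have h2 := LinearMap.congr_fun hGG.2 (Finsupp.single δ₀ 1)
    rw [LinearMap.comp_apply, h1, map_zero, LinearMap.id_apply] at h2
    exact one_ne_zero (Finsupp.single_eq_zero.1 h2.symm)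
  have hlf : f ≠ l := by
    intro h
    rw [h] at hf
    exact hf hl
  have hof : Γ.opp f ≠ f := Γ.opp_ne f
  have hom : Γ.opp f ≠ Γ.nxt f := by
    intro h
    rw [hfl] at h
    apply hlf
    rw [← Γ.opp_opp f, h, Γ.opp_opp]
  have hem : e ≠ Γ.nxt f := by
    rw [hfl, he]
    exact hlo
  have hfm : f ≠ Γ.opp l := by
    intro h
    rw [← hfl] at h
    exact hf h.symm
  have d1 : dnT Γ f s' δ₀.1 (Γ.opp f) = δ₀.1 f := by
    rw [dnT, if_neg hof, if_neg hom]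
    exact δ₀.2.2.2.2.1 f hlf hfm
  have d2 : dnT Γ f s' δ₀.1 e = δ₀.1 e := by
    rw [dnT, if_neg hef, if_neg hem]
  have d3 : dnT Γ f s' δ₀.1 f = δ₀.1 f + s' := by
    rw [dnT, if_pos rfl]
  obtain ⟨hφm, hφe⟩ := AlgN_flow hφ hl hfl
  have w1 : δ₀.1 f ≤ δ₀.1 (Γ.nxt f) + δ₀.1 (Γ.nxt (Γ.nxt f)) := by
    refine δ₀.2.2.2.1 f hf ?_
    rw [hφm, hφe]
    simp
  have w2 : δ₀.1 (Γ.nxt (Γ.nxt f)) ≤ δ₀.1 f + δ₀.1 (Γ.nxt f) := by
    have := δ₀.2.2.2.1 (Γ.nxt (Γ.nxt f)) (by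
      rw [Γ.nxt3, ← he2]
      exact hef.symm) (by
      rw [Γ.nxt3, hφm, hφe]
      simp)
    rwa [Γ.nxt3] at this
  rw [hfl, hδ₀, ← hfl, ← he2] at w1 w2
  obtain ⟨k, hk⟩ : ∃ k, k = δ₀.1 f - δ₀.1 e := ⟨_, rfl⟩
  have ht : IsG Γ φ col f (AlgN_tog Γ f (dnT Γ f s' δ₀.1)) := by
    refine AlgN_dich hφ hl hfl hδ₁ ?_
    rw [← he2, d1, d2, d3, ← hk]
    have e1 : δ₀.1 f + s' - δ₀.1 f = s' := by ring
    rw [e1]
    rcases hs' with rfl | rfl
    · omega
    · omega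
  have hk2 : (((col l : ℤ) : ℚ) + 1) ^ 2 - (k : ℚ) ^ 2 ≠ 0 := by
    have h1 : ((col l : ℤ) + 1 - k) * ((col l : ℤ) + 1 + k) ≠ 0 :=
      mul_ne_zero (by omega) (by omega)
    intro h2
    apply h1
    have h3 : (((((col l : ℤ) + 1 - k) * ((col l : ℤ) + 1 + k) : ℤ)) : ℚ) = 0 := by
      push_cast
      push_cast at h2
      linear_combination h2
    exact_mod_cast h3
  have hεV : (V.map Prod.fst).sum = ε := by
    rw [hV1, hε]
  have hg := AlgN_const hef hHV hN hεV _ (fun j => ((j : ℚ) - 4 * ε) ^ 2) hP1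
    (⟨_, hδ₁⟩ : GSt Γ φ col f) ht (k := k) (by
      change k = dnT Γ f s' δ₀.1 (Γ.opp f) - dnT Γ f s' δ₀.1 e
      rw [d1, d2, hk]) hk2
  have hNN := AlgN_scal hφ hl hfl he2 hef hHV rfl hN hg
  -- the quadratic relation
  have hquad : Polynomial.aeval (R := ℚ) (A := Module.End ℚ (GSt Γ φ col l →₀ ℚ)) X
      ((Polynomial.X - Polynomial.C ((ε * (4 + 2 * (col l + 1)) : ℤ) : ℚ)) *
        (Polynomial.X - Polynomial.C ((ε * (4 - 2 * (col l + 1)) : ℤ) : ℚ))) = 0 := by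
    apply Ψ.injective
    rw [map_zero, Polynomial.aeval_mul, map_mul]
    simp only [map_sub, Polynomial.aeval_X, Polynomial.aeval_C, AlgEquiv.commutes, hX4]
    have e1 : N + (4 * ε : ℚ) • 1 - algebraMap ℚ (Module.End ℚ (GSt Γ φ col f →₀ ℚ))
        ((ε * (4 + 2 * (col l + 1)) : ℤ) : ℚ) =
        N - (2 * ε * (col l + 1) : ℚ) • 1 := by
      rw [Algebra.algebraMap_eq_smul_one]
      push_cast
      module
    have e2 : N + (4 * ε : ℚ) • 1 - algebraMap ℚ (Module.End ℚ (GSt Γ φ col f →₀ ℚ))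
        ((ε * (4 - 2 * (col l + 1)) : ℤ) : ℚ) =
        N + (2 * ε * (col l + 1) : ℚ) • 1 := by
      rw [Algebra.algebraMap_eq_smul_one]
      push_cast
      module
    rw [e1, e2, sub_mul, mul_add, mul_add, hNN]
    simp only [mul_smul_comm, smul_mul_assoc, mul_one, one_mul]
    push_cast
    module
  by_cases hε0 : ε = 0
  · rw [hε0, zero_mul, zero_mul] at hquad ⊢
    rw [Int.cast_zero] at hquad
    have e1 : prodQ ({0, 0} : Finset ℤ) = Polynomial.X - Polynomial.C (0 : ℚ) := by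
      rw [Finset.pair_eq_singleton, prodQ, Finset.prod_singleton, Int.cast_zero]
    have h0 : (0 : ℤ) ∈ Finset.Icc (-(J : ℤ)) J := by
      rw [Finset.mem_Icc]
      omega
    have e2 : prodQ (Finset.Icc (-(J : ℤ)) J) = (Polynomial.X - Polynomial.C (0 : ℚ)) *
        ∏ j ∈ (Finset.Icc (-(J : ℤ)) J).erase 0, (Polynomial.X - Polynomial.C (j : ℚ)) := by
      have h1 := Finset.mul_prod_erase (Finset.Icc (-(J : ℤ)) J)
        (fun j : ℤ => (Polynomial.X - Polynomial.C (j : ℚ))) h0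
      rw [Int.cast_zero] at h1
      rw [h1, prodQ]
    have hco : IsCoprime (Polynomial.X - Polynomial.C (0 : ℚ))
        (∏ j ∈ (Finset.Icc (-(J : ℤ)) J).erase 0, (Polynomial.X - Polynomial.C (j : ℚ))) := by
      refine IsCoprime.prod_right fun j hj => ?_
      refine Polynomial.isCoprime_X_sub_C_of_isUnit_sub (IsUnit.mk0 _ ?_)
      rw [zero_sub, neg_ne_zero]
      exact_mod_cast (Finset.mem_erase.1 hj).1
    obtain ⟨a, b, hab⟩ := hco
    rw [e2] at hP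
    have e3 : (Polynomial.X - Polynomial.C (0 : ℚ)) =
        a * ((Polynomial.X - Polynomial.C (0 : ℚ)) * (Polynomial.X - Polynomial.C (0 : ℚ))) +
        b * ((Polynomial.X - Polynomial.C (0 : ℚ)) *
          ∏ j ∈ (Finset.Icc (-(J : ℤ)) J).erase 0, (Polynomial.X - Polynomial.C (j : ℚ))) := by
      linear_combination (-(Polynomial.X - Polynomial.C (0 : ℚ))) * hab
    have e4 : ∀ c d : Polynomial ℚ, Polynomial.aeval (R := ℚ)
        (A := Module.End ℚ (GSt Γ φ col l →₀ ℚ)) X d = 0 →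
        Polynomial.aeval (R := ℚ) (A := Module.End ℚ (GSt Γ φ col l →₀ ℚ)) X (c * d) = 0 := by
      intro c d hd
      rw [Polynomial.aeval_mul, hd, mul_zero]
    rw [e1, e3, map_add, e4 _ _ hquad, e4 _ _ hP, add_zero]
  · have hne : ε * (4 + 2 * ((col l : ℤ) + 1)) ≠ ε * (4 - 2 * ((col l : ℤ) + 1)) := by
      intro h
      have := mul_left_cancel₀ hε0 h
      omega
    rw [prodQ, Finset.prod_pair hne]
    exact hquad

end Pool.Agent.AMS
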