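import Pool.Agent.AMS.St

/-!
# AMS (APP): matrices of composed and of inverse paths
-/

set_option autoImplicit false

namespace Pool.Agent.AMS

theorem App_append {K : Type} [Field K] {H : Type} [Finite H] (Γ : Fat H) (r : ℕ) (col : H → ℕ)
    (A : K) {p q : H} (w : Path Γ p q) {t : H} (v : Path Γ q t) :
    (w.append v).mat Γ r col A = v.mat Γ r col A * w.mat Γ r col A := by
  induction v with
  | nil =>
    show w.mat Γ r col A = 1 * w.mat Γ r col A
    rw [Matrix.one_mul]
  | fwd v s ih =>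
    show s.mat Γ r col A * (w.append v).mat Γ r col A =
      (s.mat Γ r col A * v.mat Γ r col A) * w.mat Γ r col A
    rw [ih, Matrix.mul_assoc]
  | bwd v s ih =>
    show s.mat' Γ r col A * (w.append v).mat Γ r col A =
      (s.mat' Γ r col A * v.mat Γ r col A) * w.mat Γ r col A
    rw [ih, Matrix.mul_assoc]

theorem App_inv (hI : St_Inv) {H : Type} [Finite H] (Γ : Fat H) (r : ℕ) (hr : 2 ≤ r)
    (col : H → ℕ) (A : ℂ) (hA : IsPrimitiveRoot A (4 * r)) {p q : H} (w : Path Γ p q) :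
    w.inv.mat Γ r col A * w.mat Γ r col A = 1 ∧ w.mat Γ r col A * w.inv.mat Γ r col A = 1 := by
  induction w with
  | nil =>
    have h1 : (Path.nil : Path Γ p p).mat Γ r col A = 1 := rfl
    have h2 : (Path.nil : Path Γ p p).inv.mat Γ r col A = 1 := rfl
    rw [h1, h2, Matrix.one_mul]
    exact ⟨rfl, rfl⟩
  | fwd v s ih =>
    obtain ⟨i1, i2⟩ := ih
    obtain ⟨s1, s2⟩ := hI H Γ r hr col A hA _ _ s
    have h1 : (v.fwd s).mat Γ r col A = s.mat Γ r col A * v.mat Γ r col A := rfl
    have h2 : (v.fwd s).inv.mat Γ r col A = v.inv.mat Γ r col A * s.mat' Γ r col A := by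
      show (((Path.nil.bwd s).append v.inv).mat Γ r col A) = _
      rw [App_append]
      show v.inv.mat Γ r col A * (s.mat' Γ r col A * 1) = _
      rw [Matrix.mul_one]
    rw [h1, h2]
    refine ⟨?_, ?_⟩
    · rw [Matrix.mul_assoc, ← Matrix.mul_assoc (s.mat' Γ r col A), s1, Matrix.one_mul, i1]
    · rw [Matrix.mul_assoc, ← Matrix.mul_assoc (v.mat Γ r col A), i2, Matrix.one_mul, s2]
  | bwd v s ih =>
    obtain ⟨i1, i2⟩ := ih
    obtain ⟨s1, s2⟩ := hI H Γ r hr col A hA _ _ s
    have h1 : (v.bwd s).mat Γ r col A = s.mat' Γ r col A * v.mat Γ r col A := rfl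
    have h2 : (v.bwd s).inv.mat Γ r col A = v.inv.mat Γ r col A * s.mat Γ r col A := by
      show (((Path.nil.fwd s).append v.inv).mat Γ r col A) = _
      rw [App_append]
      show v.inv.mat Γ r col A * (s.mat Γ r col A * 1) = _
      rw [Matrix.mul_one]
    rw [h1, h2]
    refine ⟨?_, ?_⟩
    · rw [Matrix.mul_assoc, ← Matrix.mul_assoc (s.mat Γ r col A), s2, Matrix.one_mul, i1]
    · rw [Matrix.mul_assoc, ← Matrix.mul_assoc (v.mat Γ r col A), i2, Matrix.one_mul, s1]

theorem thm_App (hI : St_Inv) : St_App :=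
  ⟨fun _ _ _ _ Γ r col A _ _ _ w v => App_append Γ r col A w v,
    fun _ _ Γ r hr col A hA _ _ w => App_inv hI Γ r hr col A hA w⟩

end Pool.Agent.AMS
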