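import Pool.Agent.AMS.St

/-!
# (ARI)

A root of unity all of whose conjugates over the field generated by a primitive `4 r`-th root of
unity are close to `1` has order dividing `4 r`.
-/

namespace Pool.Agent.AMS

/-- If `v ^ p = 1`, `v ≠ 1`, then not all powers of `v` are within distance `1` of `1`. -/
theorem Ari_sum (p : ℕ) (hp : 0 < p) (v : ℂ) (hv : v ^ p = 1) (hv1 : v ≠ 1)
    (h : ∀ x : ℕ, ‖v ^ x - 1‖ ≤ 1) : False := by
  have h0 : ∑ x ∈ Finset.range p, v ^ x = 0 := by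
    have h1 := mul_neg_geom_sum v p
    rw [hv, sub_self] at h1
    rcases mul_eq_zero.mp h1 with h2 | h2
    · exact absurd (sub_eq_zero.mp h2).symm hv1
    · exact h2
  have h1 : ∑ x ∈ Finset.range p, (v ^ x - 1) = -(p : ℂ) := by
    rw [Finset.sum_sub_distrib, h0]
    simp
  have h2 : ‖∑ x ∈ Finset.range p, (v ^ x - 1)‖ = (p : ℝ) := by
    rw [h1, norm_neg, Complex.norm_natCast]
  obtain ⟨n, rfl⟩ : ∃ n, p = n + 1 := ⟨p - 1, by omega⟩
  have h3 : ‖∑ x ∈ Finset.range (n + 1), (v ^ x - 1)‖ ≤ (n : ℝ) := by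
    rw [Finset.sum_range_succ']
    have h4 : v ^ 0 - 1 = 0 := by simp
    rw [h4, add_zero]
    calc ‖∑ x ∈ Finset.range n, (v ^ (x + 1) - 1)‖
        ≤ ∑ x ∈ Finset.range n, ‖v ^ (x + 1) - 1‖ := norm_sum_le _ _
      _ ≤ ∑ _x ∈ Finset.range n, (1 : ℝ) := Finset.sum_le_sum fun x _ => h (x + 1)
      _ = (n : ℝ) := by simp
  rw [h2] at h3
  push_cast at h3
  linarith

/-- `1 + t * N' * x` is prime to `N`, a power of `p` times `N'`, as soon as `p` does not divide
it. -/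
theorem Ari_coprime (N p t x : ℕ) (hp : p.Prime)
    (h : ¬ p ∣ 1 + t * (ordCompl[p] N) * x) :
    Nat.Coprime (1 + t * (ordCompl[p] N) * x) N := by
  have h1 : Nat.Coprime (1 + t * (ordCompl[p] N) * x) (ordProj[p] N) := by
    apply Nat.Coprime.pow_right
    exact ((Nat.Prime.coprime_iff_not_dvd hp).mpr h).symm
  have h2 : Nat.Coprime (1 + t * (ordCompl[p] N) * x) (ordCompl[p] N) := by
    have h3 : 1 + t * (ordCompl[p] N) * x = 1 + (ordCompl[p] N) * (t * x) := by ring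
    rw [h3]
    simp
  have h4 := Nat.Coprime.mul_right h1 h2
  rwa [Nat.ordProj_mul_ordCompl_eq_self] at h4

theorem thm_Ari : St_Arith := by
  intro r hr m hm lam hlam H
  by_contra hne
  have hN : 0 < 4 * r * m := by positivity
  have hlam0 : ‖lam‖ = 1 := by
    have := hm.ne'
    exact Complex.norm_eq_one_of_pow_eq_one hlam this
  have hmu : (lam ^ (4 * r)) ^ m = 1 := by
    rw [← pow_mul, mul_comm, pow_mul, hlam, one_pow]
  have hq0 : 0 < orderOf (lam ^ (4 * r)) := by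
    rw [orderOf_pos_iff]
    exact isOfFinOrder_iff_pow_eq_one.mpr ⟨m, hm, hmu⟩
  have hq1 : orderOf (lam ^ (4 * r)) ≠ 1 := fun h => hne (orderOf_eq_one_iff.mp h)
  obtain ⟨p, hp, hpq⟩ := Nat.exists_prime_and_dvd hq1
  obtain ⟨u, hu⟩ := hpq
  have hu0 : 0 < u := by
    rcases Nat.eq_zero_or_pos u with h | h
    · rw [h, mul_zero] at hu
      omega
    · exact h
  have hw1 : lam ^ (4 * r * u) ≠ 1 := by
    rw [pow_mul]
    apply pow_ne_one_of_lt_orderOf hu0.ne'
    rw [hu]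
    have := hp.two_le
    nlinarith
  have hwp : (lam ^ (4 * r * u)) ^ p = 1 := by
    rw [pow_mul, ← pow_mul, mul_comm u p, ← hu, pow_orderOf_eq_one]
  have hcop : Nat.Coprime p (ordCompl[p] (4 * r * m)) := Nat.coprime_ordCompl hp hN.ne'
  have hv1 : lam ^ (4 * r * u * (ordCompl[p] (4 * r * m))) ≠ 1 := by
    intro h
    apply hw1
    rw [pow_mul] at h
    have h1 := orderOf_dvd_of_pow_eq_one h
    have h2 := orderOf_dvd_of_pow_eq_one hwp
    have h3 := Nat.dvd_gcd h2 h1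
    rw [hcop.gcd_eq_one] at h3
    exact orderOf_eq_one_iff.mp (Nat.dvd_one.mp h3)
  have hvp : (lam ^ (4 * r * u * (ordCompl[p] (4 * r * m)))) ^ p = 1 := by
    rw [pow_mul, ← pow_mul, mul_comm (ordCompl[p] (4 * r * m)) p, pow_mul, hwp, one_pow]
  refine Ari_sum p hp.pos _ hvp hv1 ?_
  -- an allowed exponent gives the bound
  have key : ∀ x : ℕ, ¬ p ∣ 1 + (4 * r * u) * (ordCompl[p] (4 * r * m)) * x →
      ‖(lam ^ (4 * r * u * (ordCompl[p] (4 * r * m)))) ^ x - 1‖ ≤ 1 := by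
    intro x hx
    have h1 := H _ (Ari_coprime (4 * r * m) p (4 * r * u) x hp hx) (by
      have h2 : 1 + 4 * r * u * (ordCompl[p] (4 * r * m)) * x
          = 1 + 4 * r * (u * (ordCompl[p] (4 * r * m)) * x) := by ring
      rw [h2]
      unfold Nat.ModEq
      rw [Nat.add_mul_mod_self_left])
    have h2 := H 1 (Nat.coprime_one_left _) rfl
    rw [pow_one] at h2
    have h3 : lam * ((lam ^ (4 * r * u * (ordCompl[p] (4 * r * m)))) ^ x - 1)
        = (lam ^ (1 + 4 * r * u * (ordCompl[p] (4 * r * m)) * x) - 1) - (lam - 1) := by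
      rw [← pow_mul, pow_add, pow_one]
      ring
    calc ‖(lam ^ (4 * r * u * (ordCompl[p] (4 * r * m)))) ^ x - 1‖
        = ‖lam * ((lam ^ (4 * r * u * (ordCompl[p] (4 * r * m)))) ^ x - 1)‖ := by
          rw [norm_mul, hlam0, one_mul]
      _ = ‖(lam ^ (1 + 4 * r * u * (ordCompl[p] (4 * r * m)) * x) - 1) - (lam - 1)‖ := by
          rw [h3]
      _ ≤ ‖lam ^ (1 + 4 * r * u * (ordCompl[p] (4 * r * m)) * x) - 1‖ + ‖lam - 1‖ :=
          norm_sub_le _ _
      _ ≤ 1 / 2 + 1 / 2 := add_le_add h1 h2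
      _ = 1 := by norm_num
  intro x
  by_cases hx : p ∣ 1 + (4 * r * u) * (ordCompl[p] (4 * r * m)) * x
  · have hx' : ¬ p ∣ 1 + (4 * r * u) * (ordCompl[p] (4 * r * m)) * (x * (p - 1)) := by
      intro hx'
      obtain ⟨k, hk⟩ : ∃ k, p = k + 1 := ⟨p - 1, by have := hp.pos; omega⟩
      have h1 : (1 + (4 * r * u) * (ordCompl[p] (4 * r * m)) * x)
          + (1 + (4 * r * u) * (ordCompl[p] (4 * r * m)) * (x * (p - 1)))
          = 2 + p * ((4 * r * u) * (ordCompl[p] (4 * r * m)) * x) := by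
        have h2 : p - 1 = k := by omega
        rw [h2]
        generalize ordCompl[p] (4 * r * m) = Q
        rw [hk]
        ring
      have h3 : p ∣ 2 + p * ((4 * r * u) * (ordCompl[p] (4 * r * m)) * x) := by
        rw [← h1]
        exact dvd_add hx hx'
      have h4 : p ∣ 2 := (Nat.dvd_add_left (dvd_mul_right p _)).mp h3
      have h5 : p = 2 := (Nat.prime_dvd_prime_iff_eq hp Nat.prime_two).mp h4
      have h6 : p ∣ (4 * r * u) * (ordCompl[p] (4 * r * m)) * x := by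
        have h7 : (4 * r * u) * (ordCompl[p] (4 * r * m)) * x
            = 2 * (2 * r * u * (ordCompl[p] (4 * r * m)) * x) := by ring
        rw [h7]
        exact Dvd.dvd.mul_right h4 _ |>.trans (dvd_refl _)
      have h8 : p ∣ 1 := (Nat.dvd_add_left h6).mp hx
      exact hp.one_lt.ne' (Nat.dvd_one.mp h8)
    have h1 := key _ hx'
    have h2 : (lam ^ (4 * r * u * (ordCompl[p] (4 * r * m)))) ^ x
        * ((lam ^ (4 * r * u * (ordCompl[p] (4 * r * m)))) ^ (x * (p - 1)) - 1)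
        = 1 - (lam ^ (4 * r * u * (ordCompl[p] (4 * r * m)))) ^ x := by
      rw [mul_sub, mul_one, ← pow_add]
      have h3 : x + x * (p - 1) = p * x := by
        obtain ⟨k, hk⟩ : ∃ k, p = k + 1 := ⟨p - 1, by have := hp.pos; omega⟩
        have h4 : p - 1 = k := by omega
        rw [h4, hk]
        ring
      rw [h3, pow_mul _ p x, hvp, one_pow]
    have h5 : ‖(lam ^ (4 * r * u * (ordCompl[p] (4 * r * m)))) ^ x‖ = 1 := by
      rw [norm_pow, norm_pow, hlam0, one_pow, one_pow]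
    calc ‖(lam ^ (4 * r * u * (ordCompl[p] (4 * r * m)))) ^ x - 1‖
        = ‖(lam ^ (4 * r * u * (ordCompl[p] (4 * r * m)))) ^ x
        * ((lam ^ (4 * r * u * (ordCompl[p] (4 * r * m)))) ^ (x * (p - 1)) - 1)‖ := by
          rw [h2, norm_sub_rev]
      _ = ‖(lam ^ (4 * r * u * (ordCompl[p] (4 * r * m)))) ^ (x * (p - 1)) - 1‖ := by
          rw [norm_mul, h5, one_mul]
      _ ≤ 1 := h1
  · exact key x hx

end Pool.Agent.AMS
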