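import Pool.Agent.AMS.St

/-!
# AMS, module Bal: the weight (statement and proof: helper77; Lean: helper37)
-/

set_option autoImplicit false

namespace Pool.Agent.AMS

open Finset

/-- `sin (π n / r)` -/
noncomputable def BalS (r n : ℕ) : ℝ := Real.sin (Real.pi * n / r)

/-- the sine factorial -/
noncomputable def BalF (r n : ℕ) : ℝ := ∏ m ∈ range n, BalS r (m + 1)

/-- theta in terms of the internal numbers -/
noncomputable def BalT (r i j k : ℕ) : ℝ :=
  BalF r (i + j + k + 1) * BalF r i * BalF r j * BalF r k /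
    (BalF r (j + k) * BalF r (i + k) * BalF r (i + j))

/-- theta -/
noncomputable def BalTh (r a b c : ℕ) : ℝ :=
  BalT r ((b + c - a) / 2) ((a + c - b) / 2) ((a + b - c) / 2)

theorem BalS_pos {r n : ℕ} (h0 : 0 < n) (h1 : n < r) : 0 < BalS r n := by
  have hr : (0 : ℝ) < r := by
    have : 0 < r := by omega
    exact_mod_cast this
  have hn : (0 : ℝ) < n := by exact_mod_cast h0
  have hnr : (n : ℝ) < r := by exact_mod_cast h1
  refine Real.sin_pos_of_pos_of_lt_pi ?_ ?_
  · exact div_pos (mul_pos Real.pi_pos hn) hr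
  · rw [div_lt_iff₀ hr]
    exact mul_lt_mul_of_pos_left hnr Real.pi_pos

theorem BalF_pos {r n : ℕ} (h : n < r) : 0 < BalF r n := by
  refine prod_pos ?_
  intro m hm
  rw [mem_range] at hm
  exact BalS_pos (by omega) (by omega)

theorem BalF_succ (r n : ℕ) : BalF r (n + 1) = BalF r n * BalS r (n + 1) := by
  rw [BalF, prod_range_succ]
  rfl

theorem BalT_cyc (r i j k : ℕ) : BalT r i j k = BalT r j k i := by
  unfold BalT
  rw [show j + k + i + 1 = i + j + k + 1 by ring, show k + i = i + k by ring,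
    show j + i = i + j by ring]
  have h1 : BalF r (i + j + k + 1) * BalF r i * BalF r j * BalF r k =
    BalF r (i + j + k + 1) * BalF r j * BalF r k * BalF r i := by ring
  have h2 : BalF r (j + k) * BalF r (i + k) * BalF r (i + j) =
    BalF r (i + k) * BalF r (i + j) * BalF r (j + k) := by ring
  rw [h1, h2]

theorem BalTh_cyc (r a b c : ℕ) : BalTh r a b c = BalTh r b c a := by
  unfold BalTh
  rw [BalT_cyc, show c + a - b = a + c - b by omega, show b + a - c = a + b - c by omega]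

theorem BalT_pos {r i j k : ℕ} (h : i + j + k + 2 ≤ r) : 0 < BalT r i j k := by
  unfold BalT
  have h1 := BalF_pos (r := r) (n := i + j + k + 1) (by omega)
  have h2 := BalF_pos (r := r) (n := i) (by omega)
  have h3 := BalF_pos (r := r) (n := j) (by omega)
  have h4 := BalF_pos (r := r) (n := k) (by omega)
  have h5 := BalF_pos (r := r) (n := j + k) (by omega)
  have h6 := BalF_pos (r := r) (n := i + k) (by omega)
  have h7 := BalF_pos (r := r) (n := i + j) (by omega)
  positivity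

theorem BalTh_eq (r i j k : ℕ) : BalTh r (j + k) (i + k) (i + j) = BalT r i j k := by
  unfold BalTh
  rw [show (i + k + (i + j) - (j + k)) / 2 = i by omega,
    show (j + k + (i + j) - (i + k)) / 2 = j by omega,
    show (j + k + (i + k) - (i + j)) / 2 = k by omega]

theorem BalTh_pos {r a b c : ℕ} (h : Adm r a b c) : 0 < BalTh r a b c := by
  obtain ⟨h0, h1, h2, h3, h4⟩ := h
  rw [Nat.even_iff] at h0
  refine BalT_pos ?_
  omega

/-! ### the numbers `cur` -/

theorem BalA_ne (r : ℕ) : A0 r ≠ 0 := Complex.exp_ne_zero _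

theorem BalA_zpow (r : ℕ) (n : ℤ) :
    A0 r ^ n = Complex.exp (((Real.pi * n / (2 * r) : ℝ) : ℂ) * Complex.I) := by
  rw [A0, ← Complex.exp_int_mul]
  congr 1
  push_cast
  by_cases hr : (r : ℂ) = 0
  · rw [hr]
    simp
  · field_simp
    ring

theorem BalCur (r n : ℕ) (m : ℤ) (hm : m = 2 * n) :
    cur (A0 r) m = 2 * Complex.I * (BalS r n : ℂ) := by
  subst hm
  unfold cur BalS
  rw [BalA_zpow, BalA_zpow]
  have h1 : (Real.pi * ((-(2 * (n : ℤ)) : ℤ) : ℝ) / (2 * r) : ℝ) = -(Real.pi * n / r) := by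
    push_cast
    by_cases hr : (r : ℝ) = 0
    · rw [hr]
      simp
    · field_simp
  have h2 : (Real.pi * ((2 * (n : ℤ) : ℤ) : ℝ) / (2 * r) : ℝ) = Real.pi * n / r := by
    push_cast
    by_cases hr : (r : ℝ) = 0
    · rw [hr]
      simp
    · field_simp
  rw [h1, h2, Complex.exp_mul_I, Complex.exp_mul_I, ← Complex.ofReal_cos, ← Complex.ofReal_sin,
    ← Complex.ofReal_cos, ← Complex.ofReal_sin, Real.cos_neg, Real.sin_neg]
  push_cast
  ring

theorem BalCur_div (r a b : ℕ) (m m' : ℤ) (hm : m = 2 * a) (hm' : m' = 2 * b)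
    (hb : BalS r b ≠ 0) : cur (A0 r) m / cur (A0 r) m' = ((BalS r a / BalS r b : ℝ) : ℂ) := by
  rw [BalCur r a m hm, BalCur r b m' hm']
  have h1 : (BalS r b : ℂ) ≠ 0 := by exact_mod_cast hb
  push_cast
  field_simp

theorem BalCur_div2 (r a b a' b' : ℕ) (m n m' n' : ℤ) (hm : m = 2 * a) (hn : n = 2 * b)
    (hm' : m' = 2 * a') (hn' : n' = 2 * b') (h1 : BalS r a' ≠ 0) (h2 : BalS r b' ≠ 0) :
    cur (A0 r) m * cur (A0 r) n / (cur (A0 r) m' * cur (A0 r) n') =
      ((BalS r a * BalS r b / (BalS r a' * BalS r b') : ℝ) : ℂ) := by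
  rw [BalCur r a m hm, BalCur r b n hn, BalCur r a' m' hm', BalCur r b' n' hn']
  have h1 : (BalS r a' : ℂ) ≠ 0 := by exact_mod_cast h1
  have h2 : (BalS r b' : ℂ) ≠ 0 := by exact_mod_cast h2
  push_cast
  field_simp

theorem BalConj (r : ℕ) (n : ℤ) : (starRingEnd ℂ) (A0 r ^ n) = (A0 r ^ n)⁻¹ := by
  rw [BalA_zpow, ← Complex.exp_neg, ← Complex.exp_conj]
  congr 1
  rw [map_mul, Complex.conj_I, Complex.conj_ofReal]
  ring

theorem BalTw (r x x' : ℕ) :
    (starRingEnd ℂ) (tw (A0 r) x x') = (tw (A0 r) x x')⁻¹ := by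
  unfold tw
  split_ifs
  · exact BalConj r _
  · rw [map_neg, BalConj, inv_neg]

/-- the balance at a corner -/
theorem BalKey (r x x' y y' z : ℕ) (h1 : Adm r x' y z) (h2 : Adm r x y' z)
    (hx : x' = x + 1 ∨ x = x' + 1) (hy : y' = y + 1 ∨ y = y' + 1) :
    ∃ κ κ' : ℝ, coef (A0 r) x x' y y' z = (κ : ℂ) ∧ coef (A0 r) y y' x x' z = (κ' : ℂ) ∧
      κ * (BalTh r x y' z * BalS r (y + 1) * BalS r (min x' x + 1)) =
        κ' * (BalTh r x' y z * BalS r (min y' y + 1) * BalS r (x + 1)) := by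
  obtain ⟨e1, a1, a2, a3, a4⟩ := h1
  obtain ⟨e2, b1, b2, b3, b4⟩ := h2
  rw [Nat.even_iff] at e1 e2
  rcases hx with hx | hx <;> rcases hy with hy | hy
  · -- (+,+)
    obtain ⟨i, hi⟩ : ∃ i, i = (y + z - x') / 2 := ⟨_, rfl⟩
    obtain ⟨j, hj⟩ : ∃ j, j = (x + z - y') / 2 := ⟨_, rfl⟩
    obtain ⟨k, hk⟩ : ∃ k, k = (x' + y - z) / 2 := ⟨_, rfl⟩
    obtain rfl : x = j + k := by omega
    obtain rfl : y = i + k := by omega
    obtain rfl : z = i + j + 1 := by omega
    subst hx hy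
    have hX : 0 < BalS r (j + k + 1) := BalS_pos (by omega) (by omega)
    have hY : 0 < BalS r (i + k + 1) := BalS_pos (by omega) (by omega)
    refine ⟨BalS r (j + 1) / BalS r (j + k + 1), BalS r (i + 1) / BalS r (i + k + 1), ?_, ?_, ?_⟩
    · rw [coef, if_pos rfl, if_pos rfl]
      exact BalCur_div r _ _ _ _ (by push_cast; ring) (by push_cast; ring) hX.ne'
    · rw [coef, if_pos rfl, if_pos rfl]
      exact BalCur_div r _ _ _ _ (by push_cast; ring) (by push_cast; ring) hY.ne'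
    · have t1 : BalTh r (j + k) (i + k + 1) (i + j + 1) = BalT r (i + 1) j k := by
        have := BalTh_eq r (i + 1) j k
        rwa [show i + 1 + k = i + k + 1 by ring, show i + 1 + j = i + j + 1 by ring] at this
      have t2 : BalTh r (j + k + 1) (i + k) (i + j + 1) = BalT r i (j + 1) k := by
        have := BalTh_eq r i (j + 1) k
        rwa [show j + 1 + k = j + k + 1 by ring, show i + (j + 1) = i + j + 1 by ring] at this
      rw [t1, t2, min_eq_right (by omega), min_eq_right (by omega)]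
      unfold BalT
      rw [show i + 1 + j + k + 1 = i + j + k + 2 by ring, show i + (j + 1) + k + 1 = i + j + k + 2 by ring,
        show i + 1 + k = i + k + 1 by ring, show i + 1 + j = i + j + 1 by ring,
        show j + 1 + k = j + k + 1 by ring, show i + (j + 1) = i + j + 1 by ring,
        BalF_succ r i, BalF_succ r j, BalF_succ r (i + k), BalF_succ r (j + k)]
      have f1 := (BalF_pos (r := r) (n := j + k) (by omega)).ne'
      have f2 := (BalF_pos (r := r) (n := i + k) (by omega)).ne'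
      have f3 := (BalF_pos (r := r) (n := i + j + 1) (by omega)).ne'
      have f4 := hX.ne'
      have f5 := hY.ne'
      field_simp
  · -- (+,-)
    obtain ⟨i, hi⟩ : ∃ i, i = (y + z - x') / 2 := ⟨_, rfl⟩
    obtain ⟨j, hj⟩ : ∃ j, j = (x' + z - y) / 2 := ⟨_, rfl⟩
    obtain ⟨k, hk⟩ : ∃ k, k = (x + y' - z) / 2 := ⟨_, rfl⟩
    obtain rfl : x = j + k := by omega
    obtain rfl : y' = i + k := by omega
    obtain rfl : z = i + j := by omega
    subst hx hy
    have hX : 0 < BalS r (j + k + 1) := BalS_pos (by omega) (by omega)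
    have hY : 0 < BalS r (i + k + 1) := BalS_pos (by omega) (by omega)
    have hY' : 0 < BalS r (i + k + 1 + 1) := BalS_pos (by omega) (by omega)
    refine ⟨BalS r (k + 1) * BalS r (i + j + k + 2) / (BalS r (j + k + 1) * BalS r (i + k + 1 + 1)),
      1, ?_, ?_, ?_⟩
    · rw [coef, if_pos rfl, if_neg (by omega)]
      exact BalCur_div2 r _ _ _ _ _ _ _ _ (by push_cast; ring) (by push_cast; ring)
        (by push_cast; ring) (by push_cast; ring) hX.ne' hY'.ne'
    · rw [coef, if_neg (by omega), if_pos rfl]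
      simp
    · have t1 : BalTh r (j + k) (i + k) (i + j) = BalT r i j k := BalTh_eq r i j k
      have t2 : BalTh r (j + k + 1) (i + k + 1) (i + j) = BalT r i j (k + 1) :=
        BalTh_eq r i j (k + 1)
      rw [t1, t2, min_eq_right (by omega), min_eq_left (by omega)]
      unfold BalT
      rw [show i + j + (k + 1) + 1 = i + j + k + 1 + 1 by ring,
        show j + (k + 1) = j + k + 1 by ring, show i + (k + 1) = i + k + 1 by ring,
        BalF_succ r k, BalF_succ r (i + k), BalF_succ r (j + k), BalF_succ r (i + j + k + 1)]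
      have f1 := (BalF_pos (r := r) (n := j + k) (by omega)).ne'
      have f2 := (BalF_pos (r := r) (n := i + k) (by omega)).ne'
      have f3 := (BalF_pos (r := r) (n := i + j) (by omega)).ne'
      have f4 := hX.ne'
      have f5 := hY.ne'
      have f6 := hY'.ne'
      field_simp
  · -- (-,+)
    obtain ⟨i, hi⟩ : ∃ i, i = (y' + z - x) / 2 := ⟨_, rfl⟩
    obtain ⟨j, hj⟩ : ∃ j, j = (x + z - y') / 2 := ⟨_, rfl⟩
    obtain ⟨k, hk⟩ : ∃ k, k = (x' + y - z) / 2 := ⟨_, rfl⟩
    obtain rfl : x' = j + k := by omega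
    obtain rfl : y = i + k := by omega
    obtain rfl : z = i + j := by omega
    subst hx hy
    have hY : 0 < BalS r (i + k + 1) := BalS_pos (by omega) (by omega)
    have hX : 0 < BalS r (j + k + 1) := BalS_pos (by omega) (by omega)
    have hX' : 0 < BalS r (j + k + 1 + 1) := BalS_pos (by omega) (by omega)
    refine ⟨1, BalS r (k + 1) * BalS r (i + j + k + 2) /
      (BalS r (i + k + 1) * BalS r (j + k + 1 + 1)), ?_, ?_, ?_⟩
    · rw [coef, if_neg (by omega), if_pos rfl]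
      simp
    · rw [coef, if_pos rfl, if_neg (by omega)]
      exact BalCur_div2 r _ _ _ _ _ _ _ _ (by push_cast; ring) (by push_cast; ring)
        (by push_cast; ring) (by push_cast; ring) hY.ne' hX'.ne'
    · have t1 : BalTh r (j + k) (i + k) (i + j) = BalT r i j k := BalTh_eq r i j k
      have t2 : BalTh r (j + k + 1) (i + k + 1) (i + j) = BalT r i j (k + 1) :=
        BalTh_eq r i j (k + 1)
      rw [t1, t2, min_eq_left (by omega), min_eq_right (by omega)]
      unfold BalT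
      rw [show i + j + (k + 1) + 1 = i + j + k + 1 + 1 by ring,
        show j + (k + 1) = j + k + 1 by ring, show i + (k + 1) = i + k + 1 by ring,
        BalF_succ r k, BalF_succ r (i + k), BalF_succ r (j + k), BalF_succ r (i + j + k + 1)]
      have f1 := (BalF_pos (r := r) (n := j + k) (by omega)).ne'
      have f2 := (BalF_pos (r := r) (n := i + k) (by omega)).ne'
      have f3 := (BalF_pos (r := r) (n := i + j) (by omega)).ne'
      have f4 := hX.ne'
      have f5 := hY.ne'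
      have f6 := hX'.ne'
      field_simp
  · -- (-,-)
    obtain ⟨i, hi⟩ : ∃ i, i = (y' + z - x) / 2 := ⟨_, rfl⟩
    obtain ⟨j, hj⟩ : ∃ j, j = (x' + z - y) / 2 := ⟨_, rfl⟩
    obtain ⟨k, hk⟩ : ∃ k, k = (x' + y - z) / 2 := ⟨_, rfl⟩
    obtain rfl : x' = j + k := by omega
    obtain rfl : y' = i + k := by omega
    obtain rfl : z = i + j + 1 := by omega
    subst hx hy
    have hX : 0 < BalS r (j + k + 1) := BalS_pos (by omega) (by omega)
    have hX' : 0 < BalS r (j + k + 1 + 1) := BalS_pos (by omega) (by omega)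
    have hY : 0 < BalS r (i + k + 1) := BalS_pos (by omega) (by omega)
    have hY' : 0 < BalS r (i + k + 1 + 1) := BalS_pos (by omega) (by omega)
    refine ⟨-(BalS r (i + 1) / BalS r (i + k + 1 + 1)), -(BalS r (j + 1) / BalS r (j + k + 1 + 1)),
      ?_, ?_, ?_⟩
    · rw [coef, if_neg (by omega), if_neg (by omega),
        BalCur_div r (i + 1) (i + k + 1 + 1) _ _ (by push_cast; ring) (by push_cast; ring) hY'.ne']
      push_cast
      ring
    · rw [coef, if_neg (by omega), if_neg (by omega),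
        BalCur_div r (j + 1) (j + k + 1 + 1) _ _ (by push_cast; ring) (by push_cast; ring) hX'.ne']
      push_cast
      ring
    · have t1 : BalTh r (j + k + 1) (i + k) (i + j + 1) = BalT r i (j + 1) k := by
        have := BalTh_eq r i (j + 1) k
        rwa [show j + 1 + k = j + k + 1 by ring, show i + (j + 1) = i + j + 1 by ring] at this
      have t2 : BalTh r (j + k) (i + k + 1) (i + j + 1) = BalT r (i + 1) j k := by
        have := BalTh_eq r (i + 1) j k
        rwa [show i + 1 + k = i + k + 1 by ring, show i + 1 + j = i + j + 1 by ring] at this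
      rw [t1, t2, min_eq_left (by omega), min_eq_left (by omega)]
      unfold BalT
      rw [show i + 1 + j + k + 1 = i + j + k + 2 by ring, show i + (j + 1) + k + 1 = i + j + k + 2 by ring,
        show i + 1 + k = i + k + 1 by ring, show i + 1 + j = i + j + 1 by ring,
        show j + 1 + k = j + k + 1 by ring, show i + (j + 1) = i + j + 1 by ring,
        BalF_succ r i, BalF_succ r j, BalF_succ r (i + k), BalF_succ r (j + k)]
      have f1 := (BalF_pos (r := r) (n := j + k) (by omega)).ne'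
      have f2 := (BalF_pos (r := r) (n := i + k) (by omega)).ne'
      have f3 := (BalF_pos (r := r) (n := i + j + 1) (by omega)).ne'
      have f4 := hX.ne'
      have f5 := hY.ne'
      have f6 := hX'.ne'
      have f7 := hY'.ne'
      field_simp

/-! ### the weight -/

section

variable {H : Type} (Γ : Fat H)

open Classical in
/-- the logarithm of the weight -/
noncomputable def BalPhi [Fintype H] (lt : ℕ → ℕ → ℕ → ℝ) (le : ℕ → ℕ → ℝ) (c : H → ℕ) : ℝ :=
  (1 / 3) * ∑ k, (if Γ.nxt k = k then 0 else lt (c k) (c (Γ.nxt k)) (c (Γ.nxt (Γ.nxt k)))) -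
    (1 / 2) * ∑ k, le (c k) (c (Γ.opp k))

theorem BalPhi_sub [Fintype H] (lt : ℕ → ℕ → ℕ → ℝ) (le : ℕ → ℕ → ℝ)
    (hlt : ∀ a b c, lt a b c = lt b c a) (hle : ∀ a b, le a b = le b a) (c c₀ : H → ℕ) (a : H)
    (ha : Γ.nxt a ≠ a) (hc : ∀ k, k ≠ a → c k = c₀ k) :
    BalPhi Γ lt le c - BalPhi Γ lt le c₀ =
      (lt (c a) (c (Γ.nxt a)) (c (Γ.nxt (Γ.nxt a))) -
        lt (c₀ a) (c₀ (Γ.nxt a)) (c₀ (Γ.nxt (Γ.nxt a)))) -
      (le (c a) (c (Γ.opp a)) - le (c₀ a) (c₀ (Γ.opp a))) := by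
  classical
  have h3 := Γ.nxt3
  have hb : Γ.nxt (Γ.nxt a) ≠ a := by
    intro h
    have := h3 a
    rw [h] at this
    exact ha this
  have hd : Γ.nxt (Γ.nxt a) ≠ Γ.nxt a := by
    intro h
    have h4 := h3 a
    rw [h, h] at h4
    exact ha h4
  have hoa := Γ.opp_ne a
  have e1 : ∑ k, (if Γ.nxt k = k then 0 else lt (c k) (c (Γ.nxt k)) (c (Γ.nxt (Γ.nxt k)))) -
      ∑ k, (if Γ.nxt k = k then 0 else lt (c₀ k) (c₀ (Γ.nxt k)) (c₀ (Γ.nxt (Γ.nxt k)))) =
      3 * (lt (c a) (c (Γ.nxt a)) (c (Γ.nxt (Γ.nxt a))) -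
        lt (c₀ a) (c₀ (Γ.nxt a)) (c₀ (Γ.nxt (Γ.nxt a)))) := by
    rw [← sum_sub_distrib]
    have h5 : ∀ k ∈ (univ : Finset H), k ∉ ({a, Γ.nxt a, Γ.nxt (Γ.nxt a)} : Finset H) →
        (if Γ.nxt k = k then 0 else lt (c k) (c (Γ.nxt k)) (c (Γ.nxt (Γ.nxt k)))) -
          (if Γ.nxt k = k then 0 else lt (c₀ k) (c₀ (Γ.nxt k)) (c₀ (Γ.nxt (Γ.nxt k)))) = 0 := by
      intro k _ hk
      simp only [mem_insert, mem_singleton, not_or] at hk
      obtain ⟨k1, k2, k3⟩ := hk
      have k4 : Γ.nxt k ≠ a := by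
        intro h
        apply k3
        rw [← h, h3]
      have k5 : Γ.nxt (Γ.nxt k) ≠ a := by
        intro h
        apply k2
        rw [← h, h3]
      rw [hc _ k1, hc _ k4, hc _ k5, sub_self]
    rw [← sum_subset (subset_univ _) h5, sum_insert (by
      simp only [mem_insert, mem_singleton, not_or]
      exact ⟨ha.symm, hb.symm⟩), sum_insert (by
      simp only [mem_singleton]
      exact hd.symm), sum_singleton, if_neg ha, if_neg ha, if_neg hd, if_neg hd, h3 a,
      if_neg hb.symm, if_neg hb.symm,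
      hlt (c (Γ.nxt (Γ.nxt a))) (c a) (c (Γ.nxt a)),
      hlt (c₀ (Γ.nxt (Γ.nxt a))) (c₀ a) (c₀ (Γ.nxt a)),
      ← hlt (c a) (c (Γ.nxt a)) (c (Γ.nxt (Γ.nxt a))),
      ← hlt (c₀ a) (c₀ (Γ.nxt a)) (c₀ (Γ.nxt (Γ.nxt a)))]
    ring
  have e2 : ∑ k, le (c k) (c (Γ.opp k)) - ∑ k, le (c₀ k) (c₀ (Γ.opp k)) =
      2 * (le (c a) (c (Γ.opp a)) - le (c₀ a) (c₀ (Γ.opp a))) := by
    rw [← sum_sub_distrib]
    have h5 : ∀ k ∈ (univ : Finset H), k ∉ ({a, Γ.opp a} : Finset H) →
        le (c k) (c (Γ.opp k)) - le (c₀ k) (c₀ (Γ.opp k)) = 0 := by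
      intro k _ hk
      simp only [mem_insert, mem_singleton, not_or] at hk
      obtain ⟨k1, k2⟩ := hk
      have k4 : Γ.opp k ≠ a := by
        intro h
        apply k2
        rw [← h, Γ.opp_opp]
      rw [hc _ k1, hc _ k4, sub_self]
    rw [← sum_subset (subset_univ _) h5, sum_pair hoa.symm, Γ.opp_opp,
      hle (c (Γ.opp a)) (c a), hle (c₀ (Γ.opp a)) (c₀ a)]
    ring
  unfold BalPhi
  linarith

end

theorem BalCancel (κ κ' E E' P Q : ℝ) (hP : 0 < P) (h1 : E' * P = E * Q)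
    (h2 : κ * Q = κ' * P) : κ * E' = κ' * E := by
  refine mul_right_cancel₀ hP.ne' ?_
  calc κ * E' * P = κ * (E' * P) := by ring
    _ = κ * (E * Q) := by rw [h1]
    _ = E * (κ * Q) := by ring
    _ = E * (κ' * P) := by rw [h2]
    _ = κ' * E * P := by ring

/-- [Bal] -/
theorem thm_Bal : St_Bal := by
  intro H _ Γ r hr col
  classical
  have := Fintype.ofFinite H
  obtain ⟨lt, hlt⟩ : ∃ lt : ℕ → ℕ → ℕ → ℝ, lt = fun a b c => Real.log (BalTh r a b c) := ⟨_, rfl⟩
  obtain ⟨le, hle⟩ : ∃ le : ℕ → ℕ → ℝ, le = fun a b => Real.log (BalS r (min a b + 1)) := ⟨_, rfl⟩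
  have lt_cyc : ∀ a b c, lt a b c = lt b c a := by
    intro a b c
    rw [hlt]
    simp only
    rw [BalTh_cyc]
  have le_comm : ∀ a b, le a b = le b a := by
    intro a b
    rw [hle]
    simp only
    rw [min_comm]
  refine ⟨fun c => Real.exp (BalPhi Γ lt le c), fun p c => Real.exp_pos _, ?_⟩
  intro q t s c c'
  cases s with
  | cross h _ b hq =>
    simp only [Step.mat, Step.mat', Matrix.of_apply]
    by_cases hcc : c'.1 = c.1
    · rw [if_pos hcc, if_pos hcc.symm, hcc]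
      congr 1
      cases b
      · rw [if_neg (by simp), if_neg (by simp), map_inv₀, BalTw, inv_inv]
      · rw [if_pos rfl, if_pos rfl, BalTw]
    · rw [if_neg hcc, if_neg (fun h => hcc h.symm), map_zero, zero_mul, zero_mul]
  | turn _ _ hl hq =>
    subst hq
    simp only [Step.mat, Step.mat', Matrix.of_apply]
    obtain ⟨s1, s2, s3, s4, s5⟩ := c.2
    obtain ⟨t1, t2, t3, t4, t5⟩ := c'.2
    have h3 := Γ.nxt3
    have hz1 : Γ.nxt (Γ.nxt q) ≠ q := by
      intro h
      have := h3 q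
      rw [h] at this
      exact hl this
    have hz2 : Γ.nxt (Γ.nxt q) ≠ Γ.nxt q := by
      intro h
      have h4 := h3 q
      rw [h, h] at h4
      exact hl h4
    rw [Γ.opp_opp] at t4 t5
    by_cases hC : (∀ k, k ≠ q → k ≠ Γ.nxt q → c'.1 k = c.1 k) ∧ c'.1 q = c.1 (Γ.opp q)
    · obtain ⟨C1, C2⟩ := hC
      have C3 : c.1 (Γ.nxt q) = c'.1 (Γ.opp (Γ.nxt q)) := by
        by_cases ho : Γ.opp (Γ.nxt q) = q
        · have hno : Γ.nxt q = Γ.opp q := by
            have h6 := congrArg Γ.opp ho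
            rwa [Γ.opp_opp] at h6
          exact (congrArg c.1 hno).trans (C2.symm.trans (congrArg c'.1 ho.symm))
        · rw [C1 _ ho (Γ.opp_ne _), s4 _ hl (fun h => ho (by rw [h, Γ.opp_opp]))]
      have C4 : c'.1 (Γ.nxt (Γ.nxt q)) = c.1 (Γ.nxt (Γ.nxt q)) := C1 _ hz1 hz2
      rw [if_pos ⟨C1, C2⟩, if_pos ⟨fun k k1 k2 => (C1 k k1 k2).symm, C3⟩, ← C3, C2, C4]
      obtain ⟨c₀, hc₀⟩ : ∃ c₀ : H → ℕ, c₀ = Function.update c.1 q (c.1 (Γ.opp q)) := ⟨_, rfl⟩
      have g0 : c₀ q = c.1 (Γ.opp q) := by rw [hc₀, Function.update_self]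
      have g1 : ∀ k, k ≠ q → c.1 k = c₀ k := by
        intro k hk
        rw [hc₀, Function.update_of_ne hk]
      have g2 : ∀ k, k ≠ Γ.nxt q → c'.1 k = c₀ k := by
        intro k hk
        by_cases hkq : k = q
        · rw [hkq, g0, C2]
        · rw [← g1 k hkq, C1 k hkq hk]
      have E1 := BalPhi_sub Γ lt le lt_cyc le_comm c.1 c₀ q hl g1
      have E2 := BalPhi_sub Γ lt le lt_cyc le_comm c'.1 c₀ (Γ.nxt q) hz2 g2
      rw [h3 q, C2, C4, ← C3, ← g2 _ (Γ.opp_ne (Γ.nxt q)), ← C3, ← g1 _ hl, ← g1 _ hz1,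
        g0] at E2
      have G1 := lt_cyc (c.1 (Γ.opp q)) (c'.1 (Γ.nxt q)) (c.1 (Γ.nxt (Γ.nxt q)))
      have G2 := lt_cyc (c.1 (Γ.opp q)) (c.1 (Γ.nxt q)) (c.1 (Γ.nxt (Γ.nxt q)))
      rw [← g1 _ (Γ.opp_ne q), ← g1 _ hl, ← g1 _ hz1, g0] at E1
      have hA1 := s3 q hl
      have hA2 := t3 q hl
      rw [C2, C4] at hA2
      have hx1 := s1 (Γ.opp q)
      have hy1 := s1 (Γ.nxt q)
      rw [← C3] at t5
      obtain ⟨κ, κ', k1, k2, k3⟩ := BalKey r (c.1 (Γ.opp q)) (c.1 q) (c.1 (Γ.nxt q))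
        (c'.1 (Γ.nxt q)) (c.1 (Γ.nxt (Γ.nxt q))) hA1 hA2 s5 t5.symm
      rw [k1, k2, Complex.conj_ofReal]
      have p1 := BalTh_pos hA1
      have p2 := BalTh_pos hA2
      have p3 : 0 < BalS r (c.1 (Γ.opp q) + 1) := BalS_pos (by omega) (by omega)
      have p4 : 0 < BalS r (c.1 (Γ.nxt q) + 1) := BalS_pos (by omega) (by omega)
      have p5 : 0 < BalS r (min (c.1 q) (c.1 (Γ.opp q)) + 1) := BalS_pos (by omega) (by omega)
      have p6 : 0 < BalS r (min (c'.1 (Γ.nxt q)) (c.1 (Γ.nxt q)) + 1) :=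
        BalS_pos (by omega) (by omega)
      have hlog : BalPhi Γ lt le c'.1 + Real.log (BalTh r (c.1 q) (c.1 (Γ.nxt q))
          (c.1 (Γ.nxt (Γ.nxt q))) * BalS r (min (c'.1 (Γ.nxt q)) (c.1 (Γ.nxt q)) + 1) *
          BalS r (c.1 (Γ.opp q) + 1)) = BalPhi Γ lt le c.1 + Real.log (BalTh r (c.1 (Γ.opp q))
          (c'.1 (Γ.nxt q)) (c.1 (Γ.nxt (Γ.nxt q))) * BalS r (c.1 (Γ.nxt q) + 1) *
          BalS r (min (c.1 q) (c.1 (Γ.opp q)) + 1)) := by
        rw [Real.log_mul (mul_pos p1 p6).ne' p3.ne', Real.log_mul p1.ne' p6.ne',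
          Real.log_mul (mul_pos p2 p4).ne' p5.ne', Real.log_mul p2.ne' p4.ne']
        have f1 : ∀ a b c, lt a b c = Real.log (BalTh r a b c) := fun a b c => by rw [hlt]
        have f2 : ∀ a b, le a b = Real.log (BalS r (min a b + 1)) := fun a b => by rw [hle]
        have f3 : ∀ a, le a a = Real.log (BalS r (a + 1)) := fun a => by rw [f2, min_self]
        rw [← f1, ← f1, ← f2, ← f2, ← f3, ← f3]
        linarith
      have hexp := congrArg Real.exp hlog
      rw [Real.exp_add, Real.exp_add, Real.exp_log (mul_pos (mul_pos p1 p6) p3),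
        Real.exp_log (mul_pos (mul_pos p2 p4) p5)] at hexp
      have hfin := BalCancel κ κ' _ _ _ _ (mul_pos (mul_pos p1 p6) p3) hexp k3
      exact_mod_cast hfin
    · rw [if_neg hC, if_neg, map_zero, zero_mul, zero_mul]
      rintro ⟨D1, D2⟩
      apply hC
      refine ⟨fun k k1 k2 => (D1 k k1 k2).symm, ?_⟩
      by_cases ho : Γ.opp q = Γ.nxt q
      · rw [ho, D2]
        exact congrArg c'.1 (show q = Γ.opp (Γ.nxt q) by rw [← ho, Γ.opp_opp])
      · rw [D1 _ (Γ.opp_ne q) ho, t4 q (fun h => ho ((congrArg Γ.opp h).trans (Γ.opp_opp _))) hl.symm]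

end Pool.Agent.AMS
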