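import Pool.Agent.AMS.St

/-!
# The extremal amplitude at `A = 2` is not zero for large `t`
-/

namespace Pool.Agent.AMS

/-- Size of the quantum numbers at `A = 2`. -/
theorem Cone_cur (n : ℤ) (hn : 1 ≤ n) : (2 : ℝ) ^ (n - 1) ≤ cur 2 n ∧ cur (2 : ℝ) n ≤ 2 ^ n := by
  have h2 : (2 : ℝ) ≠ 0 := two_ne_zero
  have h1 : (2 : ℝ) ^ (-n) ≤ 2 ^ (n - 1) := zpow_le_zpow_right₀ one_le_two (by omega)
  have h3 : (2 : ℝ) ^ n = 2 * 2 ^ (n - 1) := by
    rw [zpow_sub_one₀ h2]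
    field_simp
  have h4 : (0 : ℝ) < 2 ^ (-n) := by positivity
  unfold cur
  constructor
  · rw [h3]
    linarith
  · linarith

theorem Cone_cur_pos (n : ℤ) (hn : 1 ≤ n) : (0 : ℝ) < cur 2 n :=
  lt_of_lt_of_le (by positivity) (Cone_cur n hn).1

theorem Cone_div (n m : ℤ) (hn : 1 ≤ n) (hm : 1 ≤ m) :
    (2 : ℝ) ^ (n - 1 - m) ≤ cur 2 n / cur 2 m ∧ cur (2 : ℝ) n / cur 2 m ≤ 2 ^ (n - m + 1) := by
  have h2 : (2 : ℝ) ≠ 0 := two_ne_zero
  obtain ⟨hn1, hn2⟩ := Cone_cur n hn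
  obtain ⟨hm1, hm2⟩ := Cone_cur m hm
  have hmp := Cone_cur_pos m hm
  have hnp := Cone_cur_pos n hn
  constructor
  · rw [le_div_iff₀ hmp]
    calc (2 : ℝ) ^ (n - 1 - m) * cur 2 m ≤ 2 ^ (n - 1 - m) * 2 ^ m :=
          mul_le_mul_of_nonneg_left hm2 (by positivity)
      _ = 2 ^ (n - 1) := by rw [← zpow_add₀ h2]; congr 1; ring
      _ ≤ cur 2 n := hn1
  · rw [div_le_iff₀ hmp]
    calc cur (2 : ℝ) n ≤ 2 ^ n := hn2
      _ = 2 ^ (n - m + 1) * 2 ^ (m - 1) := by rw [← zpow_add₀ h2]; congr 1; ring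
      _ ≤ 2 ^ (n - m + 1) * cur 2 m := mul_le_mul_of_nonneg_left hm1 (by positivity)

/-- Bounds for a quotient of size `2 ^ (-t)`. -/
theorem Cone_small (q : ℝ) (t a b c : ℕ)
    (h1 : (2 : ℝ) ^ ((c : ℤ) - a - b - t - 2) ≤ q) (h2 : q ≤ 2 ^ ((c : ℤ) - a - b - t)) :
    |q| * 2 ^ t ≤ 2 ^ (a + b + c + 2) ∧ 1 ≤ 2 ^ (a + b + c + 2) * 2 ^ t * |q| := by
  have h0 : (2 : ℝ) ≠ 0 := two_ne_zero
  have hq : 0 < q := lt_of_lt_of_le (by positivity) h1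
  rw [abs_of_pos hq]
  have e1 : ((2 : ℝ) ^ t) = 2 ^ (t : ℤ) := (zpow_natCast 2 t).symm
  have e2 : ((2 : ℝ) ^ (a + b + c + 2)) = 2 ^ ((a : ℤ) + b + c + 2) := by
    rw [← zpow_natCast]
    push_cast
    rfl
  rw [e1, e2]
  constructor
  · calc q * 2 ^ (t : ℤ) ≤ 2 ^ ((c : ℤ) - a - b - t) * 2 ^ (t : ℤ) :=
          mul_le_mul_of_nonneg_right h2 (by positivity)
      _ = 2 ^ ((c : ℤ) - a - b) := by rw [← zpow_add₀ h0]; congr 1; ring
      _ ≤ 2 ^ ((a : ℤ) + b + c + 2) := zpow_le_zpow_right₀ one_le_two (by omega)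
  · calc (1 : ℝ) = 2 ^ (0 : ℤ) := by norm_num
      _ ≤ 2 ^ (2 * (c : ℤ)) := zpow_le_zpow_right₀ one_le_two (by omega)
      _ = 2 ^ ((a : ℤ) + b + c + 2) * 2 ^ (t : ℤ) * 2 ^ ((c : ℤ) - a - b - t - 2) := by
          rw [← zpow_add₀ h0, ← zpow_add₀ h0]; congr 1; ring
      _ ≤ 2 ^ ((a : ℤ) + b + c + 2) * 2 ^ (t : ℤ) * q :=
          mul_le_mul_of_nonneg_left h1 (by positivity)

/-- Bounds for the recoupling coefficients. -/
theorem Cone_coef (a b c : ℕ) : ∃ B : ℝ, 1 ≤ B ∧ ∀ t : ℕ, a + b + c ≤ t →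
    (|coef (2 : ℝ) (t + a) (t + a + 1) (t + b) (t + b + 1) (t + c)| * 2 ^ t ≤ B ∧
      1 ≤ B * 2 ^ t * |coef (2 : ℝ) (t + a) (t + a + 1) (t + b) (t + b + 1) (t + c)|) ∧
    (|coef (2 : ℝ) (t + a) (t + a + 1) (t + b) (t + b - 1) (t + c)| ≤ B ∧
      1 ≤ B * |coef (2 : ℝ) (t + a) (t + a + 1) (t + b) (t + b - 1) (t + c)|) ∧
    coef (2 : ℝ) (t + a) (t + a - 1) (t + b) (t + b + 1) (t + c) = 1 ∧
    (|coef (2 : ℝ) (t + a) (t + a - 1) (t + b) (t + b - 1) (t + c)| * 2 ^ t ≤ B ∧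
      1 ≤ B * 2 ^ t * |coef (2 : ℝ) (t + a) (t + a - 1) (t + b) (t + b - 1) (t + c)|) := by
  have h0 : (2 : ℝ) ≠ 0 := two_ne_zero
  refine ⟨2 ^ (a + b + c + 2), one_le_pow₀ one_le_two, ?_⟩
  intro t ht
  have n1 : ¬ (t + b - 1 = t + b + 1) := by omega
  have n2 : ¬ (t + a - 1 = t + a + 1) := by omega
  refine ⟨?_, ?_, ?_, ?_⟩
  · unfold coef
    rw [if_pos rfl, if_pos rfl]
    obtain ⟨h1, h2⟩ := Cone_div (((t + a : ℕ) : ℤ) - ((t + b : ℕ) : ℤ) + ((t + c : ℕ) : ℤ) + 1)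
      (2 * ((t + a : ℕ) : ℤ) + 2) (by push_cast; omega) (by push_cast; omega)
    refine Cone_small _ t a b c ?_ ?_
    · refine le_trans (le_of_eq ?_) h1
      congr 1
      push_cast
      ring
    · refine le_trans h2 (le_of_eq ?_)
      congr 1
      push_cast
      ring
  · unfold coef
    rw [if_pos rfl, if_neg n1]
    obtain ⟨h1, h2⟩ := Cone_div (((t + a : ℕ) : ℤ) + ((t + b : ℕ) : ℤ) - ((t + c : ℕ) : ℤ) + 1)
      (2 * ((t + a : ℕ) : ℤ) + 2) (by push_cast; omega) (by push_cast; omega)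
    obtain ⟨h3, h4⟩ := Cone_div (((t + a : ℕ) : ℤ) + ((t + b : ℕ) : ℤ) + ((t + c : ℕ) : ℤ) + 3)
      (2 * ((t + b : ℕ) : ℤ) + 2) (by push_cast; omega) (by push_cast; omega)
    rw [mul_div_mul_comm]
    have hp : (0 : ℝ) < cur 2 (((t + a : ℕ) : ℤ) + ((t + b : ℕ) : ℤ) - ((t + c : ℕ) : ℤ) + 1) /
        cur 2 (2 * ((t + a : ℕ) : ℤ) + 2) := lt_of_lt_of_le (by positivity) h1
    have hq : (0 : ℝ) < cur 2 (((t + a : ℕ) : ℤ) + ((t + b : ℕ) : ℤ) + ((t + c : ℕ) : ℤ) + 3) /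
        cur 2 (2 * ((t + b : ℕ) : ℤ) + 2) := lt_of_lt_of_le (by positivity) h3
    rw [abs_of_pos (mul_pos hp hq)]
    have h5 := mul_le_mul h2 h4 hq.le (by positivity)
    have h6 := mul_le_mul h1 h3 (by positivity) hp.le
    rw [← zpow_add₀ h0] at h5 h6
    have e5 : (((t + a : ℕ) : ℤ) + ((t + b : ℕ) : ℤ) - ((t + c : ℕ) : ℤ) + 1) -
        (2 * ((t + a : ℕ) : ℤ) + 2) + 1 +
        ((((t + a : ℕ) : ℤ) + ((t + b : ℕ) : ℤ) + ((t + c : ℕ) : ℤ) + 3) -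
        (2 * ((t + b : ℕ) : ℤ) + 2) + 1) = 2 := by ring
    have e6 : (((t + a : ℕ) : ℤ) + ((t + b : ℕ) : ℤ) - ((t + c : ℕ) : ℤ) + 1) - 1 -
        (2 * ((t + a : ℕ) : ℤ) + 2) +
        ((((t + a : ℕ) : ℤ) + ((t + b : ℕ) : ℤ) + ((t + c : ℕ) : ℤ) + 3) - 1 -
        (2 * ((t + b : ℕ) : ℤ) + 2)) = -2 := by ring
    rw [e5] at h5
    rw [e6] at h6
    have h7 : (4 : ℝ) ≤ 2 ^ (a + b + c + 2) := by
      calc (4 : ℝ) = 2 ^ 2 := by norm_num
        _ ≤ 2 ^ (a + b + c + 2) := pow_le_pow_right₀ one_le_two (by omega)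
    have h8 : (2 : ℝ) ^ (2 : ℤ) = 4 := by norm_num
    have h9 : (2 : ℝ) ^ (-2 : ℤ) = 1 / 4 := by norm_num
    rw [h8] at h5
    rw [h9] at h6
    refine ⟨h5.trans h7, ?_⟩
    have h10 := mul_le_mul h7 h6 (by norm_num) (by positivity)
    linarith
  · unfold coef
    rw [if_neg n2, if_pos rfl]
  · unfold coef
    rw [if_neg n2, if_neg n1, abs_neg]
    obtain ⟨h1, h2⟩ := Cone_div (((t + b : ℕ) : ℤ) - ((t + a : ℕ) : ℤ) + ((t + c : ℕ) : ℤ) + 1)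
      (2 * ((t + b : ℕ) : ℤ) + 2) (by push_cast; omega) (by push_cast; omega)
    refine Cone_small _ t a b c ?_ ?_
    · refine le_trans (le_of_eq ?_) h1
      congr 1
      push_cast
      ring
    · refine le_trans h2 (le_of_eq ?_)
      congr 1
      push_cast
      ring

/-- First case: the second amplitude is large. -/
theorem Cone_case1 (T C B a M x y d P Q : ℝ) (hC : 1 ≤ C) (hB : 1 ≤ B) (hT : 2 * C * B ^ 2 ≤ T)
    (ha : 0 ≤ a) (hM : 0 < M) (hx : x ≤ B) (hy : y ≤ B) (hd : d ≤ B) (hd' : 1 ≤ B * T * d)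
    (hP1 : P ≤ a * x + M) (hP2 : M - a * x ≤ P) (hQ1 : Q ≤ a * y + M * d)
    (hQ2 : M * d - a * y ≤ Q) (h : a * T ^ 3 ≤ C * M) :
    0 < P ∧ P ≤ 4 * C * B ^ 2 * T * Q ∧ Q ≤ 4 * C * B ^ 2 * T * P := by
  have hB0 : 0 < B := by linarith
  have hC0 : 0 < C := by linarith
  have hBB : B ≤ B ^ 2 := by nlinarith
  have hCB : B ^ 2 ≤ C * B ^ 2 := by nlinarith [sq_nonneg B]
  have hT1 : 1 ≤ T := by linarith
  have hT0 : 0 < T := by linarith
  have s1 : 2 * (B ^ 2 * (a * T)) ≤ M := by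
    have e0 : T ≤ T ^ 2 := by nlinarith
    have e1 : 2 * C * B ^ 2 * (a * T) ≤ T ^ 2 * (a * T) :=
      mul_le_mul_of_nonneg_right (hT.trans e0) (by positivity)
    have e2 : T ^ 2 * (a * T) = a * T ^ 3 := by ring
    have e3 : C * (2 * (B ^ 2 * (a * T))) ≤ C * M := by
      calc C * (2 * (B ^ 2 * (a * T))) = 2 * C * B ^ 2 * (a * T) := by ring
        _ ≤ C * M := by linarith
    exact le_of_mul_le_mul_left e3 hC0
  have s2 : a ≤ a * T := by nlinarith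
  have s3 : B * a ≤ B ^ 2 * (a * T) := mul_le_mul hBB s2 ha (by positivity)
  have s4 : a * x ≤ B * a := by
    rw [mul_comm B a]
    exact mul_le_mul_of_nonneg_left hx ha
  have s5 : a * y ≤ B * a := by
    rw [mul_comm B a]
    exact mul_le_mul_of_nonneg_left hy ha
  have s6 : M ≤ 2 * P := by linarith
  have hP : 0 < P := by linarith
  have s7 : M ≤ 2 * (B * T * Q) := by
    have e1 : M * 1 ≤ M * (B * T * d) := mul_le_mul_of_nonneg_left hd' hM.le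
    have e2 : B * T * (M * d - a * y) ≤ B * T * Q :=
      mul_le_mul_of_nonneg_left hQ2 (by positivity)
    have e3 : B * T * (a * y) ≤ B * T * (B * a) := mul_le_mul_of_nonneg_left s5 (by positivity)
    have e4 : B * T * (B * a) = B ^ 2 * (a * T) := by ring
    have e5 : B * T * (M * d - a * y) = M * (B * T * d) - B * T * (a * y) := by ring
    linarith
  have s8 : Q ≤ 2 * (B * M) := by
    have e1 : M * d ≤ B * M := by
      rw [mul_comm B M]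
      exact mul_le_mul_of_nonneg_left hd hM.le
    have e2 : M ≤ B * M := by nlinarith
    linarith
  have hBTQ : 0 ≤ B * T * Q := by linarith
  have hTQ : 0 ≤ T * Q := by
    have : B * (T * Q) = B * T * Q := by ring
    by_contra hcon
    push Not at hcon
    have := mul_neg_of_pos_of_neg hB0 hcon
    linarith
  refine ⟨hP, ?_, ?_⟩
  · have e1 : P ≤ 3 * (B * T * Q) := by linarith
    have e2 : 3 * (B * T * Q) ≤ 4 * C * B ^ 2 * T * Q := by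
      have e3 : 3 * B ≤ 4 * (C * B ^ 2) := by linarith
      calc 3 * (B * T * Q) = 3 * B * (T * Q) := by ring
        _ ≤ 4 * (C * B ^ 2) * (T * Q) := mul_le_mul_of_nonneg_right e3 hTQ
        _ = 4 * C * B ^ 2 * T * Q := by ring
    exact e1.trans e2
  · have e1 : Q ≤ 4 * B * P := by
      have : B * M ≤ B * (2 * P) := mul_le_mul_of_nonneg_left s6 hB0.le
      linarith
    have e2 : 4 * B ≤ 4 * C * B ^ 2 * T := by
      have e3 : C * B ^ 2 ≤ C * B ^ 2 * T := le_mul_of_one_le_right (by positivity) hT1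
      have : 4 * C * B ^ 2 * T = 4 * (C * B ^ 2 * T) := by ring
      linarith
    exact e1.trans (mul_le_mul_of_nonneg_right e2 hP.le)

/-- Second case: the first amplitude is large. -/
theorem Cone_case2 (T C B N m x y d P Q : ℝ) (hC : 1 ≤ C) (hB : 1 ≤ B) (hT : 2 * C * B ^ 2 ≤ T)
    (hm : 0 ≤ m) (hN : 0 < N) (hx : x ≤ B) (hx' : 1 ≤ B * T * x) (hy : y ≤ B) (hy' : 1 ≤ B * y)
    (hd : d ≤ B)
    (hP1 : P ≤ N * x + m) (hP2 : N * x - m ≤ P) (hQ1 : Q ≤ N * y + m * d)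
    (hQ2 : N * y - m * d ≤ Q) (h : m * T ^ 3 ≤ C * N) :
    0 < P ∧ P ≤ 4 * C * B ^ 2 * T * Q ∧ Q ≤ 4 * C * B ^ 2 * T * P := by
  have hB0 : 0 < B := by linarith
  have hC0 : 0 < C := by linarith
  have hBB : B ≤ B ^ 2 := by nlinarith
  have hCB : B ^ 2 ≤ C * B ^ 2 := by nlinarith [sq_nonneg B]
  have hT1 : 1 ≤ T := by linarith
  have hT0 : 0 < T := by linarith
  have s1 : 2 * (B ^ 2 * (m * T)) ≤ N := by
    have e0 : T ≤ T ^ 2 := by nlinarith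
    have e1 : 2 * C * B ^ 2 * (m * T) ≤ T ^ 2 * (m * T) :=
      mul_le_mul_of_nonneg_right (hT.trans e0) (by positivity)
    have e2 : T ^ 2 * (m * T) = m * T ^ 3 := by ring
    have e3 : C * (2 * (B ^ 2 * (m * T))) ≤ C * N := by
      calc C * (2 * (B ^ 2 * (m * T))) = 2 * C * B ^ 2 * (m * T) := by ring
        _ ≤ C * N := by linarith
    exact le_of_mul_le_mul_left e3 hC0
  have s2 : m ≤ m * T := by nlinarith
  have s3 : B ^ 2 * m ≤ B ^ 2 * (m * T) := mul_le_mul_of_nonneg_left s2 (by positivity)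
  have s4 : B * (m * T) ≤ B ^ 2 * (m * T) := mul_le_mul_of_nonneg_right hBB (by positivity)
  have s5 : m ≤ N := by nlinarith
  have s6 : m * d ≤ B * m := by
    rw [mul_comm B m]
    exact mul_le_mul_of_nonneg_left hd hm
  have s7 : N ≤ 2 * (B * T * P) := by
    have e1 : N * 1 ≤ N * (B * T * x) := mul_le_mul_of_nonneg_left hx' hN.le
    have e2 : B * T * (N * x - m) ≤ B * T * P :=
      mul_le_mul_of_nonneg_left hP2 (by positivity)
    have e5 : B * T * (N * x - m) = N * (B * T * x) - B * (m * T) := by ring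
    linarith
  have s8 : N ≤ 2 * (B * Q) := by
    have e1 : N * 1 ≤ N * (B * y) := mul_le_mul_of_nonneg_left hy' hN.le
    have e2 : B * (N * y - m * d) ≤ B * Q := mul_le_mul_of_nonneg_left hQ2 hB0.le
    have e3 : B * (m * d) ≤ B * (B * m) := mul_le_mul_of_nonneg_left s6 hB0.le
    have e4 : B * (B * m) = B ^ 2 * m := by ring
    have e5 : B * (N * y - m * d) = N * (B * y) - B * (m * d) := by ring
    linarith
  have hP : 0 < P := by
    have : 0 < B * T * P := by linarith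
    exact (mul_pos_iff_of_pos_left (by positivity)).1 this
  have hQ : 0 < Q := by
    have : 0 < B * Q := by linarith
    exact (mul_pos_iff_of_pos_left hB0).1 this
  have s9 : N ≤ B * N := by nlinarith
  have s10 : P ≤ 2 * (B * N) := by
    have e1 : N * x ≤ B * N := by
      rw [mul_comm B N]
      exact mul_le_mul_of_nonneg_left hx hN.le
    linarith
  have s11 : Q ≤ 2 * (B * N) := by
    have e1 : N * y ≤ B * N := by
      rw [mul_comm B N]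
      exact mul_le_mul_of_nonneg_left hy hN.le
    have e2 : B * m ≤ B * N := mul_le_mul_of_nonneg_left s5 hB0.le
    linarith
  have hCBT : C * B ^ 2 ≤ C * B ^ 2 * T := le_mul_of_one_le_right (by positivity) hT1
  refine ⟨hP, ?_, ?_⟩
  · have e1 : B * N ≤ B * (2 * (B * Q)) := mul_le_mul_of_nonneg_left s8 hB0.le
    have e2 : P ≤ 4 * B ^ 2 * Q := by
      have : 2 * (B * (2 * (B * Q))) = 4 * B ^ 2 * Q := by ring
      linarith
    have e3 : 4 * B ^ 2 ≤ 4 * C * B ^ 2 * T := by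
      have : 4 * C * B ^ 2 * T = 4 * (C * B ^ 2 * T) := by ring
      linarith
    exact e2.trans (mul_le_mul_of_nonneg_right e3 hQ.le)
  · have e1 : B * N ≤ B * (2 * (B * T * P)) := mul_le_mul_of_nonneg_left s7 hB0.le
    have e2 : Q ≤ 4 * B ^ 2 * T * P := by
      have : 2 * (B * (2 * (B * T * P))) = 4 * B ^ 2 * T * P := by ring
      linarith
    have e3 : 4 * B ^ 2 * T ≤ 4 * C * B ^ 2 * T := by
      have : 4 * B ^ 2 ≤ 4 * C * B ^ 2 := by linarith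
      exact mul_le_mul_of_nonneg_right this hT0.le
    exact e2.trans (mul_le_mul_of_nonneg_right e3 hP.le)

/-- The real inequality at a bounce. -/
theorem Cone_bounce (T C B p m α β δ : ℝ) (hC : 1 ≤ C) (hB : 1 ≤ B) (hT : 2 * C * B ^ 2 ≤ T)
    (hα : |α| * T ≤ B) (hα' : 1 ≤ B * T * |α|) (hβ : |β| ≤ B) (hβ' : 1 ≤ B * |β|)
    (hδ : |δ| * T ≤ B) (hδ' : 1 ≤ B * T * |δ|)
    (h : (m ≠ 0 ∧ |p| * T ^ 3 ≤ C * |m|) ∨ (p ≠ 0 ∧ |m| * T ^ 3 ≤ C * |p|)) :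
    p * α + m ≠ 0 ∧ |p * α + m| ≤ 4 * C * B ^ 2 * T * |p * β + m * δ| ∧
      |p * β + m * δ| ≤ 4 * C * B ^ 2 * T * |p * α + m| := by
  have hT1 : 1 ≤ T := by
    have h1 : 1 ≤ B ^ 2 := one_le_pow₀ hB
    nlinarith
  have ha1 : |α| ≤ B := (le_mul_of_one_le_right (abs_nonneg α) hT1).trans hα
  have hd1 : |δ| ≤ B := (le_mul_of_one_le_right (abs_nonneg δ) hT1).trans hδ
  have tri1 : |p * α + m| ≤ |p| * |α| + |m| := by
    rw [← abs_mul]; exact abs_add_le _ _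
  have tri2 : |p * β + m * δ| ≤ |p| * |β| + |m| * |δ| := by
    rw [← abs_mul, ← abs_mul]; exact abs_add_le _ _
  have tri3 : |m| - |p| * |α| ≤ |p * α + m| := by
    rw [← abs_mul]
    have := abs_sub_abs_le_abs_sub m (-(p * α))
    rwa [abs_neg, sub_neg_eq_add, add_comm m] at this
  have tri3' : |p| * |α| - |m| ≤ |p * α + m| := by
    rw [← abs_mul]
    have := abs_sub_abs_le_abs_sub (p * α) (-m)
    rwa [abs_neg, sub_neg_eq_add] at this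
  have tri4 : |p| * |β| - |m| * |δ| ≤ |p * β + m * δ| := by
    rw [← abs_mul, ← abs_mul]
    have := abs_sub_abs_le_abs_sub (p * β) (-(m * δ))
    rwa [abs_neg, sub_neg_eq_add] at this
  have tri4' : |m| * |δ| - |p| * |β| ≤ |p * β + m * δ| := by
    rw [← abs_mul, ← abs_mul]
    have := abs_sub_abs_le_abs_sub (m * δ) (-(p * β))
    rwa [abs_neg, sub_neg_eq_add, add_comm (m * δ)] at this
  rcases h with ⟨hne, h⟩ | ⟨hne, h⟩
  · obtain ⟨h1, h2, h3⟩ := Cone_case1 T C B |p| |m| |α| |β| |δ| _ _ hC hB hT (abs_nonneg p)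
      (abs_pos.2 hne) ha1 hβ hd1 hδ' tri1 tri3 tri2 tri4' h
    exact ⟨abs_pos.1 h1, h2, h3⟩
  · obtain ⟨h1, h2, h3⟩ := Cone_case2 T C B |p| |m| |α| |β| |δ| _ _ hC hB hT (abs_nonneg m)
      (abs_pos.2 hne) ha1 hα' hβ hβ' hd1 tri1 tri3' tri2 tri4 h
    exact ⟨abs_pos.1 h1, h2, h3⟩

/-! ## The induction -/

section

variable {H : Type} {Γ : Fat H}

/-- The exponent of `2` in the ratio of the twists. -/
def ConeE (u : ℕ) (k : ℤ) : ℤ := (2 * (u : ℤ) + 2) * k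

/-- The two amplitudes are comparable up to a factor `C * 2 ^ t` after the twists are removed. -/
def ConeCmp (C : ℝ) (t u : ℕ) (k : ℤ) (p m : ℝ) : Prop :=
  p ≠ 0 ∧ |p| * (2 : ℝ) ^ ConeE u k ≤ C * 2 ^ t * |m| ∧
    |m| ≤ C * 2 ^ t * (|p| * (2 : ℝ) ^ ConeE u k)

/-- The invariant. -/
def ConeInv {l a : H} {σ : Bool} {k : ℤ} (ρ : Red Γ l a σ k) : Prop :=
  (a = l ∧ ∀ t : ℕ, (ρ.alpha t (2 : ℝ)).1 ≠ 0 ∧ (ρ.alpha t (2 : ℝ)).2 = 0) ∨
  ∃ (C : ℝ) (t₀ : ℕ), 1 ≤ C ∧ ∀ t ≥ t₀,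
    ConeCmp C t (t + ρ.nu a) k (ρ.alpha t (2 : ℝ)).1 (ρ.alpha t (2 : ℝ)).2

theorem Cone_tw1 (u : ℕ) : tw (2 : ℝ) u (u + 1) = 2 ^ (-(u : ℤ)) := by
  unfold tw
  rw [if_pos rfl]

theorem Cone_tw2 (u : ℕ) : tw (2 : ℝ) u (u - 1) = -2 ^ ((u : ℤ) + 2) := by
  unfold tw
  rw [if_neg (by omega)]

theorem Cone_up (C : ℝ) (t u : ℕ) (k : ℤ) (p m : ℝ) (h : ConeCmp C t u k p m) :
    ConeCmp C t u (k + 1) (p * 2 ^ (-(u : ℤ))) (m * -2 ^ ((u : ℤ) + 2)) := by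
  have h0 : (2 : ℝ) ≠ 0 := two_ne_zero
  obtain ⟨h1, h2, h3⟩ := h
  have hS : (0 : ℝ) < 2 ^ ((u : ℤ) + 2) := by positivity
  have e1 : |p * (2 : ℝ) ^ (-(u : ℤ))| * (2 : ℝ) ^ ConeE u (k + 1) =
      |p| * (2 : ℝ) ^ ConeE u k * 2 ^ ((u : ℤ) + 2) := by
    rw [abs_mul, abs_of_pos (by positivity : (0 : ℝ) < 2 ^ (-(u : ℤ))), mul_assoc, mul_assoc,
      ← zpow_add₀ h0, ← zpow_add₀ h0]
    congr 2
    unfold ConeE
    ring
  have e2 : |m * -2 ^ ((u : ℤ) + 2)| = |m| * 2 ^ ((u : ℤ) + 2) := by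
    rw [abs_mul, abs_neg, abs_of_pos hS]
  refine ⟨mul_ne_zero h1 (by positivity), ?_, ?_⟩
  · rw [e1, e2, ← mul_assoc]
    exact mul_le_mul_of_nonneg_right h2 hS.le
  · rw [e1, e2, ← mul_assoc]
    exact mul_le_mul_of_nonneg_right h3 hS.le

theorem Cone_dn (C : ℝ) (t u : ℕ) (k : ℤ) (p m : ℝ) (h : ConeCmp C t u k p m) :
    ConeCmp C t u (k - 1) (p * (2 ^ (-(u : ℤ)))⁻¹) (m * (-2 ^ ((u : ℤ) + 2))⁻¹) := by
  have h0 : (2 : ℝ) ≠ 0 := two_ne_zero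
  obtain ⟨h1, h2, h3⟩ := h
  have hS : (0 : ℝ) < 2 ^ (-((u : ℤ) + 2)) := by positivity
  have e0 : ((2 : ℝ) ^ (-(u : ℤ)))⁻¹ = 2 ^ (u : ℤ) := by
    rw [← zpow_neg, neg_neg]
  have e1 : |p * ((2 : ℝ) ^ (-(u : ℤ)))⁻¹| * (2 : ℝ) ^ ConeE u (k - 1) =
      |p| * (2 : ℝ) ^ ConeE u k * 2 ^ (-((u : ℤ) + 2)) := by
    rw [e0, abs_mul, abs_of_pos (by positivity : (0 : ℝ) < 2 ^ (u : ℤ)), mul_assoc, mul_assoc,
      ← zpow_add₀ h0, ← zpow_add₀ h0]
    congr 2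
    unfold ConeE
    ring
  have e2 : |m * (-2 ^ ((u : ℤ) + 2))⁻¹| = |m| * 2 ^ (-((u : ℤ) + 2)) := by
    rw [abs_mul, abs_inv, abs_neg, abs_of_pos (by positivity : (0 : ℝ) < 2 ^ ((u : ℤ) + 2)),
      zpow_neg]
  refine ⟨mul_ne_zero h1 (by positivity), ?_, ?_⟩
  · rw [e1, e2, ← mul_assoc]
    exact mul_le_mul_of_nonneg_right h2 hS.le
  · rw [e1, e2, ← mul_assoc]
    exact mul_le_mul_of_nonneg_right h3 hS.le

/-- Traversal. -/
theorem Cone_trav (a b c : ℕ) : ∃ C : ℝ, 1 ≤ C ∧ ∀ t : ℕ, a + b + c ≤ t → ∀ (u : ℕ) (q : ℝ × ℝ),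
    q.1 ≠ 0 → ConeCmp C t u 0 (tr (2 : ℝ) false (t + a) (t + b) (t + c) q).1
      (tr (2 : ℝ) false (t + a) (t + b) (t + c) q).2 := by
  obtain ⟨B, hB, h⟩ := Cone_coef a b c
  refine ⟨B, hB, ?_⟩
  intro t ht u q hq
  obtain ⟨-, -, h3, h4, h5⟩ := h t ht
  have hT1 : (1 : ℝ) ≤ 2 ^ t := one_le_pow₀ one_le_two
  have hq0 := abs_nonneg q.1
  unfold ConeCmp ConeE tr
  rw [if_neg (by simp)]
  simp only [h3, mul_one, mul_zero, zpow_zero, abs_mul]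
  refine ⟨hq, ?_, ?_⟩
  · have e1 := mul_le_mul_of_nonneg_left h5 hq0
    calc |q.1| = |q.1| * 1 := (mul_one _).symm
      _ ≤ _ := e1
      _ = _ := by ring
  · have e1 := mul_le_mul_of_nonneg_left h4 hq0
    have e2 : |q.1| * |coef (2 : ℝ) (t + a) (t + a - 1) (t + b) (t + b - 1) (t + c)| ≤
        |q.1| * (|coef (2 : ℝ) (t + a) (t + a - 1) (t + b) (t + b - 1) (t + c)| * 2 ^ t) :=
      mul_le_mul_of_nonneg_left (le_mul_of_one_le_right (abs_nonneg _) hT1) hq0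
    have e3 : |q.1| * B ≤ B * 2 ^ t * |q.1| := by
      have : B ≤ B * 2 ^ t := le_mul_of_one_le_right (by linarith) hT1
      calc |q.1| * B ≤ |q.1| * (B * 2 ^ t) := mul_le_mul_of_nonneg_left this hq0
        _ = _ := by ring
    linarith

/-- Bounce. -/
theorem Cone_bnc (a b c : ℕ) (C : ℝ) (hC : 1 ≤ C) : ∃ (C' : ℝ) (t₁ : ℕ), 1 ≤ C' ∧
    ∀ t ≥ t₁, ∀ (u v : ℕ) (k : ℤ) (q : ℝ × ℝ), t ≤ u → 2 ≤ |k| → ConeCmp C t u k q.1 q.2 →
      ConeCmp C' t v 0 (tr (2 : ℝ) true (t + a) (t + b) (t + c) q).1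
        (tr (2 : ℝ) true (t + a) (t + b) (t + c) q).2 := by
  obtain ⟨B, hB, h⟩ := Cone_coef a b c
  obtain ⟨t₂, ht₂⟩ := pow_unbounded_of_one_lt (2 * C * B ^ 2) (one_lt_two : (1 : ℝ) < 2)
  have hB2 : (1 : ℝ) ≤ B ^ 2 := one_le_pow₀ hB
  have hCB : (1 : ℝ) ≤ 4 * C * B ^ 2 := by nlinarith
  refine ⟨4 * C * B ^ 2, max t₂ (a + b + c), hCB, ?_⟩
  intro t ht u v k q hu hk ⟨hp, hi, hii⟩
  obtain ⟨⟨h1, h1'⟩, ⟨h2, h2'⟩, h3, h4, h4'⟩ := h t ((le_max_right _ _).trans ht)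
  have hT : 2 * C * B ^ 2 ≤ (2 : ℝ) ^ t :=
    ht₂.le.trans (pow_le_pow_right₀ one_le_two ((le_max_left _ _).trans ht))
  have hT0 : (0 : ℝ) < 2 ^ t := by positivity
  have hC0 : 0 < C := by linarith
  have hcase : (q.2 ≠ 0 ∧ |q.1| * (2 ^ t) ^ 3 ≤ C * |q.2|) ∨
      (q.1 ≠ 0 ∧ |q.2| * (2 ^ t) ^ 3 ≤ C * |q.1|) := by
    rcases le_abs.1 hk with hk | hk
    · left
      have hD : ((2 : ℝ) ^ t) ^ 4 ≤ 2 ^ ConeE u k := by
        rw [← pow_mul, ← zpow_natCast]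
        refine zpow_le_zpow_right₀ one_le_two ?_
        unfold ConeE
        push_cast
        have h5 : (t : ℤ) ≤ u := by exact_mod_cast hu
        have h6 : (0 : ℤ) ≤ t := by positivity
        nlinarith
      constructor
      · intro h0
        rw [h0, abs_zero, mul_zero] at hi
        have h7 : 0 < |q.1| * (2 : ℝ) ^ ConeE u k :=
          mul_pos (abs_pos.2 hp) (by positivity)
        linarith
      · have e1 : |q.1| * ((2 : ℝ) ^ t) ^ 4 ≤ C * 2 ^ t * |q.2| :=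
          (mul_le_mul_of_nonneg_left hD (abs_nonneg _)).trans hi
        have e2 : (2 : ℝ) ^ t * (|q.1| * (2 ^ t) ^ 3) ≤ 2 ^ t * (C * |q.2|) := by
          calc (2 : ℝ) ^ t * (|q.1| * (2 ^ t) ^ 3) = |q.1| * ((2 : ℝ) ^ t) ^ 4 := by ring
            _ ≤ C * 2 ^ t * |q.2| := e1
            _ = _ := by ring
        exact le_of_mul_le_mul_left e2 hT0
    · right
      have hD : (2 : ℝ) ^ ConeE u k * ((2 : ℝ) ^ t) ^ 4 ≤ 1 := by
        rw [← pow_mul, ← zpow_natCast, ← zpow_add₀ two_ne_zero]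
        refine zpow_le_one_of_nonpos₀ one_le_two ?_
        unfold ConeE
        push_cast
        have h5 : (t : ℤ) ≤ u := by exact_mod_cast hu
        have h6 : (0 : ℤ) ≤ t := by positivity
        nlinarith
      refine ⟨hp, ?_⟩
      have e1 : |q.2| * ((2 : ℝ) ^ t) ^ 4 ≤ C * 2 ^ t * |q.1| := by
        calc |q.2| * ((2 : ℝ) ^ t) ^ 4 ≤
            C * 2 ^ t * (|q.1| * (2 : ℝ) ^ ConeE u k) * ((2 : ℝ) ^ t) ^ 4 :=
              mul_le_mul_of_nonneg_right hii (by positivity)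
          _ = C * 2 ^ t * |q.1| * ((2 : ℝ) ^ ConeE u k * ((2 : ℝ) ^ t) ^ 4) := by ring
          _ ≤ C * 2 ^ t * |q.1| * 1 := mul_le_mul_of_nonneg_left hD (by positivity)
          _ = _ := mul_one _
      have e2 : (2 : ℝ) ^ t * (|q.2| * (2 ^ t) ^ 3) ≤ 2 ^ t * (C * |q.1|) := by
        calc (2 : ℝ) ^ t * (|q.2| * (2 ^ t) ^ 3) = |q.2| * ((2 : ℝ) ^ t) ^ 4 := by ring
          _ ≤ C * 2 ^ t * |q.1| := e1
          _ = _ := by ring
      exact le_of_mul_le_mul_left e2 hT0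
  obtain ⟨r1, r2, r3⟩ := Cone_bounce _ C B q.1 q.2 _ _ _ hC hB hT h1 h1' h2 h2' h4 h4' hcase
  unfold ConeCmp ConeE tr
  rw [if_pos rfl]
  simp only [h3, mul_one, mul_zero, zpow_zero]
  exact ⟨r1, r2, r3⟩

theorem Cone_inv {l a : H} {σ : Bool} {k : ℤ} (hl : Γ.nxt l = l) (ρ : Red Γ l a σ k) :
    ConeInv ρ := by
  induction ρ with
  | base => exact Or.inl ⟨rfl, fun t => ⟨one_ne_zero, rfl⟩⟩
  | @up a σ k w hk ih =>
    rcases ih with ⟨ha, h⟩ | ⟨C, t₀, hC, h⟩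
    · left
      refine ⟨ha, fun t => ?_⟩
      obtain ⟨h1, h2⟩ := h t
      constructor
      · change (w.alpha t (2 : ℝ)).1 * tw 2 (t + w.nu a) (t + w.nu a + 1) ≠ 0
        rw [Cone_tw1]
        exact mul_ne_zero h1 (by positivity)
      · change (w.alpha t (2 : ℝ)).2 * tw 2 (t + w.nu a) (t + w.nu a - 1) = 0
        rw [h2, zero_mul]
    · right
      refine ⟨C, t₀, hC, fun t ht => ?_⟩
      change ConeCmp C t (t + w.nu a) (k + 1)
        ((w.alpha t (2 : ℝ)).1 * tw 2 (t + w.nu a) (t + w.nu a + 1))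
        ((w.alpha t (2 : ℝ)).2 * tw 2 (t + w.nu a) (t + w.nu a - 1))
      rw [Cone_tw1, Cone_tw2]
      exact Cone_up _ _ _ _ _ _ (h t ht)
  | @dn a σ k w hk ih =>
    rcases ih with ⟨ha, h⟩ | ⟨C, t₀, hC, h⟩
    · left
      refine ⟨ha, fun t => ?_⟩
      obtain ⟨h1, h2⟩ := h t
      constructor
      · change (w.alpha t (2 : ℝ)).1 * (tw 2 (t + w.nu a) (t + w.nu a + 1))⁻¹ ≠ 0
        rw [Cone_tw1]
        exact mul_ne_zero h1 (by positivity)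
      · change (w.alpha t (2 : ℝ)).2 * (tw 2 (t + w.nu a) (t + w.nu a - 1))⁻¹ = 0
        rw [h2, zero_mul]
    · right
      refine ⟨C, t₀, hC, fun t ht => ?_⟩
      change ConeCmp C t (t + w.nu a) (k - 1)
        ((w.alpha t (2 : ℝ)).1 * (tw 2 (t + w.nu a) (t + w.nu a + 1))⁻¹)
        ((w.alpha t (2 : ℝ)).2 * (tw 2 (t + w.nu a) (t + w.nu a - 1))⁻¹)
      rw [Cone_tw1, Cone_tw2]
      exact Cone_dn _ _ _ _ _ _ (h t ht)
  | @ccw a σ k w hn hb ih =>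
    right
    cases σ with
    | false =>
      obtain ⟨C, hC, hc⟩ := Cone_trav ((Red.ccw w hn hb).nu (pos Γ a false))
        ((Red.ccw w hn hb).nu (Γ.nxt (pos Γ a false)))
        ((Red.ccw w hn hb).nu (Γ.nxt (Γ.nxt (pos Γ a false))))
      have hw : ∃ t₀ : ℕ, ∀ t ≥ t₀, (w.alpha t (2 : ℝ)).1 ≠ 0 := by
        rcases ih with ⟨-, h⟩ | ⟨_, t₀, _, h⟩
        · exact ⟨0, fun t _ => (h t).1⟩
        · exact ⟨t₀, fun t ht => (h t ht).1⟩
      obtain ⟨t₀, hw⟩ := hw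
      exact ⟨C, max t₀ _, hC, fun t ht => hc t ((le_max_right _ _).trans ht) _ _
        (hw t ((le_max_left _ _).trans ht))⟩
    | true =>
      rcases ih with ⟨ha, -⟩ | ⟨C, t₀, hC, h⟩
      · exfalso
        subst ha
        exact hn hl
      · obtain ⟨C', t₁, hC', hc⟩ := Cone_bnc ((Red.ccw w hn hb).nu (pos Γ a true))
          ((Red.ccw w hn hb).nu (Γ.nxt (pos Γ a true)))
          ((Red.ccw w hn hb).nu (Γ.nxt (Γ.nxt (pos Γ a true)))) C hC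
        exact ⟨C', max t₀ t₁, hC', fun t ht => hc t ((le_max_right _ _).trans ht) _ _ _ _
          (Nat.le_add_right _ _) (hb rfl) (h t ((le_max_left _ _).trans ht))⟩
  | @cw a b σ k w hq hn hb ih =>
    right
    cases σ with
    | true =>
      obtain ⟨C, hC, hc⟩ := Cone_trav ((Red.cw w hq hn hb).nu (Γ.nxt b))
        ((Red.cw w hq hn hb).nu b) ((Red.cw w hq hn hb).nu (Γ.nxt (Γ.nxt b)))
      have hw : ∃ t₀ : ℕ, ∀ t ≥ t₀, (w.alpha t (2 : ℝ)).1 ≠ 0 := by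
        rcases ih with ⟨-, h⟩ | ⟨_, t₀, _, h⟩
        · exact ⟨0, fun t _ => (h t).1⟩
        · exact ⟨t₀, fun t ht => (h t ht).1⟩
      obtain ⟨t₀, hw⟩ := hw
      exact ⟨C, max t₀ _, hC, fun t ht => hc t ((le_max_right _ _).trans ht) _ _
        (hw t ((le_max_left _ _).trans ht))⟩
    | false =>
      rcases ih with ⟨ha, -⟩ | ⟨C, t₀, hC, h⟩
      · exfalso
        subst ha
        have h1 : Γ.opp a = Γ.opp (Γ.nxt b) := hq
        have h2 : a = Γ.nxt b := by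
          rw [← Γ.opp_opp a, h1, Γ.opp_opp]
        have h3 := Γ.nxt3 b
        rw [← h2, hl, hl] at h3
        exact hn (by rw [← h2, h3])
      · obtain ⟨C', t₁, hC', hc⟩ := Cone_bnc ((Red.cw w hq hn hb).nu (Γ.nxt b))
          ((Red.cw w hq hn hb).nu b) ((Red.cw w hq hn hb).nu (Γ.nxt (Γ.nxt b))) C hC
        exact ⟨C', max t₀ t₁, hC', fun t ht => hc t ((le_max_right _ _).trans ht) _ _ _ _
          (Nat.le_add_right _ _) (hb rfl) (h t ((le_max_left _ _).trans ht))⟩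

end

theorem thm_Cone : St_Cone := by
  intro H Γ l hl a σ k ρ
  rcases Cone_inv hl ρ with ⟨-, h⟩ | ⟨_, t₀, _, h⟩
  · exact ⟨0, fun t _ => (h t).1⟩
  · exact ⟨t₀, fun t ht => (h t ht).1⟩

end Pool.Agent.AMS
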