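import Pool.Agent.AMS.NB

/-!
# The operator of a push next to the leaf (CNF)
-/

set_option autoImplicit false

namespace Pool.Agent.AMS

section pts

variable {H : Type} {Γ : Fat H} {K : Type} [Field K] {φ : H → ℤ} {col : H → ℕ}

theorem ConjF_cases (φ : H → ℤ) (col : H → ℕ) (q : H) (δ : H → ℤ) :
    (∃ δ' : GSt Γ φ col q, δ'.1 = δ) ∨ ¬ IsG Γ φ col q δ := by
  by_cases h : IsG Γ φ col q δ
  · exact Or.inl ⟨⟨δ, h⟩, rfl⟩
  · exact Or.inr h

theorem ConjF_pt_zero {q : H} (δ : H → ℤ) : pt Γ φ col q δ (0 : K) = 0 := by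
  rcases ConjF_cases (Γ := Γ) φ col q δ with ⟨δ', rfl⟩ | h
  · rw [NB_pt_self, Finsupp.single_zero]
  · rw [NB_pt_neg φ col h]

theorem ConjF_pt_smul {q : H} (δ : H → ℤ) (c a : K) :
    c • pt Γ φ col q δ a = pt Γ φ col q δ (c * a) := by
  rcases ConjF_cases (Γ := Γ) φ col q δ with ⟨δ', rfl⟩ | h
  · rw [NB_pt_self, NB_pt_self, Finsupp.smul_single, smul_eq_mul]
  · rw [NB_pt_neg φ col h, NB_pt_neg φ col h, smul_zero]

theorem ConjF_pt_add {q : H} (δ : H → ℤ) (a b : K) :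
    pt Γ φ col q δ a + pt Γ φ col q δ b = pt Γ φ col q δ (a + b) := by
  rcases ConjF_cases (Γ := Γ) φ col q δ with ⟨δ', rfl⟩ | h
  · rw [NB_pt_self, NB_pt_self, NB_pt_self, Finsupp.single_add]
  · rw [NB_pt_neg φ col h, NB_pt_neg φ col h, NB_pt_neg φ col h, add_zero]

theorem ConjF_single {q : H} (δ : GSt Γ φ col q) (a : K) :
    (Finsupp.single δ a : GSt Γ φ col q →₀ K) = a • Finsupp.single δ 1 := by simp

end pts

/-- The vertex next to the leaf `l`. -/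
structure ConjFV {H : Type} (Γ : Fat H) (φ : H → ℤ) (l e f : H) : Prop where
  nl : Γ.nxt l = l
  ne : Γ.nxt (Γ.opp l) = e
  nf : Γ.nxt e = f
  nm : Γ.nxt f = Γ.opp l
  fm : f ≠ Γ.opp l
  em : e ≠ Γ.opp l
  ef : e ≠ f
  fl : f ≠ l
  el : e ≠ l
  pm : φ (Γ.opp l) = 0
  pf : φ f ≠ 0
  pe : |φ e| = |φ f|

theorem ConjF_mk {H : Type} {Γ : Fat H} {φ : H → ℤ} (hφ : IsFlow Γ φ) {l e f : H}
    (hl : Γ.nxt l = l) (he : e = Γ.nxt (Γ.opp l)) (hf : f = Γ.nxt e) : ConjFV Γ φ l e f := by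
  have h1 : Γ.nxt (Γ.opp l) ≠ Γ.opp l := Γ.leaf_opp l hl
  have h2 : Γ.nxt f = Γ.opp l := by rw [hf, he, Γ.nxt3]
  have h3 : φ (Γ.opp l) = 0 := (hφ.zero _).2 (Or.inr (by rw [Γ.opp_opp]; exact hl))
  have h4 : φ e ≠ 0 := by
    rcases hφ.one _ h1 with h | h
    · exact absurd h3 h
    · rw [he]; exact h
  have h5 := hφ.vert _ h1
  rw [h3, ← he, ← hf] at h5
  have h6 : φ f = -φ e := by omega
  have h7 : e ≠ Γ.opp l := by rw [he]; exact h1
  have h8 : f ≠ Γ.opp l := by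
    rw [hf, he]; exact NB_nl2 h1
  have h9 : e ≠ f := by
    rw [hf, he]; exact (NB_nl h1).symm
  refine ⟨hl, he.symm, hf.symm, h2, h8, h7, h9, ?_, ?_, h3, ?_, ?_⟩
  · rintro rfl
    rw [hl] at h2
    exact Γ.opp_ne f h2.symm
  · rintro rfl
    rw [hl] at hf
    exact h9 hf.symm
  · rw [h6]; simpa using h4
  · rw [h6, abs_neg]

section states

variable {H : Type} {Γ : Fat H} {φ : H → ℤ} {col : H → ℕ} {l e f : H}

theorem ConjF_vals (hV : ConjFV Γ φ l e f) {δ : H → ℤ} (hδ : IsG Γ φ col f δ) :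
    δ l = col l ∧ δ (Γ.opp l) = col l ∧ Even (δ f + col l + δ e) ∧ δ f ≤ col l + δ e ∧
      δ e ≤ δ f + col l := by
  obtain ⟨h1, h2, h3, h4, h5⟩ := hδ
  have a1 : δ l = col l := h1 l hV.nl
  have a2 : δ (Γ.opp l) = δ l := h4 l hV.fl.symm (by
    intro h
    apply hV.fm
    rw [h, Γ.opp_opp])
  have a3 : δ (Γ.opp l) = col l := by rw [a2, a1]
  have n1 : Γ.nxt f ≠ f := by rw [hV.nm]; exact hV.fm.symm
  have n2 : Γ.nxt e ≠ e := by rw [hV.nf]; exact hV.ef.symm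
  have b1 := h2 f n1
  have b2 := h3 f n1
  have b3 := h3 e n2
  rw [hV.nm, hV.ne, a3] at b1 b2
  rw [hV.nf, hV.nm, a3] at b3
  rw [hV.pm, abs_zero] at b2 b3
  refine ⟨a1, a3, b1, b2 (by rw [hV.pe]; ring), b3 (by rw [hV.pe]; ring)⟩

open Classical in
theorem ConjF_up (hV : ConjFV Γ φ l e f) {δ : H → ℤ} (hδ : IsG Γ φ col f δ) {s : ℤ}
    (hs : s = 1 ∨ s = -1) (i1 : δ (Γ.opp f) ≤ col l + s + δ e)
    (i2 : δ e ≤ δ (Γ.opp f) + (col l + s)) : IsG Γ φ col l (upT Γ f s δ) := by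
  obtain ⟨a1, a3, b1, b2, b3⟩ := ConjF_vals hV hδ
  obtain ⟨h1, h2, h3, h4, h5⟩ := hδ
  have u1 : upT Γ f s δ (Γ.opp l) = col l + s := by
    unfold upT; rw [hV.nm, if_pos rfl, a3]
  have u2 : upT Γ f s δ f = δ (Γ.opp f) := by
    unfold upT; rw [hV.nm, if_neg hV.fm, if_pos rfl]
  have u3 : ∀ h, h ≠ f → h ≠ Γ.opp l → upT Γ f s δ h = δ h := by
    intro h ha hb
    unfold upT; rw [hV.nm, if_neg hb, if_neg ha]
  have u4 : upT Γ f s δ e = δ e := u3 e hV.ef hV.em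
  have u5 : upT Γ f s δ l = col l := by
    rw [u3 l hV.fl.symm (Γ.opp_ne l).symm, a1]
  have n1 : Γ.nxt f ≠ f := by rw [hV.nm]; exact hV.fm.symm
  have n2 : Γ.nxt e ≠ e := by rw [hV.nf]; exact hV.ef.symm
  have key : ∀ h, h ≠ f → h ≠ e → h ≠ Γ.opp l →
      upT Γ f s δ h = δ h ∧ upT Γ f s δ (Γ.nxt h) = δ (Γ.nxt h) ∧
      upT Γ f s δ (Γ.nxt (Γ.nxt h)) = δ (Γ.nxt (Γ.nxt h)) := by
    intro h ha hb hc
    have c1 : Γ.nxt h ≠ f := by
      intro hh
      apply hb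
      rw [← Γ.nxt3 h, hh, hV.nm, hV.ne]
    have c2 : Γ.nxt h ≠ Γ.opp l := by
      intro hh
      apply ha
      rw [← Γ.nxt3 h, hh, hV.ne, hV.nf]
    have c3 : Γ.nxt (Γ.nxt h) ≠ f := by
      intro hh
      apply hc
      rw [← Γ.nxt3 h, hh, hV.nm]
    have c4 : Γ.nxt (Γ.nxt h) ≠ Γ.opp l := by
      intro hh
      apply hb
      rw [← Γ.nxt3 h, hh, hV.ne]
    exact ⟨u3 _ ha hc, u3 _ c1 c2, u3 _ c3 c4⟩
  have par : Even (δ (Γ.opp f) + (col l + s) + δ e) := by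
    rcases h5 with h5 | h5 <;> rcases hs with hs | hs <;> subst hs <;>
      rw [Int.even_iff] at * <;> omega
  refine ⟨?_, ?_, ?_, ?_, ?_⟩
  · intro h hh
    rw [u3 h, h1 h hh]
    · rintro rfl; exact n1 hh
    · rintro rfl
      rw [hV.ne] at hh
      exact hV.em hh
  · intro h hh
    by_cases ha : h = f
    · subst ha
      rw [hV.nm, hV.ne, u1, u2, u4]
      exact par
    by_cases hb : h = e
    · subst hb
      rw [hV.nf, hV.nm, u1, u2, u4]
      rw [Int.even_iff] at par ⊢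
      omega
    by_cases hc : h = Γ.opp l
    · subst hc
      rw [hV.ne, hV.nf, u1, u2, u4]
      rw [Int.even_iff] at par ⊢
      omega
    obtain ⟨d1, d2, d3⟩ := key h ha hb hc
    rw [d1, d2, d3]
    exact h2 h hh
  · intro h hh hw
    by_cases ha : h = f
    · subst ha
      rw [hV.nm, hV.ne, u1, u2, u4]
      exact i1
    by_cases hb : h = e
    · subst hb
      rw [hV.nf, hV.nm, u1, u2, u4]
      exact i2
    by_cases hc : h = Γ.opp l
    · subst hc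
      rw [hV.ne, hV.nf, hV.pm, hV.pe, abs_zero] at hw
      have := abs_pos.2 hV.pf
      omega
    obtain ⟨d1, d2, d3⟩ := key h ha hb hc
    rw [d1, d2, d3]
    exact h3 h hh hw
  · intro h ha hb
    have of : Γ.opp f ≠ f := Γ.opp_ne f
    have ol : Γ.opp f ≠ Γ.opp l := by
      intro hh
      apply hV.fl
      rw [← Γ.opp_opp f, hh, Γ.opp_opp]
    by_cases hc : h = f
    · subst hc
      rw [u2, u3 _ of ol]
    by_cases hd : h = Γ.opp f
    · subst hd
      rw [Γ.opp_opp, u2, u3 _ of ol]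
    rw [u3 h hc hb, u3 (Γ.opp h), h4 h hc hd]
    · intro hh
      apply hd
      rw [← Γ.opp_opp h, hh]
    · intro hh
      apply ha
      rw [← Γ.opp_opp h, hh, Γ.opp_opp]
  · rw [u1, u5]
    omega

open Classical in
theorem ConjF_dn (hV : ConjFV Γ φ l e f) {δ : H → ℤ} (hδ : IsG Γ φ col f δ) (s t : ℤ) :
    dnT Γ f t (upT Γ f s δ) = Function.update δ f (δ (Γ.opp f) + t) := by
  obtain ⟨a1, a3, -⟩ := ConjF_vals hV hδ
  funext h
  unfold dnT upT
  rw [hV.nm, Γ.opp_opp, Function.update_apply]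
  by_cases ha : h = f
  · rw [if_pos ha, if_pos ha, if_neg hV.fm, if_pos rfl]
  · rw [if_neg ha, if_neg ha]
    by_cases hb : h = Γ.opp l
    · subst hb
      rw [if_pos rfl, if_neg (Γ.opp_ne l).symm, if_neg hV.fl.symm, if_neg ha, a1, a3]
    · rw [if_neg hb, if_neg hb, if_neg ha]

end states

section leafvertex

variable {H : Type} {Γ : Fat H} {φ : H → ℤ} {col : H → ℕ} {l e f : H}

open Classical in
/-- The operator `dOp` at the position `l`. -/
noncomputable def ConjFD (Γ : Fat H) (φ : H → ℤ) (col : H → ℕ) (l : H) :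
    (GSt Γ φ col l →₀ ℚ) →ₗ[ℚ] (GSt Γ φ col l →₀ ℚ) :=
  Finsupp.linearCombination ℚ fun δ : GSt Γ φ col l =>
    Finsupp.single δ (if δ.1 l = δ.1 (Γ.opp l) + 1 then -(2 * (δ.1 (Γ.opp l) : ℚ))
      else 2 * (δ.1 (Γ.opp l) : ℚ) + 4)

theorem ConjFD_single (δ : GSt Γ φ col l) (a : ℚ) :
    ConjFD Γ φ col l (Finsupp.single δ a) =
      Finsupp.single δ (a * (if δ.1 l = δ.1 (Γ.opp l) + 1 then -(2 * (δ.1 (Γ.opp l) : ℚ))
        else 2 * (δ.1 (Γ.opp l) : ℚ) + 4)) := by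
  unfold ConjFD
  rw [Finsupp.linearCombination_single, Finsupp.smul_single, smul_eq_mul]

theorem ConjFD_pt (δ : H → ℤ) (a : ℚ) :
    ConjFD Γ φ col l (pt Γ φ col l δ a) =
      pt Γ φ col l δ (a * (if δ l = δ (Γ.opp l) + 1 then -(2 * (δ (Γ.opp l) : ℚ))
        else 2 * (δ (Γ.opp l) : ℚ) + 4)) := by
  rcases ConjF_cases (Γ := Γ) φ col l δ with ⟨δ', rfl⟩ | h
  · rw [NB_pt_self, NB_pt_self, ConjFD_single]
  · rw [NB_pt_neg φ col h, NB_pt_neg φ col h, map_zero]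

open Classical in
theorem ConjF_down (hV : ConjFV Γ φ l e f) (hf : Γ.nxt f ≠ f) (hq : l = Γ.opp (Γ.nxt f))
    {δ : H → ℤ} (hδ : IsG Γ φ col f δ) {s : ℤ} (hs : s = 1 ∨ s = -1)
    (hu : IsG Γ φ col l (upT Γ f s δ)) (a : ℚ) :
    (Step.turn f l hf hq).gop' Γ φ col (rsd φ) (pt Γ φ col l (upT Γ f s δ) a) =
      pt Γ φ col f (Function.update δ f (δ (Γ.opp f) + 1)) (a * if s = 1 then
        ((col l + 1 - (δ (Γ.opp f) - δ e) : ℤ) : ℚ) / ((2 * col l + 2 : ℤ) : ℚ) else 1) +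
      pt Γ φ col f (Function.update δ f (δ (Γ.opp f) - 1)) (a * if s = 1 then
        ((col l + 1 + (δ (Γ.opp f) - δ e) : ℤ) : ℚ) / ((2 * col l + 2 : ℤ) : ℚ) else -1) := by
  obtain ⟨a1, a3, b1, b2, b3⟩ := ConjF_vals hV hδ
  have u1 : upT Γ f s δ (Γ.opp l) = col l + s := by
    unfold upT; rw [hV.nm, if_pos rfl, a3]
  have u2 : upT Γ f s δ f = δ (Γ.opp f) := by
    unfold upT; rw [hV.nm, if_neg hV.fm, if_pos rfl]
  have u3 : ∀ h, h ≠ f → h ≠ Γ.opp l → upT Γ f s δ h = δ h := by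
    intro h ha hb
    unfold upT; rw [hV.nm, if_neg hb, if_neg ha]
  have u4 : upT Γ f s δ e = δ e := u3 e hV.ef hV.em
  have u5 : upT Γ f s δ l = col l := by
    rw [u3 l hV.fl.symm (Γ.opp_ne l).symm, a1]
  obtain ⟨D, hD⟩ : ∃ D : GSt Γ φ col l, D.1 = upT Γ f s δ := ⟨⟨_, hu⟩, rfl⟩
  rw [← hD, NB_pt_self, ConjF_single, map_smul, NB_turn', hD, ConjF_dn hV hδ, ConjF_dn hV hδ,
    smul_add, ConjF_pt_smul, ConjF_pt_smul]
  simp only [rsd, hV.nm, hV.ne, Γ.opp_opp, u1, u2, u4, u5, hV.pm, abs_zero, rcoef, if_true]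
  rcases hs with rfl | rfl
  · have c1 : (col l : ℤ) + 1 = col l + 1 := rfl
    simp only [if_true]
    rw [if_neg (by omega)]
    have e1 : δ e - δ (Γ.opp f) + (col l : ℤ) + 1 = col l + 1 - (δ (Γ.opp f) - δ e) := by ring
    have e2 : (col l : ℤ) + δ (Γ.opp f) - δ e + 1 = col l + 1 + (δ (Γ.opp f) - δ e) := by ring
    rw [e1, e2]
    rfl
  · have c1 : ¬ ((col l : ℤ) + -1 = col l + 1) := by omega
    have c2 : ¬ ((-1 : ℤ) = 1) := by omega
    have c3 : ¬ (δ (Γ.opp f) - 1 = δ (Γ.opp f) + 1) := by omega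
    simp only [c1, c2, c3, if_false]
    rfl

open Classical in
theorem ConjF_S (hV : ConjFV Γ φ l e f) (hf : Γ.nxt f ≠ f) (hq : l = Γ.opp (Γ.nxt f))
    (δ : GSt Γ φ col f) (s k : ℤ) (hs : s = δ.1 f - δ.1 (Γ.opp f))
    (hk : k = δ.1 (Γ.opp f) - δ.1 e) :
    (Step.turn f l hf hq).gop' Γ φ col (rsd φ) (ConjFD Γ φ col l
      ((Step.turn f l hf hq).gop Γ φ col (rsd φ) (Finsupp.single δ 1))) =
    Finsupp.single δ (4 - 2 * s * k : ℚ) +
      pt Γ φ col f (Function.update δ.1 f (δ.1 (Γ.opp f) - s)) (2 * (col l + 1 + s * k) : ℚ) := by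
  obtain ⟨a1, a3, b1, b2, b3⟩ := ConjF_vals hV δ.2
  have h5 := δ.2.2.2.2.2
  have hs' : s = 1 ∨ s = -1 := by omega
  have up1 : IsG Γ φ col l (upT Γ f 1 δ.1) :=
    ConjF_up hV δ.2 (Or.inl rfl) (by omega) (by omega)
  have up2 : (col l : ℤ) + 1 + s * k ≠ 0 → IsG Γ φ col l (upT Γ f (-1) δ.1) := by
    intro hne
    rw [Int.even_iff] at b1
    rcases hs' with rfl | rfl
    · exact ConjF_up hV δ.2 (Or.inr rfl) (by omega) (by omega)
    · exact ConjF_up hV δ.2 (Or.inr rfl) (by omega) (by omega)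
  have u1 : ∀ s, upT Γ f s δ.1 (Γ.opp l) = col l + s := by
    intro s
    unfold upT; rw [hV.nm, if_pos rfl, a3]
  have u5 : ∀ s, upT Γ f s δ.1 l = col l := by
    intro s
    unfold upT; rw [hV.nm, if_neg (Γ.opp_ne l).symm, if_neg hV.fl.symm, a1]
  have hself : Function.update δ.1 f (δ.1 (Γ.opp f) + s) = δ.1 := by
    rw [hs]
    have : δ.1 (Γ.opp f) + (δ.1 f - δ.1 (Γ.opp f)) = δ.1 f := by ring
    rw [this, Function.update_eq_self]
  have hpos : ((2 * col l + 2 : ℤ) : ℚ) ≠ 0 := by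
    have : (2 * (col l : ℤ) + 2) ≠ 0 := by omega
    exact_mod_cast this
  have hpos' : (2 * (col l : ℚ) + 2) ≠ 0 := by
    have := hpos
    push_cast at this
    exact this
  have d1 : ∀ a : ℚ, ConjFD Γ φ col l (pt Γ φ col l (upT Γ f 1 δ.1) a) =
      pt Γ φ col l (upT Γ f 1 δ.1) (a * (2 * (col l : ℚ) + 6)) := by
    intro a
    rw [ConjFD_pt, u1, u5, if_neg (by omega)]
    congr 1
    push_cast
    ring
  have d2 : ∀ a : ℚ, ConjFD Γ φ col l (pt Γ φ col l (upT Γ f (-1) δ.1) a) =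
      pt Γ φ col l (upT Γ f (-1) δ.1) (a * (2 - 2 * (col l : ℚ))) := by
    intro a
    rw [ConjFD_pt, u1, u5, if_pos (by omega)]
    congr 1
    push_cast
    ring
  have t1 := fun a => ConjF_down hV hf hq δ.2 (Or.inl rfl) up1 a
  have t2 : ∀ a : ℚ, (col l : ℤ) + 1 + s * k ≠ 0 ∨ a = 0 →
      (Step.turn f l hf hq).gop' Γ φ col (rsd φ) (pt Γ φ col l (upT Γ f (-1) δ.1) a) =
      pt Γ φ col f (Function.update δ.1 f (δ.1 (Γ.opp f) + 1)) a +
      pt Γ φ col f (Function.update δ.1 f (δ.1 (Γ.opp f) - 1)) (-a) := by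
    intro a ha
    rcases ha with ha | rfl
    · rw [ConjF_down hV hf hq δ.2 (Or.inr rfl) (up2 ha)]
      have : ¬ ((-1 : ℤ) = 1) := by omega
      simp only [this, if_false, mul_one, mul_neg]
    · rw [ConjF_pt_zero, map_zero, neg_zero, ConjF_pt_zero, ConjF_pt_zero, add_zero]
  have hT : (Step.turn f l hf hq).gop Γ φ col (rsd φ) (Finsupp.single δ 1) =
      pt Γ φ col l (upT Γ f 1 δ.1) 1 + pt Γ φ col l (upT Γ f (-1) δ.1)
        ((s : ℚ) * ((col l : ℚ) + 1 + s * k) / (2 * (col l : ℚ) + 2)) := by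
    rw [NB_turn]
    have c3 : ¬ ((col l : ℤ) - 1 = col l + 1) := by omega
    simp only [rsd, hV.nm, hV.ne, hV.pm, abs_zero, rcoef, if_true, a3, abs_eq_zero, hV.pf,
      if_false, c3]
    rcases hs' with rfl | rfl
    · have c4 : δ.1 f = δ.1 (Γ.opp f) + 1 := by omega
      simp only [c4, if_true]
      congr 2
      rw [hk]
      push_cast
      ring
    · have c4 : ¬ (δ.1 f = δ.1 (Γ.opp f) + 1) := by omega
      simp only [c4, if_false]
      congr 2
      rw [hk]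
      push_cast
      ring
  have hc : (col l : ℤ) + 1 + s * k ≠ 0 ∨
      (s : ℚ) * ((col l : ℚ) + 1 + s * k) / (2 * (col l : ℚ) + 2) * (2 - 2 * (col l : ℚ)) = 0 := by
    by_cases h : (col l : ℤ) + 1 + s * k = 0
    · right
      have : ((col l : ℚ) + 1 + s * k) = 0 := by exact_mod_cast h
      rw [this]
      ring
    · exact Or.inl h
  rw [hT, map_add, map_add, d1, d2, t1, t2 _ hc, if_pos rfl, if_pos rfl, add_add_add_comm,
    ConjF_pt_add, ConjF_pt_add, ← hk, ← NB_pt_self φ col δ]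
  rcases hs' with rfl | rfl
  · rw [hself]
    congr 2
    · push_cast
      field_simp
      ring
    · push_cast
      field_simp
      ring
  · have e1 : δ.1 (Γ.opp f) - -1 = δ.1 (Γ.opp f) + 1 := by ring
    have e2 : δ.1 (Γ.opp f) + -1 = δ.1 (Γ.opp f) - 1 := by ring
    rw [e2] at hself
    rw [e1, hself, add_comm]
    congr 2
    · push_cast
      field_simp
      ring
    · push_cast
      field_simp
      ring

theorem ConjF_dOp_pt (δ : H → ℤ) (a : ℚ) :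
    dOp Γ φ col l (pt Γ φ col (Γ.opp l) δ a) =
      pt Γ φ col (Γ.opp l) δ (a * (if δ l = δ (Γ.opp l) + 1 then -(2 * (δ (Γ.opp l) : ℚ))
        else 2 * (δ (Γ.opp l) : ℚ) + 4)) := by
  rcases ConjF_cases (Γ := Γ) φ col (Γ.opp l) δ with ⟨δ', rfl⟩ | h
  · rw [NB_pt_self, NB_pt_self]
    unfold dOp
    rw [Finsupp.linearCombination_single, Finsupp.smul_single, smul_eq_mul]
  · rw [NB_pt_neg φ col h, NB_pt_neg φ col h, map_zero]

theorem ConjF_comm (hll : l = Γ.opp (Γ.opp l)) (x : GSt Γ φ col l →₀ ℚ) :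
    dOp Γ φ col l ((Step.cross (Γ.opp l) l true hll).gop Γ φ col (rsd φ) x) =
      (Step.cross (Γ.opp l) l true hll).gop Γ φ col (rsd φ) (ConjFD Γ φ col l x) := by
  have h1 : (dOp Γ φ col l).comp ((Step.cross (Γ.opp l) l true hll).gop Γ φ col (rsd φ)) =
      ((Step.cross (Γ.opp l) l true hll).gop Γ φ col (rsd φ)).comp (ConjFD Γ φ col l) := by
    refine Finsupp.lhom_ext fun δ a => ?_
    rw [LinearMap.comp_apply, LinearMap.comp_apply, ConjFD_single,
      ConjF_single δ a, ConjF_single δ (a * _), map_smul, map_smul, map_smul, NB_cross,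
      ConjF_dOp_pt, ConjF_pt_smul, ConjF_pt_smul]
    congr 1
    ring
  exact LinearMap.congr_fun h1 x

/-- From `opp l` around to `f`. -/
def ConjFZ (Γ : Fat H) (l e f : H) (hm : Γ.nxt (Γ.opp l) ≠ Γ.opp l) (hee : Γ.nxt e ≠ e)
    (he : e = Γ.nxt (Γ.opp l)) (hf : f = Γ.nxt e) : Path Γ (Γ.opp l) f :=
  (((Path.nil.fwd (.turn (Γ.opp l) (Γ.opp e) hm (by rw [he]))).fwd
    (.cross e (Γ.opp e) true rfl)).fwd (.turn e (Γ.opp f) hee (by rw [hf]))).fwd
    (.cross f (Γ.opp f) true rfl)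

end leafvertex

section main

variable {H : Type} [Fintype H] {Γ : Fat H} {φ : H → ℤ} {col : H → ℕ} {l e f : H}

theorem ConjF_rel (hG : St_GRel2) (hφ : IsFlow Γ φ) (hm : Γ.nxt (Γ.opp l) ≠ Γ.opp l)
    (hee : Γ.nxt e ≠ e) (he : e = Γ.nxt (Γ.opp l)) (hfe : f = Γ.nxt e) (hf : Γ.nxt f ≠ f)
    (hq : l = Γ.opp (Γ.nxt f)) (hll : l = Γ.opp (Γ.opp l)) (y : GSt Γ φ col f →₀ ℚ) :
    (ConjFZ Γ l e f hm hee he hfe).gop φ col (rsd φ)
      ((Step.cross (Γ.opp l) l true hll).gop Γ φ col (rsd φ)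
        ((Step.turn f l hf hq).gop Γ φ col (rsd φ) y)) = -y := by
  obtain ⟨hG1, hG2⟩ := hG H Γ φ hφ col
  have r := hG2 (Γ.opp f) f (Γ.opp l) e l (Γ.opp e) rfl hf hq hll hm (by rw [he]) rfl hee
    (by rw [hfe])
  have c := (hG1 (Γ.opp f) f (Path.nil.fwd (.cross f (Γ.opp f) true rfl))).2
  have c2 : ∀ y : GSt Γ φ col f →₀ ℚ, ∃ x : GSt Γ φ col (Γ.opp f) →₀ ℚ,
      (Step.cross f (Γ.opp f) true rfl).gop Γ φ col (rsd φ) x = y := by
    intro y
    exact ⟨_, LinearMap.congr_fun c y⟩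
  have r2 : ∀ x, (Step.turn e (Γ.opp f) hee (by rw [hfe])).gop Γ φ col (rsd φ)
      ((Step.cross e (Γ.opp e) true rfl).gop Γ φ col (rsd φ)
      ((Step.turn (Γ.opp l) (Γ.opp e) hm (by rw [he])).gop Γ φ col (rsd φ)
      ((Step.cross (Γ.opp l) l true hll).gop Γ φ col (rsd φ)
      ((Step.turn f l hf hq).gop Γ φ col (rsd φ)
      ((Step.cross f (Γ.opp f) true rfl).gop Γ φ col (rsd φ) x))))) = -x := by
    intro x
    exact LinearMap.congr_fun r x
  obtain ⟨x, rfl⟩ := c2 y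
  have r3 := congrArg ((Step.cross f (Γ.opp f) true rfl).gop Γ φ col (rsd φ)) (r2 x)
  rw [map_neg] at r3
  exact r3

theorem ConjF_alg (hG : St_GRel2) (hφ : IsFlow Γ φ) (hl : Γ.nxt l = l)
    (he : e = Γ.nxt (Γ.opp l)) (hfe : f = Γ.nxt e) (hf : Γ.nxt f ≠ f)
    (hq : l = Γ.opp (Γ.nxt f)) (w : Path Γ l (Γ.opp l)) :
    ∃ Mp : Path Γ f f, (∀ x y, Mp.gop φ col (rsd φ) x = Mp.gop φ col (rsd φ) y → x = y) ∧
      ∀ x, Mp.gop φ col (rsd φ)
        ((Step.turn f l hf hq).gop' Γ φ col (rsd φ) (w.inv.gop φ col (rsd φ)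
          (dOp Γ φ col l (w.gop φ col (rsd φ)
            ((Step.turn f l hf hq).gop Γ φ col (rsd φ) x))))) =
        (Step.turn f l hf hq).gop' Γ φ col (rsd φ) (ConjFD Γ φ col l
          ((Step.turn f l hf hq).gop Γ φ col (rsd φ) (Mp.gop φ col (rsd φ) x))) := by
  have hV := ConjF_mk hφ hl he hfe
  have hm : Γ.nxt (Γ.opp l) ≠ Γ.opp l := Γ.leaf_opp l hl
  have hee : Γ.nxt e ≠ e := by rw [hV.nf]; exact hV.ef.symm
  have hll : l = Γ.opp (Γ.opp l) := (Γ.opp_opp l).symm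
  obtain ⟨hG1, -⟩ := hG H Γ φ hφ col
  refine ⟨((Path.nil.fwd (.turn f l hf hq)).append w).append (ConjFZ Γ l e f hm hee he hfe),
    ?_, ?_⟩
  · intro x y hxy
    have h1 := (hG1 f f (((Path.nil.fwd (.turn f l hf hq)).append w).append
      (ConjFZ Γ l e f hm hee he hfe))).1
    have h2 := LinearMap.congr_fun h1 x
    have h3 := LinearMap.congr_fun h1 y
    rw [LinearMap.comp_apply, LinearMap.id_apply] at h2 h3
    rw [← h2, ← h3, hxy]
  · intro x
    have hM : ∀ z, (((Path.nil.fwd (.turn f l hf hq)).append w).append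
        (ConjFZ Γ l e f hm hee he hfe)).gop φ col (rsd φ) z =
        (ConjFZ Γ l e f hm hee he hfe).gop φ col (rsd φ) (w.gop φ col (rsd φ)
          ((Step.turn f l hf hq).gop Γ φ col (rsd φ) z)) := by
      intro z
      rw [NB_append, NB_append]
      rfl
    rw [hM, hM]
    have t1 : ∀ z, (Step.turn f l hf hq).gop Γ φ col (rsd φ)
        ((Step.turn f l hf hq).gop' Γ φ col (rsd φ) z) = z := fun z =>
      LinearMap.congr_fun (hG1 f l (Path.nil.fwd (.turn f l hf hq))).2 z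
    have c1 : ∀ z, ∃ y, (Step.cross (Γ.opp l) l true hll).gop Γ φ col (rsd φ) y = z := fun z =>
      ⟨_, LinearMap.congr_fun (hG1 l (Γ.opp l) (Path.nil.fwd (.cross (Γ.opp l) l true hll))).2 z⟩
    have w1 : ∀ z, w.gop φ col (rsd φ) (w.inv.gop φ col (rsd φ) z) = z := fun z =>
      LinearMap.congr_fun (hG1 l (Γ.opp l) w).2 z
    have rel := ConjF_rel (col := col) hG hφ hm hee he hfe hf hq hll
    rw [t1, w1]
    obtain ⟨y, hy⟩ := c1 (w.gop φ col (rsd φ) ((Step.turn f l hf hq).gop Γ φ col (rsd φ) x))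
    obtain ⟨y', hy'⟩ : ∃ y', (Step.turn f l hf hq).gop Γ φ col (rsd φ) y' = y := ⟨_, t1 y⟩
    rw [← hy, ConjF_comm, ← hy', rel, map_neg, map_neg, map_neg]
    obtain ⟨u, hu⟩ : ∃ u, (Step.turn f l hf hq).gop Γ φ col (rsd φ) u =
      ConjFD Γ φ col l ((Step.turn f l hf hq).gop Γ φ col (rsd φ) y') := ⟨_, t1 _⟩
    rw [← hu, rel]
    congr 1
    exact (LinearMap.congr_fun (hG1 f l (Path.nil.fwd (.turn f l hf hq))).1 u).symm

open Classical in
theorem ConjF_one (hG : St_GRel2) (hM : St_Mono) (hφ : IsFlow Γ φ) (hl : Γ.nxt l = l)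
    (he : e = Γ.nxt (Γ.opp l)) (hfe : f = Γ.nxt e) (hf : Γ.nxt f ≠ f)
    (hq : l = Γ.opp (Γ.nxt f)) (w : Path Γ l (Γ.opp l)) :
    ∃ v : H → ℤ, ((∀ h, v (Γ.opp h) = v h) ∧ v e = v f ∧
      ∀ δ : H → ℤ, IsG Γ φ col f δ → IsG Γ φ col f (δ + v) ∧ IsG Γ φ col f (δ - v)) ∧
      ∀ (δ : GSt Γ φ col f) (s k : ℤ), s = δ.1 f - δ.1 (Γ.opp f) → k = δ.1 (Γ.opp f) - δ.1 e →
        (Step.turn f l hf hq).gop' Γ φ col (rsd φ) (w.inv.gop φ col (rsd φ)
          (dOp Γ φ col l (w.gop φ col (rsd φ)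
            ((Step.turn f l hf hq).gop Γ φ col (rsd φ) (Finsupp.single δ 1))))) =
        Finsupp.single δ (4 - 2 * s * k : ℚ) +
          pt Γ φ col f (Function.update δ.1 f (δ.1 (Γ.opp f) - s) + (2 * s) • v)
            (2 * (col l + 1 + s * k) : ℚ) := by
  have hV := ConjF_mk hφ hl he hfe
  obtain ⟨Mp, m1, m2⟩ := ConjF_alg (col := col) hG hφ hl he hfe hf hq w
  obtain ⟨v, κ, hκ, v1, v2, v3, v4⟩ := hM H Γ φ hφ col l e f hl he hfe Mp
  refine ⟨v, ⟨v1, v2, v3⟩, ?_⟩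
  intro δ s k hs hk
  apply m1
  rw [m2, v4 δ, ← hs]
  have h5 := δ.2.2.2.2.2
  have hs' : s = 1 ∨ s = -1 := by omega
  have hst : IsG Γ φ col f (δ.1 + s • v) := by
    rcases hs' with h | h
    · rw [h, one_smul]; exact (v3 _ δ.2).1
    · rw [h, neg_one_smul, ← sub_eq_add_neg]; exact (v3 _ δ.2).2
  obtain ⟨δ₁, hδ₁⟩ : ∃ δ₁ : GSt Γ φ col f, δ₁.1 = δ.1 + s • v := ⟨⟨_, hst⟩, rfl⟩
  have hs1 : s = δ₁.1 f - δ₁.1 (Γ.opp f) := by
    rw [hδ₁, hs]
    simp only [Pi.add_apply, Pi.smul_apply, v1]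
    ring
  have hk1 : k = δ₁.1 (Γ.opp f) - δ₁.1 e := by
    rw [hδ₁, hk]
    simp only [Pi.add_apply, Pi.smul_apply, v1, v2]
    ring
  have htog : Function.update δ₁.1 f (δ₁.1 (Γ.opp f) - s) =
      Function.update δ.1 f (δ.1 (Γ.opp f) - s) + s • v := by
    rw [hδ₁]
    funext h
    by_cases hh : h = f
    · subst hh
      rw [Function.update_self, Pi.add_apply, Pi.add_apply, Function.update_self, Pi.smul_apply,
        Pi.smul_apply, v1]
      ring
    · rw [Function.update_of_ne hh, Pi.add_apply, Pi.add_apply, Function.update_of_ne hh]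
  have key : Mp.gop φ col (rsd φ) (pt Γ φ col f
      (Function.update δ.1 f (δ.1 (Γ.opp f) - s) + (2 * s) • v) (1 : ℚ)) =
      pt Γ φ col f (Function.update δ.1 f (δ.1 (Γ.opp f) - s) + s • v) κ := by
    rcases ConjF_cases (Γ := Γ) φ col f
      (Function.update δ.1 f (δ.1 (Γ.opp f) - s) + (2 * s) • v) with ⟨δ₂, h2⟩ | h2
    · rw [← h2, NB_pt_self, v4]
      have e1 : δ₂.1 f - δ₂.1 (Γ.opp f) = -s := by
        rw [h2]
        simp only [Pi.add_apply, Pi.smul_apply, v1, Function.update_self,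
          Function.update_of_ne (Γ.opp_ne f)]
        ring
      rw [e1, h2]
      congr 1
      rw [add_assoc, ← add_smul]
      congr 2
      ring
    · rw [NB_pt_neg φ col h2, map_zero, NB_pt_neg]
      intro h3
      apply h2
      have : Function.update δ.1 f (δ.1 (Γ.opp f) - s) + (2 * s) • v =
          Function.update δ.1 f (δ.1 (Γ.opp f) - s) + s • v + s • v := by
        rw [add_assoc, ← add_smul, two_mul]
      rw [this]
      rcases hs' with h | h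
      · rw [h, one_smul] at h3 ⊢; exact (v3 _ h3).1
      · rw [h, neg_one_smul, ← sub_eq_add_neg] at h3 ⊢; exact (v3 _ h3).2
  rw [← hδ₁, NB_pt_self, ConjF_single δ₁ κ, map_smul, map_smul, map_smul,
    ConjF_S hV hf hq δ₁ s k hs1 hk1, htog, map_add, ConjF_single δ (4 - 2 * s * k : ℚ), map_smul,
    v4 δ, ← hs, ← hδ₁, NB_pt_self, ← mul_one (2 * (col l + 1 + s * k) : ℚ), ← ConjF_pt_smul,
    ← ConjF_pt_smul, map_smul, key, smul_add]
  congr 1
  · simp only [Finsupp.smul_single, smul_eq_mul]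
    rw [mul_comm]
  · rw [ConjF_pt_smul, ConjF_pt_smul, ConjF_pt_smul]
    congr 1
    ring

end main

open Classical in
theorem thm_ConjF (hG : St_GRel2) (hM : St_Mono) : St_ConjF := by
  intro H _ Γ φ hφ col l e f hl he hfe hf hq E
  have := Fintype.ofFinite H
  have hone := fun w => ConjF_one (col := col) hG hM hφ hl he hfe hf hq w
  choose v hv1 hv2 using hone
  refine ⟨E.map fun x => (x.1, v x.2), ?_, ?_, ?_⟩
  · rw [List.map_map]
    rfl
  · intro x hx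
    obtain ⟨y, -, rfl⟩ := List.mem_map.1 hx
    exact hv1 y.2
  · intro δ s k ε hs hk hε
    have hsum : (Step.turn f l hf hq).gop' Γ φ col (rsd φ) (xOp Γ φ col l l E
        ((Step.turn f l hf hq).gop Γ φ col (rsd φ) (Finsupp.single δ 1))) =
        Finsupp.single δ (((4 : ℚ) - 2 * s * k) * ε) +
        ((E.map fun x => (x.1, v x.2)).map fun x =>
          pt Γ φ col f (Function.update δ.1 f (δ.1 (Γ.opp f) - s) + (2 * s) • x.2)
            (2 * x.1 * (col l + 1 + s * k) : ℚ)).sum := by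
      rw [hε]
      clear hε
      induction E with
      | nil => simp [xOp]
      | cons x E ih =>
        have hx : xOp Γ φ col l l (x :: E) = (x.1 : ℚ) • (x.2.inv.gop φ col (rsd φ)).comp
            ((dOp Γ φ col l).comp (x.2.gop φ col (rsd φ))) + xOp Γ φ col l l E := by
          unfold xOp
          rw [List.map_cons, List.sum_cons]
        rw [hx, LinearMap.add_apply, map_add, ih, LinearMap.smul_apply, map_smul,
          LinearMap.comp_apply, LinearMap.comp_apply, hv2 x.2 δ s k hs hk]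
        simp only [List.map_cons, List.sum_cons]
        rw [smul_add, ConjF_pt_smul, Finsupp.smul_single, smul_eq_mul, add_add_add_comm,
          ← Finsupp.single_add]
        congr 1
        · congr 1
          push_cast
          ring
        · congr 2
          ring
    have hTT : (Step.turn f l hf hq).gop' Γ φ col (rsd φ)
        ((Step.turn f l hf hq).gop Γ φ col (rsd φ) (Finsupp.single δ 1)) = Finsupp.single δ 1 :=
      LinearMap.congr_fun ((hG H Γ φ hφ col).1 f l (Path.nil.fwd (.turn f l hf hq))).1 _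
    have h1 : ((Path.nil.bwd (Step.turn f l hf hq)).gop φ col (rsd φ)).comp
          ((xOp Γ φ col l l E - (4 * ε : ℚ) • LinearMap.id).comp
            ((Path.nil.fwd (Step.turn f l hf hq)).gop φ col (rsd φ))) (Finsupp.single δ 1) =
        (Step.turn f l hf hq).gop' Γ φ col (rsd φ) (xOp Γ φ col l l E
        ((Step.turn f l hf hq).gop Γ φ col (rsd φ) (Finsupp.single δ 1))) -
        (4 * ε : ℚ) • (Step.turn f l hf hq).gop' Γ φ col (rsd φ)
        ((Step.turn f l hf hq).gop Γ φ col (rsd φ) (Finsupp.single δ 1)) := by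
      rw [← map_smul, ← map_sub]
      rfl
    rw [h1, hsum, hTT, Finsupp.smul_single, smul_eq_mul, add_sub_right_comm, ← Finsupp.single_sub]
    congr 2
    ring

end Pool.Agent.AMS
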