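import Pool.Agent.AMS.NB

/-!
# The quantum numbers at the place `A = 1 + a ω^5`, `τ = 1 + ω`
-/

set_option autoImplicit false

namespace Pool.Agent.AMS

section

variable {K : Type} [Field K] {P : Place K}

/-- `θ ^ n - 1 = (θ - 1) u` with `u` of residue `n`, if `θ` has residue `1`. -/
theorem CurN_geom {θ : K} (h : P.Res θ 1) (n : ℤ) :
    ∃ u, P.Res u n ∧ θ ^ n - 1 = (θ - 1) * u := by
  have hne : θ ≠ 0 := NB_ne h one_ne_zero
  have hinv : P.Res θ⁻¹ 1 := by simpa using NB_inv h one_ne_zero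
  induction n using Int.induction_on with
  | zero => exact ⟨0, by simpa using (NB_zero (P := P)), by simp⟩
  | succ i ih =>
    obtain ⟨u, hu, e⟩ := ih
    refine ⟨θ * u + 1, ?_, ?_⟩
    · have := NB_add (NB_mul h hu) (NB_one (P := P))
      simpa using this
    · rw [zpow_add_one₀ hne]
      linear_combination θ * e
  | pred i ih =>
    obtain ⟨u, hu, e⟩ := ih
    refine ⟨θ⁻¹ * (u - 1), ?_, ?_⟩
    · have := NB_mul hinv (NB_sub hu (NB_one (P := P)))
      simpa using this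
    · rw [zpow_sub_one₀ hne]
      have h1 : θ * θ⁻¹ = 1 := mul_inv_cancel₀ hne
      linear_combination θ⁻¹ * e + h1

theorem CurN_resT : P.Res P.T 1 := by
  have := NB_add (NB_one (P := P)) (NB_om (P := P))
  simpa [Place.T] using this

theorem CurN_resA (a : ℕ) : P.Res (P.A a) 1 := by
  have := NB_add (NB_one (P := P)) (NB_mul (NB_nat (P := P) a) (NB_pow (NB_om (P := P)) 5))
  simpa [Place.A] using this

theorem CurN_resTA (a : ℕ) (m n : ℤ) : P.Res (P.T ^ m * P.A a ^ n) 1 := by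
  have := NB_mul (NB_zpow (CurN_resT (P := P)) one_ne_zero m)
    (NB_zpow (CurN_resA (P := P) a) one_ne_zero n)
  simpa using this

theorem CurN_factor (A τ : K) (hA : A ≠ 0) (hτ : τ ≠ 0) (m n : ℤ) :
    gcur A τ m n = (τ ^ m * A ^ n)⁻¹ * (τ ^ (2 * m) * A ^ (2 * n) - 1) := by
  have h1 : τ ^ m ≠ 0 := zpow_ne_zero _ hτ
  have h2 : A ^ n ≠ 0 := zpow_ne_zero _ hA
  unfold gcur
  rw [two_mul, two_mul, zpow_add₀ hτ, zpow_add₀ hA, zpow_neg, zpow_neg]
  field_simp

theorem CurN_two (a : ℕ) (m n : ℤ) (hm : m ≠ 0) :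
    ∃ u, P.Res u 1 ∧ gcur (P.A a) P.T m n = 2 * m * P.ω * u := by
  have := NB_charZero P
  have hA : P.A a ≠ 0 := NB_ne (CurN_resA a) one_ne_zero
  have hT : P.T ≠ 0 := NB_ne CurN_resT one_ne_zero
  obtain ⟨u, hu, e⟩ := CurN_geom (CurN_resT (P := P)) (2 * m)
  obtain ⟨v, hv, e'⟩ := CurN_geom (CurN_resA (P := P) a) (2 * n)
  have hq : ((2 * m : ℤ) : ℚ) ≠ 0 := by exact_mod_cast (by omega : 2 * m ≠ 0)
  have hK : ((2 * m : ℤ) : K) ≠ 0 := by exact_mod_cast (by omega : 2 * m ≠ 0)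
  have hb : P.Res (u * P.A a ^ (2 * n) + a * P.ω ^ 4 * v) ((2 * m : ℤ) : ℚ) := by
    have h1 := NB_zpow (CurN_resA (P := P) a) one_ne_zero (2 * n)
    have := NB_add (NB_mul hu h1)
      (NB_mul (NB_mul (NB_nat (P := P) a) (NB_pow (NB_om (P := P)) 4)) hv)
    simpa using this
  refine ⟨(P.T ^ m * P.A a ^ n)⁻¹ * ((u * P.A a ^ (2 * n) + a * P.ω ^ 4 * v) /
    ((2 * m : ℤ) : K)), ?_, ?_⟩
  · have := NB_mul (NB_inv (CurN_resTA (P := P) a m n) one_ne_zero)
      (NB_div hb (NB_int (2 * m)) hq)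
    rwa [inv_one, one_mul, div_self hq] at this
  · rw [CurN_factor _ _ hA hT]
    have h3 : P.T ^ (2 * m) * P.A a ^ (2 * n) - 1 =
        P.ω * (u * P.A a ^ (2 * n) + a * P.ω ^ 4 * v) := by
      have h4 : P.T - 1 = P.ω := by simp [Place.T]
      have h5 : P.A a - 1 = a * P.ω ^ 5 := by simp [Place.A]
      rw [h4] at e
      rw [h5] at e'
      linear_combination P.A a ^ (2 * n) * e + e'
    rw [h3]
    have h6 : (2 * m : K) = ((2 * m : ℤ) : K) := by push_cast; ring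
    rw [h6]
    field_simp

theorem CurN_three (a : ℕ) (n : ℤ) :
    ∃ u, P.Res u 1 ∧ gcur (P.A a) P.T 0 n = 2 * n * a * P.ω ^ 5 * u := by
  have := NB_charZero P
  have hA : P.A a ≠ 0 := NB_ne (CurN_resA a) one_ne_zero
  have hT : P.T ≠ 0 := NB_ne CurN_resT one_ne_zero
  by_cases hn : n = 0
  · subst hn
    exact ⟨1, NB_one, by simp [gcur]⟩
  obtain ⟨v, hv, e'⟩ := CurN_geom (CurN_resA (P := P) a) (2 * n)
  have hq : ((2 * n : ℤ) : ℚ) ≠ 0 := by exact_mod_cast (by omega : 2 * n ≠ 0)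
  have hK : ((2 * n : ℤ) : K) ≠ 0 := by exact_mod_cast (by omega : 2 * n ≠ 0)
  refine ⟨(P.T ^ (0 : ℤ) * P.A a ^ n)⁻¹ * (v / ((2 * n : ℤ) : K)), ?_, ?_⟩
  · have := NB_mul (NB_inv (CurN_resTA (P := P) a 0 n) one_ne_zero)
      (NB_div hv (NB_int (2 * n)) hq)
    rwa [inv_one, one_mul, div_self hq] at this
  · rw [CurN_factor _ _ hA hT]
    have h5 : P.A a - 1 = a * P.ω ^ 5 := by simp [Place.A]
    rw [h5] at e'
    have h3 : P.T ^ (2 * (0 : ℤ)) * P.A a ^ (2 * n) - 1 = a * P.ω ^ 5 * v := by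
      simpa using e'
    rw [h3]
    have h6 : (2 * n : K) = ((2 * n : ℤ) : K) := by push_cast; ring
    rw [h6]
    field_simp

end

theorem thm_CurN : St_Cur := by
  intro K _ P a ha m n
  have := NB_charZero P
  have ha0 : (a : K) ≠ 0 := by exact_mod_cast (by omega : a ≠ 0)
  refine ⟨CurN_resTA a m n, CurN_two a m n, CurN_three a n,
    CurN_geom (CurN_resA a) n, ?_, NB_ne (CurN_resA a) one_ne_zero,
    NB_ne CurN_resT one_ne_zero, ?_⟩
  · have h5 : P.A a - 1 = a * P.ω ^ 5 := by simp [Place.A]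
    rw [h5]
    exact mul_ne_zero ha0 (pow_ne_zero _ P.hω0)
  · intro m n hm h0
    by_cases hm0 : m = 0
    · subst hm0
      obtain ⟨u, hu, e⟩ := CurN_three (P := P) a n
      rw [e]
      have hn : (n : K) ≠ 0 := by
        have := h0 rfl
        exact_mod_cast (by omega : n ≠ 0)
      exact mul_ne_zero (mul_ne_zero (mul_ne_zero (mul_ne_zero two_ne_zero hn) ha0)
        (pow_ne_zero _ P.hω0)) (NB_ne hu one_ne_zero)
    · obtain ⟨u, hu, e⟩ := CurN_two (P := P) a m n hm0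
      rw [e]
      have hn : (m : K) ≠ 0 := by exact_mod_cast hm0
      exact mul_ne_zero (mul_ne_zero (mul_ne_zero two_ne_zero hn) P.hω0)
        (NB_ne hu one_ne_zero)

end Pool.Agent.AMS
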