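import Pool.Agent.AMS.StP

/-!
# Arithmetic of the ring generated by a primitive `4p`-th root of unity
-/

set_option autoImplicit false

namespace Pool.Agent.AMS

open Finset

private theorem Cyc_mem (A : ℂ) : A ∈ RR A := Subring.subset_closure rfl

/-- all elements of the ring are integral over the integers -/
private theorem Cyc_int {p : ℕ} (hp : 0 < p) {A : ℂ} (hA : IsPrimitiveRoot A (4 * p)) :
    ∀ x ∈ RR A, IsIntegral ℤ x := by
  have hle : RR A ≤ (integralClosure ℤ ℂ).toSubring := by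
    refine Subring.closure_le.2 ?_
    rintro x hx
    rw [Set.mem_singleton_iff] at hx
    subst hx
    exact hA.isIntegral (by omega)
  intro x hx
  exact hle hx

private theorem Cyc_noninv {p : ℕ} (hp : 2 ≤ p) {A : ℂ} (hA : IsPrimitiveRoot A (4 * p)) :
    ((p : ℂ))⁻¹ ∉ RR A := by
  intro h
  have hi := Cyc_int (by omega) hA _ h
  have e : ((p : ℂ))⁻¹ = algebraMap ℚ ℂ ((p : ℚ)⁻¹) := by
    rw [map_inv₀, map_natCast]
  rw [e] at hi
  have hi' : IsIntegral ℤ ((p : ℚ)⁻¹) :=
    (isIntegral_algebraMap_iff (algebraMap ℚ ℂ).injective).1 hi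
  obtain ⟨n, hn⟩ := IsIntegrallyClosed.isIntegral_iff.1 hi'
  have hp0 : (p : ℚ) ≠ 0 := by
    have : p ≠ 0 := by omega
    exact_mod_cast this
  have h1 : (n : ℚ) * (p : ℚ) = 1 := by
    rw [show (n : ℚ) = algebraMap ℤ ℚ n from rfl, hn, inv_mul_cancel₀ hp0]
  have h2 : n * (p : ℤ) = 1 := by exact_mod_cast h1
  have h3 : (p : ℤ) ∣ 1 := ⟨n, by rw [mul_comm]; exact h2.symm⟩
  have h4 := Int.le_of_dvd one_pos h3
  omega

theorem thm_Cyc : St_Cyc := by
  intro p hp hp3 A hA
  have hp0 : 0 < p := by omega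
  have hA0 : A ≠ 0 := hA.ne_zero (by omega)
  have hA1 : A ^ (4 * p) = 1 := hA.pow_eq_one
  have hmem := Cyc_mem A
  have hζ : IsPrimitiveRoot (A ^ 4) p := hA.pow (by omega) rfl
  have hζm : A ^ 4 ∈ RR A := pow_mem hmem 4
  have hinv : A⁻¹ ∈ RR A := by
    have h1 : A⁻¹ = A ^ (4 * p - 1) := by
      have h2 : A ^ (4 * p - 1) * A = 1 := by
        rw [← pow_succ, Nat.sub_add_cancel (by omega), hA1]
      field_simp
      rw [mul_comm]
      exact h2.symm
    rw [h1]
    exact pow_mem hmem _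
  have hne1 : ∀ b : ℕ, ¬ p ∣ b → A ^ (4 * b) ≠ 1 := by
    intro b hb h
    rw [pow_mul] at h
    exact hb (hζ.dvd_of_pow_eq_one b h)
  have hquot : ∀ a b : ℕ, ¬ p ∣ b → (A ^ (4 * a) - 1) / (A ^ (4 * b) - 1) ∈ RR A := by
    intro a b hb
    have hcop : Nat.Coprime b p := (Nat.Prime.coprime_iff_not_dvd hp).2 hb |>.symm
    have : Fact p.Prime := ⟨hp⟩
    have hb0 : ((b : ℕ) : ZMod p) ≠ 0 := by
      rw [Ne, ZMod.natCast_eq_zero_iff]
      exact hb
    set b' : ℕ := ((a : ZMod p) * ((b : ZMod p))⁻¹).val with hb'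
    have hmod : b * b' ≡ a [MOD p] := by
      rw [← ZMod.natCast_eq_natCast_iff]
      push_cast
      rw [hb', ZMod.natCast_zmod_val]
      field_simp
    have hpow : A ^ (4 * a) = (A ^ (4 * b)) ^ b' := by
      rw [pow_mul A 4 a, pow_mul A 4 b, ← pow_mul (A ^ 4) b b']
      exact (pow_eq_pow_of_modEq hmod hζ.pow_eq_one).symm
    rw [hpow, ← geom_sum_eq (hne1 b hb)]
    exact sum_mem fun i _ => pow_mem (pow_mem hmem _) i
  have hh0 : hh A ≠ 0 := by
    unfold hh
    rw [sub_ne_zero]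
    have := hne1 1 (by
      intro h
      have := Nat.le_of_dvd one_pos h
      omega)
    rwa [mul_one] at this
  have hhm : hh A ∈ RR A := sub_mem hζm (one_mem _)
  have hp' : ∏ k ∈ range (p - 1), (1 - (A ^ 4) ^ (k + 1)) = (p : ℂ) := by
    have h1 : IsPrimitiveRoot (A ^ 4) ((p - 1) + 1) := by
      rw [Nat.sub_add_cancel (by omega)]
      exact hζ
    rw [h1.prod_one_sub_pow_eq_order]
    have : ((p - 1 : ℕ) : ℂ) + 1 = ((p - 1 + 1 : ℕ) : ℂ) := by push_cast; rfl
    rw [this, Nat.sub_add_cancel (by omega)]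
  have hdvd : ∀ k ∈ range (p - 1), ¬ p ∣ k + 1 := by
    intro k hk h
    rw [mem_range] at hk
    have := Nat.le_of_dvd (by omega) h
    omega
  have hunit : ∃ u ∈ RR A, u⁻¹ ∈ RR A ∧ u ≠ 0 ∧ (p : ℂ) = u * hh A ^ (p - 1) := by
    refine ⟨∏ k ∈ range (p - 1), ((1 - (A ^ 4) ^ (k + 1)) / hh A), ?_, ?_, ?_, ?_⟩
    · refine prod_mem fun k hk => ?_
      have h1 := hquot (k + 1) 1 (by
        intro h
        have := Nat.le_of_dvd one_pos h
        omega)
      have h2 : (1 - (A ^ 4) ^ (k + 1)) / hh A = -((A ^ (4 * (k + 1)) - 1) / (A ^ (4 * 1) - 1)) := by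
        unfold hh
        rw [mul_one, ← pow_mul, ← neg_div, neg_sub]
      rw [h2]
      exact neg_mem h1
    · rw [← Finset.prod_inv_distrib]
      refine prod_mem fun k hk => ?_
      have h1 := hquot 1 (k + 1) (hdvd k hk)
      have h2 : ((1 - (A ^ 4) ^ (k + 1)) / hh A)⁻¹ =
          -((A ^ (4 * 1) - 1) / (A ^ (4 * (k + 1)) - 1)) := by
        unfold hh
        rw [inv_div, mul_one, ← pow_mul, ← div_neg, neg_sub]
      rw [h2]
      exact neg_mem h1
    · refine Finset.prod_ne_zero_iff.2 fun k hk => ?_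
      refine div_ne_zero ?_ hh0
      rw [sub_ne_zero, ← pow_mul]
      exact (hne1 (k + 1) (hdvd k hk)).symm
    · rw [Finset.prod_div_distrib, Finset.prod_const, card_range, hp',
        div_mul_cancel₀ _ (pow_ne_zero _ hh0)]
  refine ⟨hinv, hquot, hunit, ?_, ?_⟩
  · -- separation
    intro x hx hxn
    have hN : IsNoetherianRing (RR A) := is_noetherian_subring_closure _ (Set.finite_singleton A)
    set h' : RR A := ⟨hh A, hhm⟩ with hh'
    have hne : Ideal.span {h'} ≠ ⊤ := by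
      intro htop
      rw [Ideal.span_singleton_eq_top] at htop
      obtain ⟨w, hw⟩ := htop.exists_right_inv
      have hw' : hh A * (w : ℂ) = 1 := by
        have := congrArg (fun z : RR A => (z : ℂ)) hw
        simpa using this
      obtain ⟨u, hu, hui, hu0, hpu⟩ := hunit
      apply Cyc_noninv (by omega) hA
      have h1 : ((p : ℂ))⁻¹ = u⁻¹ * (w : ℂ) ^ (p - 1) := by
        have h2 : (p : ℂ) * (u⁻¹ * (w : ℂ) ^ (p - 1)) = 1 := by
          rw [hpu]
          calc u * hh A ^ (p - 1) * (u⁻¹ * (w : ℂ) ^ (p - 1))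
              = (u * u⁻¹) * (hh A * (w : ℂ)) ^ (p - 1) := by rw [mul_pow]; ring
            _ = 1 := by rw [mul_inv_cancel₀ hu0, hw', one_pow, one_mul]
        exact (eq_inv_of_mul_eq_one_right h2).symm
      rw [h1]
      exact mul_mem hui (pow_mem w.2 _)
    have hkrull := Ideal.iInf_pow_eq_bot_of_isDomain (Ideal.span {h'}) hne
    have hxI : (⟨x, hx⟩ : RR A) ∈ ⨅ i : ℕ, (Ideal.span {h'}) ^ i := by
      rw [Submodule.mem_iInf]
      intro n
      obtain ⟨y, hy, hxy⟩ := hxn n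
      rw [Ideal.span_singleton_pow, Ideal.mem_span_singleton]
      refine ⟨⟨y, hy⟩, ?_⟩
      apply Subtype.ext
      simpa using hxy
    rw [hkrull, Ideal.mem_bot] at hxI
    exact congrArg (fun z : RR A => (z : ℂ)) hxI
  · -- the last part
    have hodd : ¬ 2 ∣ p := by
      intro h
      rcases (Nat.dvd_prime hp).1 h with h | h <;> omega
    have h2p : A ^ (2 * p) = -1 := by
      have h1 : A ^ (2 * p) * A ^ (2 * p) = 1 := by
        rw [← pow_add, show 2 * p + 2 * p = 4 * p by ring, hA1]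
      rcases mul_self_eq_one_iff.1 h1 with h | h
      · exfalso
        have := Nat.le_of_dvd (by omega) (hA.dvd_of_pow_eq_one _ h)
        omega
      · exact h
    obtain ⟨k, hk⟩ : ∃ k, p = 2 * k + 1 := ⟨p / 2, by omega⟩
    have hA2 : A ^ 2 = -(A ^ 4) ^ (k + 1) := by
      have h3 : (A ^ 4) ^ (k + 1) = A ^ (2 * p) * A ^ 2 := by
        rw [← pow_mul, ← pow_add]
        congr 1
        omega
      rw [h3, h2p]
      ring
    refine ⟨-∑ i ∈ range (k + 1), (A ^ 4) ^ i, neg_mem (sum_mem fun i _ => pow_mem hζm i), ?_⟩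
    have h4 := geom_sum_mul (A ^ 4) (k + 1)
    rw [hA2]
    unfold hh
    linear_combination h4

end Pool.Agent.AMS
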