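import Mathlib

/-!
# Pushing a boundary component of a surface of any genus: the quantum representations

`Γ` is a finite trivalent fatgraph with leaves, a spine of a handlebody. Its thickening `R` is a
surface with one polygon at each trivalent vertex; `Σ` is the union of a front copy and a back copy
of `R`, glued along the sides of the edges (not along the leaf ends): a closed surface of genus
`g = b₁(Γ)` minus one disc for each of the `m` leaves (all `Σ_{g,m}` with `m ≥ 1`, all its pants
decompositions). One further boundary component `∂₀`, coloured `1`, moves on `Σ`. The space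
`V_r(Σ_{g,m+1}; 1, col)` of Blanchet-Habegger-Masbaum-Vogel has the basis of the admissible
colourings of the graph `Γ` with one additional leg coloured `1`, attached to an edge of `Γ`.
Sliding this leg past a vertex is recoupling with one spin-1/2 line (Kauffman-Lins, Masbaum-Vogel);
moving it over the front or the back of an edge to the other side is a half twist.
-/

namespace Pool.Agent.AMS

/-- A trivalent fatgraph with leaves, given by its half edges: `opp h` is the other half of the
edge of `h`, and `nxt` is the cyclic order at the vertices. The vertices are trivalent, or leaves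
(`nxt h = h`); no edge joins two leaves. -/
structure Fat (H : Type) where
  opp : H → H
  nxt : H → H
  opp_opp : ∀ h, opp (opp h) = h
  opp_ne : ∀ h, opp h ≠ h
  nxt3 : ∀ h, nxt (nxt (nxt h)) = h
  leaf_opp : ∀ h, nxt h = h → nxt (opp h) ≠ opp h

/-- Admissible triples of colours at level `r`. -/
def Adm (r a b c : ℕ) : Prop :=
  Even (a + b + c) ∧ a ≤ b + c ∧ b ≤ a + c ∧ c ≤ a + b ∧ a + b + c + 4 ≤ 2 * r

section

variable {H : Type} (Γ : Fat H)

/-- The basis of the space at the position `p` (the leg coloured `1` is attached to the edge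
`{p, opp p}` on the side of the corner between `p` and `nxt p`): colours in `{0, …, r - 2}` of the
half edges, `col` at the leaves, admissible at the vertices, equal on the two halves of each edge,
except that the two halves of the edge of `p` differ by `1`. -/
def IsSt (r : ℕ) (col : H → ℕ) (p : H) (c : H → ℕ) : Prop :=
  (∀ h, c h + 2 ≤ r) ∧ (∀ h, Γ.nxt h = h → c h = col h) ∧
    (∀ h, Γ.nxt h ≠ h → Adm r (c h) (c (Γ.nxt h)) (c (Γ.nxt (Γ.nxt h)))) ∧
    (∀ h, h ≠ p → h ≠ Γ.opp p → c (Γ.opp h) = c h) ∧
    (c p = c (Γ.opp p) + 1 ∨ c (Γ.opp p) = c p + 1)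

/-- See `IsSt`. -/
def St (r : ℕ) (col : H → ℕ) (p : H) : Type := {c : H → ℕ // IsSt Γ r col p c}

instance [Finite H] (r : ℕ) (col : H → ℕ) (p : H) : Finite (St Γ r col p) := by
  have h1 : Finite (H → Fin (r + 1)) := inferInstance
  refine Finite.of_injective
    (fun c : St Γ r col p => fun h => (⟨c.1 h, by have := c.2.1 h; omega⟩ : Fin (r + 1))) ?_
  intro c c' h
  apply Subtype.ext
  funext k
  have h2 := congrFun h k
  simpa using h2

noncomputable instance [Finite H] (r : ℕ) (col : H → ℕ) (p : H) : Fintype (St Γ r col p) :=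
  Fintype.ofFinite _

noncomputable instance (r : ℕ) (col : H → ℕ) (p : H) : DecidableEq (St Γ r col p) :=
  Classical.decEq _

/-- Elementary moves of the leg. `turn`: past the corner between `h` and `nxt h`, from the edge of
`h` to the edge of `nxt h`. `cross`: over the front (`b = true`) or the back (`b = false`) of the
edge of `h`, from the side of `opp h` to the side of `h`. -/
inductive Step : H → H → Type
  | turn (h q : H) (hl : Γ.nxt h ≠ h) (hq : q = Γ.opp (Γ.nxt h)) : Step h q
  | cross (h q : H) (b : Bool) (hq : q = Γ.opp h) : Step q h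

/-- Edge paths on `Σ`: sequences of moves, forward or backward. -/
inductive Path (p : H) : H → Type
  | nil : Path p p
  | fwd {q t : H} (w : Path p q) (s : Step Γ q t) : Path p t
  | bwd {q t : H} (w : Path p t) (s : Step Γ q t) : Path p q

variable {Γ}

/-- Composition of paths. -/
def Path.append {p q : H} (w : Path Γ p q) : {t : H} → Path Γ q t → Path Γ p t
  | _, .nil => w
  | _, .fwd v s => (w.append v).fwd s
  | _, .bwd v s => (w.append v).bwd s

/-- The inverse path. -/
def Path.inv {p : H} : {q : H} → Path Γ p q → Path Γ q p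
  | _, .nil => .nil
  | _, .fwd w s => (Path.nil.bwd s).append w.inv
  | _, .bwd w s => (Path.nil.fwd s).append w.inv

variable (Γ)

/-- Once around the leaf `l`: over the front and back over the back. -/
def loop (l : H) : Path Γ (Γ.opp l) (Γ.opp l) :=
  (Path.nil.fwd (.cross l _ true rfl)).bwd (.cross l _ false rfl)

/-- The normal closure of the loops around the leaves: the kernel of
`π₁(Σ_{g,m}) → π₁(Σ_g)`. -/
inductive Null {p : H} : Path Γ p p → Prop
  | nil : Null .nil
  | loop (l : H) (hl : Γ.nxt l = l) (w : Path Γ p (Γ.opp l)) :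
      Null ((w.append (loop Γ l)).append w.inv)
  | mul {u v : Path Γ p p} : Null u → Null v → Null (u.append v)
  | inv {u : Path Γ p p} : Null u → Null u.inv

/-- Products of commutators of elements of `Null`. -/
inductive Comm {p : H} : Path Γ p p → Prop
  | nil : Comm .nil
  | comm {u v : Path Γ p p} (hu : Null Γ u) (hv : Null Γ v) :
      Comm (((u.append v).append u.inv).append v.inv)
  | mul {u v : Path Γ p p} : Comm u → Comm v → Comm (u.append v)

/-- Homotopy of paths on `Σ` relative to the end points: generated by the cancellation of a move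
and its inverse, and by: crossing an edge and going back over the same side is trivial; crossing
the three edges at a vertex one after the other over the same side is trivial. -/
inductive Hom {p : H} : {q : H} → Path Γ p q → Path Γ p q → Prop
  | refl {q : H} (w : Path Γ p q) : Hom w w
  | symm {q : H} {w v : Path Γ p q} : Hom w v → Hom v w
  | trans {q : H} {w v u : Path Γ p q} : Hom w v → Hom v u → Hom w u
  | fwd {q t : H} {w v : Path Γ p q} (s : Step Γ q t) : Hom w v → Hom (w.fwd s) (v.fwd s)
  | bwd {q t : H} {w v : Path Γ p t} (s : Step Γ q t) : Hom w v → Hom (w.bwd s) (v.bwd s)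
  | fwd_bwd {q t : H} (w : Path Γ p q) (s : Step Γ q t) : Hom ((w.fwd s).bwd s) w
  | bwd_fwd {q t : H} (w : Path Γ p t) (s : Step Γ q t) : Hom ((w.bwd s).fwd s) w
  | opp {q h : H} (w : Path Γ p q) (b : Bool) (hq : q = Γ.opp h) (hh : h = Γ.opp q) :
      Hom ((w.fwd (.cross h q b hq)).fwd (.cross q h b hh)) w
  | vertex {q h₁ h₂ h₃ q₁ q₂ : H} (w : Path Γ p q) (b : Bool) (e₁ : q = Γ.opp h₁)
      (l₁ : Γ.nxt h₁ ≠ h₁) (t₁ : q₁ = Γ.opp (Γ.nxt h₁)) (e₂ : q₁ = Γ.opp h₂)
      (l₂ : Γ.nxt h₂ ≠ h₂) (t₂ : q₂ = Γ.opp (Γ.nxt h₂)) (e₃ : q₂ = Γ.opp h₃)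
      (l₃ : Γ.nxt h₃ ≠ h₃) (t₃ : q = Γ.opp (Γ.nxt h₃)) :
      Hom ((((((w.fwd (.cross h₁ q b e₁)).fwd (.turn h₁ q₁ l₁ t₁)).fwd (.cross h₂ q₁ b e₂)).fwd
        (.turn h₂ q₂ l₂ t₂)).fwd (.cross h₃ q₂ b e₃)).fwd (.turn h₃ q l₃ t₃)) w

variable {K : Type} [Field K]

/-- The quantum number `{n} = A ^ n - A ^ (-n)`. -/
def cur (A : K) (n : ℤ) : K := A ^ n - A ^ (-n)

/-- The recoupling coefficients with one spin-1/2 line: the leg, attached to an edge coloured `x`
(far side) and `x' = x ± 1` (vertex side), slides past the vertex `(x', y, z)` to the edge `y`,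
which becomes `y' = y ± 1` (vertex side) and `y` (far side). -/
def coef (A : K) (x x' y y' z : ℕ) : K :=
  if x' = x + 1 then
    if y' = y + 1 then cur A (x - y + z + 1) / cur A (2 * x + 2)
    else cur A (x + y - z + 1) * cur A (x + y + z + 3) / (cur A (2 * x + 2) * cur A (2 * y + 2))
  else
    if y' = y + 1 then 1 else -(cur A (y - x + z + 1) / cur A (2 * y + 2))

/-- The half twist of the leg between an edge coloured `x` (far side) and `x'` (vertex side). -/
def tw (A : K) (x x' : ℕ) : K := if x' = x + 1 then A ^ (-(x : ℤ)) else -A ^ ((x : ℤ) + 2)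

open Classical in
/-- The linear map of a move. -/
noncomputable def Step.mat (r : ℕ) (col : H → ℕ) (A : K) :
    {q t : H} → Step Γ q t → Matrix (St Γ r col t) (St Γ r col q) K
  | _, _, .turn h _ _ _ => Matrix.of fun c' c =>
      if (∀ k, k ≠ h → k ≠ Γ.nxt h → c'.1 k = c.1 k) ∧ c'.1 h = c.1 (Γ.opp h) then
        coef A (c.1 (Γ.opp h)) (c.1 h) (c.1 (Γ.nxt h)) (c'.1 (Γ.nxt h)) (c.1 (Γ.nxt (Γ.nxt h)))
      else 0
  | _, _, .cross h _ b _ => Matrix.of fun c' c =>
      if c'.1 = c.1 then
        if b then tw A (c.1 (Γ.opp h)) (c.1 h) else (tw A (c.1 (Γ.opp h)) (c.1 h))⁻¹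
      else 0

open Classical in
/-- The linear map of the inverse of a move. -/
noncomputable def Step.mat' (r : ℕ) (col : H → ℕ) (A : K) :
    {q t : H} → Step Γ q t → Matrix (St Γ r col q) (St Γ r col t) K
  | _, _, .turn h _ _ _ => Matrix.of fun c c' =>
      if (∀ k, k ≠ h → k ≠ Γ.nxt h → c.1 k = c'.1 k) ∧
          c.1 (Γ.nxt h) = c'.1 (Γ.opp (Γ.nxt h)) then
        coef A (c'.1 (Γ.opp (Γ.nxt h))) (c'.1 (Γ.nxt h)) (c'.1 h) (c.1 h)
          (c'.1 (Γ.nxt (Γ.nxt h)))
      else 0
  | _, _, .cross h _ b _ => Matrix.of fun c c' =>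
      if c.1 = c'.1 then
        if b then (tw A (c'.1 (Γ.opp h)) (c'.1 h))⁻¹ else tw A (c'.1 (Γ.opp h)) (c'.1 h)
      else 0

/-- The linear map of a path. -/
noncomputable def Path.mat [Finite H] (r : ℕ) (col : H → ℕ) (A : K) {p : H} :
    {q : H} → Path Γ p q → Matrix (St Γ r col q) (St Γ r col p) K
  | _, .nil => 1
  | _, .fwd w s => s.mat Γ r col A * w.mat r col A
  | _, .bwd w s => s.mat' Γ r col A * w.mat r col A

end

end Pool.Agent.AMS
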