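import Pool.Agent.AMS.St

/-!
# AMS (DICH): products of commutators act as the identity or have infinite projective order
-/

set_option autoImplicit false

namespace Pool.Agent.AMS

open Polynomial

/-! ## Roots of unity near `1` -/

lemma Dich_pow_sub {lam : ℂ} (h : ‖lam‖ = 1) (i : ℕ) : ‖1 - lam ^ i‖ ≤ i * ‖1 - lam‖ := by
  induction i with
  | zero => simp
  | succ i ih =>
    have e : 1 - lam ^ (i + 1) = (1 - lam ^ i) + lam ^ i * (1 - lam) := by ring
    rw [e]
    refine (norm_add_le _ _).trans ?_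
    rw [norm_mul, norm_pow, h, one_pow, one_mul]
    push_cast
    linarith

lemma Dich_root {lam : ℂ} {N : ℕ} (hN : 0 < N) (h : lam ^ N = 1) (h1 : lam ≠ 1) :
    2 ≤ N * ‖1 - lam‖ := by
  have hn : ‖lam‖ = 1 := Complex.norm_eq_one_of_pow_eq_one h hN.ne'
  have h2 : ∑ i ∈ Finset.range N, lam ^ i = 0 := by
    have h3 := geom_sum_mul lam N
    rw [h, sub_self] at h3
    rcases mul_eq_zero.1 h3 with h4 | h4
    · exact h4
    · exact absurd (sub_eq_zero.1 h4) h1
  have h3 : (N : ℂ) = ∑ i ∈ Finset.range N, (1 - lam ^ i) := by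
    rw [Finset.sum_sub_distrib, h2, sub_zero, Finset.sum_const, Finset.card_range, nsmul_eq_mul,
      mul_one]
  have h4 : (N : ℝ) ≤ ∑ i ∈ Finset.range N, (i : ℝ) * ‖1 - lam‖ := by
    calc (N : ℝ) = ‖(N : ℂ)‖ := by simp
      _ = ‖∑ i ∈ Finset.range N, (1 - lam ^ i)‖ := by rw [← h3]
      _ ≤ ∑ i ∈ Finset.range N, ‖1 - lam ^ i‖ := norm_sum_le _ _
      _ ≤ _ := Finset.sum_le_sum fun i _ => Dich_pow_sub hn i
  rw [← Finset.sum_mul] at h4
  have h5 : (∑ i ∈ Finset.range N, (i : ℝ)) * 2 = N * (N - 1) := by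
    have h6 := Finset.sum_range_id_mul_two N
    have h7 : ((∑ i ∈ Finset.range N, i : ℕ) : ℝ) * 2 = ((N * (N - 1) : ℕ) : ℝ) := by
      exact_mod_cast h6
    rw [Nat.cast_sum, Nat.cast_mul, Nat.cast_sub hN, Nat.cast_one] at h7
    exact h7
  have hN' : (0 : ℝ) < N := by exact_mod_cast hN
  have h8 : (2 : ℝ) * N ≤ N * (N * ‖1 - lam‖) := by
    have h9 : (2 : ℝ) * N ≤ (N * (N - 1)) * ‖1 - lam‖ := by
      rw [← h5]
      linarith
    have h10 := norm_nonneg (1 - lam)
    nlinarith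
  have h11 : (N : ℝ) * 2 ≤ N * (N * ‖1 - lam‖) := by linarith
  exact le_of_mul_le_mul_left h11 hN'

/-! ## Linear algebra -/

section

variable {ι : Type} [Fintype ι] [DecidableEq ι]

/-- a matrix of finite order all of whose eigenvalues are `1` is the identity -/
lemma Dich_unip (U : Matrix ι ι ℂ) (n : ℕ) (hn : 0 < n) (hU : U ^ n = 1)
    (h : ∀ lam : ℂ, U.charpoly.eval lam = 0 → lam = 1) : U = 1 := by
  have hs : U.charpoly = (X - C (1 : ℂ)) ^ (Multiset.card U.charpoly.roots) := by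
    have h1 : U.charpoly.roots = Multiset.replicate (Multiset.card U.charpoly.roots) 1 := by
      refine Multiset.eq_replicate_card.2 fun b hb => ?_
      exact h b (Polynomial.isRoot_of_mem_roots hb)
    have h2 := (IsAlgClosed.splits U.charpoly).eq_prod_roots_of_monic U.charpoly_monic
    conv_lhs => rw [h2, h1]
    rw [Multiset.map_replicate, Multiset.prod_replicate]
  set m := Multiset.card U.charpoly.roots
  have hc : IsCoprime ((X - C (1 : ℂ)) ^ m) (∑ i ∈ Finset.range n, (X : ℂ[X]) ^ i) := by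
    refine IsCoprime.pow_left ?_
    rw [(Polynomial.irreducible_X_sub_C (1 : ℂ)).coprime_iff_not_dvd, Polynomial.dvd_iff_isRoot,
      Polynomial.IsRoot.def, Polynomial.eval_finsetSum]
    simp only [eval_pow, eval_X, one_pow, Finset.sum_const, Finset.card_range, nsmul_eq_mul,
      mul_one]
    exact_mod_cast hn.ne'
  obtain ⟨a, b, hab⟩ := hc
  have h3 : (X - C (1 : ℂ)) = a * (X - C 1) * U.charpoly + b * (X ^ n - 1) := by
    rw [hs, ← geom_sum_mul, ← C_1]
    linear_combination (X - C (1 : ℂ)) * (-1) * hab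
  have h4 := congrArg (Polynomial.aeval U) h3
  have h5 : Polynomial.aeval U ((X : ℂ[X]) ^ n - 1) = 0 := by
    rw [map_sub, map_pow, Polynomial.aeval_X, hU, map_one, sub_self]
  have h6 : Polynomial.aeval U (X - C (1 : ℂ)) = U - 1 := by
    rw [Polynomial.C_1, map_sub, Polynomial.aeval_X, map_one]
  rw [map_add, map_mul (Polynomial.aeval U) (a * (X - C 1)), Matrix.aeval_self_charpoly, mul_zero,
    map_mul, h5, mul_zero, add_zero, h6, sub_eq_zero] at h4
  exact h4

lemma Dich_eig (U : Matrix ι ι ℂ) (lam : ℂ) :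
    U.charpoly.eval lam = 0 ↔ ∃ v : ι → ℂ, v ≠ 0 ∧ U.mulVec v = lam • v := by
  rw [Matrix.eval_charpoly, ← Matrix.exists_mulVec_eq_zero_iff]
  refine exists_congr fun v => and_congr_right fun _ => ?_
  rw [Matrix.sub_mulVec, sub_eq_zero]
  have h1 : (Matrix.scalar ι lam).mulVec v = lam • v := by
    rw [Matrix.scalar_apply, ← Matrix.smul_one_eq_diagonal, Matrix.smul_mulVec, Matrix.one_mulVec]
  rw [h1]
  exact eq_comm

lemma Dich_eig' (U : Matrix ι ι ℂ) (lam : ℂ) :
    (U - lam • 1).det = 0 ↔ ∃ v : ι → ℂ, v ≠ 0 ∧ U.mulVec v = lam • v := by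
  rw [← Matrix.exists_mulVec_eq_zero_iff]
  refine exists_congr fun v => and_congr_right fun _ => ?_
  rw [Matrix.sub_mulVec, sub_eq_zero, Matrix.smul_mulVec, Matrix.one_mulVec]

lemma Dich_pow (U : Matrix ι ι ℂ) {lam : ℂ} {v : ι → ℂ} (h : U.mulVec v = lam • v) (n : ℕ) :
    (U ^ n).mulVec v = lam ^ n • v := by
  induction n with
  | zero => simp
  | succ n ih =>
    rw [pow_succ, ← Matrix.mulVec_mulVec, h, Matrix.mulVec_smul, ih, smul_smul, pow_succ, mul_comm]

end

/-! ## The norm -/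

section

variable {H : Type} [Finite H] {Γ : Fat H} {r : ℕ} {col : H → ℕ} {p : H}

lemma Dich_nrm_pos {W : (H → ℕ) → ℝ} (hW : ∀ (p : H) (c : St Γ r col p), 0 < W c.1)
    {v : St Γ r col p → ℂ} (hv : v ≠ 0) : 0 < nrm Γ W v := by
  unfold nrm
  obtain ⟨c, hc⟩ := Function.ne_iff.1 hv
  refine Real.sqrt_pos.2 (Finset.sum_pos' (fun c _ => ?_) ⟨c, Finset.mem_univ _, ?_⟩)
  · exact mul_nonneg (hW p c).le (sq_nonneg _)
  · refine mul_pos (hW p c) (pow_pos (norm_pos_iff.2 hc) 2)

lemma Dich_nrm_smul {W : (H → ℕ) → ℝ} (z : ℂ) (v : St Γ r col p → ℂ) :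
    nrm Γ W (z • v) = ‖z‖ * nrm Γ W v := by
  unfold nrm
  have h1 : ∑ c : St Γ r col p, W c.1 * ‖(z • v) c‖ ^ 2 =
      ‖z‖ ^ 2 * ∑ c : St Γ r col p, W c.1 * ‖v c‖ ^ 2 := by
    rw [Finset.mul_sum]
    refine Finset.sum_congr rfl fun c _ => ?_
    rw [Pi.smul_apply, smul_eq_mul, norm_mul]
    ring
  rw [h1, Real.sqrt_mul (sq_nonneg _), Real.sqrt_sq (norm_nonneg _)]

/-- the determinant of a product of commutators -/
lemma Dich_det (hA : St_App) (hr : 2 ≤ r) {A : ℂ} (hp : IsPrimitiveRoot A (4 * r))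
    {f : Path Γ p p} (hf : Comm Γ f) : (f.mat Γ r col A).det = 1 := by
  have happ : ∀ w v : Path Γ p p, ((w.append v).mat Γ r col A).det =
      (v.mat Γ r col A).det * (w.mat Γ r col A).det := by
    intro w v
    rw [hA.1 ℂ H Γ r col A p p p w v, Matrix.det_mul]
  have hinv : ∀ w : Path Γ p p, (w.inv.mat Γ r col A).det * (w.mat Γ r col A).det = 1 := by
    intro w
    rw [← Matrix.det_mul, (hA.2 H Γ r hr col A hp p p w).1, Matrix.det_one]
  induction hf with
  | nil => exact Matrix.det_one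
  | @comm u v _ _ =>
    rw [happ, happ, happ]
    have h1 := hinv u
    have h2 := hinv v
    linear_combination (u.inv.mat Γ r col A).det * (u.mat Γ r col A).det * h2 + h1
  | mul _ _ h1 h2 =>
    rw [happ, h1, h2, one_mul]

end

lemma Dich_A0 (r : ℕ) (hr : 2 ≤ r) : IsPrimitiveRoot (A0 r) (4 * r) := by
  have h := Complex.isPrimitiveRoot_exp (4 * r) (by omega)
  have e : A0 r = Complex.exp (2 * Real.pi * Complex.I / ((4 * r : ℕ) : ℂ)) := by
    rw [A0]
    push_cast
    rfl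
  rw [e]
  exact h

theorem thm_Dich (hB : St_Bal) (_hIso : St_Iso) (hN : St_Near) (hG : St_Gal) (hR : St_Arith)
    (hA : St_App) : St_Dich := by
  intro H _ Γ col p f hf
  obtain ⟨C, hC⟩ := hN H Γ col p f hf
  obtain ⟨r₁, hr₁⟩ := exists_nat_gt (2 * C)
  refine ⟨max r₁ 2, fun r hr A hAr => ?_⟩
  have hr2 : 2 ≤ r := (le_max_right _ _).trans hr
  have hrC : 2 * C < r := hr₁.trans_le (by exact_mod_cast (le_max_left _ _).trans hr)
  by_contra hcon
  push Not at hcon
  obtain ⟨hne, n, hn, z, hz⟩ := hcon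
  have hr0 : (0 : ℝ) < r := by exact_mod_cast (by omega : 0 < r)
  have hA0 := Dich_A0 r hr2
  obtain ⟨W, hW⟩ := hB H Γ r hr2 col
  set U := f.mat Γ r col (A0 r) with hU
  obtain ⟨z', hz', -⟩ := (hG.1 H Γ r hr2 col A (A0 r) hAr hA0 p f n z hz)
  -- the space is not zero
  have hnon : Nonempty (St Γ r col p) := by
    by_contra h
    rw [not_nonempty_iff] at h
    exact hne (Subsingleton.elim _ _)
  have hCr : C / (r : ℝ) ^ 2 < 1 / (2 * r) := by
    rw [div_lt_div_iff₀ (by positivity) (by positivity)]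
    nlinarith
  have hr2' : (2 : ℝ) ≤ r := by exact_mod_cast hr2
  have hhalf : C / (r : ℝ) ^ 2 ≤ 1 / 2 := by
    refine hCr.le.trans ?_
    rw [div_le_div_iff₀ (by positivity) (by positivity)]
    linarith
  -- eigenvalues are close to `1`
  have hclose : ∀ (lam : ℂ) (v : St Γ r col p → ℂ), v ≠ 0 → U.mulVec v = lam • v →
      ‖lam - 1‖ ≤ C / (r : ℝ) ^ 2 := by
    intro lam v hv h1
    have h2 := hC r hr2 W hW v
    rw [← hU, h1] at h2
    have h3 : lam • v - v = (lam - 1) • v := by rw [sub_smul, one_smul]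
    rw [h3, Dich_nrm_smul] at h2
    exact le_of_mul_le_mul_right h2 (Dich_nrm_pos hW.1 hv)
  -- `z'` is a root of unity
  have hzd : z' ^ Fintype.card (St Γ r col p) = 1 := by
    have h1 := congrArg Matrix.det hz'
    rw [Matrix.det_pow, Dich_det hA hr2 hA0 hf, one_pow, Matrix.det_smul, Matrix.det_one,
      mul_one] at h1
    exact h1.symm
  -- all eigenvalues are `1`
  have hone : ∀ lam : ℂ, U.charpoly.eval lam = 0 → lam = 1 := by
    intro lam hlam
    obtain ⟨v, hv, h1⟩ := (Dich_eig U lam).1 hlam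
    have h2 : lam ^ n = z' := by
      have h3 := Dich_pow U h1 n
      rw [hz', Matrix.smul_mulVec, Matrix.one_mulVec] at h3
      obtain ⟨c, hc⟩ := Function.ne_iff.1 hv
      have h4 := congrFun h3 c
      rw [Pi.smul_apply, Pi.smul_apply, smul_eq_mul, smul_eq_mul] at h4
      exact (mul_right_cancel₀ hc h4).symm
    have h3 : lam ^ (n * Fintype.card (St Γ r col p)) = 1 := by rw [pow_mul, h2, hzd]
    have h4 : lam ^ (4 * r) = 1 := by
      refine hR r (by omega) (n * Fintype.card (St Γ r col p))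
        (Nat.mul_pos hn Fintype.card_pos) lam h3 fun s hs1 hs2 => ?_
      have h5 := hG.2 H Γ r hr2 col (A0 r) hA0 p f _ (Nat.mul_pos hn Fintype.card_pos) lam h3
        ((Dich_eig' U lam).2 ⟨v, hv, h1⟩) s hs1 hs2
      obtain ⟨w, hw, h6⟩ := (Dich_eig' U (lam ^ s)).1 h5
      exact (hclose _ w hw h6).trans hhalf
    by_contra h5
    have h6 := Dich_root (N := 4 * r) (by omega) h4 h5
    have h7 := hclose lam v hv h1
    rw [norm_sub_rev] at h7
    have h8 : ‖1 - lam‖ < 1 / (2 * r) := h7.trans_lt hCr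
    rw [lt_div_iff₀ (by positivity)] at h8
    push_cast at h6
    linarith
  -- conclusion
  have hz1 : z' = 1 := by
    obtain ⟨lam, hlam⟩ := IsAlgClosed.exists_root U.charpoly (by
      rw [Matrix.charpoly_degree_eq_dim]
      exact_mod_cast Fintype.card_pos.ne')
    have h1 := hone lam hlam
    obtain ⟨v, hv, h2⟩ := (Dich_eig U lam).1 hlam
    have h3 := Dich_pow U h2 n
    rw [hz', h1, one_pow, one_smul, Matrix.smul_mulVec, Matrix.one_mulVec] at h3
    obtain ⟨c, hc⟩ := Function.ne_iff.1 hv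
    have h4 := congrFun h3 c
    rw [Pi.smul_apply, smul_eq_mul] at h4
    exact mul_right_cancel₀ hc (h4.trans (one_mul _).symm)
  have hU1 : U = 1 := by
    refine Dich_unip U n hn ?_ hone
    rw [hz', hz1, one_smul]
  obtain ⟨y, hy1, hy2⟩ := hG.1 H Γ r hr2 col (A0 r) A hA0 hAr p f 1 1 (by
    rw [← hU, hU1, one_pow, one_smul])
  apply hne
  rw [hy2 rfl, pow_one, one_smul] at hy1
  exact hy1

end Pool.Agent.AMS
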