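import Pool.Agent.AMS.NB
import Pool.Agent.AMS.Dich

/-!
# AMS (DNN): elements of the kernel of filling the boundary: finite order implies that the
eigenvalues are powers of `A0 r` with bounded exponents
-/

set_option autoImplicit false

namespace Pool.Agent.AMS

open Polynomial

section norms

variable {ι : Type} [Fintype ι]

/-- weighted norm -/
private noncomputable def wn (w : ι → ℝ) (v : ι → ℂ) : ℝ := Real.sqrt (∑ c, w c * ‖v c‖ ^ 2)

private theorem wn_eq (w : ι → ℝ) (hw : ∀ c, 0 < w c) (v : ι → ℂ) :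
    wn w v = ‖(WithLp.toLp 2 (fun c => ((Real.sqrt (w c) : ℝ) : ℂ) * v c) : EuclideanSpace ℂ ι)‖ := by
  rw [EuclideanSpace.norm_eq]
  unfold wn
  congr 1
  refine Finset.sum_congr rfl (fun c _ => ?_)
  simp only [norm_mul, mul_pow, Complex.norm_real, Real.norm_eq_abs, sq_abs,
    Real.sq_sqrt (hw c).le]

private theorem wn_add (w : ι → ℝ) (hw : ∀ c, 0 < w c) (u v : ι → ℂ) :
    wn w (u + v) ≤ wn w u + wn w v := by
  rw [wn_eq w hw, wn_eq w hw u, wn_eq w hw v]
  refine le_trans (le_of_eq ?_) (norm_add_le _ _)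
  congr 1
  ext c
  simp [mul_add]

private theorem wn_neg (w : ι → ℝ) (v : ι → ℂ) : wn w (-v) = wn w v := by
  unfold wn
  simp

private theorem wn_nonneg (w : ι → ℝ) (v : ι → ℂ) : 0 ≤ wn w v := Real.sqrt_nonneg _

private theorem wn_sub_comm (w : ι → ℝ) (u v : ι → ℂ) : wn w (u - v) = wn w (v - u) := by
  rw [← wn_neg w (u - v), neg_sub]

private theorem wn_sub_le (w : ι → ℝ) (hw : ∀ c, 0 < w c) (u v : ι → ℂ) :
    wn w (u - v) ≤ wn w u + wn w v := by
  rw [sub_eq_add_neg]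
  refine (wn_add w hw u (-v)).trans ?_
  rw [wn_neg]

private theorem wn_diag (w : ι → ℝ) (hw : ∀ c, 0 < w c) (u v : ι → ℂ) (e : ℝ) (he : 0 ≤ e)
    (h : ∀ c, ‖u c‖ ≤ e * ‖v c‖) : wn w u ≤ e * wn w v := by
  unfold wn
  rw [← Real.sqrt_sq he, ← Real.sqrt_mul (sq_nonneg e)]
  apply Real.sqrt_le_sqrt
  rw [Finset.mul_sum]
  refine Finset.sum_le_sum (fun c _ => ?_)
  have h1 : ‖u c‖ ^ 2 ≤ (e * ‖v c‖) ^ 2 := pow_le_pow_left₀ (norm_nonneg _) (h c) 2
  have h2 := mul_le_mul_of_nonneg_left h1 (hw c).le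
  calc w c * ‖u c‖ ^ 2 ≤ w c * (e * ‖v c‖) ^ 2 := h2
    _ = e ^ 2 * (w c * ‖v c‖ ^ 2) := by ring

/-- close to the identity -/
private def nearI (w : ι → ℝ) (U : Matrix ι ι ℂ) (e : ℝ) : Prop :=
  ∀ v : ι → ℂ, wn w (U.mulVec v - v) ≤ e * wn w v

private theorem nearI_one [DecidableEq ι] (w : ι → ℝ) : nearI w (1 : Matrix ι ι ℂ) 0 := by
  intro v
  rw [Matrix.one_mulVec, sub_self]
  unfold wn
  simp

private theorem nearI_mul (w : ι → ℝ) (hw : ∀ c, 0 < w c) (U V : Matrix ι ι ℂ) (e e' : ℝ)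
    (hV : ∀ v, wn w (V.mulVec v) = wn w v) (h1 : nearI w U e) (h2 : nearI w V e') :
    nearI w (U * V) (e + e') := by
  intro v
  have h3 : (U * V).mulVec v - v = (U.mulVec (V.mulVec v) - V.mulVec v) + (V.mulVec v - v) := by
    rw [Matrix.mulVec_mulVec]; abel
  rw [h3]
  refine (wn_add w hw _ _).trans ?_
  have h4 := h1 (V.mulVec v)
  have h5 := h2 v
  rw [hV] at h4
  linarith

private theorem nearI_inv [DecidableEq ι] (w : ι → ℝ) (U U' : Matrix ι ι ℂ) (e : ℝ)
    (hU : U' * U = 1) (hU' : ∀ v, wn w (U'.mulVec v) = wn w v) (h1 : nearI w U e) :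
    nearI w U' e := by
  intro v
  have h3 : U'.mulVec v - v = U'.mulVec (v - U.mulVec v) := by
    rw [Matrix.mulVec_sub, Matrix.mulVec_mulVec, hU, Matrix.one_mulVec]
  rw [h3, hU', wn_sub_comm]
  exact h1 v

private theorem nearI_conj {κ : Type} [Fintype κ] [DecidableEq κ] (w : ι → ℝ) (w' : κ → ℝ)
    (U : Matrix ι ι ℂ) (M : Matrix ι κ ℂ) (M' : Matrix κ ι ℂ) (e : ℝ)
    (hM : M' * M = 1) (h2 : ∀ v, wn w (M.mulVec v) = wn w' v)
    (h3 : ∀ v, wn w' (M'.mulVec v) = wn w v) (h1 : nearI w U e) :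
    nearI w' (M' * (U * M)) e := by
  intro v
  have h4 : (M' * (U * M)).mulVec v - v = M'.mulVec (U.mulVec (M.mulVec v) - M.mulVec v) := by
    rw [Matrix.mulVec_sub, Matrix.mulVec_mulVec, Matrix.mulVec_mulVec, Matrix.mulVec_mulVec, hM,
      Matrix.one_mulVec, Matrix.mul_assoc]
  rw [h4, h3]
  have h5 := h1 (M.mulVec v)
  rw [h2] at h5
  exact h5

end norms

/-! ### The root of unity and the leaf loop -/

private theorem A0_ne (r : ℕ) : A0 r ≠ 0 := Complex.exp_ne_zero _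

private theorem A0_prim (r : ℕ) (hr : 2 ≤ r) : IsPrimitiveRoot (A0 r) (4 * r) := by
  have h1 := Complex.isPrimitiveRoot_exp (4 * r) (by omega)
  have h2 : A0 r = Complex.exp (2 * Real.pi * Complex.I / ((4 * r : ℕ) : ℂ)) := by
    unfold A0
    push_cast
    rfl
  rw [h2]
  exact h1

private theorem A0_pow_near (r : ℕ) (hr : 2 ≤ r) (m : ℤ) :
    ‖(A0 r) ^ m - 1‖ ≤ (Real.pi / 2 * |(m : ℝ)|) / r := by
  have h1 : (A0 r) ^ m = Complex.exp (Complex.I * ((2 * Real.pi * m / (4 * r) : ℝ) : ℂ)) := by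
    unfold A0
    rw [← Complex.exp_int_mul]
    congr 1
    push_cast
    ring
  rw [h1]
  refine Real.norm_exp_I_mul_ofReal_sub_one_le.trans ?_
  have hr0 : (0 : ℝ) < r := by positivity
  rw [Real.norm_eq_abs, abs_div, abs_mul, abs_of_pos (by positivity : (0 : ℝ) < 2 * Real.pi),
    abs_of_pos (by positivity : (0 : ℝ) < 4 * r)]
  apply le_of_eq
  field_simp
  ring

private theorem tw_sq (r : ℕ) (x x' : ℕ) :
    ∃ m : ℤ, (tw (A0 r) x x') * tw (A0 r) x x' = (A0 r) ^ m ∧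
      |(m : ℝ)| ≤ 2 * (x : ℝ) + 4 := by
  have hA := A0_ne r
  unfold tw
  by_cases h : x' = x + 1
  · refine ⟨-(2 * (x : ℤ)), ?_, ?_⟩
    · rw [if_pos h, ← zpow_add₀ hA]
      congr 1
      ring
    · push_cast
      rw [abs_neg, abs_of_nonneg (by positivity)]
      linarith
  · refine ⟨2 * (x : ℤ) + 4, ?_, ?_⟩
    · rw [if_neg h, neg_mul_neg, ← zpow_add₀ hA]
      congr 1
      ring
    · push_cast
      rw [abs_of_nonneg (by positivity)]

section main

variable {H : Type} [Finite H] (Γ : Fat H)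

omit [Finite H] in
/-- the states at a position and at the opposite position are the same functions -/
private theorem IsSt_opp (r : ℕ) (col : H → ℕ) (p : H) (c : H → ℕ) (h : IsSt Γ r col (Γ.opp p) c) :
    IsSt Γ r col p c := by
  obtain ⟨h1, h2, h3, h4, h5⟩ := h
  rw [Γ.opp_opp] at h5
  refine ⟨h1, h2, h3, fun k hk hk' => h4 k hk' (by rw [Γ.opp_opp]; exact hk), h5.symm⟩

private theorem loop_mulVec (r : ℕ) (col : H → ℕ) (A : ℂ) (l : H)
    (v : St Γ r col (Γ.opp l) → ℂ) (c : St Γ r col (Γ.opp l)) :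
    ((loop Γ l).mat Γ r col A).mulVec v c
      = tw A (c.1 (Γ.opp l)) (c.1 l) * tw A (c.1 (Γ.opp l)) (c.1 l) * v c := by
  have h1 : (loop Γ l).mat Γ r col A
      = (Step.cross (Γ := Γ) l _ false rfl).mat' Γ r col A *
        ((Step.cross (Γ := Γ) l _ true rfl).mat Γ r col A *
          (1 : Matrix (St Γ r col (Γ.opp l)) (St Γ r col (Γ.opp l)) ℂ)) := rfl
  rw [h1, Matrix.mul_one, ← Matrix.mulVec_mulVec]
  have hc : IsSt Γ r col l c.1 := IsSt_opp Γ r col l c.1 c.2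
  have h2 : ∀ u : St Γ r col l → ℂ,
      ((Step.cross (Γ := Γ) l _ false rfl).mat' Γ r col A).mulVec u c
        = tw A (c.1 (Γ.opp l)) (c.1 l) * u ⟨c.1, hc⟩ := by
    intro u
    refine (Finset.sum_eq_single (⟨c.1, hc⟩ : St Γ r col l) ?_ ?_).trans ?_
    rotate_left 2
    · simp only [Step.mat', Matrix.of_apply]
      simp
    · intro b _ hb
      simp only [Step.mat', Matrix.of_apply]
      rw [if_neg, zero_mul]
      intro h3
      exact hb (Subtype.ext h3.symm)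
    · intro h3
      exact (h3 (@Finset.mem_univ (St Γ r col l) _ _)).elim
  rw [h2]
  have h4 : ((Step.cross (Γ := Γ) l _ true rfl).mat Γ r col A).mulVec v ⟨c.1, hc⟩
        = tw A (c.1 (Γ.opp l)) (c.1 l) * v c := by
    refine (Finset.sum_eq_single c ?_ ?_).trans ?_
    rotate_left 2
    · simp only [Step.mat, Matrix.of_apply]
      simp
    · intro b _ hb
      simp only [Step.mat, Matrix.of_apply]
      rw [if_neg, zero_mul]
      intro h3
      exact hb (Subtype.ext h3.symm)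
    · intro h3
      exact absurd (Fintype.complete _) h3
  rw [h4]
  ring

private theorem nrm_eq (r : ℕ) (col : H → ℕ) (p : H) (W : (H → ℕ) → ℝ) (v : St Γ r col p → ℂ) :
    nrm Γ W v = wn (fun c : St Γ r col p => W c.1) v := rfl

private theorem loop_near (r : ℕ) (hr : 2 ≤ r) (col : H → ℕ) (l : H) (hl : Γ.nxt l = l)
    (W : (H → ℕ) → ℝ) (hW : IsW Γ r col W) :
    nearI (fun c : St Γ r col (Γ.opp l) => W c.1) ((loop Γ l).mat Γ r col (A0 r))
      ((Real.pi / 2 * (2 * (col l : ℝ) + 6)) / r) := by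
  have hr0 : (0 : ℝ) < r := by positivity
  intro v
  refine wn_diag _ (fun c => hW.1 _ c) _ _ _ (by positivity) (fun c => ?_)
  have h1 : (((loop Γ l).mat Γ r col (A0 r)).mulVec v - v) c
      = (tw (A0 r) (c.1 (Γ.opp l)) (c.1 l) * tw (A0 r) (c.1 (Γ.opp l)) (c.1 l) - 1) * v c := by
    rw [Pi.sub_apply, loop_mulVec]
    ring
  rw [h1, norm_mul]
  refine mul_le_mul_of_nonneg_right ?_ (norm_nonneg _)
  obtain ⟨m, hm, hm'⟩ := tw_sq r (c.1 (Γ.opp l)) (c.1 l)
  rw [hm]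
  refine (A0_pow_near r hr m).trans ?_
  have h2 : c.1 (Γ.opp l) ≤ col l + 1 := by
    have h3 := c.2.2.1 l hl
    have h4 := c.2.2.2.2.2
    rw [Γ.opp_opp] at h4
    omega
  have h5 : (c.1 (Γ.opp l) : ℝ) ≤ (col l : ℝ) + 1 := by exact_mod_cast h2
  refine div_le_div_of_nonneg_right ?_ hr0.le
  refine mul_le_mul_of_nonneg_left ?_ (by positivity)
  linarith

private theorem null_near (hA : St_App) (hIso : St_Iso) (col : H → ℕ) (p : H) (f : Path Γ p p)
    (hf : Null Γ f) : ∃ C : ℝ, 0 ≤ C ∧ ∀ (r : ℕ) (_ : 2 ≤ r) (W : (H → ℕ) → ℝ)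
      (_ : IsW Γ r col W),
      nearI (fun c : St Γ r col p => W c.1) (f.mat Γ r col (A0 r)) (C / r) := by
  induction hf with
  | nil =>
    refine ⟨0, le_refl _, fun r hr W hW => ?_⟩
    rw [zero_div]
    exact nearI_one _
  | loop l hl w =>
    refine ⟨Real.pi / 2 * (2 * (col l : ℝ) + 6), by positivity, fun r hr W hW => ?_⟩
    have h1 : ((w.append (loop Γ l)).append w.inv).mat Γ r col (A0 r)
        = w.inv.mat Γ r col (A0 r) * ((loop Γ l).mat Γ r col (A0 r) * w.mat Γ r col (A0 r)) := by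
      rw [hA.1, hA.1]
    rw [h1]
    exact nearI_conj _ _ _ _ _ _ (hA.2 H Γ r hr col (A0 r) (A0_prim r hr) _ _ w).1
      (fun v => hIso H Γ r hr col W hW _ _ w v) (fun v => hIso H Γ r hr col W hW _ _ w.inv v)
      (loop_near Γ r hr col l hl W hW)
  | @mul u v hu hv ihu ihv =>
    obtain ⟨C1, h1, h2⟩ := ihu
    obtain ⟨C2, h3, h4⟩ := ihv
    refine ⟨C2 + C1, by positivity, fun r hr W hW => ?_⟩
    rw [hA.1, add_div]
    exact nearI_mul _ (fun c => hW.1 _ c) _ _ _ _ (fun x => hIso H Γ r hr col W hW _ _ u x)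
      (h4 r hr W hW) (h2 r hr W hW)
  | @inv u hu ihu =>
    obtain ⟨C1, h1, h2⟩ := ihu
    refine ⟨C1, h1, fun r hr W hW => ?_⟩
    exact nearI_inv _ _ _ _ (hA.2 H Γ r hr col (A0 r) (A0_prim r hr) _ _ u).1
      (fun x => hIso H Γ r hr col W hW _ _ u.inv x) (h2 r hr W hW)


/-! ### The determinant -/

private theorem loop_eq (r : ℕ) (col : H → ℕ) (A : ℂ) (l : H) :
    (loop Γ l).mat Γ r col A = Matrix.diagonal (fun c : St Γ r col (Γ.opp l) =>
      tw A (c.1 (Γ.opp l)) (c.1 l) * tw A (c.1 (Γ.opp l)) (c.1 l)) := by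
  apply Matrix.toLin'.injective
  apply LinearMap.ext
  intro v
  rw [Matrix.toLin'_apply, Matrix.toLin'_apply]
  funext c
  rw [loop_mulVec, Matrix.mulVec_diagonal]

private theorem det_null (hA : St_App) (r : ℕ) (hr : 2 ≤ r) (col : H → ℕ) (p : H)
    (f : Path Γ p p) (hf : Null Γ f) : (f.mat Γ r col (A0 r)).det ^ (4 * r) = 1 := by
  have hA0 := A0_prim r hr
  have happ : ∀ {q : H} (w v : Path Γ q q), ((w.append v).mat Γ r col (A0 r)).det =
      (v.mat Γ r col (A0 r)).det * (w.mat Γ r col (A0 r)).det := by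
    intro q w v
    rw [hA.1 ℂ H Γ r col (A0 r) q q q w v, Matrix.det_mul]
  induction hf with
  | nil =>
    have h1 : ((Path.nil : Path Γ p p).mat Γ r col (A0 r)) = 1 := rfl
    rw [h1, Matrix.det_one, one_pow]
  | loop l hl w =>
    have h1 : ((w.append (loop Γ l)).append w.inv).mat Γ r col (A0 r)
        = w.inv.mat Γ r col (A0 r) * (loop Γ l).mat Γ r col (A0 r) * w.mat Γ r col (A0 r) := by
      rw [hA.1, hA.1, Matrix.mul_assoc]
    obtain ⟨h2, h3⟩ := hA.2 H Γ r hr col (A0 r) hA0 _ _ w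
    rw [h1, Matrix.det_conj_of_mul_eq_one h2 h3, loop_eq, Matrix.det_diagonal, ← Finset.prod_pow]
    refine Finset.prod_eq_one fun c _ => ?_
    obtain ⟨m, hm, -⟩ := tw_sq r (c.1 (Γ.opp l)) (c.1 l)
    rw [hm, ← zpow_natCast, ← zpow_mul, mul_comm, zpow_mul, zpow_natCast, hA0.pow_eq_one,
      one_zpow]
  | @mul u v hu hv ihu ihv => rw [happ, mul_pow, ihu, ihv, one_mul]
  | @inv u hu ihu =>
    have h1 : (u.inv.mat Γ r col (A0 r)).det * (u.mat Γ r col (A0 r)).det = 1 := by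
      rw [← Matrix.det_mul, (hA.2 H Γ r hr col (A0 r) hA0 p p u).1, Matrix.det_one]
    have h2 : (u.inv.mat Γ r col (A0 r)).det ^ (4 * r) * (u.mat Γ r col (A0 r)).det ^ (4 * r) = 1 := by
      rw [← mul_pow, h1, one_pow]
    rwa [ihu, mul_one] at h2

end main

/-! ### Powers of `A0 r` far from `1` -/

private theorem A0_far (r : ℕ) (hr : 2 ≤ r) (m : ℤ) (hm : |(m : ℝ)| ≤ 2 * r) :
    |(m : ℝ)| / r ≤ ‖(A0 r) ^ m - 1‖ := by
  have hr0 : (0 : ℝ) < r := by positivity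
  have h1 : (A0 r) ^ m = Complex.exp (Complex.I * ((2 * Real.pi * m / (4 * r) : ℝ) : ℂ)) := by
    unfold A0
    rw [← Complex.exp_int_mul]
    congr 1
    push_cast
    ring
  rw [h1, Complex.norm_exp_I_mul_ofReal_sub_one, norm_mul, Real.norm_eq_abs, Real.norm_eq_abs,
    abs_of_pos (by norm_num : (0 : ℝ) < 2)]
  have h2 : |Real.sin (2 * Real.pi * m / (4 * r) / 2)| = Real.sin (Real.pi * |(m : ℝ)| / (4 * r)) := by
    have h3 : 2 * Real.pi * m / (4 * r) / 2 = Real.pi * m / (4 * r) := by ring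
    rw [h3]
    have h5 : 0 ≤ Real.sin (Real.pi * |(m : ℝ)| / (4 * r)) := by
      refine Real.sin_nonneg_of_nonneg_of_le_pi (by positivity) ?_
      rw [div_le_iff₀ (by positivity)]
      nlinarith [Real.pi_pos, abs_nonneg (m : ℝ)]
    rcases le_total 0 (m : ℝ) with h4 | h4
    · rw [abs_of_nonneg h4] at h5 ⊢
      exact abs_of_nonneg h5
    · rw [abs_of_nonpos h4] at h5 ⊢
      have h6 : Real.pi * -(m : ℝ) / (4 * r) = -(Real.pi * m / (4 * r)) := by ring
      rw [h6, Real.sin_neg] at h5 ⊢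
      exact abs_of_nonpos (by linarith)
  rw [h2]
  have h3 := Real.mul_le_sin (x := Real.pi * |(m : ℝ)| / (4 * r)) (by positivity) (by
    rw [div_le_iff₀ (by positivity)]
    nlinarith [Real.pi_pos, abs_nonneg (m : ℝ)])
  have h4 : 2 / Real.pi * (Real.pi * |(m : ℝ)| / (4 * r)) = |(m : ℝ)| / (2 * r) := by
    have := Real.pi_pos.ne'
    field_simp
    ring
  rw [h4] at h3
  have h5 : |(m : ℝ)| / r = 2 * (|(m : ℝ)| / (2 * r)) := by
    field_simp
  rw [h5]
  linarith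

/-! ### Linear algebra -/

private theorem dvd_prodA {ι : Type} [Fintype ι] [DecidableEq ι] (U : Matrix ι ι ℂ) (n : ℕ)
    (hn : 0 < n) (z : ℂ) (hz : z ≠ 0) (hU : U ^ n = z • 1) (S : Finset ℤ) (A : ℂ)
    (h : ∀ lam : ℂ, U.charpoly.eval lam = 0 → ∃ j ∈ S, A ^ j = lam) :
    Polynomial.aeval U (prodA S A) = 0 := by
  classical
  have h0 : Polynomial.aeval U ((X : ℂ[X]) ^ n - C z) = 0 := by
    rw [map_sub, map_pow, Polynomial.aeval_X, hU, Polynomial.aeval_C, Algebra.algebraMap_eq_smul_one,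
      sub_self]
  have hd : minpoly ℂ U ∣ (X : ℂ[X]) ^ n - C z := minpoly.dvd ℂ U h0
  have hs : (minpoly ℂ U).Separable :=
    (separable_X_pow_sub_C z (by exact_mod_cast hn.ne') hz).of_dvd hd
  have hnd : (minpoly ℂ U).roots.Nodup := nodup_roots hs
  have hint : IsIntegral ℂ U := Matrix.isIntegral U
  have hm := (IsAlgClosed.splits (minpoly ℂ U)).eq_prod_roots_of_monic (minpoly.monic hint)
  have hroot : ∀ a ∈ (minpoly ℂ U).roots, ∃ j ∈ S, A ^ j = a := by
    intro a ha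
    refine h a ?_
    obtain ⟨q, hq⟩ := Matrix.minpoly_dvd_charpoly U
    rw [hq, Polynomial.eval_mul]
    have h1 : (minpoly ℂ U).eval a = 0 := Polynomial.isRoot_of_mem_roots ha
    rw [h1, zero_mul]
  choose! g hg using hroot
  have hprod : minpoly ℂ U = ∏ a ∈ (minpoly ℂ U).roots.toFinset, (X - C a) := by
    conv_lhs => rw [hm]
    rw [Finset.prod_eq_multiset_prod, Multiset.toFinset_val, hnd.dedup]
  have h2 : ∏ a ∈ (minpoly ℂ U).roots.toFinset, ((X : ℂ[X]) - C a) =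
      ∏ j ∈ (minpoly ℂ U).roots.toFinset.image g, (X - C (A ^ j)) := by
    rw [Finset.prod_image]
    · refine Finset.prod_congr rfl fun a ha => ?_
      rw [(hg a (Multiset.mem_toFinset.1 ha)).2]
    · intro a ha b hb hab
      rw [← (hg a (Multiset.mem_toFinset.1 ha)).2, ← (hg b (Multiset.mem_toFinset.1 hb)).2, hab]
  have h3 : minpoly ℂ U ∣ prodA S A := by
    rw [hprod, h2]
    refine Finset.prod_dvd_prod_of_subset _ _ _ fun j hj => ?_
    obtain ⟨a, ha, rfl⟩ := Finset.mem_image.1 hj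
    exact (hg a (Multiset.mem_toFinset.1 ha)).1
  obtain ⟨q, hq⟩ := h3
  rw [hq, map_mul, minpoly.aeval, zero_mul]

/-- (DNN) -/
theorem thm_DichN (hB : St_Bal) (hI : St_Iso) (hG : St_Gal) (hR : St_Arith) (hA : St_App) :
    St_DichN := by
  intro H _ Γ col p f hf
  obtain ⟨C, hC0, hC⟩ := null_near Γ hA hI col p f hf
  refine ⟨⌈C⌉₊, fun J hJ => ⟨max (max 2 (2 * J + 1)) ⌈2 * C⌉₊, fun r hr A hAr n hn z hz => ?_⟩⟩
  have hr2 : 2 ≤ r := (le_max_left _ _).trans ((le_max_left _ _).trans hr)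
  have hrC : 2 * C ≤ r := (Nat.le_ceil _).trans (by exact_mod_cast (le_max_right _ _).trans hr)
  have hr0 : (0 : ℝ) < r := by exact_mod_cast (by omega : 0 < r)
  have hA0 := Dich_A0 r hr2
  obtain ⟨W, hW⟩ := hB H Γ r hr2 col
  set U := f.mat Γ r col (A0 r) with hU
  rcases isEmpty_or_nonempty (St Γ r col p) with hemp | hnon
  · exact Subsingleton.elim _ _
  obtain ⟨z', hz', -⟩ := (hG.1 H Γ r hr2 col A (A0 r) hAr hA0 p f n z hz)
  have hhalf : C / (r : ℝ) ≤ 1 / 2 := by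
    rw [div_le_div_iff₀ hr0 (by norm_num)]
    linarith
  -- eigenvalues are close to `1`
  have hclose : ∀ (lam : ℂ) (v : St Γ r col p → ℂ), v ≠ 0 → U.mulVec v = lam • v →
      ‖lam - 1‖ ≤ C / (r : ℝ) := by
    intro lam v hv h1
    have h2 : nrm Γ W (U.mulVec v - v) ≤ C / (r : ℝ) * nrm Γ W v := hC r hr2 W hW v
    rw [h1] at h2
    have h3 : lam • v - v = (lam - 1) • v := by rw [sub_smul, one_smul]
    rw [h3, Dich_nrm_smul] at h2
    exact le_of_mul_le_mul_right h2 (Dich_nrm_pos hW.1 hv)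
  -- `z'` is a root of unity
  have hzd : z' ^ (Fintype.card (St Γ r col p) * (4 * r)) = 1 := by
    have h1 := congrArg Matrix.det hz'
    rw [Matrix.det_pow, Matrix.det_smul, Matrix.det_one, mul_one] at h1
    rw [pow_mul, ← h1, ← pow_mul, mul_comm, pow_mul, det_null Γ hA r hr2 col p f hf, one_pow]
  have hcard : 0 < Fintype.card (St Γ r col p) := Fintype.card_pos
  have hz0 : z' ≠ 0 := by
    rintro rfl
    rw [zero_pow (Nat.mul_pos hcard (by omega)).ne'] at hzd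
    exact zero_ne_one hzd
  refine dvd_prodA U n hn z' hz0 hz' _ (A0 r) fun lam hlam => ?_
  obtain ⟨v, hv, h1⟩ := (Dich_eig U lam).1 hlam
  have h2 : lam ^ n = z' := by
    have h3 := Dich_pow U h1 n
    rw [hz', Matrix.smul_mulVec, Matrix.one_mulVec] at h3
    obtain ⟨c, hc⟩ := Function.ne_iff.1 hv
    have h4 := congrFun h3 c
    rw [Pi.smul_apply, Pi.smul_apply, smul_eq_mul, smul_eq_mul] at h4
    exact (mul_right_cancel₀ hc h4).symm
  have hpos : 0 < n * (Fintype.card (St Γ r col p) * (4 * r)) :=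
    Nat.mul_pos hn (Nat.mul_pos hcard (by omega))
  have h3 : lam ^ (n * (Fintype.card (St Γ r col p) * (4 * r))) = 1 := by
    rw [pow_mul, h2, hzd]
  have h4 : lam ^ (4 * r) = 1 := by
    refine hR r (by omega) _ hpos lam h3 fun s hs1 hs2 => ?_
    have h5 := hG.2 H Γ r hr2 col (A0 r) hA0 p f _ hpos lam h3
      ((Dich_eig' U lam).2 ⟨v, hv, h1⟩) s hs1 hs2
    obtain ⟨w, hw, h6⟩ := (Dich_eig' U (lam ^ s)).1 h5
    exact (hclose _ w hw h6).trans hhalf
  have : NeZero (4 * r) := ⟨by omega⟩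
  obtain ⟨i, hi, hilam⟩ := hA0.eq_pow_of_pow_eq_one h4
  -- the exponent between `- 2 r` and `2 r`
  obtain ⟨j, hj1, hj2⟩ : ∃ j : ℤ, |(j : ℝ)| ≤ 2 * r ∧ A0 r ^ j = lam := by
    by_cases hi2 : i ≤ 2 * r
    · refine ⟨i, ?_, by rw [zpow_natCast, hilam]⟩
      rw [Int.cast_natCast, Nat.abs_cast]
      exact_mod_cast hi2
    · refine ⟨(i : ℤ) - ((4 * r : ℕ) : ℤ), ?_, ?_⟩
      · have h5 : (i : ℝ) < 4 * r := by exact_mod_cast hi
        have h6 : (2 * r : ℝ) < i := by exact_mod_cast not_le.1 hi2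
        push_cast
        rw [abs_le]
        constructor <;> linarith
      · rw [zpow_sub₀ (A0_ne r), zpow_natCast, zpow_natCast,
          hA0.pow_eq_one, div_one, hilam]
  refine ⟨j, ?_, hj2⟩
  have h5 := hclose lam v hv h1
  have h6 := A0_far r hr2 j hj1
  rw [hj2] at h6
  have h7 : |(j : ℝ)| ≤ C := by
    have h8 := h6.trans h5
    rw [div_le_div_iff_of_pos_right hr0] at h8
    exact h8
  have h9 : |(j : ℝ)| ≤ J := h7.trans ((Nat.le_ceil C).trans (by exact_mod_cast hJ))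
  rw [Finset.mem_Icc]
  have h10 := abs_le.1 h9
  constructor
  · exact_mod_cast h10.1
  · exact_mod_cast h10.2

end Pool.Agent.AMS
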