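import Pool.Agent.AMS.StP

/-!
# AMS (DPR): identity or infinite projective order at prime levels
-/

set_option autoImplicit false

namespace Pool.Agent.AMS

/-- the determinant of a product of commutators -/
private lemma DichP_det {H : Type} [Finite H] {Γ : Fat H} {r : ℕ} {col : H → ℕ} {p : H}
    (hA : St_App) (hr : 2 ≤ r) {A : ℂ} (hp : IsPrimitiveRoot A (4 * r))
    {f : Path Γ p p} (hf : CommK Γ f) : (f.mat Γ r col A).det = 1 := by
  have happ : ∀ w v : Path Γ p p, ((w.append v).mat Γ r col A).det =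
      (v.mat Γ r col A).det * (w.mat Γ r col A).det := by
    intro w v
    rw [hA.1 ℂ H Γ r col A p p p w v, Matrix.det_mul]
  have hinv : ∀ w : Path Γ p p, (w.inv.mat Γ r col A).det * (w.mat Γ r col A).det = 1 := by
    intro w
    rw [← Matrix.det_mul, (hA.2 H Γ r hr col A hp p p w).1, Matrix.det_one]
  induction hf with
  | nil => exact Matrix.det_one
  | @comm u v _ _ =>
    rw [happ, happ, happ]
    have h1 := hinv u
    have h2 := hinv v
    linear_combination (u.inv.mat Γ r col A).det * (u.mat Γ r col A).det * h2 + h1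
  | mul _ _ h1 h2 =>
    rw [happ, h1, h2, one_mul]

/-- a matrix with determinant `1` and a scalar power has finite order -/
private lemma DichP_fin {ι : Type} [Fintype ι] [DecidableEq ι] [Nonempty ι] (U : Matrix ι ι ℂ)
    (hU : U.det = 1) {n : ℕ} (hn : 0 < n) {z : ℂ} (hz : U ^ n = z • 1) :
    ∃ N : ℕ, 0 < N ∧ U ^ N = 1 := by
  refine ⟨n * Fintype.card ι, Nat.mul_pos hn Fintype.card_pos, ?_⟩
  have h1 : z ^ Fintype.card ι = 1 := by
    have h2 := congrArg Matrix.det hz
    rw [Matrix.det_pow, hU, one_pow, Matrix.det_smul, Matrix.det_one, mul_one] at h2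
    exact h2.symm
  rw [pow_mul, hz, smul_pow, one_pow, h1, one_smul]

theorem thm_DichP (hC : St_Cyc) (hA : St_App) (hK : St_KComm) (hT : St_Tor) : St_DichP := by
  intro H _ Γ q f hf p hp hp3 A hAp col
  by_contra hcon
  push Not at hcon
  obtain ⟨hne, n, hn, z, hz⟩ := hcon
  apply hne
  rcases isEmpty_or_nonempty (St Γ p col q) with he | he
  · ext i
    exact (he.false i).elim
  obtain ⟨N, hN, hU⟩ := DichP_fin _ (DichP_det hA (by omega) hAp hf) hn hz
  obtain ⟨Z, hZ, hfZ⟩ := hK H Γ q f hf p hp hp3 A hAp col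
  obtain ⟨-, -, ⟨u, hu, hu', hu0, hpu⟩, hsep, -⟩ := hC p hp hp3 A hAp
  have hAR : A ∈ RR A := Subring.subset_closure rfl
  have hhR : hh A ∈ RR A := sub_mem (pow_mem hAR 4) (one_mem _)
  have hh0 : hh A ≠ 0 := by
    intro h0
    exact hAp.pow_ne_one_of_pos_of_lt (by norm_num) (by omega) (sub_eq_zero.mp h0)
  rw [hfZ] at hU
  have h0 := hT (RR A) (hh A) u p hp hp3 hhR hh0 hu hu' hu0 hpu hsep (St Γ p col q) Z hZ N hN hU
  rw [hfZ, h0, smul_zero, add_zero]

end Pool.Agent.AMS
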