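import Pool.Agent.AMS.NB

/-!
# A relation which holds at the places holds at all large levels near states without small colours
-/

set_option autoImplicit false

namespace Pool.Agent.AMS

open Polynomial

section alg

variable {K : Type} [Field K]

private theorem Down_om (P : Place K) (m : ℤ[X]) (h : m.eval₂ (Int.castRingHom K) P.ω = 0) :
    m.coeff 0 = 0 := by
  have h1 : (P.O.subtype) (m.eval₂ (Int.castRingHom P.O) ⟨P.ω, P.hω⟩) =
      m.eval₂ (Int.castRingHom K) P.ω := by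
    rw [Polynomial.hom_eval₂]
    congr 1
  have h2 : m.eval₂ (Int.castRingHom P.O) (⟨P.ω, P.hω⟩ : P.O) = 0 := by
    apply Subtype.ext
    rw [h] at h1
    exact h1
  have h3 : P.π (m.eval₂ (Int.castRingHom P.O) ⟨P.ω, P.hω⟩) =
      m.eval₂ (Int.castRingHom ℚ) (P.π ⟨P.ω, P.hω⟩) := by
    rw [Polynomial.hom_eval₂]
    congr 1
    exact Subsingleton.elim _ _
  have h4 : P.π ⟨P.ω, P.hω⟩ = 0 := by
    obtain ⟨h5, h6⟩ := NB_om (P := P)
    exact h6
  rw [h2, map_zero, h4, Polynomial.eval₂_at_zero] at h3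
  simpa using h3.symm

private theorem Down_tr (P : Place K) (m : ℤ[X])
    (h : m.eval₂ (Int.castRingHom K) P.ω = 0) : m = 0 := by
  by_contra h0
  obtain ⟨g, hg, hg2⟩ := Polynomial.exists_eq_pow_rootMultiplicity_mul_and_not_dvd m h0 0
  rw [hg, Polynomial.eval₂_mul, Polynomial.eval₂_pow] at h
  have h1 : Polynomial.eval₂ (Int.castRingHom K) P.ω (X - C (0 : ℤ)) ≠ 0 := by
    rw [C_0, sub_zero, eval₂_X]
    exact P.hω0
  have h2 := (mul_eq_zero.1 h).resolve_left (pow_ne_zero _ h1)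
  have h3 := Down_om P g h2
  apply hg2
  rw [Polynomial.dvd_iff_isRoot, Polynomial.IsRoot.def, ← Polynomial.coeff_zero_eq_eval_zero]
  exact h3

private theorem Down_trT (P : Place K) (m : ℤ[X])
    (h : m.eval₂ (Int.castRingHom K) P.T = 0) : m = 0 := by
  have h1 : (m.comp (X + 1)).eval₂ (Int.castRingHom K) P.ω = 0 := by
    rw [Polynomial.eval₂_comp]
    have h2 : (X + 1 : ℤ[X]).eval₂ (Int.castRingHom K) P.ω = P.T := by
      rw [eval₂_add, eval₂_X, eval₂_one, add_comm]
      rfl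
    rw [h2, h]
  have h3 := Down_tr P _ h1
  have h4 : (m.comp (X + 1)).comp (X - 1) = m := by
    rw [Polynomial.comp_assoc, add_comp, X_comp, one_comp, sub_add_cancel, comp_X]
  rw [← h4, h3, zero_comp]

private theorem Down_coef (P : Place K) (N : Polynomial (Polynomial ℤ))
    (h : N.eval₂ (Polynomial.mapRingHom (Int.castRingHom K)) (C P.T) = 0) : N = 0 := by
  have h1 : ∀ k : ℕ, (∑ j ∈ Finset.range (N.natDegree + 1),
      (Polynomial.monomial j ((N.coeff j).coeff k) : ℤ[X])) = 0 := by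
    intro k
    apply Down_trT P
    rw [Polynomial.eval₂_finsetSum]
    have h2 := congrArg (fun f => f.coeff k) h
    simp only [Polynomial.eval₂_eq_sum_range, Polynomial.finsetSum_coeff, coeff_zero] at h2
    rw [← h2]
    refine Finset.sum_congr rfl fun j _ => ?_
    rw [eval₂_monomial, ← C_pow, Polynomial.coeff_mul_C, Polynomial.coe_mapRingHom,
      Polynomial.coeff_map]
  ext j k
  have h3 := congrArg (fun f => f.coeff j) (h1 k)
  simp only [Polynomial.finsetSum_coeff, Polynomial.coeff_monomial, coeff_zero] at h3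
  rw [coeff_zero, coeff_zero]
  by_cases hj : j ≤ N.natDegree
  · rw [Finset.sum_ite_eq' (Finset.range (N.natDegree + 1)) j
      (fun j => (N.coeff j).coeff k), if_pos (Finset.mem_range.2 (Nat.lt_succ_of_le hj))] at h3
    exact h3
  · rw [Polynomial.coeff_eq_zero_of_natDegree_lt (not_le.1 hj), coeff_zero]

private theorem Down_zero (P : Place K) (N : Polynomial (Polynomial ℤ))
    (h : ∀ a : ℕ, 1 ≤ a → N.eval₂ (Polynomial.eval₂RingHom (Int.castRingHom K) (P.A a)) P.T = 0) :
    N = 0 := by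
  apply Down_coef P
  apply Polynomial.eq_zero_of_infinite_isRoot
  have hch := NB_charZero P
  have h1 : Function.Injective fun a : ℕ => P.A (a + 1) := by
    intro a b hab
    have h2 : (1 : K) + ((a + 1 : ℕ) : K) * P.ω ^ 5 = 1 + ((b + 1 : ℕ) : K) * P.ω ^ 5 := hab
    have h3 := mul_right_cancel₀ (pow_ne_zero 5 P.hω0) (add_left_cancel h2)
    have h4 : a + 1 = b + 1 := by exact_mod_cast h3
    omega
  refine (Set.infinite_range_of_injective h1).mono ?_
  rintro _ ⟨a, rfl⟩
  change Polynomial.IsRoot _ _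
  rw [Polynomial.IsRoot.def]
  have h2 : Polynomial.evalRingHom (P.A (a + 1))
      (N.eval₂ (Polynomial.mapRingHom (Int.castRingHom K)) (C P.T)) =
      N.eval₂ ((Polynomial.evalRingHom (P.A (a + 1))).comp
        (Polynomial.mapRingHom (Int.castRingHom K))) (Polynomial.evalRingHom (P.A (a + 1)) (C P.T)) :=
    Polynomial.hom_eval₂ _ _ _ _
  rw [Polynomial.coe_evalRingHom] at h2
  rw [h2, eval_C]
  have h3 : (Polynomial.evalRingHom (P.A (a + 1))).comp
      (Polynomial.mapRingHom (Int.castRingHom K)) =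
      Polynomial.eval₂RingHom (Int.castRingHom K) (P.A (a + 1)) := by
    apply Polynomial.ringHom_ext
    · intro n
      simp
    · simp
  rw [h3]
  exact h (a + 1) (by omega)

end alg

section lists

variable {H : Type} {Γ : Fat H} {K : Type} [Field K]

private theorem Down_mat [Finite H] {p q : H} (F : FC Γ p q) (r : ℕ) (col : H → ℕ) (A : K)
    (c' : St Γ r col q) (c : St Γ r col p) :
    F.mat r col A c' c =
      (F.map fun x => ((x.1 : K) * A ^ x.2.1) * x.2.2.mat Γ r col A c' c).sum := by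
  unfold FC.mat
  induction F with
  | nil => rfl
  | cons x F ih =>
    rw [List.map_cons, List.sum_cons, List.map_cons, List.sum_cons, Matrix.add_apply, ih,
      Matrix.smul_apply, smul_eq_mul]

private theorem Down_gop {p q : H} (F : FC Γ p q) (φ : H → ℤ) (col : H → ℕ) (C : Cf H K) (A : K)
    (v : GSt Γ φ col p →₀ K) (δ' : GSt Γ φ col q) :
    (F.gop φ col C A v) δ' =
      (F.map fun x => ((x.1 : K) * A ^ x.2.1) * (x.2.2.gop φ col C v) δ').sum := by
  unfold FC.gop
  induction F with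
  | nil => rfl
  | cons x F ih =>
    rw [List.map_cons, List.sum_cons, List.map_cons, List.sum_cons, LinearMap.add_apply,
      Finsupp.add_apply, ih, LinearMap.smul_apply, Finsupp.smul_apply, smul_eq_mul]

end lists

theorem thm_Down (hP : St_Place) (hC : St_Cur) (hR : St_Rep) (hL : St_Link) : St_Down := by
  intro H _ Γ φ hφ col p q F s hs h0 δ h1 h2
  obtain ⟨K, iK, ⟨P⟩⟩ := hP
  have key : ∀ δ' : GSt Γ φ col q, ∃ L : List (ℤ × ℤ), (∀ x ∈ L, 0 < x.2) ∧
      ∀ A : ℂ, A ≠ 0 → (∀ x ∈ L, gcur A 1 x.1 x.2 ≠ 0) →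
        (F.gop φ col (gen φ A 1) A (Finsupp.single δ 1)) δ' = 0 := by
    intro δ'
    obtain ⟨N, L, i, j, hL1, hL2⟩ := hR H Γ φ hφ col p q F s hs δ δ'
    refine ⟨L, fun x hx => ?_, fun A hA hA2 => ?_⟩
    · obtain ⟨a1, a2, a3⟩ := hL1 x hx
      by_cases hx1 : x.1 = 0
      · exact a2 hx1
      · have a4 := a3 (s + 1) h1 hx1
        omega
    · have hN : N = 0 := by
        apply Down_zero P
        intro a ha
        obtain ⟨-, -, -, -, -, hn⟩ := hC K P a ha 0 0
        have e1 := hL2 K (P.A a) P.T hn.1 hn.2.1 (fun x hx => hn.2.2 x.1 x.2 (hL1 x hx).1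
          (hL1 x hx).2.1)
        rw [h0 K P a ha] at e1
        rw [← e1, LinearMap.zero_apply, Finsupp.zero_apply, zero_mul, zero_mul, zero_mul]
      have e1 := hL2 ℂ A 1 hA one_ne_zero hA2
      rw [hN, eval₂_zero, one_pow, mul_one] at e1
      have e2 := (mul_eq_zero.1 e1).resolve_right (pow_ne_zero _ hA)
      refine (mul_eq_zero.1 e2).resolve_right ?_
      refine List.prod_ne_zero fun h3 => ?_
      obtain ⟨x, hx, hx2⟩ := List.mem_map.1 h3
      exact hA2 x hx hx2
  choose L hL1 hL2 using key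
  have hfin : {δ' : GSt Γ φ col q | ∀ h, |δ'.1 h - δ.1 h| ≤ s}.Finite := by
    have h3 : (Set.univ.pi fun h : H => Set.Icc (δ.1 h - s) (δ.1 h + s)).Finite :=
      Set.Finite.pi fun h => Set.finite_Icc _ _
    refine (h3.preimage (f := fun δ' : GSt Γ φ col q => δ'.1)
      (Function.Injective.injOn Subtype.val_injective)).subset ?_
    intro δ' hd h _
    have h4 := abs_le.1 (hd h)
    exact ⟨by linarith [h4.1], by linarith [h4.2]⟩
  have hfin2 : (⋃ δ' ∈ {δ' : GSt Γ φ col q | ∀ h, |δ'.1 h - δ.1 h| ≤ s},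
      (fun x : ℤ × ℤ => x.2) '' {x | x ∈ L δ'}).Finite :=
    hfin.biUnion fun δ' _ => (List.finite_toSet (L δ')).image _
  obtain ⟨b, hb⟩ := hfin2.bddAbove
  obtain ⟨b2, hb2⟩ := (Set.finite_range δ.1).bddAbove
  refine ⟨b.toNat + 1 + (3 * (b2 + s + 1) + 4).toNat, fun r hr A hA c hc c' => ?_⟩
  have hr0 : 4 * r ≠ 0 := by omega
  have hA0 : A ≠ 0 := hA.ne_zero hr0
  have hgood : Good Γ φ s 0 r δ.1 := by
    refine ⟨fun h hh => ?_, fun h => ?_, fun h hh hh2 => ?_⟩
    · have := h1 h hh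
      push_cast
      omega
    · have h3 : δ.1 h ≤ b2 := hb2 ⟨h, rfl⟩
      push_cast
      omega
    · have := h2 h hh hh2
      push_cast
      omega
  have hc2 : ∀ h, (c.1 h : ℤ) = ((0 : ℕ) : ℤ) * |φ h| + δ.1 h := by
    intro h
    rw [hc]
    push_cast
    ring
  rw [Down_mat]
  by_cases hne : ∃ x ∈ F, x.2.2.mat Γ r col A c' c ≠ 0
  · obtain ⟨x, hx, hx2⟩ := hne
    obtain ⟨δ', hδ1, hδ2⟩ := ((hL H Γ φ hφ col s 0 r δ.1 hgood).2 ℂ A hA0 p q x.2.2 (hs x hx) δ.2
      c hc2).2 c' hx2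
    have e1 : (F.map fun x => ((x.1 : ℂ) * A ^ x.2.1) * x.2.2.mat Γ r col A c' c) =
        F.map fun x => ((x.1 : ℂ) * A ^ x.2.1) *
          (x.2.2.gop φ col (gen φ A 1) (Finsupp.single δ 1)) δ' := by
      refine List.map_congr_left fun y hy => ?_
      have e2 := ((hL H Γ φ hφ col s 0 r δ.1 hgood).2 ℂ A hA0 p q y.2.2 (hs y hy) δ.2
        c hc2).1 δ' c' hδ2
      rw [e2, pow_zero]
      rfl
    rw [e1, ← Down_gop]
    refine hL2 δ' A hA0 fun y hy => ?_
    have e3 : y.2 ≤ b := hb (Set.mem_biUnion (show δ' ∈ {δ' : GSt Γ φ col q |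
      ∀ h, |δ'.1 h - δ.1 h| ≤ s} from hδ1) ⟨y, hy, rfl⟩)
    have e4 := hL1 δ' y hy
    unfold gcur
    rw [one_zpow, one_zpow, one_mul, one_mul, sub_ne_zero]
    intro e5
    have e6 : A ^ (2 * y.2) = 1 := by
      rw [two_mul, zpow_add₀ hA0]
      nth_rewrite 1 [e5]
      rw [← zpow_add₀ hA0, neg_add_cancel, zpow_zero]
    rw [hA.zpow_eq_one_iff_dvd] at e6
    have e7 := Int.le_of_dvd (by omega) e6
    push_cast at e7
    omega
  · push Not at hne
    have e1 : (F.map fun x => ((x.1 : ℂ) * A ^ x.2.1) * x.2.2.mat Γ r col A c' c) =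
        F.map fun _ => (0 : ℂ) := by
      refine List.map_congr_left fun y hy => ?_
      rw [hne y hy, mul_zero]
    rw [e1]
    simp

end Pool.Agent.AMS
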