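import Pool.Agent.AMS.St

/-!
# Module Ext: matrix entries at the extremal states
-/

set_option linter.unusedSectionVars false

namespace Pool.Agent.AMS

open Classical in
/-- The old state with colour `u` at `d`, from the new state `c`. -/
noncomputable def ExtOld {H : Type} (Γ : Fat H) (c : H → ℕ) (d b : H) (u : ℕ) : H → ℕ :=
  fun k => if k = d then u else if k = b then c (Γ.opp b) else c k

open Classical in
/-- A function on the states, extended by zero. -/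
noncomputable def ExtZ {K : Type} [Field K] {H : Type} [Finite H] {Γ : Fat H} {r : ℕ}
    {col : H → ℕ} {q : H} (E : St Γ r col q → K) (c : H → ℕ) : K :=
  if h : IsSt Γ r col q c then E ⟨c, h⟩ else 0

/-- The matrix entries, extended by zero. -/
noncomputable def ExtE {K : Type} [Field K] {H : Type} [Finite H] (Γ : Fat H) (r : ℕ)
    (col : H → ℕ) (A : K) {p q : H} (w : Path Γ p q) (c₀ : St Γ r col p) (c : H → ℕ) : K :=
  ExtZ (fun c' => w.mat Γ r col A c' c₀) c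

theorem Ext_isSt_opp {H : Type} (Γ : Fat H) (r : ℕ) (col : H → ℕ) (p : H) (c : H → ℕ)
    (h : IsSt Γ r col p c) : IsSt Γ r col (Γ.opp p) c := by
  obtain ⟨h1, h2, h3, h4, h5⟩ := h
  refine ⟨h1, h2, h3, fun k hk hk' => h4 k (fun h => hk' ?_) hk, ?_⟩
  · rw [Γ.opp_opp, h]
  · rw [Γ.opp_opp]
    exact h5.symm

theorem Ext_isSt_opp' {H : Type} (Γ : Fat H) (r : ℕ) (col : H → ℕ) (p : H) (c : H → ℕ)
    (h : IsSt Γ r col (Γ.opp p) c) : IsSt Γ r col p c := by
  have := Ext_isSt_opp Γ r col _ c h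
  rwa [Γ.opp_opp] at this

section

variable {K : Type} [Field K] {H : Type} [Finite H] (Γ : Fat H) (r : ℕ) (col : H → ℕ) (A : K)

theorem ExtZ_val {q : H} (E : St Γ r col q → K) (x : St Γ r col q) : ExtZ E x.1 = E x :=
  dif_pos x.2

theorem ExtZ_neg {q : H} (E : St Γ r col q → K) (c : H → ℕ) (h : ¬ IsSt Γ r col q c) :
    ExtZ E c = 0 := dif_neg h

theorem Ext_lift {q : H} (c : H → ℕ) (h : IsSt Γ r col q c) : ∃ x : St Γ r col q, x.1 = c :=
  ⟨⟨c, h⟩, rfl⟩

theorem Ext_sum_one (p : H) (E : St Γ r col p → K) (κ : K) (o : H → ℕ)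
    (f : St Γ r col p → K) (hf1 : ∀ c : St Γ r col p, c.1 = o → f c = κ * E c)
    (hf2 : ∀ c : St Γ r col p, c.1 ≠ o → f c = 0) : ∑ c : St Γ r col p, f c = κ * ExtZ E o := by
  by_cases h : IsSt Γ r col p o
  · obtain ⟨x, rfl⟩ := Ext_lift Γ r col o h
    rw [ExtZ_val]
    refine (Fintype.sum_eq_single x ?_).trans ?_
    · intro c hc
      exact hf2 c (fun h' => hc (Subtype.ext h'))
    · exact hf1 x rfl
  · rw [ExtZ_neg Γ r col E o h, mul_zero]
    refine Finset.sum_eq_zero fun c _ => ?_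
    refine hf2 c fun h' => h ?_
    have := c.2
    rwa [h'] at this

theorem ExtE_nil {p : H} (c₀ : St Γ r col p) :
    ExtE Γ r col A (Path.nil : Path Γ p p) c₀ c₀.1 = 1 := by
  unfold ExtE
  rw [ExtZ_val]
  exact Matrix.one_apply_eq _

theorem ExtE_nil' {p : H} (c₀ : St Γ r col p) (c : H → ℕ) (hc : c ≠ c₀.1) :
    ExtE Γ r col A (Path.nil : Path Γ p p) c₀ c = 0 := by
  unfold ExtE
  by_cases h : IsSt Γ r col p c
  · obtain ⟨x, rfl⟩ := Ext_lift Γ r col c h
    rw [ExtZ_val]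
    exact Matrix.one_apply_ne (fun h' => hc (congrArg Subtype.val h'))
  · exact ExtZ_neg Γ r col _ _ h

theorem Ext_cross_eq {h q : H} (b : Bool) (hq : q = Γ.opp h) (c' : St Γ r col h)
    (c : St Γ r col q) (hc : c'.1 = c.1) :
    Step.mat Γ r col A (Step.cross h q b hq) c' c =
      if b then tw A (c.1 (Γ.opp h)) (c.1 h) else (tw A (c.1 (Γ.opp h)) (c.1 h))⁻¹ := if_pos hc

theorem Ext_cross_ne {h q : H} (b : Bool) (hq : q = Γ.opp h) (c' : St Γ r col h)
    (c : St Γ r col q) (hc : c'.1 ≠ c.1) :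
    Step.mat Γ r col A (Step.cross h q b hq) c' c = 0 := if_neg hc

theorem Ext_cross'_eq {h q : H} (b : Bool) (hq : q = Γ.opp h) (c : St Γ r col q)
    (c' : St Γ r col h) (hc : c.1 = c'.1) :
    Step.mat' Γ r col A (Step.cross h q b hq) c c' =
      if b then (tw A (c'.1 (Γ.opp h)) (c'.1 h))⁻¹ else tw A (c'.1 (Γ.opp h)) (c'.1 h) := if_pos hc

theorem Ext_cross'_ne {h q : H} (b : Bool) (hq : q = Γ.opp h) (c : St Γ r col q)
    (c' : St Γ r col h) (hc : c.1 ≠ c'.1) :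
    Step.mat' Γ r col A (Step.cross h q b hq) c c' = 0 := if_neg hc

theorem Ext_fwd {p q t : H} (w : Path Γ p q) (s : Step Γ q t) (c₀ : St Γ r col p)
    (x : St Γ r col t) :
    (w.fwd s).mat Γ r col A x c₀ = ∑ c, s.mat Γ r col A x c * w.mat Γ r col A c c₀ :=
  Matrix.mul_apply

theorem Ext_bwd {p q t : H} (w : Path Γ p t) (s : Step Γ q t) (c₀ : St Γ r col p)
    (x : St Γ r col q) :
    (w.bwd s).mat Γ r col A x c₀ = ∑ c, s.mat' Γ r col A x c * w.mat Γ r col A c c₀ :=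
  Matrix.mul_apply

theorem ExtE_cross_fwd {p q h : H} (w : Path Γ p q) (b : Bool) (hq : q = Γ.opp h)
    (c₀ : St Γ r col p) (c : H → ℕ) :
    ExtE Γ r col A (w.fwd (.cross h q b hq)) c₀ c =
      (if b then tw A (c (Γ.opp h)) (c h) else (tw A (c (Γ.opp h)) (c h))⁻¹) *
        ExtE Γ r col A w c₀ c := by
  unfold ExtE
  by_cases hs : IsSt Γ r col h c
  · obtain ⟨x, rfl⟩ := Ext_lift Γ r col c hs
    rw [ExtZ_val, Ext_fwd]
    refine Ext_sum_one Γ r col _ (fun c' => w.mat Γ r col A c' c₀) _ x.1 _ (fun c' hc' => ?_)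
      (fun c' hc' => ?_)
    · rw [Ext_cross_eq Γ r col A b hq x c' hc'.symm, hc']
    · rw [Ext_cross_ne Γ r col A b hq x c' (Ne.symm hc'), zero_mul]
  · have hs' : ¬ IsSt Γ r col q c := by
      rw [hq]
      exact fun h' => hs (Ext_isSt_opp' Γ r col h c h')
    rw [ExtZ_neg Γ r col _ _ hs, ExtZ_neg Γ r col _ _ hs', mul_zero]

theorem ExtE_cross_bwd {p q h : H} (w : Path Γ p h) (b : Bool) (hq : q = Γ.opp h)
    (c₀ : St Γ r col p) (c : H → ℕ) :
    ExtE Γ r col A (w.bwd (.cross h q b hq)) c₀ c =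
      (if b then (tw A (c (Γ.opp h)) (c h))⁻¹ else tw A (c (Γ.opp h)) (c h)) *
        ExtE Γ r col A w c₀ c := by
  unfold ExtE
  by_cases hs : IsSt Γ r col q c
  · obtain ⟨x, rfl⟩ := Ext_lift Γ r col c hs
    rw [ExtZ_val, Ext_bwd]
    refine Ext_sum_one Γ r col _ (fun c' => w.mat Γ r col A c' c₀) _ x.1 _ (fun c' hc' => ?_)
      (fun c' hc' => ?_)
    · rw [Ext_cross'_eq Γ r col A b hq x c' hc'.symm, hc']
    · rw [Ext_cross'_ne Γ r col A b hq x c' (Ne.symm hc'), zero_mul]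
  · have hs' : ¬ IsSt Γ r col h c := fun h' => hs (by
      rw [hq]
      exact Ext_isSt_opp Γ r col h c h')
    rw [ExtZ_neg Γ r col _ _ hs, ExtZ_neg Γ r col _ _ hs', mul_zero]

open Classical in
theorem Ext_sum_two (p : H) (E : St Γ r col p → K) (κ₁ κ₂ : K) (o₁ o₂ : H → ℕ)
    (f : St Γ r col p → K) (hf1 : ∀ c : St Γ r col p, c.1 = o₁ → f c = κ₁ * E c)
    (hf2 : ∀ c : St Γ r col p, c.1 = o₂ → f c = κ₂ * E c)
    (hf3 : ∀ c : St Γ r col p, c.1 ≠ o₁ → c.1 ≠ o₂ → f c = 0) (ho : o₁ ≠ o₂) :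
    ∑ c : St Γ r col p, f c = κ₁ * ExtZ E o₁ + κ₂ * ExtZ E o₂ := by
  have h1 : ∀ c : St Γ r col p, f c = (if c.1 = o₁ then κ₁ * E c else 0) +
      (if c.1 = o₂ then κ₂ * E c else 0) := by
    intro c
    by_cases h : c.1 = o₁
    · rw [if_pos h, if_neg (fun h' => ho (h.symm.trans h')), add_zero, hf1 c h]
    · by_cases h' : c.1 = o₂
      · rw [if_neg h, if_pos h', zero_add, hf2 c h']
      · rw [if_neg h, if_neg h', add_zero, hf3 c h h']
  rw [Finset.sum_congr rfl fun c _ => h1 c, Finset.sum_add_distrib]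
  congr 1
  · exact Ext_sum_one Γ r col p E κ₁ o₁ _ (fun c hc => if_pos hc) (fun c hc => if_neg hc)
  · exact Ext_sum_one Γ r col p E κ₂ o₂ _ (fun c hc => if_pos hc) (fun c hc => if_neg hc)

/-- The relation between the new state `c'` and the old state `c`. -/
def ExtR (c' c : H → ℕ) (d b : H) : Prop :=
  (∀ k, k ≠ d → k ≠ b → c' k = c k) ∧ c' d = c (Γ.opp d)

theorem Ext_pm {c : H → ℕ} {d p' : H} (hp : p' = d ∨ p' = Γ.opp d)
    (hc : IsSt Γ r col p' c) : c d = c (Γ.opp d) + 1 ∨ c (Γ.opp d) = c d + 1 := by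
  obtain ⟨_, _, _, _, h5⟩ := hc
  rcases hp with h | h
  · rwa [h] at h5
  · rw [h, Γ.opp_opp] at h5
    exact h5.symm

theorem ExtR_old {c' c : H → ℕ} {d b p' : H} (hdb : d ≠ b) (hp : p' = d ∨ p' = Γ.opp d)
    (hc : IsSt Γ r col p' c) (hR : ExtR Γ c' c d b) : c = ExtOld Γ c' d b (c d) := by
  obtain ⟨_, _, _, h4, _⟩ := hc
  funext k
  unfold ExtOld
  by_cases hk : k = d
  · rw [if_pos hk, hk]
  rw [if_neg hk]
  by_cases hk' : k = b
  · rw [if_pos hk', hk']
    by_cases hb : Γ.opp b = d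
    · rw [hb, hR.2, ← hb, Γ.opp_opp]
    · rw [hR.1 (Γ.opp b) hb (Γ.opp_ne b)]
      refine (h4 b ?_ ?_).symm
      · rcases hp with h | h
        · rw [h]
          exact Ne.symm hdb
        · rw [h]
          intro h'
          apply hb
          rw [h', Γ.opp_opp]
      · rcases hp with h | h
        · rw [h]
          intro h'
          apply hb
          rw [h', Γ.opp_opp]
        · rw [h, Γ.opp_opp]
          exact Ne.symm hdb
  · rw [if_neg hk', hR.1 k hk hk']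

theorem ExtOld_opp {c' : H → ℕ} {d b q' : H} (hdb : d ≠ b) (hq : q' = b ∨ q' = Γ.opp b)
    (hc : IsSt Γ r col q' c') (u : ℕ) : ExtOld Γ c' d b u (Γ.opp d) = c' d := by
  obtain ⟨_, _, _, h4, _⟩ := hc
  unfold ExtOld
  rw [if_neg (Γ.opp_ne d)]
  by_cases h : Γ.opp d = b
  · rw [if_pos h, ← h, Γ.opp_opp]
  · rw [if_neg h]
    refine h4 d ?_ ?_
    · rcases hq with h' | h'
      · rw [h']
        exact hdb
      · rw [h']
        intro h''
        apply h
        rw [h'', Γ.opp_opp]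
    · rcases hq with h' | h'
      · rw [h']
        intro h''
        apply h
        rw [h'', Γ.opp_opp]
      · rw [h', Γ.opp_opp]
        exact hdb

theorem ExtOld_d (c' : H → ℕ) (d b : H) (u : ℕ) : ExtOld Γ c' d b u d = u := if_pos rfl

theorem ExtOld_b (c' : H → ℕ) {d b : H} (hdb : d ≠ b) (u : ℕ) :
    ExtOld Γ c' d b u b = c' (Γ.opp b) := by
  unfold ExtOld
  rw [if_neg (Ne.symm hdb), if_pos rfl]

theorem ExtOld_e (c' : H → ℕ) {d b e : H} (hd : e ≠ d) (hb : e ≠ b) (u : ℕ) :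
    ExtOld Γ c' d b u e = c' e := by
  unfold ExtOld
  rw [if_neg hd, if_neg hb]

theorem Ext_turn_sum {d b e p' q' : H} (hdb : d ≠ b) (hed : e ≠ d) (heb : e ≠ b)
    (hp : p' = d ∨ p' = Γ.opp d) (hq : q' = b ∨ q' = Γ.opp b) (c' : H → ℕ)
    (hc' : IsSt Γ r col q' c') (E M : St Γ r col p' → K)
    (hM1 : ∀ c : St Γ r col p', ExtR Γ c' c.1 d b → M c =
      coef A (c.1 (Γ.opp d)) (c.1 d) (c.1 b) (c' b) (c.1 e))
    (hM2 : ∀ c : St Γ r col p', ¬ ExtR Γ c' c.1 d b → M c = 0) :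
    ∑ c, M c * E c =
      coef A (c' d) (c' d + 1) (c' (Γ.opp b)) (c' b) (c' e) *
        ExtZ E (ExtOld Γ c' d b (c' d + 1)) +
      coef A (c' d) (c' d - 1) (c' (Γ.opp b)) (c' b) (c' e) *
        ExtZ E (ExtOld Γ c' d b (c' d - 1)) := by
  have hRo : ∀ u, ExtR Γ c' (ExtOld Γ c' d b u) d b := by
    intro u
    refine ⟨fun k hk hk' => ?_, (ExtOld_opp Γ r col hdb hq hc' u).symm⟩
    unfold ExtOld
    rw [if_neg hk, if_neg hk']
  have hval : ∀ (u : ℕ) (c : St Γ r col p'), c.1 = ExtOld Γ c' d b u →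
      M c * E c = coef A (c' d) u (c' (Γ.opp b)) (c' b) (c' e) * E c := by
    intro u c hc
    rw [hM1 c (by rw [hc]; exact hRo u), hc, ExtOld_opp Γ r col hdb hq hc' u, ExtOld_d,
      ExtOld_b Γ c' hdb, ExtOld_e Γ c' hed heb]
  refine Ext_sum_two Γ r col p' E _ _ _ _ _ (hval _) (hval _) (fun c h1 h2 => ?_) ?_
  · rw [hM2 c, zero_mul]
    intro hR
    have h3 := ExtR_old Γ r col hdb hp c.2 hR
    have h4 : c.1 d = c' d + 1 ∨ c.1 d = c' d - 1 := by
      have h5 := Ext_pm Γ r col hp c.2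
      have h6 := hR.2
      omega
    rcases h4 with h4 | h4
    · rw [h4] at h3
      exact h1 h3
    · rw [h4] at h3
      exact h2 h3
  · intro h
    have := congrFun h d
    rw [ExtOld_d, ExtOld_d] at this
    omega

theorem Ext_ne1 {h : H} (hl : Γ.nxt h ≠ h) : Γ.nxt (Γ.nxt h) ≠ h := by
  intro h'
  have h1 := Γ.nxt3 h
  rw [h'] at h1
  exact hl h1

theorem Ext_ne2 {h : H} (hl : Γ.nxt h ≠ h) : Γ.nxt (Γ.nxt h) ≠ Γ.nxt h := by
  intro h'
  have h1 := Γ.nxt3 h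
  rw [h', h'] at h1
  exact hl h1

theorem ExtE_turn_fwd {p q h : H} (w : Path Γ p h) (hl : Γ.nxt h ≠ h) (hq : q = Γ.opp (Γ.nxt h))
    (c₀ : St Γ r col p) (c' : H → ℕ) (hc' : IsSt Γ r col q c') :
    ExtE Γ r col A (w.fwd (.turn h q hl hq)) c₀ c' =
      coef A (c' h) (c' h + 1) (c' (Γ.opp (Γ.nxt h))) (c' (Γ.nxt h)) (c' (Γ.nxt (Γ.nxt h))) *
        ExtE Γ r col A w c₀ (ExtOld Γ c' h (Γ.nxt h) (c' h + 1)) +
      coef A (c' h) (c' h - 1) (c' (Γ.opp (Γ.nxt h))) (c' (Γ.nxt h)) (c' (Γ.nxt (Γ.nxt h))) *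
        ExtE Γ r col A w c₀ (ExtOld Γ c' h (Γ.nxt h) (c' h - 1)) := by
  obtain ⟨x, hx⟩ := Ext_lift Γ r col c' hc'
  have h1 : ExtE Γ r col A (w.fwd (.turn h q hl hq)) c₀ c' =
      ∑ c, Step.mat Γ r col A (Step.turn h q hl hq) x c * w.mat Γ r col A c c₀ := by
    unfold ExtE
    rw [← hx, ExtZ_val, Ext_fwd]
  rw [h1]
  refine Ext_turn_sum Γ r col A (q' := q) (Ne.symm hl) (Ext_ne1 Γ hl) (Ext_ne2 Γ hl) (Or.inl rfl)
    (Or.inr hq) c' hc' (fun c => w.mat Γ r col A c c₀) _ (fun c hR => ?_) (fun c hR => ?_)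
  · subst hx
    exact if_pos hR
  · subst hx
    exact if_neg hR

theorem ExtE_turn_bwd {p q h : H} (w : Path Γ p q) (hl : Γ.nxt h ≠ h) (hq : q = Γ.opp (Γ.nxt h))
    (c₀ : St Γ r col p) (c' : H → ℕ) (hc' : IsSt Γ r col h c') :
    ExtE Γ r col A (w.bwd (.turn h q hl hq)) c₀ c' =
      coef A (c' (Γ.nxt h)) (c' (Γ.nxt h) + 1) (c' (Γ.opp h)) (c' h) (c' (Γ.nxt (Γ.nxt h))) *
        ExtE Γ r col A w c₀ (ExtOld Γ c' (Γ.nxt h) h (c' (Γ.nxt h) + 1)) +
      coef A (c' (Γ.nxt h)) (c' (Γ.nxt h) - 1) (c' (Γ.opp h)) (c' h) (c' (Γ.nxt (Γ.nxt h))) *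
        ExtE Γ r col A w c₀ (ExtOld Γ c' (Γ.nxt h) h (c' (Γ.nxt h) - 1)) := by
  obtain ⟨x, hx⟩ := Ext_lift Γ r col c' hc'
  have h1 : ExtE Γ r col A (w.bwd (.turn h q hl hq)) c₀ c' =
      ∑ c, Step.mat' Γ r col A (Step.turn h q hl hq) x c * w.mat Γ r col A c c₀ := by
    unfold ExtE
    rw [← hx, ExtZ_val, Ext_bwd]
  rw [h1]
  refine Ext_turn_sum Γ r col A (q' := h) hl (Ext_ne2 Γ hl) (Ext_ne1 Γ hl) (Or.inr hq)
    (Or.inl rfl) c' hc' (fun c => w.mat Γ r col A c c₀) _ (fun c hR => ?_) (fun c hR => ?_)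
  · subst hx
    exact if_pos ⟨fun k hk hk' => hR.1 k hk' hk, hR.2⟩
  · subst hx
    exact if_neg (fun h' => hR ⟨fun k hk hk' => h'.1 k hk' hk, h'.2⟩)

end

section

variable {K : Type} [Field K] {H : Type} [Fintype H] (Γ : Fat H)

open Classical in
theorem Ext_tot (c : H → ℕ) {d b : H} (hdb : d ≠ b) (u : ℕ) :
    ∑ h, c h + c (Γ.opp b) + u = ∑ h, ExtOld Γ c d b u h + c b + c d := by
  have hb : b ∈ Finset.univ.erase d := Finset.mem_erase.2 ⟨Ne.symm hdb, Finset.mem_univ b⟩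
  have h1 : ∀ f : H → ℕ, ∑ h, f h = f d + (f b + ∑ h ∈ (Finset.univ.erase d).erase b, f h) := by
    intro f
    rw [← Finset.add_sum_erase Finset.univ f (Finset.mem_univ d),
      ← Finset.add_sum_erase (Finset.univ.erase d) f hb]
  rw [h1 c, h1 (ExtOld Γ c d b u), ExtOld_d, ExtOld_b Γ c hdb]
  have h2 : ∑ h ∈ (Finset.univ.erase d).erase b, ExtOld Γ c d b u h =
      ∑ h ∈ (Finset.univ.erase d).erase b, c h := by
    refine Finset.sum_congr rfl fun h hh => ?_
    rw [Finset.mem_erase, Finset.mem_erase] at hh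
    exact ExtOld_e Γ c hh.2.1 hh.1 u
  rw [h2]
  omega

open Classical in
theorem Ext_bump_sum (a : H) (ν : H → ℕ) : ∑ h, bump Γ a ν h = ∑ h, ν h + 2 := by
  have h1 : ∀ h, bump Γ a ν h = ν h + ((if h = a then 1 else 0) + (if h = Γ.opp a then 1 else 0)) := by
    intro h
    unfold bump
    by_cases h1 : h = a
    · have h2 : h ≠ Γ.opp a := by
        rw [h1]
        exact Ne.symm (Γ.opp_ne a)
      rw [if_pos (Or.inl h1), if_pos h1, if_neg h2]
    · by_cases h2 : h = Γ.opp a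
      · rw [if_pos (Or.inr h2), if_neg h1, if_pos h2]
      · rw [if_neg (not_or.2 ⟨h1, h2⟩), if_neg h1, if_neg h2, add_zero, add_zero]
  rw [Finset.sum_congr rfl fun h _ => h1 h, Finset.sum_add_distrib, Finset.sum_add_distrib,
    Finset.sum_ite_eq', Finset.sum_ite_eq', if_pos (Finset.mem_univ _), if_pos (Finset.mem_univ _)]

open Classical in
/-- The extremal functions. -/
noncomputable def ExtX {H : Type} (a : H) (ν : H → ℕ) (t : ℕ) (s : Bool) : H → ℕ :=
  fun h => if h = a then (if s then t + ν a + 1 else t + ν a - 1) else t + ν h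

theorem ExtX_ne (a : H) (ν : H → ℕ) (t : ℕ) (s : Bool) {h : H} (hh : h ≠ a) :
    ExtX a ν t s h = t + ν h := if_neg hh

theorem ExtX_eq (a : H) (ν : H → ℕ) (t : ℕ) (s : Bool) :
    ExtX a ν t s a = if s then t + ν a + 1 else t + ν a - 1 := if_pos rfl

open Classical in
theorem ExtX_sum (a : H) (ν : H → ℕ) (t : ℕ) (s : Bool) :
    ∑ h, ExtX a ν t s h + (t + ν a) = ∑ h, (t + ν h) + ExtX a ν t s a := by
  rw [← Finset.add_sum_erase Finset.univ (ExtX a ν t s) (Finset.mem_univ a),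
    ← Finset.add_sum_erase Finset.univ (fun h => t + ν h) (Finset.mem_univ a)]
  have h2 : ∑ h ∈ Finset.univ.erase a, ExtX a ν t s h = ∑ h ∈ Finset.univ.erase a, (t + ν h) :=
    Finset.sum_congr rfl fun h hh => ExtX_ne a ν t s (Finset.mem_erase.1 hh).1
  rw [h2]
  omega

theorem Ext_bump_opp (a : H) (ν : H → ℕ) (hν : ∀ h, ν (Γ.opp h) = ν h) (h : H) :
    bump Γ a ν (Γ.opp h) = bump Γ a ν h := by
  unfold bump
  have h1 : (Γ.opp h = a ∨ Γ.opp h = Γ.opp a) ↔ (h = a ∨ h = Γ.opp a) := by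
    constructor
    · rintro (h1 | h1)
      · right
        rw [← h1, Γ.opp_opp]
      · left
        have := congrArg Γ.opp h1
        rwa [Γ.opp_opp, Γ.opp_opp] at this
    · rintro (h1 | h1)
      · right
        rw [h1]
      · left
        rw [h1, Γ.opp_opp]
  by_cases h2 : h = a ∨ h = Γ.opp a
  · rw [if_pos (h1.2 h2), if_pos h2, hν]
  · rw [if_neg (fun h' => h2 (h1.1 h')), if_neg h2, hν]

/-- Bounces: the old extremal states. -/
theorem Ext_old_bounce {a b : H} (hab : a ≠ b) (ν : H → ℕ) (hν : ∀ h, ν (Γ.opp h) = ν h) (t : ℕ)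
    (s' s : Bool) :
    ExtOld Γ (ExtX b ν t s') a b (if s then t + ν a + 1 else t + ν a - 1) = ExtX a ν t s := by
  funext h
  by_cases h1 : h = a
  · rw [h1, ExtOld_d, ExtX_eq]
  · rw [ExtX_ne a ν t s h1]
    by_cases h2 : h = b
    · rw [h2, ExtOld_b Γ _ hab, ExtX_ne b ν t s' (Γ.opp_ne b), hν]
    · rw [ExtOld_e Γ _ h1 h2, ExtX_ne b ν t s' h2]

theorem Ext_bump_a (a : H) (ν : H → ℕ) : bump Γ a ν a = ν a + 1 := if_pos (Or.inl rfl)

theorem Ext_bump_opp_a (a : H) (ν : H → ℕ) : bump Γ a ν (Γ.opp a) = ν (Γ.opp a) + 1 :=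
  if_pos (Or.inr rfl)

theorem Ext_bump_ne {a h : H} (ν : H → ℕ) (h1 : h ≠ a) (h2 : h ≠ Γ.opp a) :
    bump Γ a ν h = ν h := if_neg (not_or.2 ⟨h1, h2⟩)

/-- Traversals: the old extremal state. -/
theorem Ext_old_trav {a b : H} (hab : Γ.opp a ≠ b) (ν : H → ℕ) (hν : ∀ h, ν (Γ.opp h) = ν h)
    (t : ℕ) (s' : Bool) :
    ExtOld Γ (ExtX b (bump Γ a ν) t s') (Γ.opp a) b (t + ν a) = ExtX a ν t true := by
  funext h
  by_cases h1 : h = Γ.opp a
  · rw [h1, ExtOld_d, ExtX_ne a ν t true (Γ.opp_ne a), hν]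
  · by_cases h2 : h = b
    · rw [h2, ExtOld_b Γ _ hab, ExtX_ne b _ t s' (Γ.opp_ne b), Ext_bump_opp Γ a ν hν]
      by_cases h3 : b = a
      · rw [h3, Ext_bump_a, ExtX_eq]
        rfl
      · rw [Ext_bump_ne Γ ν h3 (Ne.symm hab), ExtX_ne a ν t true h3]
    · rw [ExtOld_e Γ _ h1 h2, ExtX_ne b _ t s' h2]
      by_cases h3 : h = a
      · rw [h3, Ext_bump_a, ExtX_eq]
        rfl
      · rw [Ext_bump_ne Γ ν h3 h1, ExtX_ne a ν t true h3]

theorem Ext_key (A : K) (t : ℕ) (ht : 2 ≤ t) (a b d e : H) (bo : Bool) (ν ν' : H → ℕ)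
    (hν : ∀ h, ν (Γ.opp h) = ν h) (hbo : bo = true → d = a ∧ ν' = ν)
    (hbo' : bo = false → d = Γ.opp a ∧ ν' = bump Γ a ν)
    (hdb : d ≠ b) (heb : e ≠ b) (P : (H → ℕ) → Prop)
    (hPopp : ∀ c', P c' → ∀ u, ExtOld Γ c' d b u (Γ.opp d) = c' d) (E E' : (H → ℕ) → K)
    (hE' : ∀ c', P c' → E' c' =
      coef A (c' d) (c' d + 1) (c' (Γ.opp b)) (c' b) (c' e) * E (ExtOld Γ c' d b (c' d + 1)) +
      coef A (c' d) (c' d - 1) (c' (Γ.opp b)) (c' b) (c' e) * E (ExtOld Γ c' d b (c' d - 1)))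
    (hE0 : ∀ c', ¬ P c' → E' c' = 0)
    (h1 : ∀ c, E c ≠ 0 → ∑ h, c h + c (Γ.opp a) ≤ ∑ h, (t + ν h) + c a)
    (p : K × K) (h2 : E (ExtX a ν t true) = p.1) (h3 : E (ExtX a ν t false) = p.2)
    (hP1 : P (ExtX b ν' t true)) (hP2 : P (ExtX b ν' t false)) :
    (∀ c, E' c ≠ 0 → ∑ h, c h + c (Γ.opp b) ≤ ∑ h, (t + ν' h) + c b) ∧
    E' (ExtX b ν' t true) = (tr A bo (t + ν' d) (t + ν' b) (t + ν' e) p).1 ∧
    E' (ExtX b ν' t false) = (tr A bo (t + ν' d) (t + ν' b) (t + ν' e) p).2 := by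
  have hν' : ∀ h, ν' (Γ.opp h) = ν' h := by
    cases bo
    · rw [(hbo' rfl).2]
      exact Ext_bump_opp Γ a ν hν
    · rw [(hbo rfl).2]
      exact hν
  have hN : bo = false → ∑ h, (t + ν' h) = ∑ h, (t + ν h) + 2 := by
    intro hb
    rw [(hbo' hb).2, Finset.sum_add_distrib, Finset.sum_add_distrib, Ext_bump_sum, add_assoc]
  -- the value at the extremal states
  have hval : ∀ s : Bool, P (ExtX b ν' t s) → E' (ExtX b ν' t s) =
      coef A (t + ν' d) (t + ν' d + 1) (t + ν' b) (if s then t + ν' b + 1 else t + ν' b - 1)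
        (t + ν' e) * E (ExtOld Γ (ExtX b ν' t s) d b (t + ν' d + 1)) +
      coef A (t + ν' d) (t + ν' d - 1) (t + ν' b) (if s then t + ν' b + 1 else t + ν' b - 1)
        (t + ν' e) * E (ExtOld Γ (ExtX b ν' t s) d b (t + ν' d - 1)) := by
    intro s hP
    rw [hE' _ hP, ExtX_ne b ν' t s hdb, ExtX_ne b ν' t s (Γ.opp_ne b), ExtX_eq,
      ExtX_ne b ν' t s heb, hν']
  have hold : ∀ c u, P c → c d ≤ u + 1 → E (ExtOld Γ c d b u) ≠ 0 →
      ∑ h, c h + c (Γ.opp b) ≤ ∑ h, (t + ν' h) + c b := by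
    intro c u hP hu hne
    have h4 := h1 _ hne
    have h5 := Ext_tot Γ c hdb u
    have h6 := hPopp c hP u
    cases bo
    · obtain ⟨hd, _⟩ := hbo' rfl
      have h7 := hN rfl
      have e1 : ExtOld Γ c d b u (Γ.opp a) = u := by
        rw [← hd, ExtOld_d]
      have e2 : ExtOld Γ c d b u a = c d := by
        rw [← h6, hd, Γ.opp_opp]
      rw [e1, e2] at h4
      omega
    · obtain ⟨hd, hn⟩ := hbo rfl
      have e1 : ExtOld Γ c d b u a = u := by
        rw [← hd, ExtOld_d]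
      have e2 : ExtOld Γ c d b u (Γ.opp a) = c d := by
        rw [← h6, hd]
      rw [e1, e2] at h4
      rw [hn]
      omega
  refine ⟨fun c hc => ?_, ?_⟩
  · have hP : P c := by
      by_contra hP
      exact hc (hE0 c hP)
    rw [hE' c hP] at hc
    by_cases h4 : E (ExtOld Γ c d b (c d + 1)) = 0
    · have h5 : E (ExtOld Γ c d b (c d - 1)) ≠ 0 := by
        intro h5
        rw [h4, h5, mul_zero, mul_zero, add_zero] at hc
        exact hc rfl
      exact hold c _ hP (by omega) h5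
    · exact hold c _ hP (by omega) h4
  · cases bo
    · obtain ⟨hd, hn⟩ := hbo' rfl
      have hab : Γ.opp a ≠ b := by
        rw [← hd]
        exact hdb
      have hx : t + ν' d - 1 = t + ν a := by
        rw [hd, hν', hn, Ext_bump_a]
        omega
      have e1 : ∀ s : Bool, E (ExtOld Γ (ExtX b ν' t s) d b (t + ν' d - 1)) = p.1 := by
        intro s
        rw [hx, hd, hn, Ext_old_trav Γ hab ν hν, h2]
      have e2 : ∀ s : Bool, P (ExtX b ν' t s) →
          E (ExtOld Γ (ExtX b ν' t s) d b (t + ν' d + 1)) = 0 := by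
        intro s hP
        by_contra hne
        have h4 := h1 _ hne
        have h5 := Ext_tot Γ (ExtX b ν' t s) hdb (t + ν' d + 1)
        have h6 := hPopp _ hP (t + ν' d + 1)
        have h7 := hN rfl
        have h8 := ExtX_sum b ν' t s
        have f1 : ExtOld Γ (ExtX b ν' t s) d b (t + ν' d + 1) (Γ.opp a) = t + ν' d + 1 := by
          rw [← hd, ExtOld_d]
        have f2 : ExtOld Γ (ExtX b ν' t s) d b (t + ν' d + 1) a = ExtX b ν' t s d := by
          rw [← h6]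
          congr 1
          rw [hd, Γ.opp_opp]
        have f3 := ExtX_ne b ν' t s hdb
        have f4 := ExtX_ne b ν' t s (Γ.opp_ne b)
        rw [hν'] at f4
        rw [f1, f2, f3] at h4
        rw [f3, f4] at h5
        omega
      rw [hval true hP1, hval false hP2, e1, e1, e2 true hP1, e2 false hP2, mul_zero, mul_zero,
        zero_add, zero_add]
      exact ⟨mul_comm _ _, mul_comm _ _⟩
    · obtain ⟨hd, hn⟩ := hbo rfl
      subst hd
      subst hn
      have e1 : ∀ s : Bool, E (ExtOld Γ (ExtX b ν' t s) d b (t + ν' d + 1)) = p.1 := by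
        intro s
        have := Ext_old_bounce Γ hdb ν' hν t s true
        rw [if_pos rfl] at this
        rw [this, h2]
      have e2 : ∀ s : Bool, E (ExtOld Γ (ExtX b ν' t s) d b (t + ν' d - 1)) = p.2 := by
        intro s
        have := Ext_old_bounce Γ hdb ν' hν t s false
        rw [if_neg (by simp)] at this
        rw [this, h3]
      rw [hval true hP1, hval false hP2, e1, e1, e2, e2]
      constructor
      · change _ = p.1 * _ + p.2 * _
        rw [mul_comm p.1, mul_comm p.2]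
        rfl
      · change _ = p.1 * _ + p.2 * _
        rw [mul_comm p.1, mul_comm p.2]
        rfl

end

theorem Ext_main (hS : St_ExtSt) {K : Type} [Field K] {H : Type} [Fintype H] (Γ : Fat H) (l : H)
    (hl : Γ.nxt l = l) (t r : ℕ) (hte : Even t) (A : K) (c₀ : St Γ r (colour l t) l)
    (hc₀ : c₀.1 = colour l t) {a : H} {σ : Bool} {k : ℤ} (ρ : Red Γ l a σ k) :
    (∀ h, ρ.nu (Γ.opp h) = ρ.nu h) ∧ (2 * ρ.len + 6 ≤ t → 3 * (t + ρ.len + 2) + 4 ≤ 2 * r →
      (∀ c, ExtE Γ r (colour l t) A ρ.path c₀ c ≠ 0 →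
        ∑ h, c h + c (Γ.opp a) ≤ ∑ h, (t + ρ.nu h) + c a) ∧
      ExtE Γ r (colour l t) A ρ.path c₀ (ExtX a ρ.nu t true) = (ρ.alpha t A).1 ∧
      ExtE Γ r (colour l t) A ρ.path c₀ (ExtX a ρ.nu t false) = (ρ.alpha t A).2) := by
  induction ρ with
  | base =>
    refine ⟨fun _ => rfl, fun ht _ => ?_⟩
    have hX : ExtX l (Red.nu (Red.base : Red Γ l l true 0)) t true = c₀.1 := by
      rw [hc₀]
      funext h
      unfold ExtX colour
      by_cases h1 : h = l
      · rw [if_pos h1, if_pos h1]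
        rfl
      · rw [if_neg h1, if_neg h1]
        rfl
    have e0 : ExtE Γ r (colour l t) A (Red.path (Red.base : Red Γ l l true 0)) c₀ c₀.1 = 1 :=
      ExtE_nil Γ r (colour l t) A c₀
    refine ⟨fun c hc => ?_, ?_, ?_⟩
    · have h1 : c = c₀.1 := by
        by_contra h1
        exact hc (ExtE_nil' Γ r (colour l t) A c₀ c h1)
      have h2 := ExtX_sum l (Red.nu (Red.base : Red Γ l l true 0)) t true
      rw [hX, ← h1] at h2
      have h3 : c (Γ.opp l) = t := by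
        rw [h1, hc₀]
        exact if_neg (Γ.opp_ne l)
      rw [h3]
      exact h2.le
    · rw [hX]
      exact e0
    · refine ExtE_nil' Γ r (colour l t) A c₀ _ (fun h1 => ?_)
      rw [← hX] at h1
      have h2 := congrFun h1 l
      rw [ExtX_eq, ExtX_eq] at h2
      simp only [if_true, Bool.false_eq_true, if_false] at h2
      omega
  | up w hk ih =>
    rename_i a σ k
    obtain ⟨hn, ih⟩ := ih
    refine ⟨hn, fun ht hr => ?_⟩
    obtain ⟨i1, i2, i3⟩ := ih ht hr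
    have hE : ∀ c, ExtE Γ r (colour l t) A (Red.up w hk).path c₀ c =
        tw A (c (Γ.opp a)) (c a) * ExtE Γ r (colour l t) A w.path c₀ c := by
      intro c
      cases σ
      · exact ExtE_cross_fwd Γ r (colour l t) A w.path true rfl c₀ c
      · exact ExtE_cross_bwd Γ r (colour l t) A w.path false rfl c₀ c
    refine ⟨fun c hc => i1 c (fun h => hc (by rw [hE, h, mul_zero])), ?_, ?_⟩
    · rw [hE]
      change tw A (ExtX a w.nu t true (Γ.opp a)) (ExtX a w.nu t true a) *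
        ExtE Γ r (colour l t) A w.path c₀ (ExtX a w.nu t true) = _
      rw [i2, ExtX_ne a w.nu t true (Γ.opp_ne a), hn, ExtX_eq]
      exact mul_comm _ _
    · rw [hE]
      change tw A (ExtX a w.nu t false (Γ.opp a)) (ExtX a w.nu t false a) *
        ExtE Γ r (colour l t) A w.path c₀ (ExtX a w.nu t false) = _
      rw [i3, ExtX_ne a w.nu t false (Γ.opp_ne a), hn, ExtX_eq]
      exact mul_comm _ _
  | dn w hk ih =>
    rename_i a σ k
    obtain ⟨hn, ih⟩ := ih
    refine ⟨hn, fun ht hr => ?_⟩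
    obtain ⟨i1, i2, i3⟩ := ih ht hr
    have hE : ∀ c, ExtE Γ r (colour l t) A (Red.dn w hk).path c₀ c =
        (tw A (c (Γ.opp a)) (c a))⁻¹ * ExtE Γ r (colour l t) A w.path c₀ c := by
      intro c
      cases σ
      · exact ExtE_cross_fwd Γ r (colour l t) A w.path false rfl c₀ c
      · exact ExtE_cross_bwd Γ r (colour l t) A w.path true rfl c₀ c
    refine ⟨fun c hc => i1 c (fun h => hc (by rw [hE, h, mul_zero])), ?_, ?_⟩
    · rw [hE]
      change (tw A (ExtX a w.nu t true (Γ.opp a)) (ExtX a w.nu t true a))⁻¹ *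
        ExtE Γ r (colour l t) A w.path c₀ (ExtX a w.nu t true) = _
      rw [i2, ExtX_ne a w.nu t true (Γ.opp_ne a), hn, ExtX_eq]
      exact mul_comm _ _
    · rw [hE]
      change (tw A (ExtX a w.nu t false (Γ.opp a)) (ExtX a w.nu t false a))⁻¹ *
        ExtE Γ r (colour l t) A w.path c₀ (ExtX a w.nu t false) = _
      rw [i3, ExtX_ne a w.nu t false (Γ.opp_ne a), hn, ExtX_eq]
      exact mul_comm _ _
  | ccw w hl' hb ih =>
    rename_i a σ k
    obtain ⟨hn, ih⟩ := ih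
    have hn' : ∀ h, (Red.ccw w hl' hb).nu (Γ.opp h) = (Red.ccw w hl' hb).nu h := by
      cases σ
      · exact Ext_bump_opp Γ a w.nu hn
      · exact hn
    refine ⟨hn', fun ht hr => ?_⟩
    have hlen : (Red.ccw w hl' hb).len = w.len + 1 := rfl
    rw [hlen] at ht hr
    obtain ⟨i1, i2, i3⟩ := ih (by omega) (by omega)
    have hSt := hS H Γ l hl _ _ _ (Red.ccw w hl' hb) t r hte (by rw [hlen]; exact ht)
      (by rw [hlen]; exact hr)
    have hnl : Γ.nxt (Γ.nxt (pos Γ a σ)) ≠ Γ.nxt (pos Γ a σ) := Ext_ne2 Γ hl'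
    exact Ext_key Γ A t (by omega) a (Γ.nxt (pos Γ a σ)) (pos Γ a σ)
      (Γ.nxt (Γ.nxt (pos Γ a σ))) σ w.nu _ hn (by rintro rfl; exact ⟨rfl, rfl⟩)
      (by rintro rfl; exact ⟨rfl, rfl⟩) (Ne.symm hl') hnl
      (fun c => IsSt Γ r (colour l t) (Γ.opp (Γ.nxt (pos Γ a σ))) c)
      (fun c' hP u => ExtOld_opp Γ r (colour l t) (Ne.symm hl') (Or.inr rfl) hP u)
      (ExtE Γ r (colour l t) A w.path c₀)
      (ExtE Γ r (colour l t) A (Red.ccw w hl' hb).path c₀)
      (fun c' hP => ExtE_turn_fwd Γ r (colour l t) A w.path hl' rfl c₀ c' hP)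
      (fun c' hP => ExtZ_neg Γ r (colour l t) _ c' hP) i1 (w.alpha t A) i2 i3 hSt.1
      (hSt.2 hnl)
  | cw w hq hl' hb ih =>
    rename_i a b σ k
    obtain ⟨hn, ih⟩ := ih
    have hn' : ∀ h, (Red.cw w hq hl' hb).nu (Γ.opp h) = (Red.cw w hq hl' hb).nu h := by
      cases σ
      · exact hn
      · exact Ext_bump_opp Γ a w.nu hn
    refine ⟨hn', fun ht hr => ?_⟩
    have hlen : (Red.cw w hq hl' hb).len = w.len + 1 := rfl
    rw [hlen] at ht hr
    obtain ⟨i1, i2, i3⟩ := ih (by omega) (by omega)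
    have hSt := hS H Γ l hl _ _ _ (Red.cw w hq hl' hb) t r hte (by rw [hlen]; exact ht)
      (by rw [hlen]; exact hr)
    exact Ext_key Γ A t (by omega) a b (Γ.nxt b) (Γ.nxt (Γ.nxt b)) (!σ) w.nu _ hn
      (by
        intro h
        have h1 : σ = false := by simpa using h
        subst h1
        refine ⟨?_, rfl⟩
        have h2 := congrArg Γ.opp hq
        rw [Γ.opp_opp] at h2
        change Γ.opp (Γ.opp a) = _ at h2
        rw [Γ.opp_opp] at h2
        exact h2.symm)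
      (by
        intro h
        have h1 : σ = true := by simpa using h
        subst h1
        refine ⟨?_, rfl⟩
        have h2 := congrArg Γ.opp hq
        rw [Γ.opp_opp] at h2
        exact h2.symm)
      hl' (Ext_ne1 Γ hl') (fun c => IsSt Γ r (colour l t) b c)
      (fun c' hP u => ExtOld_opp Γ r (colour l t) hl' (Or.inl rfl) hP u)
      (ExtE Γ r (colour l t) A w.path c₀)
      (ExtE Γ r (colour l t) A (Red.cw w hq hl' hb).path c₀)
      (fun c' hP => ExtE_turn_bwd Γ r (colour l t) A w.path hl' hq c₀ c' hP)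
      (fun c' hP => ExtZ_neg Γ r (colour l t) _ c' hP) i1 (w.alpha t A) i2 i3 hSt.1
      (hSt.2 hl')

theorem thm_Ext (hS : St_ExtSt) : St_Ext := by
  intro K _ H iF Γ l hl a σ k ρ t r hte hlen hr A c₀ hc₀ s c hc
  have iF' := Fintype.ofFinite H
  obtain ⟨_, h1⟩ := Ext_main hS Γ l hl t r hte A c₀ hc₀ ρ
  obtain ⟨_, h2, h3⟩ := h1 hlen hr
  have h4 : ρ.path.mat Γ r (colour l t) A c c₀ =
      ExtE Γ r (colour l t) A ρ.path c₀ c.1 :=
    (ExtZ_val Γ r (colour l t) (fun c' => ρ.path.mat Γ r (colour l t) A c' c₀) c).symm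
  rw [h4, hc]
  cases s
  · exact h3
  · exact h2

end Pool.Agent.AMS
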