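import Pool.Agent.AMS.St

/-!
# AMS (EXS): the extremal states are states
-/

set_option autoImplicit false

namespace Pool.Agent.AMS

section

variable {H : Type} {Γ : Fat H}

open Classical in
/-- the indicator of `a` -/
noncomputable def ExtSt_d (a k : H) : ℕ := if k = a then 1 else 0

/-- the sum over the half edges of a vertex -/
def ExtSt_vs (Γ : Fat H) (f : H → ℕ) (h : H) : ℕ := f h + f (Γ.nxt h) + f (Γ.nxt (Γ.nxt h))

lemma ExtSt_inj {a b : H} (h : Γ.nxt a = Γ.nxt b) : a = b := by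
  rw [← Γ.nxt3 a, ← Γ.nxt3 b, h]

lemma ExtSt_eq (a : H) : ExtSt_d a a = 1 := if_pos rfl

lemma ExtSt_ne {a k : H} (h : k ≠ a) : ExtSt_d a k = 0 := if_neg h

lemma ExtSt_nn {h : H} (hl : Γ.nxt h ≠ h) : Γ.nxt (Γ.nxt h) ≠ h := by
  intro h1
  have h2 := congrArg Γ.nxt h1
  rw [Γ.nxt3] at h2
  exact hl h2.symm

lemma ExtSt_nl {h : H} (hl : Γ.nxt h ≠ h) : Γ.nxt (Γ.nxt h) ≠ Γ.nxt h := fun h1 =>
  hl (ExtSt_inj h1)

lemma ExtSt_pair' {d : H} (hd : Γ.nxt d ≠ d) (h : H) :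
    Even (ExtSt_vs Γ (fun k => ExtSt_d d k + ExtSt_d (Γ.nxt d) k) h) := by
  unfold ExtSt_vs
  dsimp only
  have n1 := ExtSt_nn hd
  have n2 := ExtSt_nl hd
  by_cases h1 : h = d
  · subst h1
    rw [ExtSt_eq, ExtSt_eq, ExtSt_ne hd.symm, ExtSt_ne hd, ExtSt_ne n1, ExtSt_ne n2]
    exact ⟨1, rfl⟩
  · by_cases h2 : Γ.nxt h = d
    · subst h2
      have m1 : h ≠ Γ.nxt (Γ.nxt h) := by
        intro h3
        have h4 := congrArg Γ.nxt h3
        rw [Γ.nxt3] at h4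
        exact h1 h4.symm
      rw [ExtSt_eq, ExtSt_eq, ExtSt_ne h1, ExtSt_ne m1, ExtSt_ne hd.symm, ExtSt_ne hd]
      exact ⟨1, rfl⟩
    · by_cases h3 : Γ.nxt (Γ.nxt h) = d
      · have e1 : Γ.nxt d = h := by rw [← h3, Γ.nxt3]
        have m1 : Γ.nxt h ≠ h := fun h4 => h1 (by rw [h4] at h3; rw [h4] at h3; exact h3)
        have m2 : Γ.nxt (Γ.nxt h) ≠ h := by rw [h3]; exact fun h4 => h1 h4.symm
        rw [e1, h3, ExtSt_eq, ExtSt_eq, ExtSt_ne h1, ExtSt_ne h2, ExtSt_ne m1,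
          ExtSt_ne (fun h4 => h1 h4.symm)]
        exact ⟨1, rfl⟩
      · have m1 : h ≠ Γ.nxt d := by
          rintro rfl
          exact h3 (Γ.nxt3 d)
        have m2 : Γ.nxt h ≠ Γ.nxt d := fun h4 => h1 (ExtSt_inj h4)
        have m3 : Γ.nxt (Γ.nxt h) ≠ Γ.nxt d := fun h4 => h2 (ExtSt_inj h4)
        rw [ExtSt_ne h1, ExtSt_ne h2, ExtSt_ne h3, ExtSt_ne m1, ExtSt_ne m2, ExtSt_ne m3]
        exact ⟨0, rfl⟩

lemma ExtSt_pair {d d' : H} (hd : Γ.nxt d ≠ d) (hdd : d' = Γ.nxt d ∨ d = Γ.nxt d') (h : H) :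
    Even (ExtSt_vs Γ (fun k => ExtSt_d d k + ExtSt_d d' k) h) := by
  rcases hdd with h1 | h1
  · rw [h1]
    exact ExtSt_pair' hd h
  · have h2 : Γ.nxt d' ≠ d' := by
      intro h3
      rw [h3] at h1
      rw [h1, h3] at hd
      exact hd rfl
    have h3 := ExtSt_pair' h2 h
    rw [← h1] at h3
    have h4 : (fun k => ExtSt_d d k + ExtSt_d d' k) = fun k => ExtSt_d d' k + ExtSt_d d k := by
      funext k
      exact add_comm _ _
    rw [h4]
    exact h3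

open Classical in
/-- the invariant -/
structure ExtSt_I (Γ : Fat H) (l a : H) (ν : H → ℕ) (n : ℕ) : Prop where
  opp : ∀ h, ν (Γ.opp h) = ν h
  le : ∀ h, ν h ≤ n
  leaf : Γ.nxt a = a → a = l ∧ ∀ h, ν h = 0
  nonleaf : Γ.nxt a ≠ a → ∀ h, Γ.nxt h = h → ν h = if h = l then 1 else 0
  par : ∀ h, Γ.nxt h ≠ h → Even (ExtSt_vs Γ (fun k => ν k + ExtSt_d a k) h)

lemma ExtSt_base {l : H} (hl : Γ.nxt l = l) : ExtSt_I Γ l l (fun _ => 0) 0 where
  opp _ := rfl
  le _ := le_rfl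
  leaf _ := ⟨rfl, fun _ => rfl⟩
  nonleaf h := absurd hl h
  par h hh := by
    have m1 : h ≠ l := by rintro rfl; exact hh hl
    have m2 : Γ.nxt h ≠ l := fun h1 => m1 (ExtSt_inj (h1.trans hl.symm))
    have m3 : Γ.nxt (Γ.nxt h) ≠ l := fun h1 => m2 (ExtSt_inj (h1.trans hl.symm))
    unfold ExtSt_vs
    dsimp only
    rw [ExtSt_ne m1, ExtSt_ne m2, ExtSt_ne m3]
    exact ⟨0, rfl⟩

lemma ExtSt_bounce {l a b : H} {ν : H → ℕ} {n : ℕ} (I : ExtSt_I Γ l a ν n) (ha : Γ.nxt a ≠ a)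
    (hab : b = Γ.nxt a ∨ a = Γ.nxt b) : ExtSt_I Γ l b ν (n + 1) where
  opp := I.opp
  le h := (I.le h).trans (Nat.le_succ n)
  leaf h := by
    exfalso
    rcases hab with h1 | h1
    · rw [h1] at h
      exact ExtSt_nl ha h
    · rw [h] at h1
      rw [h1] at ha
      exact ha h
  nonleaf _ := I.nonleaf ha
  par h hh := by
    have h1 := I.par h hh
    have h2 := ExtSt_pair ha hab h
    unfold ExtSt_vs at h1 h2 ⊢
    dsimp only at h1 h2 ⊢
    rw [Nat.even_iff] at h1 h2 ⊢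
    omega

lemma ExtSt_bump (a : H) (ν : H → ℕ) (k : H) :
    bump Γ a ν k = ν k + ExtSt_d a k + ExtSt_d (Γ.opp a) k := by
  unfold bump
  by_cases h1 : k = a
  · have h2 : k ≠ Γ.opp a := by rw [h1]; exact (Γ.opp_ne a).symm
    rw [if_pos (Or.inl h1), ExtSt_ne h2, h1, ExtSt_eq]
  · by_cases h2 : k = Γ.opp a
    · rw [if_pos (Or.inr h2), ExtSt_ne h1, h2, ExtSt_eq]
    · rw [if_neg (by rintro (h3 | h3); exacts [h1 h3, h2 h3]), ExtSt_ne h1, ExtSt_ne h2,
        add_zero, add_zero]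

open Classical in
lemma ExtSt_dopp (a h : H) : ExtSt_d a (Γ.opp h) = ExtSt_d (Γ.opp a) h := by
  unfold ExtSt_d
  refine if_congr ⟨fun h2 => ?_, fun h2 => ?_⟩ rfl rfl
  · rw [← h2, Γ.opp_opp]
  · rw [h2, Γ.opp_opp]

lemma ExtSt_trav {l a b : H} {ν : H → ℕ} {n : ℕ} (I : ExtSt_I Γ l a ν n)
    (ha : Γ.nxt (Γ.opp a) ≠ Γ.opp a) (hab : b = Γ.nxt (Γ.opp a) ∨ Γ.opp a = Γ.nxt b) :
    ExtSt_I Γ l b (bump Γ a ν) (n + 1) where
  opp h := by
    rw [ExtSt_bump, ExtSt_bump, I.opp]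
    have h1 : ExtSt_d a (Γ.opp h) = ExtSt_d (Γ.opp a) h := ExtSt_dopp a h
    have h2 : ExtSt_d (Γ.opp a) (Γ.opp h) = ExtSt_d a h := by
      rw [ExtSt_dopp, Γ.opp_opp]
    rw [h1, h2]
    ring
  le h := by
    have h1 := I.le h
    unfold bump
    split_ifs
    · omega
    · omega
  leaf h := by
    exfalso
    rcases hab with h1 | h1
    · rw [h1] at h
      exact ExtSt_nl ha h
    · rw [h] at h1
      rw [h1] at ha
      exact ha h
  nonleaf _ h hh := by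
    have m2 : h ≠ Γ.opp a := by rintro rfl; exact ha hh
    by_cases h1 : Γ.nxt a = a
    · obtain ⟨h2, h3⟩ := I.leaf h1
      rw [ExtSt_bump, h3, ExtSt_ne m2, h2, ExtSt_d, zero_add, add_zero]
    · have m1 : h ≠ a := by rintro rfl; exact h1 hh
      rw [ExtSt_bump, ExtSt_ne m1, ExtSt_ne m2]
      exact I.nonleaf h1 h hh
  par h hh := by
    have h1 := I.par h hh
    have h2 := ExtSt_pair ha hab h
    unfold ExtSt_vs at h1 h2 ⊢
    dsimp only at h1 h2 ⊢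
    rw [Nat.even_iff] at h1 h2 ⊢
    simp only [ExtSt_bump]
    omega

lemma ExtSt_inv {l : H} (hl : Γ.nxt l = l) {a : H} {σ : Bool} {k : ℤ} (ρ : Red Γ l a σ k) :
    ExtSt_I Γ l a ρ.nu ρ.len := by
  induction ρ with
  | base => exact ExtSt_base hl
  | up w hk ih => exact ih
  | dn w hk ih => exact ih
  | @ccw a σ k w hl' hb ih =>
    cases σ
    · exact ExtSt_trav ih hl' (Or.inl rfl)
    · exact ExtSt_bounce ih hl' (Or.inl rfl)
  | @cw a b σ k w hq hl' hb ih =>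
    cases σ
    · have h1 : a = Γ.nxt b := by
        have h2 : Γ.opp a = Γ.opp (Γ.nxt b) := hq
        rw [← Γ.opp_opp a, h2, Γ.opp_opp]
      refine ExtSt_bounce ih ?_ (Or.inr h1)
      rw [h1]
      exact ExtSt_nl hl'
    · have h1 : Γ.opp a = Γ.nxt b := by
        have h2 : a = Γ.opp (Γ.nxt b) := hq
        rw [h2, Γ.opp_opp]
      refine ExtSt_trav ih ?_ (Or.inr h1)
      rw [h1]
      exact ExtSt_nl hl'

open Classical in
lemma ExtSt_main {l a p : H} {ν : H → ℕ} {n : ℕ} (I : ExtSt_I Γ l a ν n)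
    (hp : p = a ∨ p = Γ.opp a) {t r u : ℕ} (ht : Even t) (h1 : 2 * n + 6 ≤ t)
    (h2 : 3 * (t + n + 2) + 4 ≤ 2 * r)
    (hu : u = t + ν a + 1 ∨ (u + 1 = t + ν a ∧ Γ.nxt a ≠ a)) :
    IsSt Γ r (colour l t) p (fun h => if h = a then u else t + ν h) := by
  have hna := I.le a
  have hb : ∀ h, t ≤ (if h = a then u else t + ν h) + 1 ∧
      (if h = a then u else t + ν h) ≤ t + n + 1 := by
    intro h
    have h3 := I.le h
    split_ifs
    · omega
    · omega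
  have hpar : ∀ h, ((if h = a then u else t + ν h) + t + ν h + ExtSt_d a h) % 2 = 0 := by
    intro h
    rw [Nat.even_iff] at ht
    by_cases h3 : h = a
    · rw [if_pos h3, h3, ExtSt_eq]
      omega
    · rw [if_neg h3, ExtSt_ne h3]
      omega
  refine ⟨?_, ?_, ?_, ?_, ?_⟩
  · intro h
    have h3 := hb h
    dsimp only
    omega
  · intro h hh
    dsimp only
    unfold colour
    by_cases h3 : h = a
    · rw [if_pos h3]
      rw [h3] at hh
      obtain ⟨h4, h5⟩ := I.leaf hh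
      rw [h3, if_pos h4]
      rcases hu with hu | hu
      · rw [hu, h5]
      · exact absurd hh hu.2
    · rw [if_neg h3]
      by_cases h4 : Γ.nxt a = a
      · obtain ⟨h5, h6⟩ := I.leaf h4
        rw [if_neg (fun h7 => h3 (h7.trans h5.symm)), h6, add_zero]
      · rw [I.nonleaf h4 h hh]
        split_ifs
        · rfl
        · rfl
  · intro h hh
    have h3 := hb h
    have h4 := hb (Γ.nxt h)
    have h5 := hb (Γ.nxt (Γ.nxt h))
    have p1 := I.par h hh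
    have p2 := hpar h
    have p3 := hpar (Γ.nxt h)
    have p4 := hpar (Γ.nxt (Γ.nxt h))
    unfold ExtSt_vs at p1
    dsimp only at p1 ⊢
    rw [Nat.even_iff] at p1 ht
    refine ⟨?_, ?_, ?_, ?_, ?_⟩
    · rw [Nat.even_iff]
      omega
    · omega
    · omega
    · omega
    · omega
  · intro h k1 k2
    have m1 : h ≠ a := by
      rcases hp with hp | hp
      · rw [← hp]; exact k1
      · rw [hp, Γ.opp_opp] at k2; exact k2
    have m2 : Γ.opp h ≠ a := by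
      intro h3
      have h4 : h = Γ.opp a := by rw [← h3, Γ.opp_opp]
      rcases hp with hp | hp
      · rw [hp] at k2; exact k2 h4
      · rw [hp] at k1; exact k1 h4
    dsimp only
    rw [if_neg m1, if_neg m2, I.opp]
  · have h3 : (u = t + ν (Γ.opp a) + 1) ∨ (t + ν (Γ.opp a) = u + 1) := by
      rw [I.opp]
      omega
    dsimp only
    rcases hp with hp | hp
    · rw [hp, if_pos rfl, if_neg (Γ.opp_ne a)]
      exact h3
    · rw [hp, Γ.opp_opp, if_pos rfl, if_neg (Γ.opp_ne a)]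
      exact h3.symm

end

theorem thm_ExtSt : St_ExtSt := by
  intro H _ Γ l hl a σ k ρ t r ht h1 h2
  have I := ExtSt_inv hl ρ
  have hp : pos Γ a σ = a ∨ pos Γ a σ = Γ.opp a := by
    cases σ
    · exact Or.inr rfl
    · exact Or.inl rfl
  refine ⟨?_, fun ha => ?_⟩
  · exact ExtSt_main I hp (u := t + ρ.nu a + 1) ht h1 h2 (Or.inl rfl)
  · exact ExtSt_main I hp (u := t + ρ.nu a - 1) ht h1 h2 (Or.inr ⟨by omega, ha⟩)

end Pool.Agent.AMS
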