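import Pool.Agent.AMS.St

/-!
# A closed path that is not null-homotopic is not scalar
-/

set_option autoImplicit false

namespace Pool.Agent.AMS

section

variable {H : Type} {Γ : Fat H}

theorem NonScal_inj {h h' : H} (e : Γ.nxt h = Γ.nxt h') : h = h' := by
  have h1 := Γ.nxt3 h
  rw [e, Γ.nxt3 h'] at h1
  exact h1.symm

theorem NonScal_flip {r : ℕ} {col : H → ℕ} {p : H} {c : H → ℕ} (h : IsSt Γ r col p c) :
    IsSt Γ r col (Γ.opp p) c := by
  obtain ⟨h1, h2, h3, h4, h5⟩ := h
  refine ⟨h1, h2, h3, ?_, ?_⟩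
  · intro k hk hk'
    rw [Γ.opp_opp] at hk'
    exact h4 k hk' hk
  · rw [Γ.opp_opp]
    exact h5.symm

theorem NonScal_cast {K : Type} [Field K] [Finite H] (r : ℕ) (col : H → ℕ) (A : K) {p q q' : H}
    (e : q' = q) (v : Path Γ p q') (c : St Γ r col q') (c' : St Γ r col q) (hc : c'.1 = c.1)
    (c₀ : St Γ r col p) :
    (e ▸ v : Path Γ p q).mat Γ r col A c' c₀ = v.mat Γ r col A c c₀ := by
  subst e
  have h1 : c' = c := Subtype.ext hc
  rw [h1]

theorem NonScal_nil {p q q' : H} (e : q' = q) (f : Path Γ p q) (v : Path Γ p q')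
    (hom : Hom Γ f (e ▸ v)) (g : Path Γ p q) (h : HEq v g) : Hom Γ f g := by
  subst e
  have h1 := eq_of_heq h
  subst h1
  exact hom

theorem NonScal_diag {K : Type} [Field K] [Finite H] {r : ℕ} {col : H → ℕ} {p q t : H}
    (M : Matrix (St Γ r col t) (St Γ r col q) K) (N : Matrix (St Γ r col q) (St Γ r col p) K)
    (c' : St Γ r col t) (c₁ : St Γ r col q) (c : St Γ r col p)
    (hM : ∀ c₂ : St Γ r col q, c₂.1 ≠ c'.1 → M c' c₂ = 0) (h1 : c₁.1 = c'.1) :
    (M * N) c' c = M c' c₁ * N c₁ c := by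
  rw [Matrix.mul_apply]
  refine Finset.sum_eq_single c₁ ?_ ?_
  · intro c₂ _ hne
    rw [hM c₂ (fun h => hne (Subtype.ext (h.trans h1.symm))), zero_mul]
  · intro h
    exact absurd (Finset.mem_univ _) h

theorem NonScal_tw {K : Type} [Field K] (A : K) (hA : A ≠ 0) (x x' : ℕ) : tw A x x' ≠ 0 := by
  unfold tw
  split_ifs
  · exact zpow_ne_zero _ hA
  · exact neg_ne_zero.2 (zpow_ne_zero _ hA)

/-- paths without turns -/
theorem NonScal_twist [Finite H] {l a : H} {σ : Bool} {k : ℤ} (ρ : Red Γ l a σ k)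
    (ha : Γ.nxt a = a) :
    a = l ∧ (σ = true ↔ Even k) ∧
      (k = 0 → HEq ρ.path (Path.nil : Path Γ l l)) ∧
      ∀ (K : Type) [Field K] (r : ℕ) (col : H → ℕ) (A : K), A ≠ 0 → ∀ (c : St Γ r col l)
        (c' : St Γ r col (pos Γ a σ)), c'.1 = c.1 →
        ρ.path.mat Γ r col A c' c = (tw A (c.1 (Γ.opp l)) (c.1 l)) ^ k := by
  induction ρ with
  | base =>
    refine ⟨rfl, by simp, ?_, ?_⟩
    · intro _
      exact HEq.rfl
    · intro K _ r col A hA c c' hc
      have h1 : c' = c := Subtype.ext hc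
      subst h1
      exact (Matrix.one_apply_eq (α := K) (c' : St Γ r col l)).trans (zpow_zero _).symm
  | up w hk ih =>
    rename_i a σ k
    obtain ⟨h1, h2, h3, h4⟩ := ih ha
    refine ⟨h1, ?_, ?_, ?_⟩
    · rw [Int.even_add_one, ← h2]
      cases σ <;> simp
    · intro h
      omega
    · intro K _ r col A hA c c' hc
      have ht := NonScal_tw A hA (c.1 (Γ.opp l)) (c.1 l)
      subst h1
      cases σ with
      | false =>
        have hst : IsSt Γ r col (pos Γ a false) c.1 := NonScal_flip c.2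
        have h5 := h4 K r col A hA c ⟨c.1, hst⟩ rfl
        refine (NonScal_diag (q := pos Γ a false) (t := pos Γ a true)
          ((Step.cross a (pos Γ a false) true rfl : Step Γ (pos Γ a false) a).mat Γ r col A)
          (w.path.mat Γ r col A) c' ⟨c.1, hst⟩ c ?_ hc.symm).trans ?_
        swap
        rw [h5, zpow_add_one₀ ht, mul_comm]
        · congr 1
          exact if_pos hc
        · intro c₂ hne
          have : ¬ c'.1 = c₂.1 := fun h => hne h.symm
          exact if_neg this
      | true =>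
        have h5 := h4 K r col A hA c c rfl
        refine (NonScal_diag (q := pos Γ a true) (t := pos Γ a false)
          ((Step.cross a (pos Γ a false) false rfl : Step Γ (pos Γ a false) a).mat' Γ r col A)
          (w.path.mat Γ r col A) c' c c ?_ hc.symm).trans ?_
        swap
        rw [h5, zpow_add_one₀ ht, mul_comm]
        · congr 1
          exact if_pos hc
        · intro c₂ hne
          have : ¬ c'.1 = c₂.1 := fun h => hne h.symm
          exact if_neg this
  | dn w hk ih =>
    rename_i a σ k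
    obtain ⟨h1, h2, h3, h4⟩ := ih ha
    refine ⟨h1, ?_, ?_, ?_⟩
    · rw [Int.even_sub_one, ← h2]
      cases σ <;> simp
    · intro h
      omega
    · intro K _ r col A hA c c' hc
      have ht := NonScal_tw A hA (c.1 (Γ.opp l)) (c.1 l)
      subst h1
      cases σ with
      | false =>
        have hst : IsSt Γ r col (pos Γ a false) c.1 := NonScal_flip c.2
        have h5 := h4 K r col A hA c ⟨c.1, hst⟩ rfl
        refine (NonScal_diag (q := pos Γ a false) (t := pos Γ a true)
          ((Step.cross a (pos Γ a false) false rfl : Step Γ (pos Γ a false) a).mat Γ r col A)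
          (w.path.mat Γ r col A) c' ⟨c.1, hst⟩ c ?_ hc.symm).trans ?_
        swap
        rw [h5, zpow_sub_one₀ ht, mul_comm]
        · congr 1
          exact if_pos hc
        · intro c₂ hne
          have : ¬ c'.1 = c₂.1 := fun h => hne h.symm
          exact if_neg this
      | true =>
        have h5 := h4 K r col A hA c c rfl
        refine (NonScal_diag (q := pos Γ a true) (t := pos Γ a false)
          ((Step.cross a (pos Γ a false) true rfl : Step Γ (pos Γ a false) a).mat' Γ r col A)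
          (w.path.mat Γ r col A) c' c c ?_ hc.symm).trans ?_
        swap
        rw [h5, zpow_sub_one₀ ht, mul_comm]
        · congr 1
          exact if_pos hc
        · intro c₂ hne
          have : ¬ c'.1 = c₂.1 := fun h => hne h.symm
          exact if_neg this
  | ccw w hl hb ih =>
    exact absurd (NonScal_inj ha) hl
  | cw w hq hl hb ih =>
    exact absurd ha hl

open Classical in
/-- the initial states: `x` at the other end of the leaf -/
noncomputable def NonScal_g (Γ : Fat H) (l : H) (t x : ℕ) : H → ℕ :=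
  fun h => if h = l then t + 1 else if h = Γ.opp l then x else t

theorem NonScal_g_st {l : H} (hl : Γ.nxt l = l) (t x r : ℕ) (ht : Even t) (ht2 : 2 ≤ t)
    (hx : x = t ∨ x = t + 2) (hr : 3 * (t + 2) + 4 ≤ 2 * r) :
    IsSt Γ r (colour l t) l (NonScal_g Γ l t x) := by
  have hol : Γ.opp l ≠ l := Γ.opp_ne l
  have hval : ∀ h, h ≠ l → NonScal_g Γ l t x h = t ∨ NonScal_g Γ l t x h = t + 2 := by
    intro h hh
    unfold NonScal_g
    rw [if_neg hh]
    split_ifs
    · exact hx
    · exact Or.inl rfl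
  refine ⟨?_, ?_, ?_, ?_, ?_⟩
  · intro h
    unfold NonScal_g
    split_ifs
    · omega
    · omega
    · omega
  · intro h hh
    unfold NonScal_g colour
    by_cases h1 : h = l
    · rw [if_pos h1, if_pos h1]
    · rw [if_neg h1, if_neg h1, if_neg]
      rintro rfl
      exact Γ.leaf_opp l hl hh
  · intro h hh
    have h1 : h ≠ l := by
      rintro rfl
      exact hh hl
    have h2 : Γ.nxt h ≠ l := by
      intro e
      apply hh
      apply NonScal_inj
      rw [e, hl]
    have h3 : Γ.nxt (Γ.nxt h) ≠ l := by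
      intro e
      apply h2
      apply NonScal_inj
      rw [e, hl]
    obtain ⟨u, rfl⟩ := ht
    rcases hval _ h1 with e1 | e1 <;> rcases hval _ h2 with e2 | e2 <;>
      rcases hval _ h3 with e3 | e3 <;> rw [e1, e2, e3] <;> refine ⟨?_, ?_, ?_, ?_, ?_⟩ <;>
      first
        | omega
        | (rw [Nat.even_iff]; omega)
  · intro h h1 h2
    unfold NonScal_g
    rw [if_neg, if_neg, if_neg h1, if_neg h2]
    · intro e
      apply h1
      rw [← Γ.opp_opp h, e, Γ.opp_opp]
    · intro e
      apply h2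
      rw [← e, Γ.opp_opp]
  · unfold NonScal_g
    rw [if_pos rfl, if_neg hol, if_pos rfl]
    omega

theorem NonScal_g_eq (l : H) (t : ℕ) : NonScal_g Γ l t t = colour l t := by
  funext h
  unfold NonScal_g colour
  split_ifs <;> rfl

end

theorem thm_NonScal (hH : St_Hom) (hR : St_Redn) (hS : St_ExtSt) (hE : St_Ext) (hC : St_Cone)
    (hL : St_LPo) : St_NonScal := by
  intro H _ Γ l hl f hf
  obtain ⟨a, σ, k, ρ, e, hom⟩ := hR H Γ l hl l f
  by_cases ha : Γ.nxt a = a
  · -- no turns
    obtain ⟨ra, rσ, r0, rmat⟩ := NonScal_twist ρ ha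
    have hσ : σ = true := by
      cases σ with
      | true => rfl
      | false =>
        exfalso
        rw [ra] at e
        exact Γ.opp_ne l e
    have hke : Even k := rσ.1 hσ
    have hk0 : k ≠ 0 := by
      intro h0
      exact hf (NonScal_nil e f ρ.path hom .nil (r0 h0))
    refine ⟨2, fun t ht hte => ⟨(2 * t + 4) * k.natAbs + 3 * (t + 2) + 4, fun r hr A hA z hz => ?_⟩⟩
    have hr2 : 2 ≤ r := by omega
    have hA0 : A ≠ 0 := hA.ne_zero (by omega)
    obtain ⟨u, hu0, hu⟩ := hH H Γ r hr2 (colour l t) A hA l l f _ hom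
    rw [hz] at hu
    have hent : ∀ x : ℕ, (x = t ∨ x = t + 2) → z = u * (tw A x (t + 1)) ^ k := by
      intro x hx
      have hst := NonScal_g_st (Γ := Γ) hl t x r hte ht hx (by omega)
      have hst' : IsSt Γ r (colour l t) (pos Γ a σ) (NonScal_g Γ l t x) := by
        rw [e]
        exact hst
      obtain ⟨cx, hcx⟩ : ∃ c : St Γ r (colour l t) l, c.1 = NonScal_g Γ l t x := ⟨⟨_, hst⟩, rfl⟩
      obtain ⟨cy, hcy⟩ : ∃ c : St Γ r (colour l t) (pos Γ a σ), c.1 = NonScal_g Γ l t x :=
        ⟨⟨_, hst'⟩, rfl⟩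
      have h1 := Matrix.ext_iff.2 hu cx cx
      rw [Matrix.smul_apply, Matrix.smul_apply, Matrix.one_apply_eq,
        NonScal_cast r (colour l t) A e ρ.path cy cx (hcx.trans hcy.symm) cx,
        rmat ℂ r (colour l t) A hA0 cx cy (hcy.trans hcx.symm), hcx] at h1
      have e1 : NonScal_g Γ l t x (Γ.opp l) = x := by
        unfold NonScal_g
        rw [if_neg (Γ.opp_ne l), if_pos rfl]
      have e2 : NonScal_g Γ l t x l = t + 1 := by
        unfold NonScal_g
        rw [if_pos rfl]
      simp only [e1, e2, smul_eq_mul, mul_one] at h1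
      exact h1
    have h1 := hent t (Or.inl rfl)
    have h2 := hent (t + 2) (Or.inr rfl)
    have h3 : (tw A t (t + 1)) ^ k = (tw A (t + 2) (t + 1)) ^ k := by
      apply mul_left_cancel₀ hu0
      rw [← h1, ← h2]
    have h4 : tw A t (t + 1) = A ^ (-(t : ℤ)) := by
      unfold tw
      rw [if_pos rfl]
    have h5 : tw A (t + 2) (t + 1) = -A ^ ((t : ℤ) + 4) := by
      unfold tw
      rw [if_neg (by omega)]
      have e1 : (((t + 2 : ℕ) : ℤ) + 2) = (t : ℤ) + 4 := by
        push_cast
        ring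
      rw [e1]
    rw [h4, h5, hke.neg_zpow, ← zpow_mul, ← zpow_mul] at h3
    have h6 : A ^ ((2 * (t : ℤ) + 4) * k) = 1 := by
      have e1 : (2 * (t : ℤ) + 4) * k = ((t : ℤ) + 4) * k - -(t : ℤ) * k := by ring
      rw [e1, zpow_sub₀ hA0, ← h3, div_self (zpow_ne_zero _ hA0)]
    rw [hA.zpow_eq_one_iff_dvd] at h6
    have h7 : (4 * r) ∣ ((2 * (t : ℤ) + 4) * k).natAbs := by
      exact_mod_cast Int.natCast_dvd.1 h6
    rw [Int.natAbs_mul] at h7
    have h8 : (2 * (t : ℤ) + 4).natAbs = 2 * t + 4 := by omega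
    rw [h8] at h7
    have h9 : 0 < k.natAbs := Int.natAbs_pos.2 hk0
    have h10 : 0 < (2 * t + 4) * k.natAbs := Nat.mul_pos (by omega) h9
    have h11 := Nat.le_of_dvd h10 h7
    omega
  · -- at least one turn
    obtain ⟨t₀, ht₀⟩ := hC H Γ l hl a σ k ρ
    have hal : a ≠ l := by
      rintro rfl
      exact ha hl
    refine ⟨max t₀ (2 * ρ.len + 6), fun t ht hte => ?_⟩
    have htt : t₀ ≤ t := (le_max_left _ _).trans ht
    have htl : 2 * ρ.len + 6 ≤ t := (le_max_right _ _).trans ht
    obtain ⟨r₀, hr₀⟩ := hL H Γ l a σ k ρ t (ht₀ t htt)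
    refine ⟨max r₀ (3 * (t + ρ.len + 2) + 4), fun r hr A hA z hz => ?_⟩
    have hrr : r₀ ≤ r := (le_max_left _ _).trans hr
    have hrl : 3 * (t + ρ.len + 2) + 4 ≤ r := (le_max_right _ _).trans hr
    obtain ⟨u, hu0, hu⟩ := hH H Γ r (by omega) (colour l t) A hA l l f _ hom
    rw [hz] at hu
    have hst₀ : IsSt Γ r (colour l t) l (colour l t) := by
      rw [← NonScal_g_eq (Γ := Γ) l t]
      have h1 := NonScal_g_st (Γ := Γ) hl t t r hte (by omega) (Or.inl rfl) (by omega)
      rw [NonScal_g_eq] at h1 ⊢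
      exact h1
    have hst' := (hS H Γ l hl a σ k ρ t r hte htl (by omega)).1
    have hgen : ∀ q, pos Γ a σ = q → IsSt Γ r (colour l t) q (ρ.ext t true) := by
      intro q hq
      subst hq
      exact hst'
    have hst : IsSt Γ r (colour l t) l (ρ.ext t true) := hgen l e
    obtain ⟨c₀, hc₀⟩ : ∃ c : St Γ r (colour l t) l, c.1 = colour l t := ⟨⟨_, hst₀⟩, rfl⟩
    obtain ⟨cx, hcx⟩ : ∃ c : St Γ r (colour l t) l, c.1 = ρ.ext t true := ⟨⟨_, hst⟩, rfl⟩
    obtain ⟨cy, hcy⟩ : ∃ c : St Γ r (colour l t) (pos Γ a σ), c.1 = ρ.ext t true :=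
      ⟨⟨_, hst'⟩, rfl⟩
    have hent := hE ℂ H Γ l hl a σ k ρ t r hte htl (by omega) A c₀ hc₀ true cy hcy
    rw [if_pos rfl] at hent
    have h1 := Matrix.ext_iff.2 hu cx c₀
    rw [Matrix.smul_apply, Matrix.smul_apply, Matrix.one_apply_ne,
      NonScal_cast r (colour l t) A e ρ.path cy cx (hcx.trans hcy.symm) c₀, hent,
      smul_zero, smul_eq_mul] at h1
    · exact mul_ne_zero hu0 (hr₀ r hrr A hA) h1.symm
    · intro h2
      have h3 := congrFun (hcx.symm.trans ((congrArg Subtype.val h2).trans hc₀)) a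
      simp only [Red.ext, colour, if_neg hal, if_true] at h3
      omega

end Pool.Agent.AMS
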