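import Pool.Agent.AMS.NB
import Pool.Agent.AMS.NonScal

/-!
# AMS (FNN): pushes in the kernel of filling a boundary component, the theorem
-/

set_option autoImplicit false

namespace Pool.Agent.AMS

/-! ### Paths -/

section path

variable {H : Type} {Γ : Fat H}

theorem FinN_hom_append {p q t : H} {w w' : Path Γ p q} (h : Hom Γ w w') (v : Path Γ q t) :
    Hom Γ (w.append v) (w'.append v) := by
  induction v with
  | nil => exact h
  | fwd v s ih => exact Hom.fwd s ih
  | bwd v s ih => exact Hom.bwd s ih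

theorem FinN_append_hom {p q t : H} (w : Path Γ p q) {v v' : Path Γ q t} (h : Hom Γ v v') :
    Hom Γ (w.append v) (w.append v') := by
  induction h with
  | refl v => exact Hom.refl _
  | symm _ ih => exact Hom.symm ih
  | trans _ _ ih ih' => exact Hom.trans ih ih'
  | fwd s _ ih => exact Hom.fwd s ih
  | bwd s _ ih => exact Hom.bwd s ih
  | fwd_bwd v s => exact Hom.fwd_bwd (w.append v) s
  | bwd_fwd v s => exact Hom.bwd_fwd (w.append v) s
  | opp v b hq hh => exact Hom.opp (w.append v) b hq hh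
  | vertex v b e₁ l₁ t₁ e₂ l₂ t₂ e₃ l₃ t₃ =>
    exact Hom.vertex (w.append v) b e₁ l₁ t₁ e₂ l₂ t₂ e₃ l₃ t₃

theorem FinN_hom_pow {p : H} {w w' : Path Γ p p} (h : Hom Γ w w') (n : ℕ) :
    Hom Γ (w.pow n) (w'.pow n) := by
  induction n with
  | zero => exact Hom.refl _
  | succ n ih => exact Hom.trans (FinN_hom_append ih w) (FinN_append_hom (w'.pow n) h)

/-- paths without turns -/
def FinN_nt {p : H} : {q : H} → Path Γ p q → Prop
  | _, .nil => True
  | _, .fwd w s => FinN_nt w ∧ s.ends = none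
  | _, .bwd w s => FinN_nt w ∧ s.ends = none

theorem FinN_nt_append {p q t : H} {w : Path Γ p q} (hw : FinN_nt w) {v : Path Γ q t}
    (hv : FinN_nt v) : FinN_nt (w.append v) := by
  induction v with
  | nil => exact hw
  | fwd v s ih => exact ⟨ih hv.1, hv.2⟩
  | bwd v s ih => exact ⟨ih hv.1, hv.2⟩

theorem FinN_nt_pow {p : H} {w : Path Γ p p} (hw : FinN_nt w) (n : ℕ) : FinN_nt (w.pow n) := by
  induction n with
  | zero => exact trivial
  | succ n ih => exact FinN_nt_append ih hw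

theorem FinN_trk {p q : H} {w : Path Γ p q} (hw : FinN_nt w) (b : H) : w.trk b = (b, 0) := by
  induction w with
  | nil => rfl
  | fwd w s ih =>
    simp only [Path.trk, hw.2]
    exact ih hw.1
  | bwd w s ih =>
    simp only [Path.trk, hw.2]
    exact ih hw.1

theorem FinN_red {l a : H} {σ : Bool} {k : ℤ} (ρ : Red Γ l a σ k) (ha : Γ.nxt a = a) :
    FinN_nt ρ.path := by
  induction ρ with
  | base => exact trivial
  | @up a σ k w hk ih =>
    cases σ
    · exact ⟨ih ha, rfl⟩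
    · exact ⟨ih ha, rfl⟩
  | @dn a σ k w hk ih =>
    cases σ
    · exact ⟨ih ha, rfl⟩
    · exact ⟨ih ha, rfl⟩
  | ccw w hl hb ih => exact absurd (NonScal_inj ha) hl
  | cw w hq hl hb ih => exact absurd ha hl

theorem FinN_nt_cast {p q q' : H} (e : q' = q) (v : Path Γ p q') (h : FinN_nt v) :
    FinN_nt (e ▸ v : Path Γ p q) := by
  subst e
  exact h

theorem FinN_crossings_cast {l q q' : H} (e : q' = q) (v : Path Γ l q') :
    crossings (e ▸ v : Path Γ l q) = crossings v := by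
  subst e
  rfl

theorem FinN_nu_opp {l a : H} {σ : Bool} {k : ℤ} (ρ : Red Γ l a σ k) (h : H) :
    ρ.nu (Γ.opp h) = ρ.nu h := by
  have hb : ∀ (a : H) (ν : H → ℕ), (∀ h, ν (Γ.opp h) = ν h) →
      ∀ h, bump Γ a ν (Γ.opp h) = bump Γ a ν h := by
    intro a ν hν h
    unfold bump
    have h1 : (Γ.opp h = a ∨ Γ.opp h = Γ.opp a) ↔ (h = a ∨ h = Γ.opp a) := by
      constructor
      · rintro (h1 | h1)
        · right
          rw [← h1, Γ.opp_opp]
        · left
          rw [← Γ.opp_opp h, h1, Γ.opp_opp]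
      · rintro (h1 | h1)
        · right
          rw [h1]
        · left
          rw [h1, Γ.opp_opp]
    by_cases h2 : h = a ∨ h = Γ.opp a
    · rw [if_pos h2, if_pos (h1.2 h2), hν]
    · rw [if_neg h2, if_neg (fun h3 => h2 (h1.1 h3)), hν]
  induction ρ generalizing h with
  | base => rfl
  | up w hk ih => exact ih h
  | dn w hk ih => exact ih h
  | @ccw a σ k w hl hb' ih =>
    cases σ
    · exact hb a w.nu ih h
    · exact ih h
  | @cw a b σ k w hq hl hb' ih =>
    cases σ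
    · exact ih h
    · exact hb a w.nu ih h

theorem FinN_null {l : H} (hl : Γ.nxt l = l) {p : H} {γ : Path Γ p p} (h : NullL Γ l γ) :
    Null Γ γ := by
  induction h with
  | nil => exact Null.nil
  | loop w => exact Null.loop l hl w
  | mul _ _ ih ih' => exact Null.mul ih ih'
  | inv _ ih => exact Null.inv ih

theorem FinN_mat_pow (hA : St_App) {K : Type} [Field K] [Finite H] (r : ℕ) (col : H → ℕ) (A : K)
    {p : H} (w : Path Γ p p) (n : ℕ) : (w.pow n).mat Γ r col A = w.mat Γ r col A ^ n := by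
  induction n with
  | zero => exact (pow_zero _).symm
  | succ n ih =>
    have h1 := hA.1 K H Γ r col A p p p (w.pow n) w
    rw [pow_succ', ← ih]
    exact h1

end path

/-! ### Matrices -/

section matrix

theorem FinN_monic {K : Type} [Field K] (S : Finset ℤ) (A : K) : (prodA S A).Monic :=
  Polynomial.monic_prod_of_monic _ _ fun _ _ => Polynomial.monic_X_sub_C _

theorem FinN_deg {K : Type} [Field K] (S : Finset ℤ) (A : K) :
    (prodA S A).natDegree = S.card := by
  unfold prodA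
  rw [Polynomial.natDegree_prod_of_monic _ _ fun _ _ => Polynomial.monic_X_sub_C _]
  simp

/-- powers of a matrix move a vector at most as far as the matrix does, if a polynomial of degree
at most two in the matrix kills the vector -/
theorem FinN_div {n K : Type} [Fintype n] [DecidableEq n] [Field K] (U : Matrix n n K)
    (p : Polynomial K) (hp : p.Monic) (hd : p.natDegree ≤ 2) (c₀ c₁ : n) (hne : c₁ ≠ c₀)
    (hz : ∀ c, (Polynomial.aeval U p) c c₀ = 0) (h1 : U c₁ c₀ = 0) (N : ℕ) :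
    (U ^ N) c₁ c₀ = 0 := by
  have e1 := Polynomial.modByMonic_add_div (Polynomial.X ^ N : Polynomial K) p
  have e2 : U ^ N = Polynomial.aeval U (Polynomial.X ^ N %ₘ p) +
      Polynomial.aeval U (Polynomial.X ^ N /ₘ p) * Polynomial.aeval U p := by
    have := congrArg (Polynomial.aeval U) e1
    rw [map_add, map_mul, map_pow, Polynomial.aeval_X] at this
    rw [← this, ← map_mul, ← map_mul, mul_comm p]
  have e3 : (Polynomial.aeval U (Polynomial.X ^ N /ₘ p) * Polynomial.aeval U p) c₁ c₀ = 0 := by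
    rw [Matrix.mul_apply]
    exact Finset.sum_eq_zero fun c _ => by rw [hz c, mul_zero]
  have hdeg : (Polynomial.X ^ N %ₘ p).natDegree ≤ 1 := by
    by_cases hp1 : p = 1
    · rw [hp1, Polynomial.modByMonic_one, Polynomial.natDegree_zero]
      exact Nat.zero_le _
    · have h2 := Polynomial.natDegree_modByMonic_lt (Polynomial.X ^ N : Polynomial K) hp hp1
      omega
  have e4 := Polynomial.eq_X_add_C_of_natDegree_le_one hdeg
  rw [e2, Matrix.add_apply, e3, add_zero, e4, map_add, map_mul, Polynomial.aeval_C,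
    Polynomial.aeval_X, Polynomial.aeval_C, Matrix.add_apply, Matrix.algebraMap_matrix_apply,
    if_neg hne, add_zero, ← Algebra.smul_def, Matrix.smul_apply, h1, smul_zero]

end matrix

/-! ### The dilations -/

section dil

variable {H : Type} [Fintype H] {Γ : Fat H} {φ : H → ℤ} {col : H → ℕ} {p : H}
  {K : Type} [Field K]

theorem FinN_dil_single (ω : K) (δ : GSt Γ φ col p) (a : K) :
    dil Γ φ col p ω (Finsupp.single δ a) = Finsupp.single δ (a * ω ^ slack Γ φ δ.1) := by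
  simp only [dil, Finsupp.linearCombination_single, Finsupp.smul_single, smul_eq_mul]

theorem FinN_dil_inv {ω : K} (hω : ω ≠ 0) :
    (dil Γ φ col p ω).comp (dil Γ φ col p ω⁻¹) = LinearMap.id := by
  refine Finsupp.lhom_ext fun δ a => ?_
  rw [LinearMap.comp_apply, FinN_dil_single, FinN_dil_single, LinearMap.id_apply, mul_assoc,
    ← mul_zpow, inv_mul_cancel₀ hω, one_zpow, mul_one]

theorem FinN_semi {V : Type} [AddCommGroup V] [Module K V] {D Us Ug : Module.End K V}
    (h : Us * D = D * Ug) (q : Polynomial K) :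
    Polynomial.aeval Us q * D = D * Polynomial.aeval Ug q := by
  have h1 : SemiconjBy D Ug Us := h.symm
  induction q using Polynomial.induction_on' with
  | add q r hq hr => rw [map_add, map_add, add_mul, mul_add, hq, hr]
  | monomial n a =>
    rw [Polynomial.aeval_monomial, Polynomial.aeval_monomial, mul_assoc, ← (h1.pow_right n).eq,
      ← mul_assoc, ← mul_assoc, Algebra.commutes]

/-- a polynomial relation for the scaled operator is the same as one for the generic operator -/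
theorem FinN_scl (hT : St_PathR) (hφ : IsFlow Γ φ) (w : Path Γ p p) {A τ ω : K} (hω : ω ≠ 0)
    (q : Polynomial K) :
    Polynomial.aeval (R := K) (A := Module.End K (GSt Γ φ col p →₀ K))
        (w.gop φ col (scl φ A τ ω)) q = 0 ↔
      Polynomial.aeval (R := K) (A := Module.End K (GSt Γ φ col p →₀ K))
        (w.gop φ col (gen φ A τ)) q = 0 := by
  have h1 := (hT H Γ φ hφ col p p w).2 K A τ ω hω
  have h2 := FinN_semi (K := K) (V := GSt Γ φ col p →₀ K) (D := dil Γ φ col p ω)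
    (Us := w.gop φ col (scl φ A τ ω)) (Ug := w.gop φ col (gen φ A τ)) h1 q
  have h3 : (dil Γ φ col p ω : Module.End K (GSt Γ φ col p →₀ K)) * dil Γ φ col p ω⁻¹ = 1 :=
    FinN_dil_inv hω
  have h4 : (dil Γ φ col p ω⁻¹ : Module.End K (GSt Γ φ col p →₀ K)) * dil Γ φ col p ω = 1 := by
    have := FinN_dil_inv (Γ := Γ) (φ := φ) (col := col) (p := p) (inv_ne_zero hω)
    rw [inv_inv] at this
    exact this
  constructor
  · intro h
    rw [h, zero_mul] at h2
    rw [← one_mul (Polynomial.aeval (R := K) (A := Module.End K (GSt Γ φ col p →₀ K))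
        (w.gop φ col (gen φ A τ)) q), ← h4, mul_assoc, ← h2, mul_zero]
  · intro h
    rw [h, mul_zero] at h2
    rw [← mul_one (Polynomial.aeval (R := K) (A := Module.End K (GSt Γ φ col p →₀ K))
        (w.gop φ col (scl φ A τ ω)) q), ← h3, ← mul_assoc, h2, zero_mul]

end dil

/-! ### The relation at all large levels -/

section rel

variable {H : Type} {Γ : Fat H}

/-- the start state -/
theorem FinN_start {φ : H → ℤ} {l : H} (hl : Γ.nxt l = l) {t : ℕ} (ht : Even t) :
    IsG Γ φ (colour l t) l fun h => (colour l t h : ℤ) := by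
  have hne : ∀ h, h ≠ l → ((colour l t h : ℕ) : ℤ) = t := by
    intro h hh
    unfold colour
    rw [if_neg hh]
  have hn : ∀ h, Γ.nxt h ≠ h → h ≠ l := by
    rintro h hh rfl
    exact hh hl
  have ht' : Even (t : ℤ) := by exact_mod_cast ht
  refine ⟨fun h _ => rfl, ?_, ?_, ?_, ?_⟩
  · intro h hh
    beta_reduce
    rw [hne h (hn h hh), hne _ (hn _ (NB_nl hh)), hne _ (hn _ (NB_nl (NB_nl hh)))]
    exact (ht'.add ht').add ht'
  · intro h hh _
    beta_reduce
    rw [hne h (hn h hh), hne _ (hn _ (NB_nl hh)), hne _ (hn _ (NB_nl (NB_nl hh)))]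
    omega
  · intro h h1 h2
    beta_reduce
    rw [hne h h1, hne]
    intro h3
    apply h2
    rw [← h3, Γ.opp_opp]
  · left
    beta_reduce
    rw [hne _ (Γ.opp_ne l)]
    unfold colour
    rw [if_pos rfl]
    push_cast
    ring

theorem FinN_A0 (r : ℕ) (hr : 2 ≤ r) : IsPrimitiveRoot (A0 r) (4 * r) := by
  have h := Complex.isPrimitiveRoot_exp (4 * r) (by omega)
  unfold A0
  push_cast at h
  exact h

theorem FinN_rel (hC : St_Cur) (hT : St_PathR) (hU : St_Up) (hD : St_Down) (hPo : St_Pol)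
    (hDN : St_DichN) (hRN : St_ResN) (hAl : St_AlgN) (hLf : St_Lift) [Fintype H] {φ : H → ℤ}
    (hφ : IsFlow Γ φ) {l : H} (hl : Γ.nxt l = l) {γ : Path Γ l l} (hγ : NullL Γ l γ) {t : ℕ}
    (ht : Even t) (htb : 6 * γ.size + 6 ≤ t)
    (hfin : ∀ r₀ : ℕ, ∃ r ≥ r₀, ∃ A : ℂ, IsPrimitiveRoot A (4 * r) ∧
      ∃ n : ℕ, 0 < n ∧ ∃ z : ℂ, γ.mat Γ r (colour l t) A ^ n = z • 1) :
    ∃ S : Finset ℤ, S.card ≤ 2 ∧ ∃ r₁ : ℕ, ∀ r ≥ r₁, ∀ A : ℂ, IsPrimitiveRoot A (4 * r) →
      ∀ c₀ : St Γ r (colour l t) l, c₀.1 = colour l t → ∀ c' : St Γ r (colour l t) l,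
        (Polynomial.aeval (γ.mat Γ r (colour l t) A) (prodA S A)) c' c₀ = 0 := by
  set col := colour l t with hcol
  have hcl : (col l : ℤ) = t + 1 := by
    rw [hcol]
    unfold colour
    rw [if_pos rfl]
    push_cast
    ring
  have hcne : ∀ h, h ≠ l → (col h : ℤ) = t := by
    intro h hh
    rw [hcol]
    unfold colour
    rw [if_neg hh]
  have hn : ∀ h, Γ.nxt h ≠ h → h ≠ l := by
    rintro h hh rfl
    exact hh hl
  obtain ⟨E, hE⟩ := hRN H Γ φ hφ col l hl l γ hγ
  set ε : ℤ := (E.map Prod.fst).sum with hε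
  obtain ⟨J₀, hJ₀⟩ := hDN H Γ col l γ (FinN_null hl hγ)
  set j₁ : ℤ := ε * (4 + 2 * (col l + 1)) with hj₁
  set j₂ : ℤ := ε * (4 - 2 * (col l + 1)) with hj₂
  set J : ℕ := max J₀ (max j₁.natAbs j₂.natAbs) with hJ
  have hJ1 : j₁.natAbs ≤ J := (le_max_left _ _).trans (le_max_right _ _)
  have hJ2 : j₂.natAbs ≤ J := (le_max_right _ _).trans (le_max_right _ _)
  obtain ⟨rD, hrD⟩ := hJ₀ J (le_max_left _ _)
  have hsub : ({j₁, j₂} : Finset ℤ) ⊆ Finset.Icc (-(J : ℤ)) J := by
    intro x hx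
    rw [Finset.mem_insert, Finset.mem_singleton] at hx
    rw [Finset.mem_Icc]
    rcases hx with rfl | rfl <;> omega
  -- the relation with many factors holds generically
  obtain ⟨F, -, hF⟩ := hPo H Γ φ col l γ (Finset.Icc (-(J : ℤ)) J)
  have hgen : ∀ (K : Type) [Field K] (B τ : K), Nondeg B τ →
      Polynomial.aeval (R := K) (A := Module.End K (GSt Γ φ col l →₀ K))
        (γ.gop φ col (gen φ B τ)) (prodA (Finset.Icc (-(J : ℤ)) J) B) = 0 := by
    intro K _ B τ hB
    rw [← (hF K B hB.1).2 (gen φ B τ)]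
    refine hU H Γ φ hφ col l l F A0 FinN_A0 ?_ K B τ hB
    intro R
    obtain ⟨r, hr, A, hA, n, hn0, z, hz⟩ := hfin (max R (max rD 2))
    have hr1 : R ≤ r := (le_max_left _ _).trans hr
    have hr2 : rD ≤ r := ((le_max_left _ _).trans (le_max_right _ _)).trans hr
    have hr3 : 2 ≤ r := ((le_max_right _ _).trans (le_max_right _ _)).trans hr
    refine ⟨r, hr1, ?_⟩
    rw [(hF ℂ (A0 r) ((FinN_A0 r hr3).ne_zero (by omega))).1 r]
    exact hrD r hr2 A hA n hn0 z hz
  -- the relation with two factors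
  have hst : IsG Γ φ col l fun h => (col h : ℤ) := FinN_start hl ht
  have hplace : ∀ (K : Type) [Field K] (P : Place K) (a : ℕ), 1 ≤ a →
      Polynomial.aeval (R := K) (A := Module.End K (GSt Γ φ col l →₀ K))
        (γ.gop φ col (gen φ (P.A a) P.T)) (prodA {j₁, j₂} (P.A a)) = 0 := by
    intro K _ P a ha
    have hnd : Nondeg (P.A a) P.T := (hC K P a ha 0 0).2.2.2.2.2
    have h1 := hgen K (P.A a) P.T hnd
    rw [← FinN_scl hT hφ γ P.hω0] at h1
    obtain ⟨h2, h3⟩ := hLf (GSt Γ φ col l) K P a ha (γ.gop φ col (scl φ (P.A a) P.T P.ω))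
      (xOp Γ φ col l l E) (fun i j => hE K P a ha i j) _ h1
    have h4 := hAl H Γ φ hφ col l hl ⟨_, hst⟩ (by
      change (col (Γ.opp l) : ℤ) = col l - 1
      rw [hcl, hcne _ (Γ.opp_ne l)]
      ring) E J h2 ε hε
    have h5 := h3 {j₁, j₂} hsub h4
    rw [FinN_scl hT hφ γ P.hω0] at h5
    exact h5
  obtain ⟨F', hF'1, hF'2⟩ := hPo H Γ φ col l γ {j₁, j₂}
  have hcard : ({j₁, j₂} : Finset ℤ).card ≤ 2 := Finset.card_le_two
  obtain ⟨r₁, hr₁⟩ := hD H Γ φ hφ col l l F' (2 * γ.size)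
    (fun x hx => (hF'1 x hx).trans (Nat.mul_le_mul_right _ hcard))
    (fun K _ P a ha => by
      have hnd : Nondeg (P.A a) P.T := (hC K P a ha 0 0).2.2.2.2.2
      rw [(hF'2 K (P.A a) hnd.1).2 (gen φ (P.A a) P.T)]
      exact hplace K P a ha)
    ⟨_, hst⟩
    (fun h _ => by
      change ((2 * γ.size : ℕ) : ℤ) + 1 ≤ col h
      by_cases hh : h = l
      · rw [hh, hcl]
        push_cast
        omega
      · rw [hcne h hh]
        push_cast
        omega)
    (fun h hh _ => by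
      change (col h : ℤ) + 3 * (((2 * γ.size : ℕ) : ℤ) + 1) ≤
        col (Γ.nxt h) + col (Γ.nxt (Γ.nxt h))
      rw [hcne h (hn h hh), hcne _ (hn _ (NB_nl hh)), hcne _ (hn _ (NB_nl (NB_nl hh)))]
      push_cast
      omega)
  refine ⟨{j₁, j₂}, hcard, max r₁ 1, fun r hr A hA c₀ hc₀ c' => ?_⟩
  have hr1 : r₁ ≤ r := (le_max_left _ _).trans hr
  have hr2 : 1 ≤ r := (le_max_right _ _).trans hr
  rw [← (hF'2 ℂ A (hA.ne_zero (by omega))).1 r]
  refine hr₁ r hr1 A hA c₀ (fun h => ?_) c'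
  rw [hc₀]

end rel

open Classical in
theorem thm_FinN (hC : St_Cur) (hT : St_PathR) (hU : St_Up) (hD : St_Down) (hPo : St_Pol)
    (hDN : St_DichN) (hRN : St_ResN) (hAl : St_AlgN) (hLf : St_Lift) (hSu : St_Sup) (hA : St_App)
    (hH : St_Hom) (hRd : St_Redn) (hS : St_ExtSt) (hE : St_Ext) (hCo : St_Cone) (hLP : St_LPo) :
    St_FinalN := by
  intro H _ Γ φ hφ l hl γ hγ hcr
  have : Fintype H := Fintype.ofFinite H
  obtain ⟨a₁, σ₁, k₁, ρ₁, e₁, hom₁⟩ := hRd H Γ l hl l γ
  -- the arrival half edge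
  have harr : ∀ (a : H) (σ : Bool), pos Γ a σ = l → Γ.nxt a ≠ a → a = Γ.opp l := by
    intro a σ e ha
    cases σ with
    | true =>
      have e' : a = l := e
      exact absurd (by rw [e']; exact hl) ha
    | false =>
      have e' : Γ.opp a = l := e
      rw [← e', Γ.opp_opp]
  have ha₁ : Γ.nxt a₁ ≠ a₁ := by
    intro ha
    have h1 := FinN_nt_cast e₁ ρ₁.path (FinN_red ρ₁ ha)
    obtain ⟨n, hn⟩ := hcr 0
    have h2 := hn _ (FinN_hom_pow hom₁.symm n)
    unfold crossings at h2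
    rw [FinN_trk (FinN_nt_pow h1 n)] at h2
    exact absurd h2 (lt_irrefl 0)
  have hal₁ := harr a₁ σ₁ e₁ ha₁
  obtain ⟨N, hN⟩ := hcr (crossings ρ₁.path)
  obtain ⟨a, σ, k, ρ, e, hom⟩ := hRd H Γ l hl l (γ.pow N)
  have hTT : crossings ρ₁.path < crossings ρ.path := by
    have := hN _ hom.symm
    rwa [FinN_crossings_cast] at this
  have ha : Γ.nxt a ≠ a := by
    intro ha
    have := ((hSu H Γ l hl a σ k ρ).2.2 ha).2
    omega
  have hal := harr a σ e ha
  have haa : a₁ = a := hal₁.trans hal.symm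
  subst haa
  have hne_l : a₁ ≠ l := by
    rw [hal₁]
    exact Γ.opp_ne l
  obtain ⟨tc, htc⟩ := hCo H Γ l hl a₁ σ k ρ
  refine ⟨max (max tc (6 * γ.size + 6)) (max (2 * ρ.len + 6) (2 * ρ₁.len + 6)),
    fun t ht hte => ?_⟩
  have t1 : tc ≤ t := ((le_max_left _ _).trans (le_max_left _ _)).trans ht
  have t2 : 6 * γ.size + 6 ≤ t := ((le_max_right _ _).trans (le_max_left _ _)).trans ht
  have t3 : 2 * ρ.len + 6 ≤ t := ((le_max_left _ _).trans (le_max_right _ _)).trans ht
  have t4 : 2 * ρ₁.len + 6 ≤ t := ((le_max_right _ _).trans (le_max_right _ _)).trans ht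
  by_contra hcon
  push Not at hcon
  obtain ⟨S, hSc, r₁, hr₁⟩ := FinN_rel hC hT hU hD hPo hDN hRN hAl hLf hφ hl hγ hte t2 hcon
  obtain ⟨r₂, hr₂⟩ := hLP H Γ l a₁ σ k ρ t (htc t t1)
  obtain ⟨r, s1, s2, s3⟩ : ∃ r : ℕ, r₁ ≤ r ∧ r₂ ≤ r ∧ 3 * (t + ρ.len + ρ₁.len + 2) + 4 ≤ r :=
    ⟨max (max r₁ r₂) (3 * (t + ρ.len + ρ₁.len + 2) + 4),
      (le_max_left _ _).trans (le_max_left _ _), (le_max_right _ _).trans (le_max_left _ _),
      le_max_right _ _⟩
  have hA0 := FinN_A0 r (by omega)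
  -- the states
  have hst₀ : IsSt Γ r (colour l t) l (colour l t) := by
    have h1 := NonScal_g_st (Γ := Γ) hl t t r hte (by omega) (Or.inl rfl) (by omega)
    rw [NonScal_g_eq] at h1
    exact h1
  have hst' := (hS H Γ l hl a₁ σ k ρ t r hte t3 (by omega)).1
  have hgen : ∀ q, pos Γ a₁ σ = q → IsSt Γ r (colour l t) q (ρ.ext t true) := by
    intro q hq
    subst hq
    exact hst'
  have hst : IsSt Γ r (colour l t) l (ρ.ext t true) := hgen l e
  have hgen' : ∀ q, q = l → IsSt Γ r (colour l t) q (ρ.ext t true) := by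
    intro q hq
    subst hq
    exact hst
  obtain ⟨c₀, hc₀⟩ : ∃ c : St Γ r (colour l t) l, c.1 = colour l t := ⟨⟨_, hst₀⟩, rfl⟩
  obtain ⟨cx, hcx⟩ : ∃ c : St Γ r (colour l t) l, c.1 = ρ.ext t true := ⟨⟨_, hst⟩, rfl⟩
  obtain ⟨cy, hcy⟩ : ∃ c : St Γ r (colour l t) (pos Γ a₁ σ), c.1 = ρ.ext t true :=
    ⟨⟨_, hst'⟩, rfl⟩
  obtain ⟨cz, hcz⟩ : ∃ c : St Γ r (colour l t) (pos Γ a₁ σ₁), c.1 = ρ.ext t true :=
    ⟨⟨_, hgen' _ e₁⟩, rfl⟩
  -- the power moves the start state
  have hent := hE ℂ H Γ l hl a₁ σ k ρ t r hte t3 (by omega) (A0 r) c₀ hc₀ true cy hcy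
  rw [if_pos rfl] at hent
  obtain ⟨u, hu0, hu⟩ := hH H Γ r (by omega) (colour l t) (A0 r) hA0 l l (γ.pow N) _ hom
  have h1 := Matrix.ext_iff.2 hu cx c₀
  rw [FinN_mat_pow hA, Matrix.smul_apply,
    NonScal_cast r (colour l t) (A0 r) e ρ.path cy cx (hcx.trans hcy.symm) c₀, hent,
    smul_eq_mul] at h1
  have h1' : (γ.mat Γ r (colour l t) (A0 r) ^ N) cx c₀ ≠ 0 := by
    rw [h1]
    exact mul_ne_zero hu0 (hr₂ r s2 (A0 r) hA0)
  -- the element itself does not
  have hz : ρ₁.path.mat Γ r (colour l t) (A0 r) cz c₀ = 0 := by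
    by_contra hnz
    have h2 := (hSu H Γ l hl a₁ σ₁ k₁ ρ₁).1 t r hte t4 (by omega) (A0 r) c₀ hc₀ cz hnz
    have h3 : (∑ h, if h = a₁ then cz.1 (Γ.opp a₁) else cz.1 h) = ∑ h, (t + ρ.nu h) := by
      refine Finset.sum_congr rfl fun h _ => ?_
      rw [hcz]
      by_cases hh : h = a₁
      · rw [if_pos hh, hh]
        unfold Red.ext
        rw [if_neg (Γ.opp_ne a₁), FinN_nu_opp]
      · rw [if_neg hh]
        unfold Red.ext
        rw [if_neg hh]
    have h4 := (hSu H Γ l hl a₁ σ₁ k₁ ρ₁).2.1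
    have h5 := (hSu H Γ l hl a₁ σ k ρ).2.1
    rw [h3, Finset.sum_add_distrib, Finset.sum_add_distrib, h4, h5] at h2
    omega
  obtain ⟨u', -, hu'⟩ := hH H Γ r (by omega) (colour l t) (A0 r) hA0 l l γ _ hom₁
  have h2 := Matrix.ext_iff.2 hu' cx c₀
  rw [Matrix.smul_apply,
    NonScal_cast r (colour l t) (A0 r) e₁ ρ₁.path cz cx (hcx.trans hcz.symm) c₀, hz,
    smul_zero] at h2
  have hne : cx ≠ c₀ := by
    intro h3
    have h4 := congrFun (hcx.symm.trans ((congrArg Subtype.val h3).trans hc₀)) a₁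
    simp only [Red.ext, colour, if_neg hne_l, if_true] at h4
    omega
  exact h1' (FinN_div _ (prodA S (A0 r)) (FinN_monic S _) (by rw [FinN_deg]; exact hSc) c₀ cx hne
    (hr₁ r s1 (A0 r) hA0 c₀ hc₀) h2 N)

end Pool.Agent.AMS
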