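import Pool.Agent.AMS.StP

set_option autoImplicit false

namespace Pool.Agent.AMS

theorem thm_FinP (hD : St_DichP) (hN : St_NonScal) : St_FinalP := by
  intro H _ Γ l hl f hf hne
  obtain ⟨t₀, ht₀⟩ := hN H Γ l hl f hne
  refine ⟨t₀, fun t ht hte => ?_⟩
  obtain ⟨r₀, hr₀⟩ := ht₀ t ht hte
  refine ⟨max r₀ 3, fun r hr hp A hA => ?_⟩
  have h0 := hr₀ r ((le_max_left _ _).trans hr) A hA
  rcases hD H Γ l f hf r hp ((le_max_right _ _).trans hr) A hA (colour l t) with h1 | h1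
  · exact absurd (h1.trans (one_smul ℂ _).symm) (h0 1)
  · exact h1

end Pool.Agent.AMS
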