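import Pool.Agent.AMS.NB

/-!
# AMS (GRL): inverse paths in the generic module (helper18)
-/

set_option autoImplicit false

namespace Pool.Agent.AMS

/-- A path which is the identity at all levels is the identity in the generic module. -/
theorem GRel1_core (hU : St_Up) {H : Type} [Finite H] {Γ : Fat H} {φ : H → ℤ}
    (hφ : IsFlow Γ φ) (col : H → ℕ) {K : Type} [Field K] {A τ : K} (hA : Nondeg A τ) {p : H}
    (u : Path Γ p p)
    (hu : ∀ r, 2 ≤ r → ∀ B : ℂ, IsPrimitiveRoot B (4 * r) → u.mat Γ r col B = 1) :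
    u.gop φ col (gen φ A τ) = LinearMap.id := by
  have hB : ∀ r : ℕ, 2 ≤ r →
      IsPrimitiveRoot (Complex.exp (2 * Real.pi * Complex.I / ((4 * r : ℕ) : ℂ))) (4 * r) :=
    fun r hr => Complex.isPrimitiveRoot_exp _ (by omega)
  have h1 := hU H Γ φ hφ col p p [(1, 0, u), (-1, 0, Path.nil)]
    (fun r => Complex.exp (2 * Real.pi * Complex.I / ((4 * r : ℕ) : ℂ))) hB (fun R => by
      refine ⟨max R 2, le_max_left _ _, ?_⟩
      have h2 := hu (max R 2) (le_max_right _ _) _ (hB _ (le_max_right _ _))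
      have h3 : (Path.nil : Path Γ p p).mat Γ (max R 2) col
          (Complex.exp (2 * Real.pi * Complex.I / ((4 * (max R 2) : ℕ) : ℂ))) = 1 := rfl
      simp only [FC.mat, List.map_cons, List.map_nil, List.sum_cons, List.sum_nil, zpow_zero,
        mul_one, h2, h3, Int.cast_one, one_smul, Int.cast_neg, neg_smul, add_zero,
        add_neg_cancel]) K A τ hA
  have h4 : (Path.nil : Path Γ p p).gop φ col (gen φ A τ) = LinearMap.id := rfl
  simp only [FC.gop, List.map_cons, List.map_nil, List.sum_cons, List.sum_nil, zpow_zero,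
    mul_one, h4, Int.cast_one, one_smul, Int.cast_neg, add_zero] at h1
  refine LinearMap.ext fun x => ?_
  have h5 := LinearMap.congr_fun h1 x
  rw [LinearMap.add_apply, LinearMap.smul_apply, LinearMap.zero_apply] at h5
  rw [neg_smul, one_smul] at h5
  exact add_neg_eq_zero.1 h5

theorem thm_GRel1 (hU : St_Up) (hA : St_App) : St_GRel1 := by
  intro H _ Γ φ hφ col K _ A τ hN p q w
  rw [← NB_append, ← NB_append]
  refine ⟨GRel1_core hU hφ col hN _ fun r hr B hB => ?_,
    GRel1_core hU hφ col hN _ fun r hr B hB => ?_⟩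
  · rw [hA.1]
    exact (hA.2 H Γ r hr col B hB p q w).1
  · rw [hA.1]
    exact (hA.2 H Γ r hr col B hB p q w).2

end Pool.Agent.AMS
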