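import Pool.Agent.AMS.NB

/-!
# AMS GRel2: inverse paths and the vertex relation for the residues
-/

set_option autoImplicit false

namespace Pool.Agent.AMS

/-- A closed path which is a scalar generically is the residue of this scalar for the residues. -/
theorem GRel2_key (hT : St_PathR) {H : Type} [Fintype H] {Γ : Fat H} {φ : H → ℤ}
    (hφ : IsFlow Γ φ) (col : H → ℕ) {K : Type} [Field K] (P : Place K) {p : H} (u : Path Γ p p)
    (c : K) (c0 : ℚ) (hc : P.Res c c0)
    (h : u.gop φ col (gen φ (P.A 1) P.T) = c • LinearMap.id) :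
    u.gop φ col (rsd φ) = c0 • LinearMap.id := by
  classical
  obtain ⟨h1, h2⟩ := hT H Γ φ hφ col p p u
  have h3 := h2 K (P.A 1) P.T P.ω P.hω0
  rw [h] at h3
  -- the scaled operator
  have h4 : ∀ δ : GSt Γ φ col p, u.gop φ col (scl φ (P.A 1) P.T P.ω) (Finsupp.single δ 1) =
      Finsupp.single δ c := by
    intro δ
    have h5 := LinearMap.congr_fun h3 (Finsupp.single δ 1)
    have h6 : dil Γ φ col p P.ω (Finsupp.single δ 1) =
        P.ω ^ slack Γ φ δ.1 • Finsupp.single δ 1 := by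
      unfold dil
      rw [Finsupp.linearCombination_single, one_smul, Finsupp.smul_single, smul_eq_mul, mul_one]
    rw [LinearMap.comp_apply, LinearMap.comp_apply, LinearMap.smul_apply, LinearMap.id_apply,
      map_smul, h6, map_smul, smul_comm c] at h5
    have h7 : P.ω ^ slack Γ φ δ.1 ≠ 0 := zpow_ne_zero _ P.hω0
    have h8 := smul_right_injective (GSt Γ φ col p →₀ K) h7 h5
    rw [h8, Finsupp.smul_single, smul_eq_mul, mul_one]
  refine Finsupp.lhom_ext' fun δ => LinearMap.ext_ring ?_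
  refine Finsupp.ext fun δ' => ?_
  have h9 := h1 K P 1 le_rfl δ δ'
  rw [h4 δ] at h9
  show (u.gop φ col (rsd φ) (Finsupp.single δ 1)) δ' = (c0 • (Finsupp.single δ (1 : ℚ))) δ'
  rw [Finsupp.smul_apply, smul_eq_mul]
  by_cases hδ : δ = δ'
  · subst hδ
    rw [Finsupp.single_eq_same] at h9 ⊢
    rw [mul_one]
    exact (NB_unique hc h9).symm
  · rw [Finsupp.single_eq_of_ne' hδ] at h9 ⊢
    rw [mul_zero]
    exact (NB_unique NB_zero h9).symm

theorem GRel2_prim (r : ℕ) (hr : 2 ≤ r) : IsPrimitiveRoot (A0 r) (4 * r) := by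
  have h := Complex.isPrimitiveRoot_exp (4 * r) (by omega)
  unfold A0
  have e : ((4 * r : ℕ) : ℂ) = 4 * r := by push_cast; ring
  rwa [e] at h

theorem GRel2_resA {K : Type} [Field K] (P : Place K) : P.Res (-(P.A 1 ^ 3)) (-1) := by
  have h1 : P.Res (P.A 1) 1 := by
    have h := NB_add (P := P) NB_one (NB_mul (NB_nat 1) (NB_pow NB_om 5))
    have e : (1 : ℚ) + ((1 : ℕ) : ℚ) * 0 ^ 5 = 1 := by norm_num
    rw [e] at h
    exact h
  have h2 := NB_neg (NB_pow h1 3)
  rwa [one_pow] at h2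

/-- GRel2 -/
theorem thm_GRel2 (hP : St_Place) (hC : St_Cur) (hT : St_PathR) (hG : St_GRel1) (hU : St_Up)
    (hV : St_Vert) : St_GRel2 := by
  intro H _ Γ φ hφ col
  obtain ⟨K, _, ⟨P⟩⟩ := hP
  have hN : Nondeg (P.A 1) P.T := (hC K P 1 le_rfl 0 0).2.2.2.2.2
  constructor
  · intro p q w
    obtain ⟨h1, h2⟩ := hG H Γ φ hφ col K (P.A 1) P.T hN p q w
    constructor
    · have h3 := GRel2_key hT hφ col P (w.append w.inv) 1 1 NB_one (by
        rw [NB_append, h1, one_smul])
      rwa [NB_append, one_smul] at h3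
    · have h3 := GRel2_key hT hφ col P (w.inv.append w) 1 1 NB_one (by
        rw [NB_append, h2, one_smul])
      rwa [NB_append, one_smul] at h3
  · intro q h₁ h₂ h₃ q₁ q₂ e₁ l₁ t₁ e₂ l₂ t₂ e₃ l₃ t₃
    set V : Path Γ q q := (((((Path.nil.fwd (.cross h₁ q true e₁)).fwd (.turn h₁ q₁ l₁ t₁)).fwd
        (.cross h₂ q₁ true e₂)).fwd (.turn h₂ q₂ l₂ t₂)).fwd (.cross h₃ q₂ true e₃)).fwd
        (.turn h₃ q l₃ t₃) with hVd
    have h1 := hU H Γ φ hφ col q q [(1, 0, V), (1, 3, Path.nil)] A0 GRel2_prim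
      (fun R => ⟨max R 2, le_max_left _ _, ?_⟩) K (P.A 1) P.T hN
    · have h2 : V.gop φ col (gen φ (P.A 1) P.T) = (-(P.A 1 ^ 3)) • LinearMap.id := by
        unfold FC.gop at h1
        simp only [List.map_cons, List.map_nil, List.sum_cons, List.sum_nil, add_zero,
          Int.cast_one, zpow_zero, mul_one, one_smul, one_mul] at h1
        refine LinearMap.ext fun x => ?_
        have h5 := LinearMap.congr_fun h1 x
        have h6 : V.gop φ col (gen φ (P.A 1) P.T) x + P.A 1 ^ 3 • x = 0 := by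
          exact_mod_cast h5
        show V.gop φ col (gen φ (P.A 1) P.T) x = (-(P.A 1 ^ 3)) • x
        rw [neg_smul]
        exact eq_neg_of_add_eq_zero_left h6
      have h3 := GRel2_key hT hφ col P V _ _ (GRel2_resA P) h2
      rw [h3]
      refine LinearMap.ext fun x => ?_
      show (-1 : ℚ) • x = -x
      rw [neg_smul, one_smul]
    · have h2 := hV H Γ (max R 2) (le_max_right _ _) col (A0 (max R 2))
        (GRel2_prim _ (le_max_right _ _)) true q h₁ h₂ h₃ q₁ q₂ e₁ l₁ t₁ e₂ l₂ t₂ e₃ l₃ t₃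
      rw [if_pos rfl] at h2
      have h3 : V.mat Γ (max R 2) col (A0 (max R 2)) = (-A0 (max R 2) ^ 3) • 1 := by
        rw [← h2, hVd]
        simp only [Path.mat, Matrix.mul_one]
      unfold FC.mat
      simp only [List.map_cons, List.map_nil, List.sum_cons, List.sum_nil, add_zero,
          Int.cast_one, zpow_zero, mul_one, one_smul, one_mul]
      rw [h3]
      simp only [Path.mat]
      rw [neg_smul, neg_add_eq_zero]
      rfl

end Pool.Agent.AMS
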