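import Pool.Agent.AMS.St

/-!
# (GAL) Galois conjugation
-/

namespace Pool.Agent.AMS

section

variable {K K' : Type} [Field K] [Field K']

private theorem Gal_cur (φ : K →+* K') (A : K) (n : ℤ) : φ (cur A n) = cur (φ A) n := by
  simp [cur, map_zpow₀]

private theorem Gal_coef (φ : K →+* K') (A : K) (x x' y y' z : ℕ) :
    φ (coef A x x' y y' z) = coef (φ A) x x' y y' z := by
  unfold coef
  split_ifs <;> simp [Gal_cur]

private theorem Gal_tw (φ : K →+* K') (A : K) (x x' : ℕ) :
    φ (tw A x x') = tw (φ A) x x' := by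
  unfold tw
  split_ifs <;> simp [map_zpow₀]

private theorem Gal_step (φ : K →+* K') {H : Type} (Γ : Fat H) (r : ℕ) (col : H → ℕ) (A : K)
    {q t : H} (s : Step Γ q t) : s.mat Γ r col (φ A) = (s.mat Γ r col A).map φ := by
  cases s with
  | turn h q hl hq =>
    ext c' c
    simp only [Step.mat, Matrix.of_apply, Matrix.map_apply]
    split_ifs
    · exact (Gal_coef φ A _ _ _ _ _).symm
    · simp
  | cross h q b hq =>
    ext c' c
    simp only [Step.mat, Matrix.of_apply, Matrix.map_apply]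
    split_ifs
    · exact (Gal_tw φ A _ _).symm
    · rw [map_inv₀, Gal_tw]
    · simp

private theorem Gal_step' (φ : K →+* K') {H : Type} (Γ : Fat H) (r : ℕ) (col : H → ℕ) (A : K)
    {q t : H} (s : Step Γ q t) : s.mat' Γ r col (φ A) = (s.mat' Γ r col A).map φ := by
  cases s with
  | turn h q hl hq =>
    ext c' c
    simp only [Step.mat', Matrix.of_apply, Matrix.map_apply]
    split_ifs
    · exact (Gal_coef φ A _ _ _ _ _).symm
    · simp
  | cross h q b hq =>
    ext c' c
    simp only [Step.mat', Matrix.of_apply, Matrix.map_apply]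
    split_ifs
    · rw [map_inv₀, Gal_tw]
    · exact (Gal_tw φ A _ _).symm
    · simp

/-- Path matrices commute with field homomorphisms. -/
theorem Gal_map (φ : K →+* K') {H : Type} [Finite H] (Γ : Fat H) (r : ℕ) (col : H → ℕ) (A : K)
    {p : H} {q : H} (w : Path Γ p q) :
    w.mat Γ r col (φ A) = (w.mat Γ r col A).map φ := by
  induction w with
  | nil =>
    simp only [Path.mat]
    rw [Matrix.map_one φ (map_zero φ) (map_one φ)]
  | fwd w s ih =>
    simp only [Path.mat]
    rw [ih, Gal_step, Matrix.map_mul]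
  | bwd w s ih =>
    simp only [Path.mat]
    rw [ih, Gal_step', Matrix.map_mul]

end

/-- A field with enough roots of unity and Galois actions. -/
private theorem Gal_core (L : ℕ) (hL : 0 < L) :
    ∃ (ι : AlgebraicClosure ℚ →+* ℂ),
      (∀ y : ℂ, y ^ L = 1 → ∃ x : AlgebraicClosure ℚ, x ^ L = 1 ∧ ι x = y) ∧
      ∀ s : ℕ, Nat.Coprime s L → ∃ σ : AlgebraicClosure ℚ →+* AlgebraicClosure ℚ,
        ∀ x : AlgebraicClosure ℚ, x ^ L = 1 → σ x = x ^ s := by
  have : NeZero L := ⟨hL.ne'⟩
  have : NeZero (L : ℚ) := ⟨by exact_mod_cast hL.ne'⟩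
  have halg : Algebra.IsAlgebraic ℚ (AlgebraicClosure ℚ) := AlgebraicClosure.isAlgebraic ℚ
  have hnor : Normal ℚ (AlgebraicClosure ℚ) :=
    normal_iff.2 fun x => ⟨(halg.isAlgebraic x).isIntegral, IsAlgClosed.splits _⟩
  obtain ⟨ζ, hζ⟩ := HasEnoughRootsOfUnity.exists_primitiveRoot (AlgebraicClosure ℚ) L
  let ι : AlgebraicClosure ℚ →ₐ[ℚ] ℂ := IsAlgClosed.lift
  have hιζ : IsPrimitiveRoot (ι ζ) L := hζ.map_of_injective ι.toRingHom.injective
  refine ⟨ι.toRingHom, ?_, ?_⟩
  · intro y hy
    obtain ⟨i, _, hi⟩ := hιζ.eq_pow_of_pow_eq_one hy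
    refine ⟨ζ ^ i, ?_, ?_⟩
    · rw [← pow_mul, mul_comm, pow_mul, hζ.pow_eq_one, one_pow]
    · show ι (ζ ^ i) = y
      rw [map_pow, hi]
  · intro s hs
    have hζs : IsPrimitiveRoot (ζ ^ s) L := hζ.pow_of_coprime s hs
    have hconj : IsConjRoot ℚ (ζ ^ s) ζ := by
      unfold IsConjRoot
      rw [← Polynomial.cyclotomic_eq_minpoly_rat hζs hL, ← Polynomial.cyclotomic_eq_minpoly_rat hζ hL]
    obtain ⟨σ, hσ⟩ := isConjRoot_iff_exists_algEquiv.1 hconj
    refine ⟨σ.toRingEquiv.toRingHom, ?_⟩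
    intro x hx
    obtain ⟨i, _, hi⟩ := hζ.eq_pow_of_pow_eq_one hx
    show σ x = x ^ s
    rw [← hi, map_pow, hσ, ← pow_mul, ← pow_mul, mul_comm]

theorem thm_Gal : St_Gal := by
  refine ⟨?_, ?_⟩
  · intro H _ Γ r hr col A A' hA hA' p f n z hz
    have h4r : 0 < 4 * r := by omega
    have : NeZero (4 * r) := ⟨h4r.ne'⟩
    rcases isEmpty_or_nonempty (St Γ r col p) with hemp | ⟨⟨c⟩⟩
    · exact ⟨1, Subsingleton.elim _ _, fun _ => rfl⟩
    obtain ⟨ι, hι1, hι2⟩ := Gal_core (4 * r) h4r
    obtain ⟨a, ha, rfl⟩ := hι1 A hA.pow_eq_one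
    obtain ⟨s, _, hs, hsA⟩ := (IsPrimitiveRoot.isPrimitiveRoot_iff hA).1 hA'
    obtain ⟨σ, hσ⟩ := hι2 s hs
    have hA'2 : A' = ι (σ a) := by
      rw [hσ a ha, map_pow, hsA]
    rw [Gal_map ι] at hz
    have hz1 : ((f.mat Γ r col a) ^ n).map ι = z • 1 := by
      rw [← hz]
      exact map_pow (RingHom.mapMatrix ι) _ _
    set w := ((f.mat Γ r col a) ^ n) c c with hw
    have hwz : ι w = z := by
      have := congrFun (congrFun hz1 c) c
      simpa using this
    have hpow : (f.mat Γ r col a) ^ n = w • (1 : Matrix _ _ (AlgebraicClosure ℚ)) := by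
      ext i j
      apply ι.injective
      have := congrFun (congrFun hz1 i) j
      rw [Matrix.map_apply] at this
      rw [this, ← hwz, Matrix.smul_apply, Matrix.smul_apply, Matrix.one_apply, Matrix.one_apply]
      split_ifs <;> simp
    refine ⟨ι (σ w), ?_, ?_⟩
    · rw [hA'2, Gal_map ι, Gal_map σ]
      have e1 : (((f.mat Γ r col a).map σ).map ι) ^ n
          = (((f.mat Γ r col a) ^ n).map σ).map ι := by
        have h1 : ((f.mat Γ r col a) ^ n).map σ = ((f.mat Γ r col a).map σ) ^ n :=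
          map_pow (RingHom.mapMatrix σ) _ _
        rw [h1]
        exact (map_pow (RingHom.mapMatrix ι) _ _).symm
      rw [e1, hpow]
      ext i j
      simp only [Matrix.map_apply, Matrix.smul_apply, Matrix.one_apply]
      split_ifs <;> simp
    · intro hz2
      have : w = 1 := by
        apply ι.injective
        rw [hwz, hz2, map_one]
      rw [this, map_one, map_one]
  · intro H _ Γ r hr col A hA p f m hm lam hlam hdet s hs hs1
    have hL : 0 < 4 * r * m := by positivity
    obtain ⟨ι, hι1, hι2⟩ := Gal_core (4 * r * m) hL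
    obtain ⟨a, ha, rfl⟩ := hι1 A (by rw [pow_mul, hA.pow_eq_one, one_pow])
    obtain ⟨b, hb, rfl⟩ := hι1 lam (by rw [mul_comm, pow_mul, hlam, one_pow])
    obtain ⟨σ, hσ⟩ := hι2 s hs
    have ha4 : a ^ (4 * r) = 1 := by
      apply ι.injective
      rw [map_pow, hA.pow_eq_one, map_one]
    have hσa : σ a = a := by
      rw [hσ a ha]
      have : a ^ s = a ^ 1 := by
        have h1 : a ^ s = a ^ (s % (4 * r)) := by
          conv_lhs => rw [← Nat.mod_add_div s (4 * r), pow_add, pow_mul a (4 * r), ha4, one_pow,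
            mul_one]
        have h2 : a ^ 1 = a ^ (1 % (4 * r)) := by
          conv_lhs => rw [← Nat.mod_add_div 1 (4 * r), pow_add, pow_mul a (4 * r), ha4, one_pow,
            mul_one]
        rw [h1, h2, hs1]
      rw [this, pow_one]
    have hdet' : (f.mat Γ r col a - b • 1).det = 0 := by
      apply ι.injective
      rw [map_zero, ← hdet, RingHom.map_det, Gal_map ι]
      congr 1
      ext i j
      simp only [RingHom.mapMatrix_apply, Matrix.map_apply, Matrix.sub_apply, Matrix.smul_apply,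
        Matrix.one_apply, map_sub]
      split_ifs <;> simp
    have e2 : f.mat Γ r col (ι a) - ((ι b) ^ s) • 1
        = ι.mapMatrix (σ.mapMatrix (f.mat Γ r col a - b • 1)) := by
      have e3 : f.mat Γ r col (ι a) = ((f.mat Γ r col a).map σ).map ι := by
        rw [← Gal_map σ, hσa, Gal_map ι]
      rw [e3]
      ext i j
      simp only [RingHom.mapMatrix_apply, Matrix.map_apply, Matrix.sub_apply, Matrix.smul_apply,
        Matrix.one_apply, map_sub]
      congr 1
      split_ifs
      · simp [hσ b hb]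
      · simp
    rw [e2, ← RingHom.map_det, ← RingHom.map_det, hdet', map_zero, map_zero]

end Pool.Agent.AMS
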