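import Pool.Agent.AMS.St

/-!
# AMS (HOM): homotopic paths have proportional matrices
-/

set_option autoImplicit false

namespace Pool.Agent.AMS

theorem HomI_st {H : Type} (Γ : Fat H) {r : ℕ} {col : H → ℕ} {q : H} {c : H → ℕ}
    (h : IsSt Γ r col q c) : IsSt Γ r col (Γ.opp q) c := by
  obtain ⟨h1, h2, h3, h4, h5⟩ := h
  refine ⟨h1, h2, h3, fun k hk hk' => h4 k ?_ hk, ?_⟩
  · rw [Γ.opp_opp] at hk'
    exact hk'
  · rw [Γ.opp_opp]
    exact h5.symm

theorem HomI_tw (A : ℂ) (hA : A ≠ 0) (x y : ℕ) (h : x = y + 1 ∨ y = x + 1) :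
    tw A x y * tw A y x = -A ^ 3 := by
  unfold tw
  rcases h with h | h
  · subst h
    rw [if_neg (by omega), if_pos rfl, neg_mul, ← zpow_add₀ hA]
    congr 1
    rw [← zpow_natCast]
    congr 1
    push_cast
    ring
  · subst h
    rw [if_pos rfl, if_neg (by omega), mul_neg, ← zpow_add₀ hA]
    congr 1
    rw [← zpow_natCast]
    congr 1
    push_cast
    ring

theorem HomI_opp {H : Type} [Finite H] (Γ : Fat H) (r : ℕ) (col : H → ℕ) (A : ℂ) (hA : A ≠ 0)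
    (q : H) (b : Bool) (hq : q = Γ.opp (Γ.opp q)) :
    (Step.cross (Γ := Γ) q (Γ.opp q) b rfl).mat Γ r col A *
      (Step.cross (Γ := Γ) (Γ.opp q) q b hq).mat Γ r col A =
      (if b then -A ^ 3 else (-A ^ 3)⁻¹) • 1 := by
  classical
  ext c'' c
  rw [Matrix.mul_apply, Matrix.smul_apply, Matrix.one_apply]
  obtain ⟨c0, hc0⟩ : ∃ c0 : St Γ r col (Γ.opp q), c0.1 = c.1 := ⟨⟨c.1, HomI_st Γ c.2⟩, rfl⟩
  rw [Finset.sum_eq_single c0]
  · have e1 : (Step.cross (Γ := Γ) (Γ.opp q) q b hq).mat Γ r col A c0 c =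
        if b then tw A (c.1 (Γ.opp (Γ.opp q))) (c.1 (Γ.opp q))
          else (tw A (c.1 (Γ.opp (Γ.opp q))) (c.1 (Γ.opp q)))⁻¹ := by
      simp only [Step.mat, Matrix.of_apply]
      exact if_pos hc0
    have e2 : (Step.cross (Γ := Γ) q (Γ.opp q) b rfl).mat Γ r col A c'' c0 =
        if c''.1 = c.1 then
          (if b then tw A (c.1 (Γ.opp q)) (c.1 q) else (tw A (c.1 (Γ.opp q)) (c.1 q))⁻¹)
        else 0 := by
      simp only [Step.mat, Matrix.of_apply, hc0]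
    rw [e1, e2, Γ.opp_opp]
    have h5 := HomI_tw A hA (c.1 (Γ.opp q)) (c.1 q) c.2.2.2.2.2.symm
    by_cases hcc : c'' = c
    · subst hcc
      rw [if_pos rfl, if_pos rfl]
      cases b
      · simp only [Bool.false_eq_true, if_false]
        rw [← mul_inv, h5, smul_eq_mul, mul_one]
      · simp only [if_true]
        rw [h5, smul_eq_mul, mul_one]
    · have hne : c''.1 ≠ c.1 := fun h => hcc (Subtype.ext h)
      rw [if_neg hne, if_neg hcc, zero_mul, smul_zero]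
  · intro c' _ hne
    have hne' : c'.1 ≠ c.1 := fun h => hne (Subtype.ext (h.trans hc0.symm))
    have e1 : (Step.cross (Γ := Γ) (Γ.opp q) q b hq).mat Γ r col A c' c = 0 := by
      simp only [Step.mat, Matrix.of_apply]
      exact if_neg hne'
    rw [e1, mul_zero]
  · intro h
    exact absurd (Finset.mem_univ _) h

theorem thm_HomI (hI : St_Inv) (hV : St_Vert) : St_Hom := by
  intro H _ Γ r hr col A hA p q w v hwv
  have hA0 : A ≠ 0 := hA.ne_zero (by omega)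
  induction hwv with
  | refl w => exact ⟨1, one_ne_zero, (one_smul ℂ _).symm⟩
  | symm _ ih =>
    obtain ⟨u, hu, h⟩ := ih
    refine ⟨u⁻¹, inv_ne_zero hu, ?_⟩
    rw [h, smul_smul, inv_mul_cancel₀ hu, one_smul]
  | trans _ _ ih1 ih2 =>
    obtain ⟨u, hu, h⟩ := ih1
    obtain ⟨u', hu', h'⟩ := ih2
    exact ⟨u * u', mul_ne_zero hu hu', by rw [h, h', smul_smul]⟩
  | @fwd q t w v s _ ih =>
    obtain ⟨u, hu, h⟩ := ih
    refine ⟨u, hu, ?_⟩
    show s.mat Γ r col A * w.mat Γ r col A = u • (s.mat Γ r col A * v.mat Γ r col A)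
    rw [h, Matrix.mul_smul]
  | @bwd q t w v s _ ih =>
    obtain ⟨u, hu, h⟩ := ih
    refine ⟨u, hu, ?_⟩
    show s.mat' Γ r col A * w.mat Γ r col A = u • (s.mat' Γ r col A * v.mat Γ r col A)
    rw [h, Matrix.mul_smul]
  | fwd_bwd w s =>
    refine ⟨1, one_ne_zero, ?_⟩
    show s.mat' Γ r col A * (s.mat Γ r col A * w.mat Γ r col A) = _
    rw [← Matrix.mul_assoc, (hI H Γ r hr col A hA _ _ s).1, Matrix.one_mul, one_smul]
  | bwd_fwd w s =>
    refine ⟨1, one_ne_zero, ?_⟩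
    show s.mat Γ r col A * (s.mat' Γ r col A * w.mat Γ r col A) = _
    rw [← Matrix.mul_assoc, (hI H Γ r hr col A hA _ _ s).2, Matrix.one_mul, one_smul]
  | @opp q h w b hq hh =>
    subst hh
    refine ⟨if b then -A ^ 3 else (-A ^ 3)⁻¹, ?_, ?_⟩
    · split_ifs
      · exact neg_ne_zero.2 (pow_ne_zero 3 hA0)
      · exact inv_ne_zero (neg_ne_zero.2 (pow_ne_zero 3 hA0))
    · show (Step.cross (Γ := Γ) q (Γ.opp q) b rfl).mat Γ r col A *
        ((Step.cross (Γ := Γ) (Γ.opp q) q b hq).mat Γ r col A * w.mat Γ r col A) = _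
      rw [← Matrix.mul_assoc, HomI_opp Γ r col A hA0 q b hq, Matrix.smul_mul, Matrix.one_mul]
  | @vertex q h₁ h₂ h₃ q₁ q₂ w b e₁ l₁ t₁ e₂ l₂ t₂ e₃ l₃ t₃ =>
    have h := hV H Γ r hr col A hA b q h₁ h₂ h₃ q₁ q₂ e₁ l₁ t₁ e₂ l₂ t₂ e₃ l₃ t₃
    refine ⟨if b then -A ^ 3 else -(A ^ 3)⁻¹, ?_, ?_⟩
    · split_ifs
      · exact neg_ne_zero.2 (pow_ne_zero 3 hA0)
      · exact neg_ne_zero.2 (inv_ne_zero (pow_ne_zero 3 hA0))
    · show (Step.turn h₃ q l₃ t₃).mat Γ r col A * ((Step.cross h₃ q₂ b e₃).mat Γ r col A *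
        ((Step.turn h₂ q₂ l₂ t₂).mat Γ r col A * ((Step.cross h₂ q₁ b e₂).mat Γ r col A *
          ((Step.turn h₁ q₁ l₁ t₁).mat Γ r col A * ((Step.cross h₁ q b e₁).mat Γ r col A *
            w.mat Γ r col A))))) = _
      have h2 := congrArg (fun M => M * w.mat Γ r col A) h
      simp only [Matrix.mul_assoc] at h2
      rw [h2, Matrix.smul_mul, Matrix.one_mul]

end Pool.Agent.AMS
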