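import Pool.Agent.AMS.NB

/-!
# (INC) Integrality and residues of the scaled coefficients

Every coefficient is a product of quotients of quantum numbers, each of which is a power of the
uniformiser times an integral element with known residue.
-/

set_option autoImplicit false

namespace Pool.Agent.AMS

/-- `x` is `ω ^ e` times an integral element with residue `q`. -/
private def IntCOrd {K : Type} [Field K] (P : Place K) (x : K) (e : ℤ) (q : ℚ) : Prop :=
  ∃ u, P.Res u q ∧ x = P.ω ^ e * u

section

variable {K : Type} [Field K] {P : Place K} {x y : K} {e f d : ℤ} {q r : ℚ}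

private theorem IntC_mul (hx : IntCOrd P x e q) (hy : IntCOrd P y f r) :
    IntCOrd P (x * y) (e + f) (q * r) := by
  obtain ⟨u, hu, rfl⟩ := hx
  obtain ⟨v, hv, rfl⟩ := hy
  refine ⟨u * v, NB_mul hu hv, ?_⟩
  rw [zpow_add₀ P.hω0]
  ring

private theorem IntC_div (hx : IntCOrd P x e q) (hy : IntCOrd P y f r) (hr : r ≠ 0) :
    IntCOrd P (x / y) (e - f) (q / r) := by
  obtain ⟨u, hu, rfl⟩ := hx
  obtain ⟨v, hv, rfl⟩ := hy
  refine ⟨u / v, NB_div hu hv hr, ?_⟩
  have h1 : v ≠ 0 := NB_ne hv hr
  have h2 : P.ω ^ f ≠ 0 := zpow_ne_zero _ P.hω0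
  rw [zpow_sub₀ P.hω0]
  field_simp

private theorem IntC_neg (hx : IntCOrd P x e q) : IntCOrd P (-x) e (-q) := by
  obtain ⟨u, hu, rfl⟩ := hx
  exact ⟨-u, NB_neg hu, by ring⟩

private theorem IntC_one : IntCOrd P (1 : K) 0 1 := ⟨1, NB_one, by simp⟩

private theorem IntC_fin0 (h : IntCOrd P x e q) (hd : d + e = 0) (hr : q = r) :
    P.Res (P.ω ^ d * x) r := by
  obtain ⟨u, hu, rfl⟩ := h
  rw [← mul_assoc, ← zpow_add₀ P.hω0, hd, zpow_zero, one_mul, ← hr]
  exact hu

private theorem IntC_finp (h : IntCOrd P x e q) (hd : 0 < d + e) : P.Res (P.ω ^ d * x) 0 := by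
  obtain ⟨u, hu, rfl⟩ := h
  obtain ⟨n, hn⟩ := Int.eq_ofNat_of_zero_le (by omega : 0 ≤ d + e - 1)
  have h1 : d + e = ((n + 1 : ℕ) : ℤ) := by push_cast; omega
  rw [← mul_assoc, ← zpow_add₀ P.hω0, h1, zpow_natCast, pow_succ]
  have h2 := NB_mul (NB_mul (NB_pow (NB_om (P := P)) n) (NB_om (P := P))) hu
  simpa using h2

end

section

variable {K : Type} [Field K] (A T : K) (mx my mz x y z : ℤ)

private theorem IntC_pp : gcoef A T mx my mz x (x + 1) y (y + 1) z =
    gcur A T (mx - my + mz) (x - y + z + 1) / gcur A T (2 * mx) (2 * x + 2) := by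
  simp [gcoef]

private theorem IntC_pm : gcoef A T mx my mz x (x + 1) y (y - 1) z =
    gcur A T (mx + my - mz) (x + y - z + 1) * gcur A T (mx + my + mz) (x + y + z + 3) /
      (gcur A T (2 * mx) (2 * x + 2) * gcur A T (2 * my) (2 * y + 2)) := by
  have h : ¬ (y - 1 = y + 1) := by omega
  simp [gcoef, h]

private theorem IntC_mp : gcoef A T mx my mz x (x - 1) y (y + 1) z = 1 := by
  have h : ¬ (x - 1 = x + 1) := by omega
  simp [gcoef, h]

private theorem IntC_mm : gcoef A T mx my mz x (x - 1) y (y - 1) z =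
    -(gcur A T (my - mx + mz) (y - x + z + 1) / gcur A T (2 * my) (2 * y + 2)) := by
  have h : ¬ (x - 1 = x + 1) := by omega
  have h' : ¬ (y - 1 = y + 1) := by omega
  simp [gcoef, h, h']

private theorem IntC_rpp : rcoef mx my mz x (x + 1) y (y + 1) z =
    if mx = 0 then ((z - y + x + 1 : ℤ) : ℚ) / ((2 * x + 2 : ℤ) : ℚ)
    else if my = 0 then 1 else if mz = mx + my then 1 else 0 := by
  simp [rcoef]

private theorem IntC_rpm : rcoef mx my mz x (x + 1) y (y - 1) z =
    if mx = 0 then ((x + y - z + 1 : ℤ) : ℚ) / ((2 * x + 2 : ℤ) : ℚ)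
    else if my = 0 then ((x + y - z + 1 : ℤ) : ℚ) / ((2 * y + 2 : ℤ) : ℚ)
    else if mz = mx + my then 0 else 1 := by
  have h : ¬ (y - 1 = y + 1) := by omega
  simp [rcoef, h]

private theorem IntC_rmp : rcoef mx my mz x (x - 1) y (y + 1) z =
    if mx = 0 then 1 else if my = 0 then 1 else if mz = mx + my then 0 else 1 := by
  have h : ¬ (x - 1 = x + 1) := by omega
  simp [rcoef, h]

private theorem IntC_rmm : rcoef mx my mz x (x - 1) y (y - 1) z =
    if mx = 0 then -1
    else if my = 0 then -(((y - x + z + 1 : ℤ) : ℚ) / ((2 * y + 2 : ℤ) : ℚ))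
    else if mz = mx + my then -1 else 0 := by
  have h : ¬ (x - 1 = x + 1) := by omega
  have h' : ¬ (y - 1 = y + 1) := by omega
  simp [rcoef, h, h']

end

theorem thm_IntC (hC : St_Cur) : St_IntC := by
  intro K _ P a ha
  have hG : ∀ m n k : ℤ, m = k → k ≠ 0 → IntCOrd P (gcur (P.A a) P.T m n) 1 (2 * k) := by
    intro m n k hmk hk
    subst hmk
    obtain ⟨u, hu, h⟩ := (hC K P a ha m n).2.1 hk
    refine ⟨2 * m * u, ?_, by rw [h, zpow_one]; ring⟩
    have h1 := NB_mul (NB_mul (NB_int (P := P) 2) (NB_int (P := P) m)) hu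
    simpa using h1
  have hG0 : ∀ m n : ℤ, m = 0 → IntCOrd P (gcur (P.A a) P.T m n) 5 (2 * n * a) := by
    intro m n hm
    subst hm
    obtain ⟨u, hu, h⟩ := (hC K P a ha 0 n).2.2.1
    refine ⟨2 * n * a * u, ?_, by rw [h]; norm_cast; ring⟩
    have h1 := NB_mul (NB_mul (NB_mul (NB_int (P := P) 2) (NB_int (P := P) n))
      (NB_nat (P := P) a)) hu
    simpa using h1
  have ha0 : (a : ℚ) ≠ 0 := by positivity
  constructor
  · intro mx my mz x x' y y' z h0x h0y h0z hw hxy hxz hyz hx' hy' hcx hcy
    by_cases hX : mx = 0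
    · -- the first colour is small
      subst hX
      have hYZ : my = mz := by omega
      subst hYZ
      have hY : my ≠ 0 := by omega
      have hYq : (my : ℚ) ≠ 0 := by exact_mod_cast hY
      have hx0 : (0 : ℚ) ≤ x := by exact_mod_cast hcx rfl
      have hx1 : (2 * (x : ℚ) + 2) ≠ 0 := by positivity
      have hx2 : (2 * ((2 * x + 2 : ℤ) : ℚ) * a) ≠ 0 := by
        push_cast
        exact mul_ne_zero (mul_ne_zero two_ne_zero hx1) ha0
      have hm2 : (2 * ((2 * my : ℤ) : ℚ)) ≠ 0 := by push_cast; positivity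
      rcases hx' with rfl | rfl <;> rcases hy' with rfl | rfl
      · rw [IntC_pp, IntC_rpp, if_pos rfl]
        refine IntC_fin0 (IntC_div (hG0 _ _ (by ring)) (hG0 _ _ (by ring)) hx2) (by simp [dsl]) ?_
        push_cast
        field_simp
        ring
      · rw [IntC_pm, IntC_rpm, if_pos rfl]
        refine IntC_fin0 (IntC_div (IntC_mul (hG0 _ _ (by ring)) (hG _ _ (2 * my) (by ring) (by omega)))
          (IntC_mul (hG0 _ _ (by ring)) (hG _ _ (2 * my) (by ring) (by omega)))
          (mul_ne_zero hx2 hm2)) (by simp [dsl]) ?_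
        push_cast
        field_simp
      · rw [IntC_mp, IntC_rmp, if_pos rfl]
        exact IntC_fin0 IntC_one (by simp [dsl]) rfl
      · rw [IntC_mm, IntC_rmm, if_pos rfl]
        refine IntC_fin0 (IntC_neg (IntC_div (hG _ _ (2 * my) (by ring) (by omega))
          (hG _ _ (2 * my) (by ring) (by omega)) hm2)) (by simp [dsl]) ?_
        rw [div_self hm2]
    by_cases hY : my = 0
    · -- the second colour is small
      subst hY
      have hXZ : mx = mz := by omega
      subst hXZ
      have hXq : (mx : ℚ) ≠ 0 := by exact_mod_cast hX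
      have hy0 : (0 : ℚ) ≤ y := by exact_mod_cast hcy rfl
      have hy1 : (2 * (y : ℚ) + 2) ≠ 0 := by positivity
      have hy2 : (2 * ((2 * y + 2 : ℤ) : ℚ) * a) ≠ 0 := by
        push_cast
        exact mul_ne_zero (mul_ne_zero two_ne_zero hy1) ha0
      have hm2 : (2 * ((2 * mx : ℤ) : ℚ)) ≠ 0 := by push_cast; positivity
      rcases hx' with rfl | rfl <;> rcases hy' with rfl | rfl
      · rw [IntC_pp, IntC_rpp, if_neg hX, if_pos rfl]
        refine IntC_fin0 (IntC_div (hG _ _ (2 * mx) (by ring) (by omega))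
          (hG _ _ (2 * mx) (by ring) (by omega)) hm2) (by simp [dsl]) ?_
        rw [div_self hm2]
      · rw [IntC_pm, IntC_rpm, if_neg hX, if_pos rfl]
        refine IntC_fin0 (IntC_div (IntC_mul (hG0 _ _ (by ring)) (hG _ _ (2 * mx) (by ring) (by omega)))
          (IntC_mul (hG _ _ (2 * mx) (by ring) (by omega)) (hG0 _ _ (by ring)))
          (mul_ne_zero hm2 hy2)) (by simp [dsl]) ?_
        push_cast
        field_simp
      · rw [IntC_mp, IntC_rmp, if_neg hX, if_pos rfl]
        exact IntC_fin0 IntC_one (by simp [dsl]) rfl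
      · rw [IntC_mm, IntC_rmm, if_neg hX, if_pos rfl]
        refine IntC_fin0 (IntC_neg (IntC_div (hG0 _ _ (by ring)) (hG0 _ _ (by ring)) hy2))
          (by simp [dsl]) ?_
        push_cast
        field_simp
    have hXq : (mx : ℚ) ≠ 0 := by exact_mod_cast hX
    have hYq : (my : ℚ) ≠ 0 := by exact_mod_cast hY
    have hmx : (2 * ((2 * mx : ℤ) : ℚ)) ≠ 0 := by push_cast; positivity
    have hmy : (2 * ((2 * my : ℤ) : ℚ)) ≠ 0 := by push_cast; positivity
    by_cases hZ : mz = 0
    · -- the third colour is small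
      subst hZ
      have hXY : mx = my := by omega
      subst hXY
      have hne : ¬ ((0 : ℤ) = mx + mx) := by omega
      rcases hx' with rfl | rfl <;> rcases hy' with rfl | rfl
      · rw [IntC_pp, IntC_rpp, if_neg hX, if_neg hX, if_neg hne]
        exact IntC_finp (IntC_div (hG0 _ _ (by ring)) (hG _ _ (2 * mx) (by ring) (by omega)) hmx)
          (by simp [dsl])
      · rw [IntC_pm, IntC_rpm, if_neg hX, if_neg hX, if_neg hne]
        refine IntC_fin0 (IntC_div (IntC_mul (hG _ _ (2 * mx) (by ring) (by omega))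
          (hG _ _ (2 * mx) (by ring) (by omega))) (IntC_mul (hG _ _ (2 * mx) (by ring) (by omega))
          (hG _ _ (2 * mx) (by ring) (by omega))) (mul_ne_zero hmx hmx)) (by simp [dsl]) ?_
        rw [div_self (mul_ne_zero hmx hmx)]
      · rw [IntC_mp, IntC_rmp, if_neg hX, if_neg hX, if_neg hne]
        exact IntC_fin0 IntC_one (by simp [dsl]) rfl
      · rw [IntC_mm, IntC_rmm, if_neg hX, if_neg hX, if_neg hne]
        have h1 := IntC_neg (IntC_div (hG0 _ (y - x + z + 1) (by ring : mx - mx + 0 = 0))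
          (hG (2 * mx) (2 * y + 2) (2 * mx) rfl (by omega)) hmx)
        exact IntC_finp h1 (by simp [dsl])
    rcases hw with hw | hw | hw
    · -- the first colour is the sum
      have hne : ¬ (mz = mx + my) := by omega
      have hd : ∀ s t : ℤ, dsl mx my mz s t = s + t := by
        intro s t
        rw [dsl, if_neg (by omega), if_pos hw]
      rcases hx' with rfl | rfl <;> rcases hy' with rfl | rfl
      · rw [IntC_pp, IntC_rpp, if_neg hX, if_neg hY, if_neg hne, hd]
        exact IntC_finp (IntC_div (hG _ _ (2 * mz) (by omega) (by omega))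
          (hG _ _ (2 * mx) (by ring) (by omega)) hmx) (by omega)
      · rw [IntC_pm, IntC_rpm, if_neg hX, if_neg hY, if_neg hne, hd]
        refine IntC_fin0 (IntC_div (IntC_mul (hG _ _ (2 * my) (by omega) (by omega))
          (hG _ _ (2 * mx) (by omega) (by omega))) (IntC_mul (hG _ _ (2 * mx) (by ring) (by omega))
          (hG _ _ (2 * my) (by ring) (by omega))) (mul_ne_zero hmx hmy)) (by omega) ?_
        rw [mul_comm, div_self (mul_ne_zero hmx hmy)]
      · rw [IntC_mp, IntC_rmp, if_neg hX, if_neg hY, if_neg hne, hd]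
        exact IntC_fin0 IntC_one (by omega) rfl
      · rw [IntC_mm, IntC_rmm, if_neg hX, if_neg hY, if_neg hne, hd]
        exact IntC_finp (IntC_neg (IntC_div (hG0 _ _ (by omega))
          (hG _ _ (2 * my) (by ring) (by omega)) hmy)) (by omega)
    · -- the second colour is the sum
      have hne : ¬ (mz = mx + my) := by omega
      have hd : ∀ s t : ℤ, dsl mx my mz s t = -(s + t) := by
        intro s t
        rw [dsl, if_neg (by omega), if_neg (by omega), if_pos hw]
      rcases hx' with rfl | rfl <;> rcases hy' with rfl | rfl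
      · rw [IntC_pp, IntC_rpp, if_neg hX, if_neg hY, if_neg hne, hd]
        exact IntC_finp (IntC_div (hG0 _ _ (by omega))
          (hG _ _ (2 * mx) (by ring) (by omega)) hmx) (by omega)
      · rw [IntC_pm, IntC_rpm, if_neg hX, if_neg hY, if_neg hne, hd]
        refine IntC_fin0 (IntC_div (IntC_mul (hG _ _ (2 * mx) (by omega) (by omega))
          (hG _ _ (2 * my) (by omega) (by omega))) (IntC_mul (hG _ _ (2 * mx) (by ring) (by omega))
          (hG _ _ (2 * my) (by ring) (by omega))) (mul_ne_zero hmx hmy)) (by omega) ?_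
        rw [div_self (mul_ne_zero hmx hmy)]
      · rw [IntC_mp, IntC_rmp, if_neg hX, if_neg hY, if_neg hne, hd]
        exact IntC_fin0 IntC_one (by omega) rfl
      · rw [IntC_mm, IntC_rmm, if_neg hX, if_neg hY, if_neg hne, hd]
        exact IntC_finp (IntC_neg (IntC_div (hG _ _ (2 * mz) (by omega) (by omega))
          (hG _ _ (2 * my) (by ring) (by omega)) hmy)) (by omega)
    · -- the third colour is the sum
      have hd : ∀ s t : ℤ, dsl mx my mz s t = t - s := by
        intro s t
        rw [dsl, if_neg (by omega), if_neg (by omega), if_neg (by omega)]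
      rcases hx' with rfl | rfl <;> rcases hy' with rfl | rfl
      · rw [IntC_pp, IntC_rpp, if_neg hX, if_neg hY, if_pos hw, hd]
        refine IntC_fin0 (IntC_div (hG _ _ (2 * mx) (by omega) (by omega))
          (hG _ _ (2 * mx) (by ring) (by omega)) hmx) (by omega) ?_
        rw [div_self hmx]
      · rw [IntC_pm, IntC_rpm, if_neg hX, if_neg hY, if_pos hw, hd]
        exact IntC_finp (IntC_div (IntC_mul (hG0 _ _ (by omega))
          (hG _ _ (2 * mz) (by omega) (by omega))) (IntC_mul (hG _ _ (2 * mx) (by ring) (by omega))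
          (hG _ _ (2 * my) (by ring) (by omega))) (mul_ne_zero hmx hmy)) (by omega)
      · rw [IntC_mp, IntC_rmp, if_neg hX, if_neg hY, if_pos hw, hd]
        exact IntC_finp IntC_one (by omega)
      · rw [IntC_mm, IntC_rmm, if_neg hX, if_neg hY, if_pos hw, hd]
        refine IntC_fin0 (IntC_neg (IntC_div (hG _ _ (2 * my) (by omega) (by omega))
          (hG _ _ (2 * my) (by ring) (by omega)) hmy)) (by omega) ?_
        rw [div_self hmy]
  · intro m x x'
    have h1 : P.Res (gtw (P.A a) P.T m x x') (if x' = x + 1 then 1 else -1) := by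
      unfold gtw
      split_ifs with h
      · exact (hC K P a ha (-m) (-x)).1
      · exact NB_neg (hC K P a ha m (x + 2)).1
    refine ⟨h1, ?_⟩
    have h2 : (if x' = x + 1 then (1 : ℚ) else -1) ≠ 0 := by split_ifs <;> norm_num
    have h3 := NB_inv h1 h2
    have h4 : ((if x' = x + 1 then (1 : ℚ) else -1))⁻¹ = if x' = x + 1 then (1 : ℚ) else -1 := by
      split_ifs <;> norm_num
    rwa [h4] at h3

end Pool.Agent.AMS
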