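import Pool.Agent.AMS.StP

/-!
# AMS, module IntP: integrality of the moves at a prime level
-/

set_option autoImplicit false

namespace Pool.Agent.AMS

section

variable {A : ℂ}

private theorem IntP_zpow (hA : A⁻¹ ∈ RR A) (n : ℤ) : A ^ n ∈ RR A := by
  have h1 : A ∈ RR A := Subring.subset_closure rfl
  cases n with
  | ofNat n =>
    rw [Int.ofNat_eq_natCast, zpow_natCast]
    exact pow_mem h1 n
  | negSucc n =>
    rw [zpow_negSucc, ← inv_pow]
    exact pow_mem hA (n + 1)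

private theorem IntP_cur (hA0 : A ≠ 0) (a : ℕ) :
    cur A (2 * (a : ℤ)) = A ^ (-(2 * (a : ℤ))) * (A ^ (4 * a) - 1) := by
  unfold cur
  rw [mul_sub, mul_one, ← zpow_natCast A (4 * a), ← zpow_add₀ hA0]
  congr 2
  push_cast
  ring

private theorem IntP_quot {p : ℕ} (hA0 : A ≠ 0) (hA : A⁻¹ ∈ RR A)
    (h2 : ∀ a b : ℕ, ¬ p ∣ b → (A ^ (4 * a) - 1) / (A ^ (4 * b) - 1) ∈ RR A) (a b : ℕ)
    (hb : ¬ p ∣ b) : cur A (2 * (a : ℤ)) / cur A (2 * (b : ℤ)) ∈ RR A := by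
  rw [IntP_cur hA0, IntP_cur hA0, mul_div_mul_comm, ← zpow_sub₀ hA0]
  exact mul_mem (IntP_zpow hA _) (h2 a b hb)

private theorem IntP_coef {p : ℕ} (hA0 : A ≠ 0) (hA : A⁻¹ ∈ RR A)
    (h2 : ∀ a b : ℕ, ¬ p ∣ b → (A ^ (4 * a) - 1) / (A ^ (4 * b) - 1) ∈ RR A)
    (x x' y y' z : ℕ) (hx : x + 2 ≤ p) (hy : y + 2 ≤ p) (hxx : x' = x + 1 ∨ x = x' + 1)
    (he : Even (x' + y + z)) (t1 : x' ≤ y + z) (t2 : y ≤ x' + z) (t3 : z ≤ x' + y) :
    coef A x x' y y' z ∈ RR A := by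
  obtain ⟨m, hm⟩ := he
  have hpx : ¬ p ∣ x + 1 := fun h => by
    have := Nat.le_of_dvd (by omega) h
    omega
  have hpy : ¬ p ∣ y + 1 := fun h => by
    have := Nat.le_of_dvd (by omega) h
    omega
  have ex : (2 * (x : ℤ) + 2) = 2 * ((x + 1 : ℕ) : ℤ) := by push_cast; ring
  have ey : (2 * (y : ℤ) + 2) = 2 * ((y + 1 : ℕ) : ℤ) := by push_cast; ring
  unfold coef
  split_ifs with h1 h3 h3
  · have e1 : ((x : ℤ) - y + z + 1) = 2 * ((m - y : ℕ) : ℤ) := by omega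
    rw [e1, ex]
    exact IntP_quot hA0 hA h2 _ _ hpx
  · have e1 : ((x : ℤ) + y - z + 1) = 2 * ((m - z : ℕ) : ℤ) := by omega
    have e2 : ((x : ℤ) + y + z + 3) = 2 * ((m + 1 : ℕ) : ℤ) := by omega
    rw [e1, e2, ex, ey, mul_div_mul_comm]
    exact mul_mem (IntP_quot hA0 hA h2 _ _ hpx) (IntP_quot hA0 hA h2 _ _ hpy)
  · exact one_mem _
  · have e1 : ((y : ℤ) - x + z + 1) = 2 * ((m - x' : ℕ) : ℤ) := by omega
    rw [e1, ey]
    exact neg_mem (IntP_quot hA0 hA h2 _ _ hpy)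

private theorem IntP_tw (hA : A⁻¹ ∈ RR A) (x x' : ℕ) : tw A x x' ∈ RR A := by
  unfold tw
  split_ifs
  · exact IntP_zpow hA _
  · exact neg_mem (IntP_zpow hA _)

private theorem IntP_twi (hA : A⁻¹ ∈ RR A) (x x' : ℕ) : (tw A x x')⁻¹ ∈ RR A := by
  unfold tw
  split_ifs
  · rw [← zpow_neg]
    exact IntP_zpow hA _
  · rw [inv_neg, ← zpow_neg]
    exact neg_mem (IntP_zpow hA _)

end

theorem thm_IntP (hC : St_Cyc) : St_Int := by
  intro p hp hp3 A hA H _ Γ col q t s c' c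
  obtain ⟨c1, c2, -, -, -⟩ := hC p hp hp3 A hA
  have hA0 : A ≠ 0 := hA.ne_zero (by omega)
  cases s with
  | turn _ _ hl hq =>
    subst hq
    constructor
    · simp only [Step.mat, Matrix.of_apply]
      split_ifs with h1
      · have hc := c.2
        obtain ⟨b1, b2, b3, b4, b5⟩ := hc
        obtain ⟨a1, a2, a3, a4, a5⟩ := b3 q hl
        exact IntP_coef (p := p) hA0 c1 c2 _ _ _ _ _ (b1 _) (b1 _) b5 a1 a2 a3 a4
      · exact zero_mem _
    · simp only [Step.mat', Matrix.of_apply]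
      split_ifs with h1
      · have hc := c'.2
        obtain ⟨b1, b2, b3, b4, b5⟩ := hc
        obtain ⟨a1, a2, a3, a4, a5⟩ := b3 q hl
        rw [Γ.opp_opp] at b5
        refine IntP_coef (p := p) hA0 c1 c2 _ _ _ _ _ (b1 _) (b1 _) ?_ ?_ ?_ ?_ ?_
        · exact b5.symm
        · rwa [add_comm (c'.1 (Γ.nxt q)) (c'.1 q)]
        · exact a3
        · exact a2
        · rwa [add_comm (c'.1 (Γ.nxt q)) (c'.1 q)]
      · exact zero_mem _
  | cross _ _ b hq =>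
    subst hq
    constructor
    · simp only [Step.mat, Matrix.of_apply]
      split_ifs
      · exact IntP_tw c1 _ _
      · exact IntP_twi c1 _ _
      · exact zero_mem _
    · simp only [Step.mat', Matrix.of_apply]
      split_ifs
      · exact IntP_twi c1 _ _
      · exact IntP_tw c1 _ _
      · exact zero_mem _

end Pool.Agent.AMS
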