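import Pool.Agent.AMS.St

/-!
# AMS (INV): the matrices of the inverse moves
-/

set_option autoImplicit false

namespace Pool.Agent.AMS

/-! ## Numbers -/

lemma Inv_cur_mul {K : Type} [Field K] {A : K} (hA : A ≠ 0) (m n : ℤ) :
    cur A m * cur A n = (A ^ (m + n) + A ^ (-(m + n))) - (A ^ (m - n) + A ^ (-(m - n))) := by
  unfold cur
  have e1 : A ^ m * A ^ n = A ^ (m + n) := (zpow_add₀ hA m n).symm
  have e2 : A ^ m * A ^ (-n) = A ^ (m - n) := by rw [← zpow_add₀ hA, sub_eq_add_neg]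
  have e3 : A ^ (-m) * A ^ n = A ^ (-(m - n)) := by
    rw [← zpow_add₀ hA]; congr 1; ring
  have e4 : A ^ (-m) * A ^ (-n) = A ^ (-(m + n)) := by
    rw [← zpow_add₀ hA]; congr 1; ring
  rw [← e1, ← e2, ← e3, ← e4]
  ring

lemma Inv_det {K : Type} [Field K] {A : K} (hA : A ≠ 0) (x y z : ℤ) :
    cur A (x - y + z + 1) * cur A (y - x + z + 1) +
      cur A (x + y - z + 1) * cur A (x + y + z + 3) = cur A (2 * x + 2) * cur A (2 * y + 2) := by
  rw [Inv_cur_mul hA, Inv_cur_mul hA, Inv_cur_mul hA]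
  have e1 : x - y + z + 1 + (y - x + z + 1) = 2 * z + 2 := by ring
  have e2 : x - y + z + 1 - (y - x + z + 1) = 2 * x - 2 * y := by ring
  have e3 : x + y - z + 1 + (x + y + z + 3) = 2 * x + 2 * y + 4 := by ring
  have e4 : x + y - z + 1 - (x + y + z + 3) = -(2 * z + 2) := by ring
  have e5 : 2 * x + 2 + (2 * y + 2) = 2 * x + 2 * y + 4 := by ring
  have e6 : 2 * x + 2 - (2 * y + 2) = 2 * x - 2 * y := by ring
  rw [e1, e2, e3, e4, e5, e6, neg_neg]
  ring

lemma Inv_cur_zero {K : Type} [Field K] (A : K) : cur A 0 = 0 := by simp [cur]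

lemma Inv_cur_ne {A : ℂ} {r : ℕ} (hA : IsPrimitiveRoot A (4 * r)) (x : ℕ) (hx : x + 2 ≤ r) :
    cur A (2 * x + 2) ≠ 0 := by
  have hA0 : A ≠ 0 := hA.ne_zero (by omega)
  intro h
  rw [cur, sub_eq_zero] at h
  have h1 : A ^ ((4 * (x + 1) : ℕ) : ℤ) = 1 := by
    have e : ((4 * (x + 1) : ℕ) : ℤ) = (2 * (x : ℤ) + 2) + (2 * (x : ℤ) + 2) := by
      push_cast; ring
    rw [e, zpow_add₀ hA0]
    nth_rewrite 1 [h]
    rw [← zpow_add₀ hA0, neg_add_cancel, zpow_zero]
  rw [zpow_natCast] at h1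
  have h2 := (hA.pow_eq_one_iff_dvd _).1 h1
  have h3 := Nat.le_of_dvd (by omega) h2
  omega

lemma Inv_cur_level {A : ℂ} {r : ℕ} (hA : IsPrimitiveRoot A (4 * r)) (hr : 2 ≤ r) :
    cur A (2 * r) = 0 := by
  have hA0 : A ≠ 0 := hA.ne_zero (by omega)
  rw [cur, sub_eq_zero]
  have h1 : A ^ (2 * (r : ℤ)) * A ^ (2 * (r : ℤ)) = 1 := by
    rw [← zpow_add₀ hA0]
    have e : 2 * (r : ℤ) + 2 * (r : ℤ) = ((4 * r : ℕ) : ℤ) := by push_cast; ring
    rw [e, zpow_natCast, hA.pow_eq_one]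
  rw [zpow_neg]
  exact eq_inv_of_mul_eq_one_left h1

/-! the values of the coefficients -/

section

variable {K : Type} [Field K] (A : K) (x x' y y' z : ℕ)

lemma Inv_pp (hx : x' = x + 1) (hy : y' = y + 1) :
    coef A x x' y y' z = cur A (x - y + z + 1) / cur A (2 * x + 2) := by
  rw [coef, if_pos hx, if_pos hy]

lemma Inv_pm (hx : x' = x + 1) (hy : y' ≠ y + 1) :
    coef A x x' y y' z = cur A (x + y - z + 1) * cur A (x + y + z + 3) /
      (cur A (2 * x + 2) * cur A (2 * y + 2)) := by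
  rw [coef, if_pos hx, if_neg hy]

lemma Inv_mp (hx : x' ≠ x + 1) (hy : y' = y + 1) : coef A x x' y y' z = 1 := by
  rw [coef, if_neg hx, if_pos hy]

lemma Inv_mm (hx : x' ≠ x + 1) (hy : y' ≠ y + 1) :
    coef A x x' y y' z = -(cur A (y - x + z + 1) / cur A (2 * y + 2)) := by
  rw [coef, if_neg hx, if_neg hy]

end

/-- the 2x2 identity -/
lemma Inv_two {A : ℂ} {r : ℕ} (hA : IsPrimitiveRoot A (4 * r)) {x y : ℕ} (z a b : ℕ)
    (hx : x + 2 ≤ r) (hy : y + 2 ≤ r) (ha : a = x + 1 ∨ x = a + 1) (hb : b = x + 1 ∨ x = b + 1) :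
    coef A y (y + 1) x b z * coef A x a y (y + 1) z +
      coef A y (y - 1) x b z * coef A x a y (y - 1) z = if b = a then 1 else 0 := by
  have hA0 : A ≠ 0 := hA.ne_zero (by omega)
  have hX := Inv_cur_ne hA x hx
  have hY := Inv_cur_ne hA y hy
  have hD := Inv_det hA0 (x : ℤ) y z
  have hy1 : y - 1 ≠ y + 1 := by omega
  have c1 : ((y : ℤ) + x - z + 1) = (x : ℤ) + y - z + 1 := by ring
  have c2 : ((y : ℤ) + x + z + 3) = (x : ℤ) + y + z + 3 := by ring
  rcases ha with ha | ha <;> rcases hb with hb | hb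
  · rw [Inv_pp A y (y + 1) x b z rfl hb, Inv_pp A x a y (y + 1) z ha rfl,
      Inv_mp A y (y - 1) x b z hy1 hb, Inv_pm A x a y (y - 1) z ha hy1, if_pos (by omega)]
    field_simp
    linear_combination hD
  · have hb' : b ≠ x + 1 := by omega
    rw [Inv_pm A y (y + 1) x b z rfl hb', Inv_pp A x a y (y + 1) z ha rfl,
      Inv_mm A y (y - 1) x b z hy1 hb', Inv_pm A x a y (y - 1) z ha hy1, if_neg (by omega),
      c1, c2]
    field_simp
    ring
  · have ha' : a ≠ x + 1 := by omega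
    rw [Inv_pp A y (y + 1) x b z rfl hb, Inv_mp A x a y (y + 1) z ha' rfl,
      Inv_mp A y (y - 1) x b z hy1 hb, Inv_mm A x a y (y - 1) z ha' hy1, if_neg (by omega)]
    ring
  · have ha' : a ≠ x + 1 := by omega
    have hb' : b ≠ x + 1 := by omega
    rw [Inv_pm A y (y + 1) x b z rfl hb', Inv_mp A x a y (y + 1) z ha' rfl,
      Inv_mm A y (y - 1) x b z hy1 hb', Inv_mm A x a y (y - 1) z ha' hy1, if_pos (by omega),
      c1, c2]
    field_simp
    linear_combination hD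

/-- the walls, upper neighbour -/
lemma Inv_wallp {A : ℂ} {r : ℕ} (hA : IsPrimitiveRoot A (4 * r)) (hr : 2 ≤ r) {x y z a b : ℕ}
    (ha : a = x + 1 ∨ x = a + 1) (h1 : Adm r a y z)
    (h2 : Adm r b y z) (h3 : ¬ Adm r x (y + 1) z) :
    coef A y (y + 1) x b z * coef A x a y (y + 1) z = 0 := by
  unfold Adm at h1 h2 h3
  simp only [Nat.even_iff] at h1 h2 h3
  rcases ha with ha | ha
  · have hw : y = x + z + 1 := by omega
    have e : ((x : ℤ) - y + z + 1) = 0 := by omega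
    rw [Inv_pp A x a y (y + 1) z ha rfl, e, Inv_cur_zero, zero_div, mul_zero]
  · have hw : x + y + z + 3 = 2 * r := by omega
    have hb' : b ≠ x + 1 := by omega
    have e : ((y : ℤ) + x + z + 3) = 2 * r := by omega
    rw [Inv_pm A y (y + 1) x b z rfl hb', e, Inv_cur_level hA hr, mul_zero, zero_div, zero_mul]

/-- the walls, lower neighbour -/
lemma Inv_wallm {A : ℂ} {r : ℕ} {x y z a b : ℕ}
    (ha : a = x + 1 ∨ x = a + 1) (h1 : Adm r a y z)
    (h3 : ¬ (Adm r x (y - 1) z ∧ y = y - 1 + 1)) :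
    coef A y (y - 1) x b z * coef A x a y (y - 1) z = 0 := by
  unfold Adm at h1 h3
  simp only [Nat.even_iff] at h1 h3
  have hy1 : y - 1 ≠ y + 1 := by omega
  rcases ha with ha | ha
  · have hw : z = x + y + 1 := by omega
    have e : ((x : ℤ) + y - z + 1) = 0 := by omega
    rw [Inv_pm A x a y (y - 1) z ha hy1, e, Inv_cur_zero, zero_mul, zero_div, mul_zero]
  · have hw : x = y + z + 1 := by omega
    have ha' : a ≠ x + 1 := by omega
    have e : ((y : ℤ) - x + z + 1) = 0 := by omega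
    rw [Inv_mm A x a y (y - 1) z ha' hy1, e, Inv_cur_zero, zero_div, neg_zero, mul_zero]

/-- a sum over a subtype with at most two terms -/
lemma Inv_sum {α K : Type} [Field K] {P : α → Prop} [Fintype {c // P c}] (F : α → K) (u v : α)
    (huv : u ≠ v) (hu : ¬ P u → F u = 0) (hv : ¬ P v → F v = 0)
    (hF : ∀ c, P c → F c ≠ 0 → c = u ∨ c = v) : ∑ c : {c // P c}, F c.1 = F u + F v := by
  classical
  have h0 : ∀ c : {c // P c}, c.1 ≠ u → c.1 ≠ v → F c.1 = 0 := by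
    intro c h1 h2
    by_contra h
    rcases hF c.1 c.2 h with h3 | h3
    · exact h1 h3
    · exact h2 h3
  by_cases pu : P u
  · by_cases pv : P v
    · exact Fintype.sum_eq_add (⟨u, pu⟩ : {c // P c}) ⟨v, pv⟩
        (fun h => huv (congrArg Subtype.val h))
        (fun c hc => h0 c (fun h => hc.1 (Subtype.ext h)) (fun h => hc.2 (Subtype.ext h)))
    · rw [hv pv, add_zero]
      exact Fintype.sum_eq_single (⟨u, pu⟩ : {c // P c})
        (fun c hc => h0 c (fun h => hc (Subtype.ext h)) (fun h => pv (h ▸ c.2)))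
  · rw [hu pu, zero_add]
    by_cases pv : P v
    · exact Fintype.sum_eq_single (⟨v, pv⟩ : {c // P c})
        (fun c hc => h0 c (fun h => pu (h ▸ c.2)) (fun h => hc (Subtype.ext h)))
    · rw [hv pv]
      exact Finset.sum_eq_zero fun c _ => h0 c (fun h => pu (h ▸ c.2)) (fun h => pv (h ▸ c.2))

/-! ## States at the three edges of a vertex -/

lemma Inv_adm_rot {r a b c : ℕ} : Adm r a b c ↔ Adm r b c a := by
  unfold Adm
  simp only [Nat.even_iff]
  omega

lemma Inv_adm_swap {r a b c : ℕ} : Adm r a b c ↔ Adm r b a c := by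
  unfold Adm
  simp only [Nat.even_iff]
  omega

section

variable {H : Type} {Γ : Fat H}

/-- `h`, `n`, `e` are the three half edges of a vertex, in any order -/
structure Inv_Tri (Γ : Fat H) (h n e : H) : Prop where
  hn : h ≠ n
  ne : n ≠ e
  he : h ≠ e
  cyc : (Γ.nxt h = n ∧ Γ.nxt n = e ∧ Γ.nxt e = h) ∨ (Γ.nxt n = h ∧ Γ.nxt h = e ∧ Γ.nxt e = n)

lemma Inv_Tri.symm {h n e : H} (T : Inv_Tri Γ h n e) : Inv_Tri Γ n h e :=
  ⟨T.hn.symm, T.he, T.ne, T.cyc.symm⟩

lemma Inv_nxt_inj {a b : H} (h : Γ.nxt a = Γ.nxt b) : a = b := by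
  rw [← Γ.nxt3 a, ← Γ.nxt3 b, h]

lemma Inv_tri {h : H} (hl : Γ.nxt h ≠ h) : Inv_Tri Γ h (Γ.nxt h) (Γ.nxt (Γ.nxt h)) where
  hn := hl.symm
  ne := fun h1 => hl (Inv_nxt_inj h1).symm
  he := fun h1 => hl (by
    have h2 := congrArg Γ.nxt h1
    rw [Γ.nxt3] at h2
    exact h2)
  cyc := Or.inl ⟨rfl, rfl, Γ.nxt3 h⟩

lemma Inv_isSt_opp {r : ℕ} {col : H → ℕ} {p : H} {c : H → ℕ} :
    IsSt Γ r col (Γ.opp p) c ↔ IsSt Γ r col p c := by
  unfold IsSt
  rw [Γ.opp_opp]
  constructor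
  · rintro ⟨h1, h2, h3, h4, h5⟩
    exact ⟨h1, h2, h3, fun h a b => h4 h b a, h5.symm⟩
  · rintro ⟨h1, h2, h3, h4, h5⟩
    exact ⟨h1, h2, h3, fun h a b => h4 h b a, h5.symm⟩

lemma Inv_Tri.adm {h n e : H} (T : Inv_Tri Γ h n e) {r : ℕ} {col : H → ℕ} {p : H} {c : H → ℕ}
    (hc : IsSt Γ r col p c) : Adm r (c h) (c n) (c e) := by
  rcases T.cyc with ⟨h1, h2, h3⟩ | ⟨h1, h2, h3⟩
  · have h4 := hc.2.2.1 h (by rw [h1]; exact T.hn.symm)
    rw [h1, h2] at h4
    exact h4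
  · have h4 := hc.2.2.1 n (by rw [h1]; exact T.hn)
    rw [h1, h2] at h4
    exact Inv_adm_swap.1 h4

/-- the value at the edge left of `h` -/
lemma Inv_Tri.far {h n e : H} (T : Inv_Tri Γ h n e) {r : ℕ} {col : H → ℕ} {c : H → ℕ}
    (hc : IsSt Γ r col h c) (c' : H → ℕ) (hag : ∀ k, k ≠ h → k ≠ n → c' k = c k)
    (hh : c' h = c (Γ.opp h)) : c' (Γ.opp n) = c n := by
  by_cases h1 : Γ.opp n = h
  · rw [h1, hh, ← h1, Γ.opp_opp]
  · rw [hag _ h1 (Γ.opp_ne n)]
    have h2 : n ≠ Γ.opp h := fun h3 => h1 (by rw [h3, Γ.opp_opp])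
    exact hc.2.2.2.1 n T.hn.symm h2

/-- the equivalence of the two conditions -/
lemma Inv_Tri.cond {h n e : H} (T : Inv_Tri Γ h n e) {r : ℕ} {col : H → ℕ} {c c' : H → ℕ}
    (hc : IsSt Γ r col h c) (hc' : IsSt Γ r col n c') (hag : ∀ k, k ≠ h → k ≠ n → c' k = c k) :
    c' h = c (Γ.opp h) ↔ c n = c' (Γ.opp n) := by
  constructor
  · intro h1
    exact (T.far hc c' hag h1).symm
  · intro h1
    exact (T.symm.far hc' c (fun k a b => (hag k b a).symm) h1).symm

open Classical in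
/-- the neighbouring colouring -/
noncomputable def Inv_nb (Γ : Fat H) (h n : H) (c : H → ℕ) (y' : ℕ) : H → ℕ :=
  fun k => if k = n then y' else if k = h then c (Γ.opp h) else c k

lemma Inv_nb_n (h n : H) (c : H → ℕ) (y' : ℕ) : Inv_nb Γ h n c y' n = y' := by
  simp [Inv_nb]

lemma Inv_nb_h {h n : H} (hn : h ≠ n) (c : H → ℕ) (y' : ℕ) :
    Inv_nb Γ h n c y' h = c (Γ.opp h) := by
  simp [Inv_nb, hn]

lemma Inv_nb_k {h n k : H} (h1 : k ≠ h) (h2 : k ≠ n) (c : H → ℕ) (y' : ℕ) :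
    Inv_nb Γ h n c y' k = c k := by
  simp [Inv_nb, h1, h2]

lemma Inv_Tri.isSt {h n e : H} (T : Inv_Tri Γ h n e) {r : ℕ} {col : H → ℕ} {c : H → ℕ}
    (hc : IsSt Γ r col h c) {y' : ℕ} (h1 : Adm r (c (Γ.opp h)) y' (c e))
    (h2 : y' = c n + 1 ∨ c n = y' + 1) : IsSt Γ r col n (Inv_nb Γ h n c y') := by
  have bn := Inv_nb_n (Γ := Γ) h n c y'
  have bh := Inv_nb_h (Γ := Γ) T.hn c y'
  have be : Inv_nb Γ h n c y' e = c e := Inv_nb_k T.he.symm T.ne.symm c y'
  have bo : Inv_nb Γ h n c y' (Γ.opp n) = c n :=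
    T.far hc _ (fun k a b => Inv_nb_k a b c y') bh
  refine ⟨?_, ?_, ?_, ?_, ?_⟩
  · intro k
    by_cases k1 : k = n
    · rw [k1, bn]
      unfold Adm at h1
      omega
    · by_cases k2 : k = h
      · rw [k2, bh]
        exact hc.1 _
      · rw [Inv_nb_k k2 k1]
        exact hc.1 _
  · intro k hk
    have k1 : k ≠ n := by
      rintro rfl
      rcases T.cyc with h3 | h3
      · exact T.ne (hk.symm.trans h3.2.1)
      · exact T.hn (h3.1.symm.trans hk)
    have k2 : k ≠ h := by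
      rintro rfl
      rcases T.cyc with h3 | h3
      · exact T.hn (hk.symm.trans h3.1)
      · exact T.he (hk.symm.trans h3.2.1)
    rw [Inv_nb_k k2 k1]
    exact hc.2.1 k hk
  · intro k hk
    have key : Adm r (Inv_nb Γ h n c y' h) (Inv_nb Γ h n c y' n) (Inv_nb Γ h n c y' e) := by
      rw [bh, bn, be]
      exact h1
    by_cases k1 : k = h
    · rw [k1]
      rcases T.cyc with ⟨t1, t2, t3⟩ | ⟨t1, t2, t3⟩
      · rw [t1, t2]; exact key
      · rw [t2, t3]; exact Inv_adm_rot.1 (Inv_adm_swap.1 key)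
    · by_cases k2 : k = n
      · rw [k2]
        rcases T.cyc with ⟨t1, t2, t3⟩ | ⟨t1, t2, t3⟩
        · rw [t2, t3]; exact Inv_adm_rot.1 key
        · rw [t1, t2]; exact Inv_adm_swap.1 key
      · by_cases k3 : k = e
        · rw [k3]
          rcases T.cyc with ⟨t1, t2, t3⟩ | ⟨t1, t2, t3⟩
          · rw [t3, t1]; exact Inv_adm_rot.1 (Inv_adm_rot.1 key)
          · rw [t3, t1]; exact Inv_adm_rot.1 (Inv_adm_rot.1 (Inv_adm_swap.1 key))
        · have m1 : Γ.nxt k ≠ h := by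
            intro h3
            rcases T.cyc with ⟨t1, t2, t3⟩ | ⟨t1, t2, t3⟩
            · exact k3 (Inv_nxt_inj (h3.trans t3.symm))
            · exact k2 (Inv_nxt_inj (h3.trans t1.symm))
          have m2 : Γ.nxt k ≠ n := by
            intro h3
            rcases T.cyc with ⟨t1, t2, t3⟩ | ⟨t1, t2, t3⟩
            · exact k1 (Inv_nxt_inj (h3.trans t1.symm))
            · exact k3 (Inv_nxt_inj (h3.trans t3.symm))
          have m3 : Γ.nxt k ≠ e := by
            intro h3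
            rcases T.cyc with ⟨t1, t2, t3⟩ | ⟨t1, t2, t3⟩
            · exact k2 (Inv_nxt_inj (h3.trans t2.symm))
            · exact k1 (Inv_nxt_inj (h3.trans t2.symm))
          have m4 : Γ.nxt (Γ.nxt k) ≠ h := by
            intro h3
            rcases T.cyc with ⟨t1, t2, t3⟩ | ⟨t1, t2, t3⟩
            · exact m3 (Inv_nxt_inj (h3.trans t3.symm))
            · exact m2 (Inv_nxt_inj (h3.trans t1.symm))
          have m5 : Γ.nxt (Γ.nxt k) ≠ n := by
            intro h3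
            rcases T.cyc with ⟨t1, t2, t3⟩ | ⟨t1, t2, t3⟩
            · exact m1 (Inv_nxt_inj (h3.trans t1.symm))
            · exact m3 (Inv_nxt_inj (h3.trans t3.symm))
          rw [Inv_nb_k k1 k2, Inv_nb_k m1 m2, Inv_nb_k m4 m5]
          exact hc.2.2.1 k hk
  · intro k k1 k2
    by_cases k3 : k = h
    · rw [k3] at k2 ⊢
      have k4 : Γ.opp h ≠ n := fun h3 => k2 (by rw [← h3, Γ.opp_opp])
      rw [bh, Inv_nb_k (Γ.opp_ne h) k4]
    · have k4 : Γ.opp k ≠ n := fun h3 => k2 (by rw [← h3, Γ.opp_opp])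
      rw [Inv_nb_k k3 k1]
      by_cases k5 : k = Γ.opp h
      · rw [k5, Γ.opp_opp, bh]
      · have k6 : Γ.opp k ≠ h := fun h3 => k5 (by rw [← h3, Γ.opp_opp])
        rw [Inv_nb_k k6 k4]
        exact hc.2.2.2.1 k k3 k5
  · rw [bn, bo]
    exact h2

open Classical in
/-- the general term of the product of the two matrices -/
noncomputable def Inv_G (Γ : Fat H) {K : Type} [Field K] (A : K) (h n e : H) (c c₁ c' : H → ℕ) : K :=
  (if (∀ k, k ≠ h → k ≠ n → c₁ k = c' k) ∧ c₁ n = c' (Γ.opp n) then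
    coef A (c' (Γ.opp n)) (c' n) (c' h) (c₁ h) (c' e) else 0) *
  (if (∀ k, k ≠ h → k ≠ n → c' k = c k) ∧ c' h = c (Γ.opp h) then
    coef A (c (Γ.opp h)) (c h) (c n) (c' n) (c e) else 0)

open Classical in
lemma Inv_Tri.G_nb {h n e : H} (T : Inv_Tri Γ h n e) {r : ℕ} {col : H → ℕ} {c c₁ : H → ℕ}
    (hc : IsSt Γ r col h c) (A : ℂ) (y' : ℕ) :
    Inv_G Γ A h n e c c₁ (Inv_nb Γ h n c y') =
      if (∀ k, k ≠ h → c₁ k = c k) then
        coef A (c n) y' (c (Γ.opp h)) (c₁ h) (c e) *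
          coef A (c (Γ.opp h)) (c h) (c n) y' (c e) else 0 := by
  have bn := Inv_nb_n (Γ := Γ) h n c y'
  have bh := Inv_nb_h (Γ := Γ) T.hn c y'
  have be : Inv_nb Γ h n c y' e = c e := Inv_nb_k T.he.symm T.ne.symm c y'
  have bo : Inv_nb Γ h n c y' (Γ.opp n) = c n :=
    T.far hc _ (fun k a b => Inv_nb_k a b c y') bh
  unfold Inv_G
  rw [if_pos (c := (∀ k, k ≠ h → k ≠ n → Inv_nb Γ h n c y' k = c k) ∧
    Inv_nb Γ h n c y' h = c (Γ.opp h)) ⟨fun k a b => Inv_nb_k a b c y', bh⟩]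
  rw [bn, bh, be, bo]
  by_cases h1 : ∀ k, k ≠ h → c₁ k = c k
  · rw [if_pos h1, if_pos]
    exact ⟨fun k a b => by rw [Inv_nb_k a b]; exact h1 k a, h1 n T.hn.symm⟩
  · rw [if_neg h1, if_neg, zero_mul]
    rintro ⟨h2, h3⟩
    apply h1
    intro k hk
    by_cases hkn : k = n
    · rw [hkn]; exact h3
    · rw [h2 k hk hkn, Inv_nb_k hk hkn]

open Classical in
lemma Inv_Tri.sum {h n e : H} (T : Inv_Tri Γ h n e) {r : ℕ} (hr : 2 ≤ r) {col : H → ℕ}
    {c c₁ : H → ℕ} (hc : IsSt Γ r col h c) (hc₁ : IsSt Γ r col h c₁) {A : ℂ}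
    (hA : IsPrimitiveRoot A (4 * r)) {P : (H → ℕ) → Prop}
    (hP : ∀ c', P c' ↔ IsSt Γ r col n c') [Fintype {c' // P c'}] :
    ∑ c' : {c' // P c'}, Inv_G Γ A h n e c c₁ c'.1 = if c₁ = c then 1 else 0 := by
  have hne : Inv_nb Γ h n c (c n + 1) ≠ Inv_nb Γ h n c (c n - 1) := by
    intro h1
    have h2 := congrFun h1 n
    rw [Inv_nb_n, Inv_nb_n] at h2
    omega
  have hadm := T.adm hc
  have hadm₁ := T.adm hc₁
  have hch : c h = c (Γ.opp h) + 1 ∨ c (Γ.opp h) = c h + 1 := hc.2.2.2.2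
  rw [Inv_sum (fun c' => Inv_G Γ A h n e c c₁ c') (Inv_nb Γ h n c (c n + 1))
    (Inv_nb Γ h n c (c n - 1)) hne]
  · rw [T.G_nb hc, T.G_nb hc]
    by_cases h1 : ∀ k, k ≠ h → c₁ k = c k
    · rw [if_pos h1, if_pos h1]
      have h2 : c₁ h = c (Γ.opp h) + 1 ∨ c (Γ.opp h) = c₁ h + 1 := by
        rw [← h1 (Γ.opp h) (Γ.opp_ne h)]
        exact hc₁.2.2.2.2
      rw [Inv_two hA (c e) (c h) (c₁ h) (hc.1 _) (hc.1 _) hch h2]
      by_cases h3 : c₁ h = c h
      · rw [if_pos h3, if_pos]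
        funext k
        by_cases hk : k = h
        · rw [hk, h3]
        · exact h1 k hk
      · rw [if_neg h3, if_neg]
        intro h4
        exact h3 (by rw [h4])
    · rw [if_neg h1, if_neg h1, add_zero, if_neg]
      intro h4
      exact h1 fun k _ => by rw [h4]
  · intro hnP
    rw [T.G_nb hc]
    by_cases h1 : ∀ k, k ≠ h → c₁ k = c k
    · rw [if_pos h1]
      rw [h1 n T.hn.symm, h1 e T.he.symm] at hadm₁
      refine Inv_wallp hA hr hch hadm hadm₁ fun h2 => hnP ((hP _).2 (T.isSt hc h2 (Or.inl rfl)))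
    · rw [if_neg h1]
  · intro hnP
    rw [T.G_nb hc]
    by_cases h1 : ∀ k, k ≠ h → c₁ k = c k
    · rw [if_pos h1]
      refine Inv_wallm (r := r) hch hadm fun h2 => hnP ((hP _).2 (T.isSt hc h2.1 (Or.inr h2.2)))
    · rw [if_neg h1]
  · intro c' hc' hG
    have hc'' := (hP c').1 hc'
    have h1 : (∀ k, k ≠ h → k ≠ n → c' k = c k) ∧ c' h = c (Γ.opp h) := by
      by_contra h2
      apply hG
      dsimp only [Inv_G]
      rw [if_neg h2, mul_zero]
    have h3 : ∀ y', c' n = y' → c' = Inv_nb Γ h n c y' := by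
      intro y' hy
      funext k
      by_cases k1 : k = n
      · rw [k1, Inv_nb_n, hy]
      · by_cases k2 : k = h
        · rw [k2, Inv_nb_h T.hn, h1.2]
        · rw [Inv_nb_k k2 k1, h1.1 k k2 k1]
    have h4 : c' n = c' (Γ.opp n) + 1 ∨ c' (Γ.opp n) = c' n + 1 := hc''.2.2.2.2
    rw [T.far hc c' h1.1 h1.2] at h4
    rcases h4 with h4 | h4
    · exact Or.inl (h3 _ h4)
    · exact Or.inr (h3 _ (by omega))

open Classical in
lemma Inv_G_swap (A : ℂ) (h n e : H) (c c₁ c' : H → ℕ) :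
    Inv_G Γ A h n e c c₁ c' =
        (if (∀ k, k ≠ n → k ≠ h → c₁ k = c' k) ∧ c₁ n = c' (Γ.opp n) then
          coef A (c' (Γ.opp n)) (c' n) (c' h) (c₁ h) (c' e) else 0) *
        (if (∀ k, k ≠ n → k ≠ h → c' k = c k) ∧ c' h = c (Γ.opp h) then
          coef A (c (Γ.opp h)) (c h) (c n) (c' n) (c e) else 0) := by
  unfold Inv_G
  congr 1
  · refine if_congr (and_congr_left fun _ => ?_) rfl rfl
    exact ⟨fun h k a b => h k b a, fun h k a b => h k b a⟩
  · refine if_congr (and_congr_left fun _ => ?_) rfl rfl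
    exact ⟨fun h k a b => h k b a, fun h k a b => h k b a⟩

end

lemma Inv_tw_ne {A : ℂ} (hA0 : A ≠ 0) (x x' : ℕ) : tw A x x' ≠ 0 := by
  unfold tw
  split_ifs
  · exact zpow_ne_zero _ hA0
  · exact neg_ne_zero.2 (zpow_ne_zero _ hA0)

open Classical in
theorem thm_Inv : St_Inv := by
  intro H _ Γ r hr col A hA q t s
  have hA0 : A ≠ 0 := hA.ne_zero (by omega)
  cases s with
  | turn _ _ hl hq =>
    subst hq
    have T := Inv_tri hl
    refine ⟨?_, ?_⟩
    · ext c₁ c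
      rw [Matrix.mul_apply, Matrix.one_apply]
      let inst : Fintype {c' // IsSt Γ r col (Γ.opp (Γ.nxt q)) c'} :=
        (inferInstance : Fintype (St Γ r col (Γ.opp (Γ.nxt q))))
      have h1 := T.sum hr (c := c.1) (c₁ := c₁.1) c.2 c₁.2 hA
        (P := IsSt Γ r col (Γ.opp (Γ.nxt q))) (fun c' => Inv_isSt_opp)
      refine Eq.trans ?_ (h1.trans ?_)
      · exact Finset.sum_congr rfl fun c' _ => rfl
      · exact if_congr (Subtype.ext_iff.symm) rfl rfl
    · ext c₁ c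
      rw [Matrix.mul_apply, Matrix.one_apply]
      let inst : Fintype {c' // IsSt Γ r col q c'} := (inferInstance : Fintype (St Γ r col q))
      have h1 := T.symm.sum hr (c := c.1) (c₁ := c₁.1) (Inv_isSt_opp.1 c.2)
        (Inv_isSt_opp.1 c₁.2) hA (P := IsSt Γ r col q) (fun c' => Iff.rfl)
      refine Eq.trans ?_ (h1.trans ?_)
      · refine Finset.sum_congr rfl fun c' _ => ?_
        rw [Inv_G_swap]
        rfl
      · exact if_congr (Subtype.ext_iff.symm) rfl rfl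
  | cross _ _ b hq =>
    subst hq
    refine ⟨?_, ?_⟩
    · ext c₁ c
      rw [Matrix.mul_apply, Matrix.one_apply]
      rw [Fintype.sum_eq_single (α := St Γ r col t) ⟨c.1, Inv_isSt_opp.1 c.2⟩]
      · show (if c₁.1 = c.1 then _ else 0) * (if c.1 = c.1 then _ else 0) = _
        rw [if_pos (rfl : c.1 = c.1)]
        by_cases h1 : c₁ = c
        · rw [if_pos h1, if_pos (congrArg Subtype.val h1)]
          cases b
          · exact mul_inv_cancel₀ (Inv_tw_ne hA0 _ _)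
          · exact inv_mul_cancel₀ (Inv_tw_ne hA0 _ _)
        · rw [if_neg h1, if_neg (fun h2 => h1 (Subtype.ext h2)), zero_mul]
      · intro c' hc'
        show (if c₁.1 = c'.1 then _ else 0) * (if c'.1 = c.1 then _ else 0) = _
        rw [if_neg (fun h2 => hc' (Subtype.ext h2)), mul_zero]
    · ext c₁ c
      rw [Matrix.mul_apply, Matrix.one_apply]
      rw [Fintype.sum_eq_single (α := St Γ r col (Γ.opp t)) ⟨c.1, Inv_isSt_opp.2 c.2⟩]
      · show (if c₁.1 = c.1 then _ else 0) * (if c.1 = c.1 then _ else 0) = _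
        rw [if_pos (rfl : c.1 = c.1)]
        by_cases h1 : c₁ = c
        · rw [if_pos h1, if_pos (congrArg Subtype.val h1)]
          cases b
          · exact inv_mul_cancel₀ (Inv_tw_ne hA0 _ _)
          · exact mul_inv_cancel₀ (Inv_tw_ne hA0 _ _)
        · rw [if_neg h1, if_neg (fun h2 => h1 (Subtype.ext h2)), zero_mul]
      · intro c' hc'
        show (if c₁.1 = c'.1 then _ else 0) * (if c'.1 = c.1 then _ else 0) = _
        rw [if_neg (fun h2 => hc' (Subtype.ext h2)), mul_zero]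

end Pool.Agent.AMS
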