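import Pool.Agent.AMS.St

/-!
# AMS/Iso (helper96): the matrices of paths preserve the weighted norm
-/

set_option autoImplicit false

namespace Pool.Agent.AMS

private theorem Iso_sum {X Y : Type} [Fintype X] [Fintype Y] [DecidableEq X] (U : Matrix Y X ℂ)
    (U' : Matrix X Y ℂ) (WX : X → ℝ) (WY : Y → ℝ)
    (hW : ∀ c c', (starRingEnd ℂ) (U c' c) * (WY c' : ℂ) = U' c c' * (WX c : ℂ)) (hU : U' * U = 1)
    (v : X → ℂ) : ∑ c', WY c' * ‖U.mulVec v c'‖ ^ 2 = ∑ c, WX c * ‖v c‖ ^ 2 := by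
  have h1 : ∀ c', (starRingEnd ℂ) (U.mulVec v c') = ∑ c, (starRingEnd ℂ) (U c' c) *
      (starRingEnd ℂ) (v c) := by
    intro c'
    rw [Matrix.mulVec, dotProduct, map_sum]
    exact Finset.sum_congr rfl fun c _ => map_mul _ _ _
  have h2 : ∀ c, ∑ c', U' c c' * U.mulVec v c' = v c := by
    intro c
    have h3 : U'.mulVec (U.mulVec v) = v := by
      rw [Matrix.mulVec_mulVec, hU, Matrix.one_mulVec]
    exact congrFun h3 c
  apply Complex.ofReal_injective
  push_cast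
  calc ∑ c', (WY c' : ℂ) * (‖U.mulVec v c'‖ : ℂ) ^ 2
      = ∑ c', ∑ c, (starRingEnd ℂ) (v c) * (WX c : ℂ) * (U' c c' * U.mulVec v c') := by
        refine Finset.sum_congr rfl fun c' _ => ?_
        rw [← Complex.conj_mul', h1, Finset.sum_mul, Finset.mul_sum]
        refine Finset.sum_congr rfl fun c _ => ?_
        linear_combination (starRingEnd ℂ) (v c) * U.mulVec v c' * hW c c'
    _ = ∑ c, (starRingEnd ℂ) (v c) * (WX c : ℂ) * ∑ c', U' c c' * U.mulVec v c' := by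
        rw [Finset.sum_comm]
        exact Finset.sum_congr rfl fun c _ => (Finset.mul_sum _ _ _).symm
    _ = ∑ c, (WX c : ℂ) * (‖v c‖ : ℂ) ^ 2 := by
        refine Finset.sum_congr rfl fun c _ => ?_
        rw [h2, ← Complex.conj_mul']
        ring

private theorem Iso_step (hI : St_Inv) {H : Type} [Finite H] (Γ : Fat H) (r : ℕ) (hr : 2 ≤ r)
    (col : H → ℕ) (W : (H → ℕ) → ℝ) (hW : IsW Γ r col W) {q t : H} (s : Step Γ q t) :
    (∀ v : St Γ r col q → ℂ, nrm Γ W ((s.mat Γ r col (A0 r)).mulVec v) = nrm Γ W v) ∧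
      ∀ v : St Γ r col t → ℂ, nrm Γ W ((s.mat' Γ r col (A0 r)).mulVec v) = nrm Γ W v := by
  have hA : IsPrimitiveRoot (A0 r) (4 * r) := by
    have h := Complex.isPrimitiveRoot_exp (4 * r) (by omega)
    have e : A0 r = Complex.exp (2 * Real.pi * Complex.I / ((4 * r : ℕ) : ℂ)) := by
      rw [A0]
      push_cast
      rfl
    rw [e]
    exact h
  obtain ⟨h1, h2⟩ := hI H Γ r hr col (A0 r) hA q t s
  have h3 : ∀ v : St Γ r col q → ℂ, nrm Γ W ((s.mat Γ r col (A0 r)).mulVec v) = nrm Γ W v := by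
    intro v
    unfold nrm
    rw [Iso_sum (s.mat Γ r col (A0 r)) (s.mat' Γ r col (A0 r)) (fun c => W c.1) (fun c => W c.1)
      (fun c c' => hW.2 q t s c c') h1 v]
  refine ⟨h3, fun v => ?_⟩
  rw [← h3 ((s.mat' Γ r col (A0 r)).mulVec v), Matrix.mulVec_mulVec, h2, Matrix.one_mulVec]

/-- `St_Iso` -/
theorem thm_Iso (hI : St_Inv) : St_Iso := by
  intro H _ Γ r hr col W hW p q w
  induction w with
  | nil =>
    intro v
    rw [Path.mat, Matrix.one_mulVec]
  | fwd w s ih =>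
    intro v
    rw [Path.mat, ← Matrix.mulVec_mulVec, (Iso_step hI Γ r hr col W hW s).1, ih]
  | bwd w s ih =>
    intro v
    rw [Path.mat, ← Matrix.mulVec_mulVec, (Iso_step hI Γ r hr col W hW s).2, ih]

end Pool.Agent.AMS
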