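import Pool.Agent.AMS.StP

/-!
# AMS (KCO): products of commutators of elements of `NullK` are `1` modulo `(hh A) ^ 2`
-/

set_option autoImplicit false

namespace Pool.Agent.AMS

private theorem KComm_mulMem (R : Subring ℂ) {a b c : Type} [Fintype b] (X : Matrix a b ℂ)
    (Y : Matrix b c ℂ) (hX : ∀ i j, X i j ∈ R) (hY : ∀ i j, Y i j ∈ R) :
    ∀ i j, (X * Y) i j ∈ R := by
  intro i j
  rw [Matrix.mul_apply]
  exact R.sum_mem fun k _ => R.mul_mem (hX i k) (hY k j)

private theorem KComm_hhMem (A : ℂ) : hh A ∈ RR A := by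
  have hA : A ∈ RR A := Subring.subset_closure (Set.mem_singleton A)
  exact (RR A).sub_mem ((RR A).pow_mem hA 4) (RR A).one_mem

private theorem KComm_hhNe (p : ℕ) (hp : 3 ≤ p) (A : ℂ) (hA : IsPrimitiveRoot A (4 * p)) :
    hh A ≠ 0 := by
  intro h
  have h1 : A ^ 4 = 1 := by
    have h2 : A ^ 4 - 1 = 0 := h
    exact sub_eq_zero.1 h2
  have h3 := hA.dvd_of_pow_eq_one 4 h1
  have h4 := Nat.le_of_dvd (by norm_num) h3
  omega

section

variable {ι : Type} [Fintype ι] [DecidableEq ι]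

private theorem KComm_comm (s : ι → ℂ) (Y : Matrix ι ι ℂ)
    (h : ∀ i j, Y i j ≠ 0 → s i = s j) : Matrix.diagonal s * Y = Y * Matrix.diagonal s := by
  ext i j
  rw [Matrix.diagonal_mul, Matrix.mul_diagonal]
  by_cases h0 : Y i j = 0
  · rw [h0, mul_zero, zero_mul]
  · rw [h i j h0, mul_comm]

private theorem KComm_alg (U V U' V' Y Y' : Matrix ι ι ℂ) (s s' : ι → ℂ) (x : ℂ)
    (hU : U = Matrix.diagonal s + x • Y) (hV : V = Matrix.diagonal s' + x • Y')
    (h1 : ∀ i j, Y i j ≠ 0 → s' i = s' j) (h2 : ∀ i j, Y' i j ≠ 0 → s i = s j)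
    (hUi : U' * U = 1) (hVi : V' * V = 1) :
    V' * (U' * (V * U)) = 1 + x ^ 2 • (V' * (U' * (Y' * Y - Y * Y'))) := by
  have e1 := KComm_comm s' Y h1
  have e2 := KComm_comm s Y' h2
  have e3 : Matrix.diagonal s' * Matrix.diagonal s = Matrix.diagonal s * Matrix.diagonal s' := by
    rw [Matrix.diagonal_mul_diagonal, Matrix.diagonal_mul_diagonal]
    congr 1
    funext i
    exact mul_comm _ _
  have key : V * U = U * V + x ^ 2 • (Y' * Y - Y * Y') := by
    rw [hU, hV]
    simp only [Matrix.add_mul, Matrix.mul_add, Matrix.smul_mul, Matrix.mul_smul, smul_add,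
      smul_sub, e1, e2, e3, pow_two, mul_smul]
    abel
  rw [key, Matrix.mul_add, Matrix.mul_add, ← Matrix.mul_assoc U' U V, hUi, Matrix.one_mul, hVi,
    Matrix.mul_smul, Matrix.mul_smul]

end

theorem thm_KComm (_hC : St_Cyc) (hP : St_Par) (hA : St_App) (hK : St_KMod) : St_KComm := by
  intro H _ Γ q f hf p hp hp3 A hAp col
  have hmem := hP.2.2.2 p hp hp3 A hAp H Γ col
  have hne := KComm_hhNe p hp3 A hAp
  have hh1 := KComm_hhMem A
  induction hf with
  | nil =>
    refine ⟨0, fun _ _ => (RR A).zero_mem, ?_⟩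
    rw [smul_zero, add_zero]
    rfl
  | @comm u v hu hv =>
    obtain ⟨σ, -, hσ⟩ := hK H Γ q u hu
    obtain ⟨σ', -, hσ'⟩ := hK H Γ q v hv
    obtain ⟨p1, Y, hY, hUY⟩ := hσ p hp hp3 A hAp col
    obtain ⟨p2, Y', hY', hVY⟩ := hσ' p hp hp3 A hAp col
    obtain ⟨i1, -⟩ := hA.2 H Γ p (by omega) col A hAp q q u
    obtain ⟨i2, -⟩ := hA.2 H Γ p (by omega) col A hAp q q v
    have par1 : ∀ c' c, Y c' c ≠ 0 → (fun k => ((c'.1 k : ℕ) : ZMod 2)) =
        fun k => ((c.1 k : ℕ) : ZMod 2) := by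
      intro c' c h0
      by_cases hcc : c' = c
      · rw [hcc]
      · funext k
        refine p1 c' c ?_ k
        rw [hUY c' c, if_neg hcc, zero_add]
        exact mul_ne_zero hne h0
    have par2 : ∀ c' c, Y' c' c ≠ 0 → (fun k => ((c'.1 k : ℕ) : ZMod 2)) =
        fun k => ((c.1 k : ℕ) : ZMod 2) := by
      intro c' c h0
      by_cases hcc : c' = c
      · rw [hcc]
      · funext k
        refine p2 c' c ?_ k
        rw [hVY c' c, if_neg hcc, zero_add]
        exact mul_ne_zero hne h0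
    have hU : u.mat Γ p col A =
        Matrix.diagonal (fun c : St Γ p col q => ((σ fun k => ((c.1 k : ℕ) : ZMod 2) : ℤ) : ℂ)) +
          hh A • Y := by
      ext c' c
      rw [hUY c' c, Matrix.add_apply, Matrix.smul_apply, smul_eq_mul]
      congr 1
      by_cases hcc : c' = c
      · rw [if_pos hcc, hcc, Matrix.diagonal_apply_eq]
      · rw [if_neg hcc, Matrix.diagonal_apply_ne _ hcc]
    have hV : v.mat Γ p col A =
        Matrix.diagonal (fun c : St Γ p col q => ((σ' fun k => ((c.1 k : ℕ) : ZMod 2) : ℤ) : ℂ)) +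
          hh A • Y' := by
      ext c' c
      rw [hVY c' c, Matrix.add_apply, Matrix.smul_apply, smul_eq_mul]
      congr 1
      by_cases hcc : c' = c
      · rw [if_pos hcc, hcc, Matrix.diagonal_apply_eq]
      · rw [if_neg hcc, Matrix.diagonal_apply_ne _ hcc]
    refine ⟨v.inv.mat Γ p col A * (u.inv.mat Γ p col A * (Y' * Y - Y * Y')), ?_, ?_⟩
    · refine KComm_mulMem _ _ _ (hmem q q v.inv) (KComm_mulMem _ _ _ (hmem q q u.inv) ?_)
      intro i j
      rw [Matrix.sub_apply]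
      exact (RR A).sub_mem (KComm_mulMem _ _ _ hY' hY i j) (KComm_mulMem _ _ _ hY hY' i j)
    · rw [hA.1, hA.1, hA.1]
      exact KComm_alg _ _ _ _ Y Y' _ _ (hh A) hU hV
        (fun c' c h0 => by
          have := par1 c' c h0
          show ((σ' (fun k => ((c'.1 k : ℕ) : ZMod 2)) : ℤ) : ℂ) = _
          rw [this])
        (fun c' c h0 => by
          have := par2 c' c h0
          show ((σ (fun k => ((c'.1 k : ℕ) : ZMod 2)) : ℤ) : ℂ) = _
          rw [this]) i1 i2
  | @mul u v hu hv ihu ihv =>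
    obtain ⟨Z, hZ, hZ1⟩ := ihu
    obtain ⟨Z', hZ', hZ1'⟩ := ihv
    refine ⟨Z + Z' + hh A ^ 2 • (Z' * Z), ?_, ?_⟩
    · intro i j
      rw [Matrix.add_apply, Matrix.add_apply, Matrix.smul_apply, smul_eq_mul]
      exact (RR A).add_mem ((RR A).add_mem (hZ i j) (hZ' i j))
        ((RR A).mul_mem ((RR A).pow_mem hh1 2) (KComm_mulMem _ _ _ hZ' hZ i j))
    · rw [hA.1, hZ1, hZ1']
      simp only [Matrix.add_mul, Matrix.mul_add, Matrix.one_mul, Matrix.mul_one, Matrix.smul_mul,
        Matrix.mul_smul, smul_add, smul_smul]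
      abel

end Pool.Agent.AMS
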