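import Pool.Agent.AMS.StP

/-!
# AMS (KMD): elements of `NullK` act by signs modulo `A ^ 4 - 1`
-/

set_option autoImplicit false

namespace Pool.Agent.AMS

/-- All entries are in `ℤ[A]`. -/
private def KMod_IM {ι κ : Type} (A : ℂ) (M : Matrix ι κ ℂ) : Prop := ∀ i j, M i j ∈ RR A

private lemma KMod_IM_mul {ι κ μ : Type} [Fintype κ] {A : ℂ} {M : Matrix ι κ ℂ}
    {N : Matrix κ μ ℂ} (hM : KMod_IM A M) (hN : KMod_IM A N) : KMod_IM A (M * N) := by
  intro i j
  rw [Matrix.mul_apply]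
  exact sum_mem fun k _ => mul_mem (hM i k) (hN k j)

private lemma KMod_IM_add {ι κ : Type} {A : ℂ} {M N : Matrix ι κ ℂ}
    (hM : KMod_IM A M) (hN : KMod_IM A N) : KMod_IM A (M + N) :=
  fun i j => add_mem (hM i j) (hN i j)

private lemma KMod_IM_neg {ι κ : Type} {A : ℂ} {M : Matrix ι κ ℂ}
    (hM : KMod_IM A M) : KMod_IM A (-M) := fun i j => neg_mem (hM i j)

private lemma KMod_IM_smul {ι κ : Type} {A x : ℂ} {M : Matrix ι κ ℂ} (hx : x ∈ RR A)
    (hM : KMod_IM A M) : KMod_IM A (x • M) := fun i j => mul_mem hx (hM i j)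

section

variable {H : Type} [Finite H] (Γ : Fat H) (r : ℕ) (col : H → ℕ) (p : H)

/-- The parities of a state. -/
private def KMod_nu {Γ : Fat H} {r : ℕ} {col : H → ℕ} {p : H} (c : St Γ r col p) : H → ZMod 2 :=
  fun k => ((c.1 k : ℕ) : ZMod 2)

/-- The diagonal matrix of signs. -/
private noncomputable def KMod_S (σ : (H → ZMod 2) → ℤ) :
    Matrix (St Γ r col p) (St Γ r col p) ℂ :=
  Matrix.diagonal fun c => ((σ (KMod_nu c) : ℤ) : ℂ)

omit [Finite H] in
private lemma KMod_S_int (A : ℂ) (σ : (H → ZMod 2) → ℤ) : KMod_IM A (KMod_S Γ r col p σ) := by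
  intro i j
  rw [KMod_S, Matrix.diagonal_apply]
  split_ifs
  · exact intCast_mem _ _
  · exact zero_mem _

private lemma KMod_S_mul (σ τ : (H → ZMod 2) → ℤ) :
    KMod_S Γ r col p σ * KMod_S Γ r col p τ = KMod_S Γ r col p fun ν => σ ν * τ ν := by
  rw [KMod_S, KMod_S, KMod_S, Matrix.diagonal_mul_diagonal]
  congr 1
  funext c
  push_cast
  rfl

omit [Finite H] in
private lemma KMod_S_one : KMod_S Γ r col p (fun _ => 1) = 1 := by
  rw [KMod_S]
  simp

private lemma KMod_iff {Γ : Fat H} {r : ℕ} {col : H → ℕ} {p : H} {A : ℂ}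
    {σ : (H → ZMod 2) → ℤ} {U : Matrix (St Γ r col p) (St Γ r col p) ℂ}
    (h1 : ∀ c' c, U c' c ≠ 0 → ∀ k, ((c'.1 k : ℕ) : ZMod 2) = ((c.1 k : ℕ) : ZMod 2))
    (h2 : ∃ Y, KMod_IM A Y ∧ U = KMod_S Γ r col p σ + hh A • Y) : SgnMod Γ r col A σ U := by
  obtain ⟨Y, hY, hU⟩ := h2
  refine ⟨h1, Y, hY, fun c' c => ?_⟩
  rw [hU, Matrix.add_apply, Matrix.smul_apply, smul_eq_mul, KMod_S, Matrix.diagonal_apply]
  congr 1
  by_cases h : c' = c
  · subst h
    rw [if_pos rfl, if_pos rfl]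
    rfl
  · rw [if_neg h, if_neg h]

private lemma KMod_of {Γ : Fat H} {r : ℕ} {col : H → ℕ} {p : H} {A : ℂ}
    {σ : (H → ZMod 2) → ℤ} {U : Matrix (St Γ r col p) (St Γ r col p) ℂ}
    (h : SgnMod Γ r col A σ U) : ∃ Y, KMod_IM A Y ∧ U = KMod_S Γ r col p σ + hh A • Y := by
  obtain ⟨_, Y, hY, hU⟩ := h
  refine ⟨Y, hY, ?_⟩
  ext c' c
  rw [hU, Matrix.add_apply, Matrix.smul_apply, smul_eq_mul, KMod_S, Matrix.diagonal_apply]
  congr 1
  by_cases h : c' = c
  · subst h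
    rw [if_pos rfl, if_pos rfl]
    rfl
  · rw [if_neg h, if_neg h]

end

/-- The sign of a parity. -/
private def KMod_s (a : ZMod 2) : ℤ := if a = 0 then 1 else -1

private lemma KMod_s_val (a : ZMod 2) : KMod_s a = 1 ∨ KMod_s a = -1 := by
  unfold KMod_s
  split_ifs
  · exact Or.inl rfl
  · exact Or.inr rfl

private lemma KMod_s_cast (n : ℕ) : ((KMod_s (n : ZMod 2) : ℤ) : ℂ) = (-1) ^ n := by
  unfold KMod_s
  by_cases h : Even n
  · have h1 : (n : ZMod 2) = 0 := by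
      rw [ZMod.natCast_eq_zero_iff]
      exact h.two_dvd
    rw [if_pos h1, h.neg_one_pow]
    simp
  · have h1 : (n : ZMod 2) ≠ 0 := by
      rw [Ne, ZMod.natCast_eq_zero_iff]
      exact fun h2 => h (even_iff_two_dvd.mpr h2)
    rw [if_neg h1, (Nat.not_even_iff_odd.mp h).neg_one_pow]
    simp

private lemma KMod_pow {A B : ℂ} (hh0 : hh A ∈ RR A) (hB : ∃ y ∈ RR A, B = -1 + hh A * y)
    (n : ℕ) : ∃ y ∈ RR A, B ^ n = (-1) ^ n + hh A * y := by
  obtain ⟨y0, hy0, hB⟩ := hB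
  induction n with
  | zero => exact ⟨0, zero_mem _, by simp⟩
  | succ n ih =>
    obtain ⟨y, hy, h⟩ := ih
    refine ⟨(-1) ^ n * y0 - y + hh A * y * y0, ?_, ?_⟩
    · exact add_mem (sub_mem (mul_mem (pow_mem (neg_mem (one_mem _)) n) hy0) hy)
        (mul_mem (mul_mem hh0 hy) hy0)
    · rw [pow_succ, h, hB, pow_succ]
      ring

private lemma KMod_isSt {H : Type} (Γ : Fat H) {r : ℕ} {col : H → ℕ} {h : H} {c : H → ℕ}
    (hc : IsSt Γ r col (Γ.opp h) c) : IsSt Γ r col h c := by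
  obtain ⟨h1, h2, h3, h4, h5⟩ := hc
  refine ⟨h1, h2, h3, fun k hk hk' => h4 k hk' ?_, ?_⟩
  · rw [Γ.opp_opp]
    exact hk
  · rw [Γ.opp_opp] at h5
    exact h5.symm

/-- The matrix of a loop is diagonal. -/
private lemma KMod_loop {H : Type} [Finite H] (Γ : Fat H) (r : ℕ) (col : H → ℕ) (A : ℂ) (h : H) :
    (loop Γ h).mat Γ r col A =
      Matrix.diagonal fun c => tw A (c.1 (Γ.opp h)) (c.1 h) * tw A (c.1 (Γ.opp h)) (c.1 h) := by
  show (Step.cross (Γ := Γ) h (Γ.opp h) false rfl).mat' Γ r col A *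
    ((Step.cross (Γ := Γ) h (Γ.opp h) true rfl).mat Γ r col A * 1) = _
  rw [Matrix.mul_one]
  ext c' c
  rw [Matrix.mul_apply, Matrix.diagonal_apply]
  obtain ⟨c0, hc0⟩ : ∃ c0 : St Γ r col h, c0.1 = c.1 := ⟨⟨c.1, KMod_isSt Γ c.2⟩, rfl⟩
  rw [Finset.sum_eq_single c0]
  · have e1 : (Step.cross (Γ := Γ) h (Γ.opp h) true rfl).mat Γ r col A c0 c =
        tw A (c.1 (Γ.opp h)) (c.1 h) := by
      simp only [Step.mat, Matrix.of_apply]
      rw [if_pos hc0]
      simp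
    rw [e1]
    by_cases hcc : c' = c
    · subst hcc
      have e2 : (Step.cross (Γ := Γ) h (Γ.opp h) false rfl).mat' Γ r col A c' c0 =
          tw A (c'.1 (Γ.opp h)) (c'.1 h) := by
        simp only [Step.mat', Matrix.of_apply, hc0]
        simp
      rw [e2, if_pos rfl]
    · have hne : c'.1 ≠ c0.1 := fun h => hcc (Subtype.ext (h.trans hc0))
      have e2 : (Step.cross (Γ := Γ) h (Γ.opp h) false rfl).mat' Γ r col A c' c0 = 0 := by
        simp only [Step.mat', Matrix.of_apply]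
        exact if_neg hne
      rw [e2, if_neg hcc, zero_mul]
  · intro d _ hne
    have hne' : d.1 ≠ c.1 := fun h => hne (Subtype.ext (h.trans hc0.symm))
    have e1 : (Step.cross (Γ := Γ) h (Γ.opp h) true rfl).mat Γ r col A d c = 0 := by
      simp only [Step.mat, Matrix.of_apply]
      exact if_neg hne'
    rw [e1, mul_zero]
  · intro h
    exact absurd (Finset.mem_univ _) h

theorem thm_KMod (hC : St_Cyc) (hP : St_Par) (hA : St_App) : St_KMod := by
  intro H _ Γ q u hu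
  obtain ⟨hP1, hP2, hP3, hP4⟩ := hP
  obtain ⟨hA1, hA2⟩ := hA
  -- the parities of the path vanish
  have hpar : ∀ k, u.par k = 0 := by
    induction hu with
    | nil => intro k; rfl
    | loop h w =>
      intro k
      rw [hP2, hP2, hP3]
      have h1 : (loop Γ h).par k = 0 := by
        show (0 : ZMod 2) + 0 + 0 = 0
        simp
      rw [h1, add_zero]
      exact CharTwo.add_self_eq_zero _
    | mul _ _ ih1 ih2 => intro k; rw [hP2, ih1, ih2, add_zero]
    | inv _ ih => intro k; rw [hP3, ih]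
  have hpr : ∀ (p : ℕ) (A : ℂ) (col : H → ℕ) (c' c : St Γ p col q),
      u.mat Γ p col A c' c ≠ 0 → ∀ k, ((c'.1 k : ℕ) : ZMod 2) = ((c.1 k : ℕ) : ZMod 2) := by
    intro p A col c' c h k
    rw [hP1 H Γ p col A q q u c' c h k, hpar k, add_zero]
  suffices hmain : ∃ σ : (H → ZMod 2) → ℤ, (∀ ν, σ ν = 1 ∨ σ ν = -1) ∧
      ∀ (p : ℕ) (_ : p.Prime) (_ : 3 ≤ p) (A : ℂ) (_ : IsPrimitiveRoot A (4 * p)) (col : H → ℕ),
        ∃ Y, KMod_IM A Y ∧ u.mat Γ p col A = KMod_S Γ p col q σ + hh A • Y by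
    obtain ⟨σ, h1, h2⟩ := hmain
    exact ⟨σ, h1, fun p hp h3 A hAp col => KMod_iff (hpr p A col) (h2 p hp h3 A hAp col)⟩
  clear hpr hpar
  induction hu with
  | nil =>
    refine ⟨fun _ => 1, fun _ => Or.inl rfl, fun p hp h3 A hAp col => ⟨0, ?_, ?_⟩⟩
    · intro i j
      exact zero_mem _
    · rw [KMod_S_one, smul_zero, add_zero]
      rfl
  | loop h w =>
    refine ⟨fun ν => KMod_s (ν (Γ.opp h) + w.par (Γ.opp h)), fun ν => KMod_s_val _,
      fun p hp h3 A hAp col => ?_⟩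
    obtain ⟨hinv, -, -, -, y0, hy0, hA2'⟩ := hC p hp h3 A hAp
    have hA0 : A ≠ 0 := hAp.ne_zero (by omega)
    have hAR : A ∈ RR A := Subring.subset_closure rfl
    have hhR : hh A ∈ RR A := sub_mem (pow_mem hAR 4) (one_mem _)
    -- the matrix of the loop
    have hL : ∃ Y, KMod_IM A Y ∧ (loop Γ h).mat Γ p col A =
        KMod_S Γ p col (Γ.opp h) (fun ν => KMod_s (ν (Γ.opp h))) + hh A • Y := by
      have hB1 : ∃ y ∈ RR A, A ^ 2 = -1 + hh A * y := ⟨y0, hy0, by linear_combination hA2'⟩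
      have hB2 : ∃ y ∈ RR A, (A⁻¹) ^ 2 = -1 + hh A * y := by
        refine ⟨(A⁻¹) ^ 2 * y0, mul_mem (pow_mem hinv 2) hy0, ?_⟩
        have h4 : (A⁻¹) ^ 2 * A ^ 2 = 1 := by
          rw [← mul_pow, inv_mul_cancel₀ hA0, one_pow]
        linear_combination (A⁻¹) ^ 2 * hA2' - h4
      have htw : ∀ c : St Γ p col (Γ.opp h), ∃ y ∈ RR A,
          tw A (c.1 (Γ.opp h)) (c.1 h) * tw A (c.1 (Γ.opp h)) (c.1 h) =
            ((KMod_s (KMod_nu c (Γ.opp h)) : ℤ) : ℂ) + hh A * y := by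
        intro c
        have e0 : ((KMod_s (KMod_nu c (Γ.opp h)) : ℤ) : ℂ) = (-1) ^ (c.1 (Γ.opp h)) :=
          KMod_s_cast _
        rw [e0]
        unfold tw
        by_cases hx : c.1 h = c.1 (Γ.opp h) + 1
        · rw [if_pos hx]
          obtain ⟨y, hy, hyy⟩ := KMod_pow hhR hB2 (c.1 (Γ.opp h))
          refine ⟨y, hy, ?_⟩
          rw [← hyy, zpow_neg, zpow_natCast, ← pow_mul, inv_pow, ← mul_inv, ← pow_add]
          congr 2
          ring
        · rw [if_neg hx]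
          obtain ⟨y, hy, hyy⟩ := KMod_pow hhR hB1 (c.1 (Γ.opp h) + 2)
          refine ⟨y, hy, ?_⟩
          have e1 : ((-1 : ℂ)) ^ (c.1 (Γ.opp h)) = (-1) ^ (c.1 (Γ.opp h) + 2) := by
            rw [pow_add]; norm_num
          have e2 : A ^ (((c.1 (Γ.opp h) : ℕ) : ℤ) + 2) = A ^ (c.1 (Γ.opp h) + 2) := by
            rw [← zpow_natCast]
            push_cast
            rfl
          rw [e1, ← hyy, e2, neg_mul_neg, ← pow_mul, ← pow_add]
          congr 1
          ring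
      choose y hy hyy using htw
      refine ⟨Matrix.diagonal y, ?_, ?_⟩
      · intro i j
        rw [Matrix.diagonal_apply]
        split_ifs
        · exact hy i
        · exact zero_mem _
      · rw [KMod_loop, KMod_S, ← Matrix.diagonal_smul, Matrix.diagonal_add]
        congr 1
        funext c
        exact hyy c
    obtain ⟨Y0, hY0, hL⟩ := hL
    have hW : KMod_IM A (w.mat Γ p col A) := fun i j => hP4 p hp h3 A hAp H Γ col _ _ w i j
    have hW' : KMod_IM A (w.inv.mat Γ p col A) := fun i j => hP4 p hp h3 A hAp H Γ col _ _ w.inv i j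
    have hWW := (hA2 H Γ p (by omega) col A hAp _ _ w).1
    have hcomm : KMod_S Γ p col (Γ.opp h) (fun ν => KMod_s (ν (Γ.opp h))) * w.mat Γ p col A =
        w.mat Γ p col A * KMod_S Γ p col q (fun ν => KMod_s (ν (Γ.opp h) + w.par (Γ.opp h))) := by
      ext c₁ c
      rw [KMod_S, KMod_S, Matrix.diagonal_mul, Matrix.mul_diagonal]
      by_cases h0 : w.mat Γ p col A c₁ c = 0
      · rw [h0, mul_zero, zero_mul]
      · have h1 := hP1 H Γ p col A _ _ w c₁ c h0 (Γ.opp h)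
        have h2 : KMod_nu c₁ (Γ.opp h) = KMod_nu c (Γ.opp h) + w.par (Γ.opp h) := h1
        rw [h2, mul_comm]
    refine ⟨w.inv.mat Γ p col A * (Y0 * w.mat Γ p col A), KMod_IM_mul hW' (KMod_IM_mul hY0 hW), ?_⟩
    rw [hA1, hA1, hL, Matrix.add_mul, hcomm, Matrix.mul_add, ← Matrix.mul_assoc, hWW,
      Matrix.one_mul, Matrix.smul_mul, Matrix.mul_smul]
  | @mul u v _ _ ih1 ih2 =>
    obtain ⟨σ, hσ, h1⟩ := ih1
    obtain ⟨τ, hτ, h2⟩ := ih2
    refine ⟨fun ν => τ ν * σ ν, fun ν => ?_, fun p hp h3 A hAp col => ?_⟩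
    · rcases hσ ν with h | h <;> rcases hτ ν with h' | h' <;> simp [h, h']
    · obtain ⟨Y, hY, hu⟩ := h1 p hp h3 A hAp col
      obtain ⟨Y', hY', hv⟩ := h2 p hp h3 A hAp col
      have hAR : A ∈ RR A := Subring.subset_closure rfl
      have hhR : hh A ∈ RR A := sub_mem (pow_mem hAR 4) (one_mem _)
      refine ⟨Y' * KMod_S Γ p col q σ + KMod_S Γ p col q τ * Y + hh A • (Y' * Y),
        KMod_IM_add (KMod_IM_add (KMod_IM_mul hY' (KMod_S_int _ _ _ _ _ _))
          (KMod_IM_mul (KMod_S_int _ _ _ _ _ _) hY)) (KMod_IM_smul hhR (KMod_IM_mul hY' hY)), ?_⟩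
      rw [hA1, hu, hv, ← KMod_S_mul, Matrix.add_mul, Matrix.mul_add, Matrix.mul_add,
        Matrix.smul_mul, Matrix.mul_smul, Matrix.smul_mul, Matrix.mul_smul, smul_add, smul_add]
      abel
  | @inv u _ ih =>
    obtain ⟨σ, hσ, h1⟩ := ih
    refine ⟨σ, hσ, fun p hp h3 A hAp col => ?_⟩
    obtain ⟨Y, hY, hu⟩ := h1 p hp h3 A hAp col
    have hSS : KMod_S Γ p col q σ * KMod_S Γ p col q σ = 1 := by
      rw [KMod_S_mul, ← KMod_S_one]
      congr 1
      funext ν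
      rcases hσ ν with h | h <;> simp [h]
    have hUU := (hA2 H Γ p (by omega) col A hAp _ _ u).1
    have hU' : KMod_IM A (u.inv.mat Γ p col A) := fun i j => hP4 p hp h3 A hAp H Γ col _ _ u.inv i j
    refine ⟨-(u.inv.mat Γ p col A * (Y * KMod_S Γ p col q σ)),
      KMod_IM_neg (KMod_IM_mul hU' (KMod_IM_mul hY (KMod_S_int _ _ _ _ _ _))), ?_⟩
    have h2 : u.inv.mat Γ p col A * (u.mat Γ p col A * KMod_S Γ p col q σ) =
        KMod_S Γ p col q σ := by
      rw [← Matrix.mul_assoc, hUU, Matrix.one_mul]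
    rw [hu, Matrix.add_mul, hSS, Matrix.mul_add, Matrix.mul_one, Matrix.smul_mul,
      Matrix.mul_smul] at h2
    rw [smul_neg, ← sub_eq_add_neg]
    exact eq_sub_of_add_eq h2

end Pool.Agent.AMS
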