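import Pool.Agent.AMS.St

/-!
# AMS/LPo (helper96): from `A = 2` to primitive `4r`-th roots of unity
-/

set_option autoImplicit false

namespace Pool.Agent.AMS

open Polynomial

/-- rational functions -/
def LPoP (f : (K : Type) → [Field K] → K → K) : Prop :=
  ∃ N D : ℤ[X], aeval (2 : ℝ) D ≠ 0 ∧
    ∀ (K : Type) [Field K] (A : K), A ≠ 0 → aeval A D ≠ 0 → f K A = aeval A N / aeval A D

theorem LPo_one : LPoP fun K _ _ => (1 : K) := by
  refine ⟨1, 1, by simp, ?_⟩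
  intro K _ A _ _
  simp

theorem LPo_zero : LPoP fun K _ _ => (0 : K) := by
  refine ⟨0, 1, by simp, ?_⟩
  intro K _ A _ _
  simp

theorem LPo_mul {f g : (K : Type) → [Field K] → K → K} (hf : LPoP f) (hg : LPoP g) :
    LPoP fun K _ A => f K A * g K A := by
  obtain ⟨N, D, h1, h2⟩ := hf
  obtain ⟨N', D', h1', h2'⟩ := hg
  refine ⟨N * N', D * D', ?_, ?_⟩
  · rw [map_mul]
    exact mul_ne_zero h1 h1'
  · intro K _ A hA hD
    rw [map_mul] at hD
    obtain ⟨h3, h4⟩ := mul_ne_zero_iff.1 hD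
    beta_reduce
    rw [h2 K A hA h3, h2' K A hA h4, map_mul, map_mul, div_mul_div_comm]

theorem LPo_add {f g : (K : Type) → [Field K] → K → K} (hf : LPoP f) (hg : LPoP g) :
    LPoP fun K _ A => f K A + g K A := by
  obtain ⟨N, D, h1, h2⟩ := hf
  obtain ⟨N', D', h1', h2'⟩ := hg
  refine ⟨N * D' + D * N', D * D', ?_, ?_⟩
  · rw [map_mul]
    exact mul_ne_zero h1 h1'
  · intro K _ A hA hD
    rw [map_mul] at hD
    obtain ⟨h3, h4⟩ := mul_ne_zero_iff.1 hD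
    beta_reduce
    rw [h2 K A hA h3, h2' K A hA h4, map_add, map_mul, map_mul, map_mul, div_add_div _ _ h3 h4]

theorem LPo_neg {f : (K : Type) → [Field K] → K → K} (hf : LPoP f) :
    LPoP fun K _ A => -f K A := by
  obtain ⟨N, D, h1, h2⟩ := hf
  refine ⟨-N, D, h1, ?_⟩
  intro K _ A hA hD
  beta_reduce
  rw [h2 K A hA hD, map_neg, neg_div]

theorem LPo_zpow (n : ℤ) : LPoP fun _ _ A => A ^ n := by
  rcases Int.eq_nat_or_neg n with ⟨m, rfl | rfl⟩
  · refine ⟨X ^ m, 1, by simp, ?_⟩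
    intro K _ A _ _
    simp
  · refine ⟨1, X ^ m, by simp, ?_⟩
    intro K _ A _ _
    simp

theorem LPo_cur (n : ℤ) : LPoP fun _ _ A => cur A n := by
  have h := LPo_add (LPo_zpow n) (LPo_neg (LPo_zpow (-n)))
  obtain ⟨N, D, h1, h2⟩ := h
  refine ⟨N, D, h1, ?_⟩
  intro K _ A hA hD
  rw [← h2 K A hA hD]
  show cur A n = A ^ n + -A ^ (-n)
  rw [cur, sub_eq_add_neg]

theorem LPo_curinv (x : ℕ) : LPoP fun _ _ A => (cur A (2 * (x : ℤ) + 2))⁻¹ := by
  refine ⟨X ^ (2 * x + 2), X ^ (2 * (2 * x + 2)) - 1, ?_, ?_⟩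
  · rw [map_sub, map_pow, aeval_X, map_one, sub_ne_zero]
    exact (one_lt_pow₀ (by norm_num) (by omega)).ne'
  · intro K _ A hA hD
    rw [map_sub, map_pow, aeval_X, map_one] at hD
    rw [map_sub, map_pow, map_pow, aeval_X, map_one]
    show (A ^ (2 * (x : ℤ) + 2) - A ^ (-(2 * (x : ℤ) + 2)))⁻¹ = _
    have h1 : A ^ (2 * (x : ℤ) + 2) = A ^ (2 * x + 2) := by
      rw [← zpow_natCast]
      push_cast
      rfl
    have h2 : A ^ (-(2 * (x : ℤ) + 2)) = (A ^ (2 * x + 2))⁻¹ := by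
      rw [zpow_neg, h1]
    rw [h1, h2]
    have h3 : A ^ (2 * x + 2) ≠ 0 := pow_ne_zero _ hA
    have h4 : A ^ (2 * (2 * x + 2)) = A ^ (2 * x + 2) * A ^ (2 * x + 2) := by
      rw [← pow_add]
      congr 1
      ring
    rw [h4] at hD ⊢
    generalize A ^ (2 * x + 2) = a at *
    have h5 : a - a⁻¹ = (a * a - 1) / a := by
      field_simp
    rw [h5, inv_div]

theorem LPo_coef (x x' y y' z : ℕ) : LPoP fun _ _ A => coef A x x' y y' z := by
  unfold coef
  by_cases h1 : x' = x + 1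
  · by_cases h2 : y' = y + 1
    · simp only [if_pos h1, if_pos h2, div_eq_mul_inv]
      exact LPo_mul (LPo_cur _) (LPo_curinv x)
    · simp only [if_pos h1, if_neg h2, div_eq_mul_inv, mul_inv]
      exact LPo_mul (LPo_mul (LPo_cur _) (LPo_cur _)) (LPo_mul (LPo_curinv x) (LPo_curinv y))
  · by_cases h2 : y' = y + 1
    · simp only [if_neg h1, if_pos h2]
      exact LPo_one
    · simp only [if_neg h1, if_neg h2, div_eq_mul_inv]
      exact LPo_neg (LPo_mul (LPo_cur _) (LPo_curinv y))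

theorem LPo_tw (x x' : ℕ) : LPoP fun _ _ A => tw A x x' := by
  unfold tw
  by_cases h1 : x' = x + 1
  · simp only [if_pos h1]
    exact LPo_zpow _
  · simp only [if_neg h1]
    exact LPo_neg (LPo_zpow _)

theorem LPo_twinv (x x' : ℕ) : LPoP fun _ _ A => (tw A x x')⁻¹ := by
  unfold tw
  by_cases h1 : x' = x + 1
  · simp only [if_pos h1, ← zpow_neg]
    exact LPo_zpow _
  · simp only [if_neg h1, inv_neg, ← zpow_neg]
    exact LPo_neg (LPo_zpow _)

theorem LPo_tr (bo : Bool) (x y z : ℕ) (p : (K : Type) → [Field K] → K → K × K)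
    (h1 : LPoP fun K _ A => (p K A).1) (h2 : LPoP fun K _ A => (p K A).2) :
    (LPoP fun K _ A => (tr A bo x y z (p K A)).1) ∧ LPoP fun K _ A => (tr A bo x y z (p K A)).2 := by
  unfold tr
  cases bo
  · exact ⟨LPo_mul h1 (LPo_coef _ _ _ _ _), LPo_mul h1 (LPo_coef _ _ _ _ _)⟩
  · exact ⟨LPo_add (LPo_mul h1 (LPo_coef _ _ _ _ _)) (LPo_mul h2 (LPo_coef _ _ _ _ _)),
      LPo_add (LPo_mul h1 (LPo_coef _ _ _ _ _)) (LPo_mul h2 (LPo_coef _ _ _ _ _))⟩

theorem LPo_alpha (H : Type) (Γ : Fat H) (l a : H) (σ : Bool) (k : ℤ) (ρ : Red Γ l a σ k) (t : ℕ) :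
    (LPoP fun _ _ A => (ρ.alpha t A).1) ∧ LPoP fun _ _ A => (ρ.alpha t A).2 := by
  induction ρ with
  | base => exact ⟨LPo_one, LPo_zero⟩
  | up w hk ih => exact ⟨LPo_mul ih.1 (LPo_tw _ _), LPo_mul ih.2 (LPo_tw _ _)⟩
  | dn w hk ih => exact ⟨LPo_mul ih.1 (LPo_twinv _ _), LPo_mul ih.2 (LPo_twinv _ _)⟩
  | ccw w hl hb ih => exact LPo_tr _ _ _ _ (fun _ _ A => w.alpha t A) ih.1 ih.2
  | cw w hq hl hb ih => exact LPo_tr _ _ _ _ (fun _ _ A => w.alpha t A) ih.1 ih.2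

/-- `St_LPo` -/
theorem thm_LPo : St_LPo := by
  intro H Γ l a σ k ρ t h0
  obtain ⟨N, D, h1, h2⟩ := (LPo_alpha H Γ l a σ k ρ t).1
  have h3 := h2 ℝ 2 (by norm_num) h1
  beta_reduce at h3
  have hN : N ≠ 0 := by
    rintro rfl
    apply h0
    rw [h3, map_zero, zero_div]
  have hD : D ≠ 0 := by
    rintro rfl
    exact h1 (map_zero _)
  have hND : (N * D).map (algebraMap ℤ ℂ) ≠ 0 := by
    rw [Ne, Polynomial.map_eq_zero_iff (RingHom.injective_int _)]
    exact mul_ne_zero hN hD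
  set S := ((N * D).map (algebraMap ℤ ℂ)).roots.toFinset with hS
  refine ⟨S.sup orderOf + 1, ?_⟩
  intro r hr A hA
  have hr0 : 4 * r ≠ 0 := by omega
  have hA0 : A ≠ 0 := hA.ne_zero hr0
  have hAS : A ∉ S := by
    intro hAS
    have h4 : orderOf A ≤ S.sup orderOf := Finset.le_sup hAS
    rw [← hA.eq_orderOf] at h4
    omega
  have h5 : aeval A (N * D) ≠ 0 := by
    intro h5
    apply hAS
    rw [hS, Multiset.mem_toFinset, Polynomial.mem_roots hND, Polynomial.IsRoot.def,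
      Polynomial.eval_map_algebraMap]
    exact h5
  rw [map_mul] at h5
  obtain ⟨h6, h7⟩ := mul_ne_zero_iff.1 h5
  have h8 := h2 ℂ A hA0 h7
  beta_reduce at h8
  rw [h8]
  exact div_ne_zero h6 h7

end Pool.Agent.AMS
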