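import Pool.Agent.AMS.NB

/-!
# Lifting of the spectrum from the residue
-/

set_option autoImplicit false

namespace Pool.Agent.AMS

open Polynomial

section

variable {ι : Type}

theorem Lift_expand {F : Type} [Field F] (T : Module.End F (ι →₀ F)) (v : ι →₀ F) (s : Finset ι)
    (hs : v.support ⊆ s) (j : ι) :
    (T v) j = ∑ k ∈ s, v k * (T (Finsupp.single k 1)) j := by
  have h1 : v = ∑ k ∈ s, v k • Finsupp.single k (1 : F) := by
    conv_lhs => rw [← Finsupp.sum_single v]
    rw [Finsupp.sum_of_support_subset v hs]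
    · simp only [Finsupp.smul_single, smul_eq_mul, mul_one]
    · simp
  conv_lhs => rw [h1]
  rw [map_sum, Finsupp.finsetSum_apply]
  refine Finset.sum_congr rfl fun k _ => ?_
  rw [map_smul, Finsupp.smul_apply, smul_eq_mul]

variable {K : Type} [Field K] {P : Place K}

/-- All entries of `T` have the residues given by `T₀`. -/
def LiftE (P : Place K) (T : Module.End K (ι →₀ K)) (T₀ : Module.End ℚ (ι →₀ ℚ)) : Prop :=
  ∀ i j, P.Res ((T (Finsupp.single i 1)) j) ((T₀ (Finsupp.single i 1)) j)

variable {T T' : Module.End K (ι →₀ K)} {T₀ T₀' : Module.End ℚ (ι →₀ ℚ)}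

theorem LiftE_add (h : LiftE P T T₀) (h' : LiftE P T' T₀') : LiftE P (T + T') (T₀ + T₀') :=
  fun i j => by
    simp only [LinearMap.add_apply, Finsupp.add_apply]; exact NB_add (h i j) (h' i j)

theorem LiftE_sub (h : LiftE P T T₀) (h' : LiftE P T' T₀') : LiftE P (T - T') (T₀ - T₀') :=
  fun i j => by
    simp only [LinearMap.sub_apply, Finsupp.sub_apply]; exact NB_sub (h i j) (h' i j)

theorem LiftE_smul {c : K} {q : ℚ} (hc : P.Res c q) (h : LiftE P T T₀) :
    LiftE P (c • T) (q • T₀) := fun i j => by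
  simp only [LinearMap.smul_apply, Finsupp.smul_apply, smul_eq_mul]; exact NB_mul hc (h i j)

theorem LiftE_one : LiftE (ι := ι) P 1 1 := fun i j => by
  classical
  simp only [Module.End.one_apply, Finsupp.single_apply]
  split_ifs
  · exact NB_one
  · exact NB_zero

theorem LiftE_mul (h : LiftE P T T₀) (h' : LiftE P T' T₀') : LiftE P (T * T') (T₀ * T₀') := by
  intro i j
  simp only [Module.End.mul_apply]
  have hs : (T₀' (Finsupp.single i 1)).support ⊆ (T' (Finsupp.single i 1)).support := by
    intro k hk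
    rw [Finsupp.mem_support_iff] at hk ⊢
    exact NB_ne (h' i k) hk
  rw [Lift_expand T _ _ (Finset.Subset.refl _) j, Lift_expand T₀ _ _ hs j]
  exact NB_sum _ _ _ fun k _ => NB_mul (h' i k) (h k j)

theorem LiftE_C {c : K} {q : ℚ} (hc : P.Res c q) (Y : Module.End K (ι →₀ K))
    (X : Module.End ℚ (ι →₀ ℚ)) : LiftE P (aeval Y (C c)) (aeval X (C q)) := by
  rw [aeval_C, aeval_C, Algebra.algebraMap_eq_smul_one, Algebra.algebraMap_eq_smul_one]
  exact LiftE_smul hc LiftE_one

theorem LiftE_poly {Y : Module.End K (ι →₀ K)} {X : Module.End ℚ (ι →₀ ℚ)} (h : LiftE P Y X)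
    (f : ℚ[X]) : ∃ g : K[X], LiftE P (aeval Y g) (aeval X f) := by
  induction f using Polynomial.induction_on' with
  | add f f' hf hf' =>
    obtain ⟨g, hg⟩ := hf
    obtain ⟨g', hg'⟩ := hf'
    exact ⟨g + g', by rw [map_add, map_add]; exact LiftE_add hg hg'⟩
  | monomial n q =>
    refine ⟨C (q : K) * Polynomial.X ^ n, ?_⟩
    rw [← C_mul_X_pow_eq_monomial, map_mul, map_mul]
    refine LiftE_mul (LiftE_C (NB_rat q) Y X) ?_
    rw [map_pow, map_pow, aeval_X, aeval_X]
    induction n with
    | zero => rw [pow_zero, pow_zero]; exact LiftE_one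
    | succ n ih => rw [pow_succ, pow_succ]; exact LiftE_mul ih h

theorem LiftE_prod {Y : Module.End K (ι →₀ K)} {X : Module.End ℚ (ι →₀ ℚ)} (h : LiftE P Y X)
    (u : ℤ → K) (hu : ∀ j, P.Res (u j) j) (S : Finset ℤ) :
    LiftE P (aeval Y (∏ j ∈ S, (Polynomial.X - C (u j)))) (aeval X (prodQ S)) := by
  classical
  unfold prodQ
  induction S using Finset.induction_on with
  | empty => rw [Finset.prod_empty, Finset.prod_empty, map_one, map_one]; exact LiftE_one
  | insert j S hj ih =>
    rw [Finset.prod_insert hj, Finset.prod_insert hj, map_mul, map_mul]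
    refine LiftE_mul ?_ ih
    rw [map_sub, map_sub, aeval_X, aeval_X]
    exact LiftE_sub h (LiftE_C (hu j) Y X)

theorem Lift_subsmul (c : K) : (c - 1) • (1 : Module.End K (ι →₀ K)) = c • 1 - 1 := by
  refine LinearMap.ext fun x => ?_
  simp only [LinearMap.smul_apply, LinearMap.sub_apply, Module.End.one_apply]
  rw [sub_smul, one_smul]

theorem Lift_mulsub (A B D : Module.End K (ι →₀ K)) : A * (B - D) = A * B - A * D := by
  refine LinearMap.ext fun x => ?_
  simp only [LinearMap.sub_apply, Module.End.mul_apply, map_sub]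

theorem Lift_subzero (A : Module.End K (ι →₀ K)) : A - 0 = A := by
  refine LinearMap.ext fun x => ?_
  simp only [LinearMap.sub_apply, LinearMap.zero_apply]
  exact sub_zero _

theorem Lift_scale {U Y : Module.End K (ι →₀ K)} {A : K} (hY : U - 1 = (A - 1) • Y) (u : ℤ → K)
    (hu : ∀ j : ℤ, A ^ j - 1 = (A - 1) * u j) (S : Finset ℤ) :
    aeval U (prodA S A) = (A - 1) ^ S.card • aeval Y (∏ j ∈ S, (Polynomial.X - C (u j))) := by
  classical
  unfold prodA
  induction S using Finset.induction_on with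
  | empty => simp
  | insert j S hj ih =>
    rw [Finset.prod_insert hj, Finset.prod_insert hj, Finset.card_insert_of_notMem hj, map_mul,
      map_mul, ih, pow_succ']
    have h1 : aeval U (Polynomial.X - C (A ^ j)) = (A - 1) • aeval Y (Polynomial.X - C (u j)) := by
      rw [map_sub, map_sub, aeval_X, aeval_X, aeval_C, aeval_C, Algebra.algebraMap_eq_smul_one,
        Algebra.algebraMap_eq_smul_one, smul_sub, ← hY, smul_smul, ← hu j, Lift_subsmul]
      abel
    rw [h1, smul_mul_smul_comm]

theorem Lift_coprime {S S' : Finset ℤ} (h : Disjoint S' S) :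
    IsCoprime (prodQ S') (prodQ S) := by
  unfold prodQ
  refine IsCoprime.prod_left fun i hi => IsCoprime.prod_right fun j hj => ?_
  refine isCoprime_X_sub_C_of_isUnit_sub ?_
  rw [isUnit_iff_ne_zero, sub_ne_zero]
  intro hij
  have : i = j := by exact_mod_cast hij
  subst this
  exact (Finset.disjoint_left.1 h hi) hj

theorem Lift_zero {R D : Module.End K (ι →₀ K)} {R₀ : Module.End ℚ (ι →₀ ℚ)} (hR : LiftE P R R₀)
    (hD : LiftE P D 0) (hRD : R = R * D) : R = 0 := by
  have key : ∀ n : ℕ, ∀ i j, ∃ y ∈ P.O, (R (Finsupp.single i 1)) j = P.ω ^ n * y := by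
    intro n
    induction n with
    | zero => intro i j; exact ⟨_, (hR i j).1, by rw [pow_zero, one_mul]⟩
    | succ n ih =>
      intro i j
      have h1 : (R (Finsupp.single i 1)) j = (R (D (Finsupp.single i 1))) j := by
        conv_lhs => rw [hRD]
        rfl
      rw [h1, Lift_expand R _ _ (Finset.Subset.refl _) j]
      have h2 : ∀ k, ∃ y ∈ P.O, (D (Finsupp.single i 1)) k * (R (Finsupp.single k 1)) j =
          P.ω ^ (n + 1) * y := by
        intro k
        obtain ⟨y, hy, hy'⟩ := ih k j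
        obtain ⟨d, hd, hd'⟩ := NB_res_zero_iff.1 (hD i k)
        exact ⟨d * y, P.O.mul_mem hd hy, by rw [hd', hy']; ring⟩
      choose y hy hy' using h2
      refine ⟨∑ k ∈ (D (Finsupp.single i 1)).support, y k, P.O.sum_mem fun k _ => hy k, ?_⟩
      rw [Finset.mul_sum]
      exact Finset.sum_congr rfl fun k _ => hy' k
  refine Finsupp.lhom_ext' fun i => LinearMap.ext_ring ?_
  ext j
  exact P.sep _ fun n => key n i j

end

theorem thm_Lift (hC : St_Cur) : St_Lift := by
  classical
  intro ι K _ P a ha U X hUX S hS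
  have hA : P.A a - 1 ≠ 0 := (hC K P a ha 0 0).2.2.2.2.1
  have hu : ∀ j : ℤ, ∃ u, P.Res u j ∧ P.A a ^ j - 1 = (P.A a - 1) * u :=
    fun j => (hC K P a ha 0 j).2.2.2.1
  choose u hu1 hu2 using hu
  set Y : Module.End K (ι →₀ K) := (P.A a - 1)⁻¹ • (U - 1) with hYd
  have hY : U - 1 = (P.A a - 1) • Y := by rw [hYd, smul_smul, mul_inv_cancel₀ hA, one_smul]
  have hYX : LiftE P Y X := by
    intro i j
    have h := hUX i j
    have h1 : (Y (Finsupp.single i 1)) j = ((U (Finsupp.single i 1)) j -
        (Finsupp.single i 1 : ι →₀ K) j) / (P.A a - 1) := by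
      rw [hYd]
      simp only [LinearMap.smul_apply, LinearMap.sub_apply, Module.End.one_apply,
        Finsupp.smul_apply, Finsupp.sub_apply, smul_eq_mul]
      rw [div_eq_inv_mul]
    rw [h1]; exact h
  have hz : ∀ T : Finset ℤ, aeval U (prodA T (P.A a)) = 0 ↔
      aeval Y (∏ j ∈ T, (Polynomial.X - C (u j))) = 0 := by
    intro T
    rw [Lift_scale hY u hu2 T]
    exact smul_eq_zero_iff_right (pow_ne_zero _ hA)
  have hS1 := (hz S).1 hS
  refine ⟨?_, fun S' hS' hX' => ?_⟩
  · have h := LiftE_prod hYX u hu1 S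
    rw [hS1] at h
    refine Finsupp.lhom_ext' fun i => LinearMap.ext_ring ?_
    ext j
    exact NB_unique (h i j) (by simpa using (NB_zero (P := P)))
  · rw [hz S']
    obtain ⟨α, β, hαβ⟩ := Lift_coprime (S := S') (S' := S \ S') Finset.sdiff_disjoint
    obtain ⟨g, hg⟩ := LiftE_poly hYX α
    have h1 : aeval X (α * prodQ (S \ S')) = 1 := by
      have h := congrArg (aeval X) hαβ
      rw [map_add, map_mul _ β, hX', mul_zero, add_zero, map_one] at h
      exact h
    have h2 : LiftE P (aeval Y (g * ∏ j ∈ S \ S', (Polynomial.X - C (u j)))) 1 := by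
      rw [← h1, map_mul, map_mul]
      exact LiftE_mul hg (LiftE_prod hYX u hu1 _)
    have h3 := LiftE_sub (LiftE_one (ι := ι) (P := P)) h2
    rw [sub_self] at h3
    refine Lift_zero (LiftE_prod hYX u hu1 S') h3 ?_
    rw [Lift_mulsub, mul_one, ← map_mul]
    have h4 : (∏ j ∈ S', (Polynomial.X - C (u j))) * (g * ∏ j ∈ S \ S', (Polynomial.X - C (u j))) =
        g * ∏ j ∈ S, (Polynomial.X - C (u j)) := by
      rw [← Finset.prod_sdiff hS']; ring
    rw [h4, map_mul, hS1, mul_zero]
    exact (Lift_subzero _).symm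

end Pool.Agent.AMS
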