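import Pool.Agent.AMS.NB

/-!
# Module Lnk: near a state the operators at level `r` are the generic ones
-/

set_option autoImplicit false

namespace Pool.Agent.AMS

section

variable {H : Type} {Γ : Fat H} {φ : H → ℤ}

theorem Lnk_even (hφ : IsFlow Γ φ) (M : ℕ) {h : H} (hl : Γ.nxt h ≠ h) :
    Even ((M : ℤ) * |φ h| + M * |φ (Γ.nxt h)| + M * |φ (Γ.nxt (Γ.nxt h))|) := by
  have h1 : Even (|φ h| + |φ (Γ.nxt h)| + |φ (Γ.nxt (Γ.nxt h))|) := by
    rcases NB_wall hφ hl with h1 | h1 | h1 <;> rw [h1] <;> rw [Int.even_iff] <;> omega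
  have h2 := h1.mul_left (M : ℤ)
  rw [mul_add, mul_add] at h2
  exact h2

/-- The correspondence between the states. -/
theorem Lnk_iff (hφ : IsFlow Γ φ) (col : H → ℕ) {n M r : ℕ} {δ : H → ℤ}
    (hG : Good Γ φ n M r δ) (q : H) (δ' : H → ℤ) (hd : ∀ h, |δ' h - δ h| ≤ n) :
    IsG Γ φ col q δ' ↔ ∃ c : St Γ r col q, ∀ h, (c.1 h : ℤ) = M * |φ h| + δ' h := by
  obtain ⟨G1, G2, G3⟩ := hG
  have ev := fun h => Lnk_even hφ M (h := h)
  have m0 : ∀ h, φ h = 0 → (M : ℤ) * |φ h| = 0 := by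
    intro h h0
    rw [h0, abs_zero, mul_zero]
  have mo : ∀ h, (M : ℤ) * |φ (Γ.opp h)| = M * |φ h| := by
    intro h
    rw [hφ.opp, abs_neg]
  have mw : ∀ h, |φ h| = |φ (Γ.nxt h)| + |φ (Γ.nxt (Γ.nxt h))| →
      (M : ℤ) * |φ h| = M * |φ (Γ.nxt h)| + M * |φ (Γ.nxt (Γ.nxt h))| := by
    intro h h1
    rw [h1, mul_add]
  have lf : ∀ h, Γ.nxt h = h → φ h = 0 := fun h hl => (hφ.zero h).2 (Or.inl hl)
  have hd' : ∀ h, δ' h ≤ δ h + n ∧ δ h ≤ δ' h + n := by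
    intro h
    have := abs_le.1 (hd h)
    constructor <;> linarith [this.1, this.2]
  constructor
  · rintro ⟨g1, g2, g3, g4, g5⟩
    have pos : ∀ h, 0 ≤ (M : ℤ) * |φ h| + δ' h := by
      intro h
      by_cases h0 : φ h = 0
      · rw [m0 h h0, zero_add]
        by_cases hl : Γ.nxt h = h
        · rw [g1 h hl]
          positivity
        · have w1 : |φ (Γ.nxt h)| = |φ (Γ.nxt (Γ.nxt h))| + |φ (Γ.nxt (Γ.nxt (Γ.nxt h)))| := by
            rw [Γ.nxt3, h0, abs_zero, add_zero]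
            have h1 := hφ.vert h hl
            rw [h0, zero_add] at h1
            rw [eq_neg_of_add_eq_zero_left h1, abs_neg]
          have w2 : |φ (Γ.nxt (Γ.nxt h))| = |φ (Γ.nxt (Γ.nxt (Γ.nxt h)))| +
              |φ (Γ.nxt (Γ.nxt (Γ.nxt (Γ.nxt h))))| := by
            rw [Γ.nxt3 (Γ.nxt h), w1, Γ.nxt3, h0, abs_zero, add_zero, zero_add]
          have v1 := g3 _ (NB_nl hl) w1
          have v2 := g3 _ (NB_nl (NB_nl hl)) w2
          rw [Γ.nxt3] at v1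
          rw [Γ.nxt3 (Γ.nxt h), Γ.nxt3] at v2
          linarith
      · have h1 := G1 h h0
        have h2 := hd' h
        linarith
    obtain ⟨c, hc⟩ : ∃ c : H → ℕ, ∀ h, (c h : ℤ) = M * |φ h| + δ' h :=
      ⟨fun h => (M * |φ h| + δ' h).toNat, fun h => Int.toNat_of_nonneg (pos h)⟩
    refine ⟨⟨c, ?_, ?_, ?_, ?_, ?_⟩, hc⟩
    · intro h
      have h1 := G2 h
      have h2 := hc h
      have h3 := hd' h
      generalize (M : ℤ) * |φ h| = a at *
      omega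
    · intro h hl
      have h2 := hc h
      rw [m0 h (lf h hl), zero_add, g1 h hl] at h2
      exact_mod_cast h2
    · have tri : ∀ h, Γ.nxt h ≠ h → (c h : ℤ) ≤ c (Γ.nxt h) + c (Γ.nxt (Γ.nxt h)) := by
        intro h hl
        rw [hc, hc, hc]
        have e1 := hd' h
        have e2 := hd' (Γ.nxt h)
        have e3 := hd' (Γ.nxt (Γ.nxt h))
        by_cases hw : |φ h| = |φ (Γ.nxt h)| + |φ (Γ.nxt (Γ.nxt h))|
        · have h1 := g3 h hl hw
          have h2 := mw h hw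
          linarith
        · have h1 := G3 h hl hw
          linarith
      intro h hl
      have t1 := tri h hl
      have t2 := tri _ (NB_nl hl)
      have t3 := tri _ (NB_nl (NB_nl hl))
      rw [Γ.nxt3] at t2
      rw [Γ.nxt3 (Γ.nxt h), Γ.nxt3] at t3
      have ev1 := ev h hl
      have ev2 := g2 h hl
      have p1 := G2 h
      have p2 := G2 (Γ.nxt h)
      have p3 := G2 (Γ.nxt (Γ.nxt h))
      have e1 := hd' h
      have e2 := hd' (Γ.nxt h)
      have e3 := hd' (Γ.nxt (Γ.nxt h))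
      have c1 := hc h
      have c2 := hc (Γ.nxt h)
      have c3 := hc (Γ.nxt (Γ.nxt h))
      rw [Int.even_iff] at ev1 ev2
      generalize (M : ℤ) * |φ h| = a1 at *
      generalize (M : ℤ) * |φ (Γ.nxt h)| = a2 at *
      generalize (M : ℤ) * |φ (Γ.nxt (Γ.nxt h))| = a3 at *
      refine ⟨?_, ?_, ?_, ?_, ?_⟩
      · rw [Nat.even_iff]
        omega
      · omega
      · omega
      · omega
      · omega
    · intro h h1 h2
      have h3 := hc h
      have h4 := hc (Γ.opp h)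
      rw [mo, g4 h h1 h2, ← h3] at h4
      exact_mod_cast h4
    · have h3 := hc q
      have h4 := hc (Γ.opp q)
      rw [mo] at h4
      generalize (M : ℤ) * |φ q| = a at *
      omega
  · rintro ⟨⟨c, s1, s2, s3, s4, s5⟩, hc⟩
    dsimp only at hc
    refine ⟨?_, ?_, ?_, ?_, ?_⟩
    · intro h hl
      have h2 := hc h
      rw [m0 h (lf h hl), zero_add, s2 h hl] at h2
      exact h2.symm
    · intro h hl
      obtain ⟨a1, a2, a3, a4, a5⟩ := s3 h hl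
      have ev1 := ev h hl
      have c1 := hc h
      have c2 := hc (Γ.nxt h)
      have c3 := hc (Γ.nxt (Γ.nxt h))
      rw [Nat.even_iff] at a1
      rw [Int.even_iff] at ev1 ⊢
      generalize (M : ℤ) * |φ h| = b1 at *
      generalize (M : ℤ) * |φ (Γ.nxt h)| = b2 at *
      generalize (M : ℤ) * |φ (Γ.nxt (Γ.nxt h))| = b3 at *
      omega
    · intro h hl hw
      obtain ⟨a1, a2, a3, a4, a5⟩ := s3 h hl
      have c1 := hc h
      have c2 := hc (Γ.nxt h)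
      have c3 := hc (Γ.nxt (Γ.nxt h))
      have h2 := mw h hw
      have a2' : (c h : ℤ) ≤ c (Γ.nxt h) + c (Γ.nxt (Γ.nxt h)) := by exact_mod_cast a2
      linarith
    · intro h h1 h2
      have h3 := hc h
      have h4 := hc (Γ.opp h)
      rw [mo, s4 h h1 h2] at h4
      linarith
    · have h3 := hc q
      have h4 := hc (Γ.opp q)
      rw [mo] at h4
      generalize (M : ℤ) * |φ q| = a at *
      omega

/-! ### The coefficients -/

theorem Lnk_gcur {K : Type} [Field K] {A : K} (hA : A ≠ 0) (M : ℕ) (m n : ℤ) :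
    gcur A (A ^ M) m n = cur A (M * m + n) := by
  unfold gcur cur
  rw [← zpow_natCast, ← zpow_mul, ← zpow_mul, ← zpow_add₀ hA, ← zpow_add₀ hA]
  congr 2
  ring

theorem Lnk_coef {K : Type} [Field K] {A : K} (hA : A ≠ 0) (M : ℕ) {x x' y y' z : ℕ}
    {mx my mz x₁ x₁' y₁ y₁' z₁ : ℤ} (h1 : (x : ℤ) = M * mx + x₁) (h2 : (x' : ℤ) = M * mx + x₁')
    (h3 : (y : ℤ) = M * my + y₁) (h4 : (y' : ℤ) = M * my + y₁') (h5 : (z : ℤ) = M * mz + z₁) :
    coef A x x' y y' z = gcoef A (A ^ M) mx my mz x₁ x₁' y₁ y₁' z₁ := by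
  have e1 : x' = x + 1 ↔ x₁' = x₁ + 1 := by
    generalize (M : ℤ) * mx = a at *
    omega
  have e2 : y' = y + 1 ↔ y₁' = y₁ + 1 := by
    generalize (M : ℤ) * my = a at *
    omega
  unfold coef gcoef
  simp only [e1, e2, Lnk_gcur hA, h1, h3, h5]
  have a1 : (M : ℤ) * mx + x₁ - (M * my + y₁) + (M * mz + z₁) + 1 =
    M * (mx - my + mz) + (x₁ - y₁ + z₁ + 1) := by ring
  have a2 : 2 * ((M : ℤ) * mx + x₁) + 2 = M * (2 * mx) + (2 * x₁ + 2) := by ring
  have a3 : (M : ℤ) * mx + x₁ + (M * my + y₁) - (M * mz + z₁) + 1 =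
    M * (mx + my - mz) + (x₁ + y₁ - z₁ + 1) := by ring
  have a4 : (M : ℤ) * mx + x₁ + (M * my + y₁) + (M * mz + z₁) + 3 =
    M * (mx + my + mz) + (x₁ + y₁ + z₁ + 3) := by ring
  have a5 : 2 * ((M : ℤ) * my + y₁) + 2 = M * (2 * my) + (2 * y₁ + 2) := by ring
  have a6 : (M : ℤ) * my + y₁ - (M * mx + x₁) + (M * mz + z₁) + 1 =
    M * (my - mx + mz) + (y₁ - x₁ + z₁ + 1) := by ring
  rw [a1, a2, a3, a4, a5, a6]

theorem Lnk_tw {K : Type} [Field K] {A : K} (hA : A ≠ 0) (M : ℕ) {x x' : ℕ}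
    {m x₁ x₁' : ℤ} (h1 : (x : ℤ) = M * m + x₁) (h2 : (x' : ℤ) = M * m + x₁') :
    tw A x x' = gtw A (A ^ M) m x₁ x₁' := by
  have e1 : x' = x + 1 ↔ x₁' = x₁ + 1 := by
    generalize (M : ℤ) * m = a at *
    omega
  unfold tw gtw
  simp only [e1, h1]
  rw [← zpow_natCast, ← zpow_mul, ← zpow_mul, ← zpow_add₀ hA, ← zpow_add₀ hA]
  congr 2
  · ring
  · congr 1
    ring

/-! ### Evaluation of the basis vectors and the far end of an edge -/

theorem Lnk_pt {K : Type} [Field K] (col : H → ℕ) (q : H) (y : H → ℤ) (a : K)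
    (δ' : GSt Γ φ col q) [Decidable (y = δ'.1)] :
    (pt Γ φ col q y a) δ' = if y = δ'.1 then a else 0 := by
  by_cases h1 : y = δ'.1
  · subst h1
    rw [NB_pt_self, Finsupp.single_eq_same, if_pos rfl]
  · rw [if_neg h1]
    by_cases h : IsG Γ φ col q y
    · rw [NB_pt_pos φ col h]
      exact Finsupp.single_eq_of_ne (fun h2 => h1 (congrArg Subtype.val h2).symm)
    · rw [NB_pt_neg φ col h]
      rfl

theorem Lnk_far {α : Type} {d b : H} (hdb : b ≠ d) {f f' : H → α}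
    (he : ∀ k, k ≠ d → k ≠ Γ.opp d → f (Γ.opp k) = f k)
    (hR : ∀ k, k ≠ d → k ≠ b → f' k = f k) (hd : f' d = f (Γ.opp d)) :
    f' (Γ.opp b) = f b := by
  by_cases h : Γ.opp b = d
  · rw [h, hd, ← h, Γ.opp_opp]
  · rw [hR _ h (Γ.opp_ne b)]
    refine he b hdb ?_
    intro h1
    rw [h1, Γ.opp_opp] at h
    exact h rfl

/-- The new colours of a turn from the edge of `d` to the edge of `b`. -/
def Lnk_up (Γ : Fat H) [DecidableEq H] (d b : H) (s : ℤ) (δ : H → ℤ) : H → ℤ :=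
  fun k => if k = b then δ b + s else if k = d then δ (Γ.opp d) else δ k

end

/-! ### Agreement of two vectors near a state -/

section

variable {H : Type} {Γ : Fat H} {φ : H → ℤ} {K : Type} [Field K]

/-- The state at the level `r` belonging to a generic state. -/
def LnkR (φ : H → ℤ) (M : ℕ) (c : H → ℕ) (δ : H → ℤ) : Prop :=
  ∀ h, (c h : ℤ) = M * |φ h| + δ h

/-- Agreement up to `m` steps from `δ`. -/
def LnkAgr (δ : H → ℤ) (M r : ℕ) (col : H → ℕ) (m : ℕ) (q : H) (f : St Γ r col q → K)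
    (g : GSt Γ φ col q →₀ K) : Prop :=
  (∀ c, f c ≠ 0 → ∃ δ₁ : GSt Γ φ col q, (∀ h, |δ₁.1 h - δ h| ≤ m) ∧ LnkR φ M c.1 δ₁.1) ∧
    (∀ δ₁, g δ₁ ≠ 0 → ∀ h, |δ₁.1 h - δ h| ≤ m) ∧
    ∀ c δ₁, LnkR φ M c.1 δ₁.1 → f c = g δ₁

theorem Lnk_lin {col : H → ℕ} {q t : H} (L : (GSt Γ φ col q →₀ K) →ₗ[K] (GSt Γ φ col t →₀ K))
    (g : GSt Γ φ col q →₀ K) (δ' : GSt Γ φ col t) :
    (L g) δ' = ∑ i ∈ g.support, g i * (L (Finsupp.single i 1)) δ' := by
  have h1 : g = ∑ i ∈ g.support, g i • Finsupp.single i (1 : K) := by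
    have h2 := (Finsupp.sum_single g).symm
    rw [Finsupp.sum] at h2
    rw [h2]
    refine Finset.sum_congr ?_ ?_
    · rw [← h2]
    · intro i _
      rw [Finsupp.smul_single, smul_eq_mul, mul_one, ← h2]
  have h3 : L g = ∑ i ∈ g.support, g i • L (Finsupp.single i (1 : K)) := by
    have h4 := congrArg L h1
    rw [map_sum] at h4
    rw [h4]
    refine Finset.sum_congr rfl ?_
    intro i _
    rw [map_smul]
  rw [h3, Finsupp.finsetSum_apply]
  refine Finset.sum_congr rfl ?_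
  intro i _
  rw [Finsupp.smul_apply, smul_eq_mul]

theorem Lnk_step (hφ : IsFlow Γ φ) {δ : H → ℤ} {n M r : ℕ} (hG : Good Γ φ n M r δ)
    {col : H → ℕ} {m : ℕ} (hm : m + 1 ≤ n) {q t : H} [Fintype (St Γ r col q)]
    (S : St Γ r col t → St Γ r col q → K)
    (L : (GSt Γ φ col q →₀ K) →ₗ[K] (GSt Γ φ col t →₀ K))
    (hA : ∀ (c' : St Γ r col t) (c : St Γ r col q) (δ' : GSt Γ φ col t) (δ₁ : GSt Γ φ col q),
      LnkR φ M c'.1 δ'.1 → LnkR φ M c.1 δ₁.1 → S c' c = (L (Finsupp.single δ₁ 1)) δ')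
    (hB : ∀ c' c, S c' c ≠ 0 → ∀ h, |(c'.1 h : ℤ) - c.1 h| ≤ 1)
    (hC : ∀ (δ₁ : GSt Γ φ col q) (δ' : GSt Γ φ col t), (L (Finsupp.single δ₁ 1)) δ' ≠ 0 →
      ∀ h, |δ'.1 h - δ₁.1 h| ≤ 1)
    {f : St Γ r col q → K} {g : GSt Γ φ col q →₀ K} (hfg : LnkAgr δ M r col m q f g) :
    LnkAgr δ M r col (m + 1) t (fun c' => ∑ c, S c' c * f c) (L g) := by
  classical
  obtain ⟨h1, h2, h3⟩ := hfg
  refine ⟨?_, ?_, ?_⟩
  · intro c' hc'
    obtain ⟨c, _, hc⟩ := Finset.exists_ne_zero_of_sum_ne_zero hc'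
    obtain ⟨δ₁, hd, hr⟩ := h1 c (right_ne_zero_of_mul hc)
    have hb := hB c' c (left_ne_zero_of_mul hc)
    have hd' : ∀ h, |((c'.1 h : ℤ) - M * |φ h|) - δ h| ≤ (m + 1 : ℕ) := by
      intro h
      have e1 := abs_le.1 (hb h)
      have e2 := abs_le.1 (hd h)
      have e3 := hr h
      rw [abs_le]
      push_cast
      constructor <;> linarith [e1.1, e1.2, e2.1, e2.2]
    have hg : IsG Γ φ col t (fun h => (c'.1 h : ℤ) - M * |φ h|) := by
      refine (Lnk_iff hφ col hG t _ ?_).2 ⟨c', fun h => by ring⟩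
      intro h
      refine (hd' h).trans ?_
      exact_mod_cast hm
    exact ⟨⟨_, hg⟩, hd', fun h => by dsimp only; ring⟩
  · intro δ' hδ' h
    rw [Lnk_lin] at hδ'
    obtain ⟨δ₁, _, hc⟩ := Finset.exists_ne_zero_of_sum_ne_zero hδ'
    have e1 := abs_le.1 (h2 δ₁ (left_ne_zero_of_mul hc) h)
    have e2 := abs_le.1 (hC δ₁ δ' (right_ne_zero_of_mul hc) h)
    rw [abs_le]
    push_cast
    constructor <;> linarith [e1.1, e1.2, e2.1, e2.2]
  · intro c' δ' hr'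
    dsimp only
    rw [Lnk_lin]
    have hex : ∀ δ₁ ∈ g.support, ∃ c : St Γ r col q, LnkR φ M c.1 δ₁.1 := by
      intro δ₁ hδ₁
      rw [Finsupp.mem_support_iff] at hδ₁
      refine (Lnk_iff hφ col hG q δ₁.1 ?_).1 δ₁.2
      intro h
      refine (h2 δ₁ hδ₁ h).trans ?_
      exact_mod_cast (Nat.le_succ m).trans hm
    choose i hi using hex
    have hs : ∑ c, S c' c * f c = ∑ c ∈ Finset.univ.filter (fun c => f c ≠ 0), S c' c * f c :=
      (Finset.sum_filter_of_ne fun c _ h => right_ne_zero_of_mul h).symm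
    rw [hs]
    symm
    refine Finset.sum_bij i ?_ ?_ ?_ ?_
    · intro a ha
      rw [Finset.mem_filter]
      refine ⟨Finset.mem_univ _, ?_⟩
      rw [h3 _ a (hi a ha)]
      exact Finsupp.mem_support_iff.1 ha
    · intro a ha a' ha' e
      apply Subtype.ext
      funext h
      have e1 := hi a ha h
      have e2 := hi a' ha' h
      rw [← e] at e2
      linarith
    · intro c hc
      obtain ⟨δ₁, _, hr⟩ := h1 c (Finset.mem_filter.1 hc).2
      have hg : δ₁ ∈ g.support := by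
        rw [Finsupp.mem_support_iff, ← h3 c δ₁ hr]
        exact (Finset.mem_filter.1 hc).2
      refine ⟨δ₁, hg, ?_⟩
      apply Subtype.ext
      funext h
      have e1 := hi δ₁ hg h
      have e2 := hr h
      rw [← e2] at e1
      exact_mod_cast e1
    · intro a ha
      rw [hA c' _ δ' a hr' (hi a ha), h3 _ a (hi a ha), mul_comm]

/-! ### The moves -/

theorem Lnk_posS {r : ℕ} {col : H → ℕ} {p d : H} {c : H → ℕ} (hp : p = d ∨ p = Γ.opp d)
    (hc : IsSt Γ r col p c) :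
    (∀ k, k ≠ d → k ≠ Γ.opp d → c (Γ.opp k) = c k) ∧
      (c d = c (Γ.opp d) + 1 ∨ c (Γ.opp d) = c d + 1) := by
  rcases hp with rfl | rfl
  · exact ⟨hc.2.2.2.1, hc.2.2.2.2⟩
  · have h1 := hc.2.2.2
    rw [Γ.opp_opp] at h1
    exact ⟨fun k a b => h1.1 k b a, h1.2.symm⟩

theorem Lnk_posG {col : H → ℕ} {p d : H} {c : H → ℤ} (hp : p = d ∨ p = Γ.opp d)
    (hc : IsG Γ φ col p c) :
    (∀ k, k ≠ d → k ≠ Γ.opp d → c (Γ.opp k) = c k) ∧
      (c d = c (Γ.opp d) + 1 ∨ c (Γ.opp d) = c d + 1) := by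
  rcases hp with rfl | rfl
  · exact ⟨hc.2.2.2.1, hc.2.2.2.2⟩
  · have h1 := hc.2.2.2
    rw [Γ.opp_opp] at h1
    exact ⟨fun k a b => h1.1 k b a, h1.2.symm⟩

/-- The relation of the colours before and after a turn. -/
def LnkT (Γ : Fat H) {α : Type} (d b : H) (f' f : H → α) : Prop :=
  (∀ k, k ≠ d → k ≠ b → f' k = f k) ∧ f' d = f (Γ.opp d)

theorem Lnk_up_iff [DecidableEq H] {d b : H} (hbd : b ≠ d) (s : ℤ) (f' f : H → ℤ) :
    Lnk_up Γ d b s f = f' ↔ LnkT Γ d b f' f ∧ f' b = f b + s := by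
  constructor
  · rintro rfl
    refine ⟨⟨?_, ?_⟩, ?_⟩
    · intro k h1 h2
      simp only [Lnk_up, if_neg h1, if_neg h2]
    · simp only [Lnk_up, if_neg hbd.symm, if_true]
    · simp only [Lnk_up, if_true]
  · rintro ⟨⟨h1, h2⟩, h3⟩
    funext k
    by_cases e1 : k = b
    · rw [e1, h3]
      simp only [Lnk_up, if_true]
    · by_cases e2 : k = d
      · rw [e2, h2]
        simp only [Lnk_up, if_neg hbd.symm, if_true]
      · rw [h1 k e2 e1]
        simp only [Lnk_up, if_neg e1, if_neg e2]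

theorem Lnk_T_iff (hφ : IsFlow Γ φ) {M : ℕ} {d b : H} {c' c : H → ℕ} {δ' δ₁ : H → ℤ}
    (h1 : LnkR φ M c' δ') (h2 : LnkR φ M c δ₁) : LnkT Γ d b c' c ↔ LnkT Γ d b δ' δ₁ := by
  have mo : (M : ℤ) * |φ (Γ.opp d)| = M * |φ d| := by
    rw [hφ.opp, abs_neg]
  constructor
  · rintro ⟨a1, a2⟩
    refine ⟨?_, ?_⟩
    · intro k e1 e2
      have e3 := h1 k
      rw [a1 k e1 e2, h2 k] at e3
      linarith
    · have e3 := h1 d
      rw [a2, h2, mo] at e3
      linarith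
  · rintro ⟨a1, a2⟩
    refine ⟨?_, ?_⟩
    · intro k e1 e2
      have e3 := h1 k
      rw [a1 k e1 e2, ← h2 k] at e3
      exact_mod_cast e3
    · have e3 := h1 d
      rw [a2, ← mo, ← h2] at e3
      exact_mod_cast e3

theorem Lnk_T_nearG {d b : H} (hbd : b ≠ d) {col : H → ℕ} {p t : H} (hp : p = d ∨ p = Γ.opp d)
    (ht : t = b ∨ t = Γ.opp b) {δ' δ₁ : H → ℤ} (h' : IsG Γ φ col t δ') (h₁ : IsG Γ φ col p δ₁)
    (hT : LnkT Γ d b δ' δ₁) : δ' b = δ₁ b + 1 ∨ δ' b = δ₁ b - 1 := by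
  have e1 := Lnk_posG hp h₁
  have e2 := Lnk_posG ht h'
  have e3 := Lnk_far hbd e1.1 hT.1 hT.2
  rw [e3] at e2
  omega

theorem Lnk_T_nearS {d b : H} (hbd : b ≠ d) {r : ℕ} {col : H → ℕ} {p t : H}
    (hp : p = d ∨ p = Γ.opp d)
    (ht : t = b ∨ t = Γ.opp b) {c' c : H → ℕ} (h' : IsSt Γ r col t c') (h₁ : IsSt Γ r col p c)
    (hT : LnkT Γ d b c' c) (h : H) : |(c' h : ℤ) - c h| ≤ 1 := by
  have e1 := Lnk_posS hp h₁
  have e2 := Lnk_posS ht h'
  have e3 := Lnk_far hbd e1.1 hT.1 hT.2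
  rw [e3] at e2
  rw [abs_le]
  by_cases a1 : h = d
  · rw [a1, hT.2]
    omega
  · by_cases a2 : h = b
    · rw [a2]
      omega
    · rw [hT.1 h a1 a2]
      omega

theorem Lnk_T_nearG' {d b : H} {col : H → ℕ} {p : H} (hp : p = d ∨ p = Γ.opp d)
    {δ' δ₁ : H → ℤ} (h₁ : IsG Γ φ col p δ₁) {s : ℤ} (hs : |s| ≤ 1)
    (hT : LnkT Γ d b δ' δ₁) (hb : δ' b = δ₁ b + s) (h : H) : |δ' h - δ₁ h| ≤ 1 := by
  have e1 := Lnk_posG hp h₁
  rw [abs_le] at hs ⊢
  by_cases a1 : h = d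
  · rw [a1, hT.2]
    omega
  · by_cases a2 : h = b
    · rw [a2]
      omega
    · rw [hT.1 h a1 a2]
      omega

/-- The value of a turn. -/
theorem Lnk_turn [DecidableEq H] (hφ : IsFlow Γ φ) {A : K} (hA : A ≠ 0) {M r : ℕ} {col : H → ℕ}
    {p t d b : H} (e : H)
    (hbd : b ≠ d) (hp : p = d ∨ p = Γ.opp d) (ht : t = b ∨ t = Γ.opp b) (c' : St Γ r col t)
    (c : St Γ r col p) (δ' : GSt Γ φ col t) (δ₁ : GSt Γ φ col p) (h1 : LnkR φ M c'.1 δ'.1)
    (h2 : LnkR φ M c.1 δ₁.1) (P : Prop) [Decidable P] (hP : P ↔ LnkT Γ d b c'.1 c.1) :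
    (if P then coef A (c.1 (Γ.opp d)) (c.1 d) (c.1 b) (c'.1 b) (c.1 e) else 0) =
      (pt Γ φ col t (Lnk_up Γ d b 1 δ₁.1) (gcoef A (A ^ M) |φ d| |φ b| |φ e| (δ₁.1 (Γ.opp d))
        (δ₁.1 d) (δ₁.1 b) (δ₁.1 b + 1) (δ₁.1 e)) +
      pt Γ φ col t (Lnk_up Γ d b (-1) δ₁.1) (gcoef A (A ^ M) |φ d| |φ b| |φ e| (δ₁.1 (Γ.opp d))
        (δ₁.1 d) (δ₁.1 b) (δ₁.1 b - 1) (δ₁.1 e))) δ' := by
  classical
  have mo : (M : ℤ) * |φ (Γ.opp d)| = M * |φ d| := by
    rw [hφ.opp, abs_neg]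
  have hT := Lnk_T_iff (d := d) (b := b) hφ h1 h2
  rw [Finsupp.add_apply, Lnk_pt, Lnk_pt]
  by_cases hR : P
  · have hR' := hT.1 (hP.1 hR)
    have k1 : (c.1 (Γ.opp d) : ℤ) = M * |φ d| + δ₁.1 (Γ.opp d) := by
      rw [h2, mo]
    rw [if_pos hR]
    rcases Lnk_T_nearG hbd hp ht δ'.2 δ₁.2 hR' with h3 | h3
    · rw [if_pos ((Lnk_up_iff hbd 1 _ _).2 ⟨hR', h3⟩), if_neg, add_zero]
      · refine Lnk_coef hA M k1 (h2 d) (h2 b) ?_ (h2 e)
        rw [h1, h3]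
      · intro h4
        have h5 := ((Lnk_up_iff hbd (-1) _ _).1 h4).2
        rw [h3] at h5
        omega
    · rw [if_pos ((Lnk_up_iff hbd (-1) _ _).2 ⟨hR', h3⟩), if_neg, zero_add]
      · refine Lnk_coef hA M k1 (h2 d) (h2 b) ?_ (h2 e)
        rw [h1, h3]
      · intro h4
        have h5 := ((Lnk_up_iff hbd 1 _ _).1 h4).2
        rw [h3] at h5
        omega
  · rw [if_neg hR, if_neg, if_neg, add_zero]
    · intro h4
      exact hR (hP.2 (hT.2 ((Lnk_up_iff hbd (-1) _ _).1 h4).1))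
    · intro h4
      exact hR (hP.2 (hT.2 ((Lnk_up_iff hbd 1 _ _).1 h4).1))

theorem Lnk_turnC [DecidableEq H] {col : H → ℕ} {p t d b : H}
    (hbd : b ≠ d) (hp : p = d ∨ p = Γ.opp d) (δ₁ : GSt Γ φ col p) (δ' : GSt Γ φ col t) (a a' : K)
    (h0 : (pt Γ φ col t (Lnk_up Γ d b 1 δ₁.1) a + pt Γ φ col t (Lnk_up Γ d b (-1) δ₁.1) a') δ' ≠ 0)
    (h : H) : |δ'.1 h - δ₁.1 h| ≤ 1 := by
  classical
  rw [Finsupp.add_apply, Lnk_pt, Lnk_pt] at h0
  by_cases h1 : Lnk_up Γ d b 1 δ₁.1 = δ'.1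
  · have h2 := (Lnk_up_iff hbd 1 _ _).1 h1
    exact Lnk_T_nearG' hp δ₁.2 (s := 1) (by norm_num) h2.1 h2.2 h
  · by_cases h3 : Lnk_up Γ d b (-1) δ₁.1 = δ'.1
    · have h2 := (Lnk_up_iff hbd (-1) _ _).1 h3
      exact Lnk_T_nearG' hp δ₁.2 (s := -1) (by norm_num) h2.1 h2.2 h
    · rw [if_neg h1, if_neg h3, add_zero] at h0
      exact absurd rfl h0

/-- The value of a crossing. -/
theorem Lnk_cross {M r : ℕ} {col : H → ℕ} {p t : H} (c' : St Γ r col t)
    (c : St Γ r col p) (δ' : GSt Γ φ col t) (δ₁ : GSt Γ φ col p) (h1 : LnkR φ M c'.1 δ'.1)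
    (h2 : LnkR φ M c.1 δ₁.1) (P : Prop) [Decidable P] (hP : P ↔ c'.1 = c.1) (x y : K)
    (hxy : x = y) :
    (if P then x else 0) = (pt Γ φ col t δ₁.1 y) δ' := by
  classical
  rw [Lnk_pt]
  by_cases hR : P
  · rw [if_pos hR, if_pos, hxy]
    funext k
    have e1 := h1 k
    rw [hP.1 hR, h2 k] at e1
    linarith
  · rw [if_neg hR, if_neg]
    intro h3
    refine hR (hP.2 ?_)
    funext k
    have e1 := h1 k
    rw [← h3, ← h2 k] at e1
    exact_mod_cast e1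

theorem Lnk_crossC {col : H → ℕ} {p t : H} (δ₁ : GSt Γ φ col p) (δ' : GSt Γ φ col t) (a : K)
    (h0 : (pt Γ φ col t δ₁.1 a) δ' ≠ 0) (h : H) : |δ'.1 h - δ₁.1 h| ≤ 1 := by
  classical
  rw [Lnk_pt] at h0
  by_cases h1 : δ₁.1 = δ'.1
  · rw [h1, sub_self, abs_zero]
    exact zero_le_one
  · rw [if_neg h1] at h0
    exact absurd rfl h0

theorem Lnk_upT (h : H) (s : ℤ) (δ : H → ℤ) :
    upT Γ h s δ = @Lnk_up H Γ (fun a b => Classical.propDecidable (a = b)) h (Γ.nxt h) s δ := rfl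

theorem Lnk_dnT (h : H) (s : ℤ) (δ : H → ℤ) :
    dnT Γ h s δ = @Lnk_up H Γ (fun a b => Classical.propDecidable (a = b)) (Γ.nxt h) h s δ := rfl

theorem Lnk_fwd (hφ : IsFlow Γ φ) {A : K} (hA : A ≠ 0) {M r : ℕ} {col : H → ℕ} {q t : H}
    (s : Step Γ q t) :
    (∀ (c' : St Γ r col t) (c : St Γ r col q) (δ' : GSt Γ φ col t) (δ₁ : GSt Γ φ col q),
      LnkR φ M c'.1 δ'.1 → LnkR φ M c.1 δ₁.1 →
        s.mat Γ r col A c' c = (s.gop Γ φ col (gen φ A (A ^ M)) (Finsupp.single δ₁ 1)) δ') ∧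
    (∀ c' c, s.mat Γ r col A c' c ≠ 0 → ∀ h, |(c'.1 h : ℤ) - c.1 h| ≤ 1) ∧
    (∀ (δ₁ : GSt Γ φ col q) (δ' : GSt Γ φ col t),
      (s.gop Γ φ col (gen φ A (A ^ M)) (Finsupp.single δ₁ 1)) δ' ≠ 0 →
      ∀ h, |δ'.1 h - δ₁.1 h| ≤ 1) := by
  classical
  cases s with
  | turn h _ hl hq =>
    have hbd : Γ.nxt q ≠ q := hl
    refine ⟨?_, ?_, ?_⟩
    · intro c' c δ' δ₁ h1 h2
      rw [NB_turn, Lnk_upT, Lnk_upT]
      exact @Lnk_turn H Γ φ K _ (fun a b => Classical.propDecidable (a = b)) hφ A hA M r col q t q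
        (Γ.nxt q) (Γ.nxt (Γ.nxt q)) hbd (Or.inl rfl) (Or.inr hq) c' c δ' δ₁ h1 h2 _ _ Iff.rfl
    · intro c' c h0 h
      refine Lnk_T_nearS hbd (Or.inl rfl) (Or.inr hq) c'.2 c.2 ?_ h
      by_contra h1
      exact h0 (if_neg h1)
    · intro δ₁ δ' h0
      rw [NB_turn, Lnk_upT, Lnk_upT] at h0
      exact @Lnk_turnC H Γ φ K _ (fun a b => Classical.propDecidable (a = b)) col q t q
        (Γ.nxt q) hbd (Or.inl rfl) δ₁ δ' _ _ h0
  | cross _ _ b hq =>
    refine ⟨?_, ?_, ?_⟩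
    · intro c' c δ' δ₁ h1 h2
      rw [NB_cross]
      refine Lnk_cross c' c δ' δ₁ h1 h2 _ Iff.rfl _ _ ?_
      have k1 : (c.1 (Γ.opp t) : ℤ) = M * |φ t| + δ₁.1 (Γ.opp t) := by
        rw [h2, hφ.opp, abs_neg]
      have k2 := Lnk_tw hA M k1 (h2 t)
      rw [k2]
      rfl
    · intro c' c h0 h
      have h1 : c'.1 = c.1 := by
        by_contra h1
        exact h0 (if_neg h1)
      rw [h1, sub_self, abs_zero]
      exact zero_le_one
    · intro δ₁ δ' h0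
      rw [NB_cross] at h0
      exact Lnk_crossC δ₁ δ' _ h0

theorem Lnk_bwd (hφ : IsFlow Γ φ) {A : K} (hA : A ≠ 0) {M r : ℕ} {col : H → ℕ} {q t : H}
    (s : Step Γ q t) :
    (∀ (c' : St Γ r col q) (c : St Γ r col t) (δ' : GSt Γ φ col q) (δ₁ : GSt Γ φ col t),
      LnkR φ M c'.1 δ'.1 → LnkR φ M c.1 δ₁.1 →
        s.mat' Γ r col A c' c = (s.gop' Γ φ col (gen φ A (A ^ M)) (Finsupp.single δ₁ 1)) δ') ∧
    (∀ c' c, s.mat' Γ r col A c' c ≠ 0 → ∀ h, |(c'.1 h : ℤ) - c.1 h| ≤ 1) ∧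
    (∀ (δ₁ : GSt Γ φ col t) (δ' : GSt Γ φ col q),
      (s.gop' Γ φ col (gen φ A (A ^ M)) (Finsupp.single δ₁ 1)) δ' ≠ 0 →
      ∀ h, |δ'.1 h - δ₁.1 h| ≤ 1) := by
  classical
  cases s with
  | turn h _ hl hq =>
    have hbd : q ≠ Γ.nxt q := hl.symm
    refine ⟨?_, ?_, ?_⟩
    · intro c' c δ' δ₁ h1 h2
      rw [NB_turn', Lnk_dnT, Lnk_dnT]
      refine @Lnk_turn H Γ φ K _ (fun a b => Classical.propDecidable (a = b)) hφ A hA M r col t q
        (Γ.nxt q) q (Γ.nxt (Γ.nxt q)) hbd (Or.inr hq) (Or.inl rfl) c' c δ' δ₁ h1 h2 _ _ ?_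
      exact ⟨fun h => ⟨fun k a b => h.1 k b a, h.2⟩, fun h => ⟨fun k a b => h.1 k b a, h.2⟩⟩
    · intro c' c h0 h
      refine Lnk_T_nearS hbd (Or.inr hq) (Or.inl rfl) c'.2 c.2 ?_ h
      by_contra h1
      exact h0 (if_neg fun h2 => h1 ⟨fun k a b => h2.1 k b a, h2.2⟩)
    · intro δ₁ δ' h0
      rw [NB_turn', Lnk_dnT, Lnk_dnT] at h0
      exact @Lnk_turnC H Γ φ K _ (fun a b => Classical.propDecidable (a = b)) col t q (Γ.nxt q)
        q hbd (Or.inr hq) δ₁ δ' _ _ h0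
  | cross _ _ b hq =>
    refine ⟨?_, ?_, ?_⟩
    · intro c' c δ' δ₁ h1 h2
      rw [NB_cross']
      refine Lnk_cross c' c δ' δ₁ h1 h2 _ Iff.rfl _ _ ?_
      have k1 : (c.1 (Γ.opp t) : ℤ) = M * |φ t| + δ₁.1 (Γ.opp t) := by
        rw [h2, hφ.opp, abs_neg]
      have k2 := Lnk_tw hA M k1 (h2 t)
      rw [k2]
      rfl
    · intro c' c h0 h
      have h1 : c'.1 = c.1 := by
        by_contra h1
        exact h0 (if_neg h1)
      rw [h1, sub_self, abs_zero]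
      exact zero_le_one
    · intro δ₁ δ' h0
      rw [NB_cross'] at h0
      exact Lnk_crossC δ₁ δ' _ h0

end

/-! ### Paths -/

theorem Lnk_path {H : Type} [Finite H] {Γ : Fat H} {φ : H → ℤ} {K : Type} [Field K]
    (hφ : IsFlow Γ φ) {δ : H → ℤ} {n M r : ℕ} (hG : Good Γ φ n M r δ)
    {col : H → ℕ} {A : K} (hA : A ≠ 0) {p q : H} (w : Path Γ p q) (hδ : IsG Γ φ col p δ)
    (c : St Γ r col p) (hc : LnkR φ M c.1 δ) : w.size ≤ n →
    LnkAgr δ M r col w.size q (fun c' => w.mat Γ r col A c' c)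
      (w.gop φ col (gen φ A (A ^ M)) (Finsupp.single ⟨δ, hδ⟩ 1)) := by
  classical
  induction w with
  | nil =>
    intro _
    refine ⟨?_, ?_, ?_⟩
    · intro c' hc'
      have h1 : c' = c := by
        by_contra h1
        exact hc' (Matrix.one_apply_ne h1)
      refine ⟨⟨δ, hδ⟩, ?_, ?_⟩
      · intro h
        dsimp only
        rw [sub_self, abs_zero]
        exact Nat.cast_nonneg _
      · rw [h1]
        exact hc
    · intro δ₁ h1 h
      have h2 : δ₁ = ⟨δ, hδ⟩ := by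
        by_contra h2
        exact h1 (Finsupp.single_eq_of_ne h2)
      rw [h2]
      dsimp only
      rw [sub_self, abs_zero]
      exact Nat.cast_nonneg _
    · intro c' δ₁ h1
      by_cases h2 : c' = c
      · have h3 : δ₁ = ⟨δ, hδ⟩ := by
          apply Subtype.ext
          funext k
          have e1 := h1 k
          have e2 := hc k
          rw [h2, e2] at e1
          dsimp only
          linarith
        rw [h2, h3]
        exact (Matrix.one_apply_eq c).trans Finsupp.single_eq_same.symm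
      · have h3 : δ₁ ≠ ⟨δ, hδ⟩ := by
          intro h3
          apply h2
          apply Subtype.ext
          funext k
          have e1 := h1 k
          have e2 := hc k
          rw [h3] at e1
          dsimp only at e1
          rw [← e2] at e1
          exact_mod_cast e1
        exact (Matrix.one_apply_ne h2).trans (Finsupp.single_eq_of_ne h3).symm
  | fwd w s ih =>
    intro hn
    have h1 := Lnk_fwd hφ hA (M := M) (r := r) (col := col) s
    have h2 := Lnk_step hφ hG hn (s.mat Γ r col A) (s.gop Γ φ col (gen φ A (A ^ M)))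
      h1.1 h1.2.1 h1.2.2 (ih (Nat.le_of_succ_le hn))
    have h3 : (fun c' => (w.fwd s).mat Γ r col A c' c) =
        fun c' => ∑ c₁, s.mat Γ r col A c' c₁ * w.mat Γ r col A c₁ c := by
      funext c'
      exact Matrix.mul_apply
    rw [h3]
    exact h2
  | bwd w s ih =>
    intro hn
    have h1 := Lnk_bwd hφ hA (M := M) (r := r) (col := col) s
    have h2 := Lnk_step hφ hG hn (s.mat' Γ r col A) (s.gop' Γ φ col (gen φ A (A ^ M)))
      h1.1 h1.2.1 h1.2.2 (ih (Nat.le_of_succ_le hn))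
    have h3 : (fun c' => (w.bwd s).mat Γ r col A c' c) =
        fun c' => ∑ c₁, s.mat' Γ r col A c' c₁ * w.mat Γ r col A c₁ c := by
      funext c'
      exact Matrix.mul_apply
    rw [h3]
    exact h2

/-- (LNK) Near a state the operators at level `r` are the generic ones with `τ = A ^ M`. -/
theorem thm_Lnk : St_Link := by
  intro H _ Γ φ hφ col n M r δ hG
  refine ⟨fun q δ' hd => Lnk_iff hφ col hG q δ' hd, ?_⟩
  intro K _ A hA p q w hw hδ c hc
  have h1 := Lnk_path hφ hG hA w hδ c hc hw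
  refine ⟨?_, ?_⟩
  · intro δ' c' h2
    exact h1.2.2 c' δ' h2
  · intro c' h2
    obtain ⟨δ₁, h3, h4⟩ := h1.1 c' h2
    exact ⟨δ₁, fun h => (h3 h).trans (by exact_mod_cast hw), h4⟩

end Pool.Agent.AMS
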