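import Pool.Agent.AMS.NB

/-!
# Residues of closed paths next to the leaf are monomial
-/

set_option autoImplicit false

namespace Pool.Agent.AMS

section

variable {H : Type} {Γ : Fat H} {φ : H → ℤ} {col : H → ℕ}

theorem Mono_sg {x : ℤ} (h : x ≠ 0) : x.sign = 1 ∨ x.sign = -1 := by
  rcases lt_or_gt_of_ne h with h | h
  · exact Or.inr (Int.sign_eq_neg_one_of_neg h)
  · exact Or.inl (Int.sign_eq_one_of_pos h)

theorem Mono_pt_smul (q : H) (δ : H → ℤ) (c a : ℚ) :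
    c • pt Γ φ col q δ a = pt Γ φ col q δ (c * a) := by
  by_cases h : IsG Γ φ col q δ
  · rw [NB_pt_pos φ col h, NB_pt_pos φ col h, Finsupp.smul_single, smul_eq_mul]
  · rw [NB_pt_neg φ col h, NB_pt_neg φ col h, smul_zero]

theorem Mono_pt_zero (q : H) (δ : H → ℤ) : pt Γ φ col q δ (0 : ℚ) = 0 := by
  by_cases h : IsG Γ φ col q δ
  · rw [NB_pt_pos φ col h, Finsupp.single_zero]
  · rw [NB_pt_neg φ col h]

theorem Mono_pt_ne {q : H} {δ : H → ℤ} {δ' : GSt Γ φ col q} (h : δ ≠ δ'.1) (a : ℚ) :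
    (pt Γ φ col q δ a) δ' = 0 := by
  classical
  by_cases h1 : IsG Γ φ col q δ
  · rw [NB_pt_pos φ col h1, Finsupp.single_apply, if_neg]
    rintro rfl
    exact h rfl
  · rw [NB_pt_neg φ col h1]
    rfl

theorem Mono_lin {q t : H} (T : (GSt Γ φ col q →₀ ℚ) →ₗ[ℚ] (GSt Γ φ col t →₀ ℚ))
    (δ : GSt Γ φ col q) (c : ℚ) : T (Finsupp.single δ c) = c • T (Finsupp.single δ 1) := by
  rw [← map_smul, Finsupp.smul_single, smul_eq_mul, mul_one]

theorem Mono_sgn {q : H} (δ : GSt Γ φ col q) :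
    δ.1 q - δ.1 (Γ.opp q) = 1 ∨ δ.1 q - δ.1 (Γ.opp q) = -1 := by
  rcases δ.2.2.2.2.2 with h | h <;> omega

/-- monomial operators -/
def MonoM (Γ : Fat H) (φ : H → ℤ) (col : H → ℕ) (e f q t : H)
    (T : (GSt Γ φ col q →₀ ℚ) →ₗ[ℚ] (GSt Γ φ col t →₀ ℚ)) : Prop :=
  ∃ (u : H → ℤ) (a : ℤ → ℚ), (∀ η, η = 1 ∨ η = -1 → a η = 1 ∨ a η = -1) ∧
    a 1 * a (-1) = (((φ q).sign * (φ t).sign : ℤ) : ℚ) ∧ u e = u f ∧
    ∀ (δ : GSt Γ φ col q) (η : ℤ), η = 1 ∨ η = -1 → δ.1 q - δ.1 (Γ.opp q) = η * (φ q).sign →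
      IsG Γ φ col t (δ.1 + η • u) ∧
      (δ.1 + η • u) t - (δ.1 + η • u) (Γ.opp t) = η * (φ t).sign ∧
      T (Finsupp.single δ 1) = pt Γ φ col t (δ.1 + η • u) (a η)

theorem Mono_comp {e f q t r : H} {T : (GSt Γ φ col q →₀ ℚ) →ₗ[ℚ] (GSt Γ φ col t →₀ ℚ)}
    {S : (GSt Γ φ col t →₀ ℚ) →ₗ[ℚ] (GSt Γ φ col r →₀ ℚ)} (ht : φ t ≠ 0)
    (hT : MonoM Γ φ col e f q t T) (hS : MonoM Γ φ col e f t r S) :
    MonoM Γ φ col e f q r (S.comp T) := by
  obtain ⟨u, a, ha, hp, hu, hT⟩ := hT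
  obtain ⟨u', a', ha', hp', hu', hS⟩ := hS
  refine ⟨u + u', fun η => a η * a' η, ?_, ?_, ?_, ?_⟩
  · intro η hη
    rcases ha η hη with h | h <;> rcases ha' η hη with h' | h' <;> simp [h, h']
  · calc a 1 * a' 1 * (a (-1) * a' (-1)) = (a 1 * a (-1)) * (a' 1 * a' (-1)) := by ring
      _ = (((φ q).sign * (φ t).sign : ℤ) : ℚ) * (((φ t).sign * (φ r).sign : ℤ) : ℚ) := by
        rw [hp, hp']
      _ = (((φ q).sign * (φ r).sign : ℤ) : ℚ) := by
        rcases Mono_sg ht with h | h <;> rw [h] <;> push_cast <;> ring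
  · simp only [Pi.add_apply, hu, hu']
  · intro δ η hη h
    obtain ⟨h1, h2, h3⟩ := hT δ η hη h
    obtain ⟨h4, h5, h6⟩ := hS ⟨_, h1⟩ η hη h2
    have e1 : δ.1 + η • (u + u') = (δ.1 + η • u) + η • u' := by rw [smul_add, add_assoc]
    rw [e1]
    refine ⟨h4, h5, ?_⟩
    rw [LinearMap.comp_apply, h3, NB_pt_pos φ col h1, Mono_lin, h6, Mono_pt_smul]

theorem Mono_neg {e f q t : H} {T : (GSt Γ φ col q →₀ ℚ) →ₗ[ℚ] (GSt Γ φ col t →₀ ℚ)}
    (hT : MonoM Γ φ col e f q t T) : MonoM Γ φ col e f q t (-T) := by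
  obtain ⟨u, a, ha, hp, hu, hT⟩ := hT
  refine ⟨u, fun η => -a η, ?_, ?_, hu, ?_⟩
  · intro η hη
    rcases ha η hη with h | h <;> simp [h]
  · rw [← hp]; ring
  · intro δ η hη h
    obtain ⟨h1, h2, h3⟩ := hT δ η hη h
    refine ⟨h1, h2, ?_⟩
    rw [LinearMap.neg_apply, h3, NB_pt_pos φ col h1, NB_pt_pos φ col h1, Finsupp.single_neg]

theorem Mono_id {e f q : H} (hq : φ q ≠ 0) : MonoM Γ φ col e f q q LinearMap.id := by
  refine ⟨0, fun _ => 1, fun _ _ => Or.inl rfl, ?_, rfl, ?_⟩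
  · rcases Mono_sg hq with h | h <;> rw [h] <;> norm_num
  · intro δ η hη h
    rw [smul_zero, add_zero]
    refine ⟨δ.2, h, ?_⟩
    rw [NB_pt_self]
    rfl

theorem Mono_inv {e f q t : H} {T : (GSt Γ φ col q →₀ ℚ) →ₗ[ℚ] (GSt Γ φ col t →₀ ℚ)}
    {T' : (GSt Γ φ col t →₀ ℚ) →ₗ[ℚ] (GSt Γ φ col q →₀ ℚ)} (hq : φ q ≠ 0) (ht : φ t ≠ 0)
    (h1 : T'.comp T = LinearMap.id) (h2 : T.comp T' = LinearMap.id)
    (hT : MonoM Γ φ col e f q t T) : MonoM Γ φ col e f t q T' := by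
  obtain ⟨u, a, ha, hp, hu, hT⟩ := hT
  refine ⟨-u, a, ha, ?_, by simp [hu], ?_⟩
  · rw [hp, mul_comm]
  intro δ' η hη h
  obtain ⟨δ, η', hη', h3, h4⟩ : ∃ (δ : GSt Γ φ col q) (η' : ℤ), (η' = 1 ∨ η' = -1) ∧
      δ.1 q - δ.1 (Γ.opp q) = η' * (φ q).sign ∧ δ.1 + η' • u = δ'.1 := by
    by_contra hc
    push Not at hc
    have h5 : (Finsupp.lapply δ' : (GSt Γ φ col t →₀ ℚ) →ₗ[ℚ] ℚ).comp T = 0 := by
      refine Finsupp.lhom_ext' fun δ => LinearMap.ext_ring ?_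
      have h6 : ∃ η' : ℤ, (η' = 1 ∨ η' = -1) ∧ δ.1 q - δ.1 (Γ.opp q) = η' * (φ q).sign := by
        rcases Mono_sg hq with h | h <;> rcases Mono_sgn δ with h' | h' <;> rw [h, h']
        · exact ⟨1, by norm_num⟩
        · exact ⟨-1, by norm_num⟩
        · exact ⟨-1, by norm_num⟩
        · exact ⟨1, by norm_num⟩
      obtain ⟨η', h7, h8⟩ := h6
      obtain ⟨-, -, h9⟩ := hT δ η' h7 h8
      simp only [LinearMap.comp_apply, Finsupp.lsingle_apply, Finsupp.lapply_apply, h9,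
        LinearMap.zero_apply]
      exact Mono_pt_ne (hc δ η' h7 h8) _
    have h6 := congrArg (fun S => S (T' (Finsupp.single δ' 1))) h5
    have h7 : T (T' (Finsupp.single δ' 1)) = Finsupp.single δ' 1 := by
      rw [← LinearMap.comp_apply, h2]
      rfl
    simp only [LinearMap.comp_apply, h7, Finsupp.lapply_apply, Finsupp.single_eq_same,
      LinearMap.zero_apply] at h6
    exact one_ne_zero h6
  obtain ⟨h5, h6, h7⟩ := hT δ η' hη' h3
  have h8 : η' = η := by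
    rw [h4, h] at h6
    rcases Mono_sg ht with h' | h' <;> rw [h'] at h6 <;> omega
  subst h8
  have h9 : δ'.1 + η' • -u = δ.1 := by
    rw [← h4, smul_neg, add_neg_cancel_right]
  rw [h9]
  refine ⟨δ.2, h3, ?_⟩
  have h10 : T (Finsupp.single δ 1) = Finsupp.single δ' (a η') := by
    rw [h7, h4, NB_pt_self]
  have h11 : T' (T (Finsupp.single δ 1)) = Finsupp.single δ 1 := by
    rw [← LinearMap.comp_apply, h1]
    rfl
  rw [h10, Mono_lin] at h11
  rw [NB_pt_self]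
  rcases ha η' hη' with h12 | h12
  · rw [h12, one_smul] at h11
    rw [h12, h11]
  · rw [h12, neg_one_smul] at h11
    rw [h12, Finsupp.single_neg, ← h11, neg_neg]

/-! ### The free turns -/

theorem Mono_nxt_inj {a b : H} (h : Γ.nxt a = Γ.nxt b) : a = b := by
  rw [← Γ.nxt3 a, ← Γ.nxt3 b, h]

theorem Mono_opp_inj {a b : H} (h : Γ.opp a = Γ.opp b) : a = b := by
  rw [← Γ.opp_opp a, ← Γ.opp_opp b, h]

theorem Mono_up_n (h : H) (s : ℤ) (δ : H → ℤ) :
    upT Γ h s δ (Γ.nxt h) = δ (Γ.nxt h) + s := by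
  unfold upT
  rw [if_pos rfl]

theorem Mono_up_h {h : H} (hl : Γ.nxt h ≠ h) (s : ℤ) (δ : H → ℤ) :
    upT Γ h s δ h = δ (Γ.opp h) := by
  unfold upT
  rw [if_neg (Ne.symm hl), if_pos rfl]

theorem Mono_up_k {h k : H} (h1 : k ≠ Γ.nxt h) (h2 : k ≠ h) (s : ℤ) (δ : H → ℤ) :
    upT Γ h s δ k = δ k := by
  unfold upT
  rw [if_neg h1, if_neg h2]

theorem Mono_upS (hφ : IsFlow Γ φ) {h t : H} (hl : Γ.nxt h ≠ h) (ht : t = Γ.opp (Γ.nxt h))
    (h0 : φ h ≠ 0) (h1 : φ (Γ.nxt h) ≠ 0) (δ : GSt Γ φ col h) (s₁ s₂ : ℤ)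
    (hs : δ.1 h - δ.1 (Γ.opp h) = s₁) (hs₁ : s₁ = 1 ∨ s₁ = -1) (hs₂ : s₂ = 1 ∨ s₂ = -1)
    (hss : s₂ * (φ h).sign = s₁ * (φ (Γ.nxt h)).sign) :
    IsG Γ φ col t (upT Γ h s₂ δ.1) ∧
      upT Γ h s₂ δ.1 t - upT Γ h s₂ δ.1 (Γ.opp t) = -s₂ := by
  obtain ⟨δ, hδ1, hδ2, hδ3, hδ4, hδ5⟩ := δ
  simp only at hs ⊢
  have hzn : Γ.nxt (Γ.nxt h) ≠ Γ.nxt h := NB_nl hl
  have hzh : Γ.nxt (Γ.nxt h) ≠ h := NB_nl2 hl
  have hz3 : Γ.nxt (Γ.nxt (Γ.nxt h)) = h := Γ.nxt3 h
  have en := Mono_up_n (Γ := Γ) h s₂ δ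
  have eh := Mono_up_h hl s₂ δ
  have ez := Mono_up_k (Γ := Γ) hzn hzh s₂ δ
  have ek : ∀ k, k ≠ Γ.nxt h → k ≠ h → upT Γ h s₂ δ k = δ k := fun k a b => Mono_up_k a b s₂ δ
  have hfl := hφ.vert h hl
  -- the sign condition
  have hsg : (φ h > 0 ∧ φ (Γ.nxt h) > 0 ∧ s₂ = s₁) ∨ (φ h < 0 ∧ φ (Γ.nxt h) < 0 ∧ s₂ = s₁) ∨
      (φ h > 0 ∧ φ (Γ.nxt h) < 0 ∧ s₂ = -s₁) ∨ (φ h < 0 ∧ φ (Γ.nxt h) > 0 ∧ s₂ = -s₁) := by
    rcases lt_or_gt_of_ne h0 with a | a <;> rcases lt_or_gt_of_ne h1 with b | b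
    · rw [Int.sign_eq_neg_one_of_neg a, Int.sign_eq_neg_one_of_neg b] at hss
      exact Or.inr (Or.inl ⟨a, b, by omega⟩)
    · rw [Int.sign_eq_neg_one_of_neg a, Int.sign_eq_one_of_pos b] at hss
      exact Or.inr (Or.inr (Or.inr ⟨a, b, by omega⟩))
    · rw [Int.sign_eq_one_of_pos a, Int.sign_eq_neg_one_of_neg b] at hss
      exact Or.inr (Or.inr (Or.inl ⟨a, b, by omega⟩))
    · rw [Int.sign_eq_one_of_pos a, Int.sign_eq_one_of_pos b] at hss
      exact Or.inl ⟨a, b, by omega⟩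
  have hno : ∀ k, k ≠ h → k ≠ Γ.nxt h → k ≠ Γ.nxt (Γ.nxt h) →
      (Γ.nxt k ≠ h ∧ Γ.nxt k ≠ Γ.nxt h) ∧ Γ.nxt (Γ.nxt k) ≠ h ∧ Γ.nxt (Γ.nxt k) ≠ Γ.nxt h := by
    intro k a b c
    refine ⟨⟨fun h' => c ?_, fun h' => a ?_⟩, fun h' => b ?_, fun h' => c ?_⟩
    · exact Mono_nxt_inj (h'.trans hz3.symm)
    · exact Mono_nxt_inj h'
    · exact Mono_nxt_inj (Mono_nxt_inj (h'.trans hz3.symm))
    · refine Mono_nxt_inj (Mono_nxt_inj (h'.trans ?_))
      rw [hz3]
  have hopp : Γ.opp t = Γ.nxt h := by rw [ht, Γ.opp_opp]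
  -- the new sign
  have hnew : upT Γ h s₂ δ t - upT Γ h s₂ δ (Γ.opp t) = -s₂ := by
    rw [hopp, en]
    by_cases hc : Γ.nxt h = Γ.opp h
    · have : t = h := by rw [ht, hc, Γ.opp_opp]
      rw [this, eh, hc]
      ring
    · have h3 : t ≠ h := by
        intro h'
        apply hc
        rw [← h', ht, Γ.opp_opp, ← ht, h', ← hopp, h']
      have h4 : t ≠ Γ.nxt h := by
        rw [ht]
        exact Γ.opp_ne _
      rw [ek t h4 h3]
      have h5 := hδ4 (Γ.nxt h) hl hc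
      rw [ht, h5]
      ring
  refine ⟨⟨?_, ?_, ?_, ?_, ?_⟩, hnew⟩
  · intro k hk
    have h3 : k ≠ h := by
      rintro rfl
      exact hl hk
    have h4 : k ≠ Γ.nxt h := by
      rintro rfl
      exact hzn hk
    rw [ek k h4 h3]
    exact hδ1 k hk
  · intro k hk
    by_cases k1 : k = h
    · subst k1
      rw [eh, en, ez]
      have := hδ2 k hk
      rw [Int.even_iff] at this ⊢
      rcases hs₁ with a | a <;> rcases hs₂ with b | b <;> omega
    by_cases k2 : k = Γ.nxt h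
    · subst k2
      rw [hz3, eh, en, ez]
      have := hδ2 h hl
      rw [Int.even_iff] at this ⊢
      rcases hs₁ with a | a <;> rcases hs₂ with b | b <;> omega
    by_cases k3 : k = Γ.nxt (Γ.nxt h)
    · subst k3
      rw [hz3, eh, en, ez]
      have := hδ2 h hl
      rw [Int.even_iff] at this ⊢
      rcases hs₁ with a | a <;> rcases hs₂ with b | b <;> omega
    · obtain ⟨⟨a1, a2⟩, a3, a4⟩ := hno k k1 k2 k3
      rw [ek k k2 k1, ek _ a2 a1, ek _ a4 a3]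
      exact hδ2 k hk
  · intro k hk hw
    by_cases k1 : k = h
    · subst k1
      rw [eh, en, ez]
      have := hδ3 k hk hw
      rcases abs_cases (φ k) with ⟨a, _⟩ | ⟨a, _⟩ <;>
        rcases abs_cases (φ (Γ.nxt k)) with ⟨b, _⟩ | ⟨b, _⟩ <;>
        rcases abs_cases (φ (Γ.nxt (Γ.nxt k))) with ⟨c, _⟩ | ⟨c, _⟩ <;> omega
    by_cases k2 : k = Γ.nxt h
    · subst k2
      have := hδ3 _ hk hw
      rw [hz3] at this hw ⊢
      rw [eh, en, ez]
      rcases abs_cases (φ h) with ⟨a, _⟩ | ⟨a, _⟩ <;>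
        rcases abs_cases (φ (Γ.nxt h)) with ⟨b, _⟩ | ⟨b, _⟩ <;>
        rcases abs_cases (φ (Γ.nxt (Γ.nxt h))) with ⟨c, _⟩ | ⟨c, _⟩ <;> omega
    by_cases k3 : k = Γ.nxt (Γ.nxt h)
    · subst k3
      have := hδ3 _ hk hw
      rw [hz3] at this hw ⊢
      rw [eh, en, ez]
      rcases abs_cases (φ h) with ⟨a, _⟩ | ⟨a, _⟩ <;>
        rcases abs_cases (φ (Γ.nxt h)) with ⟨b, _⟩ | ⟨b, _⟩ <;>
        rcases abs_cases (φ (Γ.nxt (Γ.nxt h))) with ⟨c, _⟩ | ⟨c, _⟩ <;> omega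
    · obtain ⟨⟨a1, a2⟩, a3, a4⟩ := hno k k1 k2 k3
      rw [ek k k2 k1, ek _ a2 a1, ek _ a4 a3]
      exact hδ3 k hk hw
  · intro k k1 k2
    rw [hopp] at k2
    have k1' : Γ.opp k ≠ Γ.nxt h := by
      intro h'
      apply k1
      rw [ht, ← h', Γ.opp_opp]
    by_cases k3 : k = h
    · subst k3
      rw [eh, ek _ k1' (Γ.opp_ne k)]
    by_cases k4 : Γ.opp k = h
    · have k5 : k = Γ.opp h := by rw [← k4, Γ.opp_opp]
      rw [k4, eh, ek k k2 k3, k5]
    · rw [ek k k2 k3, ek _ k1' k4]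
      exact hδ4 k k3 (fun h' => k4 (by rw [h', Γ.opp_opp]))
  · rw [← sub_eq_zero]
    rcases hs₂ with b | b
    · right; omega
    · left; omega

/-- the turn between free positions, coefficients -/
theorem Mono_coef {mx my mz x x' y z s₁ s₂ : ℤ} (hx : mx ≠ 0) (hy : my ≠ 0) (hs : x' - x = s₁)
    (hs₁ : s₁ = 1 ∨ s₁ = -1) (hs₂ : s₂ = 1 ∨ s₂ = -1)
    (hc : (mz = mx + my ∧ s₂ = s₁) ∨ (mz ≠ mx + my ∧ s₂ = -s₁)) :
    rcoef mx my mz x x' y (y + s₂) z = (if mz = mx + my then (s₁ : ℚ) else 1) ∧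
      rcoef mx my mz x x' y (y - s₂) z = 0 := by
  have e1 : ∀ w : ℤ, w = 1 → (y + w = y + 1) := fun w h => by rw [h]
  have hx' : x' = x + s₁ := by omega
  subst hx'
  have n1 : ¬ ((y : ℤ) + -1 = y + 1) := by omega
  have n2 : ¬ ((y : ℤ) - 1 = y + 1) := by omega
  have n3 : ((y : ℤ) - -1 = y + 1) := by omega
  have n4 : ¬ ((x : ℤ) + -1 = x + 1) := by omega
  unfold rcoef
  rw [if_neg hx, if_neg hy, if_neg hx, if_neg hy]
  rcases hc with ⟨h1, h2⟩ | ⟨h1, h2⟩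
  · rw [if_pos h1, if_pos h1, if_pos h1]
    rcases hs₁ with rfl | rfl
    · rw [h2]
      simp [n2]
    · rw [h2]
      simp [n1, n3, n4]
  · rw [if_neg h1, if_neg h1, if_neg h1]
    rcases hs₁ with rfl | rfl
    · rw [h2]
      simp [n1, n3]
    · rw [h2]
      simp [n2, n4]

theorem Mono_turn (hφ : IsFlow Γ φ) {l e f h t : H} (hll : Γ.nxt l = l)
    (he : e = Γ.nxt (Γ.opp l)) (hf : f = Γ.nxt e) (hl : Γ.nxt h ≠ h) (ht : t = Γ.opp (Γ.nxt h))
    (h0 : φ h ≠ 0) (h1 : φ (Γ.nxt h) ≠ 0) :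
    MonoM Γ φ col e f h t ((Step.turn h t hl ht).gop Γ φ col (rsd φ)) := by
  classical
  have hfl := hφ.vert h hl
  have hm : φ (Γ.opp l) = 0 := (hφ.zero _).2 (Or.inr (by rw [Γ.opp_opp]; exact hll))
  have hml : Γ.nxt (Γ.opp l) ≠ Γ.opp l := Γ.leaf_opp l hll
  have hfm : Γ.nxt f = Γ.opp l := by rw [hf, he]; exact Γ.nxt3 _
  have hσt : (φ t).sign = -(φ (Γ.nxt h)).sign := by rw [ht, hφ.opp, Int.sign_neg]
  refine ⟨fun k => if k = Γ.nxt h then (φ (Γ.nxt h)).sign else if k = h then -(φ h).sign else 0,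
    fun η => if |φ (Γ.nxt (Γ.nxt h))| = |φ h| + |φ (Γ.nxt h)| then ((η * (φ h).sign : ℤ) : ℚ)
      else 1, ?_, ?_, ?_, ?_⟩
  · intro η hη
    simp only
    split_ifs with hc
    · rcases hη with rfl | rfl <;> rcases Mono_sg h0 with b | b <;> rw [b] <;> norm_num
    · exact Or.inl rfl
  · simp only
    rw [hσt]
    split_ifs with hc
    · have h2 : (φ (Γ.nxt h)).sign = (φ h).sign := by
        rcases lt_or_gt_of_ne h0 with a | a <;> rcases lt_or_gt_of_ne h1 with b | b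
        · rw [Int.sign_eq_neg_one_of_neg a, Int.sign_eq_neg_one_of_neg b]
        · exfalso
          rcases abs_cases (φ h) with ⟨a, _⟩ | ⟨a, _⟩ <;>
            rcases abs_cases (φ (Γ.nxt h)) with ⟨b, _⟩ | ⟨b, _⟩ <;>
            rcases abs_cases (φ (Γ.nxt (Γ.nxt h))) with ⟨c, _⟩ | ⟨c, _⟩ <;> omega
        · exfalso
          rcases abs_cases (φ h) with ⟨a, _⟩ | ⟨a, _⟩ <;>
            rcases abs_cases (φ (Γ.nxt h)) with ⟨b, _⟩ | ⟨b, _⟩ <;>
            rcases abs_cases (φ (Γ.nxt (Γ.nxt h))) with ⟨c, _⟩ | ⟨c, _⟩ <;> omega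
        · rw [Int.sign_eq_one_of_pos a, Int.sign_eq_one_of_pos b]
      rw [h2]
      rcases Mono_sg h0 with b | b <;> rw [b] <;> norm_num
    · have h2 : (φ (Γ.nxt h)).sign = -(φ h).sign := by
        rcases lt_or_gt_of_ne h0 with a | a <;> rcases lt_or_gt_of_ne h1 with b | b
        · exfalso
          apply hc
          rcases abs_cases (φ h) with ⟨a, _⟩ | ⟨a, _⟩ <;>
            rcases abs_cases (φ (Γ.nxt h)) with ⟨b, _⟩ | ⟨b, _⟩ <;>
            rcases abs_cases (φ (Γ.nxt (Γ.nxt h))) with ⟨c, _⟩ | ⟨c, _⟩ <;> omega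
        · rw [Int.sign_eq_neg_one_of_neg a, Int.sign_eq_one_of_pos b]; rfl
        · rw [Int.sign_eq_one_of_pos a, Int.sign_eq_neg_one_of_neg b]
        · exfalso
          apply hc
          rcases abs_cases (φ h) with ⟨a, _⟩ | ⟨a, _⟩ <;>
            rcases abs_cases (φ (Γ.nxt h)) with ⟨b, _⟩ | ⟨b, _⟩ <;>
            rcases abs_cases (φ (Γ.nxt (Γ.nxt h))) with ⟨c, _⟩ | ⟨c, _⟩ <;> omega
      rw [h2]
      rcases Mono_sg h0 with b | b <;> rw [b] <;> norm_num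
  · simp only
    have hef : e ≠ f := by
      intro h2
      rw [hf] at h2
      exact NB_nl hml (by rw [← he]; exact h2.symm)
    by_cases c1 : h = e
    · subst c1
      rw [← hf, if_neg hef, if_pos rfl, if_pos rfl]
      have h3 : φ (Γ.nxt (Γ.nxt h)) = 0 := by rw [← hf, hfm]; exact hm
      have h4 : φ f = -φ h := by
        rw [h3, ← hf] at hfl
        omega
      rw [h4, Int.sign_neg]
    by_cases c2 : h = f
    · exfalso
      apply h1
      rw [c2, hfm]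
      exact hm
    have c3 : e ≠ Γ.nxt h := by
      intro h2
      apply h0
      have : h = Γ.opp l := Mono_nxt_inj (h2.symm.trans he)
      rw [this]
      exact hm
    have c4 : f ≠ Γ.nxt h := by
      intro h2
      exact c1 (Mono_nxt_inj (h2.symm.trans hf))
    rw [if_neg c3, if_neg c4, if_neg (Ne.symm c1), if_neg (Ne.symm c2)]
  · intro δ η hη hd
    have hs₂ : η * (φ (Γ.nxt h)).sign = 1 ∨ η * (φ (Γ.nxt h)).sign = -1 := by
      rcases hη with rfl | rfl <;> rcases Mono_sg h1 with b | b <;> rw [b] <;> norm_num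
    have hs₁ : η * (φ h).sign = 1 ∨ η * (φ h).sign = -1 := by
      rcases hη with rfl | rfl <;> rcases Mono_sg h0 with b | b <;> rw [b] <;> norm_num
    obtain ⟨g1, g2⟩ := Mono_upS hφ hl ht h0 h1 δ _ (η * (φ (Γ.nxt h)).sign) hd hs₁ hs₂ (by ring)
    have hup : δ.1 + η • (fun k => if k = Γ.nxt h then (φ (Γ.nxt h)).sign else
        if k = h then -(φ h).sign else 0) = upT Γ h (η * (φ (Γ.nxt h)).sign) δ.1 := by
      funext k
      simp only [Pi.add_apply, Pi.smul_apply, smul_eq_mul]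
      by_cases k1 : k = Γ.nxt h
      · rw [if_pos k1, k1, Mono_up_n]
      by_cases k2 : k = h
      · rw [if_neg k1, if_pos k2, k2, Mono_up_h hl]
        linarith
      · rw [if_neg k1, if_neg k2, Mono_up_k k1 k2]
        ring
    simp only
    rw [hup]
    refine ⟨g1, ?_, ?_⟩
    · rw [g2, hσt]
      ring
    · rw [NB_turn]
      have hc : (|φ (Γ.nxt (Γ.nxt h))| = |φ h| + |φ (Γ.nxt h)| ∧
          η * (φ (Γ.nxt h)).sign = η * (φ h).sign) ∨
          (|φ (Γ.nxt (Γ.nxt h))| ≠ |φ h| + |φ (Γ.nxt h)| ∧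
          η * (φ (Γ.nxt h)).sign = -(η * (φ h).sign)) := by
        rcases lt_or_gt_of_ne h0 with a | a <;> rcases lt_or_gt_of_ne h1 with b | b
        · left
          rw [Int.sign_eq_neg_one_of_neg a, Int.sign_eq_neg_one_of_neg b]
          refine ⟨?_, rfl⟩
          rcases abs_cases (φ h) with ⟨a, _⟩ | ⟨a, _⟩ <;>
            rcases abs_cases (φ (Γ.nxt h)) with ⟨b, _⟩ | ⟨b, _⟩ <;>
            rcases abs_cases (φ (Γ.nxt (Γ.nxt h))) with ⟨c, _⟩ | ⟨c, _⟩ <;> omega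
        · right
          rw [Int.sign_eq_neg_one_of_neg a, Int.sign_eq_one_of_pos b]
          refine ⟨?_, by ring⟩
          rcases abs_cases (φ h) with ⟨a, _⟩ | ⟨a, _⟩ <;>
            rcases abs_cases (φ (Γ.nxt h)) with ⟨b, _⟩ | ⟨b, _⟩ <;>
            rcases abs_cases (φ (Γ.nxt (Γ.nxt h))) with ⟨c, _⟩ | ⟨c, _⟩ <;> omega
        · right
          rw [Int.sign_eq_one_of_pos a, Int.sign_eq_neg_one_of_neg b]
          refine ⟨?_, by ring⟩
          rcases abs_cases (φ h) with ⟨a, _⟩ | ⟨a, _⟩ <;>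
            rcases abs_cases (φ (Γ.nxt h)) with ⟨b, _⟩ | ⟨b, _⟩ <;>
            rcases abs_cases (φ (Γ.nxt (Γ.nxt h))) with ⟨c, _⟩ | ⟨c, _⟩ <;> omega
        · left
          rw [Int.sign_eq_one_of_pos a, Int.sign_eq_one_of_pos b]
          refine ⟨?_, rfl⟩
          rcases abs_cases (φ h) with ⟨a, _⟩ | ⟨a, _⟩ <;>
            rcases abs_cases (φ (Γ.nxt h)) with ⟨b, _⟩ | ⟨b, _⟩ <;>
            rcases abs_cases (φ (Γ.nxt (Γ.nxt h))) with ⟨c, _⟩ | ⟨c, _⟩ <;> omega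
      obtain ⟨r1, r2⟩ := Mono_coef (x := δ.1 (Γ.opp h)) (x' := δ.1 h) (y := δ.1 (Γ.nxt h))
        (z := δ.1 (Γ.nxt (Γ.nxt h))) (abs_ne_zero.2 h0) (abs_ne_zero.2 h1) hd hs₁ hs₂ hc
      have hcomm : ∀ c : ℤ, (rsd φ).turn h (Γ.nxt h) (Γ.nxt (Γ.nxt h)) (δ.1 (Γ.opp h)) (δ.1 h)
          (δ.1 (Γ.nxt h)) c (δ.1 (Γ.nxt (Γ.nxt h))) = rcoef |φ h| |φ (Γ.nxt h)|
          |φ (Γ.nxt (Γ.nxt h))| (δ.1 (Γ.opp h)) (δ.1 h) (δ.1 (Γ.nxt h)) c
          (δ.1 (Γ.nxt (Γ.nxt h))) := fun c => rfl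
      rw [hcomm, hcomm]
      rcases hs₂ with b | b
      · rw [b] at r1 r2 ⊢
        rw [r1, r2, Mono_pt_zero, add_zero]
      · rw [b] at r1 r2 ⊢
        rw [sub_neg_eq_add] at r2
        rw [← sub_eq_add_neg] at r1
        rw [r1, r2, Mono_pt_zero, zero_add]

/-- crossings between free positions -/
theorem Mono_cross {e f h q : H} (hφ : IsFlow Γ φ) (b : Bool) (hq : q = Γ.opp h) (h0 : φ h ≠ 0) :
    MonoM Γ φ col e f q h ((Step.cross h q b hq).gop Γ φ col (rsd φ)) := by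
  subst hq
  have hσ : (φ (Γ.opp h)).sign = -(φ h).sign := by rw [hφ.opp, Int.sign_neg]
  refine ⟨0, fun η => ((η * (φ h).sign : ℤ) : ℚ), ?_, ?_, rfl, ?_⟩
  · intro η hη
    simp only
    rcases hη with rfl | rfl <;> rcases Mono_sg h0 with b | b <;> rw [b] <;> norm_num
  · rw [hσ]
    rcases Mono_sg h0 with b | b <;> rw [b] <;> norm_num
  · intro δ η hη hd
    have hG : IsG Γ φ col h δ.1 := (NB_IsG_opp φ col).1 δ.2
    rw [smul_zero, add_zero]
    have h3 : δ.1 h - δ.1 (Γ.opp h) = η * (φ h).sign := by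
      rw [hσ, Γ.opp_opp] at hd
      linarith
    refine ⟨hG, h3, ?_⟩
    rw [NB_cross]
    congr 1
    have hc : ∀ b : Bool, (if b = true then (rsd φ).tw h (δ.1 (Γ.opp h)) (δ.1 h)
        else (rsd φ).tw' h (δ.1 (Γ.opp h)) (δ.1 h)) =
        if δ.1 h = δ.1 (Γ.opp h) + 1 then (1 : ℚ) else -1 := by
      intro b
      cases b <;> simp [rsd]
    rw [hc]
    rcases hη with rfl | rfl <;> rcases Mono_sg h0 with b | b <;> rw [b] at h3 ⊢
    · rw [if_pos (by omega)]; norm_num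
    · rw [if_neg (by omega)]; norm_num
    · rw [if_neg (by omega)]; norm_num
    · rw [if_pos (by omega)]; norm_num

/-! ### Frames -/

/-- the frame of a position -/
inductive MonoFr (Γ : Fat H) (φ : H → ℤ) : (q r : H) → Path Γ q r → Prop
  | free (q : H) (h : φ q ≠ 0) : MonoFr Γ φ q q Path.nil
  | out (q r : H) (hl : Γ.nxt (Γ.opp q) = Γ.opp q) (hn : Γ.nxt q ≠ q) (hr : r = Γ.opp (Γ.nxt q)) :
      MonoFr Γ φ q r (Path.nil.fwd (Step.turn q r hn hr))
  | leaf (q r : H) (hl : Γ.nxt q = q) (hn : Γ.nxt r ≠ r) (hr : q = Γ.opp (Γ.nxt r)) :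
      MonoFr Γ φ q r (Path.nil.bwd (Step.turn r q hn hr))

theorem Mono_fr_ex (hφ : IsFlow Γ φ) (q : H) : ∃ (r : H) (F : Path Γ q r), MonoFr Γ φ q r F := by
  by_cases h0 : φ q = 0
  · rcases (hφ.zero q).1 h0 with h | h
    · have h1 : Γ.nxt (Γ.opp q) ≠ Γ.opp q := Γ.leaf_opp q h
      have h2 : Γ.nxt (Γ.nxt (Γ.nxt (Γ.opp q))) = Γ.opp q := Γ.nxt3 _
      exact ⟨_, _, MonoFr.leaf q (Γ.nxt (Γ.nxt (Γ.opp q))) h (by rw [h2]; exact (NB_nl2 h1).symm)
        (by rw [h2, Γ.opp_opp])⟩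
    · have h1 : Γ.nxt q ≠ q := by
        have := Γ.leaf_opp _ h
        rwa [Γ.opp_opp] at this
      exact ⟨_, _, MonoFr.out q _ h h1 rfl⟩
  · exact ⟨_, _, MonoFr.free q h0⟩

theorem Mono_fr_free (hφ : IsFlow Γ φ) {q r : H} {F : Path Γ q r} (h : MonoFr Γ φ q r F) :
    φ r ≠ 0 := by
  cases h with
  | free h => exact h
  | out _ hl hn hr =>
    have h0 : φ q = 0 := (hφ.zero q).2 (Or.inr hl)
    rw [hr, hφ.opp]
    exact neg_ne_zero.2 ((hφ.one q hn).resolve_left fun h => h h0)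
  | leaf _ hl hn hr =>
    have h0 : φ (Γ.nxt r) = 0 := by
      have h1 : φ q = 0 := (hφ.zero q).2 (Or.inl hl)
      rw [hr, hφ.opp] at h1
      exact neg_eq_zero.1 h1
    exact (hφ.one r hn).resolve_right fun h => h h0

/-- the hypothesis on inverse paths -/
def MonoGR (Γ : Fat H) (φ : H → ℤ) (col : H → ℕ) : Prop :=
  ∀ (p q : H) (w : Path Γ p q),
      (w.inv.gop φ col (rsd φ)).comp (w.gop φ col (rsd φ)) = LinearMap.id ∧
      (w.gop φ col (rsd φ)).comp (w.inv.gop φ col (rsd φ)) = LinearMap.id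

theorem Mono_st (hG : MonoGR Γ φ col) {q t : H} (s : Step Γ q t) :
    (s.gop' Γ φ col (rsd φ)).comp (s.gop Γ φ col (rsd φ)) = LinearMap.id ∧
      (s.gop Γ φ col (rsd φ)).comp (s.gop' Γ φ col (rsd φ)) = LinearMap.id :=
  hG q t (Path.nil.fwd s)

theorem Mono_cc {h q : H} (hq : q = Γ.opp h) (hh : h = Γ.opp q) (b b' : Bool) :
    ((Step.cross q h b' hh).gop Γ φ col (rsd φ)).comp ((Step.cross h q b hq).gop Γ φ col (rsd φ)) =
      -LinearMap.id := by
  have hc : ∀ (b : Bool) (k : H) (x x' : ℤ), (if b = true then (rsd φ).tw k x x'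
      else (rsd φ).tw' k x x') = if x' = x + 1 then (1 : ℚ) else -1 := by
    intro b k x x'
    cases b <;> simp [rsd]
  refine Finsupp.lhom_ext' fun δ => LinearMap.ext_ring ?_
  simp only [LinearMap.comp_apply, Finsupp.lsingle_apply]
  rw [NB_cross, hc]
  have hG : IsG Γ φ col h δ.1 := by
    have h1 : ∀ q : H, q = Γ.opp h → IsG Γ φ col q δ.1 → IsG Γ φ col h δ.1 := by
      intro q hq h2
      subst hq
      exact (NB_IsG_opp φ col).1 h2
    exact h1 q hq δ.2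
  rw [NB_pt_pos φ col hG, Mono_lin, NB_cross, hc, Mono_pt_smul]
  simp only
  rw [NB_pt_pos φ col δ.2, LinearMap.neg_apply, LinearMap.id_apply, ← Finsupp.single_neg]
  congr 1
  have h3 := Mono_sgn δ
  have h4 : δ.1 (Γ.opp h) = δ.1 q := by rw [← hq]
  have h5 : δ.1 (Γ.opp q) = δ.1 h := by rw [← hh]
  rw [h5] at h3
  rw [h4, h5]
  rcases h3 with h3 | h3
  · rw [if_neg (by omega), if_pos (by omega)]; norm_num
  · rw [if_pos (by omega), if_neg (by omega)]; norm_num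

theorem Mono_b {h q : H} (hq : q = Γ.opp h) (b b' : Bool) :
    (Step.cross h q b hq).gop Γ φ col (rsd φ) = (Step.cross h q b' hq).gop Γ φ col (rsd φ) := by
  have hc : ∀ (b : Bool) (k : H) (x x' : ℤ), (if b = true then (rsd φ).tw k x x'
      else (rsd φ).tw' k x x') = if x' = x + 1 then (1 : ℚ) else -1 := by
    intro b k x x'
    cases b <;> simp [rsd]
  refine Finsupp.lhom_ext' fun δ => LinearMap.ext_ring ?_
  simp only [LinearMap.comp_apply, Finsupp.lsingle_apply]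
  rw [NB_cross, NB_cross, hc, hc]

/-- the vertex relation -/
def MonoVR (Γ : Fat H) (φ : H → ℤ) (col : H → ℕ) : Prop :=
    ∀ (q h₁ h₂ h₃ q₁ q₂ : H) (e₁ : q = Γ.opp h₁) (l₁ : Γ.nxt h₁ ≠ h₁) (t₁ : q₁ = Γ.opp (Γ.nxt h₁))
      (e₂ : q₁ = Γ.opp h₂) (l₂ : Γ.nxt h₂ ≠ h₂) (t₂ : q₂ = Γ.opp (Γ.nxt h₂)) (e₃ : q₂ = Γ.opp h₃)
      (l₃ : Γ.nxt h₃ ≠ h₃) (t₃ : q = Γ.opp (Γ.nxt h₃)),
      ((((((Path.nil.fwd (.cross h₁ q true e₁)).fwd (.turn h₁ q₁ l₁ t₁)).fwd
        (.cross h₂ q₁ true e₂)).fwd (.turn h₂ q₂ l₂ t₂)).fwd (.cross h₃ q₂ true e₃)).fwd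
        (.turn h₃ q l₃ t₃)).gop φ col (rsd φ) = -LinearMap.id

/-- the crossing to `m = opp l'`, framed -/
theorem Mono_m (hφ : IsFlow Γ φ) (hG : MonoGR Γ φ col) (hV : MonoVR Γ φ col) {l e f : H}
    (hll : Γ.nxt l = l) (he : e = Γ.nxt (Γ.opp l)) (hf : f = Γ.nxt e) {l' m f' t : H} (b : Bool)
    (hm : l' = Γ.opp m) (hl' : Γ.nxt l' = l') (hn : Γ.nxt f' ≠ f') (hr : l' = Γ.opp (Γ.nxt f'))
    (hn' : Γ.nxt m ≠ m) (ht : t = Γ.opp (Γ.nxt m)) :
    MonoM Γ φ col e f f' t (((Step.turn m t hn' ht).gop Γ φ col (rsd φ)).comp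
      (((Step.cross m l' b hm).gop Γ φ col (rsd φ)).comp
        ((Step.turn f' l' hn hr).gop Γ φ col (rsd φ)))) := by
  have hm' : Γ.nxt f' = m := by
    have h1 := hr.symm.trans hm
    exact Mono_opp_inj h1
  have h0 : φ m = 0 := (hφ.zero m).2 (Or.inr (by rw [← hm]; exact hl'))
  have hf' : φ f' ≠ 0 := (hφ.one f' hn).resolve_right fun h => h (by rw [hm']; exact h0)
  have he' : φ (Γ.nxt m) ≠ 0 := (hφ.one m hn').resolve_left fun h => h h0
  have hef : Γ.nxt (Γ.nxt m) = f' := by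
    rw [← hm']
    exact Γ.nxt3 f'
  have hne : Γ.nxt (Γ.nxt m) ≠ Γ.nxt m := NB_nl hn'
  have ho : φ (Γ.opp f') ≠ 0 := by rw [hφ.opp]; exact neg_ne_zero.2 hf'
  have ht0 : φ t ≠ 0 := by rw [ht, hφ.opp]; exact neg_ne_zero.2 he'
  rw [Mono_b hm b true]
  have hv := hV (Γ.opp f') f' m (Γ.nxt m) l' t rfl hn hr hm hn' ht ht hne (by rw [hef])
  simp only [Path.gop, LinearMap.comp_id] at hv
  -- names
  obtain ⟨c1, d1⟩ := Mono_st hG (Step.cross (Γ := Γ) f' (Γ.opp f') true rfl)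
  obtain ⟨c2, d2⟩ := Mono_st hG (Step.turn (Γ := Γ) (Γ.nxt m) (Γ.opp f') hne (by rw [hef]))
  obtain ⟨c3, d3⟩ := Mono_st hG (Step.cross (Γ := Γ) (Γ.nxt m) t true ht)
  have m1 := Mono_cross (col := col) (e := e) (f := f) hφ true (rfl : Γ.opp f' = Γ.opp f') hf'
  have m3 := Mono_cross (col := col) (e := e) (f := f) hφ true ht he'
  have m2 := Mono_turn (col := col) hφ hll he hf hne (by rw [hef] : Γ.opp f' = _) he'
    (by rw [hef]; exact hf')
  have i1 := Mono_inv ho hf' c1 d1 m1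
  have i2 := Mono_inv he' ho c2 d2 m2
  have i3 := Mono_inv ht0 he' c3 d3 m3
  have hmain := Mono_neg (Mono_comp he' (Mono_comp ho i1 i2) i3)
  have hX : ((Step.turn m t hn' ht).gop Γ φ col (rsd φ)).comp
      (((Step.cross m l' true hm).gop Γ φ col (rsd φ)).comp
        ((Step.turn f' l' hn hr).gop Γ φ col (rsd φ))) =
      -(((Step.cross (Γ := Γ) (Γ.nxt m) t true ht).gop' Γ φ col (rsd φ)).comp
        (((Step.turn (Γ := Γ) (Γ.nxt m) (Γ.opp f') hne (by rw [hef])).gop' Γ φ col (rsd φ)).comp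
          ((Step.cross (Γ := Γ) f' (Γ.opp f') true rfl).gop' Γ φ col (rsd φ)))) := by
    refine LinearMap.ext fun x => ?_
    have v1 := LinearMap.congr_fun hv
      (((Step.cross (Γ := Γ) f' (Γ.opp f') true rfl).gop' Γ φ col (rsd φ)) x)
    have v2 := LinearMap.congr_fun d1 x
    simp only [LinearMap.comp_apply, LinearMap.neg_apply, LinearMap.id_apply] at v1 v2 ⊢
    rw [v2] at v1
    have v3 := congrArg
      ((Step.turn (Γ := Γ) (Γ.nxt m) (Γ.opp f') hne (by rw [hef])).gop' Γ φ col (rsd φ)) v1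
    have v4 := LinearMap.congr_fun c2
    simp only [LinearMap.comp_apply, LinearMap.id_apply] at v4
    rw [v4, map_neg] at v3
    have v5 := congrArg
      ((Step.cross (Γ := Γ) (Γ.nxt m) t true ht).gop' Γ φ col (rsd φ)) v3
    have v6 := LinearMap.congr_fun c3
    simp only [LinearMap.comp_apply, LinearMap.id_apply] at v6
    rw [v6, map_neg] at v5
    exact v5
  rw [hX]
  exact hmain

theorem Mono_step (hφ : IsFlow Γ φ) (hG : MonoGR Γ φ col) (hV : MonoVR Γ φ col) {l e f : H}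
    (hll : Γ.nxt l = l) (he : e = Γ.nxt (Γ.opp l)) (hf : f = Γ.nxt e) {q t q' t' : H}
    (s : Step Γ q t) {Fq : Path Γ q q'} {Ft : Path Γ t t'} (hq : MonoFr Γ φ q q' Fq)
    (ht : MonoFr Γ φ t t' Ft) :
    MonoM Γ φ col e f q' t' ((Ft.gop φ col (rsd φ)).comp
      ((s.gop Γ φ col (rsd φ)).comp (Fq.inv.gop φ col (rsd φ)))) := by
  cases s with
  | turn _ _ hl htt =>
    have hnn : Γ.nxt (Γ.nxt q) ≠ Γ.nxt q := NB_nl hl
    have hot : Γ.opp t = Γ.nxt q := by rw [htt, Γ.opp_opp]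
    cases hq with
    | free h0 =>
      cases ht with
      | free h1 =>
        have h2 : φ (Γ.nxt q) ≠ 0 := by
          rw [htt, hφ.opp] at h1
          exact fun h => h1 (by rw [h]; rfl)
        exact Mono_turn hφ hll he hf hl htt h0 h2
      | out _ hlo hno hr =>
        exfalso
        rw [hot] at hlo
        exact hnn hlo
      | leaf _ hlf hnf hr =>
        have h2 : t' = q := Mono_nxt_inj (Mono_opp_inj (hr.symm.trans htt))
        subst h2
        have h3 := (Mono_st hG (Step.turn (Γ := Γ) t' t hl htt)).1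
        have h4 : MonoM Γ φ col e f t' t' LinearMap.id := Mono_id h0
        rw [← h3] at h4
        exact h4
    | out _ hlo hno hr =>
      have h0 : φ q = 0 := (hφ.zero q).2 (Or.inr hlo)
      have h1 : φ (Γ.nxt q) ≠ 0 := (hφ.one q hl).resolve_left fun h => h h0
      have h1t : φ t ≠ 0 := by rw [htt, hφ.opp]; exact neg_ne_zero.2 h1
      have h2 : q' = t := hr.trans htt.symm
      subst h2
      have h3 := (Mono_st hG (Step.turn (Γ := Γ) q q' hl htt)).2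
      cases ht with
      | free h4 =>
        have h4 : MonoM Γ φ col e f q' q' LinearMap.id := Mono_id h4
        rw [← h3] at h4
        exact h4
      | out _ hlo' hno' hr' =>
        exfalso
        rw [hot] at hlo'
        exact hnn hlo'
      | leaf _ hlf hnf hr' =>
        exfalso
        exact h1t ((hφ.zero _).2 (Or.inl hlf))
    | leaf _ hlf hnf hr => exact absurd hlf hl
  | cross _ _ b hqq =>
    have hot : Γ.opp q = t := by rw [hqq, Γ.opp_opp]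
    cases hq with
    | free h0 =>
      have h1 : φ t ≠ 0 := by
        rw [hqq, hφ.opp] at h0
        exact fun h => h0 (by rw [h]; rfl)
      cases ht with
      | free h2 => exact Mono_cross hφ b hqq h1
      | out _ hlo hno hr => exact absurd ((hφ.zero t).2 (Or.inr hlo)) h1
      | leaf _ hlf hnf hr => exact absurd ((hφ.zero t).2 (Or.inl hlf)) h1
    | out _ hlo hno hr =>
      have hlt : Γ.nxt t = t := by rwa [hot] at hlo
      cases ht with
      | free h2 => exact absurd ((hφ.zero t).2 (Or.inl hlt)) h2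
      | out _ hlo' hno' hr' => exact absurd hlt hno'
      | leaf _ hlf hnf hr' =>
        have hX := Mono_m (col := col) hφ hG hV hll he hf true hot.symm hlt hnf hr' hno hr
        have ht'0 : φ t' ≠ 0 := by
          have h0 : φ (Γ.nxt t') = 0 := by
            have h1 : φ t = 0 := (hφ.zero t).2 (Or.inl hlf)
            rw [hr', hφ.opp] at h1
            exact neg_eq_zero.1 h1
          exact (hφ.one t' hnf).resolve_right fun h => h h0
        have hq'0 : φ q' ≠ 0 := by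
          have h0 : φ q = 0 := (hφ.zero q).2 (Or.inr (by rw [hot]; exact hlt))
          rw [hr, hφ.opp]
          exact neg_ne_zero.2 ((hφ.one q hno).resolve_left fun h => h h0)
        obtain ⟨c1, d1⟩ := Mono_st hG (Step.turn (Γ := Γ) t' t hnf hr')
        obtain ⟨c2, d2⟩ := Mono_st hG (Step.turn (Γ := Γ) q q' hno hr)
        have k1 := Mono_cc (φ := φ) (col := col) hqq hot.symm b true
        have k2 := Mono_cc (φ := φ) (col := col) hot.symm hqq true b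
        have hY : MonoM Γ φ col e f q' t' (-(((Step.turn t' t hnf hr').gop' Γ φ col (rsd φ)).comp
            (((Step.cross t q b hqq).gop Γ φ col (rsd φ)).comp
              ((Step.turn q q' hno hr).gop' Γ φ col (rsd φ))))) := by
          refine Mono_inv ht'0 hq'0 ?_ ?_ hX
          · refine LinearMap.ext fun x => ?_
            have v1 := LinearMap.congr_fun c2
            have v2 := LinearMap.congr_fun k2
            have v3 := LinearMap.congr_fun c1
            simp only [LinearMap.comp_apply, LinearMap.neg_apply, LinearMap.id_apply] at v1 v2 v3 ⊢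
            rw [v1, v2, map_neg, neg_neg, v3]
          · refine LinearMap.ext fun x => ?_
            have v1 := LinearMap.congr_fun d1
            have v2 := LinearMap.congr_fun k1
            have v3 := LinearMap.congr_fun d2
            simp only [LinearMap.comp_apply, LinearMap.neg_apply, LinearMap.id_apply, map_neg]
              at v1 v2 v3 ⊢
            rw [v1, v2, map_neg, neg_neg, v3]
        have hZ := Mono_neg hY
        rw [neg_neg] at hZ
        exact hZ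
    | leaf _ hlf hnf hr =>
      have hlo : Γ.nxt (Γ.opp t) = Γ.opp t := by rw [← hqq]; exact hlf
      cases ht with
      | free h2 => exact absurd ((hφ.zero t).2 (Or.inr hlo)) h2
      | out _ hlo' hno' hr' => exact Mono_m hφ hG hV hll he hf b hqq hlf hnf hr hno' hr'
      | leaf _ hlf' hnf' hr' => exact absurd hlo (Γ.leaf_opp t hlf')

theorem Mono_path (hφ : IsFlow Γ φ) (hG : MonoGR Γ φ col) (hV : MonoVR Γ φ col) {l e f : H}
    (hll : Γ.nxt l = l) (he : e = Γ.nxt (Γ.opp l)) (hf : f = Γ.nxt e) (hf0 : φ f ≠ 0) {q : H}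
    (w : Path Γ f q) : ∀ {r : H} {F : Path Γ q r}, MonoFr Γ φ q r F →
      MonoM Γ φ col e f f r ((F.gop φ col (rsd φ)).comp (w.gop φ col (rsd φ))) := by
  induction w with
  | nil =>
    intro r F hF
    cases hF with
    | free h => exact Mono_id hf0
    | out _ hlo hno hr => exact absurd ((hφ.zero f).2 (Or.inr hlo)) hf0
    | leaf _ hlf hnf hr => exact absurd ((hφ.zero f).2 (Or.inl hlf)) hf0
  | @fwd q t w s ih =>
    intro r F hF
    obtain ⟨q', Fq, hFq⟩ := Mono_fr_ex hφ q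
    have h1 := ih hFq
    have h2 := Mono_step hφ hG hV hll he hf s hFq hF
    have h3 := Mono_comp (Mono_fr_free hφ hFq) h1 h2
    have h4 : ((F.gop φ col (rsd φ)).comp ((s.gop Γ φ col (rsd φ)).comp
        (Fq.inv.gop φ col (rsd φ)))).comp ((Fq.gop φ col (rsd φ)).comp (w.gop φ col (rsd φ))) =
        (F.gop φ col (rsd φ)).comp ((w.fwd s).gop φ col (rsd φ)) := by
      refine LinearMap.ext fun x => ?_
      have v1 := LinearMap.congr_fun (hG _ _ Fq).1
      simp only [LinearMap.comp_apply, LinearMap.id_apply, Path.gop] at v1 ⊢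
      rw [v1]
    rw [← h4]
    exact h3
  | @bwd q t w s ih =>
    intro r F hF
    obtain ⟨t', Ft, hFt⟩ := Mono_fr_ex hφ t
    have h1 := ih hFt
    have h2 := Mono_step hφ hG hV hll he hf s hF hFt
    obtain ⟨c1, d1⟩ := Mono_st hG s
    have h3 : MonoM Γ φ col e f t' r ((F.gop φ col (rsd φ)).comp ((s.gop' Γ φ col (rsd φ)).comp
        (Ft.inv.gop φ col (rsd φ)))) := by
      refine Mono_inv (Mono_fr_free hφ hF) (Mono_fr_free hφ hFt) ?_ ?_ h2
      · refine LinearMap.ext fun x => ?_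
        have v1 := LinearMap.congr_fun (hG _ _ Ft).1
        have v2 := LinearMap.congr_fun c1
        have v3 := LinearMap.congr_fun (hG _ _ F).2
        simp only [LinearMap.comp_apply, LinearMap.id_apply] at v1 v2 v3 ⊢
        rw [v1, v2, v3]
      · refine LinearMap.ext fun x => ?_
        have v1 := LinearMap.congr_fun (hG _ _ F).1
        have v2 := LinearMap.congr_fun d1
        have v3 := LinearMap.congr_fun (hG _ _ Ft).2
        simp only [LinearMap.comp_apply, LinearMap.id_apply] at v1 v2 v3 ⊢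
        rw [v1, v2, v3]
    have h5 := Mono_comp (Mono_fr_free hφ hFt) h1 h3
    have h4 : ((F.gop φ col (rsd φ)).comp ((s.gop' Γ φ col (rsd φ)).comp
        (Ft.inv.gop φ col (rsd φ)))).comp ((Ft.gop φ col (rsd φ)).comp (w.gop φ col (rsd φ))) =
        (F.gop φ col (rsd φ)).comp ((w.bwd s).gop φ col (rsd φ)) := by
      refine LinearMap.ext fun x => ?_
      have v1 := LinearMap.congr_fun (hG _ _ Ft).1
      simp only [LinearMap.comp_apply, LinearMap.id_apply, Path.gop] at v1 ⊢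
      rw [v1]
    rw [← h4]
    exact h5

end

theorem thm_Mono (hG : St_GRel2) : St_Mono := by
  intro H _ Γ φ hφ col l e f hll he hf w
  cases nonempty_fintype H
  obtain ⟨hGR, hVR⟩ := hG H Γ φ hφ col
  have hml : Γ.nxt (Γ.opp l) ≠ Γ.opp l := Γ.leaf_opp l hll
  have hm : φ (Γ.opp l) = 0 := (hφ.zero _).2 (Or.inr (by rw [Γ.opp_opp]; exact hll))
  have hfm : Γ.nxt f = Γ.opp l := by rw [hf, he]; exact Γ.nxt3 _
  have hff : Γ.nxt f ≠ f := by
    rw [hfm, hf, he]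
    exact (NB_nl2 hml).symm
  have hf0 : φ f ≠ 0 := (hφ.one f hff).resolve_right fun h => h (by rw [hfm]; exact hm)
  have hT := Mono_path hφ hGR hVR hll he hf hf0 w (MonoFr.free f hf0)
  have hT' := Mono_path hφ hGR hVR hll he hf hf0 w.inv (MonoFr.free f hf0)
  simp only [Path.gop, LinearMap.id_comp] at hT hT'
  obtain ⟨u, a, ha, hp, hu, hT⟩ := hT
  obtain ⟨u', a', ha', hp', hu', hT'⟩ := hT'
  by_cases hne : Nonempty (GSt Γ φ col f)
  swap
  · refine ⟨0, 1, Or.inl rfl, fun _ => rfl, rfl, fun δ hδ => ?_, fun δ => ?_⟩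
    · exact absurd ⟨⟨δ, hδ⟩⟩ hne
    · exact absurd ⟨δ⟩ hne
  obtain ⟨δ₀⟩ := hne
  have hσ := Mono_sg hf0
  have hη : ∀ δ : GSt Γ φ col f, ∃ η : ℤ, (η = 1 ∨ η = -1) ∧
      δ.1 f - δ.1 (Γ.opp f) = η * (φ f).sign ∧ η = (δ.1 f - δ.1 (Γ.opp f)) * (φ f).sign := by
    intro δ
    rcases hσ with h | h <;> rcases Mono_sgn δ with h' | h' <;> rw [h, h']
    · exact ⟨1, by norm_num⟩
    · exact ⟨-1, by norm_num⟩
    · exact ⟨-1, by norm_num⟩
    · exact ⟨1, by norm_num⟩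
  -- the inverse
  have huu : u' = -u := by
    obtain ⟨η, h1, h2, -⟩ := hη δ₀
    obtain ⟨h3, h4, h5⟩ := hT δ₀ η h1 h2
    obtain ⟨h6, -, h7⟩ := hT' ⟨_, h3⟩ η h1 h4
    have h8 := LinearMap.congr_fun (hGR f f w).1 (Finsupp.single δ₀ 1)
    rw [LinearMap.comp_apply, h5, NB_pt_pos φ col h3, Mono_lin, h7, Mono_pt_smul,
      LinearMap.id_apply] at h8
    have h9 : δ₀.1 + η • u + η • u' = δ₀.1 := by
      by_contra hc
      have h10 := DFunLike.congr_fun h8 δ₀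
      rw [Mono_pt_ne hc, Finsupp.single_eq_same] at h10
      exact zero_ne_one h10
    funext k
    have h10 := congrFun h9 k
    simp only [Pi.add_apply, Pi.smul_apply, smul_eq_mul] at h10
    rw [Pi.neg_apply]
    rcases h1 with rfl | rfl <;> linarith
  subst huu
  have hκ : a (-1) = a 1 := by
    have h1 : a 1 * a (-1) = 1 := by
      rw [hp]
      rcases hσ with h | h <;> rw [h] <;> norm_num
    rcases ha 1 (Or.inl rfl) with h | h <;> rcases ha (-1) (Or.inr rfl) with h' | h' <;>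
      rw [h, h'] at h1 ⊢ <;> norm_num at h1
  refine ⟨(φ f).sign • u, a 1, ha 1 (Or.inl rfl), ?_, ?_, ?_, ?_⟩
  · intro h
    obtain ⟨η, h1, h2, -⟩ := hη δ₀
    obtain ⟨h3, h4, -⟩ := hT δ₀ η h1 h2
    have h5 : u (Γ.opp h) = u h := by
      have key : ∀ k, η * u (Γ.opp k) = η * u k → u (Γ.opp k) = u k := by
        intro k hk
        rcases h1 with rfl | rfl <;> linarith
      simp only [Pi.add_apply, Pi.smul_apply, smul_eq_mul] at h4
      by_cases c1 : h = f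
      · subst c1
        apply key
        linarith
      by_cases c2 : h = Γ.opp f
      · subst c2
        rw [Γ.opp_opp]
        have := key f (by linarith)
        exact this.symm
      · apply key
        have h6 := h3.2.2.2.1 h c1 c2
        have h7 := δ₀.2.2.2.2.1 h c1 c2
        simp only [Pi.add_apply, Pi.smul_apply, smul_eq_mul] at h6
        linarith
    simp only [Pi.smul_apply, h5]
  · simp only [Pi.smul_apply, hu]
  · intro δ hδ
    obtain ⟨η, h1, h2, h3⟩ := hη ⟨δ, hδ⟩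
    obtain ⟨h4, -, -⟩ := hT ⟨δ, hδ⟩ η h1 h2
    obtain ⟨h5, -, -⟩ := hT' ⟨δ, hδ⟩ η h1 h2
    have h6 : η • u = (φ f).sign • u ∨ η • u = -((φ f).sign • u) := by
      rcases h1 with rfl | rfl <;> rcases hσ with h | h <;> rw [h] <;> simp
    simp only at h4 h5
    rcases h6 with h6 | h6
    · rw [smul_neg, h6, ← sub_eq_add_neg] at h5
      rw [h6] at h4
      exact ⟨h4, h5⟩
    · rw [smul_neg, h6, neg_neg] at h5
      rw [h6, ← sub_eq_add_neg] at h4
      exact ⟨h5, h4⟩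
  · intro δ
    obtain ⟨η, h1, h2, h3⟩ := hη δ
    obtain ⟨-, -, h4⟩ := hT δ η h1 h2
    rw [h4, smul_smul, ← h3]
    congr 1
    rcases h1 with rfl | rfl
    · rfl
    · exact hκ

end Pool.Agent.AMS
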