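import Pool.Agent.AMS.StN

/-!
# Base lemmas for the generic module: residues, composition, flows
-/

set_option autoImplicit false

namespace Pool.Agent.AMS

section place

variable {K : Type} [Field K] {P : Place K} {x y : K} {q q' : ℚ}

theorem NB_add (hx : P.Res x q) (hy : P.Res y q') : P.Res (x + y) (q + q') := by
  obtain ⟨h1, h2⟩ := hx
  obtain ⟨h3, h4⟩ := hy
  refine ⟨P.O.add_mem h1 h3, ?_⟩
  have : (⟨x + y, P.O.add_mem h1 h3⟩ : P.O) = ⟨x, h1⟩ + ⟨y, h3⟩ := rfl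
  rw [this, map_add, h2, h4]

theorem NB_mul (hx : P.Res x q) (hy : P.Res y q') : P.Res (x * y) (q * q') := by
  obtain ⟨h1, h2⟩ := hx
  obtain ⟨h3, h4⟩ := hy
  refine ⟨P.O.mul_mem h1 h3, ?_⟩
  have : (⟨x * y, P.O.mul_mem h1 h3⟩ : P.O) = ⟨x, h1⟩ * ⟨y, h3⟩ := rfl
  rw [this, map_mul, h2, h4]

theorem NB_neg (hx : P.Res x q) : P.Res (-x) (-q) := by
  obtain ⟨h1, h2⟩ := hx
  refine ⟨P.O.neg_mem h1, ?_⟩
  have : (⟨-x, P.O.neg_mem h1⟩ : P.O) = -⟨x, h1⟩ := rfl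
  rw [this, map_neg, h2]

theorem NB_sub (hx : P.Res x q) (hy : P.Res y q') : P.Res (x - y) (q - q') := by
  rw [sub_eq_add_neg, sub_eq_add_neg]
  exact NB_add hx (NB_neg hy)

theorem NB_zero : P.Res 0 0 := ⟨P.O.zero_mem, map_zero P.π⟩

theorem NB_one : P.Res 1 1 := ⟨P.O.one_mem, map_one P.π⟩

theorem NB_int (n : ℤ) : P.Res n n := ⟨intCast_mem P.O n, map_intCast P.π n⟩

theorem NB_nat (n : ℕ) : P.Res n n := ⟨natCast_mem P.O n, map_natCast P.π n⟩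

theorem NB_om : P.Res P.ω 0 :=
  ⟨P.hω, (P.ker ⟨P.ω, P.hω⟩).2 ⟨1, by simp⟩⟩

theorem NB_unique (h : P.Res x q) (h' : P.Res x q') : q = q' := by
  obtain ⟨_, h2⟩ := h
  obtain ⟨_, h4⟩ := h'
  exact h2.symm.trans h4

theorem NB_ne (h : P.Res x q) (hq : q ≠ 0) : x ≠ 0 := by
  rintro rfl
  exact hq (NB_unique h NB_zero)

theorem NB_inv (h : P.Res x q) (hq : q ≠ 0) : P.Res x⁻¹ q⁻¹ := by
  have hx : x ≠ 0 := NB_ne h hq
  obtain ⟨h1, h2⟩ := h
  have h3 : x⁻¹ ∈ P.O := P.inv ⟨x, h1⟩ (by rw [h2]; exact hq)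
  refine ⟨h3, ?_⟩
  have h4 : (⟨x, h1⟩ : P.O) * ⟨x⁻¹, h3⟩ = 1 := Subtype.ext (mul_inv_cancel₀ hx)
  have h5 := congrArg P.π h4
  rw [map_mul, h2, map_one] at h5
  exact (eq_inv_of_mul_eq_one_right h5)

theorem NB_div (hx : P.Res x q) (hy : P.Res y q') (hq : q' ≠ 0) : P.Res (x / y) (q / q') := by
  rw [div_eq_mul_inv, div_eq_mul_inv]
  exact NB_mul hx (NB_inv hy hq)

theorem NB_pow (hx : P.Res x q) (n : ℕ) : P.Res (x ^ n) (q ^ n) := by
  induction n with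
  | zero => simpa using (NB_one (P := P))
  | succ n ih => rw [pow_succ, pow_succ]; exact NB_mul ih hx

theorem NB_zpow (hx : P.Res x q) (hq : q ≠ 0) (n : ℤ) : P.Res (x ^ n) (q ^ n) := by
  cases n with
  | ofNat n => simpa using NB_pow hx n
  | negSucc n =>
    rw [zpow_negSucc, zpow_negSucc]
    exact NB_inv (NB_pow hx _) (pow_ne_zero _ hq)

theorem NB_sum {ι : Type} (s : Finset ι) (f : ι → K) (g : ι → ℚ)
    (h : ∀ i ∈ s, P.Res (f i) (g i)) : P.Res (∑ i ∈ s, f i) (∑ i ∈ s, g i) := by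
  classical
  induction s using Finset.induction_on with
  | empty => simpa using (NB_zero (P := P))
  | insert a s ha ih =>
    rw [Finset.sum_insert ha, Finset.sum_insert ha]
    exact NB_add (h a (Finset.mem_insert_self a s))
      (ih fun i hi => h i (Finset.mem_insert_of_mem hi))

/-- An integral element has some residue. -/
theorem NB_mem (h : x ∈ P.O) : ∃ q, P.Res x q := ⟨_, h, rfl⟩

theorem NB_res_zero_iff : P.Res x 0 ↔ ∃ y ∈ P.O, x = P.ω * y := by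
  constructor
  · rintro ⟨h1, h2⟩
    obtain ⟨y, hy⟩ := (P.ker ⟨x, h1⟩).1 h2
    exact ⟨y.1, y.2, hy⟩
  · rintro ⟨y, hy, rfl⟩
    obtain ⟨q, hq⟩ := NB_mem hy
    have := NB_mul (NB_om (P := P)) hq
    simpa using this

/-- The field has characteristic zero. -/
theorem NB_charZero (P : Place K) : CharZero K := by
  refine charZero_of_inj_zero fun n hn => ?_
  by_contra h0
  exact NB_ne (P := P) (NB_nat n) (by exact_mod_cast h0) hn

theorem NB_rat (q : ℚ) : P.Res (q : K) q := by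
  have := NB_charZero P
  have h1 : ((q : ℚ) : K) = (q.num : K) / (q.den : K) := Rat.cast_def q
  rw [h1]
  have h2 := NB_div (P := P) (NB_int q.num) (NB_nat q.den) (by exact_mod_cast q.den_ne_zero)
  rwa [Rat.num_div_den] at h2

end place

section gop

variable {H : Type} {Γ : Fat H} {K : Type} [Field K] (φ : H → ℤ) (col : H → ℕ) (C : Cf H K)

theorem NB_append {p q t : H} (w : Path Γ p q) (v : Path Γ q t) :
    (w.append v).gop φ col C = (v.gop φ col C).comp (w.gop φ col C) := by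
  induction v with
  | nil => rfl
  | fwd v s ih => simp only [Path.append, Path.gop, ih, LinearMap.comp_assoc]
  | bwd v s ih => simp only [Path.append, Path.gop, ih, LinearMap.comp_assoc]

theorem NB_size_append {p q t : H} (w : Path Γ p q) (v : Path Γ q t) :
    (w.append v).size = w.size + v.size := by
  induction v with
  | nil => rfl
  | fwd v s ih => simp only [Path.append, Path.size, ih, Nat.add_assoc]
  | bwd v s ih => simp only [Path.append, Path.size, ih, Nat.add_assoc]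

theorem NB_pt_pos {q : H} {δ : H → ℤ} (h : IsG Γ φ col q δ) (a : K) :
    pt Γ φ col q δ a = Finsupp.single ⟨δ, h⟩ a := dif_pos h

theorem NB_pt_self {q : H} (δ : GSt Γ φ col q) (a : K) :
    pt Γ φ col q δ.1 a = Finsupp.single δ a := dif_pos δ.2

theorem NB_pt_neg {q : H} {δ : H → ℤ} (h : ¬ IsG Γ φ col q δ) (a : K) :
    pt Γ φ col q δ a = 0 := dif_neg h

theorem NB_turn {h t : H} (hl : Γ.nxt h ≠ h) (ht : t = Γ.opp (Γ.nxt h)) (δ : GSt Γ φ col h) :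
    (Step.turn h t hl ht).gop Γ φ col C (Finsupp.single δ 1) =
      pt Γ φ col t (upT Γ h 1 δ.1) (C.turn h (Γ.nxt h) (Γ.nxt (Γ.nxt h)) (δ.1 (Γ.opp h)) (δ.1 h)
        (δ.1 (Γ.nxt h)) (δ.1 (Γ.nxt h) + 1) (δ.1 (Γ.nxt (Γ.nxt h)))) +
      pt Γ φ col t (upT Γ h (-1) δ.1) (C.turn h (Γ.nxt h) (Γ.nxt (Γ.nxt h)) (δ.1 (Γ.opp h)) (δ.1 h)
        (δ.1 (Γ.nxt h)) (δ.1 (Γ.nxt h) - 1) (δ.1 (Γ.nxt (Γ.nxt h)))) := by
  simp only [Step.gop, Finsupp.linearCombination_single, one_smul]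

theorem NB_turn' {h t : H} (hl : Γ.nxt h ≠ h) (ht : t = Γ.opp (Γ.nxt h)) (δ : GSt Γ φ col t) :
    (Step.turn h t hl ht).gop' Γ φ col C (Finsupp.single δ 1) =
      pt Γ φ col h (dnT Γ h 1 δ.1) (C.turn (Γ.nxt h) h (Γ.nxt (Γ.nxt h)) (δ.1 (Γ.opp (Γ.nxt h)))
        (δ.1 (Γ.nxt h)) (δ.1 h) (δ.1 h + 1) (δ.1 (Γ.nxt (Γ.nxt h)))) +
      pt Γ φ col h (dnT Γ h (-1) δ.1) (C.turn (Γ.nxt h) h (Γ.nxt (Γ.nxt h))
        (δ.1 (Γ.opp (Γ.nxt h))) (δ.1 (Γ.nxt h)) (δ.1 h) (δ.1 h - 1) (δ.1 (Γ.nxt (Γ.nxt h)))) := by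
  simp only [Step.gop', Finsupp.linearCombination_single, one_smul]

theorem NB_cross {h q : H} (b : Bool) (hq : q = Γ.opp h) (δ : GSt Γ φ col q) :
    (Step.cross h q b hq).gop Γ φ col C (Finsupp.single δ 1) =
      pt Γ φ col h δ.1 (if b then C.tw h (δ.1 (Γ.opp h)) (δ.1 h)
        else C.tw' h (δ.1 (Γ.opp h)) (δ.1 h)) := by
  simp only [Step.gop, Finsupp.linearCombination_single, one_smul]

theorem NB_cross' {h q : H} (b : Bool) (hq : q = Γ.opp h) (δ : GSt Γ φ col h) :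
    (Step.cross h q b hq).gop' Γ φ col C (Finsupp.single δ 1) =
      pt Γ φ col q δ.1 (if b then C.tw' h (δ.1 (Γ.opp h)) (δ.1 h)
        else C.tw h (δ.1 (Γ.opp h)) (δ.1 h)) := by
  simp only [Step.gop', Finsupp.linearCombination_single, one_smul]

theorem NB_IsG_opp {p : H} {δ : H → ℤ} : IsG Γ φ col (Γ.opp p) δ ↔ IsG Γ φ col p δ := by
  unfold IsG
  rw [Γ.opp_opp]
  constructor
  · rintro ⟨h1, h2, h3, h4, h5⟩
    exact ⟨h1, h2, h3, fun h a b => h4 h b a, h5.symm⟩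
  · rintro ⟨h1, h2, h3, h4, h5⟩
    exact ⟨h1, h2, h3, fun h a b => h4 h b a, h5.symm⟩

end gop

section flow

variable {H : Type} {Γ : Fat H} {φ : H → ℤ}

/-- At a vertex the absolute values of the flow satisfy a wall relation. -/
theorem NB_wall (hφ : IsFlow Γ φ) {h : H} (hl : Γ.nxt h ≠ h) :
    |φ h| = |φ (Γ.nxt h)| + |φ (Γ.nxt (Γ.nxt h))| ∨
      |φ (Γ.nxt h)| = |φ h| + |φ (Γ.nxt (Γ.nxt h))| ∨
      |φ (Γ.nxt (Γ.nxt h))| = |φ h| + |φ (Γ.nxt h)| := by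
  have h1 := hφ.vert h hl
  rcases abs_cases (φ h) with h2 | h2 <;> rcases abs_cases (φ (Γ.nxt h)) with h3 | h3 <;>
    rcases abs_cases (φ (Γ.nxt (Γ.nxt h))) with h4 | h4 <;> omega

theorem NB_nl {h : H} (hl : Γ.nxt h ≠ h) : Γ.nxt (Γ.nxt h) ≠ Γ.nxt h := by
  intro h1
  have h2 := Γ.nxt3 h
  rw [h1, h1] at h2
  exact hl h2

theorem NB_nl2 {h : H} (hl : Γ.nxt h ≠ h) : Γ.nxt (Γ.nxt h) ≠ h := by
  intro h1
  have h2 := Γ.nxt3 h
  rw [h1] at h2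
  exact hl h2

theorem NB_one2 (hφ : IsFlow Γ φ) {h : H} (hl : Γ.nxt h ≠ h) :
    φ (Γ.nxt h) ≠ 0 ∨ φ (Γ.nxt (Γ.nxt h)) ≠ 0 := hφ.one _ (NB_nl hl)

theorem NB_one3 (hφ : IsFlow Γ φ) {h : H} (hl : Γ.nxt h ≠ h) :
    φ h ≠ 0 ∨ φ (Γ.nxt (Γ.nxt h)) ≠ 0 := by
  have h1 := hφ.one _ (NB_nl (NB_nl hl))
  rw [Γ.nxt3] at h1
  exact h1.symm

/-- A half edge at a trivalent vertex with zero flow belongs to the edge of a leaf. -/
theorem NB_leaf (hφ : IsFlow Γ φ) {h : H} (hl : Γ.nxt h ≠ h) (h0 : φ h = 0) :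
    Γ.nxt (Γ.opp h) = Γ.opp h := ((hφ.zero h).1 h0).resolve_left hl

end flow

end Pool.Agent.AMS
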