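import Pool.Agent.AMS.St

/-!
# AMS (NEAR): loops around leaves are close to the identity, their commutators even closer
-/

set_option autoImplicit false

namespace Pool.Agent.AMS

section norms

variable {ι : Type} [Fintype ι]

/-- weighted norm -/
private noncomputable def wn (w : ι → ℝ) (v : ι → ℂ) : ℝ := Real.sqrt (∑ c, w c * ‖v c‖ ^ 2)

private theorem wn_eq (w : ι → ℝ) (hw : ∀ c, 0 < w c) (v : ι → ℂ) :
    wn w v = ‖(WithLp.toLp 2 (fun c => ((Real.sqrt (w c) : ℝ) : ℂ) * v c) : EuclideanSpace ℂ ι)‖ := by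
  rw [EuclideanSpace.norm_eq]
  unfold wn
  congr 1
  refine Finset.sum_congr rfl (fun c _ => ?_)
  simp only [norm_mul, mul_pow, Complex.norm_real, Real.norm_eq_abs, sq_abs,
    Real.sq_sqrt (hw c).le]

private theorem wn_add (w : ι → ℝ) (hw : ∀ c, 0 < w c) (u v : ι → ℂ) :
    wn w (u + v) ≤ wn w u + wn w v := by
  rw [wn_eq w hw, wn_eq w hw u, wn_eq w hw v]
  refine le_trans (le_of_eq ?_) (norm_add_le _ _)
  congr 1
  ext c
  simp [mul_add]

private theorem wn_neg (w : ι → ℝ) (v : ι → ℂ) : wn w (-v) = wn w v := by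
  unfold wn
  simp

private theorem wn_nonneg (w : ι → ℝ) (v : ι → ℂ) : 0 ≤ wn w v := Real.sqrt_nonneg _

private theorem wn_sub_comm (w : ι → ℝ) (u v : ι → ℂ) : wn w (u - v) = wn w (v - u) := by
  rw [← wn_neg w (u - v), neg_sub]

private theorem wn_sub_le (w : ι → ℝ) (hw : ∀ c, 0 < w c) (u v : ι → ℂ) :
    wn w (u - v) ≤ wn w u + wn w v := by
  rw [sub_eq_add_neg]
  refine (wn_add w hw u (-v)).trans ?_
  rw [wn_neg]

private theorem wn_diag (w : ι → ℝ) (hw : ∀ c, 0 < w c) (u v : ι → ℂ) (e : ℝ) (he : 0 ≤ e)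
    (h : ∀ c, ‖u c‖ ≤ e * ‖v c‖) : wn w u ≤ e * wn w v := by
  unfold wn
  rw [← Real.sqrt_sq he, ← Real.sqrt_mul (sq_nonneg e)]
  apply Real.sqrt_le_sqrt
  rw [Finset.mul_sum]
  refine Finset.sum_le_sum (fun c _ => ?_)
  have h1 : ‖u c‖ ^ 2 ≤ (e * ‖v c‖) ^ 2 := pow_le_pow_left₀ (norm_nonneg _) (h c) 2
  have h2 := mul_le_mul_of_nonneg_left h1 (hw c).le
  calc w c * ‖u c‖ ^ 2 ≤ w c * (e * ‖v c‖) ^ 2 := h2
    _ = e ^ 2 * (w c * ‖v c‖ ^ 2) := by ring

/-- close to the identity -/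
private def nearI (w : ι → ℝ) (U : Matrix ι ι ℂ) (e : ℝ) : Prop :=
  ∀ v : ι → ℂ, wn w (U.mulVec v - v) ≤ e * wn w v

private theorem nearI_one [DecidableEq ι] (w : ι → ℝ) : nearI w (1 : Matrix ι ι ℂ) 0 := by
  intro v
  rw [Matrix.one_mulVec, sub_self]
  unfold wn
  simp

private theorem nearI_mul (w : ι → ℝ) (hw : ∀ c, 0 < w c) (U V : Matrix ι ι ℂ) (e e' : ℝ)
    (hV : ∀ v, wn w (V.mulVec v) = wn w v) (h1 : nearI w U e) (h2 : nearI w V e') :
    nearI w (U * V) (e + e') := by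
  intro v
  have h3 : (U * V).mulVec v - v = (U.mulVec (V.mulVec v) - V.mulVec v) + (V.mulVec v - v) := by
    rw [Matrix.mulVec_mulVec]; abel
  rw [h3]
  refine (wn_add w hw _ _).trans ?_
  have h4 := h1 (V.mulVec v)
  have h5 := h2 v
  rw [hV] at h4
  linarith

private theorem nearI_inv [DecidableEq ι] (w : ι → ℝ) (U U' : Matrix ι ι ℂ) (e : ℝ)
    (hU : U' * U = 1) (hU' : ∀ v, wn w (U'.mulVec v) = wn w v) (h1 : nearI w U e) :
    nearI w U' e := by
  intro v
  have h3 : U'.mulVec v - v = U'.mulVec (v - U.mulVec v) := by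
    rw [Matrix.mulVec_sub, Matrix.mulVec_mulVec, hU, Matrix.one_mulVec]
  rw [h3, hU', wn_sub_comm]
  exact h1 v

private theorem nearI_conj {κ : Type} [Fintype κ] [DecidableEq κ] (w : ι → ℝ) (w' : κ → ℝ)
    (U : Matrix ι ι ℂ) (M : Matrix ι κ ℂ) (M' : Matrix κ ι ℂ) (e : ℝ)
    (hM : M' * M = 1) (h2 : ∀ v, wn w (M.mulVec v) = wn w' v)
    (h3 : ∀ v, wn w' (M'.mulVec v) = wn w v) (h1 : nearI w U e) :
    nearI w' (M' * (U * M)) e := by
  intro v
  have h4 : (M' * (U * M)).mulVec v - v = M'.mulVec (U.mulVec (M.mulVec v) - M.mulVec v) := by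
    rw [Matrix.mulVec_sub, Matrix.mulVec_mulVec, Matrix.mulVec_mulVec, Matrix.mulVec_mulVec, hM,
      Matrix.one_mulVec, Matrix.mul_assoc]
  rw [h4, h3]
  have h5 := h1 (M.mulVec v)
  rw [h2] at h5
  exact h5

private theorem nearI_comm [DecidableEq ι] (w : ι → ℝ) (hw : ∀ c, 0 < w c)
    (U U' V V' : Matrix ι ι ℂ) (e e' : ℝ) (he : 0 ≤ e) (he' : 0 ≤ e')
    (hU : U' * U = 1) (hV : V' * V = 1) (hU' : ∀ v, wn w (U'.mulVec v) = wn w v)
    (hV' : ∀ v, wn w (V'.mulVec v) = wn w v) (h1 : nearI w U e) (h2 : nearI w V e') :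
    nearI w (V' * (U' * (V * U))) (2 * (e * e')) := by
  intro v
  have h3 : (V' * (U' * (V * U))).mulVec v - v
      = V'.mulVec (U'.mulVec ((V * U).mulVec v - (U * V).mulVec v)) := by
    have h4 : V'.mulVec (U'.mulVec ((U * V).mulVec v)) = v := by
      rw [Matrix.mulVec_mulVec, Matrix.mulVec_mulVec, ← Matrix.mul_assoc, Matrix.mul_assoc V' U' U,
        hU, Matrix.mul_one, hV, Matrix.one_mulVec]
    rw [Matrix.mulVec_sub, Matrix.mulVec_sub, h4, Matrix.mulVec_mulVec, Matrix.mulVec_mulVec,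
      Matrix.mul_assoc]
  rw [h3, hV', hU']
  have h5 : (V * U).mulVec v - (U * V).mulVec v
      = (V.mulVec (U.mulVec v - v) - (U.mulVec v - v))
        - (U.mulVec (V.mulVec v - v) - (V.mulVec v - v)) := by
    rw [Matrix.mulVec_sub, Matrix.mulVec_sub, Matrix.mulVec_mulVec, Matrix.mulVec_mulVec]
    abel
  rw [h5]
  refine (wn_sub_le w hw _ _).trans ?_
  have h6 := h2 (U.mulVec v - v)
  have h7 := h1 (V.mulVec v - v)
  have h8 := mul_le_mul_of_nonneg_left (h1 v) he'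
  have h9 := mul_le_mul_of_nonneg_left (h2 v) he
  nlinarith

end norms

/-! ### The root of unity and the leaf loop -/

private theorem A0_ne (r : ℕ) : A0 r ≠ 0 := Complex.exp_ne_zero _

private theorem A0_prim (r : ℕ) (hr : 2 ≤ r) : IsPrimitiveRoot (A0 r) (4 * r) := by
  have h1 := Complex.isPrimitiveRoot_exp (4 * r) (by omega)
  have h2 : A0 r = Complex.exp (2 * Real.pi * Complex.I / ((4 * r : ℕ) : ℂ)) := by
    unfold A0
    push_cast
    rfl
  rw [h2]
  exact h1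

private theorem A0_pow_near (r : ℕ) (hr : 2 ≤ r) (m : ℤ) :
    ‖(A0 r) ^ m - 1‖ ≤ (Real.pi / 2 * |(m : ℝ)|) / r := by
  have h1 : (A0 r) ^ m = Complex.exp (Complex.I * ((2 * Real.pi * m / (4 * r) : ℝ) : ℂ)) := by
    unfold A0
    rw [← Complex.exp_int_mul]
    congr 1
    push_cast
    ring
  rw [h1]
  refine Real.norm_exp_I_mul_ofReal_sub_one_le.trans ?_
  have hr0 : (0 : ℝ) < r := by positivity
  rw [Real.norm_eq_abs, abs_div, abs_mul, abs_of_pos (by positivity : (0 : ℝ) < 2 * Real.pi),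
    abs_of_pos (by positivity : (0 : ℝ) < 4 * r)]
  apply le_of_eq
  field_simp
  ring

private theorem tw_sq (r : ℕ) (x x' : ℕ) :
    ∃ m : ℤ, (tw (A0 r) x x') * tw (A0 r) x x' = (A0 r) ^ m ∧
      |(m : ℝ)| ≤ 2 * (x : ℝ) + 4 := by
  have hA := A0_ne r
  unfold tw
  by_cases h : x' = x + 1
  · refine ⟨-(2 * (x : ℤ)), ?_, ?_⟩
    · rw [if_pos h, ← zpow_add₀ hA]
      congr 1
      ring
    · push_cast
      rw [abs_neg, abs_of_nonneg (by positivity)]
      linarith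
  · refine ⟨2 * (x : ℤ) + 4, ?_, ?_⟩
    · rw [if_neg h, neg_mul_neg, ← zpow_add₀ hA]
      congr 1
      ring
    · push_cast
      rw [abs_of_nonneg (by positivity)]

section main

variable {H : Type} [Finite H] (Γ : Fat H)

omit [Finite H] in
/-- the states at a position and at the opposite position are the same functions -/
private theorem IsSt_opp (r : ℕ) (col : H → ℕ) (p : H) (c : H → ℕ) (h : IsSt Γ r col (Γ.opp p) c) :
    IsSt Γ r col p c := by
  obtain ⟨h1, h2, h3, h4, h5⟩ := h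
  rw [Γ.opp_opp] at h5
  refine ⟨h1, h2, h3, fun k hk hk' => h4 k hk' (by rw [Γ.opp_opp]; exact hk), h5.symm⟩

private theorem loop_mulVec (r : ℕ) (col : H → ℕ) (A : ℂ) (l : H)
    (v : St Γ r col (Γ.opp l) → ℂ) (c : St Γ r col (Γ.opp l)) :
    ((loop Γ l).mat Γ r col A).mulVec v c
      = tw A (c.1 (Γ.opp l)) (c.1 l) * tw A (c.1 (Γ.opp l)) (c.1 l) * v c := by
  have h1 : (loop Γ l).mat Γ r col A
      = (Step.cross (Γ := Γ) l _ false rfl).mat' Γ r col A *
        ((Step.cross (Γ := Γ) l _ true rfl).mat Γ r col A *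
          (1 : Matrix (St Γ r col (Γ.opp l)) (St Γ r col (Γ.opp l)) ℂ)) := rfl
  rw [h1, Matrix.mul_one, ← Matrix.mulVec_mulVec]
  have hc : IsSt Γ r col l c.1 := IsSt_opp Γ r col l c.1 c.2
  have h2 : ∀ u : St Γ r col l → ℂ,
      ((Step.cross (Γ := Γ) l _ false rfl).mat' Γ r col A).mulVec u c
        = tw A (c.1 (Γ.opp l)) (c.1 l) * u ⟨c.1, hc⟩ := by
    intro u
    refine (Finset.sum_eq_single (⟨c.1, hc⟩ : St Γ r col l) ?_ ?_).trans ?_
    rotate_left 2
    · simp only [Step.mat', Matrix.of_apply]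
      simp
    · intro b _ hb
      simp only [Step.mat', Matrix.of_apply]
      rw [if_neg, zero_mul]
      intro h3
      exact hb (Subtype.ext h3.symm)
    · intro h3
      exact (h3 (@Finset.mem_univ (St Γ r col l) _ _)).elim
  rw [h2]
  have h4 : ((Step.cross (Γ := Γ) l _ true rfl).mat Γ r col A).mulVec v ⟨c.1, hc⟩
        = tw A (c.1 (Γ.opp l)) (c.1 l) * v c := by
    refine (Finset.sum_eq_single c ?_ ?_).trans ?_
    rotate_left 2
    · simp only [Step.mat, Matrix.of_apply]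
      simp
    · intro b _ hb
      simp only [Step.mat, Matrix.of_apply]
      rw [if_neg, zero_mul]
      intro h3
      exact hb (Subtype.ext h3.symm)
    · intro h3
      exact absurd (Fintype.complete _) h3
  rw [h4]
  ring

private theorem nrm_eq (r : ℕ) (col : H → ℕ) (p : H) (W : (H → ℕ) → ℝ) (v : St Γ r col p → ℂ) :
    nrm Γ W v = wn (fun c : St Γ r col p => W c.1) v := rfl

private theorem loop_near (r : ℕ) (hr : 2 ≤ r) (col : H → ℕ) (l : H) (hl : Γ.nxt l = l)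
    (W : (H → ℕ) → ℝ) (hW : IsW Γ r col W) :
    nearI (fun c : St Γ r col (Γ.opp l) => W c.1) ((loop Γ l).mat Γ r col (A0 r))
      ((Real.pi / 2 * (2 * (col l : ℝ) + 6)) / r) := by
  have hr0 : (0 : ℝ) < r := by positivity
  intro v
  refine wn_diag _ (fun c => hW.1 _ c) _ _ _ (by positivity) (fun c => ?_)
  have h1 : (((loop Γ l).mat Γ r col (A0 r)).mulVec v - v) c
      = (tw (A0 r) (c.1 (Γ.opp l)) (c.1 l) * tw (A0 r) (c.1 (Γ.opp l)) (c.1 l) - 1) * v c := by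
    rw [Pi.sub_apply, loop_mulVec]
    ring
  rw [h1, norm_mul]
  refine mul_le_mul_of_nonneg_right ?_ (norm_nonneg _)
  obtain ⟨m, hm, hm'⟩ := tw_sq r (c.1 (Γ.opp l)) (c.1 l)
  rw [hm]
  refine (A0_pow_near r hr m).trans ?_
  have h2 : c.1 (Γ.opp l) ≤ col l + 1 := by
    have h3 := c.2.2.1 l hl
    have h4 := c.2.2.2.2.2
    rw [Γ.opp_opp] at h4
    omega
  have h5 : (c.1 (Γ.opp l) : ℝ) ≤ (col l : ℝ) + 1 := by exact_mod_cast h2
  refine div_le_div_of_nonneg_right ?_ hr0.le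
  refine mul_le_mul_of_nonneg_left ?_ (by positivity)
  linarith

private theorem null_near (hA : St_App) (hIso : St_Iso) (col : H → ℕ) (p : H) (f : Path Γ p p)
    (hf : Null Γ f) : ∃ C : ℝ, 0 ≤ C ∧ ∀ (r : ℕ) (_ : 2 ≤ r) (W : (H → ℕ) → ℝ)
      (_ : IsW Γ r col W),
      nearI (fun c : St Γ r col p => W c.1) (f.mat Γ r col (A0 r)) (C / r) := by
  induction hf with
  | nil =>
    refine ⟨0, le_refl _, fun r hr W hW => ?_⟩
    rw [zero_div]
    exact nearI_one _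
  | loop l hl w =>
    refine ⟨Real.pi / 2 * (2 * (col l : ℝ) + 6), by positivity, fun r hr W hW => ?_⟩
    have h1 : ((w.append (loop Γ l)).append w.inv).mat Γ r col (A0 r)
        = w.inv.mat Γ r col (A0 r) * ((loop Γ l).mat Γ r col (A0 r) * w.mat Γ r col (A0 r)) := by
      rw [hA.1, hA.1]
    rw [h1]
    exact nearI_conj _ _ _ _ _ _ (hA.2 H Γ r hr col (A0 r) (A0_prim r hr) _ _ w).1
      (fun v => hIso H Γ r hr col W hW _ _ w v) (fun v => hIso H Γ r hr col W hW _ _ w.inv v)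
      (loop_near Γ r hr col l hl W hW)
  | @mul u v hu hv ihu ihv =>
    obtain ⟨C1, h1, h2⟩ := ihu
    obtain ⟨C2, h3, h4⟩ := ihv
    refine ⟨C2 + C1, by positivity, fun r hr W hW => ?_⟩
    rw [hA.1, add_div]
    exact nearI_mul _ (fun c => hW.1 _ c) _ _ _ _ (fun x => hIso H Γ r hr col W hW _ _ u x)
      (h4 r hr W hW) (h2 r hr W hW)
  | @inv u hu ihu =>
    obtain ⟨C1, h1, h2⟩ := ihu
    refine ⟨C1, h1, fun r hr W hW => ?_⟩
    exact nearI_inv _ _ _ _ (hA.2 H Γ r hr col (A0 r) (A0_prim r hr) _ _ u).1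
      (fun x => hIso H Γ r hr col W hW _ _ u.inv x) (h2 r hr W hW)

private theorem comm_near (hA : St_App) (hIso : St_Iso) (col : H → ℕ) (p : H) (f : Path Γ p p)
    (hf : Comm Γ f) : ∃ C : ℝ, 0 ≤ C ∧ ∀ (r : ℕ) (_ : 2 ≤ r) (W : (H → ℕ) → ℝ)
      (_ : IsW Γ r col W),
      nearI (fun c : St Γ r col p => W c.1) (f.mat Γ r col (A0 r)) (C / (r : ℝ) ^ 2) := by
  induction hf with
  | nil =>
    refine ⟨0, le_refl _, fun r hr W hW => ?_⟩
    rw [zero_div]
    exact nearI_one _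
  | @comm u v hu hv =>
    obtain ⟨C1, h1, h2⟩ := null_near Γ hA hIso col p u hu
    obtain ⟨C2, h3, h4⟩ := null_near Γ hA hIso col p v hv
    refine ⟨2 * (C1 * C2), by positivity, fun r hr W hW => ?_⟩
    have hr0 : (0 : ℝ) < r := by positivity
    have h5 : (((u.append v).append u.inv).append v.inv).mat Γ r col (A0 r)
        = v.inv.mat Γ r col (A0 r) * (u.inv.mat Γ r col (A0 r) *
          (v.mat Γ r col (A0 r) * u.mat Γ r col (A0 r))) := by
      rw [hA.1, hA.1, hA.1]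
    have h6 : 2 * (C1 * C2) / (r : ℝ) ^ 2 = 2 * (C1 / r * (C2 / r)) := by
      field_simp
    rw [h5, h6]
    exact nearI_comm _ (fun c => hW.1 _ c) _ _ _ _ _ _ (by positivity) (by positivity)
      (hA.2 H Γ r hr col (A0 r) (A0_prim r hr) _ _ u).1
      (hA.2 H Γ r hr col (A0 r) (A0_prim r hr) _ _ v).1
      (fun x => hIso H Γ r hr col W hW _ _ u.inv x) (fun x => hIso H Γ r hr col W hW _ _ v.inv x)
      (h2 r hr W hW) (h4 r hr W hW)
  | @mul u v hu hv ihu ihv =>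
    obtain ⟨C1, h1, h2⟩ := ihu
    obtain ⟨C2, h3, h4⟩ := ihv
    refine ⟨C2 + C1, by positivity, fun r hr W hW => ?_⟩
    rw [hA.1, add_div]
    exact nearI_mul _ (fun c => hW.1 _ c) _ _ _ _ (fun x => hIso H Γ r hr col W hW _ _ u x)
      (h4 r hr W hW) (h2 r hr W hW)

end main

/-- (NEAR) -/
theorem thm_Near (hA : St_App) (hIso : St_Iso) : St_Near := by
  intro H _ Γ col p f hf
  obtain ⟨C, _, hC⟩ := comm_near Γ hA hIso col p f hf
  exact ⟨C, fun r hr W hW v => hC r hr W hW v⟩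

end Pool.Agent.AMS
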