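import Pool.Agent.AMS.StP
import Pool.Agent.AMS.Inv

/-!
# AMS (PAR): parities of the colours along paths, and integrality of the matrices of paths
-/

set_option autoImplicit false

namespace Pool.Agent.AMS

section

variable {H : Type} {Γ : Fat H}

lemma Par_two (a : ZMod 2) : a + 1 + 1 = a := by
  revert a
  decide

open Classical in
/-- the colours of the two states of a turn -/
lemma Par_turn {r : ℕ} {col : H → ℕ} {h : H} (hl : Γ.nxt h ≠ h) {c c' : H → ℕ}
    (hc : IsSt Γ r col h c) (hc' : IsSt Γ r col (Γ.opp (Γ.nxt h)) c')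
    (hag : ∀ k, k ≠ h → k ≠ Γ.nxt h → c' k = c k) (hh : c' h = c (Γ.opp h)) (k : H) :
    ((c' k : ℕ) : ZMod 2) =
      ((c k : ℕ) : ZMod 2) + ((if k = h then 1 else 0) + (if k = Γ.nxt h then 1 else 0)) := by
  have T := Inv_tri hl
  have hc2 : IsSt Γ r col (Γ.nxt h) c' := Inv_isSt_opp.1 hc'
  have hn : c (Γ.nxt h) = c' (Γ.opp (Γ.nxt h)) := (T.cond hc hc2 hag).1 hh
  by_cases k1 : k = h
  · subst k1
    rw [if_pos rfl, if_neg (fun e => hl e.symm), hh, add_zero]
    rcases hc.2.2.2.2 with e | e
    · rw [e]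
      push_cast
      rw [Par_two]
    · rw [e]
      push_cast
      rfl
  · by_cases k2 : k = Γ.nxt h
    · subst k2
      rw [if_neg k1, if_pos rfl, hn, zero_add]
      rcases hc2.2.2.2.2 with e | e
      · rw [e]
        push_cast
        rfl
      · rw [e]
        push_cast
        rw [Par_two]
    · rw [if_neg k1, if_neg k2, hag k k1 k2, add_zero, add_zero]

open Classical in
/-- parities and the matrix of a move -/
lemma Par_mat {r : ℕ} {col : H → ℕ} {A : ℂ} {q t : H} (s : Step Γ q t) (c' : St Γ r col t)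
    (c : St Γ r col q) (h0 : s.mat Γ r col A c' c ≠ 0) (k : H) :
    ((c'.1 k : ℕ) : ZMod 2) = ((c.1 k : ℕ) : ZMod 2) + s.par k := by
  cases s with
  | turn _ _ hl hq =>
    subst hq
    by_cases h1 : (∀ k, k ≠ q → k ≠ Γ.nxt q → c'.1 k = c.1 k) ∧ c'.1 q = c.1 (Γ.opp q)
    · exact Par_turn hl c.2 c'.2 h1.1 h1.2 k
    · exfalso
      apply h0
      show (if (∀ k, k ≠ q → k ≠ Γ.nxt q → c'.1 k = c.1 k) ∧ c'.1 q = c.1 (Γ.opp q) then _
        else _) = _
      rw [if_neg h1]
  | cross _ _ b hq =>
    by_cases h1 : c'.1 = c.1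
    · show _ = _ + (0 : ZMod 2)
      rw [h1, add_zero]
    · exfalso
      apply h0
      show (if c'.1 = c.1 then _ else _) = _
      rw [if_neg h1]

open Classical in
/-- parities and the matrix of the inverse of a move -/
lemma Par_mat' {r : ℕ} {col : H → ℕ} {A : ℂ} {q t : H} (s : Step Γ q t) (c' : St Γ r col t)
    (c : St Γ r col q) (h0 : s.mat' Γ r col A c c' ≠ 0) (k : H) :
    ((c.1 k : ℕ) : ZMod 2) = ((c'.1 k : ℕ) : ZMod 2) + s.par k := by
  cases s with
  | turn _ _ hl hq =>
    subst hq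
    by_cases h1 : (∀ k, k ≠ q → k ≠ Γ.nxt q → c.1 k = c'.1 k) ∧
        c.1 (Γ.nxt q) = c'.1 (Γ.opp (Γ.nxt q))
    · have T := Inv_tri hl
      have hag : ∀ k, k ≠ q → k ≠ Γ.nxt q → c'.1 k = c.1 k := fun k a b => (h1.1 k a b).symm
      have hh : c'.1 q = c.1 (Γ.opp q) := (T.cond c.2 (Inv_isSt_opp.1 c'.2) hag).2 h1.2
      have h2 := Par_turn hl c.2 c'.2 hag hh k
      show _ = _ + ((if k = q then (1 : ZMod 2) else 0) + (if k = Γ.nxt q then 1 else 0))
      rw [h2, add_assoc]
      have h3 : ∀ a : ZMod 2, a + a = 0 := by decide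
      rw [h3, add_zero]
    · exfalso
      apply h0
      show (if (∀ k, k ≠ q → k ≠ Γ.nxt q → c.1 k = c'.1 k) ∧
        c.1 (Γ.nxt q) = c'.1 (Γ.opp (Γ.nxt q)) then _ else _) = _
      rw [if_neg h1]
  | cross _ _ b hq =>
    by_cases h1 : c.1 = c'.1
    · show _ = _ + (0 : ZMod 2)
      rw [h1, add_zero]
    · exfalso
      apply h0
      show (if c.1 = c'.1 then _ else _) = _
      rw [if_neg h1]

lemma Par_append {p q t : H} (w : Path Γ p q) (v : Path Γ q t) (k : H) :
    (w.append v).par k = w.par k + v.par k := by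
  induction v with
  | nil =>
    show w.par k = w.par k + 0
    rw [add_zero]
  | fwd v s ih =>
    show (w.append v).par k + s.par k = w.par k + (v.par k + s.par k)
    rw [ih, add_assoc]
  | bwd v s ih =>
    show (w.append v).par k + s.par k = w.par k + (v.par k + s.par k)
    rw [ih, add_assoc]

lemma Par_inv {p q : H} (w : Path Γ p q) (k : H) : w.inv.par k = w.par k := by
  induction w with
  | nil => rfl
  | fwd w s ih =>
    show ((Path.nil.bwd s).append w.inv).par k = w.par k + s.par k
    rw [Par_append, ih]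
    show (0 + s.par k) + w.par k = _
    rw [zero_add, add_comm]
  | bwd w s ih =>
    show ((Path.nil.fwd s).append w.inv).par k = w.par k + s.par k
    rw [Par_append, ih]
    show (0 + s.par k) + w.par k = _
    rw [zero_add, add_comm]

end

theorem thm_Par (hN : St_Int) : St_Par := by
  refine ⟨?_, ?_, ?_, ?_⟩
  · intro H _ Γ r col A p q w
    induction w with
    | nil =>
      intro c' c h0 k
      have h1 : c' = c := by
        by_contra h2
        apply h0
        show (1 : Matrix (St Γ r col p) (St Γ r col p) ℂ) c' c = 0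
        exact Matrix.one_apply_ne h2
      show _ = _ + (0 : ZMod 2)
      rw [h1, add_zero]
    | fwd w s ih =>
      intro c' c h0 k
      have h1 : (s.mat Γ r col A * w.mat Γ r col A) c' c ≠ 0 := h0
      rw [Matrix.mul_apply] at h1
      obtain ⟨c₁, -, h2⟩ := Finset.exists_ne_zero_of_sum_ne_zero h1
      have h3 := Par_mat s c' c₁ (left_ne_zero_of_mul h2) k
      have h4 := ih c₁ c (right_ne_zero_of_mul h2) k
      show _ = _ + (w.par k + s.par k)
      rw [h3, h4, add_assoc]
    | bwd w s ih =>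
      intro c' c h0 k
      have h1 : (s.mat' Γ r col A * w.mat Γ r col A) c' c ≠ 0 := h0
      rw [Matrix.mul_apply] at h1
      obtain ⟨c₁, -, h2⟩ := Finset.exists_ne_zero_of_sum_ne_zero h1
      have h3 := Par_mat' s c₁ c' (left_ne_zero_of_mul h2) k
      have h4 := ih c₁ c (right_ne_zero_of_mul h2) k
      show _ = _ + (w.par k + s.par k)
      rw [h3, h4, add_assoc]
  · intro H Γ p q t w v k
    exact Par_append w v k
  · intro H Γ p q w k
    exact Par_inv w k
  · intro p hp h3 A hA H _ Γ col q t w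
    induction w with
    | nil =>
      intro c' c
      show (1 : Matrix (St Γ p col q) (St Γ p col q) ℂ) c' c ∈ RR A
      rw [Matrix.one_apply]
      split_ifs
      · exact (RR A).one_mem
      · exact (RR A).zero_mem
    | fwd w s ih =>
      intro c' c
      show (s.mat Γ p col A * w.mat Γ p col A) c' c ∈ RR A
      rw [Matrix.mul_apply]
      exact (RR A).sum_mem fun c₁ _ =>
        (RR A).mul_mem (hN p hp h3 A hA H Γ col _ _ s c' c₁).1 (ih c₁ c)
    | bwd w s ih =>
      intro c' c
      show (s.mat' Γ p col A * w.mat Γ p col A) c' c ∈ RR A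
      rw [Matrix.mul_apply]
      exact (RR A).sum_mem fun c₁ _ =>
        (RR A).mul_mem (hN p hp h3 A hA H Γ col _ _ s c₁ c').2 (ih c₁ c)

end Pool.Agent.AMS
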