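import Pool.Agent.AMS.NB

/-!
# Integrality and residues for paths; dilation
-/

set_option autoImplicit false

namespace Pool.Agent.AMS

section part1

variable {K : Type} [Field K]

/-- pointwise residues -/
def PathR_RV {X : Type} (P : Place K) (v : X →₀ K) (u : X →₀ ℚ) : Prop :=
  ∀ x, P.Res (v x) (u x)

theorem PathR_expand {k X Y : Type} [Field k] (F : (X →₀ k) →ₗ[k] (Y →₀ k)) (v : X →₀ k)
    (s : Finset X) (hs : v.support ⊆ s) (y : Y) :
    F v y = ∑ x ∈ s, v x * F (Finsupp.single x 1) y := by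
  classical
  have h1 : v = ∑ x ∈ s, v x • Finsupp.single x 1 := by
    conv_lhs => rw [← Finsupp.sum_single v]
    rw [Finsupp.sum_of_support_subset v hs _ (fun _ _ => Finsupp.single_zero _)]
    refine Finset.sum_congr rfl fun x _ => ?_
    rw [Finsupp.smul_single, smul_eq_mul, mul_one]
  have h2 : F v = ∑ x ∈ s, v x • F (Finsupp.single x 1) := by
    conv_lhs => rw [h1]
    rw [map_sum]
    exact Finset.sum_congr rfl fun x _ => map_smul F _ _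
  rw [h2, Finsupp.finsetSum_apply]
  exact Finset.sum_congr rfl fun x _ => rfl

theorem PathR_lin {P : Place K} {X Y : Type} (F : (X →₀ K) →ₗ[K] (Y →₀ K))
    (G : (X →₀ ℚ) →ₗ[ℚ] (Y →₀ ℚ))
    (h : ∀ x, PathR_RV P (F (Finsupp.single x 1)) (G (Finsupp.single x 1))) (v : X →₀ K)
    (u : X →₀ ℚ) (hv : PathR_RV P v u) : PathR_RV P (F v) (G u) := by
  classical
  intro y
  rw [PathR_expand F v (v.support ∪ u.support) Finset.subset_union_left,
    PathR_expand G u (v.support ∪ u.support) Finset.subset_union_right]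
  exact NB_sum _ _ _ fun x _ => NB_mul (hv x) (h x y)

variable {H : Type} {Γ : Fat H} {φ : H → ℤ} {col : H → ℕ}

theorem PathR_add {P : Place K} {X : Type} {v v' : X →₀ K} {u u' : X →₀ ℚ}
    (h : PathR_RV P v u) (h' : PathR_RV P v' u') : PathR_RV P (v + v') (u + u') :=
  fun x => NB_add (h x) (h' x)

theorem PathR_single {P : Place K} {X : Type} {a : K} {a' : ℚ} (h : P.Res a a') (x : X) :
    PathR_RV P (Finsupp.single x a) (Finsupp.single x a') := by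
  classical
  intro y
  rw [Finsupp.single_apply, Finsupp.single_apply]
  split_ifs
  · exact h
  · exact NB_zero

theorem PathR_pt {P : Place K} {q : H} {δ : H → ℤ} {a : K} {a' : ℚ} (h : P.Res a a') :
    PathR_RV P (pt Γ φ col q δ a) (pt Γ φ col q δ a') := by
  by_cases hδ : IsG Γ φ col q δ
  · rw [NB_pt_pos φ col hδ, NB_pt_pos φ col hδ]
    exact PathR_single h _
  · rw [NB_pt_neg φ col hδ, NB_pt_neg φ col hδ]
    exact fun x => NB_zero

theorem PathR_opp_ne (hφ : IsFlow Γ φ) {h : H} (hl : Γ.nxt h ≠ h) (h0 : φ (Γ.nxt h) = 0 ∨ φ h = 0) :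
    Γ.nxt h ≠ Γ.opp h := by
  intro he
  have h1 : φ (Γ.nxt h) = -φ h := by rw [he, hφ.opp]
  rcases hφ.one h hl with h2 | h2 <;> rcases h0 with h3 | h3 <;> omega

/-- the coefficients of a turn -/
theorem PathR_turn {P : Place K} (hI : St_IntC) (hφ : IsFlow Γ φ) {a : ℕ} (ha : 1 ≤ a) {h : H}
    (hl : Γ.nxt h ≠ h) (δ : GSt Γ φ col h) (y' : ℤ)
    (hy : y' = δ.1 (Γ.nxt h) + 1 ∨ y' = δ.1 (Γ.nxt h) - 1) :
    P.Res ((scl φ (P.A a) P.T P.ω).turn h (Γ.nxt h) (Γ.nxt (Γ.nxt h)) (δ.1 (Γ.opp h)) (δ.1 h)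
        (δ.1 (Γ.nxt h)) y' (δ.1 (Γ.nxt (Γ.nxt h))))
      ((rsd φ).turn h (Γ.nxt h) (Γ.nxt (Γ.nxt h)) (δ.1 (Γ.opp h)) (δ.1 h)
        (δ.1 (Γ.nxt h)) y' (δ.1 (Γ.nxt (Γ.nxt h)))) := by
  obtain ⟨δ, g1, g2, g3, g4, g5⟩ := δ
  have o1 := hφ.one h hl
  have o2 := NB_one2 hφ hl
  have o3 := NB_one3 hφ hl
  refine (hI K P a ha).1 |φ h| |φ (Γ.nxt h)| |φ (Γ.nxt (Γ.nxt h))| (δ (Γ.opp h)) (δ h)
    (δ (Γ.nxt h)) y' (δ (Γ.nxt (Γ.nxt h))) (abs_nonneg _) (abs_nonneg _) (abs_nonneg _)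
    (NB_wall hφ hl) ?_ ?_ ?_ ?_ hy ?_ ?_
  · simpa using o1
  · simpa using o3
  · simpa using o2
  · rcases g5 with h1 | h1 <;> omega
  · intro h0
    have h1 : φ h = 0 := abs_eq_zero.1 h0
    have h2 := NB_leaf hφ hl h1
    show 0 ≤ δ (Γ.opp h)
    rw [g1 _ h2]
    positivity
  · intro h0
    have h1 : φ (Γ.nxt h) = 0 := abs_eq_zero.1 h0
    have h2 := NB_leaf hφ (NB_nl hl) h1
    show 0 ≤ δ (Γ.nxt h)
    rw [← g4 (Γ.nxt h) hl (PathR_opp_ne hφ hl (Or.inl h1)), g1 _ h2]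
    positivity

/-- the coefficients of an inverse turn -/
theorem PathR_turn' {P : Place K} (hI : St_IntC) (hφ : IsFlow Γ φ) {a : ℕ} (ha : 1 ≤ a) {h t : H}
    (hl : Γ.nxt h ≠ h) (ht : t = Γ.opp (Γ.nxt h)) (δ : GSt Γ φ col t) (y' : ℤ)
    (hy : y' = δ.1 h + 1 ∨ y' = δ.1 h - 1) :
    P.Res ((scl φ (P.A a) P.T P.ω).turn (Γ.nxt h) h (Γ.nxt (Γ.nxt h)) (δ.1 (Γ.opp (Γ.nxt h)))
        (δ.1 (Γ.nxt h)) (δ.1 h) y' (δ.1 (Γ.nxt (Γ.nxt h))))
      ((rsd φ).turn (Γ.nxt h) h (Γ.nxt (Γ.nxt h)) (δ.1 (Γ.opp (Γ.nxt h)))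
        (δ.1 (Γ.nxt h)) (δ.1 h) y' (δ.1 (Γ.nxt (Γ.nxt h)))) := by
  obtain ⟨δ, g1, g2, g3, g4, g5⟩ := δ
  have hto : Γ.opp t = Γ.nxt h := by rw [ht, Γ.opp_opp]
  have o1 := hφ.one h hl
  have o2 := NB_one2 hφ hl
  have o3 := NB_one3 hφ hl
  refine (hI K P a ha).1 |φ (Γ.nxt h)| |φ h| |φ (Γ.nxt (Γ.nxt h))| (δ (Γ.opp (Γ.nxt h)))
    (δ (Γ.nxt h)) (δ h) y' (δ (Γ.nxt (Γ.nxt h))) (abs_nonneg _) (abs_nonneg _) (abs_nonneg _)
    ?_ ?_ ?_ ?_ ?_ hy ?_ ?_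
  · rcases NB_wall hφ hl with h1 | h1 | h1
    · exact Or.inr (Or.inl h1)
    · exact Or.inl h1
    · exact Or.inr (Or.inr (by rw [h1, add_comm]))
  · simpa using o1.symm
  · simpa using o2
  · simpa using o3
  · rw [hto, ht] at g5
    rcases g5 with h1 | h1 <;> omega
  · intro h0
    have h1 : φ (Γ.nxt h) = 0 := abs_eq_zero.1 h0
    have h2 := NB_leaf hφ (NB_nl hl) h1
    show 0 ≤ δ (Γ.opp (Γ.nxt h))
    rw [g1 _ h2]
    positivity
  · intro h0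
    have h1 : φ h = 0 := abs_eq_zero.1 h0
    have h2 := NB_leaf hφ hl h1
    show 0 ≤ δ h
    have h3 : h ≠ t := by
      intro he
      rw [ht] at he
      have h5 := congrArg Γ.opp he
      rw [Γ.opp_opp] at h5
      exact PathR_opp_ne hφ hl (Or.inr h1) h5.symm
    have h4 : h ≠ Γ.opp t := by
      rw [hto]
      exact fun he => hl he.symm
    rw [← g4 h h3 h4, g1 _ h2]
    positivity

theorem PathR_step {P : Place K} (hI : St_IntC) (hφ : IsFlow Γ φ) {a : ℕ} (ha : 1 ≤ a) {q t : H}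
    (s : Step Γ q t) (δ : GSt Γ φ col q) :
    PathR_RV P (s.gop Γ φ col (scl φ (P.A a) P.T P.ω) (Finsupp.single δ 1))
      (s.gop Γ φ col (rsd φ) (Finsupp.single δ 1)) := by
  cases s with
  | turn h q hl hq =>
    rw [NB_turn, NB_turn]
    exact PathR_add (PathR_pt (PathR_turn hI hφ ha hl δ _ (Or.inl rfl)))
      (PathR_pt (PathR_turn hI hφ ha hl δ _ (Or.inr rfl)))
  | cross h q b hq =>
    rw [NB_cross, NB_cross]
    refine PathR_pt ?_
    cases b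
    · exact ((hI K P a ha).2 _ _ _).2
    · exact ((hI K P a ha).2 _ _ _).1

theorem PathR_step' {P : Place K} (hI : St_IntC) (hφ : IsFlow Γ φ) {a : ℕ} (ha : 1 ≤ a) {q t : H}
    (s : Step Γ q t) (δ : GSt Γ φ col t) :
    PathR_RV P (s.gop' Γ φ col (scl φ (P.A a) P.T P.ω) (Finsupp.single δ 1))
      (s.gop' Γ φ col (rsd φ) (Finsupp.single δ 1)) := by
  cases s with
  | turn h q hl hq =>
    rw [NB_turn', NB_turn']
    exact PathR_add (PathR_pt (PathR_turn' hI hφ ha hl hq δ _ (Or.inl rfl)))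
      (PathR_pt (PathR_turn' hI hφ ha hl hq δ _ (Or.inr rfl)))
  | cross h q b hq =>
    rw [NB_cross', NB_cross']
    refine PathR_pt ?_
    cases b
    · exact ((hI K P a ha).2 _ _ _).1
    · exact ((hI K P a ha).2 _ _ _).2

theorem PathR_path {P : Place K} (hI : St_IntC) (hφ : IsFlow Γ φ) {a : ℕ} (ha : 1 ≤ a) {p q : H}
    (w : Path Γ p q) (δ : GSt Γ φ col p) :
    PathR_RV P (w.gop φ col (scl φ (P.A a) P.T P.ω) (Finsupp.single δ 1))
      (w.gop φ col (rsd φ) (Finsupp.single δ 1)) := by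
  induction w with
  | nil => exact PathR_single NB_one δ
  | fwd w s ih =>
    exact PathR_lin _ _ (PathR_step hI hφ ha s) _ _ ih
  | bwd w s ih =>
    exact PathR_lin _ _ (PathR_step' hI hφ ha s) _ _ ih

end part1

section part2

variable {H : Type} {Γ : Fat H} {φ : H → ℤ} {col : H → ℕ}

open Classical in
/-- the change of the slack -/
theorem PathR_slack [Fintype H] (hφ : IsFlow Γ φ) {h : H} (hl : Γ.nxt h ≠ h) (δ δ' : H → ℤ)
    (hoff : ∀ k, k ≠ h → k ≠ Γ.nxt h → δ' k = δ k) :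
    slack Γ φ δ' = slack Γ φ δ +
      if φ h = 0 ∨ φ (Γ.nxt h) = 0 ∨ φ (Γ.nxt (Γ.nxt h)) = 0 then 0
      else if |φ h| = |φ (Γ.nxt h)| + |φ (Γ.nxt (Γ.nxt h))| then
        (δ' (Γ.nxt h) - δ (Γ.nxt h)) - (δ' h - δ h)
      else if |φ (Γ.nxt h)| = |φ h| + |φ (Γ.nxt (Γ.nxt h))| then
        (δ' h - δ h) - (δ' (Γ.nxt h) - δ (Γ.nxt h))
      else (δ' h - δ h) + (δ' (Γ.nxt h) - δ (Γ.nxt h)) := by
  have hl2 := NB_nl hl
  have hl3 := NB_nl2 hl
  have h3 := Γ.nxt3 h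
  have h4 : δ' (Γ.nxt (Γ.nxt h)) = δ (Γ.nxt (Γ.nxt h)) := hoff _ hl3 hl2
  rw [← sub_eq_iff_eq_add']
  unfold slack
  rw [← Finset.sum_sub_distrib]
  rw [← Finset.sum_subset (Finset.subset_univ ({h, Γ.nxt h, Γ.nxt (Γ.nxt h)} : Finset H))]
  · rw [Finset.sum_insert (by
        rw [Finset.mem_insert, Finset.mem_singleton, not_or]
        exact ⟨hl.symm, hl3.symm⟩),
      Finset.sum_insert (by
        rw [Finset.mem_singleton]
        exact hl2.symm), Finset.sum_singleton]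
    rw [h3, h4]
    have hw := NB_wall hφ hl
    by_cases c1 : φ h = 0
    · simp [c1]
    by_cases c2 : φ (Γ.nxt h) = 0
    · simp [c2]
    by_cases c3 : φ (Γ.nxt (Γ.nxt h)) = 0
    · simp [c3]
    have p1 := abs_pos.2 c1
    have p2 := abs_pos.2 c2
    have p3 := abs_pos.2 c3
    simp only [c1, c2, c3, hl, hl2, hl3.symm, ne_eq, not_false_eq_true, true_and, false_or, if_false]
    rcases hw with hw | hw | hw
    · have n1 : ¬ |φ (Γ.nxt h)| = |φ (Γ.nxt (Γ.nxt h))| + |φ h| := by omega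
      have n2 : ¬ |φ (Γ.nxt (Γ.nxt h))| = |φ h| + |φ (Γ.nxt h)| := by omega
      rw [if_pos hw, if_neg n1, if_neg n2]
      simp only [if_pos hw, if_neg n1, if_neg n2]
      ring
    · have n1 : ¬ |φ h| = |φ (Γ.nxt h)| + |φ (Γ.nxt (Γ.nxt h))| := by omega
      have n2 : ¬ |φ (Γ.nxt (Γ.nxt h))| = |φ h| + |φ (Γ.nxt h)| := by omega
      have n3 : |φ (Γ.nxt h)| = |φ (Γ.nxt (Γ.nxt h))| + |φ h| := by omega
      simp only [if_neg n1, if_neg n2, if_pos n3, if_pos hw]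
      ring
    · have n1 : ¬ |φ h| = |φ (Γ.nxt h)| + |φ (Γ.nxt (Γ.nxt h))| := by omega
      have n2 : ¬ |φ (Γ.nxt h)| = |φ h| + |φ (Γ.nxt (Γ.nxt h))| := by omega
      have n3 : ¬ |φ (Γ.nxt h)| = |φ (Γ.nxt (Γ.nxt h))| + |φ h| := by omega
      simp only [if_neg n1, if_neg n2, if_neg n3, if_pos hw]
      ring
  · intro k _ hk
    rw [Finset.mem_insert, Finset.mem_insert, Finset.mem_singleton, not_or, not_or] at hk
    obtain ⟨k1, k2, k3⟩ := hk
    have e1 : δ' k = δ k := hoff k k1 k2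
    have e2 : δ' (Γ.nxt k) = δ (Γ.nxt k) := by
      refine hoff _ (fun he => k3 ?_) (fun he => k1 ?_)
      · rw [← he, Γ.nxt3]
      · have := congrArg (fun x => Γ.nxt (Γ.nxt x)) he
        simp only [Γ.nxt3] at this
        exact this
    have e3 : δ' (Γ.nxt (Γ.nxt k)) = δ (Γ.nxt (Γ.nxt k)) := by
      refine hoff _ (fun he => k2 ?_) (fun he => k3 ?_)
      · rw [← he, Γ.nxt3]
      · have := congrArg (fun x => Γ.nxt x) he
        simp only [Γ.nxt3] at this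
        rw [this]
    rw [e1, e2, e3, sub_self]

variable {K : Type} [Field K]

theorem PathR_dil_single [Fintype H] (p : H) (ω : K) (δ : GSt Γ φ col p) (a : K) :
    dil Γ φ col p ω (Finsupp.single δ a) = Finsupp.single δ (a * ω ^ slack Γ φ δ.1) := by
  unfold dil
  rw [Finsupp.linearCombination_single, Finsupp.smul_single, smul_eq_mul]

theorem PathR_dil_pt [Fintype H] (p : H) (ω : K) (δ : H → ℤ) (a : K) :
    dil Γ φ col p ω (pt Γ φ col p δ a) = pt Γ φ col p δ (a * ω ^ slack Γ φ δ) := by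
  by_cases hδ : IsG Γ φ col p δ
  · rw [NB_pt_pos φ col hδ, NB_pt_pos φ col hδ, PathR_dil_single]
  · rw [NB_pt_neg φ col hδ, NB_pt_neg φ col hδ, map_zero]

theorem PathR_smul_pt (p : H) (c : K) (δ : H → ℤ) (a : K) :
    c • pt Γ φ col p δ a = pt Γ φ col p δ (c * a) := by
  by_cases hδ : IsG Γ φ col p δ
  · rw [NB_pt_pos φ col hδ, NB_pt_pos φ col hδ, Finsupp.smul_single, smul_eq_mul]
  · rw [NB_pt_neg φ col hδ, NB_pt_neg φ col hδ, smul_zero]

theorem PathR_upT [Fintype H] (hφ : IsFlow Γ φ) {h : H} (hl : Γ.nxt h ≠ h) (δ : H → ℤ) (s : ℤ) :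
    slack Γ φ (upT Γ h s δ) = slack Γ φ δ +
      dsl |φ h| |φ (Γ.nxt h)| |φ (Γ.nxt (Γ.nxt h))| (δ h - δ (Γ.opp h)) s := by
  rw [PathR_slack hφ hl δ (upT Γ h s δ) (by
    intro k h1 h2
    unfold upT
    rw [if_neg h2, if_neg h1])]
  have e1 : upT Γ h s δ (Γ.nxt h) = δ (Γ.nxt h) + s := by
    unfold upT
    rw [if_pos rfl]
  have e2 : upT Γ h s δ h = δ (Γ.opp h) := by
    unfold upT
    rw [if_neg hl.symm, if_pos rfl]
  rw [e1, e2]
  unfold dsl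
  simp only [abs_eq_zero]
  congr 1
  split_ifs <;> ring

theorem PathR_dnT [Fintype H] (hφ : IsFlow Γ φ) {h : H} (hl : Γ.nxt h ≠ h) (δ : H → ℤ) (s : ℤ) :
    slack Γ φ (dnT Γ h s δ) = slack Γ φ δ +
      dsl |φ (Γ.nxt h)| |φ h| |φ (Γ.nxt (Γ.nxt h))| (δ (Γ.nxt h) - δ (Γ.opp (Γ.nxt h))) s := by
  rw [PathR_slack hφ hl δ (dnT Γ h s δ) (by
    intro k h1 h2
    unfold dnT
    rw [if_neg h1, if_neg h2])]
  have e1 : dnT Γ h s δ (Γ.nxt h) = δ (Γ.opp (Γ.nxt h)) := by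
    unfold dnT
    rw [if_neg hl, if_pos rfl]
  have e2 : dnT Γ h s δ h = δ h + s := by
    unfold dnT
    rw [if_pos rfl]
  rw [e1, e2]
  unfold dsl
  congr 1
  by_cases c1 : φ h = 0
  · simp [c1]
  by_cases c2 : φ (Γ.nxt h) = 0
  · simp [c2]
  by_cases c3 : φ (Γ.nxt (Γ.nxt h)) = 0
  · simp [c3]
  have p1 := abs_pos.2 c1
  have p2 := abs_pos.2 c2
  have p3 := abs_pos.2 c3
  have c0 : ¬ (φ h = 0 ∨ φ (Γ.nxt h) = 0 ∨ φ (Γ.nxt (Γ.nxt h)) = 0) := by tauto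
  have c0' : ¬ (|φ (Γ.nxt h)| = 0 ∨ |φ h| = 0 ∨ |φ (Γ.nxt (Γ.nxt h))| = 0) := by
    rw [not_or, not_or]
    exact ⟨p2.ne', p1.ne', p3.ne'⟩
  rw [if_neg c0, if_neg c0']
  rcases NB_wall hφ hl with hw | hw | hw
  · have n1 : ¬ |φ (Γ.nxt h)| = |φ h| + |φ (Γ.nxt (Γ.nxt h))| := by omega
    rw [if_pos hw, if_neg n1, if_pos hw]
    ring
  · have n1 : ¬ |φ h| = |φ (Γ.nxt h)| + |φ (Γ.nxt (Γ.nxt h))| := by omega
    rw [if_neg n1, if_pos hw, if_pos hw]
    ring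
  · have n1 : ¬ |φ h| = |φ (Γ.nxt h)| + |φ (Γ.nxt (Γ.nxt h))| := by omega
    have n2 : ¬ |φ (Γ.nxt h)| = |φ h| + |φ (Γ.nxt (Γ.nxt h))| := by omega
    rw [if_neg n1, if_neg n2, if_neg n2, if_neg n1]
    ring

theorem PathR_dstep [Fintype H] (hφ : IsFlow Γ φ) {A τ ω : K} (hω : ω ≠ 0) {q t : H}
    (s : Step Γ q t) :
    (s.gop Γ φ col (scl φ A τ ω)).comp (dil Γ φ col q ω) =
      (dil Γ φ col t ω).comp (s.gop Γ φ col (gen φ A τ)) := by
  refine Finsupp.lhom_ext' fun δ => LinearMap.ext_ring ?_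
  show s.gop Γ φ col (scl φ A τ ω) (dil Γ φ col q ω (Finsupp.single δ 1)) =
    dil Γ φ col t ω (s.gop Γ φ col (gen φ A τ) (Finsupp.single δ 1))
  have h0 : (Finsupp.single δ (1 * ω ^ slack Γ φ δ.1) : GSt Γ φ col q →₀ K) =
      ω ^ slack Γ φ δ.1 • Finsupp.single δ 1 := by
    rw [Finsupp.smul_single, smul_eq_mul, mul_comm]
  rw [PathR_dil_single, h0, map_smul]
  cases s with
  | turn h q hl hq =>
    rw [NB_turn, NB_turn, map_add, smul_add, PathR_dil_pt, PathR_dil_pt, PathR_smul_pt,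
      PathR_smul_pt, PathR_upT hφ hl, PathR_upT hφ hl]
    have e1 : ∀ (m n : ℤ) (g : K), ω ^ m * (ω ^ n * g) = g * ω ^ (m + n) := by
      intro m n g
      rw [zpow_add₀ hω]
      ring
    simp only [scl, gen, add_sub_cancel_left, sub_sub_cancel_left]
    rw [e1, e1]
  | cross h q b hq =>
    rw [NB_cross, NB_cross, PathR_dil_pt, PathR_smul_pt, mul_comm]
    rfl

theorem PathR_dstep' [Fintype H] (hφ : IsFlow Γ φ) {A τ ω : K} (hω : ω ≠ 0) {q t : H}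
    (s : Step Γ q t) :
    (s.gop' Γ φ col (scl φ A τ ω)).comp (dil Γ φ col t ω) =
      (dil Γ φ col q ω).comp (s.gop' Γ φ col (gen φ A τ)) := by
  refine Finsupp.lhom_ext' fun δ => LinearMap.ext_ring ?_
  show s.gop' Γ φ col (scl φ A τ ω) (dil Γ φ col t ω (Finsupp.single δ 1)) =
    dil Γ φ col q ω (s.gop' Γ φ col (gen φ A τ) (Finsupp.single δ 1))
  have h0 : (Finsupp.single δ (1 * ω ^ slack Γ φ δ.1) : GSt Γ φ col t →₀ K) =
      ω ^ slack Γ φ δ.1 • Finsupp.single δ 1 := by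
    rw [Finsupp.smul_single, smul_eq_mul, mul_comm]
  rw [PathR_dil_single, h0, map_smul]
  cases s with
  | turn h q hl hq =>
    rw [NB_turn', NB_turn', map_add, smul_add, PathR_dil_pt, PathR_dil_pt, PathR_smul_pt,
      PathR_smul_pt, PathR_dnT hφ hl, PathR_dnT hφ hl]
    have e1 : ∀ (m n : ℤ) (g : K), ω ^ m * (ω ^ n * g) = g * ω ^ (m + n) := by
      intro m n g
      rw [zpow_add₀ hω]
      ring
    simp only [scl, gen, add_sub_cancel_left, sub_sub_cancel_left]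
    rw [e1, e1]
  | cross h q b hq =>
    rw [NB_cross', NB_cross', PathR_dil_pt, PathR_smul_pt, mul_comm]
    rfl

theorem PathR_dpath [Fintype H] (hφ : IsFlow Γ φ) {A τ ω : K} (hω : ω ≠ 0) {p q : H}
    (w : Path Γ p q) :
    (w.gop φ col (scl φ A τ ω)).comp (dil Γ φ col p ω) =
      (dil Γ φ col q ω).comp (w.gop φ col (gen φ A τ)) := by
  induction w with
  | nil => rfl
  | fwd w s ih =>
    simp only [Path.gop]
    rw [LinearMap.comp_assoc, ih, ← LinearMap.comp_assoc, PathR_dstep hφ hω s,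
      LinearMap.comp_assoc]
  | bwd w s ih =>
    simp only [Path.gop]
    rw [LinearMap.comp_assoc, ih, ← LinearMap.comp_assoc, PathR_dstep' hφ hω s,
      LinearMap.comp_assoc]

end part2

/-- **(PTR)** -/
theorem thm_PathR (hI : St_IntC) : St_PathR := by
  intro H _ Γ φ hφ col p q w
  exact ⟨fun K _ P a ha δ δ' => PathR_path hI hφ ha w δ δ',
    fun K _ A τ ω hω => PathR_dpath hφ hω w⟩

end Pool.Agent.AMS
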