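import Pool.Agent.AMS.NB

/-!
# AMS, module Plc: existence of the place
-/

set_option autoImplicit false

namespace Pool.Agent.AMS

/-- power series as integral elements of the field of fractions -/
private noncomputable def Plc_e : PowerSeries ℚ ≃+*
    (algebraMap (PowerSeries ℚ) (FractionRing (PowerSeries ℚ))).range :=
  RingEquiv.ofBijective (algebraMap (PowerSeries ℚ) (FractionRing (PowerSeries ℚ))).rangeRestrict
    ⟨fun a b h => IsFractionRing.injective (PowerSeries ℚ) (FractionRing (PowerSeries ℚ))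
      (congrArg Subtype.val h), RingHom.rangeRestrict_surjective _⟩

private theorem Plc_coe (p : PowerSeries ℚ) : ((Plc_e p : _) : FractionRing (PowerSeries ℚ)) =
    algebraMap (PowerSeries ℚ) (FractionRing (PowerSeries ℚ)) p := rfl

/-- **Plc** -/
theorem thm_Plc : St_Place := by
  have hinj := IsFractionRing.injective (PowerSeries ℚ) (FractionRing (PowerSeries ℚ))
  refine ⟨FractionRing (PowerSeries ℚ), inferInstance, ⟨⟨(algebraMap (PowerSeries ℚ)
    (FractionRing (PowerSeries ℚ))).range, (PowerSeries.constantCoeff (R := ℚ)).comp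
      (Plc_e.symm : _ →+* PowerSeries ℚ), algebraMap (PowerSeries ℚ)
    (FractionRing (PowerSeries ℚ)) PowerSeries.X, ?_, ⟨_, rfl⟩, ?_, ?_, ?_⟩⟩⟩
  · intro h
    rw [← map_zero (algebraMap (PowerSeries ℚ) (FractionRing (PowerSeries ℚ)))] at h
    exact PowerSeries.X_ne_zero (hinj h)
  · intro x
    obtain ⟨p, rfl⟩ := Plc_e.surjective x
    have h1 : ((PowerSeries.constantCoeff (R := ℚ)).comp (Plc_e.symm : _ →+* PowerSeries ℚ)) (Plc_e p) =
        PowerSeries.constantCoeff (R := ℚ) p := by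
      show PowerSeries.constantCoeff (R := ℚ) (Plc_e.symm (Plc_e p)) = _
      rw [RingEquiv.symm_apply_apply]
    rw [h1, ← PowerSeries.X_dvd_iff]
    constructor
    · rintro ⟨q, hq⟩
      refine ⟨Plc_e q, ?_⟩
      rw [Plc_coe, Plc_coe, hq, map_mul]
    · rintro ⟨y, hy⟩
      obtain ⟨q, rfl⟩ := Plc_e.surjective y
      rw [Plc_coe, Plc_coe, ← map_mul] at hy
      exact ⟨q, hinj hy⟩
  · intro x hx
    obtain ⟨p, rfl⟩ := Plc_e.surjective x
    have h1 : ((PowerSeries.constantCoeff (R := ℚ)).comp (Plc_e.symm : _ →+* PowerSeries ℚ)) (Plc_e p) =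
        PowerSeries.constantCoeff (R := ℚ) p := by
      show PowerSeries.constantCoeff (R := ℚ) (Plc_e.symm (Plc_e p)) = _
      rw [RingEquiv.symm_apply_apply]
    rw [h1] at hx
    refine ⟨p⁻¹, ?_⟩
    have h2 := PowerSeries.mul_inv_cancel p hx
    rw [Plc_coe]
    exact eq_inv_of_mul_eq_one_right (by rw [← map_mul, h2, map_one])
  · intro x hx
    obtain ⟨a, b, hb, rfl⟩ := IsFractionRing.div_surjective (A := PowerSeries ℚ) x
    have hb0 : b ≠ 0 := nonZeroDivisors.ne_zero hb
    have hb1 : algebraMap (PowerSeries ℚ) (FractionRing (PowerSeries ℚ)) b ≠ 0 := by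
      intro h
      rw [← map_zero (algebraMap (PowerSeries ℚ) (FractionRing (PowerSeries ℚ)))] at h
      exact hb0 (hinj h)
    have h1 : a = 0 := by
      ext n
      obtain ⟨y, ⟨c, rfl⟩, hy⟩ := hx (n + 1)
      rw [div_eq_iff hb1, ← map_pow, ← map_mul, ← map_mul] at hy
      have h2 := hinj hy
      have h3 : (PowerSeries.X : PowerSeries ℚ) ^ (n + 1) ∣ a := ⟨c * b, by rw [h2, mul_assoc]⟩
      rw [PowerSeries.X_pow_dvd_iff] at h3
      rw [h3 n (Nat.lt_succ_self n), map_zero]
    rw [h1, map_zero, zero_div]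

end Pool.Agent.AMS
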