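import Pool.Agent.AMS.NB

/-!
# Polynomials in a closed path as formal combinations of paths
-/

set_option autoImplicit false

namespace Pool.Agent.AMS

section

variable {H : Type} {Γ : Fat H} {K : Type} [Field K]

private theorem Pol_mat1 [Finite H] (hA : St_App) {p : H} (r : ℕ) (col : H → ℕ) (A : K)
    (w : Path Γ p p) (F : FC Γ p p) :
    FC.mat (F.map fun x => (x.1, x.2.1, x.2.2.append w)) r col A =
      w.mat Γ r col A * FC.mat F r col A := by
  induction F with
  | nil => simp [FC.mat]
  | cons x F ih =>
    simp only [FC.mat, List.map_cons, List.sum_cons] at ih ⊢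
    rw [ih, hA.1 K H Γ r col A p p p x.2.2 w, Matrix.mul_add, Matrix.mul_smul]

private theorem Pol_mat2 [Finite H] {p : H} (r : ℕ) (col : H → ℕ) (A : K) (hA0 : A ≠ 0)
    (j : ℤ) (F : FC Γ p p) :
    FC.mat (F.map fun x => (-x.1, x.2.1 + j, x.2.2)) r col A =
      (-(A ^ j)) • FC.mat F r col A := by
  induction F with
  | nil => simp [FC.mat]
  | cons x F ih =>
    simp only [FC.mat, List.map_cons, List.sum_cons] at ih ⊢
    rw [ih, smul_add, smul_smul]
    congr 2
    rw [zpow_add₀ hA0]
    push_cast
    ring

private theorem Pol_gop1 {p : H} (φ : H → ℤ) (col : H → ℕ) (C : Cf H K) (A : K)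
    (w : Path Γ p p) (F : FC Γ p p) :
    FC.gop (F.map fun x => (x.1, x.2.1, x.2.2.append w)) φ col C A =
      (w.gop φ col C).comp (FC.gop F φ col C A) := by
  induction F with
  | nil => simp [FC.gop]
  | cons x F ih =>
    simp only [FC.gop, List.map_cons, List.sum_cons] at ih ⊢
    rw [ih, NB_append, LinearMap.comp_add, LinearMap.comp_smul]

private theorem Pol_gop2 {p : H} (φ : H → ℤ) (col : H → ℕ) (C : Cf H K) (A : K) (hA0 : A ≠ 0)
    (j : ℤ) (F : FC Γ p p) :
    FC.gop (F.map fun x => (-x.1, x.2.1 + j, x.2.2)) φ col C A =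
      (-(A ^ j)) • FC.gop F φ col C A := by
  induction F with
  | nil => simp [FC.gop]
  | cons x F ih =>
    simp only [FC.gop, List.map_cons, List.sum_cons] at ih ⊢
    rw [ih, smul_add, smul_smul]
    congr 2
    rw [zpow_add₀ hA0]
    push_cast
    ring

end

theorem thm_Pol (hA : St_App) : St_Pol := by
  intro H _ Γ φ col p w S
  classical
  induction S using Finset.induction_on with
  | empty =>
    refine ⟨[(1, 0, .nil)], ?_, ?_⟩
    · intro x hx
      rw [List.mem_singleton] at hx
      subst hx
      exact Nat.zero_le _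
    · intro K _ A hA0
      refine ⟨fun r => ?_, fun C => ?_⟩
      · simp [FC.mat, prodA, Path.mat]
      · simp only [FC.gop, prodA, Path.gop, List.map_cons, List.map_nil, List.sum_cons,
          List.sum_nil, Finset.prod_empty, map_one, Int.cast_one, zpow_zero, mul_one, one_smul,
          add_zero]
        rfl
  | insert j S hj ih =>
    obtain ⟨F, hs, hF⟩ := ih
    refine ⟨(F.map fun x => (x.1, x.2.1, x.2.2.append w)) ++
      F.map fun x => (-x.1, x.2.1 + j, x.2.2), ?_, ?_⟩
    · intro x hx
      rw [Finset.card_insert_of_notMem hj]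
      rcases List.mem_append.1 hx with hx | hx
      · obtain ⟨y, hy, rfl⟩ := List.mem_map.1 hx
        have := hs y hy
        simp only [NB_size_append]
        nlinarith
      · obtain ⟨y, hy, rfl⟩ := List.mem_map.1 hx
        have := hs y hy
        simp only
        nlinarith
    · intro K _ A hA0
      obtain ⟨h1, h2⟩ := hF K A hA0
      have hp : prodA (insert j S) A = (Polynomial.X - Polynomial.C (A ^ j)) * prodA S A :=
        Finset.prod_insert hj
      refine ⟨fun r => ?_, fun C => ?_⟩
      · have h3 : FC.mat ((F.map fun x => (x.1, x.2.1, x.2.2.append w)) ++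
            F.map fun x => (-x.1, x.2.1 + j, x.2.2)) r col A =
            FC.mat (F.map fun x => (x.1, x.2.1, x.2.2.append w)) r col A +
              FC.mat (F.map fun x => (-x.1, x.2.1 + j, x.2.2)) r col A := by
          simp only [FC.mat, List.map_append, List.sum_append]
        rw [h3, Pol_mat1 hA, Pol_mat2 r col A hA0, h1 r, hp, map_mul, map_sub, Polynomial.aeval_X,
          Polynomial.aeval_C, sub_mul, Algebra.algebraMap_eq_smul_one, smul_mul_assoc, one_mul,
          sub_eq_add_neg, neg_smul]
      · have h3 : FC.gop ((F.map fun x => (x.1, x.2.1, x.2.2.append w)) ++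
            F.map fun x => (-x.1, x.2.1 + j, x.2.2)) φ col C A =
            FC.gop (F.map fun x => (x.1, x.2.1, x.2.2.append w)) φ col C A +
              FC.gop (F.map fun x => (-x.1, x.2.1 + j, x.2.2)) φ col C A := by
          simp only [FC.gop, List.map_append, List.sum_append]
        have h4 := h2 C
        rw [h3, Pol_gop1, Pol_gop2 φ col C A hA0, h4, hp, map_mul, map_sub, Polynomial.aeval_X,
          Polynomial.aeval_C]
        refine LinearMap.ext fun v => ?_
        rw [LinearMap.add_apply, LinearMap.comp_apply, LinearMap.smul_apply,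
          Module.End.mul_apply, LinearMap.sub_apply, Module.algebraMap_end_apply, neg_smul,
          sub_eq_add_neg]

end Pool.Agent.AMS
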