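import Pool.Agent.AMS.St

/-!
# Every path from a leaf is homotopic to a reduced path
-/

namespace Pool.Agent.AMS

section

variable {H : Type} {Γ : Fat H} {l : H}

/-- The path with one more half twist, positive (`b = true`) or negative. -/
def RednMv {a : H} (b : Bool) : (σ : Bool) → Path Γ l (pos Γ a σ) → Path Γ l (pos Γ a (!σ))
  | false, w => w.fwd (.cross a _ b rfl)
  | true, w => w.bwd (.cross a _ (!b) rfl)

/-- `w` is homotopic to a reduced path with at most `n` turns. -/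
def RednRd (n : ℕ) {q : H} (w : Path Γ l q) : Prop :=
  ∃ (a : H) (σ : Bool) (k : ℤ) (ρ : Red Γ l a σ k) (e : pos Γ a σ = q),
    ρ.len ≤ n ∧ Hom Γ w (e ▸ ρ.path)

theorem RednRd_of {a : H} {σ : Bool} {k : ℤ} {n : ℕ} (ρ : Red Γ l a σ k)
    {w : Path Γ l (pos Γ a σ)} (hn : ρ.len ≤ n) (h : Hom Γ w ρ.path) : RednRd n w :=
  ⟨a, σ, k, ρ, rfl, hn, h⟩

theorem RednRd_hom {n : ℕ} {q : H} {w v : Path Γ l q} (h : Hom Γ w v) (hv : RednRd n v) :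
    RednRd n w := by
  obtain ⟨a, σ, k, ρ, e, hn, hw⟩ := hv
  exact ⟨a, σ, k, ρ, e, hn, h.trans hw⟩

theorem Redn_path_up {a : H} {σ : Bool} {k : ℤ} (w : Red Γ l a σ k) (hk : 0 ≤ k) :
    (Red.up w hk).path = RednMv true σ w.path := by
  cases σ <;> rfl

theorem Redn_path_dn {a : H} {σ : Bool} {k : ℤ} (w : Red Γ l a σ k) (hk : k ≤ 0) :
    (Red.dn w hk).path = RednMv false σ w.path := by
  cases σ <;> rfl

theorem Redn_len_up {a : H} {σ : Bool} {k : ℤ} (w : Red Γ l a σ k) (hk : 0 ≤ k) :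
    (Red.up w hk).len = w.len := rfl

theorem Redn_len_dn {a : H} {σ : Bool} {k : ℤ} (w : Red Γ l a σ k) (hk : k ≤ 0) :
    (Red.dn w hk).len = w.len := rfl

theorem Redn_mv_hom {a : H} (b σ : Bool) {w v : Path Γ l (pos Γ a σ)} (h : Hom Γ w v) :
    Hom Γ (RednMv b σ w) (RednMv b σ v) := by
  cases σ
  · exact Hom.fwd _ h
  · exact Hom.bwd _ h

/-- A half twist applied to a reduced path. -/
theorem Redn_mv {a : H} {σ : Bool} {k : ℤ} (ρ : Red Γ l a σ k) (b : Bool) :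
    RednRd ρ.len (RednMv b σ ρ.path) := by
  cases b
  · by_cases hk : k ≤ 0
    · refine RednRd_of (Red.dn ρ hk) le_rfl ?_
      rw [Redn_path_dn]
      exact Hom.refl _
    · cases ρ with
      | base => exact absurd le_rfl hk
      | up w hk' =>
        rename_i σ k
        rw [Redn_path_up, Redn_len_up]
        cases σ
        · exact RednRd_of w le_rfl (Hom.fwd_bwd _ _)
        · exact RednRd_of w le_rfl (Hom.bwd_fwd _ _)
      | dn w hk' => exact absurd (by omega) hk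
      | ccw w hl hb => exact absurd le_rfl hk
      | cw w hq hl hb => exact absurd le_rfl hk
  · by_cases hk : 0 ≤ k
    · refine RednRd_of (Red.up ρ hk) le_rfl ?_
      rw [Redn_path_up]
      exact Hom.refl _
    · cases ρ with
      | base => exact absurd le_rfl hk
      | up w hk' => exact absurd (by omega) hk
      | dn w hk' =>
        rename_i σ k
        rw [Redn_path_dn, Redn_len_dn]
        cases σ
        · exact RednRd_of w le_rfl (Hom.fwd_bwd _ _)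
        · exact RednRd_of w le_rfl (Hom.bwd_fwd _ _)
      | ccw w hl hb => exact absurd le_rfl hk
      | cw w hq hl hb => exact absurd le_rfl hk

/-- Crossing forward in one direction is crossing backward in the other. -/
theorem Redn_fb {q h : H} (w : Path Γ l q) (b : Bool) (hq : q = Γ.opp h) (hh : h = Γ.opp q) :
    Hom Γ (w.fwd (.cross h q b hq)) (w.bwd (.cross q h b hh)) :=
  (Hom.fwd_bwd (w.fwd (.cross h q b hq)) (.cross q h b hh)).symm.trans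
    (Hom.bwd _ (Hom.opp w b hq hh))

theorem Redn_opp_inj {a b : H} (h : Γ.opp a = Γ.opp b) : a = b := by
  have h1 := congrArg Γ.opp h
  rwa [Γ.opp_opp, Γ.opp_opp] at h1

theorem Redn_nxt_inj {a b : H} (h : Γ.nxt a = Γ.nxt b) : a = b := by
  have h1 := congrArg (fun x => Γ.nxt (Γ.nxt x)) h
  simp only [Γ.nxt3] at h1
  exact h1

theorem Redn_cross_fwd {n : ℕ} {q h : H} {w : Path Γ l q} (b : Bool) (hq : q = Γ.opp h)
    (hw : RednRd n w) : RednRd n (w.fwd (.cross h q b hq)) := by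
  obtain ⟨a, σ, k, ρ, rfl, hn, hw⟩ := hw
  have key : ∀ b', RednRd n (RednMv b' σ ρ.path) := by
    intro b'
    obtain ⟨a', σ', k', ρ', e', hn', hw'⟩ := Redn_mv ρ b'
    exact ⟨a', σ', k', ρ', e', hn'.trans hn, hw'⟩
  cases σ
  · obtain rfl : a = h := Redn_opp_inj hq
    exact RednRd_hom (Hom.fwd _ hw) (key b)
  · obtain rfl : h = Γ.opp a := by
      have h1 : a = Γ.opp h := hq
      rw [h1, Γ.opp_opp]
    refine RednRd_hom ((Redn_fb w b hq rfl).trans (Hom.bwd _ hw)) ?_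
    have h2 := key (!b)
    cases b
    · exact h2
    · exact h2

theorem Redn_cross_bwd {n : ℕ} {q h : H} {w : Path Γ l h} (b : Bool) (hq : q = Γ.opp h)
    (hw : RednRd n w) : RednRd n (w.bwd (.cross h q b hq)) := by
  have hh : h = Γ.opp q := by rw [hq, Γ.opp_opp]
  exact RednRd_hom (Redn_fb w b hh hq).symm (Redn_cross_fwd b hh hw)

/-- Three turns with two crossings between them. -/
theorem Redn_vert_fwd {a₁ : H} (w : Path Γ l a₁) (b : Bool) {p q : H}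
    (l₁ : Γ.nxt a₁ ≠ a₁) (hp : p = Γ.opp (Γ.nxt a₁)) (l₂ : Γ.nxt (Γ.nxt a₁) ≠ Γ.nxt a₁)
    (hq : q = Γ.opp (Γ.nxt (Γ.nxt a₁))) (l₃ : Γ.nxt (Γ.nxt (Γ.nxt a₁)) ≠ Γ.nxt (Γ.nxt a₁))
    (h₃ : Γ.opp a₁ = Γ.opp (Γ.nxt (Γ.nxt (Γ.nxt a₁)))) :
    Hom Γ (((w.fwd (.turn a₁ p l₁ hp)).fwd (.cross (Γ.nxt a₁) p b hp)).fwd
        (.turn (Γ.nxt a₁) q l₂ hq))
      (((w.bwd (.cross a₁ (Γ.opp a₁) b rfl)).bwd
        (.turn (Γ.nxt (Γ.nxt a₁)) (Γ.opp a₁) l₃ h₃)).bwd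
          (.cross (Γ.nxt (Γ.nxt a₁)) q b hq)) := by
  have h1 := Hom.vertex (w.bwd (.cross a₁ (Γ.opp a₁) b rfl)) b rfl l₁ hp hp l₂ hq hq l₃ h₃
  have h2 := Hom.fwd (.turn (Γ.nxt a₁) q l₂ hq) (Hom.fwd (.cross (Γ.nxt a₁) p b hp)
    (Hom.fwd (.turn a₁ p l₁ hp) (Hom.bwd_fwd w (.cross a₁ (Γ.opp a₁) b rfl))))
  have h3 := Hom.bwd (.cross (Γ.nxt (Γ.nxt a₁)) q b hq)
    (Hom.bwd (.turn (Γ.nxt (Γ.nxt a₁)) (Γ.opp a₁) l₃ h₃) h1)
  refine h2.symm.trans (Hom.trans ?_ h3)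
  refine ((Hom.bwd (.cross (Γ.nxt (Γ.nxt a₁)) q b hq) (Hom.fwd_bwd _ _)).trans
    (Hom.fwd_bwd _ _)).symm

theorem Redn_vert_bwd {c q : H} (w : Path Γ l q) (b : Bool) (hq : q = Γ.opp c)
    (l₁ : Γ.nxt c ≠ c) (l₂ : Γ.nxt (Γ.nxt c) ≠ Γ.nxt c)
    (l₃ : Γ.nxt (Γ.nxt (Γ.nxt c)) ≠ Γ.nxt (Γ.nxt c))
    (h₃ : q = Γ.opp (Γ.nxt (Γ.nxt (Γ.nxt c)))) :
    Hom Γ (((w.bwd (.turn (Γ.nxt (Γ.nxt c)) q l₃ h₃)).bwd
        (.cross (Γ.nxt (Γ.nxt c)) (Γ.opp (Γ.nxt (Γ.nxt c))) b rfl)).bwd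
        (.turn (Γ.nxt c) (Γ.opp (Γ.nxt (Γ.nxt c))) l₂ rfl))
      (((w.fwd (.cross c q b hq)).fwd (.turn c (Γ.opp (Γ.nxt c)) l₁ rfl)).fwd
        (.cross (Γ.nxt c) (Γ.opp (Γ.nxt c)) b rfl)) := by
  have h1 := Hom.vertex w b hq l₁ rfl rfl l₂ rfl rfl l₃ h₃
  have h2 := Hom.bwd (.turn (Γ.nxt c) (Γ.opp (Γ.nxt (Γ.nxt c))) l₂ rfl)
    (Hom.bwd (.cross (Γ.nxt (Γ.nxt c)) (Γ.opp (Γ.nxt (Γ.nxt c))) b rfl)
      (Hom.bwd (.turn (Γ.nxt (Γ.nxt c)) q l₃ h₃) h1))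
  refine h2.symm.trans ?_
  refine (Hom.bwd _ (Hom.bwd _ (Hom.fwd_bwd _ _))).trans ?_
  refine (Hom.bwd _ (Hom.fwd_bwd _ _)).trans ?_
  exact Hom.fwd_bwd _ _

theorem Redn_nxt_ne {a : H} (h : Γ.nxt a ≠ a) : Γ.nxt (Γ.nxt a) ≠ Γ.nxt a :=
  fun h1 => h (Redn_nxt_inj h1)

/-- Turns out of a reduced path. -/
theorem Redn_turn (hl : Γ.nxt l = l) (n : ℕ) : ∀ (a : H) (σ : Bool) (k : ℤ) (ρ : Red Γ l a σ k),
    ρ.len ≤ n →
    (∀ (q : H) (l₁ : Γ.nxt (pos Γ a σ) ≠ pos Γ a σ) (hq : q = Γ.opp (Γ.nxt (pos Γ a σ))),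
      ∃ m, RednRd m (ρ.path.fwd (.turn (pos Γ a σ) q l₁ hq))) ∧
    (∀ (h : H) (l₁ : Γ.nxt h ≠ h) (hq : pos Γ a σ = Γ.opp (Γ.nxt h)),
      ∃ m, RednRd m (ρ.path.bwd (.turn h (pos Γ a σ) l₁ hq))) := by
  induction n using Nat.strong_induction_on with
  | _ n ih =>
  intro a σ k ρ hn
  -- the induction hypothesis for general paths
  have ihf : ∀ (m : ℕ) (_ : m < n) (q t : H) (w : Path Γ l q) (_ : RednRd m w)
      (l₁ : Γ.nxt q ≠ q) (hq : t = Γ.opp (Γ.nxt q)), ∃ m, RednRd m (w.fwd (.turn q t l₁ hq)) := by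
    intro m hm q t w hw l₁ hq
    obtain ⟨a, σ, k, ρ, rfl, hn, hw⟩ := hw
    obtain ⟨m', hm'⟩ := (ih m hm a σ k ρ hn).1 t l₁ hq
    exact ⟨m', RednRd_hom (Hom.fwd _ hw) hm'⟩
  have ihb : ∀ (m : ℕ) (_ : m < n) (q h : H) (w : Path Γ l q) (_ : RednRd m w)
      (l₁ : Γ.nxt h ≠ h) (hq : q = Γ.opp (Γ.nxt h)), ∃ m, RednRd m (w.bwd (.turn h q l₁ hq)) := by
    intro m hm q h w hw l₁ hq
    obtain ⟨a, σ, k, ρ, rfl, hn, hw⟩ := hw
    obtain ⟨m', hm'⟩ := (ih m hm a σ k ρ hn).2 h l₁ hq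
    exact ⟨m', RednRd_hom (Hom.bwd _ hw) hm'⟩
  have key1 : ∀ (a : H) (σ : Bool) (k : ℤ) (w : Red Γ l a σ k) (_ : w.len ≤ n) (_ : σ = false)
      (_ : k = 0) (b : Bool) (q : H) (l₁ : Γ.nxt (pos Γ a (!σ)) ≠ pos Γ a (!σ))
      (hq : q = Γ.opp (Γ.nxt (pos Γ a (!σ)))),
      ∃ m, RednRd m ((RednMv b σ w.path).fwd (.turn (pos Γ a (!σ)) q l₁ hq)) := by
    intro a σ k w hw hσ hk b q l₁ hq
    cases w with
    | base => exact absurd hσ (by decide)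
    | up w hk' => exact absurd hk (by omega)
    | dn w hk' => exact absurd hk (by omega)
    | ccw w₁ hl₁ hb₁ =>
      rename_i a₁ σ₁ k₁
      have hw₁ : w₁.len + 1 ≤ n := hw
      have h1 := Redn_cross_bwd (q := Γ.opp (pos Γ a₁ σ₁)) b rfl
        (RednRd_of w₁ le_rfl (Hom.refl w₁.path))
      have h3 : Γ.opp (pos Γ a₁ σ₁) = Γ.opp (Γ.nxt (Γ.nxt (Γ.nxt (pos Γ a₁ σ₁)))) := by
        rw [Γ.nxt3]
      obtain ⟨m, hm⟩ := ihb w₁.len (by omega) _ _ _ h1 (Redn_nxt_ne l₁) h3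
      exact ⟨m, RednRd_hom (Redn_vert_fwd w₁.path b hl₁ rfl l₁ hq (Redn_nxt_ne l₁) h3)
        (Redn_cross_bwd b hq hm)⟩
    | cw w₁ hq₁ hl₁ hb₁ => exact absurd hσ (by decide)
  have key2 : ∀ (a : H) (σ : Bool) (k : ℤ) (w : Red Γ l a σ k) (_ : w.len ≤ n) (_ : σ = true)
      (_ : k = 0) (b : Bool) (h : H) (l₁ : Γ.nxt h ≠ h)
      (hq : pos Γ a (!σ) = Γ.opp (Γ.nxt h)),
      ∃ m, RednRd m ((RednMv b σ w.path).bwd (.turn h (pos Γ a (!σ)) l₁ hq)) := by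
    intro a σ k w hw hσ hk b h l₁ hq
    cases w with
    | base =>
      have h1 : l = Γ.nxt h := Redn_opp_inj hq
      have h2 : h = l := Redn_nxt_inj (h1.symm.trans hl.symm)
      subst h2
      exact absurd hl l₁
    | up w hk' => exact absurd hk (by omega)
    | dn w hk' => exact absurd hk (by omega)
    | ccw w₁ hl₁ hb₁ => exact absurd hσ (by decide)
    | cw w₁ hq₁ hl₁ hb₁ =>
      rename_i a₁ σ₁ k₁
      have hw₁ : w₁.len + 1 ≤ n := hw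
      obtain rfl : a = Γ.nxt h := Redn_opp_inj hq
      obtain ⟨c, rfl⟩ : ∃ c, h = Γ.nxt c := ⟨Γ.nxt (Γ.nxt h), (Γ.nxt3 h).symm⟩
      have h3 : pos Γ a₁ σ₁ = Γ.opp c := by rw [hq₁, Γ.nxt3]
      have l₀ : Γ.nxt c ≠ c := fun h => l₁ (congrArg Γ.nxt h)
      have h1 := Redn_cross_fwd (!b) h3 (RednRd_of w₁ le_rfl (Hom.refl w₁.path))
      obtain ⟨m, hm⟩ := ihf w₁.len (by omega) _ (Γ.opp (Γ.nxt c)) _ h1 l₀ rfl
      exact ⟨m, RednRd_hom (Redn_vert_bwd w₁.path (!b) h3 l₀ l₁ hl₁ hq₁)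
        (Redn_cross_fwd (!b) rfl hm)⟩
  constructor
  · intro q l₁ hq
    by_cases hb : σ = true → 2 ≤ |k|
    · subst hq
      exact ⟨_, RednRd_of (Red.ccw ρ l₁ hb) le_rfl (Hom.refl _)⟩
    · push Not at hb
      obtain ⟨hσ, hk⟩ := hb
      rw [abs_lt] at hk
      cases ρ with
      | base => exact absurd hl l₁
      | up w hk' =>
        rw [Redn_path_up]
        exact key1 _ _ _ w hn (by simpa using hσ) (by omega) true q l₁ hq
      | dn w hk' =>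
        rw [Redn_path_dn]
        exact key1 _ _ _ w hn (by simpa using hσ) (by omega) false q l₁ hq
      | ccw w₁ hl₁ hb₁ => exact absurd hσ (by decide)
      | cw w₁ hq₁ hl₁ hb₁ =>
        rename_i a₁ σ₁ k₁
        obtain rfl : q = pos Γ a₁ σ₁ := hq.trans hq₁.symm
        exact ⟨_, RednRd_of w₁ le_rfl (Hom.bwd_fwd _ _)⟩
  · intro h l₁ hq
    by_cases hb : σ = false → 2 ≤ |k|
    · exact ⟨_, RednRd_of (Red.cw ρ hq l₁ hb) le_rfl (Hom.refl _)⟩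
    · push Not at hb
      obtain ⟨hσ, hk⟩ := hb
      rw [abs_lt] at hk
      cases ρ with
      | base => exact absurd hσ (by decide)
      | up w hk' =>
        rw [Redn_path_up]
        exact key2 _ _ _ w hn (by simpa using hσ) (by omega) true h l₁ hq
      | dn w hk' =>
        rw [Redn_path_dn]
        exact key2 _ _ _ w hn (by simpa using hσ) (by omega) false h l₁ hq
      | ccw w₁ hl₁ hb₁ =>
        rename_i a₁ σ₁ k₁
        obtain rfl : h = pos Γ a₁ σ₁ := (Redn_nxt_inj (Redn_opp_inj hq)).symm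
        exact ⟨_, RednRd_of w₁ le_rfl (Hom.fwd_bwd _ _)⟩
      | cw w₁ hq₁ hl₁ hb₁ => exact absurd hσ (by decide)

theorem Redn_all (hl : Γ.nxt l = l) {q : H} (w : Path Γ l q) : ∃ m, RednRd m w := by
  induction w with
  | nil => exact ⟨0, RednRd_of Red.base le_rfl (Hom.refl _)⟩
  | fwd w s ih =>
    obtain ⟨m, hm⟩ := ih
    cases s with
    | turn h q h₁ hq =>
      obtain ⟨a, σ, k, ρ, rfl, hn, hw⟩ := hm
      obtain ⟨m', hm'⟩ := (Redn_turn hl _ a σ k ρ le_rfl).1 _ h₁ hq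
      exact ⟨m', RednRd_hom (Hom.fwd _ hw) hm'⟩
    | cross h q b hq => exact ⟨m, Redn_cross_fwd b hq hm⟩
  | bwd w s ih =>
    obtain ⟨m, hm⟩ := ih
    cases s with
    | turn h q h₁ hq =>
      obtain ⟨a, σ, k, ρ, rfl, hn, hw⟩ := hm
      obtain ⟨m', hm'⟩ := (Redn_turn hl _ a σ k ρ le_rfl).2 _ h₁ hq
      exact ⟨m', RednRd_hom (Hom.bwd _ hw) hm'⟩
    | cross h q b hq => exact ⟨m, Redn_cross_bwd b hq hm⟩

end

theorem thm_Redn : St_Redn := by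
  intro H Γ l hl q w
  obtain ⟨m, a, σ, k, ρ, e, -, h⟩ := Redn_all hl w
  exact ⟨a, σ, k, ρ, e, h⟩

end Pool.Agent.AMS
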