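import Pool.Agent.AMS.NB

/-!
# (REP) The entries of the generic operators are rational functions of `A` and `τ`
-/

set_option autoImplicit false

namespace Pool.Agent.AMS

/-! ### Laurent polynomials and quotients by products of `gcur` -/

/-- Functions of a field and two of its elements. -/
private abbrev RepF : Type 1 := ∀ (K : Type) [Field K], K → K → K

private noncomputable def eP {K : Type} [Field K] (A τ : K) : Polynomial (Polynomial ℤ) →+* K :=
  Polynomial.eval₂RingHom (Polynomial.eval₂RingHom (Int.castRingHom K) A) τ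

private theorem eP_A {K : Type} [Field K] (A τ : K) : eP A τ (Polynomial.C Polynomial.X) = A := by
  simp [eP]

private theorem eP_T {K : Type} [Field K] (A τ : K) : eP A τ Polynomial.X = τ := by
  simp [eP]

/-- Laurent polynomials. -/
private def Lau (f : RepF) : Prop := ∃ (N : Polynomial (Polynomial ℤ)) (i j : ℕ),
  ∀ (K : Type) [Field K] (A τ : K), A ≠ 0 → τ ≠ 0 → f K A τ * A ^ i * τ ^ j = eP A τ N

private theorem Lau.const (n : ℤ) : Lau fun K _ _ _ => (n : K) :=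
  ⟨(n : Polynomial (Polynomial ℤ)), 0, 0, fun K _ A τ _ _ => by rw [map_intCast]; ring⟩

private theorem Lau.add {f g : RepF} (hf : Lau f) (hg : Lau g) :
    Lau fun K _ A τ => f K A τ + g K A τ := by
  obtain ⟨N, i, j, h⟩ := hf
  obtain ⟨N', i', j', h'⟩ := hg
  refine ⟨N * (Polynomial.C Polynomial.X) ^ i' * Polynomial.X ^ j' +
    N' * (Polynomial.C Polynomial.X) ^ i * Polynomial.X ^ j, i + i', j + j', ?_⟩
  intro K _ A τ hA hτ
  rw [map_add, map_mul, map_mul, map_mul, map_mul, map_pow, map_pow, map_pow, map_pow, eP_A, eP_T,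
    ← h K A τ hA hτ, ← h' K A τ hA hτ]
  ring

private theorem Lau.mul {f g : RepF} (hf : Lau f) (hg : Lau g) :
    Lau fun K _ A τ => f K A τ * g K A τ := by
  obtain ⟨N, i, j, h⟩ := hf
  obtain ⟨N', i', j', h'⟩ := hg
  refine ⟨N * N', i + i', j + j', ?_⟩
  intro K _ A τ hA hτ
  rw [map_mul, ← h K A τ hA hτ, ← h' K A τ hA hτ]
  ring

private theorem Lau.zA (n : ℤ) : Lau fun _ _ A _ => A ^ n := by
  refine ⟨(Polynomial.C Polynomial.X) ^ n.toNat, (-n).toNat, 0, ?_⟩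
  intro K _ A τ hA hτ
  rw [map_pow, eP_A, pow_zero, mul_one, ← zpow_natCast, ← zpow_natCast, ← zpow_add₀ hA]
  have h1 : n + ((-n).toNat : ℤ) = (n.toNat : ℤ) := by omega
  rw [h1]

private theorem Lau.zT (n : ℤ) : Lau fun _ _ _ τ => τ ^ n := by
  refine ⟨Polynomial.X ^ n.toNat, 0, (-n).toNat, ?_⟩
  intro K _ A τ hA hτ
  rw [map_pow, eP_T, pow_zero, mul_one, ← zpow_natCast, ← zpow_natCast, ← zpow_add₀ hτ]
  have h1 : n + ((-n).toNat : ℤ) = (n.toNat : ℤ) := by omega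
  rw [h1]

private theorem Lau.congr {f g : RepF} (hf : Lau f)
    (h : ∀ (K : Type) [Field K] (A τ : K), g K A τ = f K A τ) : Lau g := by
  have : g = f := by
    funext K i A τ
    exact h K A τ
  rw [this]
  exact hf

private theorem Lau.neg {f : RepF} (hf : Lau f) : Lau fun K _ A τ => - f K A τ :=
  ((Lau.const (-1)).mul hf).congr fun K _ A τ => by push_cast; ring

private theorem Lau.cur (m n : ℤ) : Lau fun _ _ A τ => gcur A τ m n :=
  (((Lau.zT m).mul (Lau.zA n)).add ((Lau.zT (-m)).mul (Lau.zA (-n))).neg).congr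
    fun K _ A τ => by unfold gcur; ring

private theorem Lau.curs (L : List (ℤ × ℤ)) :
    Lau fun _ _ A τ => (L.map fun x => gcur A τ x.1 x.2).prod := by
  induction L with
  | nil => exact (Lau.const 1).congr fun K _ A τ => by simp
  | cons a L ih =>
    exact ((Lau.cur a.1 a.2).mul ih).congr fun K _ A τ => by
      rw [List.map_cons, List.prod_cons]

/-- Quotients of Laurent polynomials by products of `gcur`'s with parameters in `T`. -/
private def Quo (T : ℤ × ℤ → Prop) (f : RepF) : Prop := ∃ (L : List (ℤ × ℤ)) (g : RepF),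
  (∀ x ∈ L, T x) ∧ Lau g ∧ ∀ (K : Type) [Field K] (A τ : K), A ≠ 0 → τ ≠ 0 →
    (∀ x ∈ L, gcur A τ x.1 x.2 ≠ 0) → f K A τ * (L.map fun x => gcur A τ x.1 x.2).prod = g K A τ

private theorem Quo.lau {T : ℤ × ℤ → Prop} {f : RepF} (hf : Lau f) : Quo T f :=
  ⟨[], f, by simp, hf, fun K _ A τ _ _ _ => by simp⟩

private theorem Quo.add {T : ℤ × ℤ → Prop} {f g : RepF} (hf : Quo T f) (hg : Quo T g) :
    Quo T fun K _ A τ => f K A τ + g K A τ := by
  obtain ⟨L, a, hL, ha, h⟩ := hf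
  obtain ⟨L', a', hL', ha', h'⟩ := hg
  refine ⟨L ++ L', _, ?_, (ha.mul (Lau.curs L')).add (ha'.mul (Lau.curs L)), ?_⟩
  · intro x hx
    rcases List.mem_append.1 hx with hx | hx
    · exact hL x hx
    · exact hL' x hx
  · intro K _ A τ hA hτ hx
    rw [List.map_append, List.prod_append,
      ← h K A τ hA hτ (fun x h1 => hx x (List.mem_append.2 (Or.inl h1))),
      ← h' K A τ hA hτ (fun x h1 => hx x (List.mem_append.2 (Or.inr h1)))]
    ring

private theorem Quo.mul {T : ℤ × ℤ → Prop} {f g : RepF} (hf : Quo T f) (hg : Quo T g) :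
    Quo T fun K _ A τ => f K A τ * g K A τ := by
  obtain ⟨L, a, hL, ha, h⟩ := hf
  obtain ⟨L', a', hL', ha', h'⟩ := hg
  refine ⟨L ++ L', _, ?_, ha.mul ha', ?_⟩
  · intro x hx
    rcases List.mem_append.1 hx with hx | hx
    · exact hL x hx
    · exact hL' x hx
  · intro K _ A τ hA hτ hx
    rw [List.map_append, List.prod_append,
      ← h K A τ hA hτ (fun x h1 => hx x (List.mem_append.2 (Or.inl h1))),
      ← h' K A τ hA hτ (fun x h1 => hx x (List.mem_append.2 (Or.inr h1)))]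
    ring

private theorem Quo.div {T : ℤ × ℤ → Prop} {f : RepF} (hf : Quo T f) {m n : ℤ} (hT : T (m, n)) :
    Quo T fun K _ A τ => f K A τ / gcur A τ m n := by
  obtain ⟨L, a, hL, ha, h⟩ := hf
  refine ⟨(m, n) :: L, a, ?_, ha, ?_⟩
  · intro x hx
    rcases List.mem_cons.1 hx with hx | hx
    · rw [hx]; exact hT
    · exact hL x hx
  · intro K _ A τ hA hτ hx
    have h1 : gcur A τ m n ≠ 0 := hx (m, n) List.mem_cons_self
    rw [List.map_cons, List.prod_cons,
      ← h K A τ hA hτ (fun x h2 => hx x (List.mem_cons_of_mem _ h2))]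
    field_simp

private theorem Quo.congr {T : ℤ × ℤ → Prop} {f g : RepF} (hf : Quo T f)
    (h : ∀ (K : Type) [Field K] (A τ : K), g K A τ = f K A τ) : Quo T g := by
  have : g = f := by
    funext K i A τ
    exact h K A τ
  rw [this]
  exact hf

/-- The coefficients of the turns. -/
private theorem Quo.coef {T : ℤ × ℤ → Prop} {mx my : ℤ} (mz : ℤ) {x : ℤ} (x' : ℤ) {y : ℤ}
    (y' z : ℤ) (h1 : T (2 * mx, 2 * x + 2)) (h2 : T (2 * my, 2 * y + 2)) :
    Quo T fun _ _ A τ => gcoef A τ mx my mz x x' y y' z := by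
  by_cases hx : x' = x + 1
  · by_cases hy : y' = y + 1
    · exact ((Quo.lau (Lau.cur (mx - my + mz) (x - y + z + 1))).div h1).congr fun K _ A τ => by
        unfold gcoef
        rw [if_pos hx, if_pos hy]
    · exact (((Quo.lau ((Lau.cur (mx + my - mz) (x + y - z + 1)).mul
        (Lau.cur (mx + my + mz) (x + y + z + 3)))).div h1).div h2).congr fun K _ A τ => by
        unfold gcoef
        rw [if_pos hx, if_neg hy, div_div]
  · by_cases hy : y' = y + 1
    · exact (Quo.lau (Lau.const 1)).congr fun K _ A τ => by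
        unfold gcoef
        rw [if_neg hx, if_pos hy, Int.cast_one]
    · exact ((Quo.lau (Lau.cur (my - mx + mz) (y - x + z + 1)).neg).div h2).congr fun K _ A τ => by
        unfold gcoef
        rw [if_neg hx, if_neg hy, neg_div]

/-- The coefficients of the half twists. -/
private theorem Quo.tw {T : ℤ × ℤ → Prop} (m x x' : ℤ) :
    Quo T fun _ _ A τ => gtw A τ m x x' := by
  by_cases hx : x' = x + 1
  · exact (Quo.lau ((Lau.zT (-m)).mul (Lau.zA (-x)))).congr fun K _ A τ => by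
      unfold gtw
      rw [if_pos hx]
  · exact (Quo.lau ((Lau.zT m).mul (Lau.zA (x + 2))).neg).congr fun K _ A τ => by
      unfold gtw
      rw [if_neg hx]

private theorem Quo.tw' {T : ℤ × ℤ → Prop} (m x x' : ℤ) :
    Quo T fun _ _ A τ => (gtw A τ m x x')⁻¹ := by
  by_cases hx : x' = x + 1
  · exact (Quo.lau ((Lau.zT m).mul (Lau.zA x))).congr fun K _ A τ => by
      unfold gtw
      rw [if_pos hx, mul_inv, zpow_neg, zpow_neg, inv_inv, inv_inv]
  · exact (Quo.lau ((Lau.zT (-m)).mul (Lau.zA (-(x + 2)))).neg).congr fun K _ A τ => by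
      unfold gtw
      rw [if_neg hx, inv_neg, mul_inv, zpow_neg, zpow_neg]

/-! ### Vectors -/

section

variable {H : Type} {Γ : Fat H} {φ : H → ℤ} {col : H → ℕ}

/-- Vectors with entries in `Quo T`, supported on finitely many states at a distance `≤ n` from `δ`. -/
private inductive Vec (T : ℤ × ℤ → Prop) (δ : H → ℤ) (n : ℕ) {q : H} :
    (∀ (K : Type) [Field K], K → K → (GSt Γ φ col q →₀ K)) → Prop
  | zero : Vec T δ n fun _ _ _ _ => 0
  | add {u v : ∀ (K : Type) [Field K], K → K → (GSt Γ φ col q →₀ K)} : Vec T δ n u → Vec T δ n v →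
      Vec T δ n fun K _ A τ => u K A τ + v K A τ
  | single (δ₁ : GSt Γ φ col q) (f : RepF) : (∀ h, |δ₁.1 h - δ h| ≤ n) → Quo T f →
      Vec T δ n fun K _ A τ => Finsupp.single δ₁ (f K A τ)

private theorem Vec.congr {T : ℤ × ℤ → Prop} {δ : H → ℤ} {n : ℕ} {q : H}
    {u v : ∀ (K : Type) [Field K], K → K → (GSt Γ φ col q →₀ K)} (hu : Vec T δ n u)
    (h : ∀ (K : Type) [Field K] (A τ : K), v K A τ = u K A τ) : Vec T δ n v := by
  have : v = u := by
    funext K i A τ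
    exact h K A τ
  rw [this]
  exact hu

private theorem Vec.entry {T : ℤ × ℤ → Prop} {δ : H → ℤ} {n : ℕ} {q : H}
    {u : ∀ (K : Type) [Field K], K → K → (GSt Γ φ col q →₀ K)} (hu : Vec T δ n u)
    (δ' : GSt Γ φ col q) : Quo T fun K _ A τ => u K A τ δ' := by
  induction hu with
  | zero => exact (Quo.lau (Lau.const 0)).congr fun K _ A τ => by simp
  | add _ _ h1 h2 => exact (h1.add h2).congr fun K _ A τ => by rw [Finsupp.add_apply]
  | single δ₁ f _ hf =>
    by_cases h : δ₁ = δ'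
    · exact hf.congr fun K _ A τ => by rw [h, Finsupp.single_eq_same]
    · exact (Quo.lau (Lau.const 0)).congr fun K _ A τ => by
        rw [Finsupp.single_eq_of_ne (fun h' => h h'.symm), Int.cast_zero]

/-- The basis vector of a sequence of integers. -/
private theorem Vec.pt {T : ℤ × ℤ → Prop} {δ : H → ℤ} {n : ℕ} {q : H} (δ₁ : H → ℤ) {f : RepF}
    (h1 : ∀ h, |δ₁ h - δ h| ≤ n) (hf : Quo T f) :
    Vec T δ n fun K _ A τ => pt Γ φ col q δ₁ (f K A τ) := by
  by_cases h : IsG Γ φ col q δ₁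
  · exact (Vec.single ⟨δ₁, h⟩ f h1 hf).congr fun K _ A τ => NB_pt_pos φ col h _
  · exact Vec.zero.congr fun K _ A τ => NB_pt_neg φ col h _

/-- Application of linear maps. -/
private theorem Vec.map {T : ℤ × ℤ → Prop} {δ : H → ℤ} {n n' : ℕ} {q t : H}
    {u : ∀ (K : Type) [Field K], K → K → (GSt Γ φ col q →₀ K)} (hu : Vec T δ n u)
    (S : ∀ (K : Type) [Field K], K → K → ((GSt Γ φ col q →₀ K) →ₗ[K] (GSt Γ φ col t →₀ K)))
    (hS : ∀ (δ₁ : GSt Γ φ col q) (f : RepF), (∀ h, |δ₁.1 h - δ h| ≤ n) → Quo T f →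
      Vec T δ n' fun K _ A τ => f K A τ • S K A τ (Finsupp.single δ₁ 1)) :
    Vec T δ n' fun K _ A τ => S K A τ (u K A τ) := by
  induction hu with
  | zero => exact Vec.zero.congr fun K _ A τ => by rw [map_zero]
  | add _ _ h1 h2 => exact (h1.add h2).congr fun K _ A τ => by rw [map_add]
  | single δ₁ f h1 hf =>
    exact (hS δ₁ f h1 hf).congr fun K _ A τ => by
      rw [← map_smul, Finsupp.smul_single, smul_eq_mul, mul_one]

private theorem smul_pt {K : Type} [Field K] {q : H} (δ : H → ℤ) (a b : K) :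
    a • pt Γ φ col q δ b = pt Γ φ col q δ (a * b) := by
  by_cases h : IsG Γ φ col q δ
  · rw [NB_pt_pos φ col h, NB_pt_pos φ col h, Finsupp.smul_single, smul_eq_mul]
  · rw [NB_pt_neg φ col h, NB_pt_neg φ col h, smul_zero]

/-! ### Moves -/

/-- The admissible parameters. -/
private def RT (φ δ : H → ℤ) (s : ℕ) (x : ℤ × ℤ) : Prop :=
  0 ≤ x.1 ∧ (x.1 = 0 → 0 < x.2) ∧
    ∀ B : ℤ, (∀ h, φ h ≠ 0 → B ≤ δ h) → x.1 ≠ 0 → 2 * (B - s) + 2 ≤ x.2

private theorem RT_of {δ : H → ℤ} {s : ℕ} {a : H} {x : ℤ} (h0 : φ a = 0 → 0 ≤ x)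
    (h1 : φ a ≠ 0 → ∃ b, φ b ≠ 0 ∧ |x - δ b| ≤ s) : RT φ δ s (2 * |φ a|, 2 * x + 2) := by
  refine ⟨?_, ?_, ?_⟩
  · show 0 ≤ 2 * |φ a|
    have := abs_nonneg (φ a)
    omega
  · intro h
    have h2 : φ a = 0 := abs_eq_zero.1 (by
      have h3 : 2 * |φ a| = 0 := h
      omega)
    have := h0 h2
    show 0 < 2 * x + 2
    omega
  · intro B hB h
    have h2 : φ a ≠ 0 := by
      intro h3
      apply h
      show 2 * |φ a| = 0
      rw [h3, abs_zero, mul_zero]
    obtain ⟨b, hb, hx⟩ := h1 h2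
    have h4 := hB b hb
    have h5 := abs_le.1 hx
    show 2 * (B - s) + 2 ≤ 2 * x + 2
    omega

/-- The flow at the edges of the leg. -/
private theorem opp_ne' (hφ : IsFlow Γ φ) {h : H} (h0 : φ (Γ.opp h) = 0) : φ h = 0 := by
  have := hφ.opp h
  omega

private theorem Vec.turn (hφ : IsFlow Γ φ) {δ : H → ℤ} {s n : ℕ} (hn : n + 1 ≤ s) {h t : H}
    (hl : Γ.nxt h ≠ h) (ht : t = Γ.opp (Γ.nxt h))
    {u : ∀ (K : Type) [Field K], K → K → (GSt Γ φ col h →₀ K)} (hu : Vec (RT φ δ s) δ n u) :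
    Vec (RT φ δ s) δ (n + 1) fun K _ A τ =>
      (Step.turn h t hl ht).gop Γ φ col (gen φ A τ) (u K A τ) := by
  classical
  have hns : (n : ℤ) ≤ s := by exact_mod_cast (Nat.le_of_succ_le hn)
  refine hu.map (fun K _ A τ => (Step.turn h t hl ht).gop Γ φ col (gen φ A τ)) ?_
  intro δ₁ f h1 hf
  have hp := δ₁.2.2.2.2.2
  have hT1 : RT φ δ s (2 * |φ h|, 2 * δ₁.1 (Γ.opp h) + 2) := by
    refine RT_of ?_ ?_
    · intro h2
      rw [δ₁.2.1 _ (NB_leaf hφ hl h2)]
      exact Int.natCast_nonneg _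
    · intro h2
      exact ⟨Γ.opp h, fun h3 => h2 (opp_ne' hφ h3), (h1 _).trans hns⟩
  have hT2 : RT φ δ s (2 * |φ (Γ.nxt h)|, 2 * δ₁.1 (Γ.nxt h) + 2) := by
    refine RT_of ?_ ?_
    · intro h2
      have h7 : Γ.nxt h ≠ Γ.opp h := by
        intro h3
        have h4 : φ h = 0 := opp_ne' hφ (by rw [← h3]; exact h2)
        rcases hφ.one h hl with h5 | h5
        · exact h5 h4
        · exact h5 h2
      have h6 := δ₁.2.2.2.2.1 (Γ.nxt h) hl h7
      rw [← h6, δ₁.2.1 _ (NB_leaf hφ (NB_nl hl) h2)]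
      exact Int.natCast_nonneg _
    · intro h2
      exact ⟨Γ.nxt h, h2, (h1 _).trans hns⟩
  have hnear : ∀ ε : ℤ, ε = 1 ∨ ε = -1 → ∀ k, |upT Γ h ε δ₁.1 k - δ k| ≤ ((n + 1 : ℕ) : ℤ) := by
    intro ε h3 k
    push_cast
    unfold upT
    have h2 := abs_le.1 (h1 k)
    by_cases hk : k = Γ.nxt h
    · rw [if_pos hk, ← hk, abs_le]
      rcases h3 with h3 | h3 <;> constructor <;> omega
    · rw [if_neg hk]
      by_cases hk' : k = h
      · rw [if_pos hk', abs_le]
        subst hk'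
        rcases hp with hp | hp <;> constructor <;> omega
      · rw [if_neg hk', abs_le]
        constructor <;> omega
  have key := (Vec.pt (Γ := Γ) (φ := φ) (col := col) (q := t) _ (hnear 1 (Or.inl rfl))
    (hf.mul (Quo.coef |φ (Γ.nxt (Γ.nxt h))| (δ₁.1 h) (δ₁.1 (Γ.nxt h) + 1)
      (δ₁.1 (Γ.nxt (Γ.nxt h))) hT1 hT2))).add
    (Vec.pt (Γ := Γ) (φ := φ) (col := col) (q := t) _ (hnear (-1) (Or.inr rfl))
    (hf.mul (Quo.coef |φ (Γ.nxt (Γ.nxt h))| (δ₁.1 h) (δ₁.1 (Γ.nxt h) - 1)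
      (δ₁.1 (Γ.nxt (Γ.nxt h))) hT1 hT2)))
  refine key.congr ?_
  intro K _ A τ
  rw [NB_turn, smul_add, smul_pt, smul_pt]
  rfl

private theorem Vec.turn' (hφ : IsFlow Γ φ) {δ : H → ℤ} {s n : ℕ} (hn : n + 1 ≤ s) {h t : H}
    (hl : Γ.nxt h ≠ h) (ht : t = Γ.opp (Γ.nxt h))
    {u : ∀ (K : Type) [Field K], K → K → (GSt Γ φ col t →₀ K)} (hu : Vec (RT φ δ s) δ n u) :
    Vec (RT φ δ s) δ (n + 1) fun K _ A τ =>
      (Step.turn h t hl ht).gop' Γ φ col (gen φ A τ) (u K A τ) := by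
  classical
  have hns : (n : ℤ) ≤ s := by exact_mod_cast (Nat.le_of_succ_le hn)
  refine hu.map (fun K _ A τ => (Step.turn h t hl ht).gop' Γ φ col (gen φ A τ)) ?_
  intro δ₁ f h1 hf
  have hot : Γ.opp t = Γ.nxt h := by rw [ht, Γ.opp_opp]
  have hp := δ₁.2.2.2.2.2
  rw [hot] at hp
  have hT1 : RT φ δ s (2 * |φ (Γ.nxt h)|, 2 * δ₁.1 (Γ.opp (Γ.nxt h)) + 2) := by
    refine RT_of ?_ ?_
    · intro h2
      rw [δ₁.2.1 _ (NB_leaf hφ (NB_nl hl) h2)]
      exact Int.natCast_nonneg _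
    · intro h2
      exact ⟨Γ.opp (Γ.nxt h), fun h3 => h2 (opp_ne' hφ h3), (h1 _).trans hns⟩
  have hT2 : RT φ δ s (2 * |φ h|, 2 * δ₁.1 h + 2) := by
    refine RT_of ?_ ?_
    · intro h2
      have h7 : h ≠ t := by
        intro h3
        have h8 : Γ.opp h = Γ.nxt h := by rw [h3] at hot ⊢; exact hot
        have h4 : φ (Γ.nxt h) = 0 := by
          rw [← h8, hφ.opp, h2, neg_zero]
        rcases hφ.one h hl with h5 | h5
        · exact h5 h2
        · exact h5 h4
      have h6 := δ₁.2.2.2.2.1 h h7 (by rw [hot]; exact hl.symm)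
      rw [← h6, δ₁.2.1 _ (NB_leaf hφ hl h2)]
      exact Int.natCast_nonneg _
    · intro h2
      exact ⟨h, h2, (h1 _).trans hns⟩
  have hnear : ∀ ε : ℤ, ε = 1 ∨ ε = -1 → ∀ k, |dnT Γ h ε δ₁.1 k - δ k| ≤ ((n + 1 : ℕ) : ℤ) := by
    intro ε h3 k
    push_cast
    unfold dnT
    have h2 := abs_le.1 (h1 k)
    by_cases hk : k = h
    · rw [if_pos hk, ← hk, abs_le]
      rcases h3 with h3 | h3 <;> constructor <;> omega
    · rw [if_neg hk]
      by_cases hk' : k = Γ.nxt h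
      · rw [if_pos hk', ← ht, abs_le]
        rw [← hk'] at hp
        rcases hp with hp | hp <;> constructor <;> omega
      · rw [if_neg hk', abs_le]
        constructor <;> omega
  have key := (Vec.pt (Γ := Γ) (φ := φ) (col := col) (q := h) _ (hnear 1 (Or.inl rfl))
    (hf.mul (Quo.coef |φ (Γ.nxt (Γ.nxt h))| (δ₁.1 (Γ.nxt h)) (δ₁.1 h + 1)
      (δ₁.1 (Γ.nxt (Γ.nxt h))) hT1 hT2))).add
    (Vec.pt (Γ := Γ) (φ := φ) (col := col) (q := h) _ (hnear (-1) (Or.inr rfl))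
    (hf.mul (Quo.coef |φ (Γ.nxt (Γ.nxt h))| (δ₁.1 (Γ.nxt h)) (δ₁.1 h - 1)
      (δ₁.1 (Γ.nxt (Γ.nxt h))) hT1 hT2)))
  refine key.congr ?_
  intro K _ A τ
  rw [NB_turn', smul_add, smul_pt, smul_pt]
  rfl

private theorem Vec.cross {δ : H → ℤ} {s n : ℕ} {h q : H} (b : Bool) (hq : q = Γ.opp h)
    {u : ∀ (K : Type) [Field K], K → K → (GSt Γ φ col q →₀ K)} (hu : Vec (RT φ δ s) δ n u) :
    Vec (RT φ δ s) δ (n + 1) fun K _ A τ =>
      (Step.cross h q b hq).gop Γ φ col (gen φ A τ) (u K A τ) := by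
  refine hu.map (fun K _ A τ => (Step.cross h q b hq).gop Γ φ col (gen φ A τ)) ?_
  intro δ₁ f h1 hf
  have hnear : ∀ k, |δ₁.1 k - δ k| ≤ ((n + 1 : ℕ) : ℤ) := by
    intro k
    have := h1 k
    push_cast
    omega
  cases b with
  | true =>
    refine (Vec.pt (Γ := Γ) (φ := φ) (col := col) (q := h) _ hnear
      (hf.mul (Quo.tw |φ h| (δ₁.1 (Γ.opp h)) (δ₁.1 h)))).congr ?_
    intro K _ A τ
    rw [NB_cross, smul_pt, if_pos rfl]
    rfl
  | false =>
    refine (Vec.pt (Γ := Γ) (φ := φ) (col := col) (q := h) _ hnear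
      (hf.mul (Quo.tw' |φ h| (δ₁.1 (Γ.opp h)) (δ₁.1 h)))).congr ?_
    intro K _ A τ
    rw [NB_cross, smul_pt, if_neg Bool.false_ne_true]
    rfl

private theorem Vec.cross' {δ : H → ℤ} {s n : ℕ} {h q : H} (b : Bool) (hq : q = Γ.opp h)
    {u : ∀ (K : Type) [Field K], K → K → (GSt Γ φ col h →₀ K)} (hu : Vec (RT φ δ s) δ n u) :
    Vec (RT φ δ s) δ (n + 1) fun K _ A τ =>
      (Step.cross h q b hq).gop' Γ φ col (gen φ A τ) (u K A τ) := by
  refine hu.map (fun K _ A τ => (Step.cross h q b hq).gop' Γ φ col (gen φ A τ)) ?_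
  intro δ₁ f h1 hf
  have hnear : ∀ k, |δ₁.1 k - δ k| ≤ ((n + 1 : ℕ) : ℤ) := by
    intro k
    have := h1 k
    push_cast
    omega
  cases b with
  | true =>
    refine (Vec.pt (Γ := Γ) (φ := φ) (col := col) (q := q) _ hnear
      (hf.mul (Quo.tw' |φ h| (δ₁.1 (Γ.opp h)) (δ₁.1 h)))).congr ?_
    intro K _ A τ
    rw [NB_cross', smul_pt, if_pos rfl]
    rfl
  | false =>
    refine (Vec.pt (Γ := Γ) (φ := φ) (col := col) (q := q) _ hnear
      (hf.mul (Quo.tw |φ h| (δ₁.1 (Γ.opp h)) (δ₁.1 h)))).congr ?_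
    intro K _ A τ
    rw [NB_cross', smul_pt, if_neg Bool.false_ne_true]
    rfl

/-- Paths. -/
private theorem Vec.path (hφ : IsFlow Γ φ) {s : ℕ} {p : H} (δ : GSt Γ φ col p) {q : H}
    (w : Path Γ p q) (hw : w.size ≤ s) :
    Vec (RT φ δ.1 s) δ.1 w.size fun K _ A τ => w.gop φ col (gen φ A τ) (Finsupp.single δ 1) := by
  induction w with
  | nil =>
    refine (Vec.single δ (fun K _ _ _ => ((1 : ℤ) : K)) ?_ (Quo.lau (Lau.const 1))).congr ?_
    · intro h
      simp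
    · intro K _ A τ
      simp [Path.gop]
  | fwd w S ih =>
    have h1 := ih (Nat.le_of_succ_le hw)
    cases S with
    | turn _ _ hl ht => exact h1.turn hφ hw hl ht
    | cross _ _ b hq => exact h1.cross b hq
  | bwd w S ih =>
    have h1 := ih (Nat.le_of_succ_le hw)
    cases S with
    | turn _ _ hl ht => exact h1.turn' hφ hw hl ht
    | cross _ _ b hq => exact h1.cross' b hq

/-- Combinations. -/
private theorem Quo.comb (hφ : IsFlow Γ φ) {s : ℕ} {p q : H} (F : FC Γ p q)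
    (hF : ∀ x ∈ F, x.2.2.size ≤ s) (δ : GSt Γ φ col p) (δ' : GSt Γ φ col q) :
    Quo (RT φ δ.1 s) fun K _ A τ => (F.gop φ col (gen φ A τ) A (Finsupp.single δ 1)) δ' := by
  induction F with
  | nil =>
    exact (Quo.lau (Lau.const 0)).congr fun K _ A τ => by
      simp [FC.gop]
  | cons x F ih =>
    have h1 := ih fun y hy => hF y (List.mem_cons_of_mem _ hy)
    have h2 := (Vec.path hφ δ x.2.2 (hF x List.mem_cons_self)).entry δ'
    exact (((Quo.lau ((Lau.const x.1).mul (Lau.zA x.2.1))).mul h2).add h1).congr fun K _ A τ => by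
      simp [FC.gop, LinearMap.add_apply]

end

theorem thm_Rep : St_Rep := by
  intro H _ Γ φ hφ col p q F s hF δ δ'
  obtain ⟨L, g, hL, ⟨N, i, j, hN⟩, h⟩ := Quo.comb hφ F hF δ δ'
  refine ⟨N, L, i, j, hL, ?_⟩
  intro K _ A τ hA hτ hx
  rw [h K A τ hA hτ hx, hN K A τ hA hτ]
  rfl

end Pool.Agent.AMS
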