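import Pool.Agent.AMS.NB

/-!
# AMS, module ResN: the residue of `(U - 1) / (A - 1)`
-/

set_option autoImplicit false

namespace Pool.Agent.AMS

section

variable {K : Type} [Field K] {P : Place K} {ι κ μ : Type}

/-- `T` is integral with residue `T₀` -/
private def ResN_IR (P : Place K) (T : (ι →₀ K) →ₗ[K] (κ →₀ K))
    (T₀ : (ι →₀ ℚ) →ₗ[ℚ] (κ →₀ ℚ)) : Prop :=
  ∀ i j, P.Res ((T (Finsupp.single i 1)) j) ((T₀ (Finsupp.single i 1)) j)

private theorem ResN_expand {F : Type} [Field F] (T : (ι →₀ F) →ₗ[F] (κ →₀ F)) (v : ι →₀ F)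
    (s : Finset ι) (hs : v.support ⊆ s) (j : κ) :
    (T v) j = ∑ k ∈ s, v k * (T (Finsupp.single k 1)) j := by
  have h1 : ∑ k ∈ s, v k • Finsupp.single k (1 : F) = v := by
    conv_rhs => rw [← Finsupp.sum_single v]
    rw [Finsupp.sum_of_support_subset _ hs _ (by simp)]
    refine Finset.sum_congr rfl fun k _ => ?_
    rw [Finsupp.smul_single, smul_eq_mul, mul_one]
  conv_lhs => rw [← h1]
  rw [map_sum, Finsupp.finset_sum_apply]
  refine Finset.sum_congr rfl fun k _ => ?_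
  rw [map_smul, Finsupp.smul_apply, smul_eq_mul]

private theorem ResN_comp {T : (κ →₀ K) →ₗ[K] (μ →₀ K)} {T₀ : (κ →₀ ℚ) →ₗ[ℚ] (μ →₀ ℚ)}
    {S : (ι →₀ K) →ₗ[K] (κ →₀ K)} {S₀ : (ι →₀ ℚ) →ₗ[ℚ] (κ →₀ ℚ)} (hT : ResN_IR P T T₀)
    (hS : ResN_IR P S S₀) : ResN_IR P (T.comp S) (T₀.comp S₀) := by
  classical
  intro i j
  rw [LinearMap.comp_apply, LinearMap.comp_apply,
    ResN_expand T _ ((S (Finsupp.single i 1)).support ∪ (S₀ (Finsupp.single i 1)).support)
      Finset.subset_union_left,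
    ResN_expand T₀ _ ((S (Finsupp.single i 1)).support ∪ (S₀ (Finsupp.single i 1)).support)
      Finset.subset_union_right]
  exact NB_sum _ _ _ fun k _ => NB_mul (hS i k) (hT k j)

private theorem ResN_add {T S : (ι →₀ K) →ₗ[K] (κ →₀ K)} {T₀ S₀ : (ι →₀ ℚ) →ₗ[ℚ] (κ →₀ ℚ)}
    (hT : ResN_IR P T T₀) (hS : ResN_IR P S S₀) : ResN_IR P (T + S) (T₀ + S₀) :=
  fun i j => NB_add (hT i j) (hS i j)

private theorem ResN_neg {T : (ι →₀ K) →ₗ[K] (κ →₀ K)} {T₀ : (ι →₀ ℚ) →ₗ[ℚ] (κ →₀ ℚ)}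
    (hT : ResN_IR P T T₀) : ResN_IR P (-T) (-T₀) :=
  fun i j => NB_neg (hT i j)

private theorem ResN_smul {c : K} {q : ℚ} (hc : P.Res c q) {T : (ι →₀ K) →ₗ[K] (κ →₀ K)}
    {T₀ : (ι →₀ ℚ) →ₗ[ℚ] (κ →₀ ℚ)} (hT : ResN_IR P T T₀) : ResN_IR P (c • T) (q • T₀) :=
  fun i j => NB_mul hc (hT i j)

private theorem ResN_addsub (T : (ι →₀ K) →ₗ[K] (ι →₀ K)) :
    LinearMap.id + (T - LinearMap.id) = T := by
  refine LinearMap.ext fun v => ?_
  simp only [LinearMap.add_apply, LinearMap.sub_apply, LinearMap.id_apply]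
  abel

private theorem ResN_single (i j : ι) {x : K} {q : ℚ} (h : P.Res x q) :
    P.Res ((Finsupp.single i x : ι →₀ K) j) ((Finsupp.single i q : ι →₀ ℚ) j) := by
  classical
  by_cases hij : i = j
  · subst hij
    rw [Finsupp.single_eq_same, Finsupp.single_eq_same]
    exact h
  · rw [Finsupp.single_apply, Finsupp.single_apply, if_neg hij, if_neg hij]
    exact NB_zero

private theorem ResN_id : ResN_IR P (LinearMap.id : (ι →₀ K) →ₗ[K] (ι →₀ K)) LinearMap.id :=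
  fun i j => ResN_single i j NB_one

end

section

variable {H : Type} [Fintype H] {Γ : Fat H} {φ : H → ℤ} {col : H → ℕ} {K : Type} [Field K]

private theorem ResN_dil {p : H} {ω : K} (hω : ω ≠ 0) {κ : Type}
    {T T' : (GSt Γ φ col p →₀ K) →ₗ[K] (κ →₀ K)}
    (h : T.comp (dil Γ φ col p ω) = T'.comp (dil Γ φ col p ω)) : T = T' := by
  refine Finsupp.lhom_ext fun δ c => ?_
  have h1 := LinearMap.congr_fun h (Finsupp.single δ (c * (ω ^ slack Γ φ δ.1)⁻¹))
  have h2 : dil Γ φ col p ω (Finsupp.single δ (c * (ω ^ slack Γ φ δ.1)⁻¹)) =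
      Finsupp.single δ c := by
    unfold dil
    rw [Finsupp.linearCombination_single, Finsupp.smul_single, smul_eq_mul, mul_assoc,
      inv_mul_cancel₀ (zpow_ne_zero _ hω), mul_one]
  rw [LinearMap.comp_apply, LinearMap.comp_apply, h2] at h1
  exact h1

private theorem ResN_inv (hT : St_PathR) (hG : St_GRel1) (hφ : IsFlow Γ φ) {A τ ω : K}
    (hn : Nondeg A τ) (hω : ω ≠ 0) {p q : H} (w : Path Γ p q) :
    (w.inv.gop φ col (scl φ A τ ω)).comp (w.gop φ col (scl φ A τ ω)) = LinearMap.id := by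
  apply ResN_dil hω
  rw [LinearMap.comp_assoc, (hT H Γ φ hφ col p q w).2 K A τ ω hω, ← LinearMap.comp_assoc,
    (hT H Γ φ hφ col q p w.inv).2 K A τ ω hω, LinearMap.comp_assoc,
    (hG H Γ φ hφ col K A τ hn p q w).1, LinearMap.comp_id, LinearMap.id_comp]

private theorem ResN_loop (hC : St_Cur) (hφ : IsFlow Γ φ) (P : Place K) {a : ℕ} (ha : 1 ≤ a)
    {l : H} (hl : Γ.nxt l = l) :
    ResN_IR P ((P.A a - 1)⁻¹ • ((loop Γ l).gop φ col (scl φ (P.A a) P.T P.ω) - LinearMap.id))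
      (dOp Γ φ col l) := by
  intro δ δ'
  have hA1 : P.A a - 1 ≠ 0 := (hC K P a ha 0 0).2.2.2.2.1
  have hA0 : P.A a ≠ 0 := (hC K P a ha 0 0).2.2.2.2.2.1
  have hφl : φ l = 0 := (hφ.zero l).2 (Or.inl hl)
  have hδ : IsG Γ φ col l δ.1 := (NB_IsG_opp φ col).1 δ.2
  obtain ⟨t, ht⟩ : ∃ t, t = gtw (P.A a) P.T |φ l| (δ.1 (Γ.opp l)) (δ.1 l) := ⟨_, rfl⟩
  have hL : (loop Γ l).gop φ col (scl φ (P.A a) P.T P.ω) (Finsupp.single δ 1) =
      Finsupp.single δ (t * t) := by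
    show ((Step.cross l (Γ.opp l) false rfl).gop' Γ φ col (scl φ (P.A a) P.T P.ω))
      ((Step.cross l (Γ.opp l) true rfl).gop Γ φ col (scl φ (P.A a) P.T P.ω)
        (Finsupp.single δ 1)) = _
    rw [NB_cross, NB_pt_pos φ col hδ]
    have e1 : (Finsupp.single (⟨δ.1, hδ⟩ : GSt Γ φ col l)
        (if true = true then (scl φ (P.A a) P.T P.ω).tw l (δ.1 (Γ.opp l)) (δ.1 l)
          else (scl φ (P.A a) P.T P.ω).tw' l (δ.1 (Γ.opp l)) (δ.1 l)) :
          GSt Γ φ col l →₀ K) = t • Finsupp.single ⟨δ.1, hδ⟩ 1 := by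
      rw [if_pos rfl, Finsupp.smul_single, smul_eq_mul, mul_one, ht]
      rfl
    rw [e1, map_smul, NB_cross', if_neg (by simp)]
    have e2 : pt Γ φ col (Γ.opp l) (⟨δ.1, hδ⟩ : GSt Γ φ col l).1
        ((scl φ (P.A a) P.T P.ω).tw l ((⟨δ.1, hδ⟩ : GSt Γ φ col l).1 (Γ.opp l))
          ((⟨δ.1, hδ⟩ : GSt Γ φ col l).1 l)) = Finsupp.single δ t := by
      have e3 := NB_pt_self φ col δ ((scl φ (P.A a) P.T P.ω).tw l (δ.1 (Γ.opp l)) (δ.1 l))
      rw [ht]
      exact e3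
    rw [e2, Finsupp.smul_single, smul_eq_mul]
  have hD : dOp Γ φ col l (Finsupp.single δ 1) =
      Finsupp.single δ (if δ.1 l = δ.1 (Γ.opp l) + 1 then -(2 * (δ.1 (Γ.opp l) : ℚ))
        else 2 * (δ.1 (Γ.opp l) : ℚ) + 4) := by
    unfold dOp
    rw [Finsupp.linearCombination_single, one_smul]
  have hX : ((P.A a - 1)⁻¹ • ((loop Γ l).gop φ col (scl φ (P.A a) P.T P.ω) - LinearMap.id) :
      (GSt Γ φ col (Γ.opp l) →₀ K) →ₗ[K] (GSt Γ φ col (Γ.opp l) →₀ K))
      (Finsupp.single δ 1) = Finsupp.single δ ((P.A a - 1)⁻¹ * (t * t - 1)) := by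
    rw [LinearMap.smul_apply, LinearMap.sub_apply, hL, LinearMap.id_apply,
      ← Finsupp.single_sub, Finsupp.smul_single, smul_eq_mul]
  rw [hX, hD]
  refine ResN_single δ δ' ?_
  have key : ∀ n : ℤ, P.Res ((P.A a - 1)⁻¹ * (P.A a ^ n - 1)) n := by
    intro n
    obtain ⟨u, hu, hu2⟩ := (hC K P a ha 0 n).2.2.2.1
    rw [hu2, inv_mul_cancel_left₀ hA1]
    exact hu
  have ht2 : t = if δ.1 l = δ.1 (Γ.opp l) + 1 then P.A a ^ (-(δ.1 (Γ.opp l)))
      else -(P.A a ^ (δ.1 (Γ.opp l) + 2)) := by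
    rw [ht, hφl, abs_zero]
    unfold gtw
    simp
  by_cases hs : δ.1 l = δ.1 (Γ.opp l) + 1
  · rw [if_pos hs] at ht2 ⊢
    rw [ht2, ← zpow_add₀ hA0]
    have := key (-(δ.1 (Γ.opp l)) + -(δ.1 (Γ.opp l)))
    have e : (((-(δ.1 (Γ.opp l)) + -(δ.1 (Γ.opp l)) : ℤ)) : ℚ) = -(2 * (δ.1 (Γ.opp l) : ℚ)) := by
      push_cast
      ring
    rwa [e] at this
  · rw [if_neg hs] at ht2 ⊢
    rw [ht2, neg_mul_neg, ← zpow_add₀ hA0]
    have := key (δ.1 (Γ.opp l) + 2 + (δ.1 (Γ.opp l) + 2))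
    have e : (((δ.1 (Γ.opp l) + 2 + (δ.1 (Γ.opp l) + 2) : ℤ)) : ℚ) =
        2 * (δ.1 (Γ.opp l) : ℚ) + 4 := by
      push_cast
      ring
    rwa [e] at this

private theorem ResN_A (P : Place K) (a : ℕ) : P.Res (P.A a - 1) 0 := by
  have h1 : P.A a - 1 = a * P.ω ^ 5 := by
    unfold Place.A
    ring
  rw [h1]
  have h2 := NB_mul (NB_nat (P := P) a) (NB_pow (NB_om (P := P)) 5)
  simpa using h2

/-- `xOp` and changes of sign -/
private theorem ResN_xneg {l p : H} (E : List (ℤ × Path Γ p (Γ.opp l))) :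
    xOp Γ φ col l p (E.map fun x => (-x.1, x.2)) = -xOp Γ φ col l p E := by
  unfold xOp
  induction E with
  | nil => simp
  | cons x E ih =>
    rw [List.map_cons, List.map_cons, List.sum_cons, List.map_cons, List.sum_cons, ih, neg_add,
      Int.cast_neg]
    have e : ∀ (T : (GSt Γ φ col p →₀ ℚ) →ₗ[ℚ] (GSt Γ φ col p →₀ ℚ)) (c : ℚ),
        (-c) • T = -(c • T) := fun T c => LinearMap.ext fun v => by
      rw [LinearMap.smul_apply, LinearMap.neg_apply, LinearMap.smul_apply, neg_smul]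
    rw [e]

private theorem ResN_xapp {l p : H} (E E' : List (ℤ × Path Γ p (Γ.opp l))) :
    xOp Γ φ col l p (E ++ E') = xOp Γ φ col l p E + xOp Γ φ col l p E' := by
  unfold xOp
  rw [List.map_append, List.sum_append]

private theorem ResN_main (hC : St_Cur) (hT : St_PathR) (hG : St_GRel1) (hφ : IsFlow Γ φ)
    (l : H) (hl : Γ.nxt l = l) (p : H) (γ : Path Γ p p) (hγ : NullL Γ l γ) :
    ∃ E : List (ℤ × Path Γ p (Γ.opp l)), ∀ (K : Type) [Field K] (P : Place K) (a : ℕ), 1 ≤ a →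
      ResN_IR P ((P.A a - 1)⁻¹ • (γ.gop φ col (scl φ (P.A a) P.T P.ω) - LinearMap.id))
        (xOp Γ φ col l p E) := by
  induction hγ with
  | nil =>
    refine ⟨[], fun K _ P a ha => ?_⟩
    intro i j
    have h1 : ((P.A a - 1)⁻¹ • ((Path.nil : Path Γ p p).gop φ col (scl φ (P.A a) P.T P.ω) -
        LinearMap.id)) = (0 : (GSt Γ φ col p →₀ K) →ₗ[K] (GSt Γ φ col p →₀ K)) := by
      refine LinearMap.ext fun v => ?_
      show (P.A a - 1)⁻¹ • (v - v) = 0
      rw [sub_self, smul_zero]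
    have h2 : xOp Γ φ col l p [] = 0 := rfl
    rw [h1, h2]
    exact NB_zero
  | loop w =>
    refine ⟨[(1, w)], fun K _ P a ha => ?_⟩
    have hn := (hC K P a ha 0 0).2.2.2.2.2
    have hinv := ResN_inv (col := col) hT hG hφ hn P.hω0 w
    have h1 : ((P.A a - 1)⁻¹ • (((w.append (loop Γ l)).append w.inv).gop φ col
        (scl φ (P.A a) P.T P.ω) - LinearMap.id)) =
        (w.inv.gop φ col (scl φ (P.A a) P.T P.ω)).comp
          (((P.A a - 1)⁻¹ • ((loop Γ l).gop φ col (scl φ (P.A a) P.T P.ω) - LinearMap.id)).comp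
            (w.gop φ col (scl φ (P.A a) P.T P.ω))) := by
      rw [NB_append, NB_append]
      refine LinearMap.ext fun v => ?_
      have h2 := LinearMap.congr_fun hinv v
      rw [LinearMap.comp_apply, LinearMap.id_apply] at h2
      simp only [LinearMap.smul_apply, LinearMap.sub_apply, LinearMap.comp_apply,
        LinearMap.id_apply, map_smul, map_sub]
      rw [h2]
    have h3 : xOp Γ φ col l p [(1, w)] = (w.inv.gop φ col (rsd φ)).comp
        ((dOp Γ φ col l).comp (w.gop φ col (rsd φ))) := by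
      unfold xOp
      rw [List.map_cons, List.map_nil, List.sum_singleton, Int.cast_one, one_smul]
    rw [h1, h3]
    exact ResN_comp (fun δ δ' => (hT H Γ φ hφ col _ _ w.inv).1 K P a ha δ δ')
      (ResN_comp (ResN_loop hC hφ P ha hl) (fun δ δ' => (hT H Γ φ hφ col _ _ w).1 K P a ha δ δ'))
  | @mul u v hu hv ihu ihv =>
    obtain ⟨Eu, hEu⟩ := ihu
    obtain ⟨Ev, hEv⟩ := ihv
    refine ⟨Ev ++ Eu, fun K _ P a ha => ?_⟩
    have hA1 : P.A a - 1 ≠ 0 := (hC K P a ha 0 0).2.2.2.2.1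
    have hU : ResN_IR P (u.gop φ col (scl φ (P.A a) P.T P.ω)) LinearMap.id := by
      have h1 := ResN_add (ResN_id (P := P)) (ResN_smul (ResN_A P a) (hEu K P a ha))
      rw [smul_smul, mul_inv_cancel₀ hA1, one_smul, zero_smul, add_zero, ResN_addsub] at h1
      exact h1
    have h1 : ((P.A a - 1)⁻¹ • ((u.append v).gop φ col (scl φ (P.A a) P.T P.ω) -
        LinearMap.id)) =
        ((P.A a - 1)⁻¹ • (v.gop φ col (scl φ (P.A a) P.T P.ω) - LinearMap.id)).comp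
          (u.gop φ col (scl φ (P.A a) P.T P.ω)) +
        (P.A a - 1)⁻¹ • (u.gop φ col (scl φ (P.A a) P.T P.ω) - LinearMap.id) := by
      rw [NB_append]
      refine LinearMap.ext fun x => ?_
      simp only [LinearMap.smul_apply, LinearMap.sub_apply, LinearMap.comp_apply,
        LinearMap.id_apply, LinearMap.add_apply, smul_sub]
      abel
    rw [h1, ResN_xapp]
    have h2 := ResN_comp (hEv K P a ha) hU
    rw [LinearMap.comp_id] at h2
    exact ResN_add h2 (hEu K P a ha)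
  | @inv u hu ihu =>
    obtain ⟨Eu, hEu⟩ := ihu
    refine ⟨Eu.map fun x => (-x.1, x.2), fun K _ P a ha => ?_⟩
    have hn := (hC K P a ha 0 0).2.2.2.2.2
    have hA1 : P.A a - 1 ≠ 0 := (hC K P a ha 0 0).2.2.2.2.1
    have hinv := ResN_inv (col := col) hT hG hφ hn P.hω0 u
    have h1 : ((P.A a - 1)⁻¹ • (u.inv.gop φ col (scl φ (P.A a) P.T P.ω) - LinearMap.id)) =
        -((u.inv.gop φ col (scl φ (P.A a) P.T P.ω)).comp
          ((P.A a - 1)⁻¹ • (u.gop φ col (scl φ (P.A a) P.T P.ω) - LinearMap.id))) := by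
      refine LinearMap.ext fun x => ?_
      have h2 := LinearMap.congr_fun hinv x
      rw [LinearMap.comp_apply, LinearMap.id_apply] at h2
      simp only [LinearMap.smul_apply, LinearMap.sub_apply, LinearMap.comp_apply,
        LinearMap.id_apply, LinearMap.neg_apply, map_smul, map_sub]
      rw [h2, ← smul_neg, neg_sub]
    have hI : ResN_IR P (u.inv.gop φ col (scl φ (P.A a) P.T P.ω)) (u.inv.gop φ col (rsd φ)) :=
      fun δ δ' => (hT H Γ φ hφ col _ _ u.inv).1 K P a ha δ δ'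
    have h3 := ResN_neg (ResN_comp hI (hEu K P a ha))
    rw [← h1] at h3
    have hU : ResN_IR P (u.inv.gop φ col (scl φ (P.A a) P.T P.ω)) LinearMap.id := by
      have h4 := ResN_add (ResN_id (P := P)) (ResN_smul (ResN_A P a) h3)
      rw [smul_smul, mul_inv_cancel₀ hA1, one_smul, zero_smul, add_zero, ResN_addsub] at h4
      exact h4
    have h5 := ResN_neg (ResN_comp hU (hEu K P a ha))
    rw [← h1, LinearMap.id_comp] at h5
    rw [ResN_xneg]
    exact h5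

end

/-- **ResN** -/
theorem thm_ResN (hC : St_Cur) (hT : St_PathR) (hG : St_GRel1) : St_ResN := by
  intro H _ Γ φ hφ col l hl p γ hγ
  obtain ⟨E, hE⟩ := ResN_main (col := col) hC hT hG hφ l hl p γ hγ
  refine ⟨E, fun K _ P a ha δ δ' => ?_⟩
  have h := hE K P a ha δ δ'
  rw [LinearMap.smul_apply, LinearMap.sub_apply, LinearMap.id_apply, Finsupp.smul_apply,
    Finsupp.sub_apply, smul_eq_mul] at h
  rw [div_eq_inv_mul]
  exact h

end Pool.Agent.AMS
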