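import Pool.Agent.AMS.Defs

/-!
# Internal definitions and the statements of the modules

Paper proof: team-store AMS_paper.md. Every module file proves `thm_X : St_X` from earlier
statements taken as hypotheses, as indicated by its offer.
-/

namespace Pool.Agent.AMS

section

variable {H : Type} (Γ : Fat H)

/-- The primitive `4r`-th root of unity closest to `1`. -/
noncomputable def A0 (r : ℕ) : ℂ := Complex.exp (2 * Real.pi * Complex.I / (4 * r))

/-- The position on the side `+` (`true`) or `-` of the half edge `a`. -/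
def pos (a : H) : Bool → H
  | true => a
  | false => Γ.opp a

/-- Reduced paths from the leaf `l`. Indices: the half edge `a` at which the leg arrived at its
present edge (after the last turn), the side, and the number `k` of signed half twists since then
(`up`: a positive half twist, `dn`: a negative one). A turn is a bounce if it leaves the edge at
the half edge `a` where it came in (`ccw` with side `+`, `cw` with side `-`); a bounce is only
allowed after at least two half twists. -/
inductive Red (l : H) : H → Bool → ℤ → Type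
  | base : Red l l true 0
  | up {a : H} {σ : Bool} {k : ℤ} (w : Red l a σ k) (hk : 0 ≤ k) : Red l a (!σ) (k + 1)
  | dn {a : H} {σ : Bool} {k : ℤ} (w : Red l a σ k) (hk : k ≤ 0) : Red l a (!σ) (k - 1)
  | ccw {a : H} {σ : Bool} {k : ℤ} (w : Red l a σ k) (hl : Γ.nxt (pos Γ a σ) ≠ pos Γ a σ)
      (hb : σ = true → 2 ≤ |k|) : Red l (Γ.nxt (pos Γ a σ)) false 0
  | cw {a b : H} {σ : Bool} {k : ℤ} (w : Red l a σ k) (hq : pos Γ a σ = Γ.opp (Γ.nxt b))
      (hl : Γ.nxt b ≠ b) (hb : σ = false → 2 ≤ |k|) : Red l b true 0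

variable {Γ}

/-- The path of a reduced path. -/
def Red.path {l : H} : {a : H} → {σ : Bool} → {k : ℤ} → Red Γ l a σ k → Path Γ l (pos Γ a σ)
  | _, _, _, .base => .nil
  | _, _, _, .up (a := a) (σ := false) w _ => w.path.fwd (.cross a _ true rfl)
  | _, _, _, .up (a := a) (σ := true) w _ => w.path.bwd (.cross a _ false rfl)
  | _, _, _, .dn (a := a) (σ := false) w _ => w.path.fwd (.cross a _ false rfl)
  | _, _, _, .dn (a := a) (σ := true) w _ => w.path.bwd (.cross a _ true rfl)
  | _, _, _, .ccw w hl _ => w.path.fwd (.turn _ _ hl rfl)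
  | _, _, _, .cw w hq hl _ => w.path.bwd (.turn _ _ hl hq)

/-- The number of turns. -/
def Red.len {l : H} : {a : H} → {σ : Bool} → {k : ℤ} → Red Γ l a σ k → ℕ
  | _, _, _, .base => 0
  | _, _, _, .up w _ => w.len
  | _, _, _, .dn w _ => w.len
  | _, _, _, .ccw w _ _ => w.len + 1
  | _, _, _, .cw w _ _ _ => w.len + 1

open Classical in
/-- Add `1` on the edge of `a`. -/
noncomputable def bump (Γ : Fat H) (a : H) (ν : H → ℕ) : H → ℕ :=
  fun h => if h = a ∨ h = Γ.opp a then ν h + 1 else ν h

/-- The number of times each edge has been traversed. -/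
noncomputable def Red.nu {l : H} : {a : H} → {σ : Bool} → {k : ℤ} → Red Γ l a σ k → H → ℕ
  | _, _, _, .base => fun _ => 0
  | _, _, _, .up w _ => w.nu
  | _, _, _, .dn w _ => w.nu
  | _, _, _, .ccw (a := a) (σ := σ) w _ _ => if σ then w.nu else bump Γ a w.nu
  | _, _, _, .cw (a := a) (σ := σ) w _ _ _ => if σ then bump Γ a w.nu else w.nu

/-- Transfer of the pair of amplitudes (signs `+`, `-` at the present edge) under a turn from an
edge coloured `x` to an edge coloured `y`, third edge `z`; at a traversed edge only the sign `+`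
is kept. -/
def tr {K : Type} [Field K] (A : K) (bounce : Bool) (x y z : ℕ) (p : K × K) : K × K :=
  if bounce then
    (p.1 * coef A x (x + 1) y (y + 1) z + p.2 * coef A x (x - 1) y (y + 1) z,
      p.1 * coef A x (x + 1) y (y - 1) z + p.2 * coef A x (x - 1) y (y - 1) z)
  else (p.1 * coef A x (x - 1) y (y + 1) z, p.1 * coef A x (x - 1) y (y - 1) z)

/-- The amplitudes of the extremal states: `t` is the colour of the leaves (`t + 1` at the base
leaf) and of all edges at the start. -/
noncomputable def Red.alpha {K : Type} [Field K] (t : ℕ) (A : K) {l : H} :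
    {a : H} → {σ : Bool} → {k : ℤ} → Red Γ l a σ k → K × K
  | _, _, _, .base => (1, 0)
  | _, _, _, .up (a := a) w _ =>
      ((w.alpha t A).1 * tw A (t + w.nu a) (t + w.nu a + 1),
        (w.alpha t A).2 * tw A (t + w.nu a) (t + w.nu a - 1))
  | _, _, _, .dn (a := a) w _ =>
      ((w.alpha t A).1 * (tw A (t + w.nu a) (t + w.nu a + 1))⁻¹,
        (w.alpha t A).2 * (tw A (t + w.nu a) (t + w.nu a - 1))⁻¹)
  | _, _, _, .ccw (a := a) (σ := σ) w hl hb =>
      tr A σ (t + (Red.ccw w hl hb).nu (pos Γ a σ)) (t + (Red.ccw w hl hb).nu (Γ.nxt (pos Γ a σ)))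
        (t + (Red.ccw w hl hb).nu (Γ.nxt (Γ.nxt (pos Γ a σ)))) (w.alpha t A)
  | _, _, _, .cw (b := b) (σ := σ) w hq hl hb =>
      tr A (!σ) (t + (Red.cw w hq hl hb).nu (Γ.nxt b)) (t + (Red.cw w hq hl hb).nu b)
        (t + (Red.cw w hq hl hb).nu (Γ.nxt (Γ.nxt b))) (w.alpha t A)

open Classical in
/-- The colours at the leaves. -/
noncomputable def colour (l : H) (t : ℕ) : H → ℕ := fun h => if h = l then t + 1 else t

open Classical in
/-- The extremal state with sign `+` (`s = true`) or `-` at the arrival half edge. -/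
noncomputable def Red.ext {l a : H} {σ : Bool} {k : ℤ} (w : Red Γ l a σ k) (t : ℕ) (s : Bool) :
    H → ℕ :=
  fun h => if h = a then (if s then t + w.nu a + 1 else t + w.nu a - 1) else t + w.nu h

variable (Γ)

/-- A weight for which all moves are unitary at `A0 r`. -/
def IsW [Finite H] (r : ℕ) (col : H → ℕ) (W : (H → ℕ) → ℝ) : Prop :=
  (∀ (p : H) (c : St Γ r col p), 0 < W c.1) ∧
    ∀ (q t : H) (s : Step Γ q t) (c : St Γ r col q) (c' : St Γ r col t),
      (starRingEnd ℂ) (s.mat Γ r col (A0 r) c' c) * (W c'.1 : ℂ) =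
        s.mat' Γ r col (A0 r) c c' * (W c.1 : ℂ)

/-- The weighted norm. -/
noncomputable def nrm [Finite H] {r : ℕ} {col : H → ℕ} {p : H} (W : (H → ℕ) → ℝ)
    (v : St Γ r col p → ℂ) : ℝ := Real.sqrt (∑ c : St Γ r col p, W c.1 * ‖v c‖ ^ 2)

end

/-! ## Part I: the operators -/

/-- (INV) At a primitive `4r`-th root of unity `mat'` is the two-sided inverse of `mat`.

Proof. `cross`: diagonal matrices, `tw A _ _ ≠ 0`. `turn h q`: write `x = c (opp h)`, `x' = c h`,
`y = c (nxt h)`, `z = c (nxt (nxt h))` for `c : St h` (so `x' = x ± 1` by `IsSt`), and `y' = c' (nxt h)`,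
`c' h = x`, `c' (opp (nxt h)) = y` for `c'` adjacent to `c` (`y' = y ± 1`). The condition in `mat` and the
one in `mat'` are equivalent (both say that `c` and `c'` agree off `{h, nxt h}`, and `c' h = c (opp h)`,
`c (nxt h) = c' (opp (nxt h))`; use `IsSt` of `c` and `c'`; the loop cases `opp h = nxt h` or `opp (nxt h) = h` are
no problem: then `y = c (nxt h) = c (opp h) = x`). Entry `(c₁, c)` of `mat' * mat`: the sum over `c'` has at most the two
terms `y' = y + 1`, `y' = y - 1`, and it is `0` unless `c₁` agrees with `c` off `h`. The 2x2 identity: with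
`a = {x-y+z+1}`, `b = {x+y-z+1}`, `e = {x+y+z+3}`, `d = {y-x+z+1}`, `X = {2x+2}`, `Y = {2y+2}` one has `a d + b e = X Y`
(expand) and the matrices [[a/X, 1],[b e/(X Y), -d/Y]] and [[d/Y, 1],[b e/(X Y), -a/X]] are inverse to each other
(`X, Y ≠ 0` since `0 < x + 1, y + 1 < r`). Walls: if one of the two `c'` is not a state (not admissible), its term in the
sum would be zero anyway: the four walls are z = x+y+1 (b = 0, only x' = x+1, y' = y+1), y = x+z+1 (a = 0, only x' = x+1,
y' = y-1), x = y+z+1 (d = 0, only x' = x-1, y' = y+1), x+y+z+3 = 2r (e = 0 as `A^(4r) = 1`, only x' = x-1, y' = y-1); in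
each case the product of the two coefficients through the missing state vanishes (at the last wall the coefficient 1 from
x' = x-1 to the missing y' = y+1 is not zero, but the one back, b e/(X Y), is). -/
def St_Inv : Prop :=
  ∀ (H : Type) [Finite H] (Γ : Fat H) (r : ℕ) (_ : 2 ≤ r) (col : H → ℕ) (A : ℂ)
    (_ : IsPrimitiveRoot A (4 * r)) (q t : H) (s : Step Γ q t),
    s.mat' Γ r col A * s.mat Γ r col A = 1 ∧ s.mat Γ r col A * s.mat' Γ r col A = 1

/-- (VRT) The relation at a vertex.

Proof. By (INV) it is enough to show `T₂ G₂ T₁ = u G₃⁻¹ T₃⁻¹ G₁⁻¹` (`Tᵢ` the turn matrices, `Gᵢ` the cross matrices,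
`u = -A^3` if `b`, else `-A^(-3)`), as matrices from `St h₁` to `St (opp h₃)` (note `q = opp h₁ = opp (nxt h₃)`, so
`h₂ = nxt h₁`, `h₃ = nxt h₂`, `h₁ = nxt h₃`). Entries: with outer colours `x, y, z` at `h₁, h₂, h₃` and `x' = x ± 1`, `z' = z ± 1`:
sum over `y' = y ± 1` of coef(y,y',z,z',x) g(y,y') coef(x,x',y,y',z) = u g(z,z')⁻¹ coef(x,x',z,z',y) g(x,x')⁻¹,
g = tw or its inverse: four identities between Laurent polynomials in A^x, A^y, A^z, A after clearing the denominators
(checked numerically). Missing (not admissible) intermediate states contribute zero as in (INV): at each wall one of the two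
coefficients through the missing state is zero. (Both sides are only taken between states.) -/
def St_Vert : Prop :=
  ∀ (H : Type) [Finite H] (Γ : Fat H) (r : ℕ) (_ : 2 ≤ r) (col : H → ℕ) (A : ℂ)
    (_ : IsPrimitiveRoot A (4 * r)) (b : Bool) (q h₁ h₂ h₃ q₁ q₂ : H) (e₁ : q = Γ.opp h₁)
    (l₁ : Γ.nxt h₁ ≠ h₁) (t₁ : q₁ = Γ.opp (Γ.nxt h₁)) (e₂ : q₁ = Γ.opp h₂) (l₂ : Γ.nxt h₂ ≠ h₂)
    (t₂ : q₂ = Γ.opp (Γ.nxt h₂)) (e₃ : q₂ = Γ.opp h₃) (l₃ : Γ.nxt h₃ ≠ h₃)
    (t₃ : q = Γ.opp (Γ.nxt h₃)),
    (Step.turn h₃ q l₃ t₃).mat Γ r col A * ((Step.cross h₃ q₂ b e₃).mat Γ r col A *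
      ((Step.turn h₂ q₂ l₂ t₂).mat Γ r col A * ((Step.cross h₂ q₁ b e₂).mat Γ r col A *
        ((Step.turn h₁ q₁ l₁ t₁).mat Γ r col A * (Step.cross h₁ q b e₁).mat Γ r col A)))) =
      (if b then -A ^ 3 else -(A ^ 3)⁻¹) • 1

/-- (APP) Composition, and inverse paths give inverse matrices.

Proof. Induction on the second path; `mat w.inv` by induction from (INV) and the first part. -/
def St_App : Prop :=
  (∀ (K : Type) [Field K] (H : Type) [Finite H] (Γ : Fat H) (r : ℕ) (col : H → ℕ) (A : K)
    (p q t : H) (w : Path Γ p q) (v : Path Γ q t),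
    (w.append v).mat Γ r col A = v.mat Γ r col A * w.mat Γ r col A) ∧
  ∀ (H : Type) [Finite H] (Γ : Fat H) (r : ℕ) (_ : 2 ≤ r) (col : H → ℕ) (A : ℂ)
    (_ : IsPrimitiveRoot A (4 * r)) (p q : H) (w : Path Γ p q),
    w.inv.mat Γ r col A * w.mat Γ r col A = 1 ∧ w.mat Γ r col A * w.inv.mat Γ r col A = 1

/-- (HOM) Homotopic paths have proportional matrices.

Proof. Induction on `Hom`: `fwd_bwd`, `bwd_fwd` by (INV); `vertex` by (VRT); `opp`: the matrices of `cross h q b` and
`cross q h b` are diagonal with entries `tw A (c (opp h)) (c h)` and `tw A (c h) (c (opp h))` (`opp q = h`), whose product is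
`-A^3` in both cases (`A^(-x) * (-A^(x+3)) `), or the inverses. -/
def St_Hom : Prop :=
  ∀ (H : Type) [Finite H] (Γ : Fat H) (r : ℕ) (_ : 2 ≤ r) (col : H → ℕ) (A : ℂ)
    (_ : IsPrimitiveRoot A (4 * r)) (p q : H) (w v : Path Γ p q), Hom Γ w v →
    ∃ u : ℂ, u ≠ 0 ∧ w.mat Γ r col A = u • v.mat Γ r col A

/-- (BAL) There is a weight for which all moves are unitary.

Proof. Put `sn n = sin (π n / r)`, positive for `0 < n < r`; `cur (A0 r) (2 n) = 2 i sn n`. All the arguments of `cur` in
`coef` are even (x + y + z is odd), so at `A0 r` (x' = x+1, y' = y+1): sn((x-y+z+1)/2)/sn(x+1); (+,-): sn((x+y-z+1)/2)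
sn((x+y+z+3)/2)/(sn(x+1) sn(y+1)); (-,+): 1; (-,-): -sn((y-x+z+1)/2)/sn(y+1): real numbers.
`sf n = sn 1 * ... * sn n`, theta(a,b,c) = sf(s+1) sf(s-a) sf(s-b) sf(s-c)/(sf a sf b sf c), s = (a+b+c)/2 (positive and
symmetric for admissible triples). Weight: log W(c) = (1/3) * sum over the half edges h with nxt h <> h of
log theta(c h, c (nxt h), c (nxt (nxt h))) - (1/2) * sum over all h of log sn(min (c h) (c (opp h)) + 1); W := exp of it.
`cross`: c' = c as functions, `mat'` is the conjugate of `mat` since |tw (A0 r)| = 1. `turn`: for adjacent c, c' (else both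
sides vanish; see (INV) for the equivalence of the two conditions) only the values at h (x' -> x) and nxt h (y -> y') change, so
W(c')/W(c) = theta(x,y',z)/theta(x',y,z) * sn(min(x,x')+1) sn(y+1)/(sn(x+1) sn(min(y,y')+1))
(three equal vertex terms; the edge terms of h, opp h and nxt h, opp (nxt h); also correct if opp h = nxt h etc.). With
a = sn((x-y+z+1)/2), b = sn((x+y-z+1)/2), e = sn((x+y+z+3)/2), d = sn((y-x+z+1)/2), X = sn(x+1), Y = sn(y+1) this gives
W(c')/W(c) = dX/(aY) for (+,+), XY/(be) for (+,-), be/(XY) for (-,+), aY/(dX) for (-,-), which is the claim: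
coef(x,x',y,y',z) W(c') = coef(y,y',x,x',z) W(c). (Checked numerically.) -/
def St_Bal : Prop :=
  ∀ (H : Type) [Finite H] (Γ : Fat H) (r : ℕ) (_ : 2 ≤ r) (col : H → ℕ),
    ∃ W : (H → ℕ) → ℝ, IsW Γ r col W

/-- (ISO) The matrix of a path preserves the weighted norm.

Proof. For a step `s`: by `IsW`, `(s.mat)ᴴ W' = W (s.mat')` (diagonal matrices W, W'), so `(s.mat)ᴴ W' (s.mat) = W` by (INV);
hence nrm (s.mat v) = nrm v; and for `s.mat'` by (INV) as well (`v = s.mat (s.mat' v)`). Induction on the path.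
(`A0 r` is a primitive `4r`-th root: `Complex.isPrimitiveRoot_exp`.) -/
def St_Iso : Prop :=
  ∀ (H : Type) [Finite H] (Γ : Fat H) (r : ℕ) (_ : 2 ≤ r) (col : H → ℕ) (W : (H → ℕ) → ℝ)
    (_ : IsW Γ r col W) (p q : H) (w : Path Γ p q) (v : St Γ r col p → ℂ),
    nrm Γ W ((w.mat Γ r col (A0 r)).mulVec v) = nrm Γ W v

/-- (NEAR) Elements of `Null` are `O(1/r)`-close to `1`, products of their commutators `O(1/r²)`.

Proof. `nrm` is a norm (embed `v` as `c ↦ sqrt (W c) * v c` into `EuclideanSpace`; triangle inequality). Write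
near(U, e): nrm (U v - v) ≤ e * nrm v for all v. Matrices of paths preserve nrm (ISO). Leaf loop at `l`, position `opp l`: the
matrix is diagonal with entries tw^2, tw = tw A0 x (col l), x = c (opp l) = col l ± 1, so tw^2 is A0^m with |m| ≤ 2 col l + 8 (x =
col l - 1: A0^(-2x); x = col l + 1: A0^(2x+4)), and |A0^m - 1| ≤ 2π|m|/(4r). Conjugation by a path: near(M⁻¹UM, e) from
near(U, e) (APP). Products: near(UV, e + e'). Inverse: near(U⁻¹, e). Commutators:
UVU⁻¹V⁻¹ - 1 = ((U-1)(V-1) - (V-1)(U-1)) U⁻¹V⁻¹, so near(., 2 e e'). The constants do not depend on r. -/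
def St_Near : Prop :=
  ∀ (H : Type) [Finite H] (Γ : Fat H) (col : H → ℕ) (p : H) (f : Path Γ p p), Comm Γ f →
    ∃ C : ℝ, ∀ (r : ℕ) (_ : 2 ≤ r) (W : (H → ℕ) → ℝ) (_ : IsW Γ r col W) (v : St Γ r col p → ℂ),
      nrm Γ W ((f.mat Γ r col (A0 r)).mulVec v - v) ≤ C / (r : ℝ) ^ 2 * nrm Γ W v

/-- (GAL) Galois conjugation.

Proof. For a field homomorphism φ : K → K' one has mat (φ A) = (mat A).map φ (induction on the path; coef, tw, cur are
rational expressions). First part: K = the subfield ℚ(A) of ℂ (or `CyclotomicField (4 * r) ℚ` with two embeddings sending the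
generator to A and to A'); z is an entry of the matrix, so in K (if the space is zero everything is trivial).
Second part: L = 4 r m, a primitive L-th root ζ in ℂ, K = `CyclotomicField L ℚ` (or ℚ(ζ) in ℂ), A = ζ^i, lam = ζ^j
(`IsPrimitiveRoot.eq_pow_of_pow_eq_one`), automorphism ζ ↦ ζ^s (s prime to L; `IsCyclotomicExtension.autEquivPow`): it fixes
A because s ≡ 1 mod 4r and maps lam to lam^s; det (mat - lam) = 0 is preserved. -/
def St_Gal : Prop :=
  (∀ (H : Type) [Finite H] (Γ : Fat H) (r : ℕ) (_ : 2 ≤ r) (col : H → ℕ) (A A' : ℂ)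
    (_ : IsPrimitiveRoot A (4 * r)) (_ : IsPrimitiveRoot A' (4 * r)) (p : H) (f : Path Γ p p)
    (n : ℕ) (z : ℂ), f.mat Γ r col A ^ n = z • 1 →
    ∃ z' : ℂ, f.mat Γ r col A' ^ n = z' • 1 ∧ (z = 1 → z' = 1)) ∧
  ∀ (H : Type) [Finite H] (Γ : Fat H) (r : ℕ) (_ : 2 ≤ r) (col : H → ℕ) (A : ℂ)
    (_ : IsPrimitiveRoot A (4 * r)) (p : H) (f : Path Γ p p) (m : ℕ) (_ : 0 < m) (lam : ℂ)
    (_ : lam ^ m = 1) (_ : (f.mat Γ r col A - lam • 1).det = 0) (s : ℕ)
    (_ : Nat.Coprime s (4 * r * m)) (_ : s ≡ 1 [MOD 4 * r]),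
    (f.mat Γ r col A - lam ^ s • 1).det = 0

/-- (ARI) A root of unity all of whose conjugates over `ℚ(A)` are close to `1` is a power of `A`.

Proof. Let M be the order of lam, q the order of lam^(4r); suppose q > 1, p a prime dividing q (p divides M).
For j in ℕ put s = 1 + 4 r (q/p) j. lam^(s-1) = (lam^(4r(q/p)))^j, and w := lam^(4r(q/p)) is a primitive p-th root of unity.
Claim: s is prime to 4 r M except perhaps for one residue class of j mod p, and if there is an exception then p is odd: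
a prime l dividing s and 4rM does not divide 4r (s ≡ 1), so it divides M and hence q (M divides 4 r q); if l ≠ p then l divides
q/p, so s ≡ 1 mod l, contradiction; so l = p, p does not divide 4r (p odd), p does not divide q/p, and
1 + 4r(q/p) j ≡ 0 mod p determines j mod p. We need s prime to 4rm: as m is a multiple of M it may have more primes, so
first replace j by a larger number with the same residue mod p: by the Chinese remainder theorem choose j ≡ j₀ mod p and
j ≡ 0 mod l for all other primes l of 4 r m (then s ≡ 1 mod l). Choice of j₀: w = exp(2 π i k'/p) with k' prime to p. p = 2: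
j₀ = 1, ‖w - 1‖ = 2. p odd: the two residues j with k' j ≡ (p-1)/2 and k' j ≡ (p+1)/2 mod p are different, take one that is not
exceptional: ‖w^j - 1‖ = 2 sin(π (p ± 1)/(2p)) = 2 cos(π/(2p)) ≥ √3 > 1. But s and 1 are both
allowed, so ‖lam^s - lam‖ ≤ 1: contradiction. -/
def St_Arith : Prop :=
  ∀ (r : ℕ) (_ : 0 < r) (m : ℕ) (_ : 0 < m) (lam : ℂ) (_ : lam ^ m = 1)
    (_ : ∀ s : ℕ, Nat.Coprime s (4 * r * m) → s ≡ 1 [MOD 4 * r] → ‖lam ^ s - 1‖ ≤ 1 / 2),
    lam ^ (4 * r) = 1

/-- (DICH) For products of commutators: identity or infinite projective order.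

Proof (from BAL, ISO (nrm v > 0 for v ≠ 0 is immediate), NEAR, GAL, ARI, APP). Take r ≥ r₀ with C / r^2 ≤ 1/2 and C < r.
Suppose mat_A f ^ n = z • 1 for some A, n > 0, z. By (GAL) U = mat f at A0 has U^n = z' • 1. If the space is zero, mat_A f = 1
trivially. Else det U = 1 (APP: `f` is a product of commutators of closed paths, induction on `Comm`), so z' is a root of unity:
z' ^ d = det (U^n) = 1, d the dimension. Every eigenvalue lam of U satisfies lam^(n d) = 1 and ‖lam - 1‖ ≤ C/r^2 (an eigenvector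
v: U v - v = (lam - 1) v; (NEAR), nrm v > 0). For s as in (ARI) lam^s is an eigenvalue too (GAL), so (ARI) gives
lam^(4r) = 1, lam = A0^j, and if lam ≠ 1 then ‖lam - 1‖ ≥ ‖A0 - 1‖ = 2 sin(π/(4r)) ≥ 1/r > C/r^2. So all eigenvalues are 1. Then
z' = 1 and U^n = 1 with all eigenvalues 1: (X^n - 1) = (X - 1) Q, Q(1) = n, Q(U) has the only eigenvalue n (det Q(U) ≠ 0:
e.g. if det Q(U) = 0 then Q(U) v = 0 for some v ≠ 0, the span of the U^i v contains an eigenvector w of U with Q(U) w = 0, but
Q(U) w = n w), so U = 1. By (GAL) (with n = 1, z = 1) mat_A f = 1. -/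
def St_Dich : Prop :=
  ∀ (H : Type) [Finite H] (Γ : Fat H) (col : H → ℕ) (p : H) (f : Path Γ p p), Comm Γ f →
    ∃ r₀ : ℕ, ∀ r ≥ r₀, ∀ A : ℂ, IsPrimitiveRoot A (4 * r) →
      f.mat Γ r col A = 1 ∨ ∀ n : ℕ, 0 < n → ∀ z : ℂ, f.mat Γ r col A ^ n ≠ z • 1

/-! ## Part II: non-triviality -/

/-- (RED) Every path from a leaf is homotopic to a reduced path.

Proof. Induction on the path: enough is: for ρ : Red a σ k and one more move (forward or backward) out of `pos a σ`
there is a reduced ρ' ; induction on the number of turns of ρ.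
Crossing moves: by `Hom.opp` (and cancellation) `fwd (cross h q b)` and `bwd (cross q h b)` are homotopic, so the
move is `up` or `dn` (σ = false: fwd (cross a _ b), b = true up, b = false dn; σ = true: bwd (cross a _ b), b = false up,
b = true dn). `up` with k ≥ 0 and `dn` with k ≤ 0 are constructors; `up` with k < 0 cancels: ρ is then `dn ρ₀`, and the result
is ρ₀; similarly `dn` with k > 0.
fwd (turn q₀), q₀ = pos a σ: if σ = false, or |k| ≥ 2: constructor `ccw`. Let σ = true, |k| ≤ 1. k = 0: ρ is `cw ρ₁` (not `base`,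
since l is a leaf; the other constructors have σ = false or k ≠ 0), the turn cancels: ρ₁. k = ±1: ρ = `up ρ₀` or `dn ρ₀` with
σ₀ = false, k₀ = 0, so ρ₀ = `ccw ρ₁`, d := pos a₁ σ₁, a = nxt d, c := nxt a, nxt c = d; the path is ρ₁ . turn d . cross a b .
turn a, and by `Hom.vertex` turn d . cross a b . turn a ~ (cross d b)⁻¹ . (turn c)⁻¹ . (cross c b)⁻¹. So: one crossing move
applied to ρ₁ (same number of turns as ρ₁), then bwd (turn c) (induction hypothesis), then a crossing move.
bwd (turn h q₀), q₀ = opp (nxt h) = pos a σ: if σ = true or |k| ≥ 2: constructor `cw`. Let σ = false, |k| ≤ 1; then nxt h = a.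
k = 0: ρ = `ccw ρ₁`, h = pos a₁ σ₁: cancels. k = ±1: ρ₀ has σ₀ = true, k₀ = 0: not `base` (else nxt h = l, h = l,
contradiction to hl), so ρ₀ = `cw ρ₁`: the path is ρ₁ . (turn a)⁻¹ . (cross a b)⁻¹ . (turn h)⁻¹ ~ ρ₁ . cross c b . turn c . cross h b
with c = nxt a, nxt c = h; conclude as before. -/
def St_Redn : Prop :=
  ∀ (H : Type) (Γ : Fat H) (l : H) (_ : Γ.nxt l = l) (q : H) (w : Path Γ l q),
    ∃ (a : H) (σ : Bool) (k : ℤ) (ρ : Red Γ l a σ k) (e : pos Γ a σ = q), Hom Γ w (e ▸ ρ.path)

/-- (EXS) The extremal states are states.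

Proof. Induction on ρ; for sign `-` only if the arrival half edge is not a leaf (that is, after at least one turn). All
colours lie between t - 1 and t + len + 1, so the triangle inequalities and the level condition are clear; parity: a move
preserves it (at the vertex of the turn x' + y + z and x + y' + z have the same parity). Show along the induction:
nu is constant on edges (nu (opp h) = nu h), nu ≤ len, nu vanishes on the leaves other than l and is ≤ 1 ... on l: after
the first turn nu l = nu (opp l) = 1 for ever, because a leaf is never left at its outer end (`hl`); so the colours at the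
leaves are right (`colour l t`). -/
def St_ExtSt : Prop :=
  ∀ (H : Type) [Finite H] (Γ : Fat H) (l : H) (_ : Γ.nxt l = l) (a : H) (σ : Bool) (k : ℤ)
    (ρ : Red Γ l a σ k) (t r : ℕ) (_ : Even t) (_ : 2 * ρ.len + 6 ≤ t)
    (_ : 3 * (t + ρ.len + 2) + 4 ≤ 2 * r),
    IsSt Γ r (colour l t) (pos Γ a σ) (ρ.ext t true) ∧
      (Γ.nxt a ≠ a → IsSt Γ r (colour l t) (pos Γ a σ) (ρ.ext t false))

/-- (EXT) The matrix entries from the initial state to the extremal states.

Proof. Let c₀ be the initial state, E(c) the entry (c, c₀) of the matrix of ρ.path. For a state c with arrival half edge a put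
Σ(c) = sum over h ≠ a of c h, plus c (opp a) (the sum of the outer colouring; c a = c (opp a) ± 1). By induction on ρ:
(1) E(c) ≠ 0 implies Σ(c) ≤ sum over h of (t + nu h); (2) the formula. Twists: diagonal. Turn from the half edge d to b
(d = pos a σ, b = nxt d for `ccw`; d = nxt b for `cw`; third half edge e): E(c') = sum over c of coef(x,x',y,y',z) E(c), where
c' d = x, c' (opp b) = y, c' b = y' and c = c' except c d = x' (x' = x ± 1), c b = y; at most two states c.
Bounce (d = a): the outer colourings of c and c' are the same, so (1) is clear and (2) is the definition of `tr`, as both c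
(x' = x ± 1) are the extremal states of the previous path (they are states by (EXS) or by parity and size).
Traversal (d = opp a): c a = x, c (opp a) = x', the outer colouring of c has x' on the edge of a and that of c' has x, so
Σ(c') = Σ(c) + 2 (x - x') ≤ Σ(c) + 2: (1). (2): for the extremal c', x = t + nu' d = t + nu a + 1; x' = x - 1: c is the
extremal state with sign + of the previous path; x' = x + 1: Σ(c) = Σ(extremal) + 4 > the bound of (1), so E(c) = 0. -/
def St_Ext : Prop :=
  ∀ (K : Type) [Field K] (H : Type) [Finite H] (Γ : Fat H) (l : H) (_ : Γ.nxt l = l) (a : H)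
    (σ : Bool) (k : ℤ) (ρ : Red Γ l a σ k) (t r : ℕ) (_ : Even t) (_ : 2 * ρ.len + 6 ≤ t)
    (_ : 3 * (t + ρ.len + 2) + 4 ≤ 2 * r) (A : K) (c₀ : St Γ r (colour l t) l)
    (_ : c₀.1 = colour l t) (s : Bool) (c : St Γ r (colour l t) (pos Γ a σ))
    (_ : c.1 = ρ.ext t s),
    ρ.path.mat Γ r (colour l t) A c c₀ = if s then (ρ.alpha t A).1 else (ρ.alpha t A).2

/-- (CONE) The extremal amplitude is not zero at `A = 2` for large `t`.

Proof. A = 2. For colours x, y, z in [t, t + L]: coef (+,+) = 2^(z-x-y-1)-ish: there is a constant C (depending on L) with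
2^(-t)/C ≤ |coef(+,+)|, |coef(-,-)| ≤ C 2^(-t), 1/C ≤ coef(+,-) ≤ C, coef(-,+) = 1. tw: + : 2^(-u), - : -2^(u+2).
By induction on ρ with at least one turn (`Γ.nxt a ≠ a`): there are C and t₀ such that for t ≥ t₀, (p, m) = alpha,
p = P (2^(-u))^k, m = Q (-2^(u+2))^k with u = t + nu a and either (|Q| 2^t ≤ C|P| and |P| ≤ C 2^t |Q|, P ≠ 0) or
(|P| 2^t ≤ C|Q| and |Q| ≤ C 2^t |P|, Q ≠ 0). (In both cases P and Q are not zero.) After a traversal: (P, Q) =
p (1, coef(-,-)): first case. After a bounce, |k| ≥ 2: if k ≥ 2 then |m| ≥ 2^t |p| 2^(...)  (m/p = (Q/P) (-1)^k 2^((2u+2)k),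
|Q/P| ≥ 2^(-t)/C, 2 u k ≥ 4 t, so |m/p| ≥ 2^(3t)/C'): the new pair is (p coef(+,+) + m, p coef(+,-) + m coef(-,-)) =
(m (1 + tiny), m coef(-,-) (1 + tiny)): first case. If k ≤ -2 then |p/m| ≥ 2^(3t)/C' in the same way and the new pair is
(p coef(+,+) (1 + tiny), p coef(+,-) (1 + tiny)): second case. For `base` and twists at the base edge alpha = (nonzero, 0),
and the first turn is a traversal, which uses only the first component. -/
def St_Cone : Prop :=
  ∀ (H : Type) (Γ : Fat H) (l : H) (_ : Γ.nxt l = l) (a : H) (σ : Bool) (k : ℤ)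
    (ρ : Red Γ l a σ k), ∃ t₀ : ℕ, ∀ t ≥ t₀, (ρ.alpha t (2 : ℝ)).1 ≠ 0

/-- (LPO) If the amplitude is not zero at `A = 2`, it is not zero at all primitive `4r`-th roots of unity for large `r`.

Proof. By induction on ρ there are polynomials N₁, N₂, D in ℤ[X] and B such that for every field K of characteristic 0 (or
K = ℝ, ℂ) and every A ≠ 0 in K with cur A (2 j) ≠ 0 for 1 ≤ j ≤ B: D(A) ≠ 0, alpha.1 = N₁(A)/D(A), alpha.2 = N₂(A)/D(A)
(A^n - A^(-n) = (A^(2n) - 1)/A^n etc.). N₁(2) ≠ 0, so N₁ ≠ 0 has finitely many roots in ℂ; for r > B and r larger than all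
orders of the roots of N₁ that are roots of unity, a primitive 4r-th root A satisfies cur A (2 j) ≠ 0 for 1 ≤ j ≤ B (A^(4j) ≠ 1) and
N₁(A) ≠ 0. -/
def St_LPo : Prop :=
  ∀ (H : Type) (Γ : Fat H) (l a : H) (σ : Bool) (k : ℤ) (ρ : Red Γ l a σ k) (t : ℕ),
    (ρ.alpha t (2 : ℝ)).1 ≠ 0 →
    ∃ r₀ : ℕ, ∀ r ≥ r₀, ∀ A : ℂ, IsPrimitiveRoot A (4 * r) → (ρ.alpha t A).1 ≠ 0

/-- (NSC) A closed path that is not null-homotopic does not act as a scalar.

Proof (from HOM, RED, EXS, EXT, CONE, LPO). Take ρ, e from (RED) for f (q = l). The initial state c₀ = colour l t is a state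
((EXS) for `base`). By (HOM) the matrix of f is u • (e ▸ ρ.path).mat with u ≠ 0, so it is enough that the latter is not scalar.
If Γ.nxt a ≠ a: pos a σ = l, l is a leaf, so σ = false, a = opp l. For t ≥ t₀ and r ≥ r₀ the entry from c₀ to ρ.ext t true is not
zero, and this state is not c₀: its value at opp l = a is t + nu a + 1 ≠ t (opp l ≠ l).
If Γ.nxt a = a: then ρ has no turns (arrival half edges of turns are not leaves), a = l, σ = true, ρ consists of k twists of the
same sign, k even. If k = 0, ρ = base and f is null-homotopic: excluded. So k ≠ 0, and the matrix is diagonal with entries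
tw(c (opp l), c l)^k; there are two states: c₀ (opp l coloured t) and the state with t + 2 at opp l (Adm at the vertex of opp l, not
a leaf by `leaf_opp`; all other colours t): the entries A^(-t k) and (-1)^k A^((t+4) k) = A^((t+4)k) differ if
A^((2 t + 4) k) ≠ 1, true for large r (4r > (2t+4)|k|, k ≠ 0). -/
def St_NonScal : Prop :=
  ∀ (H : Type) [Finite H] (Γ : Fat H) (l : H) (_ : Γ.nxt l = l) (f : Path Γ l l),
    ¬ Hom Γ f .nil → ∃ t₀ : ℕ, ∀ t ≥ t₀, Even t → ∃ r₀ : ℕ, ∀ r ≥ r₀, ∀ A : ℂ,
      IsPrimitiveRoot A (4 * r) → ∀ z : ℂ, f.mat Γ r (colour l t) A ≠ z • 1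

/-- (FIN) Final theorem: (DICH) + (NSC). -/
def St_Final : Prop :=
  ∀ (H : Type) [Finite H] (Γ : Fat H) (l : H) (_ : Γ.nxt l = l) (f : Path Γ l l),
    Comm Γ f → ¬ Hom Γ f .nil → ∃ t₀ : ℕ, ∀ t ≥ t₀, Even t → ∃ r₀ : ℕ, ∀ r ≥ r₀, ∀ A : ℂ,
      IsPrimitiveRoot A (4 * r) → ∀ n : ℕ, 0 < n → ∀ z : ℂ,
        f.mat Γ r (colour l t) A ^ n ≠ z • 1

end Pool.Agent.AMS
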