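import Pool.Agent.AMS.St

/-!
# Pushes in the kernel of filling one boundary component: definitions and statements

`N_l` is the kernel of `π₁(Σ_{g,m}) → π₁(Σ_{g,m-1})` (a disc glued in at the leaf `l`). Every element of
`N_l` whose powers cross the pants curves unboundedly often acts with infinite order. Plan: if
`γ ∈ N_l` has finite order at infinitely many levels, `U = mat γ` satisfies
`prod_{|j| ≤ J} (U - A ^ j) = 0` there (DNN), hence also in the generic module (colours `M |φ| + δ`,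
`φ` a nowhere-zero flow, `τ = A ^ M` a second variable) (UPW). At the place `A = 1 + a ω^5`,
`τ = 1 + ω` the operator `(U - 1) / (A - 1)` has a residue `X₀ = ∑ ε_i w_i⁻¹ D w_i` (RSN), which by an
explicit computation (MON, CNF, ALN) has at most two eigenvalues; this lifts (LFT):
`(U - A ^ i) (U - A ^ j) = 0` generically, hence also at all large levels at the state with all colours
`t` (DWN). So all powers of `U` move this state at most as far as `U` does; but the extremal entries
of the powers do not vanish.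
-/

namespace Pool.Agent.AMS

section

variable {H : Type} (Γ : Fat H)

/-- The normal closure of the loop around the leaf `l`: the kernel of
`π₁(Σ_{g,m}) → π₁(Σ_{g,m-1})`, a disc being glued in at the leaf `l`. -/
inductive NullL (l : H) {p : H} : Path Γ p p → Prop
  | nil : NullL l .nil
  | loop (w : Path Γ p (Γ.opp l)) : NullL l ((w.append (loop Γ l)).append w.inv)
  | mul {u v : Path Γ p p} : NullL l u → NullL l v → NullL l (u.append v)
  | inv {u : Path Γ p p} : NullL l u → NullL l u.inv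

/-- A flow which is zero exactly on the edges of the leaves (at most one at each vertex). -/
structure IsFlow (φ : H → ℤ) : Prop where
  opp : ∀ h, φ (Γ.opp h) = -φ h
  vert : ∀ h, Γ.nxt h ≠ h → φ h + φ (Γ.nxt h) + φ (Γ.nxt (Γ.nxt h)) = 0
  zero : ∀ h, φ h = 0 ↔ Γ.nxt h = h ∨ Γ.nxt (Γ.opp h) = Γ.opp h
  one : ∀ h, Γ.nxt h ≠ h → φ h ≠ 0 ∨ φ (Γ.nxt h) ≠ 0

variable {Γ}

/-- The powers of a closed path. -/
def Path.pow {p : H} (w : Path Γ p p) : ℕ → Path Γ p p
  | 0 => .nil
  | n + 1 => (w.pow n).append w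

/-- For a turn the half edges at which it leaves the old edge and arrives at the new one. -/
def Step.ends : {q t : H} → Step Γ q t → Option (H × H)
  | _, _, .turn h _ _ _ => some (h, Γ.nxt h)
  | _, _, .cross _ _ _ _ => none

open Classical in
/-- The half edge at which the leg has arrived at its present edge (`b` at the start) and the number
of times it has traversed an edge from one end to the other. -/
noncomputable def Path.trk (b : H) {p : H} : {q : H} → Path Γ p q → H × ℕ
  | _, .nil => (b, 0)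
  | _, .fwd w s => match s.ends with
    | none => w.trk b
    | some (x, y) => (y, (w.trk b).2 + if (w.trk b).1 = x then 0 else 1)
  | _, .bwd w s => match s.ends with
    | none => w.trk b
    | some (x, y) => (x, (w.trk b).2 + if (w.trk b).1 = y then 0 else 1)

/-- The number of times the path crosses the curves of the pants decomposition (traverses an edge
from one end to the other). -/
noncomputable def crossings {l q : H} (w : Path Γ l q) : ℕ := (w.trk l).2

/-- The number of moves. -/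
def Path.size {p : H} : {q : H} → Path Γ p q → ℕ
  | _, .nil => 0
  | _, .fwd w _ => w.size + 1
  | _, .bwd w _ => w.size + 1

variable (Γ)

/-! ### Generic states and operators -/

/-- The states of the generic module: the colours are `M |φ| + δ` with `M` large. -/
def IsG (φ : H → ℤ) (col : H → ℕ) (p : H) (δ : H → ℤ) : Prop :=
  (∀ h, Γ.nxt h = h → δ h = col h) ∧
    (∀ h, Γ.nxt h ≠ h → Even (δ h + δ (Γ.nxt h) + δ (Γ.nxt (Γ.nxt h)))) ∧
    (∀ h, Γ.nxt h ≠ h → |φ h| = |φ (Γ.nxt h)| + |φ (Γ.nxt (Γ.nxt h))| →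
      δ h ≤ δ (Γ.nxt h) + δ (Γ.nxt (Γ.nxt h))) ∧
    (∀ h, h ≠ p → h ≠ Γ.opp p → δ (Γ.opp h) = δ h) ∧
    (δ p = δ (Γ.opp p) + 1 ∨ δ (Γ.opp p) = δ p + 1)

/-- See `IsG`. -/
def GSt (φ : H → ℤ) (col : H → ℕ) (p : H) : Type := {δ : H → ℤ // IsG Γ φ col p δ}

/-- Coefficients: `turn a b c x x' y y' z` for the leg sliding from the edge `a` (far side `x`, vertex
side `x'`) to the edge `b` (`y` before, `y'` at the vertex side after), third edge `c` coloured `z`;
`tw h x x'` and `tw' h x x'` for the half twist and its inverse at `h`. -/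
structure Cf (H K : Type) where
  turn : H → H → H → ℤ → ℤ → ℤ → ℤ → ℤ → K
  tw : H → ℤ → ℤ → K
  tw' : H → ℤ → ℤ → K

variable {K : Type} [Field K] (φ : H → ℤ) (col : H → ℕ)

open Classical in
/-- The basis vector of `δ` times `a`, zero if `δ` is not a state. -/
noncomputable def pt (q : H) (δ : H → ℤ) (a : K) : GSt Γ φ col q →₀ K :=
  if h : IsG Γ φ col q δ then Finsupp.single ⟨δ, h⟩ a else 0

open Classical in
/-- The new colours after the move `turn h`, `y' = y + s`. -/
noncomputable def upT (h : H) (s : ℤ) (δ : H → ℤ) : H → ℤ :=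
  fun k => if k = Γ.nxt h then δ (Γ.nxt h) + s else if k = h then δ (Γ.opp h) else δ k

open Classical in
/-- The new colours after the inverse of the move `turn h`, `y' = y + s`. -/
noncomputable def dnT (h : H) (s : ℤ) (δ : H → ℤ) : H → ℤ :=
  fun k => if k = h then δ h + s else if k = Γ.nxt h then δ (Γ.opp (Γ.nxt h)) else δ k

/-- The linear map of a move. -/
noncomputable def Step.gop (C : Cf H K) : {q t : H} → Step Γ q t →
    ((GSt Γ φ col q →₀ K) →ₗ[K] (GSt Γ φ col t →₀ K))
  | _, _, .turn h t _ _ => Finsupp.linearCombination K fun δ : GSt Γ φ col h =>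
      pt Γ φ col t (upT Γ h 1 δ.1) (C.turn h (Γ.nxt h) (Γ.nxt (Γ.nxt h)) (δ.1 (Γ.opp h)) (δ.1 h)
        (δ.1 (Γ.nxt h)) (δ.1 (Γ.nxt h) + 1) (δ.1 (Γ.nxt (Γ.nxt h)))) +
      pt Γ φ col t (upT Γ h (-1) δ.1) (C.turn h (Γ.nxt h) (Γ.nxt (Γ.nxt h)) (δ.1 (Γ.opp h)) (δ.1 h)
        (δ.1 (Γ.nxt h)) (δ.1 (Γ.nxt h) - 1) (δ.1 (Γ.nxt (Γ.nxt h))))
  | _, _, .cross h q b _ => Finsupp.linearCombination K fun δ : GSt Γ φ col q =>
      pt Γ φ col h δ.1 (if b then C.tw h (δ.1 (Γ.opp h)) (δ.1 h) else C.tw' h (δ.1 (Γ.opp h)) (δ.1 h))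

/-- The linear map of the inverse of a move. -/
noncomputable def Step.gop' (C : Cf H K) : {q t : H} → Step Γ q t →
    ((GSt Γ φ col t →₀ K) →ₗ[K] (GSt Γ φ col q →₀ K))
  | _, _, .turn h t _ _ => Finsupp.linearCombination K fun δ : GSt Γ φ col t =>
      pt Γ φ col h (dnT Γ h 1 δ.1) (C.turn (Γ.nxt h) h (Γ.nxt (Γ.nxt h)) (δ.1 (Γ.opp (Γ.nxt h)))
        (δ.1 (Γ.nxt h)) (δ.1 h) (δ.1 h + 1) (δ.1 (Γ.nxt (Γ.nxt h)))) +
      pt Γ φ col h (dnT Γ h (-1) δ.1) (C.turn (Γ.nxt h) h (Γ.nxt (Γ.nxt h)) (δ.1 (Γ.opp (Γ.nxt h)))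
        (δ.1 (Γ.nxt h)) (δ.1 h) (δ.1 h - 1) (δ.1 (Γ.nxt (Γ.nxt h))))
  | _, _, .cross h q b _ => Finsupp.linearCombination K fun δ : GSt Γ φ col h =>
      pt Γ φ col q δ.1 (if b then C.tw' h (δ.1 (Γ.opp h)) (δ.1 h) else C.tw h (δ.1 (Γ.opp h)) (δ.1 h))

variable {Γ}

/-- The linear map of a path. -/
noncomputable def Path.gop (C : Cf H K) {p : H} : {q : H} → Path Γ p q →
    ((GSt Γ φ col p →₀ K) →ₗ[K] (GSt Γ φ col q →₀ K))
  | _, .nil => LinearMap.id
  | _, .fwd w s => (s.gop Γ φ col C).comp (w.gop C)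
  | _, .bwd w s => (s.gop' Γ φ col C).comp (w.gop C)

variable {φ col}

end

/-! ### The three systems of coefficients -/

section

variable {K : Type} [Field K]

/-- `τ ^ m A ^ n - τ ^ (-m) A ^ (-n)`. -/
def gcur (A τ : K) (m n : ℤ) : K := τ ^ m * A ^ n - τ ^ (-m) * A ^ (-n)

/-- `coef` for the colours `M mx + x` etc., `τ = A ^ M`. -/
def gcoef (A τ : K) (mx my mz x x' y y' z : ℤ) : K :=
  if x' = x + 1 then
    if y' = y + 1 then gcur A τ (mx - my + mz) (x - y + z + 1) / gcur A τ (2 * mx) (2 * x + 2)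
    else gcur A τ (mx + my - mz) (x + y - z + 1) * gcur A τ (mx + my + mz) (x + y + z + 3) /
      (gcur A τ (2 * mx) (2 * x + 2) * gcur A τ (2 * my) (2 * y + 2))
  else
    if y' = y + 1 then 1
    else -(gcur A τ (my - mx + mz) (y - x + z + 1) / gcur A τ (2 * my) (2 * y + 2))

/-- `tw` for the colours `M m + x` etc. -/
def gtw (A τ : K) (m x x' : ℤ) : K := if x' = x + 1 then τ ^ (-m) * A ^ (-x) else -(τ ^ m * A ^ (x + 2))

/-- The generic coefficients. -/
def gen {H : Type} (φ : H → ℤ) (A τ : K) : Cf H K where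
  turn a b c x x' y y' z := gcoef A τ |φ a| |φ b| |φ c| x x' y y' z
  tw h x x' := gtw A τ |φ h| x x'
  tw' h x x' := (gtw A τ |φ h| x x')⁻¹

/-- The change of the slack (the sum of the two smaller colours minus the largest one, only for
vertices with three large colours) under a turn with `x' = x + s₁`, `y' = y + s₂`. -/
def dsl (mx my mz s₁ s₂ : ℤ) : ℤ :=
  if mx = 0 ∨ my = 0 ∨ mz = 0 then 0
  else if mx = my + mz then s₁ + s₂
  else if my = mx + mz then -(s₁ + s₂)
  else s₂ - s₁

/-- The scaled coefficients. -/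
def scl {H : Type} (φ : H → ℤ) (A τ ω : K) : Cf H K where
  turn a b c x x' y y' z :=
    ω ^ dsl |φ a| |φ b| |φ c| (x' - x) (y' - y) * gcoef A τ |φ a| |φ b| |φ c| x x' y y' z
  tw h x x' := gtw A τ |φ h| x x'
  tw' h x x' := (gtw A τ |φ h| x x')⁻¹

/-- The residues of the scaled coefficients of a turn. -/
def rcoef (mx my mz x x' y y' z : ℤ) : ℚ :=
  if mx = 0 then
    if x' = x + 1 then
      if y' = y + 1 then ((z - y + x + 1 : ℤ) : ℚ) / ((2 * x + 2 : ℤ) : ℚ)
      else ((x + y - z + 1 : ℤ) : ℚ) / ((2 * x + 2 : ℤ) : ℚ)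
    else if y' = y + 1 then 1 else -1
  else if my = 0 then
    if x' = x + 1 then
      if y' = y + 1 then 1 else ((x + y - z + 1 : ℤ) : ℚ) / ((2 * y + 2 : ℤ) : ℚ)
    else if y' = y + 1 then 1 else -(((y - x + z + 1 : ℤ) : ℚ) / ((2 * y + 2 : ℤ) : ℚ))
  else if mz = mx + my then
    if x' = x + 1 then (if y' = y + 1 then 1 else 0) else (if y' = y + 1 then 0 else -1)
  else
    if x' = x + 1 then (if y' = y + 1 then 0 else 1) else (if y' = y + 1 then 1 else 0)

/-- The residues of the coefficients. -/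
def rsd {H : Type} (φ : H → ℤ) : Cf H ℚ where
  turn a b c x x' y y' z := rcoef |φ a| |φ b| |φ c| x x' y y' z
  tw _ x x' := if x' = x + 1 then 1 else -1
  tw' _ x x' := if x' = x + 1 then 1 else -1

open Classical in
/-- The sum of the slacks of a state at all vertices with three large colours. -/
noncomputable def slack {H : Type} [Fintype H] (Γ : Fat H) (φ : H → ℤ) (δ : H → ℤ) : ℤ :=
  ∑ h, if Γ.nxt h ≠ h ∧ φ h ≠ 0 ∧ φ (Γ.nxt h) ≠ 0 ∧ φ (Γ.nxt (Γ.nxt h)) ≠ 0 ∧
      |φ h| = |φ (Γ.nxt h)| + |φ (Γ.nxt (Γ.nxt h))|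
    then δ (Γ.nxt h) + δ (Γ.nxt (Γ.nxt h)) - δ h else 0

/-- The diagonal operator with the entries `ω ^ slack`. -/
noncomputable def dil {H : Type} [Fintype H] (Γ : Fat H) (φ : H → ℤ) (col : H → ℕ) (p : H) (ω : K) :
    (GSt Γ φ col p →₀ K) →ₗ[K] (GSt Γ φ col p →₀ K) :=
  Finsupp.linearCombination K fun δ : GSt Γ φ col p => Finsupp.single δ (ω ^ slack Γ φ δ.1)

/-- A place of the field `K` with residue field `ℚ` and uniformiser `ω`. -/
structure Place (K : Type) [Field K] where
  O : Subring K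
  π : O →+* ℚ
  ω : K
  hω0 : ω ≠ 0
  hω : ω ∈ O
  ker : ∀ x : O, π x = 0 ↔ ∃ y : O, (x : K) = ω * y
  inv : ∀ x : O, π x ≠ 0 → (x : K)⁻¹ ∈ O
  sep : ∀ x : K, (∀ n : ℕ, ∃ y ∈ O, x = ω ^ n * y) → x = 0

/-- `x` is integral with residue `q`. -/
def Place.Res (P : Place K) (x : K) (q : ℚ) : Prop := ∃ h : x ∈ P.O, P.π ⟨x, h⟩ = q

/-- The value of `A`. -/
def Place.A (P : Place K) (a : ℕ) : K := 1 + a * P.ω ^ 5

/-- The value of `τ`. -/
def Place.T (P : Place K) : K := 1 + P.ω

/-- `A` and `τ` are not in the exceptional set of the generic formulas. -/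
def Nondeg (A τ : K) : Prop :=
  A ≠ 0 ∧ τ ≠ 0 ∧ ∀ m n : ℤ, 0 ≤ m → (m = 0 → 0 < n) → gcur A τ m n ≠ 0

/-! ### Formal combinations of paths -/

/-- Formal combinations `∑ n A ^ j w` of paths from `p` to `q`. -/
abbrev FC {H : Type} (Γ : Fat H) (p q : H) : Type := List (ℤ × ℤ × Path Γ p q)

/-- Value at a level. -/
noncomputable def FC.mat {H : Type} [Finite H] {Γ : Fat H} {p q : H} (F : FC Γ p q) (r : ℕ)
    (col : H → ℕ) (A : K) : Matrix (St Γ r col q) (St Γ r col p) K :=
  (F.map fun x => ((x.1 : K) * A ^ x.2.1) • x.2.2.mat Γ r col A).sum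

/-- Value in the generic module. -/
noncomputable def FC.gop {H : Type} {Γ : Fat H} {p q : H} (F : FC Γ p q) (φ : H → ℤ)
    (col : H → ℕ) (C : Cf H K) (A : K) : (GSt Γ φ col p →₀ K) →ₗ[K] (GSt Γ φ col q →₀ K) :=
  (F.map fun x => ((x.1 : K) * A ^ x.2.1) • x.2.2.gop φ col C).sum

/-- Near `δ` (up to `n` steps) the states at level `r` are the generic states. -/
def Good {H : Type} (Γ : Fat H) (φ : H → ℤ) (n M r : ℕ) (δ : H → ℤ) : Prop :=
  (∀ h, φ h ≠ 0 → (n : ℤ) + 1 ≤ M * |φ h| + δ h) ∧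
    (∀ h, 3 * (M * |φ h| + δ h + n + 1) + 4 ≤ 2 * r) ∧
    ∀ h, Γ.nxt h ≠ h → |φ h| ≠ |φ (Γ.nxt h)| + |φ (Γ.nxt (Γ.nxt h))| →
      M * |φ h| + δ h + 3 * (n + 1) ≤
        M * |φ (Γ.nxt h)| + δ (Γ.nxt h) + (M * |φ (Γ.nxt (Γ.nxt h))| + δ (Γ.nxt (Γ.nxt h)))

/-- `∏_{j ∈ S} (X - A ^ j)`. -/
noncomputable def prodA (S : Finset ℤ) (A : K) : Polynomial K :=
  ∏ j ∈ S, (Polynomial.X - Polynomial.C (A ^ j))

/-- `∏_{j ∈ S} (X - j)`. -/
noncomputable def prodQ (S : Finset ℤ) : Polynomial ℚ :=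
  ∏ j ∈ S, (Polynomial.X - Polynomial.C (j : ℚ))

/-- The derivative of the loop around the leaf `l` at `A = 1`. -/
noncomputable def dOp {H : Type} (Γ : Fat H) (φ : H → ℤ) (col : H → ℕ) (l : H) :
    (GSt Γ φ col (Γ.opp l) →₀ ℚ) →ₗ[ℚ] (GSt Γ φ col (Γ.opp l) →₀ ℚ) :=
  Finsupp.linearCombination ℚ fun δ : GSt Γ φ col (Γ.opp l) =>
    Finsupp.single δ (if δ.1 l = δ.1 (Γ.opp l) + 1 then -(2 * (δ.1 (Γ.opp l) : ℚ))
      else 2 * (δ.1 (Γ.opp l) : ℚ) + 4)

/-- `∑ ε w⁻¹ D w`. -/
noncomputable def xOp {H : Type} (Γ : Fat H) (φ : H → ℤ) (col : H → ℕ) (l p : H)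
    (E : List (ℤ × Path Γ p (Γ.opp l))) :
    (GSt Γ φ col p →₀ ℚ) →ₗ[ℚ] (GSt Γ φ col p →₀ ℚ) :=
  (E.map fun x => (x.1 : ℚ) • (x.2.inv.gop φ col (rsd φ)).comp
    ((dOp Γ φ col l).comp (x.2.gop φ col (rsd φ)))).sum

end

/-! ## Part I: the place -/

/-- (PLC) There is a field with a place.

Proof. `K = LaurentSeries ℚ`, `O` the range of `PowerSeries ℚ → LaurentSeries ℚ` (injective), `π` the constant
coefficient, `ω = X`. `ker`: constant coefficient 0 iff divisible by X. `inv`: a power series over a field with non-zero constant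
coefficient is a unit. `sep`: all coefficients vanish. (Or `K = FractionRing (PowerSeries ℚ)`.) -/
def St_Place : Prop := ∃ (K : Type) (i : Field K), Nonempty (@Place K i)

/-- (CUR) The quantum numbers at the place.

Proof. `Res` is compatible with sums, products, inverses of elements with non-zero residue and integers (base file NB), and
`ω` has residue 0. Put T = 1 + ω, A = 1 + a ω^5. By induction on the integer m: T^m = 1 + m ω + ω^2 (integral), A^n = 1 +
a n ω^5 + ω^6 (integral) (first for naturals, then inverses). (2), (3): gcur A T m n = (T^m A^n)⁻¹ (T^(2m) A^(2n) - 1), and the bracket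
is 2 m ω + ω^2 (integral), for m = 0 it is 2 n a ω^5 + ω^6 (integral); for u take the quotient (m and a are invertible in O: their
residues are not 0; if m = 0, n = 0 in (3) take u = 1). (4): A^n - 1 = (A - 1) (1 + ... + A^(n-1)), for negative n:
A^(-n) - 1 = -A^(-n) (A^n - 1). (5) from (2), (3). -/
def St_Cur : Prop :=
  ∀ (K : Type) [Field K] (P : Place K) (a : ℕ) (_ : 1 ≤ a) (m n : ℤ),
    P.Res (P.T ^ m * P.A a ^ n) 1 ∧
    (m ≠ 0 → ∃ u, P.Res u 1 ∧ gcur (P.A a) P.T m n = 2 * m * P.ω * u) ∧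
    (∃ u, P.Res u 1 ∧ gcur (P.A a) P.T 0 n = 2 * n * a * P.ω ^ 5 * u) ∧
    (∃ u, P.Res u n ∧ P.A a ^ n - 1 = (P.A a - 1) * u) ∧ P.A a - 1 ≠ 0 ∧ Nondeg (P.A a) P.T

/-- (INC) Integrality and residues of the scaled coefficients.

Proof (from CUR). Write G(m, n) for gcur. G(m, .) with m ≠ 0 is 2 m ω * unit, G(0, n) is 2 n a ω^5 * unit, all units with residue 1.
mx = 0 (so my = mz ≠ 0, dsl = 0): (+,+) G(0, x-y+z+1)/G(0, 2x+2); (+,-) G(0, x+y-z+1) G(2my, .)/(G(0, 2x+2) G(2my, .)); (-,+) 1;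
(-,-) -G(2my, .)/G(2my, .). my = 0 (mx = mz ≠ 0, dsl = 0): (+,+) G(2mx, .)/G(2mx, .); (+,-) G(0, x+y-z+1) G(2mx, .)/(G(2mx, .)
G(0, 2y+2)); (-,-) -G(0, y-x+z+1)/G(0, 2y+2). mz = 0 (mx = my ≠ 0, dsl = 0): (+,+) G(0, .)/G(2mx, .), a multiple of ω^4; (+,-)
G(2mx, .) G(2mx, .)/(G(2mx, .) G(2mx, .)); (-,-) as (+,+). All non-zero, mx = my + mz: (+,+) ω^2 G(2mz, .)/G(2mx, .); (+,-)
G(2my, .) G(2mx, .)/(G(2mx, .) G(2my, .)); (-,-) -ω^(-2) G(0, .)/G(2my, .). my = mx + mz: (+,+) ω^(-2) G(0, .)/G(2mx, .); (+,-) G(2mx, .) G(2my, .)/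
(the same); (-,-) -ω^2 G(2mz, .)/G(2my, .). mz = mx + my: (+,+) G(2mx, .)/G(2mx, .); (+,-) ω^(-2) G(0, .) G(2mz, .)/(G(2mx, .) G(2my, .)),
of order ω^(-2) ω^5 ω/(ω ω) = ω^2; (-,+) ω^2; (-,-) -G(2my, .)/G(2my, .). -/
def St_IntC : Prop :=
  ∀ (K : Type) [Field K] (P : Place K) (a : ℕ) (_ : 1 ≤ a),
    (∀ (mx my mz x x' y y' z : ℤ) (_ : 0 ≤ mx) (_ : 0 ≤ my) (_ : 0 ≤ mz)
      (_ : mx = my + mz ∨ my = mx + mz ∨ mz = mx + my) (_ : mx ≠ 0 ∨ my ≠ 0) (_ : mx ≠ 0 ∨ mz ≠ 0)
      (_ : my ≠ 0 ∨ mz ≠ 0) (_ : x' = x + 1 ∨ x' = x - 1) (_ : y' = y + 1 ∨ y' = y - 1)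
      (_ : mx = 0 → 0 ≤ x) (_ : my = 0 → 0 ≤ y),
      P.Res (P.ω ^ dsl mx my mz (x' - x) (y' - y) * gcoef (P.A a) P.T mx my mz x x' y y' z)
        (rcoef mx my mz x x' y y' z)) ∧
    ∀ m x x' : ℤ, P.Res (gtw (P.A a) P.T m x x') (if x' = x + 1 then 1 else -1) ∧
      P.Res (gtw (P.A a) P.T m x x')⁻¹ (if x' = x + 1 then 1 else -1)

/-- (PTR) Integrality and residues for paths; the scaled operators are conjugate to the generic ones.

Proof. (1) Induction on the path, from (INC) (entries of a composition are finite sums of products; `Res` for sums over `Finsupp`).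
The hypotheses of (INC) for a turn `h` from a state δ at the position h (a = h, b = nxt h, c = nxt (nxt h), x = δ (opp h), x' = δ h,
y = δ (nxt h), y' = y ± 1): the absolute values of the flow at a vertex, whose sum is 0, satisfy one of the three relations, and at most one is 0 (`one`
at h, nxt h, nxt (nxt h)); if φ h = 0 then opp h is a leaf (`zero`; h is not) and x = col (opp h) ≥ 0; if φ (nxt h) = 0 then opp (nxt h) is a leaf
and nxt h is not on the edge of the leg (else nxt h = opp h and φ h = 0 too), y = δ (opp (nxt h)) = col ≥ 0. The same for the inverse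
turn with h and nxt h exchanged. `dsl` and `rcoef` appear literally; for the inverse turn C.turn has the arguments (nxt h, h, nxt (nxt h)). (2) Induction on the path:
for each turn slack(δ') - slack(δ) = dsl |φ h| |φ (nxt h)| |φ (nxt (nxt h))| (x' - x) (y' - y): the two states differ only at h and nxt h (so only
the term of this vertex changes): δ' h = x = δ h - (x' - x), δ' (nxt h) = δ (nxt h) + (y' - y); check the three cases. For the inverse turn the same with the roles of h and nxt h exchanged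
(the case distinction of dsl then reads: nxt h largest: s₁ + s₂, h largest: -(s₁ + s₂), third largest: s₂ - s₁). -/
def St_PathR : Prop :=
  ∀ (H : Type) [Fintype H] (Γ : Fat H) (φ : H → ℤ) (_ : IsFlow Γ φ) (col : H → ℕ) (p q : H)
    (w : Path Γ p q),
    (∀ (K : Type) [Field K] (P : Place K) (a : ℕ) (_ : 1 ≤ a) (δ : GSt Γ φ col p)
      (δ' : GSt Γ φ col q),
      P.Res ((w.gop φ col (scl φ (P.A a) P.T P.ω) (Finsupp.single δ 1)) δ')
        ((w.gop φ col (rsd φ) (Finsupp.single δ 1)) δ')) ∧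
    ∀ (K : Type) [Field K] (A τ ω : K) (_ : ω ≠ 0),
      (w.gop φ col (scl φ A τ ω)).comp (dil Γ φ col p ω) =
        (dil Γ φ col q ω).comp (w.gop φ col (gen φ A τ))

/-! ## Part II: transfer between the levels and the generic module -/

/-- (REP) The entries are rational functions of `A` and `τ`.

Proof. For one path: induction; a path of n moves maps `single δ 1` to a finite combination of states δ₁ with |δ₁ h - δ h| ≤ n
for all h (a turn changes the values at h and nxt h by one: upT: at nxt h by ± 1, at h from δ h to δ (opp h) = δ h ± 1). Every coefficient is a product of gcur's divided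
by gcur(2 |φ h|, 2 x + 2), with x = δ₁ (opp h) for an intermediate state δ₁ (and the same at nxt h), or a monomial in A^(±1), τ^(±1);
gcur A τ m n = (τ^(2m) A^(2n) - 1)/(τ^m A^n), so numerators are polynomials up to powers of A, τ. If |φ h| = 0 the value x is the colour of a
leaf (see PTR), so 2 x + 2 > 0; otherwise x ≥ B - n ≥ B - s. Combinations: common denominators (product of the lists), A^j with j negative: enlarge i. -/
def St_Rep : Prop :=
  ∀ (H : Type) [Finite H] (Γ : Fat H) (φ : H → ℤ) (_ : IsFlow Γ φ) (col : H → ℕ) (p q : H)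
    (F : FC Γ p q) (s : ℕ) (_ : ∀ x ∈ F, x.2.2.size ≤ s) (δ : GSt Γ φ col p)
    (δ' : GSt Γ φ col q),
    ∃ (N : Polynomial (Polynomial ℤ)) (L : List (ℤ × ℤ)) (i j : ℕ),
      (∀ x ∈ L, 0 ≤ x.1 ∧ (x.1 = 0 → 0 < x.2) ∧
        ∀ B : ℤ, (∀ h, φ h ≠ 0 → B ≤ δ.1 h) → x.1 ≠ 0 → 2 * (B - s) + 2 ≤ x.2) ∧
      ∀ (K : Type) [Field K] (A τ : K), A ≠ 0 → τ ≠ 0 → (∀ x ∈ L, gcur A τ x.1 x.2 ≠ 0) →
        (F.gop φ col (gen φ A τ) A (Finsupp.single δ 1)) δ' *
            (L.map fun x => gcur A τ x.1 x.2).prod * A ^ i * τ ^ j =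
          N.eval₂ (Polynomial.eval₂RingHom (Int.castRingHom K) A) τ

/-- (LNK) Near a state the operators at level `r` are the generic ones with `τ = A ^ M`.

Proof. (1) `→`: c = M |φ| + δ'. Non-negative: clear if φ h ≠ 0 (first part of Good); if φ h = 0 and h is a leaf: col; if φ h = 0 and opp h is a
leaf: the walls at nxt h and nxt (nxt h) (|φ (nxt h)| = |φ (nxt (nxt h))|) give 0 ≤ 2 δ' h. Parity: the sum of the |φ| at a vertex is
twice the largest. Triangle inequality at h: if |φ h| = |φ (nxt h)| + |φ (nxt (nxt h))| it is the wall condition, else the third part of Good.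
Level condition: second part of Good (each 3 c h + 4 ≤ 2 r, hence also c h + 2 ≤ r and the sum of three). `←`: the same read backwards. (2), (3)
Induction on the path (last move): Good for n gives Good for n - 1 at all δ₁ with |δ₁ h - δ h| ≤ 1, but it is easier to keep δ and n = size fixed and
to carry |δ₁ h - δ h| ≤ number of moves so far. A non-zero entry (c', c) of a product has a non-zero term through some c₁, which by induction is M |φ| + δ₁; a move
from c₁ to c' changes the colours as the generic move does (turn: c' h = c₁ (opp h), c' (nxt h) = c₁ (nxt h) ± 1: the parity condition or `IsSt` of c' and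
c (nxt h) = c' (opp (nxt h)), compare Inv.lean, Ext.lean), so c' = M |φ| + δ' with δ' = upT h (± 1) δ₁ etc., a generic state by (1). The coefficient:
cur A (M m + n) = gcur A (A^M) m n (A ≠ 0), so coef = gcoef, tw = gtw. -/
def St_Link : Prop :=
  ∀ (H : Type) [Finite H] (Γ : Fat H) (φ : H → ℤ) (_ : IsFlow Γ φ) (col : H → ℕ) (n M r : ℕ)
    (δ : H → ℤ) (_ : Good Γ φ n M r δ),
    (∀ (q : H) (δ' : H → ℤ) (_ : ∀ h, |δ' h - δ h| ≤ n), IsG Γ φ col q δ' ↔
      ∃ c : St Γ r col q, ∀ h, (c.1 h : ℤ) = M * |φ h| + δ' h) ∧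
    ∀ (K : Type) [Field K] (A : K) (_ : A ≠ 0) (p q : H) (w : Path Γ p q) (_ : w.size ≤ n)
      (hδ : IsG Γ φ col p δ) (c : St Γ r col p) (_ : ∀ h, (c.1 h : ℤ) = M * |φ h| + δ h),
      (∀ (δ' : GSt Γ φ col q) (c' : St Γ r col q), (∀ h, (c'.1 h : ℤ) = M * |φ h| + δ'.1 h) →
        w.mat Γ r col A c' c = (w.gop φ col (gen φ A (A ^ M)) (Finsupp.single ⟨δ, hδ⟩ 1)) δ') ∧
      ∀ c' : St Γ r col q, w.mat Γ r col A c' c ≠ 0 → ∃ δ' : GSt Γ φ col q,
        (∀ h, |δ'.1 h - δ h| ≤ n) ∧ ∀ h, (c'.1 h : ℤ) = M * |φ h| + δ'.1 h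

/-- (UPW) A relation which holds at infinitely many levels holds generically.

Proof (from REP, LNK). It is enough to compare the entries (δ', δ). Take N, L, i, j from (REP), s a bound for the sizes and for |δ' h - δ h|. For M ≥ M₀ and
r ≥ r₀(M) one has Good s M r δ (third part: the sum of the flow at a vertex is zero, so |φ h| ≠ |φ (nxt h)| + |φ (nxt (nxt h))| means <), and M m + n > 0 for (m, n)
in L. By (LNK) there are states c = M |φ| + δ, c' = M |φ| + δ' at level r, and the entry (c', c) of F.mat is the generic entry (δ', δ) at (A_r, A_r ^ M). For the infinitely many levels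
it is 0; gcur A_r (A_r ^ M) m n = cur A_r (M m + n) ≠ 0 for (m, n) in L, r large (0 < M m + n < 2 r: A_r ^ (2 (M m + n)) ≠ 1). So N(A_r, A_r ^ M) = 0 for infinitely many r,
the A_r are different, so N(X, X ^ M) = 0 in ℤ[X], for all M ≥ M₀. For M larger than the degrees of the coefficients of N this gives N = 0. Now use (REP) for (A, τ):
gcur A τ m n ≠ 0 for (m, n) in L by Nondeg. -/
def St_Up : Prop :=
  ∀ (H : Type) [Finite H] (Γ : Fat H) (φ : H → ℤ) (_ : IsFlow Γ φ) (col : H → ℕ) (p q : H)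
    (F : FC Γ p q) (A : ℕ → ℂ) (_ : ∀ r, 2 ≤ r → IsPrimitiveRoot (A r) (4 * r))
    (_ : ∀ R : ℕ, ∃ r ≥ R, F.mat r col (A r) = 0) (K : Type) [Field K] (B τ : K)
    (_ : Nondeg B τ), F.gop φ col (gen φ B τ) B = 0

/-- (DWN) A relation which holds at the places holds at all large levels near states without small colours (`M = 0`).

Proof (from PLC, CUR, REP, LNK). Let δ' be one of the finitely many generic states with |δ' h - δ h| ≤ s; take N, L, i, j from (REP). Let P be a place of K (PLC). For all a ≥ 1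
the entry at (A, τ) = (1 + a ω^5, 1 + ω) is 0 and gcur A τ m n ≠ 0 for (m, n) in L (Nondeg, CUR), so N(1 + a ω^5, 1 + ω) = 0. ω is transcendental over ℤ: if q(ω) = 0, q = X^k q₁, q₁(0) ≠ 0, then
q₁(ω) = 0 has residue q₁(0). So N(1 + a W^5, 1 + W) = 0 in ℤ[W] for all a ≥ 1; as a polynomial in the first variable over ℤ[τ] N has the infinitely many roots 1 + a (τ - 1)^5, so N = 0.
At level r take M = 0: Good s 0 r δ holds for large r (hypothesis), A ^ 0 = 1, gcur A 1 m n = cur A n ≠ 0 for (m, n) in L and r large: n > 0 (m = 0: (REP); m ≠ 0: n ≥ 2 (s + 1 - s) + 2 with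
B = s + 1) and n < 2 r. So the generic entry at (A, 1) is 0 by (REP). Finally (LNK): if F.mat c' c ≠ 0 then some path has a non-zero entry, so c' = δ' for a δ' as above, and then all paths have
the generic entries (δ', δ). -/
def St_Down : Prop :=
  ∀ (H : Type) [Finite H] (Γ : Fat H) (φ : H → ℤ) (_ : IsFlow Γ φ) (col : H → ℕ) (p q : H)
    (F : FC Γ p q) (s : ℕ) (_ : ∀ x ∈ F, x.2.2.size ≤ s)
    (_ : ∀ (K : Type) [Field K] (P : Place K) (a : ℕ), 1 ≤ a →
      F.gop φ col (gen φ (P.A a) P.T) (P.A a) = 0)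
    (δ : GSt Γ φ col p) (_ : ∀ h, φ h ≠ 0 → (s : ℤ) + 1 ≤ δ.1 h)
    (_ : ∀ h, Γ.nxt h ≠ h → |φ h| ≠ |φ (Γ.nxt h)| + |φ (Γ.nxt (Γ.nxt h))| →
      δ.1 h + 3 * ((s : ℤ) + 1) ≤ δ.1 (Γ.nxt h) + δ.1 (Γ.nxt (Γ.nxt h))),
    ∃ r₁ : ℕ, ∀ r ≥ r₁, ∀ A : ℂ, IsPrimitiveRoot A (4 * r) →
      ∀ c : St Γ r col p, (∀ h, (c.1 h : ℤ) = δ.1 h) → ∀ c' : St Γ r col q,
        F.mat r col A c' c = 0

/-- (POL) Polynomials in a closed path.

Proof. Induction on S; F = [(1, 0, nil)] for the empty set; for an additional j: the products of the terms n A^i v of F with w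
and -A^j: (n, i, v.append w) and (-n, i + j, v). Values: `Path.mat` of a composition (first part of APP), `Path.gop` of a composition (base file NB). -/
def St_Pol : Prop :=
  ∀ (H : Type) [Finite H] (Γ : Fat H) (φ : H → ℤ) (col : H → ℕ) (p : H) (w : Path Γ p p)
    (S : Finset ℤ), ∃ F : FC Γ p p, (∀ x ∈ F, x.2.2.size ≤ S.card * w.size) ∧
      ∀ (K : Type) [Field K] (A : K), A ≠ 0 →
        (∀ r, F.mat r col A = Polynomial.aeval (w.mat Γ r col A) (prodA S A)) ∧
        ∀ C : Cf H K, F.gop φ col C A =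
          Polynomial.aeval (R := K) (A := Module.End K (GSt Γ φ col p →₀ K)) (w.gop φ col C)
            (prodA S A)

/-- (GRL) Inverse paths in the generic module.

Proof (from UPW, APP). Apply (UPW) with A r = A0 r to F = [(1, 0, w.append w.inv), (-1, 0, nil)]: at the levels r ≥ 2 the matrix of w.append w.inv is 1 (APP), so F.mat = 0. Then `NB_append`. The same for w.inv.append w. (Or directly as
in (INV): the 2x2 identity G(x-y+z+1) G(y-x+z+1) + G(x+y-z+1) G(x+y+z+3) = G(2x+2) G(2y+2) holds also for gcur.) -/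
def St_GRel1 : Prop :=
  ∀ (H : Type) [Finite H] (Γ : Fat H) (φ : H → ℤ) (_ : IsFlow Γ φ) (col : H → ℕ)
    (K : Type) [Field K] (A τ : K) (_ : Nondeg A τ) (p q : H) (w : Path Γ p q),
      (w.inv.gop φ col (gen φ A τ)).comp (w.gop φ col (gen φ A τ)) = LinearMap.id ∧
      (w.gop φ col (gen φ A τ)).comp (w.inv.gop φ col (gen φ A τ)) = LinearMap.id

/-- (GR2) Inverse paths and the vertex relation for the residues.

Proof (from PLC, CUR, PTR, GRL, UPW, VRT). Take a place (PLC), a = 1. By (GRL) for gen at (P.A 1, P.T) (Nondeg: CUR) and the dilations of (PTR) (invertible) the scaled operators satisfy (w.inv.gop scl) (w.gop scl) = 1; the entries of both are integral with residues the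
entries for rsd (PTR), the entries of the composition are finite sums of products, so the composition for rsd has the entries of the identity. Vertex relation: call the path V; (UPW) with A r = A0 r and F = [(1, 0, V), (1, 3, nil)]: at all levels r ≥ 2 mat V = -A^3 (VRT with b = true), so
V.gop gen = -A^3, the same for scl (dilations), residue -1 (P.A 1 has residue 1). (A direct check of both parts from the definition of rsd is possible too: internal vertices give monomial matrices, leaf vertices 2x2 matrices.) -/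
def St_GRel2 : Prop :=
  ∀ (H : Type) [Fintype H] (Γ : Fat H) (φ : H → ℤ) (_ : IsFlow Γ φ) (col : H → ℕ),
    (∀ (p q : H) (w : Path Γ p q),
      (w.inv.gop φ col (rsd φ)).comp (w.gop φ col (rsd φ)) = LinearMap.id ∧
      (w.gop φ col (rsd φ)).comp (w.inv.gop φ col (rsd φ)) = LinearMap.id) ∧
    ∀ (q h₁ h₂ h₃ q₁ q₂ : H) (e₁ : q = Γ.opp h₁) (l₁ : Γ.nxt h₁ ≠ h₁) (t₁ : q₁ = Γ.opp (Γ.nxt h₁))
      (e₂ : q₁ = Γ.opp h₂) (l₂ : Γ.nxt h₂ ≠ h₂) (t₂ : q₂ = Γ.opp (Γ.nxt h₂)) (e₃ : q₂ = Γ.opp h₃)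
      (l₃ : Γ.nxt h₃ ≠ h₃) (t₃ : q = Γ.opp (Γ.nxt h₃)),
      ((((((Path.nil.fwd (.cross h₁ q true e₁)).fwd (.turn h₁ q₁ l₁ t₁)).fwd
        (.cross h₂ q₁ true e₂)).fwd (.turn h₂ q₂ l₂ t₂)).fwd (.cross h₃ q₂ true e₃)).fwd
        (.turn h₃ q l₃ t₃)).gop φ col (rsd φ) = -LinearMap.id

/-! ## Part III: finite order -/

/-- (DNN) If a push along an element of the kernel of filling the boundary has finite order, its eigenvalues (at `A0 r`) are powers
of `A0 r` with bounded exponents.

Proof (from BAL, ISO, GAL, ARI, APP). As in (NEAR) (lemma null_near in Near.lean, private there) there is C with nrm (U v - v) ≤ C / r * nrm v for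
U = f.mat at A0 r, all r ≥ 2, every weight. J₀ ≥ C; let J ≥ J₀ and r ≥ r₀ with C / r ≤ 1/2, 2 J < r. Let f.mat ^ n = z • 1 at A; by (GAL) U ^ n = z' • 1. If there are no states all matrices are 0 = 1. Else: det U is a root of unity:
(det U)^(4 r) = 1 by induction on `Null`: the loop around a leaf is diagonal with powers of A0 r, conjugation, products, inverses (APP) (compare Dich_det); so z' ^ (4 r d) = 1, z' ≠ 0. Every eigenvalue lam of U:
lam ^ (4 r d n) = 1 and ‖lam - 1‖ ≤ C / r ≤ 1/2, also for lam ^ s, s as in (ARI) (GAL), so lam ^ (4 r) = 1, lam = (A0 r) ^ j with |j| ≤ 2 r; |lam - 1| = 2 |sin(π j/(4 r))| ≥ |j| / r (Jordan: sin x ≥ 2x/π),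
so |j| ≤ C ≤ J. U ^ n = z' • 1, z' ≠ 0: the minimal polynomial of U divides X ^ n - z', is squarefree and splits, its roots are eigenvalues, all of them in {A0 ^ j : |j| ≤ J}; so it divides prodA. -/
def St_DichN : Prop :=
  ∀ (H : Type) [Finite H] (Γ : Fat H) (col : H → ℕ) (p : H) (f : Path Γ p p), Null Γ f →
    ∃ J₀ : ℕ, ∀ J : ℕ, J₀ ≤ J → ∃ r₀ : ℕ, ∀ r ≥ r₀, ∀ A : ℂ, IsPrimitiveRoot A (4 * r) →
      ∀ n : ℕ, 0 < n → ∀ z : ℂ, f.mat Γ r col A ^ n = z • 1 →
        Polynomial.aeval (f.mat Γ r col (A0 r)) (prodA (Finset.Icc (-(J : ℤ)) J) (A0 r)) = 0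

/-! ## Part IV: the residue at the place -/

/-- (RSN) The residue of `(U - 1) / (A - 1)`.

Proof (from CUR, PTR, GRL). Induction on `NullL`. nil: []. loop w: E = [(1, w)]: U - 1 = W⁻¹ (L - 1) W, W and W⁻¹ = gop of w.inv ((GRL) for gen, hence for scl by the dilations of (PTR)) are integral with the residues of (PTR), and
L - 1 is diagonal: the loop at the position opp l is cross l (b = true) and back (b = false): entry tw^2 with |φ l| = 0, x = δ (opp l), x' = δ l: A^(-2x) if x' = x + 1, else A^(2x+4); divided by A - 1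
the residue is -2x or 2x + 4 (CUR (4)). mul (u.append v): V U - 1 = (V - 1) U + (U - 1), U has residue 1 (U - 1 is (A - 1) times integral and A - 1 = a ω^5): E = E_v ++ E_u. inv: U⁻¹ - 1 = -U⁻¹ (U - 1), and U⁻¹ has
residue U₀⁻¹ = 1: signs of E changed. Here `gop` of the inverse path is U⁻¹ (GRL). -/
def St_ResN : Prop :=
  ∀ (H : Type) [Fintype H] (Γ : Fat H) (φ : H → ℤ) (_ : IsFlow Γ φ) (col : H → ℕ) (l : H)
    (_ : Γ.nxt l = l) (p : H) (γ : Path Γ p p) (_ : NullL Γ l γ),
    ∃ E : List (ℤ × Path Γ p (Γ.opp l)), ∀ (K : Type) [Field K] (P : Place K) (a : ℕ) (_ : 1 ≤ a)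
      (δ δ' : GSt Γ φ col p),
      P.Res (((γ.gop φ col (scl φ (P.A a) P.T P.ω) (Finsupp.single δ 1)) δ' -
        (Finsupp.single δ 1 : GSt Γ φ col p →₀ K) δ') / (P.A a - 1))
        ((xOp Γ φ col l p E (Finsupp.single δ 1)) δ')

/-- (MON) The residues of closed paths at the position next to the leaf are monomial.

Proof (from GR2). Put σ h = sign (φ h). Call a position q free if φ q ≠ 0. For q not free let q^ and the frame path be: q = opp l' (l' a leaf): q^ = opp (nxt q), frame = fwd (turn q); q = l' a leaf: q^ = nxt (nxt (opp l')), frame = bwd (turn q^)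
(nxt q^ = opp l'); q^ is free (`one`). For free q: q^ = q, frame = nil. Claim: for every path w from f to q there are u : H → ℤ and signs a₊, a₋ with a₊ a₋ = σ f σ q^, u e = u f, such that for all states δ at f with s = δ f - δ (opp f),
η = s σ f: the residue of w followed by the frame of q maps δ to a_η (δ + η u), a state at q^ with sign (difference at q^ minus at opp q^) η σ q^. Induction on w. A turn h between free positions: by `rcoef`, with s₁ = η σ h: if |φ (third)| ≠ |φ h| + |φ (nxt h)|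
(then h and nxt h have opposite σ; this includes third = leaf edge): s₂ = -s₁, coefficient 1; otherwise (σ h = σ (nxt h)) s₂ = s₁, coefficient s₁. New δ: δ h - s₁ at h, δ (nxt h) + s₂ at nxt h, that is δ + η u with u = -σ h at h, σ (nxt h) at nxt h
(s₂ = η σ (nxt h) in both cases); at a leaf vertex (h, nxt h) = (e', f') u has the same value at both. New position q = opp (nxt h): sign -s₂ = η σ q, and a₊ a₋ changes by the factor σ h σ q (1 in the first case, -1 in the second). A crossing between free positions: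
coefficient s at the new position = η σ, product over η -1, σ changes sign, u = 0. Inverse moves: inverse (GR2). Moves turn (opp l') to or from opp l' and turn f' to or from l' (f' = nxt (nxt (opp l'))): nothing changes, as the frame is this move (GR2 for the inverse). Crossing from l' to opp l' =: m, e' = nxt m, f' = nxt e':
(frame of m) (cross) (frame of l')⁻¹ = turn m . cross . turn f' (from f' to opp e'), by the vertex relation with h₁ = f', h₂ = m, h₃ = e' it is -(cross e')⁻¹ (turn e')⁻¹ (cross f')⁻¹ (in the order: first (cross f')⁻¹): monomial by the previous cases. The crossing from opp l' to l' is minus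
the inverse of it (the products of the two residues of tw is -1). b does not matter for residues. For q = f: δ' = δ + η u with the same sign s; δ' and δ are symmetric off {f, opp f} and δ' f - δ' (opp f) = s = δ f - δ (opp f), so u (opp h) = u h for all h, if there is a state at all; put v = σ f u, κ = a₊ = a₋. If there is no
state take v = 0. The same for w.inv (the inverse operator) gives that δ - s v is a state; so δ + v and δ - v are states. -/
def St_Mono : Prop :=
  ∀ (H : Type) [Finite H] (Γ : Fat H) (φ : H → ℤ) (_ : IsFlow Γ φ) (col : H → ℕ) (l e f : H)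
    (_ : Γ.nxt l = l) (_ : e = Γ.nxt (Γ.opp l)) (_ : f = Γ.nxt e) (w : Path Γ f f),
    ∃ (v : H → ℤ) (κ : ℚ), (κ = 1 ∨ κ = -1) ∧ (∀ h, v (Γ.opp h) = v h) ∧ v e = v f ∧
      (∀ δ : H → ℤ, IsG Γ φ col f δ → IsG Γ φ col f (δ + v) ∧ IsG Γ φ col f (δ - v)) ∧
      ∀ δ : GSt Γ φ col f, w.gop φ col (rsd φ) (Finsupp.single δ 1) =
        pt Γ φ col f (δ.1 + (δ.1 f - δ.1 (Γ.opp f)) • v) κ

open Classical in
/-- (CNF) The operator `X₀ - 4 ε` at the position `f`.

Proof (from GR2, MON). Put m = opp l, T the residue of turn f (from f to l), T' its inverse. Let Z be the residue of the path turn m, cross e, turn e, cross f from m to f (through opp e, e, opp f). By the vertex relation (h₁ = f, h₂ = m, h₃ = e, conjugated by cross f) Z C T = -1, C the residue of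
cross m (from l to m). The operator D = dOp is diagonal and depends only on δ, so C commutes with it (as a diagonal operator D_l at l with the same entries), hence Z D Z⁻¹ = T' D_l T. For (ε, w) in E let M be the residue of the closed path turn f . w . turn m . cross e . turn e . cross f at f, M = Z W T. So
T' X₀ T = sum ε T' W⁻¹ D W T = sum ε M⁻¹ (Z D Z⁻¹) M = sum ε M⁻¹ (T' D_l T) M. D_l = 4 + 2 (t + 1) σ', t = col l, σ' = 1 where δ (opp l) = t + 1 and -1 where δ (opp l) = t - 1 (δ l = t: the entries are 2 (t + 1) + 4 and -2 (t - 1)). S := T' σ' T: with s, k as in the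
statement S δ = (-s k δ + (t + 1 + s k) tog δ)/(t + 1): in the basis δ₊ (δ f = δ (opp f) + 1), δ₋ = tog δ₊ the matrix of T (rcoef with my = 0, y = t, x = δ (opp f), z = δ e, x - z = k) is [[1, 1], [P, -Q]] (rows: new δ (opp l) = t + 1, t - 1), P = (t + 1 + k)/(2t + 2), Q = (t + 1 - k)/(2t + 2),
and T' is its inverse [[Q, 1], [P, -1]]; so S = [[Q - P, 2Q], [2P, P - Q]]. If tog δ is not a state then (parity and the two walls at the vertex of the leaf: |δ f - δ e| ≤ t) t + 1 + s k = 0. With M δ = κ (δ + s v) (MON) (tog (δ + s v) = tog δ + s v because v (opp f) = v f; k does not change because v e = v f = v (opp f);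
tog δ has the sign -s, so M⁻¹ (tog δ + s v) = κ (tog δ + 2 s v)): M⁻¹ S M δ = (-s k δ + (t + 1 + s k)(tog δ + 2 s v))/(t + 1). Sum up. -/
def St_ConjF : Prop :=
  ∀ (H : Type) [Finite H] (Γ : Fat H) (φ : H → ℤ) (_ : IsFlow Γ φ) (col : H → ℕ) (l e f : H)
    (_ : Γ.nxt l = l) (_ : e = Γ.nxt (Γ.opp l)) (_ : f = Γ.nxt e) (hf : Γ.nxt f ≠ f)
    (hq : l = Γ.opp (Γ.nxt f)) (E : List (ℤ × Path Γ l (Γ.opp l))),
    ∃ V : List (ℤ × (H → ℤ)), V.map Prod.fst = E.map Prod.fst ∧
      (∀ x ∈ V, (∀ h, x.2 (Γ.opp h) = x.2 h) ∧ x.2 e = x.2 f ∧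
        ∀ δ : H → ℤ, IsG Γ φ col f δ → IsG Γ φ col f (δ + x.2) ∧ IsG Γ φ col f (δ - x.2)) ∧
      ∀ (δ : GSt Γ φ col f) (s k ε : ℤ), s = δ.1 f - δ.1 (Γ.opp f) → k = δ.1 (Γ.opp f) - δ.1 e →
        ε = (E.map Prod.fst).sum →
        ((Path.nil.bwd (Step.turn f l hf hq)).gop φ col (rsd φ)).comp
          ((xOp Γ φ col l l E - (4 * ε : ℚ) • LinearMap.id).comp
            ((Path.nil.fwd (Step.turn f l hf hq)).gop φ col (rsd φ))) (Finsupp.single δ 1) =
        Finsupp.single δ (-(2 * ε * s * k : ℚ)) + (V.map fun x =>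
          pt Γ φ col f (Function.update δ.1 f (δ.1 (Γ.opp f) - s) + (2 * s) • x.2)
            (2 * x.1 * (col l + 1 + s * k) : ℚ)).sum

/-- (ALN) If `X₀` has only finitely many eigenvalues, all integers, it has at most two.

Proof (from CNF, GR2: T' T = 1, T T' = 1). N = T' (X₀ - 4 ε) T on the states at f. For a state δ at f with tog δ a state (tog as in CNF: value δ (opp f) - s at f): N δ = -2 ε s k δ + 2 (t + 1 + s k) sum_i ε_i (tog δ + 2 s v_i), and for the states
tog δ + 2 s v_i (sign -s, the same k): N = 2 ε s k . + 2 (t + 1 - s k) sum_j ε_j (δ + 2 s v_i - 2 s v_j). So N² δ = 4 ε² k² δ + 4 ((t + 1)² - k²) sum_{ij} ε_i ε_j (δ + 2 s (v_i - v_j)), and by symmetry in i, j this is y_k * δ in the group algebra ℚ[H → ℤ] (states: single), with g = sum_{ij} ε_i ε_j [2 (v_i - v_j)],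
y_k = 4 ε² k² + 4 ((t + 1)² - k²) g (all δ + 2 s (v_i - v_j) are states, same s and k). If tog δ is not a state the coefficient t + 1 + s k is 0 (walls and parity) and N² δ = 4 ε² (t + 1)² δ. Let δ₁ = dnT f 1 δ₀, a state at f with k = δ₀ f - δ₀ e, |k| ≤ t - 1 (walls of δ₀), so (t + 1)² - k² ≠ 0.
From hP: prod_{|j| ≤ J} (N - (j - 4 ε)) = 0, multiply by prod (N + (j - 4 ε)): prod (N² - (j - 4 ε)²) = 0; applied to δ₁: prod (y_k - (j - 4 ε)²) * [δ₁] = 0 in the group algebra ℚ[H → ℤ], which has no zero divisors; so y_k is a constant, hence g is a constant, equal to its augmentation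
ε². So N² = 4 ε² (t + 1)² on all states. If ε ≠ 0 the two numbers ε (4 ± 2 (t + 1)) are different and (X₀ - 4 ε)² = (2 ε (t + 1))² is the claim. If ε = 0 then X₀² = 0, the set is {0}; prodQ (Icc (-J) J) = X q, q(0) ≠ 0, X₀ q(X₀) = 0 and X₀² = 0 give q(0) X₀ = 0. -/
def St_AlgN : Prop :=
  ∀ (H : Type) [Finite H] (Γ : Fat H) (φ : H → ℤ) (_ : IsFlow Γ φ) (col : H → ℕ) (l : H)
    (_ : Γ.nxt l = l) (δ₀ : GSt Γ φ col l) (_ : δ₀.1 (Γ.opp l) = col l - 1)
    (E : List (ℤ × Path Γ l (Γ.opp l))) (J : ℕ)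
    (_ : Polynomial.aeval (R := ℚ) (A := Module.End ℚ (GSt Γ φ col l →₀ ℚ)) (xOp Γ φ col l l E)
      (prodQ (Finset.Icc (-(J : ℤ)) J)) = 0) (ε : ℤ) (_ : ε = (E.map Prod.fst).sum),
    Polynomial.aeval (R := ℚ) (A := Module.End ℚ (GSt Γ φ col l →₀ ℚ)) (xOp Γ φ col l l E)
      (prodQ {ε * (4 + 2 * (col l + 1)), ε * (4 - 2 * (col l + 1))}) = 0

/-- (LFT) Lifting of the spectrum.

Proof (from CUR). Y = (A - 1)⁻¹ (U - 1). Call T : (ι →₀ K) → (ι →₀ K) integral with residue T₀ if all entries (T (single i 1)) j have the residues (T₀ (single i 1)) j. Sums, compositions (finite sums), multiples by integral elements: so for a polynomial q over O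
q(Y) is integral with residue q₀(X). A ^ j - 1 = (A - 1) u_j with u_j of residue j (CUR), U - A ^ j = (A - 1) (Y - u_j), so prod_{j in S} (Y - u_j) = 0; taking residues: prodQ S (X) = 0. Let S' ⊆ S, R = prod_{S'} (Y - u_j), Z = prod_{S minus S'} (Y - u_j), R Z = 0.
prodQ S' and prodQ (S \ S') are coprime in ℚ[X] (distinct roots): α prodQ (S \ S') + β prodQ S' = 1, so α(X) prodQ(S \ S')(X) = 1 if prodQ S' (X) = 0. So α(Y) Z (coefficients of α in ℚ ⊆ O) is integral with residue 1: α(Y) Z = 1 + ω Q, Q integral (`ker`). R α(Y) Z = 0 gives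
R = -ω R Q = ω² R Q² = ...: all entries of R are divisible by all powers of ω in O, so R = 0 (`sep`), and prodA S' (U) = (A - 1)^|S'| R = 0. -/
def St_Lift : Prop :=
  ∀ (ι : Type) (K : Type) [Field K] (P : Place K) (a : ℕ) (_ : 1 ≤ a) (U : Module.End K (ι →₀ K))
    (X : Module.End ℚ (ι →₀ ℚ))
    (_ : ∀ i j, P.Res (((U (Finsupp.single i 1)) j - (Finsupp.single i 1 : ι →₀ K) j) /
      (P.A a - 1)) ((X (Finsupp.single i 1)) j)) (S : Finset ℤ)
    (_ : Polynomial.aeval U (prodA S (P.A a)) = 0),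
    Polynomial.aeval X (prodQ S) = 0 ∧ ∀ S' ⊆ S, Polynomial.aeval X (prodQ S') = 0 →
      Polynomial.aeval U (prodA S' (P.A a)) = 0

/-! ## Part V: the end -/

open Classical in
/-- (SUP) The support of a column for reduced paths, and crossings.

Proof. (1) is part of `Ext_main` (Ext.lean). (2) Induction on ρ: the arrival half edge of ρ.path is a (`trk`), and `bump` adds 1 at the two halves of an edge exactly when
the edge is traversed (σ = false for `ccw`, σ = true for `cw`; a ≠ opp a). (3) Induction: after a turn the arrival half edge is not a leaf. -/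
def St_Sup : Prop :=
  ∀ (H : Type) [Fintype H] (Γ : Fat H) (l : H) (_ : Γ.nxt l = l) (a : H) (σ : Bool) (k : ℤ)
    (ρ : Red Γ l a σ k),
    (∀ (t r : ℕ) (_ : Even t) (_ : 2 * ρ.len + 6 ≤ t) (_ : 3 * (t + ρ.len + 2) + 4 ≤ 2 * r) (A : ℂ)
      (c₀ : St Γ r (colour l t) l) (_ : c₀.1 = colour l t) (c : St Γ r (colour l t) (pos Γ a σ)),
      ρ.path.mat Γ r (colour l t) A c c₀ ≠ 0 →
        (∑ h, if h = a then c.1 (Γ.opp a) else c.1 h) ≤ ∑ h, (t + ρ.nu h)) ∧
    ∑ h, ρ.nu h = 2 * crossings ρ.path ∧ (Γ.nxt a = a → a = l ∧ crossings ρ.path = 0)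

/-- (FNN) The theorem.

Proof (from everything above and APP, HOM, RED, EXS, EXT, CONE, LPO). Let ρ₁ be a reduced path homotopic to γ (RED), N with crossings w > crossings ρ₁.path for all w homotopic to γ^N, ρ a reduced path homotopic to γ^N. crossings ρ₁.path =: T₁ < T := crossings ρ.path. If ρ₁ ended at the leaf half edge l
(a = l) it would consist of twists, T₁ = 0 and (ρ₁.path)^N, homotopic to γ^N (Hom is compatible with composition), would have no crossings: contradiction. So the arrival half edge of ρ₁ is m = opp l (pos a σ = l), T₁ ≥ 1 (the first turn leaves the leaf edge at m, see (3) of (SUP) and the definition of trk), and T ≥ 2; so the arrival half edge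
of ρ is m too. Let t₀ be larger than the bounds of (CONE) for ρ, 2 len + 6 for ρ, ρ₁ and 6 size γ + 6; t ≥ t₀ even, col = colour l t. Assume that for no r₀ the claim holds. Then for infinitely many r there are A, n > 0, z with mat γ ^ n = z • 1. NullL ⊆ Null (l is a leaf). Take E from (RSN), ε the sum of its signs, j₁, j₂ = ε (4 ± 2 (t + 2)),
J₀ from (DNN), J ≥ J₀, |j₁|, |j₂|, S = Icc (-J) J. By (DNN) prodA S (U) = 0 at A0 r for infinitely many r; with F from (POL) (UPW) gives prodA S (γ.gop gen) = 0 for all non-degenerate (A, τ), in particular (P.A a, P.T) (CUR), hence for scl (PTR (2), dil is invertible). (LFT) and (RSN) give prodQ S (X₀) = 0; (ALN) with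
δ₀ = colour l t (a generic state at l: all values t except t + 1 at l; δ₀ (opp l) = t = col l - 1) gives prodQ {j₁, j₂} (X₀) = 0, (LFT) prodA {j₁, j₂} (U) = 0 for scl, hence for gen, at all places. With F' from (POL) for {j₁, j₂} (sizes ≤ 2 size γ) and (DWN), δ = δ₀: there is r₁ such that for all r ≥ r₁ and all primitive 4r-th roots of unity A
prodA {j₁, j₂} (U) c₀ = 0 for the column of the state c₀ = colour l t. The polynomial is monic of degree ≤ 2, so by division U^N c₀ is a combination of c₀ and U c₀. Entry at c₁ = ρ.ext t true: U^N = mat γ^N = u mat ρ.path, u ≠ 0 (HOM), entry alpha.1 ≠ 0 for r large (EXT, CONE, LPO). The sum in (SUP) of c₁ (a = m) is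
sum (t + nu ρ) = |H| t + 2 T; for c₀ it is |H| t + 2 < |H| t + 2 T, so c₁ ≠ c₀, and U = u' mat ρ₁.path has entry 0 at (c₁, c₀), because |H| t + 2 T > |H| t + 2 T₁ (SUP). Contradiction. -/
def St_FinalN : Prop :=
  ∀ (H : Type) [Finite H] (Γ : Fat H) (φ : H → ℤ) (_ : IsFlow Γ φ) (l : H) (_ : Γ.nxt l = l)
    (γ : Path Γ l l), NullL Γ l γ →
    (∀ B : ℕ, ∃ n : ℕ, ∀ w : Path Γ l l, Hom Γ w (γ.pow n) → B < crossings w) →
    ∃ t₀ : ℕ, ∀ t ≥ t₀, Even t → ∃ r₀ : ℕ, ∀ r ≥ r₀, ∀ A : ℂ, IsPrimitiveRoot A (4 * r) →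
      ∀ n : ℕ, 0 < n → ∀ z : ℂ, γ.mat Γ r (colour l t) A ^ n ≠ z • 1

end Pool.Agent.AMS
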