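import Pool.Agent.AMS.St

/-!
# Prime levels: definitions and statements of the modules

At a prime level `r = p` all matrices of paths have entries in `ℤ[A]` in the given basis. With
`hh A = A ^ 4 - 1` (a generator of the ideal above `p` in `ℤ[A]`, `p = unit * (hh A) ^ (p - 1)`) the
loops around all edges of the graph act by signs modulo `hh A`, so commutators of elements of the
kernel `K` of `π₁(Σ_{g,m}) → π₁(handlebody)` act trivially modulo `(hh A) ^ 2`; but
`1 + (hh A) ^ 2 M` has no torsion.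
-/

namespace Pool.Agent.AMS

section

variable {H : Type} (Γ : Fat H)

/-- The normal closure of the loops around all edges of the graph: the kernel of
`π₁(Σ_{g,m}) → π₁(handlebody)`, the handlebody being the thickening of the graph. -/
inductive NullK {p : H} : Path Γ p p → Prop
  | nil : NullK .nil
  | loop (h : H) (w : Path Γ p (Γ.opp h)) :
      NullK ((w.append (loop Γ h)).append w.inv)
  | mul {u v : Path Γ p p} : NullK u → NullK v → NullK (u.append v)
  | inv {u : Path Γ p p} : NullK u → NullK u.inv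

/-- Products of commutators of elements of `NullK`. -/
inductive CommK {p : H} : Path Γ p p → Prop
  | nil : CommK .nil
  | comm {u v : Path Γ p p} (hu : NullK Γ u) (hv : NullK Γ v) :
      CommK (((u.append v).append u.inv).append v.inv)
  | mul {u v : Path Γ p p} : CommK u → CommK v → CommK (u.append v)

variable {Γ}

open Classical in
/-- Change of the parities of the colours under a move. -/
noncomputable def Step.par : {q t : H} → Step Γ q t → H → ZMod 2
  | _, _, .turn h _ _ _ => fun k => (if k = h then 1 else 0) + (if k = Γ.nxt h then 1 else 0)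
  | _, _, .cross _ _ _ _ => fun _ => 0

/-- Change of the parities of the colours under a path. -/
noncomputable def Path.par {p : H} : {q : H} → Path Γ p q → H → ZMod 2
  | _, .nil => fun _ => 0
  | _, .fwd w s => fun k => w.par k + s.par k
  | _, .bwd w s => fun k => w.par k + s.par k

end

/-- `ζ - 1` for the primitive `p`-th root of unity `ζ = A ^ 4`. -/
def hh (A : ℂ) : ℂ := A ^ 4 - 1

/-- The ring `ℤ[A]`. -/
def RR (A : ℂ) : Subring ℂ := Subring.closure {A}

open Classical in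
/-- `U` is congruent to the diagonal matrix with the signs `σ (parities)` modulo `hh A`, and
preserves the parities. -/
def SgnMod {H : Type} [Finite H] (Γ : Fat H) (r : ℕ) (col : H → ℕ) (A : ℂ) {p : H}
    (σ : (H → ZMod 2) → ℤ) (U : Matrix (St Γ r col p) (St Γ r col p) ℂ) : Prop :=
  (∀ c' c, U c' c ≠ 0 → ∀ k, ((c'.1 k : ℕ) : ZMod 2) = ((c.1 k : ℕ) : ZMod 2)) ∧
  ∃ Y : Matrix (St Γ r col p) (St Γ r col p) ℂ, (∀ c' c, Y c' c ∈ RR A) ∧
    ∀ c' c, U c' c =
      (if c' = c then ((σ fun k => ((c.1 k : ℕ) : ZMod 2) : ℤ) : ℂ) else 0) + hh A * Y c' c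

/-- (CYC) Arithmetic of `ℤ[A]`, `A` a primitive `4p`-th root of unity, `p` an odd prime.

Proof. `ζ = A ^ 4` is a primitive `p`-th root of unity, `hh A = ζ - 1`; `A⁻¹ = A ^ (4 p - 1)`. (2) For `p ∤ b` choose `b' ≥ 1` with
`b b' ≡ a mod p` (`a b⁻¹` mod p): `A ^ (4 a) = (A ^ (4 b)) ^ b'`, so the quotient is `1 + x + ... + x ^ (b' - 1)`,
`x = A ^ (4 b)` (if `b' ≡ 0` it is `0`). (3) `p = prod_{0 < b < p} (1 - ζ ^ b)` (value at `1` of the cyclotomic polynomial, Mathlib:
`IsPrimitiveRoot.prod_one_sub_pow_eq_order` or `Polynomial.eval_one_cyclotomic_prime`), and `(1 - ζ ^ b) = (1 - ζ) * unit` by (2) with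
`(a, b) = (b, 1), (1, b)`; `(-1) ^ (p - 1) = 1`. (4) `RR A` is a Noetherian domain (finitely generated `ℤ`-algebra; or a finite
`ℤ`-module) and `hh A` is not a unit in it: else `p` would be a unit, but `1 / p` is not integral over `ℤ`, while all elements of
`RR A` are (`A` is); so `⋂ (hh A ^ n) = 0` by Krull (`Ideal.iInf_pow_eq_bot_of_isDomain`). Or directly: if `x = hh ^ (n (p-1)) y` then
`x = p ^ n u y`, so `x / p ^ n` is integral for all `n`, hence (multiply by an integer multiple of 1/x) `x = 0`. (5) `-A ^ 2` is a primitive `p`-th root of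
unity (`A ^ 2` has order `2 p`, `p` odd), so `-A ^ 2 = ζ ^ k` and `-(A ^ 2 + 1) = ζ ^ k - 1` is a multiple of `hh A`. -/
def St_Cyc : Prop :=
  ∀ (p : ℕ) (_ : p.Prime) (_ : 3 ≤ p) (A : ℂ) (_ : IsPrimitiveRoot A (4 * p)),
    A⁻¹ ∈ RR A ∧
    (∀ a b : ℕ, ¬ p ∣ b → (A ^ (4 * a) - 1) / (A ^ (4 * b) - 1) ∈ RR A) ∧
    (∃ u ∈ RR A, u⁻¹ ∈ RR A ∧ u ≠ 0 ∧ (p : ℂ) = u * hh A ^ (p - 1)) ∧
    (∀ x ∈ RR A, (∀ n : ℕ, ∃ y ∈ RR A, x = hh A ^ n * y) → x = 0) ∧
    ∃ y ∈ RR A, A ^ 2 + 1 = hh A * y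

/-- (INT) Integrality of the moves at a prime level.

Proof (from CYC). All colours of states are `≤ p - 2`. `cur A (2 a) = A ^ (-2 a) (A ^ (4 a) - 1)` for `a : ℕ`, and `cur A (-n) = - cur A n`.
In `coef A x x' y y' z` (for `mat`: x = c (opp h), x' = c h = x ± 1, y = c (nxt h), z = c (nxt (nxt h)), the triple (x', y, z) is admissible,
so `x + y + z` is odd and all numerators are `cur A (2 a)` with an integer a; denominators `cur A (2 (x + 1))`, `cur A (2 (y + 1))`
with `0 < x + 1, y + 1 < p`), so every value is a product of elements of `RR A` by (2) of CYC and of powers of `A^{±1}`. The same for `mat'`.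
`cross`: `tw A _ _` is `A ^ (-x)` or `-A ^ (x + 2)`. -/
def St_Int : Prop :=
  ∀ (p : ℕ) (_ : p.Prime) (_ : 3 ≤ p) (A : ℂ) (_ : IsPrimitiveRoot A (4 * p)) (H : Type)
    [Finite H] (Γ : Fat H) (col : H → ℕ) (q t : H) (s : Step Γ q t) (c' : St Γ p col t)
    (c : St Γ p col q), s.mat Γ p col A c' c ∈ RR A ∧ s.mat' Γ p col A c c' ∈ RR A

/-- (PAR) Parities, and integrality of paths.

Proof. First part: a move `turn h` changes exactly the colours of `h` and `nxt h`, each by `± 1` (`IsSt` at both positions: if the entry is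
not zero then c' k = c k for k ≠ h, nxt h; c' h = c (opp h) = c h ± 1; c (nxt h) = c' (opp (nxt h)) = c' (nxt h) ± 1, the equality
c (nxt h) = c' (opp (nxt h)) as in (INV), for example from `Vert.lean`, `Inv.lean`); `cross` changes nothing. Induction on the path (a non-zero entry of a product of
matrices has a non-zero term). `par` of inverse paths and compositions: induction. Second part: induction, from (INT). -/
def St_Par : Prop :=
  (∀ (H : Type) [Finite H] (Γ : Fat H) (r : ℕ) (col : H → ℕ) (A : ℂ) (p q : H)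
    (w : Path Γ p q) (c' : St Γ r col q) (c : St Γ r col p), w.mat Γ r col A c' c ≠ 0 →
    ∀ k, ((c'.1 k : ℕ) : ZMod 2) = ((c.1 k : ℕ) : ZMod 2) + w.par k) ∧
  (∀ (H : Type) (Γ : Fat H) (p q t : H) (w : Path Γ p q) (v : Path Γ q t) (k : H),
    (w.append v).par k = w.par k + v.par k) ∧
  (∀ (H : Type) (Γ : Fat H) (p q : H) (w : Path Γ p q) (k : H), w.inv.par k = w.par k) ∧
  ∀ (p : ℕ) (_ : p.Prime) (_ : 3 ≤ p) (A : ℂ) (_ : IsPrimitiveRoot A (4 * p)) (H : Type)
    [Finite H] (Γ : Fat H) (col : H → ℕ) (q t : H) (w : Path Γ q t) (c' : St Γ p col t)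
    (c : St Γ p col q), w.mat Γ p col A c' c ∈ RR A

/-- (KMD) Elements of `NullK` act by signs modulo `hh A`.

Proof (from CYC, PAR, APP). Induction on `NullK`; `σ` is built along the induction and has values `± 1`. `loop Γ h` (position `opp h`) is diagonal with the
entries `tw A x x' ^ 2`, `x = c (opp h)`, `x' = c h`: `A ^ (-2 x)` or `A ^ (2 x + 4)`, congruent to `(-1) ^ x` modulo `hh A` (`A ^ 2 ≡ -1` by (5)
of CYC, `A ^ 4 ≡ 1`, `A⁻¹ ∈ RR A`). Conjugation: matrix `W' L W`, `W = w.mat`, `W' = w.inv.mat`, `W' W = 1` (APP), all entries in `RR A`; modulo `hh A` the entry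
(c', c) is sum over c₁ of W'(c', c₁) (-1)^(c₁ (opp h)) W(c₁, c), and `c₁ (opp h)` has the parity of `c (opp h) + w.par (opp h)` if
`W(c₁, c) ≠ 0` (PAR), so it is `(-1)^(c (opp h) + par) * (W' W)(c', c)`: σ(ν) = (-1)^(ν (opp h) + w.par (opp h)). Parities are preserved: `par` of the
conjugate is `2 par w = 0`. `mul`: σ = product (Y = Y_v Σ_u + Σ_v Y_u + hh Y_v Y_u, Σ diagonal). `inv`: U' U = 1, U = Σ + hh Y, so
U' = Σ - hh U' Y Σ (Σ² = 1, U' has entries in `RR A` by PAR). -/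
def St_KMod : Prop :=
  ∀ (H : Type) [Finite H] (Γ : Fat H) (q : H) (u : Path Γ q q), NullK Γ u →
    ∃ σ : (H → ZMod 2) → ℤ, (∀ ν, σ ν = 1 ∨ σ ν = -1) ∧
      ∀ (p : ℕ) (_ : p.Prime) (_ : 3 ≤ p) (A : ℂ) (_ : IsPrimitiveRoot A (4 * p)) (col : H → ℕ),
        SgnMod Γ p col A σ (u.mat Γ p col A)

/-- (KCO) Products of commutators are `1` modulo `(hh A) ^ 2`.

Proof (from KMD, PAR, APP). `comm`: with U, V, U', V' the matrices of u, v, u.inv, v.inv the matrix is V' U' V U, and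
V' U' V U - 1 = V' U' (V U - U V). U = Σ + hh Y, V = Σ' + hh Y', Σ, Σ' diagonal; Y, Y' preserve the parities (where c', c have different parities
the entries of U and of Σ vanish, `hh A ≠ 0`), so Σ commutes with Y' and Σ' with Y (`σ` depends only on the parities); so V U - U V = hh² (Y' Y - Y Y').
Products: (1 + hh² Z)(1 + hh² Z') = 1 + hh² (Z + Z' + hh² Z Z'). -/
def St_KComm : Prop :=
  ∀ (H : Type) [Finite H] (Γ : Fat H) (q : H) (f : Path Γ q q), CommK Γ f →
    ∀ (p : ℕ) (_ : p.Prime) (_ : 3 ≤ p) (A : ℂ) (_ : IsPrimitiveRoot A (4 * p)) (col : H → ℕ),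
      ∃ Z : Matrix (St Γ p col q) (St Γ p col q) ℂ, (∀ c' c, Z c' c ∈ RR A) ∧
        f.mat Γ p col A = 1 + hh A ^ 2 • Z

/-- (TOR) No torsion in `1 + h² M(R)`.

Proof. Suppose U ≠ 1; let N be the order of U (finite), l a prime divisor of N, V = U ^ (N / l), so V ≠ 1, V ^ l = 1 and V = 1 + h² W₂
with W₂ over R. Claim: V = 1 + h ^ a W with W over R for every a ≥ 2; by the separation hypothesis (`hsep`, entry by entry) V = 1: contradiction.
Induction: V = 1 + h ^ a W, a ≥ 2, V ^ l = 1: sum_{i=1}^{l} binom(l, i) h ^ (a i) W ^ i = 0.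
If l ≠ p: divide by h ^ a: l W = h * (something over R); by Bezout l l' + p p' = 1, p = u h ^ (p - 1): W = l' l W + p' p W = h * (over R).
If l = p: divide by h ^ (a + p - 1): u W + sum_{i=2}^{p-1} (binom(p, i) / p) u h ^ (a (i - 1)) W ^ i + h ^ ((a - 1)(p - 1) + ... ) W ^ p = 0, where the exponent of the last term is
a p - a - (p - 1) = (a - 1)(p - 1) ≥ 1; so W = h * (something over R), as `u⁻¹ ∈ R`. -/
def St_Tor : Prop :=
  ∀ (R : Subring ℂ) (h u : ℂ) (p : ℕ) (_ : p.Prime) (_ : 3 ≤ p) (_ : h ∈ R) (_ : h ≠ 0)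
    (_ : u ∈ R) (_ : u⁻¹ ∈ R) (_ : u ≠ 0) (_ : (p : ℂ) = u * h ^ (p - 1))
    (_ : ∀ x ∈ R, (∀ n : ℕ, ∃ y ∈ R, x = h ^ n * y) → x = 0)
    (ι : Type) [Fintype ι] [DecidableEq ι] (Z : Matrix ι ι ℂ) (_ : ∀ i j, Z i j ∈ R)
    (N : ℕ) (_ : 0 < N), (1 + h ^ 2 • Z) ^ N = 1 → Z = 0

/-- (DPR) Dichotomy at prime levels.

Proof (from CYC, KCO, TOR, APP). Let mat f ^ n = z • 1, n > 0. If there are no states, mat f = 1 trivially. Else det (mat f) = 1 (`f` is a product of
commutators of closed paths, APP), so z ^ d = 1 with d > 0 the number of states and (mat f) ^ (n d) = 1; mat f = 1 + hh² Z, so Z = 0 by TOR. -/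
def St_DichP : Prop :=
  ∀ (H : Type) [Finite H] (Γ : Fat H) (q : H) (f : Path Γ q q), CommK Γ f →
    ∀ (p : ℕ) (_ : p.Prime) (_ : 3 ≤ p) (A : ℂ) (_ : IsPrimitiveRoot A (4 * p)) (col : H → ℕ),
      f.mat Γ p col A = 1 ∨ ∀ n : ℕ, 0 < n → ∀ z : ℂ, f.mat Γ p col A ^ n ≠ z • 1

/-- (FNP) Final theorem for prime levels: (DPR) and (NSC). -/
def St_FinalP : Prop :=
  ∀ (H : Type) [Finite H] (Γ : Fat H) (l : H) (_ : Γ.nxt l = l) (f : Path Γ l l),
    CommK Γ f → ¬ Hom Γ f .nil → ∃ t₀ : ℕ, ∀ t ≥ t₀, Even t → ∃ r₀ : ℕ, ∀ r ≥ r₀, r.Prime →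
      ∀ A : ℂ, IsPrimitiveRoot A (4 * r) → ∀ n : ℕ, 0 < n → ∀ z : ℂ,
        f.mat Γ r (colour l t) A ^ n ≠ z • 1

end Pool.Agent.AMS
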