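import Pool.Agent.AMS.NB
import Pool.Agent.AMS.Ext
import Pool.Agent.AMS.ExtSt

/-!
# AMS (SUP): the support of a column for reduced paths, and crossings (helper18)
-/

set_option autoImplicit false

namespace Pool.Agent.AMS

section

variable {H : Type} {Γ : Fat H}

theorem Sup_trk_fwd_cross {b p q h : H} (w : Path Γ p q) (c : Bool) (hq : q = Γ.opp h) :
    (w.fwd (.cross h q c hq)).trk b = w.trk b := rfl

theorem Sup_trk_bwd_cross {b p q h : H} (w : Path Γ p h) (c : Bool) (hq : q = Γ.opp h) :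
    (w.bwd (.cross h q c hq)).trk b = w.trk b := rfl

open Classical in
theorem Sup_trk_fwd_turn {b p q h : H} (w : Path Γ p h) (hl : Γ.nxt h ≠ h)
    (hq : q = Γ.opp (Γ.nxt h)) :
    (w.fwd (.turn h q hl hq)).trk b =
      (Γ.nxt h, (w.trk b).2 + if (w.trk b).1 = h then 0 else 1) := rfl

open Classical in
theorem Sup_trk_bwd_turn {b p q h : H} (w : Path Γ p q) (hl : Γ.nxt h ≠ h)
    (hq : q = Γ.opp (Γ.nxt h)) :
    (w.bwd (.turn h q hl hq)).trk b =
      (h, (w.trk b).2 + if (w.trk b).1 = Γ.nxt h then 0 else 1) := rfl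

/-- The arrival half edge and the number of crossings of a reduced path. -/
theorem Sup_trk [Fintype H] {l a : H} {σ : Bool} {k : ℤ} (ρ : Red Γ l a σ k) :
    (ρ.path.trk l).1 = a ∧ ∑ h, ρ.nu h = 2 * (ρ.path.trk l).2 := by
  classical
  induction ρ with
  | base =>
    refine ⟨rfl, ?_⟩
    change ∑ _h : H, 0 = 2 * 0
    simp
  | @up a σ k w hk ih =>
    cases σ
    · exact ih
    · exact ih
  | @dn a σ k w hk ih =>
    cases σ
    · exact ih
    · exact ih
  | @ccw a σ k w hl hb ih =>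
    obtain ⟨i1, i2⟩ := ih
    have h1 : (Red.ccw w hl hb).path.trk l = (Γ.nxt (pos Γ a σ),
        (w.path.trk l).2 + if (w.path.trk l).1 = pos Γ a σ then 0 else 1) :=
      Sup_trk_fwd_turn w.path hl rfl
    rw [h1]
    refine ⟨rfl, ?_⟩
    cases σ
    · have h2 : a ≠ pos Γ a false := Ne.symm (Γ.opp_ne a)
      change ∑ h, bump Γ a w.nu h = _
      rw [Ext_bump_sum, i2, i1, if_neg h2]
      ring
    · have h2 : a = pos Γ a true := rfl
      change ∑ h, w.nu h = _
      rw [i2, i1, if_pos h2]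
      rfl
  | @cw a b σ k w hq hl hb ih =>
    obtain ⟨i1, i2⟩ := ih
    have h1 : (Red.cw w hq hl hb).path.trk l = (b,
        (w.path.trk l).2 + if (w.path.trk l).1 = Γ.nxt b then 0 else 1) :=
      Sup_trk_bwd_turn w.path hl hq
    rw [h1]
    refine ⟨rfl, ?_⟩
    cases σ
    · have h2 : a = Γ.nxt b := by
        have h3 : Γ.opp a = Γ.opp (Γ.nxt b) := hq
        rw [← Γ.opp_opp a, h3, Γ.opp_opp]
      change ∑ h, w.nu h = _
      rw [i2, i1, if_pos h2]
      rfl
    · have h2 : a ≠ Γ.nxt b := by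
        have h3 : a = Γ.opp (Γ.nxt b) := hq
        intro h4
        rw [← h4] at h3
        exact Γ.opp_ne a h3.symm
      change ∑ h, bump Γ a w.nu h = _
      rw [Ext_bump_sum, i2, i1, if_neg h2]
      ring

end

open Classical in
theorem thm_Sup (hS : St_ExtSt) : St_Sup := by
  intro H _ Γ l hl a σ k ρ
  obtain ⟨t1, t2⟩ := Sup_trk ρ
  refine ⟨fun t r ht h1 h2 A c₀ hc₀ c hc => ?_, t2, fun ha => ?_⟩
  · obtain ⟨-, h3⟩ := Ext_main hS Γ l hl t r ht A c₀ hc₀ ρ
    obtain ⟨h4, -, -⟩ := h3 h1 h2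
    have h5 := h4 c.1 (by
      have h6 : ExtE Γ r (colour l t) A ρ.path c₀ c.1 =
          ρ.path.mat Γ r (colour l t) A c c₀ :=
        ExtZ_val Γ r (colour l t) (fun c' => ρ.path.mat Γ r (colour l t) A c' c₀) c
      rw [h6]
      exact hc)
    have h6 : (∑ h, if h = a then c.1 (Γ.opp a) else c.1 h) + c.1 a =
        ∑ h, c.1 h + c.1 (Γ.opp a) := by
      rw [← Finset.add_sum_erase Finset.univ c.1 (Finset.mem_univ a),
        ← Finset.add_sum_erase Finset.univ (fun h => if h = a then c.1 (Γ.opp a) else c.1 h)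
          (Finset.mem_univ a)]
      have h7 : ∑ h ∈ Finset.univ.erase a, (if h = a then c.1 (Γ.opp a) else c.1 h) =
          ∑ h ∈ Finset.univ.erase a, c.1 h :=
        Finset.sum_congr rfl fun h hh => if_neg (Finset.mem_erase.1 hh).1
      rw [h7, if_pos rfl]
      omega
    omega
  · obtain ⟨h1, h2⟩ := (ExtSt_inv hl ρ).leaf ha
    refine ⟨h1, ?_⟩
    have h3 : ∑ h, ρ.nu h = 0 := Finset.sum_eq_zero fun h _ => h2 h
    rw [h3] at t2
    unfold crossings
    omega

end Pool.Agent.AMS
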