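import Pool.Agent.AMS.StP

/-!
# Module `Tor` (problem MP_7b657c_gt): no torsion in `1 + h² M(R)`
-/

set_option autoImplicit false

namespace Pool.Agent.AMS

/-- expansion of a power to second order -/
private theorem tor_expand {M : Type} [Ring M] (T : M) (l : ℕ) :
    ∃ Q : M, (1 + T) ^ l = 1 + (l : M) * T + T * T * Q := by
  induction l with
  | zero => exact ⟨0, by simp⟩
  | succ l ih =>
    obtain ⟨Q, hQ⟩ := ih
    refine ⟨Q + (l : M) + Q * T, ?_⟩
    have hc : (l : M) * (T * T) = T * (T * (l : M)) := by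
      rw [(Nat.cast_commute l (T * T)).eq, mul_assoc]
    rw [pow_succ, hQ]
    push_cast
    simp only [add_mul, mul_add, mul_one, one_mul, mul_assoc, hc]
    abel

/-- expansion of a prime power -/
private theorem tor_expand_prime {M : Type} [Ring M] (T : M) {p : ℕ} (hp : p.Prime) :
    ∃ S : M, (1 + T) ^ p = 1 + T ^ p + (p : M) * (T + T * T * S) := by
  have hc : Commute T (1 : M) := Commute.one_right T
  have h1 := hc.add_pow_prime_eq hp
  have h2 : Finset.Ioo 0 p = insert 1 (Finset.Ioo 1 p) := by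
    have := hp.two_le
    ext k
    simp only [Finset.mem_Ioo, Finset.mem_insert]
    omega
  refine ⟨∑ k ∈ Finset.Ioo 1 p, T ^ (k - 2) * ((p.choose k / p : ℕ) : M), ?_⟩
  rw [add_comm (1 : M) T, h1, h2, Finset.sum_insert (by simp)]
  have h3 : ∑ k ∈ Finset.Ioo 1 p, T ^ (k - 1) * 1 ^ (p - k - 1) * ((p.choose k / p : ℕ) : M)
      = T * ∑ k ∈ Finset.Ioo 1 p, T ^ (k - 2) * ((p.choose k / p : ℕ) : M) := by
    rw [Finset.mul_sum]
    refine Finset.sum_congr rfl fun k hk => ?_
    have hk2 : 2 ≤ k := by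
      have := (Finset.mem_Ioo.1 hk).1
      omega
    obtain ⟨j, rfl⟩ : ∃ j, k = j + 2 := ⟨k - 2, by omega⟩
    rw [show j + 2 - 2 = j by omega, show j + 2 - 1 = j + 1 by omega, one_pow, mul_one,
      ← mul_assoc, pow_succ']
  rw [h3]
  have h4 : ((p.choose 1 / p : ℕ) : M) = 1 := by
    rw [Nat.choose_one_right, Nat.div_self hp.pos, Nat.cast_one]
  rw [h4, one_pow, one_pow, mul_one, mul_one, mul_one, Nat.sub_self, pow_zero,
    add_comm (T ^ p) 1, mul_assoc (p : M), mul_add T, mul_one, ← mul_assoc T T]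

section

variable {R : Type} [CommRing R] [IsDomain R] {ι : Type} [Fintype ι] [DecidableEq ι]

omit [Fintype ι] [DecidableEq ι] in
private theorem tor_cancel {c : R} (hc : c ≠ 0) {X Y : Matrix ι ι R} (h : c • X = c • Y) : X = Y := by
  ext i j
  have h1 := congrFun (congrFun h i) j
  simp only [Matrix.smul_apply, smul_eq_mul] at h1
  exact mul_left_cancel₀ hc h1

/-- one step of the descent -/
private theorem tor_step {h u v : R} {p : ℕ} (hp : p.Prime) (h0 : h ≠ 0)
    (huv : u * v = 1) (hpu : (p : R) = u * h ^ (p - 1)) {l : ℕ} (hl : l.Prime) (a : ℕ)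
    (W : Matrix ι ι R) (hW : (1 + h ^ (a + 2) • W) ^ l = 1) : ∃ W' : Matrix ι ι R, W = h • W' := by
  by_cases hlp : l = p
  · subst hlp
    obtain ⟨S, hS⟩ := tor_expand_prime (h ^ (a + 2) • W) hl
    rw [hW] at hS
    obtain ⟨k, rfl⟩ : ∃ k, l = k + 2 := ⟨l - 2, by have := hl.two_le; omega⟩
    rw [show k + 2 - 1 = k + 1 by omega] at hpu
    have hcast : ((k + 2 : ℕ) : Matrix ι ι R) = ((k + 2 : ℕ) : R) • (1 : Matrix ι ι R) := by
      rw [Nat.cast_smul_eq_nsmul, nsmul_one]
    have h1 : h ^ (a + 2 + (k + 1)) •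
        (h ^ ((a + 1) * (k + 1)) • W ^ (k + 2) + u • (W + h ^ (a + 2) • (W * W * S))) = 0 := by
      have h2 : (h ^ (a + 2) • W) ^ (k + 2) + ((k + 2 : ℕ) : Matrix ι ι R) *
          (h ^ (a + 2) • W + (h ^ (a + 2) • W) * (h ^ (a + 2) • W) * S) = 0 := by
        have h3 : (1 : Matrix ι ι R) + 0 = 1 + ((h ^ (a + 2) • W) ^ (k + 2) +
            ((k + 2 : ℕ) : Matrix ι ι R) *
            (h ^ (a + 2) • W + (h ^ (a + 2) • W) * (h ^ (a + 2) • W) * S)) := by
          rw [add_zero, ← add_assoc]; exact hS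
        exact (add_left_cancel h3).symm
      rw [hcast, hpu] at h2
      rw [← h2, smul_pow, smul_mul_assoc, one_mul, smul_mul_assoc, mul_smul_comm, smul_mul_assoc,
        smul_mul_assoc]
      simp only [smul_add, smul_smul]
      congr 1
      · congr 1
        ring
      · congr 1
        · congr 1
          ring
        · congr 1
          ring
    have h4 : h ^ ((a + 1) * (k + 1)) • W ^ (k + 2) + u • (W + h ^ (a + 2) • (W * W * S)) = 0 := by
      refine tor_cancel (pow_ne_zero (a + 2 + (k + 1)) h0) ?_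
      rw [h1, smul_zero]
    have h5 : W = - (h ^ (a + 2) • (W * W * S)) - v • (h ^ ((a + 1) * (k + 1)) • W ^ (k + 2)) := by
      have h6 : v • (h ^ ((a + 1) * (k + 1)) • W ^ (k + 2) +
          u • (W + h ^ (a + 2) • (W * W * S))) = 0 := by rw [h4, smul_zero]
      rw [smul_add, smul_smul v u, mul_comm v u, huv, one_smul] at h6
      have h7 := eq_neg_of_add_eq_zero_right h6
      rw [eq_sub_iff_add_eq, eq_neg_iff_add_eq_zero]
      rw [← h6]
      abel
    refine ⟨- (h ^ (a + 1) • (W * W * S)) -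
      v • (h ^ ((a + 1) * k + a) • W ^ (k + 2)), ?_⟩
    rw [smul_sub, smul_neg, smul_smul h (h ^ (a + 1)), smul_comm h v, smul_smul h (h ^ _),
      ← pow_succ', ← pow_succ']
    rw [show (a + 1) * k + a + 1 = (a + 1) * (k + 1) by ring]
    exact h5
  · obtain ⟨Q, hQ⟩ := tor_expand (h ^ (a + 2) • W) l
    rw [hW] at hQ
    have hcast : ((l : ℕ) : Matrix ι ι R) = ((l : ℕ) : R) • (1 : Matrix ι ι R) := by
      rw [Nat.cast_smul_eq_nsmul, nsmul_one]
    have h1 : h ^ (a + 2) • ((l : R) • W + h ^ (a + 2) • (W * W * Q)) = 0 := by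
      have h2 : (l : Matrix ι ι R) * (h ^ (a + 2) • W) +
          (h ^ (a + 2) • W) * (h ^ (a + 2) • W) * Q = 0 := by
        have h3 : (1 : Matrix ι ι R) + 0 = 1 + ((l : Matrix ι ι R) * (h ^ (a + 2) • W) +
            (h ^ (a + 2) • W) * (h ^ (a + 2) • W) * Q) := by
          rw [add_zero, ← add_assoc]; exact hQ
        exact (add_left_cancel h3).symm
      rw [hcast] at h2
      rw [← h2, smul_mul_assoc, one_mul, smul_mul_assoc, mul_smul_comm, smul_mul_assoc,
        smul_mul_assoc]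
      simp only [smul_add, smul_smul]
      congr 1
      congr 1
      ring
    have h4 : (l : R) • W + h ^ (a + 2) • (W * W * Q) = 0 := by
      refine tor_cancel (pow_ne_zero (a + 2) h0) ?_
      rw [h1, smul_zero]
    have h5 : (l : R) • W = - (h ^ (a + 2) • (W * W * Q)) := eq_neg_of_add_eq_zero_left h4
    have hcop : Nat.Coprime l p := (Nat.coprime_primes hl hp).2 hlp
    have hbez := Nat.gcd_eq_gcd_ab l p
    rw [hcop] at hbez
    have hbezR : (1 : R) = (l : R) * ((l.gcdA p : ℤ) : R) + (p : R) * ((l.gcdB p : ℤ) : R) := by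
      have := congrArg (fun z : ℤ => (z : R)) hbez
      push_cast at this
      exact this
    have h6 : W = ((l.gcdA p : ℤ) : R) • ((l : R) • W) +
        ((l.gcdB p : ℤ) : R) • ((p : R) • W) := by
      rw [smul_smul, smul_smul, ← add_smul]
      rw [mul_comm _ (l : R), mul_comm _ (p : R), ← hbezR, one_smul]
    obtain ⟨k, rfl⟩ : ∃ k, p = k + 2 := ⟨p - 2, by have := hp.two_le; omega⟩
    rw [show k + 2 - 1 = k + 1 by omega] at hpu
    refine ⟨((l.gcdA (k + 2) : ℤ) : R) • (- (h ^ (a + 1) • (W * W * Q))) +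
      ((l.gcdB (k + 2) : ℤ) : R) • ((u * h ^ k) • W), ?_⟩
    have e1 : h • (- (h ^ (a + 1) • (W * W * Q))) = - (h ^ (a + 2) • (W * W * Q)) := by
      rw [smul_neg, smul_smul, ← pow_succ']
    have e2 : h • ((u * h ^ k) • W) = ((k + 2 : ℕ) : R) • W := by
      rw [smul_smul, hpu]
      congr 1
      ring
    rw [smul_add, smul_comm h, smul_comm h, e1, e2, ← h5]
    exact h6

/-- the statement in a domain -/
private theorem tor_domain {h u v : R} {p : ℕ} (hp : p.Prime) (h0 : h ≠ 0)
    (huv : u * v = 1) (hpu : (p : R) = u * h ^ (p - 1))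
    (hsep : ∀ x : R, (∀ n : ℕ, ∃ y : R, x = h ^ n * y) → x = 0) :
    ∀ N : ℕ, 0 < N → ∀ Z : Matrix ι ι R, (1 + h ^ 2 • Z) ^ N = 1 → Z = 0 := by
  -- prime exponents
  have hprime : ∀ l : ℕ, l.Prime → ∀ Z : Matrix ι ι R, (1 + h ^ 2 • Z) ^ l = 1 → Z = 0 := by
    intro l hl Z hZ
    have hdesc : ∀ a : ℕ, ∃ W : Matrix ι ι R, Z = h ^ a • W := by
      intro a
      induction a with
      | zero => exact ⟨Z, by simp⟩
      | succ a ih =>
        obtain ⟨W, hW⟩ := ih
        have h1 : (1 + h ^ (a + 2) • W) ^ l = 1 := by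
          rw [hW, smul_smul] at hZ
          rw [show h ^ (a + 2) = h ^ 2 * h ^ a by ring]
          exact hZ
        obtain ⟨W', hW'⟩ := tor_step hp h0 huv hpu hl a W h1
        refine ⟨W', ?_⟩
        rw [hW, hW', smul_smul, ← pow_succ]
    ext i j
    rw [Matrix.zero_apply]
    refine hsep _ fun n => ?_
    obtain ⟨W, hW⟩ := hdesc n
    refine ⟨W i j, ?_⟩
    rw [hW, Matrix.smul_apply, smul_eq_mul]
  intro N
  induction N using Nat.strong_induction_on with
  | _ N ih =>
    intro hN Z hZ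
    by_cases h1 : N = 1
    · subst h1
      rw [pow_one] at hZ
      have h2 : h ^ 2 • Z = 0 := by
        have : (1 : Matrix ι ι R) + h ^ 2 • Z = 1 + 0 := by rw [hZ, add_zero]
        exact add_left_cancel this
      refine tor_cancel (pow_ne_zero 2 h0) ?_
      rw [h2, smul_zero]
    · have hlp := Nat.minFac_prime h1
      obtain ⟨m, hm⟩ := Nat.minFac_dvd N
      have hm0 : 0 < m := by
        rcases Nat.eq_zero_or_pos m with h | h
        · rw [h, mul_zero] at hm; omega
        · exact h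
      have hmN : m < N := by
        have := hlp.two_le
        nlinarith
      obtain ⟨Q, hQ⟩ := tor_expand (h ^ 2 • Z) m
      have hform : (1 + h ^ 2 • Z) ^ m = 1 + h ^ 2 • ((m : R) • Z + h ^ 2 • (Z * Z * Q)) := by
        rw [hQ]
        have hcast : ((m : ℕ) : Matrix ι ι R) = ((m : ℕ) : R) • (1 : Matrix ι ι R) := by
          rw [Nat.cast_smul_eq_nsmul, nsmul_one]
        rw [hcast, smul_mul_assoc, one_mul, smul_mul_assoc, mul_smul_comm, smul_mul_assoc,
          smul_mul_assoc, add_assoc]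
        simp only [smul_add, smul_smul]
        congr 1
        congr 1
        congr 1
        ring
      have hl1 : (1 + h ^ 2 • ((m : R) • Z + h ^ 2 • (Z * Z * Q))) ^ N.minFac = 1 := by
        rw [← hform, ← pow_mul, mul_comm m, ← hm]
        exact hZ
      have h3 := hprime _ hlp _ hl1
      rw [h3, smul_zero, add_zero] at hform
      exact ih m hmN hm0 Z hform

end

theorem thm_Tor : St_Tor := by
  intro R h u p hp _ hR h0 hu hu' hu0 hpu hsep ι _ _ Z hZ N hN hpow
  set h' : R := ⟨h, hR⟩ with hh'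
  set u' : R := ⟨u, hu⟩ with hu1
  set v' : R := ⟨u⁻¹, hu'⟩ with hv1
  set Z' : Matrix ι ι R := Matrix.of fun i j => (⟨Z i j, hZ i j⟩ : R) with hZ'
  have hh0 : h' ≠ 0 := by
    intro hc
    exact h0 (congrArg Subtype.val hc)
  have huv : u' * v' = 1 := Subtype.ext (mul_inv_cancel₀ hu0)
  have hpu' : ((p : ℕ) : R) = u' * h' ^ (p - 1) := by
    apply Subtype.ext
    push_cast
    exact hpu
  have hsep' : ∀ x : R, (∀ n : ℕ, ∃ y : R, x = h' ^ n * y) → x = 0 := by
    intro x hx
    apply Subtype.ext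
    refine hsep x.1 x.2 fun n => ?_
    obtain ⟨y, hy⟩ := hx n
    refine ⟨y.1, y.2, ?_⟩
    have := congrArg Subtype.val hy
    push_cast at this
    exact this
  have hinj : Function.Injective (R.subtype.mapMatrix : Matrix ι ι R →+* Matrix ι ι ℂ) := by
    intro X Y hXY
    ext i j
    have := congrFun (congrFun hXY i) j
    exact this
  have hmap : R.subtype.mapMatrix Z' = Z := by
    ext i j
    rfl
  have hsm : R.subtype.mapMatrix (h' ^ 2 • Z') = h ^ 2 • Z := by
    ext i j
    rfl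
  have hpow' : (1 + h' ^ 2 • Z') ^ N = 1 := by
    apply hinj
    rw [map_pow, map_add, map_one, hsm]
    exact hpow
  have h1 := tor_domain hp hh0 huv hpu' hsep' N hN Z' hpow'
  rw [← hmap, h1, map_zero]

end Pool.Agent.AMS
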