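import Pool.Agent.AMS.NB

/-!
# A relation which holds at infinitely many levels holds generically (UPW)
-/

set_option autoImplicit false

namespace Pool.Agent.AMS

private theorem Up_bdd {α : Type} (F : List α) (f : α → ℕ) : ∃ s, ∀ x ∈ F, f x ≤ s := by
  induction F with
  | nil => exact ⟨0, fun x hx => by simp at hx⟩
  | cons a F ih =>
    obtain ⟨s, hs⟩ := ih
    refine ⟨max s (f a), fun x hx => ?_⟩
    rcases List.mem_cons.1 hx with rfl | hx
    · exact le_max_right _ _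
    · exact (hs x hx).trans (le_max_left _ _)

private theorem Up_bddF {α : Type} [Finite α] (f : α → ℕ) : ∃ s, ∀ x, f x ≤ s := by
  obtain ⟨s, hs⟩ := (Set.finite_range f).bddAbove
  exact ⟨s, fun x => hs ⟨x, rfl⟩⟩

/-- For large `M` and then large `r` a state is good. -/
theorem Up_good {H : Type} [Finite H] (Γ : Fat H) (φ : H → ℤ) (hφ : IsFlow Γ φ) (n : ℕ)
    (δ : H → ℤ) : ∃ M₀ : ℕ, ∀ M ≥ M₀, ∃ r₀ : ℕ, ∀ r ≥ r₀, Good Γ φ n M r δ := by
  obtain ⟨D, hD⟩ := Up_bddF fun h => (δ h).natAbs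
  have hD' : ∀ h, |δ h| ≤ D := fun h => by
    have := hD h
    rw [Int.abs_eq_natAbs]
    exact_mod_cast this
  refine ⟨3 * (n + 1) + 3 * D, fun M hM => ?_⟩
  obtain ⟨E, hE⟩ := Up_bddF fun h => (3 * ((M : ℤ) * |φ h| + δ h + n + 1) + 4).toNat
  have hE' : ∀ h, 3 * ((M : ℤ) * |φ h| + δ h + n + 1) + 4 ≤ E := fun h => by
    have := hE h
    omega
  have hM' : (3 * (n + 1) + 3 * D : ℤ) ≤ M := by exact_mod_cast hM
  refine ⟨E, fun r hr => ⟨fun h hh => ?_, fun h => ?_, fun h hl hh => ?_⟩⟩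
  · have h1 : 1 ≤ |φ h| := Int.one_le_abs hh
    have h2 := abs_le.1 (hD' h)
    have h3 : (M : ℤ) * 1 ≤ M * |φ h| := mul_le_mul_of_nonneg_left h1 (by positivity)
    linarith [h2.1]
  · have h1 := hE' h
    have h2 : (E : ℤ) ≤ r := by exact_mod_cast hr
    have h3 : (0 : ℤ) ≤ E := by positivity
    linarith
  · have h1 : |φ h| + 1 ≤ |φ (Γ.nxt h)| + |φ (Γ.nxt (Γ.nxt h))| := by
      have h2 := NB_wall hφ hl
      have h3 := abs_nonneg (φ h)
      have h4 := abs_nonneg (φ (Γ.nxt h))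
      have h5 := abs_nonneg (φ (Γ.nxt (Γ.nxt h)))
      omega
    have h2 := abs_le.1 (hD' h)
    have h3 := abs_le.1 (hD' (Γ.nxt h))
    have h4 := abs_le.1 (hD' (Γ.nxt (Γ.nxt h)))
    have h5 : (M : ℤ) * (|φ h| + 1) ≤ M * (|φ (Γ.nxt h)| + |φ (Γ.nxt (Γ.nxt h))|) :=
      mul_le_mul_of_nonneg_left h1 (by positivity)
    linarith [h2.2, h3.1, h4.1]

/-- Near a good state the entries of a formal combination at level `r` are the generic ones. -/
theorem Up_entry (hL : St_Link) {H : Type} [Finite H] (Γ : Fat H) (φ : H → ℤ) (hφ : IsFlow Γ φ)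
    (col : H → ℕ) (n M r : ℕ) (p q : H) (F : FC Γ p q) (hF : ∀ x ∈ F, x.2.2.size ≤ n)
    (δ : GSt Γ φ col p) (δ' : GSt Γ φ col q) (hg : Good Γ φ n M r δ.1)
    (hn : ∀ h, |δ'.1 h - δ.1 h| ≤ n) {K : Type} [Field K] (A : K) (hA : A ≠ 0) :
    ∃ (c : St Γ r col p) (c' : St Γ r col q), (∀ h, (c.1 h : ℤ) = M * |φ h| + δ.1 h) ∧
      (∀ h, (c'.1 h : ℤ) = M * |φ h| + δ'.1 h) ∧ F.mat r col A c' c =
        (F.gop φ col (gen φ A (A ^ M)) A (Finsupp.single δ 1)) δ' := by
  obtain ⟨h1, h2⟩ := hL H Γ φ hφ col n M r δ.1 hg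
  obtain ⟨c, hc⟩ := (h1 p δ.1 (fun h => by simp)).1 δ.2
  obtain ⟨c', hc'⟩ := (h1 q δ'.1 hn).1 δ'.2
  refine ⟨c, c', hc, hc', ?_⟩
  unfold FC.mat FC.gop
  clear hn
  induction F with
  | nil => simp
  | cons x F ih =>
    have h3 := ih (fun y hy => hF y (List.mem_cons_of_mem _ hy))
    have h4 := (h2 K A hA p q x.2.2 (hF x List.mem_cons_self) δ.2 c hc).1 δ' c' hc'
    simp only [List.map_cons, List.sum_cons, Matrix.add_apply, Matrix.smul_apply,
      LinearMap.add_apply, LinearMap.smul_apply, Finsupp.add_apply, Finsupp.smul_apply,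
      smul_eq_mul]
    rw [h3, h4]
    rfl

/-- Quantum numbers at `τ = A ^ M`. -/
theorem Up_gcur {K : Type} [Field K] (A : K) (hA : A ≠ 0) (M : ℕ) (m n : ℤ) :
    gcur A (A ^ M) m n = cur A (M * m + n) := by
  unfold gcur cur
  rw [← zpow_natCast, ← zpow_mul, ← zpow_mul, ← zpow_add₀ hA, ← zpow_add₀ hA]
  congr 2
  ring

/-- Quantum numbers at a root of unity of large order do not vanish. -/
theorem Up_cur {A : ℂ} {r : ℕ} (hA : IsPrimitiveRoot A (4 * r)) (n : ℤ) (h0 : 0 < n)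
    (h1 : n < 2 * r) : cur A n ≠ 0 := by
  unfold cur
  intro h
  have hr : 0 < r := by omega
  have hA0 : A ≠ 0 := hA.ne_zero (by omega)
  have h2 : A ^ (2 * n) = 1 := by
    have h3 : A ^ n = A ^ (-n) := sub_eq_zero.1 h
    rw [two_mul, zpow_add₀ hA0]
    nth_rewrite 1 [h3]
    rw [← zpow_add₀ hA0, neg_add_cancel, zpow_zero]
  have h3 := (hA.zpow_eq_one_iff_dvd (2 * n)).1 h2
  have h4 := Int.le_of_dvd (by omega) h3
  push_cast at h4
  omega

theorem thm_Up (hR : St_Rep) (hL : St_Link) : St_Up := by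
  intro H _ Γ φ hφ col p q F A hA hinf K _ B τ hnd
  refine Finsupp.lhom_ext fun δ b => ?_
  have hb : (Finsupp.single δ b : GSt Γ φ col p →₀ K) = b • Finsupp.single δ 1 := by
    rw [Finsupp.smul_single, smul_eq_mul, mul_one]
  rw [hb, map_smul, map_smul]
  congr 1
  refine Finsupp.ext fun δ' => ?_
  simp only [LinearMap.zero_apply, Finsupp.coe_zero, Pi.zero_apply]
  obtain ⟨s, hs⟩ := Up_bdd F fun x => x.2.2.size
  obtain ⟨t, ht⟩ := Up_bddF fun h => (δ'.1 h - δ.1 h).natAbs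
  set n := max s t with hn
  have hsn : ∀ x ∈ F, x.2.2.size ≤ n := fun x hx => (hs x hx).trans (le_max_left _ _)
  have htn : ∀ h, |δ'.1 h - δ.1 h| ≤ n := fun h => by
    have h1 := ht h
    rw [Int.abs_eq_natAbs]
    exact_mod_cast h1.trans (le_max_right _ _)
  obtain ⟨N, L, i, j, hL1, hL2⟩ := hR H Γ φ hφ col p q F n hsn δ δ'
  obtain ⟨M₀, hM₀⟩ := Up_good Γ φ hφ n δ.1
  obtain ⟨m₁, hm₁⟩ := Up_bdd L fun x => x.2.natAbs
  have hN : N = 0 := by
    have key : ∀ M : ℕ, max M₀ (m₁ + 1) ≤ M → N.eval (Polynomial.X ^ M) = 0 := by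
      intro M hM
      have hM1 : M₀ ≤ M := (le_max_left _ _).trans hM
      have hM2 : m₁ + 1 ≤ M := (le_max_right _ _).trans hM
      obtain ⟨r₀, hr₀⟩ := hM₀ M hM1
      obtain ⟨e, he⟩ := Up_bdd L fun x => ((M : ℤ) * x.1 + x.2).natAbs
      have hroot : ∀ r : ℕ, max (max r₀ 2) (e + 1) ≤ r → F.mat r col (A r) = 0 →
          (N.eval (Polynomial.X ^ M)).eval₂ (Int.castRingHom ℂ) (A r) = 0 := by
        intro r hr hz
        have hr1 : r₀ ≤ r := (le_max_left _ _).trans ((le_max_left _ _).trans hr)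
        have hr2 : 2 ≤ r := (le_max_right _ _).trans ((le_max_left _ _).trans hr)
        have hr3 : e + 1 ≤ r := (le_max_right _ _).trans hr
        have hp := hA r hr2
        have hA0 : A r ≠ 0 := hp.ne_zero (by omega)
        obtain ⟨c, c', -, -, hcc⟩ := Up_entry hL Γ φ hφ col n M r p q F hsn δ δ' (hr₀ r hr1) htn
          (A r) hA0
        have hL3 := hL2 ℂ (A r) (A r ^ M) hA0 (pow_ne_zero _ hA0) (fun x hx => by
          rw [Up_gcur (A r) hA0]
          obtain ⟨h1, h2, -⟩ := hL1 x hx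
          have h3 := he x hx
          have h4 := hm₁ x hx
          refine Up_cur hp _ ?_ ?_
          · rcases h1.lt_or_eq with h5 | h5
            · have h6 : (M : ℤ) * 1 ≤ M * x.1 := mul_le_mul_of_nonneg_left h5 (by positivity)
              omega
            · have h7 := h2 h5.symm
              rw [← h5]
              simpa using h7
          · omega)
        rw [← hcc, hz] at hL3
        simp only [Matrix.zero_apply, zero_mul] at hL3
        rw [Polynomial.eval₂_eq_eval_map] at hL3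
        have h8 : (N.eval (Polynomial.X ^ M)).eval₂ (Int.castRingHom ℂ) (A r) =
            N.eval₂ (Polynomial.eval₂RingHom (Int.castRingHom ℂ) (A r)) (A r ^ M) := by
          have h9 := Polynomial.hom_eval₂ N (RingHom.id _)
            (Polynomial.eval₂RingHom (Int.castRingHom ℂ) (A r)) (Polynomial.X ^ M)
          rw [RingHom.comp_id, map_pow, Polynomial.coe_eval₂RingHom, Polynomial.eval₂_X] at h9
          exact h9
        rw [h8, Polynomial.eval₂_eq_eval_map]
        exact hL3.symm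
      have hmap : (N.eval (Polynomial.X ^ M)).map (Int.castRingHom ℂ) = 0 := by
        refine Polynomial.eq_zero_of_infinite_isRoot _ ?_
        have hS : Set.Infinite {r : ℕ | max (max r₀ 2) (e + 1) ≤ r ∧ F.mat r col (A r) = 0} := by
          refine Set.infinite_of_not_bddAbove fun ⟨R, hR⟩ => ?_
          obtain ⟨r, hr, hz⟩ := hinf (max (max (max r₀ 2) (e + 1)) (R + 1))
          have h1 : r ≤ R := hR ⟨(le_max_left _ _).trans hr, hz⟩
          have h2 : R + 1 ≤ r := (le_max_right _ _).trans hr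
          omega
        refine Set.Infinite.mono ?_ (hS.image (f := A) ?_)
        · rintro _ ⟨r, ⟨hr, hz⟩, rfl⟩
          rw [Set.mem_ofPred_eq, Polynomial.IsRoot.def, Polynomial.eval_map]
          exact hroot r hr hz
        · rintro r ⟨hr, -⟩ r' ⟨hr', -⟩ hrr
          have hr2 : 2 ≤ r := (le_max_right _ _).trans ((le_max_left _ _).trans hr)
          have hr2' : 2 ≤ r' := (le_max_right _ _).trans ((le_max_left _ _).trans hr')
          have h1 := hA r hr2
          have h2 := hA r' hr2'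
          rw [hrr] at h1
          have := h1.unique h2
          omega
      exact (Polynomial.map_eq_zero_iff (RingHom.injective_int _)).1 hmap
    refine Polynomial.eq_zero_of_infinite_isRoot _ ?_
    have hS : Set.Infinite {M : ℕ | max M₀ (m₁ + 1) ≤ M} := Set.Ici_infinite _
    refine Set.Infinite.mono ?_ (hS.image (f := fun M : ℕ => (Polynomial.X ^ M : Polynomial ℤ)) ?_)
    · rintro _ ⟨M, hM, rfl⟩
      exact key M hM
    · intro M _ M' _ hMM
      have h1 := congrArg Polynomial.natDegree hMM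
      simpa using h1
  have hfin := hL2 K B τ hnd.1 hnd.2.1 (fun x hx => hnd.2.2 _ _ (hL1 x hx).1 (hL1 x hx).2.1)
  rw [hN, Polynomial.eval₂_zero] at hfin
  have h1 : (L.map fun x => gcur B τ x.1 x.2).prod ≠ 0 := by
    refine List.prod_ne_zero fun h0 => ?_
    obtain ⟨x, hx, hx0⟩ := List.mem_map.1 h0
    exact hnd.2.2 _ _ (hL1 x hx).1 (hL1 x hx).2.1 hx0
  rcases mul_eq_zero.1 hfin with h2 | h2
  · rcases mul_eq_zero.1 h2 with h3 | h3
    · rcases mul_eq_zero.1 h3 with h4 | h4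
      · exact h4
      · exact absurd h4 h1
    · exact absurd h3 (pow_ne_zero _ hnd.1)
  · exact absurd h2 (pow_ne_zero _ hnd.2.1)

end Pool.Agent.AMS
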