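import Pool.Agent.AMS.St

set_option autoImplicit false

namespace Pool.Agent.AMS

private lemma Vert_curInv (A : ℂ) (n : ℤ) : cur A⁻¹ n = -cur A n := by
  unfold cur
  simp only [inv_zpow', neg_neg]
  ring

private lemma Vert_coefInv (A : ℂ) (x x' y y' z : ℕ) : coef A⁻¹ x x' y y' z = coef A x x' y y' z := by
  unfold coef
  split_ifs
  · rw [Vert_curInv, Vert_curInv, neg_div_neg_eq]
  · rw [Vert_curInv, Vert_curInv, Vert_curInv, Vert_curInv, neg_mul_neg, neg_mul_neg]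
  · rfl
  · rw [Vert_curInv, Vert_curInv, neg_div_neg_eq]

private lemma Vert_twInv (A : ℂ) (x x' : ℕ) : tw A⁻¹ x x' = (tw A x x')⁻¹ := by
  unfold tw
  split_ifs
  · rw [inv_zpow', zpow_neg]
  · rw [inv_zpow', inv_neg, zpow_neg]

private lemma Vert_tw_ne {A : ℂ} (hA : A ≠ 0) (x x' : ℕ) : tw A x x' ≠ 0 := by
  unfold tw
  split_ifs
  · exact zpow_ne_zero _ hA
  · exact neg_ne_zero.mpr (zpow_ne_zero _ hA)

/-- the basic 2x2 identities -/
private lemma Vert_ident {A : ℂ} (hA : A ≠ 0) {x x' y z z' : ℕ} (hx : x' = x + 1 ∨ x = x' + 1)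
    (hz : z' = z + 1 ∨ z = z' + 1) (hX : cur A (2 * x + 2) ≠ 0) (hY : cur A (2 * y + 2) ≠ 0)
    (hZ : cur A (2 * z + 2) ≠ 0) :
    coef A y (y + 1) z z' x * (tw A y (y + 1) * coef A x x' y (y + 1) z) +
      coef A y (y - 1) z z' x * (tw A y (y - 1) * coef A x x' y (y - 1) z) =
      -A ^ 3 * ((tw A z z')⁻¹ * (coef A x x' z z' y * (tw A x x')⁻¹)) := by
  have h0 : ¬ (y - 1 = y + 1) := by omega
  have hA2 : ∀ n : ℤ, A ^ n ≠ 0 := fun n => zpow_ne_zero n hA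
  have e1 : ∀ n : ℤ, (A ^ (-n))⁻¹ = A ^ n := by intro n; rw [zpow_neg, inv_inv]
  have p3 : A ^ 3 = A ^ (3 : ℤ) := by norm_cast
  have f1 : (y : ℤ) - z + x + 1 = x + y - z + 1 := by ring
  have f2 : (x : ℤ) - z + y + 1 = x + y - z + 1 := by ring
  have f3 : (z : ℤ) - x + y + 1 = y - x + z + 1 := by ring
  have f4 : (z : ℤ) - y + x + 1 = x - y + z + 1 := by ring
  have f5 : (y : ℤ) + z - x + 1 = y - x + z + 1 := by ring
  have f6 : (x : ℤ) + z - y + 1 = x - y + z + 1 := by ring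
  have f7 : (y : ℤ) + z + x + 3 = x + y + z + 3 := by ring
  have f8 : (x : ℤ) + z + y + 3 = x + y + z + 3 := by ring
  rcases hx with hx | hx <;> rcases hz with hz | hz
  · simp only [coef, tw, hx, hz, if_true, h0, if_false]
    have key : cur A (x - y + z + 1) * A ^ (-(y : ℤ)) - A ^ ((y : ℤ) + 2) * cur A (x + y + z + 3) =
        -A ^ ((x : ℤ) + z + 3) * cur A (2 * y + 2) := by
      unfold cur
      simp only [mul_sub, sub_mul, ← zpow_add₀ hA, neg_mul]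
      ring_nf
    have e3 : A ^ ((x : ℤ) + z + 3) = A ^ (x : ℤ) * A ^ (z : ℤ) * A ^ 3 := by
      rw [zpow_add₀ hA, zpow_add₀ hA]; norm_cast
    rw [e1, e1, f1, f2]
    rw [e3] at key
    field_simp
    linear_combination (cur A (x + y - z + 1)) * key
  · have hz1 : ¬ (z' = z + 1) := by omega
    simp only [coef, tw, hx, hz1, if_true, h0, if_false]
    have key : cur A (y - x + z + 1) * A ^ (-(y : ℤ)) + A ^ ((y : ℤ) + 2) * cur A (x + y - z + 1) =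
        A ^ ((x : ℤ) - z + 1) * cur A (2 * y + 2) := by
      unfold cur
      simp only [mul_sub, sub_mul, ← zpow_add₀ hA]
      ring_nf
    have e3 : -A ^ 3 * ((-A ^ ((z : ℤ) + 2))⁻¹ * (cur A (x - y + z + 1) * cur A (x + y + z + 3) /
        (cur A (2 * x + 2) * cur A (2 * z + 2)) * A ^ (x : ℤ))) =
        cur A (x - y + z + 1) * cur A (x + y + z + 3) /
        (cur A (2 * x + 2) * cur A (2 * z + 2)) * A ^ ((x : ℤ) - z + 1) := by
      have e4 : A ^ ((x : ℤ) - z + 1) * A ^ ((z : ℤ) + 2) = A ^ (x : ℤ) * A ^ 3 := by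
        rw [p3, ← zpow_add₀ hA, ← zpow_add₀ hA]; congr 1; ring
      have e5 : A ^ ((x : ℤ) - z + 1) = A ^ (x : ℤ) * A ^ 3 * (A ^ ((z : ℤ) + 2))⁻¹ := by
        rw [← e4, mul_assoc, mul_inv_cancel₀ (hA2 _), mul_one]
      rw [e5, inv_neg]
      ring
    rw [e1, f4, f5, f6, f7, f8, e3]
    field_simp
    linear_combination (cur A (x - y + z + 1) * cur A (x + y + z + 3)) * key
  · have hx1 : ¬ (x' = x + 1) := by omega
    simp only [coef, tw, hz, hx1, if_true, h0, if_false]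
    have key : cur A (x + y - z + 1) * A ^ (-(y : ℤ)) + A ^ ((y : ℤ) + 2) * cur A (y - x + z + 1) =
        A ^ ((z : ℤ) - x + 1) * cur A (2 * y + 2) := by
      unfold cur
      simp only [mul_sub, sub_mul, ← zpow_add₀ hA]
      ring_nf
    have e3 : -A ^ 3 * (A ^ (z : ℤ) * (1 * (-A ^ ((x : ℤ) + 2))⁻¹)) = A ^ ((z : ℤ) - x + 1) := by
      have e4 : A ^ ((z : ℤ) - x + 1) * A ^ ((x : ℤ) + 2) = A ^ (z : ℤ) * A ^ 3 := by
        rw [p3, ← zpow_add₀ hA, ← zpow_add₀ hA]; congr 1; ring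
      have e5 : A ^ ((z : ℤ) - x + 1) = A ^ (z : ℤ) * A ^ 3 * (A ^ ((x : ℤ) + 2))⁻¹ := by
        rw [← e4, mul_assoc, mul_inv_cancel₀ (hA2 _), mul_one]
      rw [e5, inv_neg]
      ring
    rw [e1, f1, e3]
    field_simp
    linear_combination key
  · have hx1 : ¬ (x' = x + 1) := by omega
    have hz1 : ¬ (z' = z + 1) := by omega
    simp only [coef, tw, hz1, hx1, if_true, h0, if_false]
    have key : cur A (x + y + z + 3) * A ^ (-(y : ℤ)) - A ^ ((y : ℤ) + 2) * cur A (x - y + z + 1) =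
        A ^ (-(x : ℤ) - z - 1) * cur A (2 * y + 2) := by
      unfold cur
      simp only [mul_sub, sub_mul, ← zpow_add₀ hA]
      ring_nf
    have e3 : -A ^ 3 * ((-A ^ ((z : ℤ) + 2))⁻¹ * (-(cur A (z - x + y + 1) / cur A (2 * z + 2)) *
        (-A ^ ((x : ℤ) + 2))⁻¹)) =
        cur A (z - x + y + 1) / cur A (2 * z + 2) * A ^ (-(x : ℤ) - z - 1) := by
      have e4 : A ^ (-(x : ℤ) - z - 1) * (A ^ ((x : ℤ) + 2) * A ^ ((z : ℤ) + 2)) = A ^ 3 := by
        rw [p3, ← zpow_add₀ hA, ← zpow_add₀ hA]; congr 1; ring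
      have e5 : A ^ (-(x : ℤ) - z - 1) = A ^ 3 * (A ^ ((x : ℤ) + 2))⁻¹ * (A ^ ((z : ℤ) + 2))⁻¹ := by
        rw [← e4, mul_assoc, mul_assoc, ← mul_inv_rev, mul_comm (A ^ ((z : ℤ) + 2)),
          mul_inv_cancel₀ (mul_ne_zero (hA2 _) (hA2 _)), mul_one]
      rw [e5, inv_neg, inv_neg]
      ring
    rw [f4, f5, f7, e3, f3]
    field_simp
    linear_combination (cur A (y - x + z + 1)) * key

private lemma Vert_cur0 {A : ℂ} : cur A 0 = 0 := by simp [cur]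

private lemma Vert_cur2r {A : ℂ} {r : ℕ} (hA : IsPrimitiveRoot A (4 * r)) (hA0 : A ≠ 0) :
    cur A (2 * r) = 0 := by
  unfold cur
  have h1 : A ^ (2 * (r : ℤ)) * A ^ (2 * (r : ℤ)) = 1 := by
    rw [← zpow_add₀ hA0]
    have h2 : (2 * (r : ℤ) + 2 * r) = ((4 * r : ℕ) : ℤ) := by push_cast; ring
    rw [h2, zpow_natCast, hA.pow_eq_one]
  rw [zpow_neg, sub_eq_zero]
  exact eq_inv_of_mul_eq_one_left h1

private lemma Vert_cur_ne {A : ℂ} {r : ℕ} (hA : IsPrimitiveRoot A (4 * r)) (hA0 : A ≠ 0) {x : ℕ}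
    (hx : x + 2 ≤ r) : cur A (2 * x + 2) ≠ 0 := by
  unfold cur
  intro h
  rw [zpow_neg, sub_eq_zero] at h
  have h1 : A ^ (2 * (x : ℤ) + 2) * A ^ (2 * (x : ℤ) + 2) = 1 := by
    nth_rewrite 2 [h]
    exact mul_inv_cancel₀ (zpow_ne_zero _ hA0)
  rw [← zpow_add₀ hA0] at h1
  have h2 : (2 * (x : ℤ) + 2 + (2 * x + 2)) = ((4 * (x + 1) : ℕ) : ℤ) := by push_cast; ring
  rw [h2, zpow_natCast] at h1
  have h3 := hA.dvd_of_pow_eq_one _ h1
  have h4 := Nat.le_of_dvd (by omega) h3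
  omega

/-- the term through a missing state vanishes, `y' = y + 1` -/
private lemma Vert_van1 {A : ℂ} {r : ℕ} (hA : IsPrimitiveRoot A (4 * r)) (hA0 : A ≠ 0)
    {x x' y z z' : ℕ} (hx : x' = x + 1 ∨ x = x' + 1) (hz : z' = z + 1 ∨ z = z' + 1)
    (h1 : Adm r x' y z) (h2 : Adm r x y z') (h : ¬ Adm r x (y + 1) z) (g : ℂ) :
    coef A y (y + 1) z z' x * (g * coef A x x' y (y + 1) z) = 0 := by
  obtain ⟨a1, a2, a3, a4, a5⟩ := h1
  obtain ⟨b1, b2, b3, b4, b5⟩ := h2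
  have hpar : Even (x + (y + 1) + z) := by
    rw [Nat.even_iff] at a1 ⊢
    omega
  have h3 : (y = x + z + 1 ∧ x' = x + 1) ∨ (x + y + z + 3 = 2 * r ∧ x = x' + 1) := by
    by_contra hcon
    apply h
    rw [Nat.even_iff] at a1 b1
    refine ⟨hpar, ?_, ?_, ?_, ?_⟩ <;> omega
  rcases h3 with ⟨h3, h4⟩ | ⟨h3, h4⟩
  · have h5 : coef A x x' y (y + 1) z = 0 := by
      simp only [coef, h4, if_true]
      have : (x : ℤ) - y + z + 1 = 0 := by rw [h3]; push_cast; ring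
      rw [this, Vert_cur0, zero_div]
    rw [h5, mul_zero, mul_zero]
  · have h6 : ¬ (z' = z + 1) := by
      rintro rfl
      omega
    have h5 : coef A y (y + 1) z z' x = 0 := by
      simp only [coef, h6, if_true, if_false]
      have : (y : ℤ) + z + x + 3 = 2 * r := by
        have : ((x + y + z + 3 : ℕ) : ℤ) = ((2 * r : ℕ) : ℤ) := by rw [h3]
        push_cast at this
        linarith
      rw [this, Vert_cur2r hA hA0, mul_zero, zero_div]
    rw [h5, zero_mul]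

/-- the term through a missing state vanishes, `y' = y - 1` -/
private lemma Vert_van2 {A : ℂ} {r : ℕ}
    {x x' y z z' : ℕ} (hx : x' = x + 1 ∨ x = x' + 1)
    (h1 : Adm r x' y z) (h : ¬ (1 ≤ y ∧ Adm r x (y - 1) z)) (g : ℂ) :
    coef A y (y - 1) z z' x * (g * coef A x x' y (y - 1) z) = 0 := by
  obtain ⟨a1, a2, a3, a4, a5⟩ := h1
  have h0 : ¬ (y - 1 = y + 1) := by omega
  have h3 : (x = y + z + 1 ∧ x = x' + 1) ∨ (z = x + y + 1 ∧ x' = x + 1) := by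
    by_contra hcon
    apply h
    rw [Nat.even_iff] at a1
    have hy : 1 ≤ y := by
      by_contra hy
      omega
    refine ⟨hy, ?_, ?_, ?_, ?_, ?_⟩
    · rw [Nat.even_iff]; omega
    all_goals omega
  rcases h3 with ⟨h3, h4⟩ | ⟨h3, h4⟩
  · have h6 : ¬ (x' = x + 1) := by omega
    have h5 : coef A x x' y (y - 1) z = 0 := by
      simp only [coef, h6, h0, if_false]
      have : (y : ℤ) - x + z + 1 = 0 := by rw [h3]; push_cast; ring
      rw [this, Vert_cur0, zero_div, neg_zero]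
    rw [h5, mul_zero, mul_zero]
  · have h5 : coef A x x' y (y - 1) z = 0 := by
      simp only [coef, h4, h0, if_true, if_false]
      have : (x : ℤ) + y - z + 1 = 0 := by rw [h3]; push_cast; ring
      rw [this, Vert_cur0, zero_mul, zero_div]
    rw [h5, mul_zero, mul_zero]

/-- a sum over a subtype supported at two points -/
private lemma Vert_sum_two {ι : Type} {P : ι → Prop} [Fintype {c : ι // P c}]
    (F : {c : ι // P c} → ℂ) (u v : ι) (huv : u ≠ v) (hF : ∀ c, F c ≠ 0 → c.1 = u ∨ c.1 = v)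
    (Eu Ev : ℂ) (hu : ∀ h : P u, F ⟨u, h⟩ = Eu) (hu' : ¬ P u → Eu = 0)
    (hv : ∀ h : P v, F ⟨v, h⟩ = Ev) (hv' : ¬ P v → Ev = 0) : ∑ c, F c = Eu + Ev := by
  classical
  by_cases pu : P u
  · by_cases pv : P v
    · have h1 : (⟨u, pu⟩ : {c : ι // P c}) ≠ ⟨v, pv⟩ := by
        intro h
        exact huv (congrArg Subtype.val h)
      rw [← hu pu, ← hv pv, ← Finset.sum_pair h1]
      symm
      apply Finset.sum_subset (Finset.subset_univ _)
      intro c _ hc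
      by_contra hne
      apply hc
      rcases hF c hne with h | h
      · exact Finset.mem_insert.mpr (Or.inl (Subtype.ext h))
      · exact Finset.mem_insert.mpr (Or.inr (Finset.mem_singleton.mpr (Subtype.ext h)))
    · rw [hv' pv, add_zero, ← hu pu]
      apply Finset.sum_eq_single
      · intro c _ hc
        by_contra hne
        rcases hF c hne with h | h
        · exact hc (Subtype.ext h)
        · exact pv (h ▸ c.2)
      · intro h
        exact absurd (Finset.mem_univ _) h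
  · by_cases pv : P v
    · rw [hu' pu, zero_add, ← hv pv]
      apply Finset.sum_eq_single
      · intro c _ hc
        by_contra hne
        rcases hF c hne with h | h
        · exact pu (h ▸ c.2)
        · exact hc (Subtype.ext h)
      · intro h
        exact absurd (Finset.mem_univ _) h
    · rw [hu' pu, hv' pv, add_zero]
      apply Finset.sum_eq_zero
      intro c _
      by_contra hne
      rcases hF c hne with h | h
      · exact pu (h ▸ c.2)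
      · exact pv (h ▸ c.2)

section

variable {H : Type} {Γ : Fat H} {r : ℕ} {col : H → ℕ}

/-- the half twist or its inverse -/
private noncomputable def Vert_g (b : Bool) (A : ℂ) (x x' : ℕ) : ℂ :=
  if b then tw A x x' else (tw A x x')⁻¹

private lemma Vert_identB {A : ℂ} (hA : A ≠ 0) (b : Bool) {x x' y z z' : ℕ}
    (hx : x' = x + 1 ∨ x = x' + 1)
    (hz : z' = z + 1 ∨ z = z' + 1) (hX : cur A (2 * x + 2) ≠ 0) (hY : cur A (2 * y + 2) ≠ 0)
    (hZ : cur A (2 * z + 2) ≠ 0) :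
    coef A y (y + 1) z z' x * (Vert_g b A y (y + 1) * coef A x x' y (y + 1) z) +
      coef A y (y - 1) z z' x * (Vert_g b A y (y - 1) * coef A x x' y (y - 1) z) =
      (if b then -A ^ 3 else -(A ^ 3)⁻¹) *
        (Vert_g (!b) A z z' * (coef A x x' z z' y * Vert_g (!b) A x x')) := by
  cases b with
  | true =>
    simp only [Vert_g, if_true, Bool.not_true, Bool.false_eq_true, if_false]
    exact Vert_ident hA hx hz hX hY hZ
  | false =>
    simp only [Vert_g, if_true, Bool.not_false, Bool.false_eq_true, if_false]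
    have h := Vert_ident (A := A⁻¹) (inv_ne_zero hA) (x := x) (x' := x') (y := y) (z := z) (z' := z')
      hx hz (by rw [Vert_curInv]; exact neg_ne_zero.mpr hX)
      (by rw [Vert_curInv]; exact neg_ne_zero.mpr hY)
      (by rw [Vert_curInv]; exact neg_ne_zero.mpr hZ)
    simp only [Vert_coefInv, Vert_twInv, inv_inv, inv_pow] at h
    exact h

private lemma Vert_opp {h : H} {c : H → ℕ} (hc : IsSt Γ r col h c) :
    IsSt Γ r col (Γ.opp h) c := by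
  obtain ⟨a1, a2, a3, a4, a5⟩ := hc
  refine ⟨a1, a2, a3, ?_, ?_⟩
  · intro k h1 h2
    rw [Γ.opp_opp] at h2
    exact a4 k h2 h1
  · rw [Γ.opp_opp]
    exact a5.symm

private lemma Vert_opp' {h : H} {c : H → ℕ} (hc : IsSt Γ r col (Γ.opp h) c) :
    IsSt Γ r col h c := by
  have h1 := Vert_opp hc
  rwa [Γ.opp_opp] at h1

/-- constructor of states -/
private def Vert_mk {p : H} (c : H → ℕ) (h : IsSt Γ r col p c) : St Γ r col p := ⟨c, h⟩

private lemma Vert_mk_val {p : H} (c : H → ℕ) (h : IsSt Γ r col p c) : (Vert_mk c h).1 = c := rfl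

variable [Finite H]

private lemma Vert_sum_one {ι : Type} [Fintype ι] (F : ι → ℂ) (i : ι) (E : ℂ)
    (h1 : ∀ j, j ≠ i → F j = 0) (h2 : F i = E) : ∑ j, F j = E := by
  rw [← h2]
  apply Finset.sum_eq_single
  · intro j _ hj
    exact h1 j hj
  · intro h
    exact absurd (Finset.mem_univ _) h

private lemma Vert_cross_mul {X : Type} (A : ℂ) (h : H) (b : Bool)
    (M : Matrix (St Γ r col (Γ.opp h)) X ℂ) (c₂ : St Γ r col h) (i : X) :
    ((Step.cross h (Γ.opp h) b rfl).mat Γ r col A * M) c₂ i =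
      Vert_g b A (c₂.1 (Γ.opp h)) (c₂.1 h) * M (Vert_mk c₂.1 (Vert_opp c₂.2)) i := by
  rw [Matrix.mul_apply]
  apply Vert_sum_one _ (Vert_mk c₂.1 (Vert_opp c₂.2))
  · intro c hc
    simp only [Step.mat, Matrix.of_apply]
    rw [if_neg, zero_mul]
    intro h1
    exact hc (Subtype.ext h1.symm)
  · simp only [Step.mat, Matrix.of_apply, Vert_mk_val, if_true, Vert_g]

private lemma Vert_cross_mul' {X : Type} (A : ℂ) (h : H) (b : Bool)
    (M : Matrix (St Γ r col h) X ℂ) (c₂ : St Γ r col (Γ.opp h)) (i : X) :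
    ((Step.cross h (Γ.opp h) b rfl).mat' Γ r col A * M) c₂ i =
      Vert_g (!b) A (c₂.1 (Γ.opp h)) (c₂.1 h) * M (Vert_mk c₂.1 (Vert_opp' c₂.2)) i := by
  rw [Matrix.mul_apply]
  apply Vert_sum_one _ (Vert_mk c₂.1 (Vert_opp' c₂.2))
  · intro c hc
    simp only [Step.mat', Matrix.of_apply]
    rw [if_neg, zero_mul]
    intro h1
    exact hc (Subtype.ext h1.symm)
  · simp only [Step.mat', Matrix.of_apply, Vert_mk_val, if_true, Vert_g]
    cases b <;> simp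

private lemma Vert_mul_cross' {X : Type} (A : ℂ) (h : H) (b : Bool)
    (M : Matrix X (St Γ r col (Γ.opp h)) ℂ) (c₂ : St Γ r col h) (i : X) :
    (M * (Step.cross h (Γ.opp h) b rfl).mat' Γ r col A) i c₂ =
      M i (Vert_mk c₂.1 (Vert_opp c₂.2)) * Vert_g (!b) A (c₂.1 (Γ.opp h)) (c₂.1 h) := by
  rw [Matrix.mul_apply]
  apply Vert_sum_one _ (Vert_mk c₂.1 (Vert_opp c₂.2))
  · intro c hc
    simp only [Step.mat', Matrix.of_apply]
    rw [if_neg, mul_zero]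
    intro h1
    exact hc (Subtype.ext h1)
  · simp only [Step.mat', Matrix.of_apply, Vert_mk_val, if_true, Vert_g]
    cases b <;> simp

omit [Finite H] in
private lemma Vert_nxt_inj {a b : H} (h : Γ.nxt a = Γ.nxt b) : a = b := by
  rw [← Γ.nxt3 a, ← Γ.nxt3 b, h]

open Classical in
/-- the intermediate states -/
private noncomputable def Vert_mid (Γ : Fat H) (c : H → ℕ) (h : H) (y' : ℕ) : H → ℕ :=
  fun k => if k = Γ.nxt h then y' else if k = h then c (Γ.opp h) else c k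

omit [Finite H] in
private lemma Vert_mid_opp {h m : H} (hl : m ≠ h) {c : H → ℕ} (hc : IsSt Γ r col h c)
    {c₁ : H → ℕ}
    (h1 : ∀ k, k ≠ h → k ≠ m → c₁ k = c k) (h2 : c₁ h = c (Γ.opp h)) :
    c₁ (Γ.opp m) = c m := by
  by_cases h3 : Γ.opp m = h
  · have h4 : Γ.opp h = m := by rw [← h3, Γ.opp_opp]
    rw [h3, h2, h4]
  · rw [h1 _ h3 (Γ.opp_ne _)]
    apply hc.2.2.2.1 _ hl
    intro h4
    exact h3 (by rw [h4, Γ.opp_opp])

omit [Finite H] in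
private lemma Vert_mid_at {c : H → ℕ} {h : H} {y' : ℕ} :
    Vert_mid Γ c h y' (Γ.nxt h) = y' := by simp [Vert_mid]

omit [Finite H] in
private lemma Vert_mid_h {c : H → ℕ} {h : H} {y' : ℕ} (hl : Γ.nxt h ≠ h) :
    Vert_mid Γ c h y' h = c (Γ.opp h) := by simp [Vert_mid, hl.symm]

omit [Finite H] in
private lemma Vert_mid_k {c : H → ℕ} {h : H} {y' : ℕ} {k : H} (k1 : k ≠ h) (k2 : k ≠ Γ.nxt h) :
    Vert_mid Γ c h y' k = c k := by simp [Vert_mid, k1, k2]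

private lemma Vert_sum_st {p : H}
    (F : St Γ r col p → ℂ) (u v : H → ℕ) (huv : u ≠ v) (hF : ∀ c, F c ≠ 0 → c.1 = u ∨ c.1 = v)
    (Eu Ev : ℂ) (hu : ∀ h : IsSt Γ r col p u, F (Vert_mk u h) = Eu)
    (hu' : ¬ IsSt Γ r col p u → Eu = 0)
    (hv : ∀ h : IsSt Γ r col p v, F (Vert_mk v h) = Ev) (hv' : ¬ IsSt Γ r col p v → Ev = 0) :
    ∑ c, F c = Eu + Ev :=
  @Vert_sum_two _ (IsSt Γ r col p) (instFintypeStOfFinite Γ r col p) F u v huv hF Eu Ev
    hu hu' hv hv'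

omit [Finite H] in
private lemma Vert_turn_pos (A : ℂ) (h : H) (l : Γ.nxt h ≠ h) (c' : St Γ r col (Γ.opp (Γ.nxt h)))
    (c : St Γ r col h)
    (hc : (∀ k, k ≠ h → k ≠ Γ.nxt h → c'.1 k = c.1 k) ∧ c'.1 h = c.1 (Γ.opp h)) :
    (Step.turn h (Γ.opp (Γ.nxt h)) l rfl).mat Γ r col A c' c =
      coef A (c.1 (Γ.opp h)) (c.1 h) (c.1 (Γ.nxt h)) (c'.1 (Γ.nxt h)) (c.1 (Γ.nxt (Γ.nxt h))) := by
  simp only [Step.mat, Matrix.of_apply]
  exact if_pos hc

omit [Finite H] in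
private lemma Vert_turn_neg (A : ℂ) (h : H) (l : Γ.nxt h ≠ h) (c' : St Γ r col (Γ.opp (Γ.nxt h)))
    (c : St Γ r col h)
    (hc : ¬ ((∀ k, k ≠ h → k ≠ Γ.nxt h → c'.1 k = c.1 k) ∧ c'.1 h = c.1 (Γ.opp h))) :
    (Step.turn h (Γ.opp (Γ.nxt h)) l rfl).mat Γ r col A c' c = 0 := by
  simp only [Step.mat, Matrix.of_apply]
  exact if_neg hc

omit [Finite H] in
private lemma Vert_turn'_pos (A : ℂ) (h q : H) (l : Γ.nxt h ≠ h) (hq : q = Γ.opp (Γ.nxt h))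
    (c : St Γ r col h) (c' : St Γ r col q)
    (hc : (∀ k, k ≠ h → k ≠ Γ.nxt h → c.1 k = c'.1 k) ∧
      c.1 (Γ.nxt h) = c'.1 (Γ.opp (Γ.nxt h))) :
    (Step.turn h q l hq).mat' Γ r col A c c' =
      coef A (c'.1 (Γ.opp (Γ.nxt h))) (c'.1 (Γ.nxt h)) (c'.1 h) (c.1 h)
          (c'.1 (Γ.nxt (Γ.nxt h))) := by
  simp only [Step.mat', Matrix.of_apply]
  exact if_pos hc

omit [Finite H] in
private lemma Vert_turn'_neg (A : ℂ) (h q : H) (l : Γ.nxt h ≠ h) (hq : q = Γ.opp (Γ.nxt h))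
    (c : St Γ r col h) (c' : St Γ r col q)
    (hc : ¬ ((∀ k, k ≠ h → k ≠ Γ.nxt h → c.1 k = c'.1 k) ∧
      c.1 (Γ.nxt h) = c'.1 (Γ.opp (Γ.nxt h)))) :
    (Step.turn h q l hq).mat' Γ r col A c c' = 0 := by
  simp only [Step.mat', Matrix.of_apply]
  exact if_neg hc

omit [Finite H] in
private lemma Vert_mid_isSt {h : H} (hl : Γ.nxt h ≠ h) {c : H → ℕ} (hc : IsSt Γ r col h c)
    {y' : ℕ} (hy : y' = c (Γ.nxt h) + 1 ∨ c (Γ.nxt h) = y' + 1)
    (ha : Adm r (c (Γ.opp h)) y' (c (Γ.nxt (Γ.nxt h)))) :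
    IsSt Γ r col (Γ.nxt h) (Vert_mid Γ c h y') := by
  have n3 := Γ.nxt3 h
  have n12 : Γ.nxt (Γ.nxt h) ≠ Γ.nxt h := fun h4 => hl (Vert_nxt_inj h4)
  have n13 : Γ.nxt (Γ.nxt h) ≠ h := fun h4 => hl (by rw [h4] at n3; exact n3)
  have m1 : Vert_mid Γ c h y' (Γ.nxt h) = y' := by simp [Vert_mid]
  have m2 : Vert_mid Γ c h y' h = c (Γ.opp h) := by simp [Vert_mid, hl.symm]
  have m3 : ∀ k, k ≠ h → k ≠ Γ.nxt h → Vert_mid Γ c h y' k = c k := by
    intro k k1 k2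
    simp [Vert_mid, k1, k2]
  have m4 : Vert_mid Γ c h y' (Γ.nxt (Γ.nxt h)) = c (Γ.nxt (Γ.nxt h)) := m3 _ n13 n12
  have m5 := Vert_mid_opp hl hc m3 m2
  obtain ⟨b1, b2, b3, b4, b5⟩ := ha
  refine ⟨?_, ?_, ?_, ?_, ?_⟩
  · intro k
    by_cases k1 : k = h
    · rw [k1, m2]; exact hc.1 _
    · by_cases k2 : k = Γ.nxt h
      · rw [k2, m1]
        omega
      · rw [m3 k k1 k2]; exact hc.1 _
  · intro k hk
    rw [m3]
    · exact hc.2.1 k hk
    · rintro rfl; exact hl hk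
    · rintro rfl; exact n12 hk
  · intro k hk
    by_cases k1 : k = h
    · rw [k1, m2, m1, m4]
      exact ⟨b1, b2, b3, b4, b5⟩
    · by_cases k2 : k = Γ.nxt h
      · rw [k2, m1, m4, n3, m2]
        rw [Nat.even_iff] at b1
        refine ⟨by rw [Nat.even_iff]; omega, ?_, ?_, ?_, ?_⟩ <;> omega
      · by_cases k3 : k = Γ.nxt (Γ.nxt h)
        · rw [k3, m4, n3, m2, m1]
          rw [Nat.even_iff] at b1
          refine ⟨by rw [Nat.even_iff]; omega, ?_, ?_, ?_, ?_⟩ <;> omega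
        · have k4 : Γ.nxt k ≠ h := fun h4 => k3 (by rw [← h4, Γ.nxt3])
          have k5 : Γ.nxt k ≠ Γ.nxt h := fun h4 => k1 (Vert_nxt_inj h4)
          have k6 : Γ.nxt (Γ.nxt k) ≠ Γ.nxt h := fun h4 => k4 (Vert_nxt_inj h4)
          have k7 : Γ.nxt (Γ.nxt k) ≠ h := fun h4 => k2 (by rw [← h4, Γ.nxt3])
          rw [m3 _ k1 k2, m3 _ k4 k5, m3 _ k7 k6]
          exact hc.2.2.1 k hk
  · intro k k1 k2
    by_cases k3 : k = h
    · rw [k3] at k2 ⊢
      rw [m2, m3 _ (Γ.opp_ne _)]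
      intro h4
      exact k2 (by rw [← h4, Γ.opp_opp])
    · by_cases k4 : Γ.opp k = h
      · have k5 : k = Γ.opp h := by rw [← k4, Γ.opp_opp]
        rw [k4, m2, m3 _ k3 k1, k5]
      · rw [m3 _ k4, m3 _ k3 k1]
        · apply hc.2.2.2.1 _ k3
          intro h4
          exact k4 (by rw [h4, Γ.opp_opp])
        · intro h4
          exact k2 (by rw [← h4, Γ.opp_opp])
  · rw [m1, m5]
    exact hy

end

/-- the key identity -/
private lemma Vert_key {H : Type} [Finite H] (Γ : Fat H) (r : ℕ) (col : H → ℕ) (A : ℂ)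
    (hA : IsPrimitiveRoot A (4 * r)) (hA0 : A ≠ 0) (b : Bool) (h : H)
    (l₁ : Γ.nxt h ≠ h) (l₂ : Γ.nxt (Γ.nxt h) ≠ Γ.nxt h)
    (l₃ : Γ.nxt (Γ.nxt (Γ.nxt h)) ≠ Γ.nxt (Γ.nxt h))
    (t₃ : Γ.opp h = Γ.opp (Γ.nxt (Γ.nxt (Γ.nxt h)))) :
    (Step.turn (Γ.nxt h) (Γ.opp (Γ.nxt (Γ.nxt h))) l₂ rfl).mat Γ r col A *
      ((Step.cross (Γ.nxt h) (Γ.opp (Γ.nxt h)) b rfl).mat Γ r col A *
        (Step.turn h (Γ.opp (Γ.nxt h)) l₁ rfl).mat Γ r col A) =
      (if b then -A ^ 3 else -(A ^ 3)⁻¹) •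
        ((Step.cross (Γ.nxt (Γ.nxt h)) (Γ.opp (Γ.nxt (Γ.nxt h))) b rfl).mat' Γ r col A *
          ((Step.turn (Γ.nxt (Γ.nxt h)) (Γ.opp h) l₃ t₃).mat' Γ r col A *
            (Step.cross h (Γ.opp h) b rfl).mat' Γ r col A)) := by
  have n3 := Γ.nxt3 h
  have n12 : Γ.nxt (Γ.nxt h) ≠ Γ.nxt h := l₂
  have n13 : Γ.nxt (Γ.nxt h) ≠ h := fun h4 => l₁ (by rw [h4] at n3; exact n3)
  ext c'' c
  rw [Matrix.smul_apply, Vert_cross_mul', Vert_mul_cross', Matrix.mul_apply]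
  simp only [Vert_cross_mul, smul_eq_mul]
  have hx : c.1 h = c.1 (Γ.opp h) + 1 ∨ c.1 (Γ.opp h) = c.1 h + 1 := c.2.2.2.2.2
  by_cases hC : (∀ k, k ≠ Γ.nxt (Γ.nxt h) → k ≠ h → c''.1 k = c.1 k) ∧
      c''.1 h = c.1 (Γ.opp h)
  · have hC3 : (∀ k, k ≠ Γ.nxt (Γ.nxt h) → k ≠ Γ.nxt (Γ.nxt (Γ.nxt h)) → c''.1 k = c.1 k) ∧
        c''.1 (Γ.nxt (Γ.nxt (Γ.nxt h))) = c.1 (Γ.opp (Γ.nxt (Γ.nxt (Γ.nxt h)))) := by
      rw [n3]
      exact hC
    rw [Vert_turn'_pos A _ _ _ _ _ _ hC3]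
    simp only [Vert_mk_val, n3]
    have g1 : c''.1 (Γ.opp (Γ.nxt (Γ.nxt h))) = c.1 (Γ.nxt (Γ.nxt h)) :=
      Vert_mid_opp n13 c.2 (fun k k1 k2 => hC.1 k k2 k1) hC.2
    have g2 : c''.1 (Γ.nxt h) = c.1 (Γ.nxt h) := hC.1 _ (Ne.symm n12) l₁
    have hz : c''.1 (Γ.nxt (Γ.nxt h)) = c.1 (Γ.nxt (Γ.nxt h)) + 1 ∨
        c.1 (Γ.nxt (Γ.nxt h)) = c''.1 (Γ.nxt (Γ.nxt h)) + 1 := by
      have := c''.2.2.2.2.2
      rw [Γ.opp_opp, g1] at this
      exact this.symm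
    have ad1 : Adm r (c.1 h) (c.1 (Γ.nxt h)) (c.1 (Γ.nxt (Γ.nxt h))) := c.2.2.2.1 h l₁
    have ad2 : Adm r (c.1 (Γ.opp h)) (c.1 (Γ.nxt h)) (c''.1 (Γ.nxt (Γ.nxt h))) := by
      have := c''.2.2.2.1 h l₁
      rw [hC.2, g2] at this
      exact this
    rw [g1, ← Vert_identB hA0 b hx hz (Vert_cur_ne hA hA0 (c.2.1 _))
      (Vert_cur_ne hA hA0 (c.2.1 _)) (Vert_cur_ne hA hA0 (c.2.1 _))]
    apply Vert_sum_st _ (Vert_mid Γ c.1 h (c.1 (Γ.nxt h) + 1))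
      (Vert_mid Γ c.1 h (c.1 (Γ.nxt h) - 1))
    · intro h4
      have h5 := congrFun h4 (Γ.nxt h)
      rw [Vert_mid_at, Vert_mid_at] at h5
      omega
    · intro x hF
      by_cases q1 : (∀ k, k ≠ h → k ≠ Γ.nxt h → x.1 k = c.1 k) ∧ x.1 h = c.1 (Γ.opp h)
      · have q2 : x.1 (Γ.opp (Γ.nxt h)) = c.1 (Γ.nxt h) := Vert_mid_opp l₁ c.2 q1.1 q1.2
        have q3 := x.2.2.2.2.2
        rw [q2] at q3
        rcases q3 with q3 | q3
        · left
          funext k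
          by_cases k1 : k = h
          · rw [k1, Vert_mid_h l₁, q1.2]
          · by_cases k2 : k = Γ.nxt h
            · rw [k2, Vert_mid_at, q3]
            · rw [Vert_mid_k k1 k2, q1.1 k k1 k2]
        · right
          funext k
          by_cases k1 : k = h
          · rw [k1, Vert_mid_h l₁, q1.2]
          · by_cases k2 : k = Γ.nxt h
            · rw [k2, Vert_mid_at]
              omega
            · rw [Vert_mid_k k1 k2, q1.1 k k1 k2]
      · exfalso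
        apply hF
        rw [Vert_turn_neg A h l₁ _ _ q1, mul_zero, mul_zero]
    · intro hs
      have w1 : ∀ k, k ≠ h → k ≠ Γ.nxt h → (Vert_mk _ hs).1 k = c.1 k :=
        fun k k1 k2 => Vert_mid_k k1 k2
      have w2 : (Vert_mk _ hs).1 h = c.1 (Γ.opp h) := Vert_mid_h l₁
      have w3 : (Vert_mk _ hs).1 (Γ.opp (Γ.nxt h)) = c.1 (Γ.nxt h) :=
        Vert_mid_opp l₁ c.2 w1 w2
      have w4 : (Vert_mk _ hs).1 (Γ.nxt h) = c.1 (Γ.nxt h) + 1 := Vert_mid_at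
      have w5 : (Vert_mk _ hs).1 (Γ.nxt (Γ.nxt h)) = c.1 (Γ.nxt (Γ.nxt h)) := w1 _ n13 n12
      have w6 : (∀ k, k ≠ Γ.nxt h → k ≠ Γ.nxt (Γ.nxt h) → c''.1 k = (Vert_mk _ hs).1 k) ∧
          c''.1 (Γ.nxt h) = (Vert_mk _ hs).1 (Γ.opp (Γ.nxt h)) := by
        refine ⟨?_, by rw [w3, g2]⟩
        intro k k1 k2
        by_cases k3 : k = h
        · rw [k3, w2, hC.2]
        · rw [w1 k k3 k1, hC.1 k k2 k3]
      rw [Vert_turn_pos A _ l₂ _ _ w6,
        Vert_turn_pos A h l₁ (Vert_mk (Vert_mk _ hs).1 (Vert_opp hs)) c ⟨w1, w2⟩]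
      rw [Vert_mk_val (p := Γ.opp (Γ.nxt h)), n3, w2, w3, w4, w5]
    · intro hs
      apply Vert_van1 hA hA0 hx hz ad1 ad2
      intro h4
      exact hs (Vert_mid_isSt l₁ c.2 (Or.inl rfl) h4)
    · intro hs
      have w1 : ∀ k, k ≠ h → k ≠ Γ.nxt h → (Vert_mk _ hs).1 k = c.1 k :=
        fun k k1 k2 => Vert_mid_k k1 k2
      have w2 : (Vert_mk _ hs).1 h = c.1 (Γ.opp h) := Vert_mid_h l₁
      have w3 : (Vert_mk _ hs).1 (Γ.opp (Γ.nxt h)) = c.1 (Γ.nxt h) :=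
        Vert_mid_opp l₁ c.2 w1 w2
      have w4 : (Vert_mk _ hs).1 (Γ.nxt h) = c.1 (Γ.nxt h) - 1 := Vert_mid_at
      have w5 : (Vert_mk _ hs).1 (Γ.nxt (Γ.nxt h)) = c.1 (Γ.nxt (Γ.nxt h)) := w1 _ n13 n12
      have w6 : (∀ k, k ≠ Γ.nxt h → k ≠ Γ.nxt (Γ.nxt h) → c''.1 k = (Vert_mk _ hs).1 k) ∧
          c''.1 (Γ.nxt h) = (Vert_mk _ hs).1 (Γ.opp (Γ.nxt h)) := by
        refine ⟨?_, by rw [w3, g2]⟩
        intro k k1 k2
        by_cases k3 : k = h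
        · rw [k3, w2, hC.2]
        · rw [w1 k k3 k1, hC.1 k k2 k3]
      rw [Vert_turn_pos A _ l₂ _ _ w6,
        Vert_turn_pos A h l₁ (Vert_mk (Vert_mk _ hs).1 (Vert_opp hs)) c ⟨w1, w2⟩]
      rw [Vert_mk_val (p := Γ.opp (Γ.nxt h)), n3, w2, w3, w4, w5]
    · intro hs
      apply Vert_van2 hx ad1
      rintro ⟨h3, h4⟩
      exact hs (Vert_mid_isSt l₁ c.2 (Or.inr (by omega)) h4)
  · have hC3 : ¬ ((∀ k, k ≠ Γ.nxt (Γ.nxt h) → k ≠ Γ.nxt (Γ.nxt (Γ.nxt h)) → c''.1 k = c.1 k) ∧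
        c''.1 (Γ.nxt (Γ.nxt (Γ.nxt h))) = c.1 (Γ.opp (Γ.nxt (Γ.nxt (Γ.nxt h))))) := by
      rw [n3]
      exact hC
    rw [Vert_turn'_neg A _ _ _ _ _ _ hC3, zero_mul, mul_zero, mul_zero]
    apply Finset.sum_eq_zero
    intro x _
    by_cases q1 : (∀ k, k ≠ h → k ≠ Γ.nxt h → x.1 k = c.1 k) ∧ x.1 h = c.1 (Γ.opp h)
    · rw [Vert_turn_neg A _ l₂, zero_mul]
      rintro ⟨q2, q3⟩
      apply hC
      refine ⟨?_, ?_⟩
      · intro k k1 k2
        by_cases k3 : k = Γ.nxt h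
        · rw [k3, q3]
          exact Vert_mid_opp l₁ c.2 q1.1 q1.2
        · rw [q2 k k3 k1, q1.1 k k2 k3]
      · rw [q2 h (Ne.symm l₁) (Ne.symm n13), q1.2]
    · rw [Vert_turn_neg A h l₁ _ _ q1, mul_zero, mul_zero]

theorem thm_Vert (hI : St_Inv) : St_Vert := by
  intro H _ Γ r hr col A hA b q h₁ h₂ h₃ q₁ q₂ e₁ l₁ t₁ e₂ l₂ t₂ e₃ l₃ t₃
  have hA0 : A ≠ 0 := hA.ne_zero (by omega)
  have opp_inj : ∀ a b : H, Γ.opp a = Γ.opp b → a = b := by
    intro a b h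
    rw [← Γ.opp_opp a, ← Γ.opp_opp b, h]
  have f2 : h₂ = Γ.nxt h₁ := opp_inj _ _ (e₂.symm.trans t₁)
  have f3 : h₃ = Γ.nxt h₂ := opp_inj _ _ (e₃.symm.trans t₂)
  subst f2
  subst f3
  subst e₁ t₁ t₂
  have hK := Vert_key Γ r col A hA hA0 b h₁ l₁ l₂ l₃ t₃
  have i1 := (hI H Γ r hr col A hA _ _ (Step.turn (Γ.nxt (Γ.nxt h₁)) (Γ.opp h₁) l₃ t₃)).2
  have i2 := (hI H Γ r hr col A hA _ _
    (Step.cross (Γ.nxt (Γ.nxt h₁)) (Γ.opp (Γ.nxt (Γ.nxt h₁))) b rfl)).2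
  have i3 := (hI H Γ r hr col A hA _ _ (Step.cross h₁ (Γ.opp h₁) b rfl)).1
  generalize (Step.turn (Γ.nxt (Γ.nxt h₁)) (Γ.opp h₁) l₃ t₃).mat Γ r col A = T3 at *
  generalize (Step.turn (Γ.nxt (Γ.nxt h₁)) (Γ.opp h₁) l₃ t₃).mat' Γ r col A = T3' at *
  generalize (Step.cross (Γ.nxt (Γ.nxt h₁)) (Γ.opp (Γ.nxt (Γ.nxt h₁))) b rfl).mat Γ r col A = G3 at *
  generalize (Step.cross (Γ.nxt (Γ.nxt h₁)) (Γ.opp (Γ.nxt (Γ.nxt h₁))) b rfl).mat' Γ r col A = G3'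
    at *
  generalize (Step.cross h₁ (Γ.opp h₁) b rfl).mat Γ r col A = G1 at *
  generalize (Step.cross h₁ (Γ.opp h₁) b rfl).mat' Γ r col A = G1' at *
  generalize (Step.turn (Γ.nxt h₁) (Γ.opp (Γ.nxt (Γ.nxt h₁))) l₂ rfl).mat Γ r col A = T2 at *
  generalize (Step.cross (Γ.nxt h₁) (Γ.opp (Γ.nxt h₁)) b rfl).mat Γ r col A = G2 at *
  generalize (Step.turn h₁ (Γ.opp (Γ.nxt h₁)) l₁ rfl).mat Γ r col A = T1 at *
  have s1 : T2 * (G2 * (T1 * G1)) = (T2 * (G2 * T1)) * G1 := by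
    simp only [Matrix.mul_assoc]
  rw [s1, hK, Matrix.smul_mul, Matrix.mul_smul, Matrix.mul_smul]
  congr 1
  calc T3 * (G3 * (G3' * (T3' * G1') * G1)) = T3 * ((G3 * G3') * (T3' * (G1' * G1))) := by
        simp only [Matrix.mul_assoc]
    _ = 1 := by rw [i2, i3, Matrix.one_mul, Matrix.mul_one, i1]

end Pool.Agent.AMS
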